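import Pool.Agent.Lib.MP_696deb_nt.ED.Main
import Pool.Agent.Lib.MP_696deb_nt.CX.Final

/-! The converse theorem for all curves with nontrivial residual character. -/

set_option autoImplicit false

open scoped Classical NNReal
open Finset Filter Topology

namespace Pool.Agent.Lib.MP_696deb_nt.EV.D

theorem fin_ac {n m : ℕ} (hn : n ≠ 0) (hm : m ≠ 0) (δ : B2.Qbar) :
    CX.ac δ (n * m ^ 3) = CX.ac δ n := funext fun g => by
  rw [CX.ac, CX.ac, CU.act_congr 1 (n' := n) (by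
    rw [CU.kk_mul hn (pow_ne_zero 3 hm), CU.kk_pow, show ((3 : ℕ) : CU.F3) = 0 from rfl, zero_mul,
      add_zero])]

theorem cnv {b D : ℤ} {n : ℕ} (t : CX.Tw b D n) (h0 : ¬ IsSquare D) (h1 : ¬ IsSquare (-3 * D)) :
    CX.Cnv b := fun h F k1 k2 => by
  obtain ⟨a, m, c, hm, rfl, -⟩ := CU.CP.exists_cf t.ne
  obtain ⟨d, fd, rel⟩ := exists_fd h0 h1
  have hδ := B2.rt_sq D
  obtain ⟨s, -, hs⟩ := CX.exists_groA t.D_ne hδ t.ne
  have g := (CX.lnk t hδ).gro (fun j => (((hs s).2 le_rfl).choose_spec j).1) h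
  rw [fin_ac c.1 hm] at g
  exact conv ⟨a, c.1, d, fd, D, _, hδ, rel⟩ c.2 g t k1 k2

theorem cnv_all {k : ℤ} (hk : k ≠ 0) : CX.Alm fun n => CX.Cnv (k * (n : ℤ) ^ 2) :=
  (CX.cnv_sq hk).mono fun _ hn h => by
    by_cases e : IsSquare k ∨ IsSquare (-3 * k)
    · exact h e
    rw [not_or] at e
    refine cnv (CX.tw hk hn) e.2 fun ⟨c, hc⟩ => e.1 ?_
    obtain ⟨c, rfl⟩ := Int.prime_three.dvd_of_dvd_pow (n := 2) (a := c) ⟨3 * k, by linarith⟩
    exact ⟨c, by linarith⟩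

/-- The distribution of the corank with the converse theorem for all families. -/
theorem tend {k : ℤ} (hk : k ≠ 0) {r : ℕ} (hr : r ≤ 1) :
    Tendsto (fun X : ℕ => (Set.ncard {n : ℕ | 1 ≤ n ∧ n ≤ X ∧ CX.GoodK True k r n} : ℝ) / X)
      atTop (𝓝 (1 / 2)) :=
  CX.tendK CX.parS CX.feS hk ((cnv_all hk).mono fun _ _ h _ => h) hr

end Pool.Agent.Lib.MP_696deb_nt.EV.D
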