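import Pool.Agent.Lib.MP_696deb_nt.EA.K1
import Pool.Agent.Shared.Weier.Leg

/-! The logarithm of the Klein form and its distribution relation. -/

set_option autoImplicit false

open Complex Filter Topology PeriodPair Finset
open scoped Real ComplexConjugate Classical

namespace Pool.Agent.Lib.MP_696deb_nt.ED

open Pool.Agent.Shared.Weier EA

/-- The logarithm of the absolute value of the Klein form; zero on the lattice. -/
noncomputable def lk (L : PeriodPair) (z : ℂ) : ℝ :=
  Real.log ‖sig L z * cexp (-(eta L z * z / 2))‖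

variable {L M N : PeriodPair} {z c d : ℂ} {ι κ : Type} {r : ι → ℂ} {s : κ → ℂ}

theorem lk_add {l : ℂ} (hl : l ∈ L.lattice) (z : ℂ) : lk L (z + l) = lk L z := by
  rw [lk, norm_klein_add hl, lk]

theorem lk_congr {w : ℂ} (h : z - w ∈ L.lattice) : lk L z = lk L w := by
  rw [← lk_add h w, add_sub_cancel]

theorem lk_neg (L : PeriodPair) (z : ℂ) : lk L (-z) = lk L z := by
  rw [lk, lk, sig_neg, map_neg, neg_mul_neg, neg_mul, norm_neg]

theorem lk_mem (h : z ∈ L.lattice) : lk L z = 0 := by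
  rw [lk, sig_eq_zero_iff.2 h, zero_mul, norm_zero, Real.log_zero]

theorem lk_eq (h : z ∉ L.lattice) : lk L z = Real.log ‖sig L z‖ - (eta L z * z).re / 2 := by
  rw [lk, norm_mul, Real.log_mul (norm_ne_zero_iff.2 (sig_ne h))
    (norm_ne_zero_iff.2 (exp_ne_zero _)), norm_exp, Real.log_exp, neg_re, div_ofNat_re,
    sub_eq_add_neg]

theorem lk_wp {u v : ℂ} (hu : u ∉ L.lattice) (hv : v ∉ L.lattice) (h1 : u + v ∉ L.lattice)
    (h2 : u - v ∉ L.lattice) : Real.log ‖℘[L] u - ℘[L] v‖ =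
      lk L (u + v) + lk L (u - v) - 2 * lk L u - 2 * lk L v := by
  have n : ∀ {x}, x ∉ L.lattice → ‖sig L x‖ ≠ 0 := fun h => norm_ne_zero_iff.2 (sig_ne h)
  rw [wp_sub hu hv, norm_div, norm_neg, norm_mul, norm_mul, norm_pow, norm_pow,
    Real.log_div (mul_ne_zero (n h1) (n h2))
      (mul_ne_zero (pow_ne_zero _ (n hu)) (pow_ne_zero _ (n hv))), Real.log_mul (n h1) (n h2),
    Real.log_mul (pow_ne_zero _ (n hu)) (pow_ne_zero _ (n hv)), Real.log_pow, Real.log_pow,
    lk_eq hu, lk_eq hv, lk_eq h1, lk_eq h2, map_add, map_sub]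
  simp only [add_mul, mul_add, sub_mul, mul_sub, add_re, sub_re]
  push_cast
  ring

theorem lk_deriv (h : z ∉ L.lattice) :
    HasFDerivAt (lk L) (reCLM ∘L ContinuousLinearMap.mul ℝ ℂ (Es L z)) z := by
  have s0 := sig_ne h
  have d1 := ((hasDerivAt_sig h).div_const (sig L z)).clog (by
    rw [div_self s0]; exact one_mem_slitPlane)
  have d2 := reCLM.hasFDerivAt.comp z (d1.hasFDerivAt.restrictScalars ℝ)
  have d3 := reCLM.hasFDerivAt.comp z ((eta L).hasFDerivAt.mul (hasFDerivAt_id z))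
  refine (((d2.const_add (Real.log ‖sig L z‖)).sub (d3.const_mul 2⁻¹)).congr_fderiv
    ?_).congr_of_eventuallyEq ?_
  · ext1 w
    have := re_eta_form (L := L) z w
    simp only [Es, div_self s0, mul_div_cancel_right₀ _ s0, div_one, sub_re] at this ⊢
    simp [-mul_re, mul_comm] at this ⊢
    linarith
  · filter_upwards [isOpen_compl.mem_nhds h] with w hw
    simp only [lk_eq hw, Function.comp_apply, reCLM_apply, log_re, norm_div, Pi.sub_apply,
      Pi.mul_apply, id]
    rw [Real.log_div (norm_ne_zero_iff.2 (sig_ne hw)) (norm_ne_zero_iff.2 s0)]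
    ring

theorem lk_zero (L : PeriodPair) :
    Tendsto (fun z => lk L z - Real.log ‖z‖) (𝓝[≠] 0) (𝓝 0) := by
  have c1 := (differentiable_sig0 L).continuous
  have c2 := (eta L).continuous
  have h : ContinuousAt (fun z => Real.log ‖sig0 L z‖ - (eta L z * z).re / 2) 0 :=
    (ContinuousAt.log (by fun_prop) (by simp [sig0_zero])).sub (by fun_prop)
  have k := h.tendsto.mono_left (nhdsWithin_le_nhds (s := {0}ᶜ))
  simp only [sig0_zero, norm_one, Real.log_one, mul_zero, zero_re, zero_div, sub_zero] at k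
  refine k.congr' ?_
  filter_upwards [ev_notMem (L := L) 0] with w hw
  rw [lk_eq hw, sig, norm_mul, Real.log_mul (norm_ne_zero_iff.2 (ne_zero_of_notMem hw))
    (norm_ne_zero_iff.2 (sig0_ne (mem_sdiff_compl hw)))]
  ring

/-- A system of representatives of `c⁻¹ M` modulo `L`. -/
structure Rp (L M : PeriodPair) (c : ℂ) (r : ι → ℂ) : Prop where
  ne : c ≠ 0
  le : ∀ l ∈ L.lattice, c * l ∈ M.lattice
  mem : ∀ i, c * r i ∈ M.lattice
  ex : ∀ w, c * w ∈ M.lattice → ∃ i, w - r i ∈ L.lattice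
  uq : ∀ i j, r i - r j ∈ L.lattice → i = j

namespace Rp

theorem notMem (h : Rp L M c r) (hz : c * z ∉ M.lattice) (i : ι) : z + r i ∉ L.lattice := fun k =>
  hz (by simpa [mul_add] using sub_mem (h.le _ k) (h.mem i))

theorem neg (h : Rp L M c r) : Rp L M c fun i => -r i :=
  ⟨h.ne, h.le, fun i => by simpa using h.mem i, fun w hw => (h.ex (-w) (by simpa)).imp
    fun i k => by simpa [add_comm, sub_eq_add_neg] using neg_mem k,
    fun i j k => h.uq i j (by simpa [add_comm, sub_eq_add_neg] using neg_mem k)⟩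

theorem comp (h : Rp L M c r) (k : Rp M N d s) :
    Rp L N (d * c) fun p : κ × ι => r p.2 + s p.1 / c where
  ne := mul_ne_zero k.ne h.ne
  le l hl := by rw [mul_assoc]; exact k.le _ (h.le l hl)
  mem p := by
    rw [mul_assoc, mul_add, mul_div_cancel₀ _ h.ne, mul_add]
    exact add_mem (k.le _ (h.mem _)) (k.mem _)
  ex w hw := by
    obtain ⟨j, hj⟩ := k.ex (c * w) (by rwa [← mul_assoc])
    obtain ⟨i, hi⟩ := h.ex (w - s j / c) (by rwa [mul_sub, mul_div_cancel₀ _ h.ne])
    exact ⟨(j, i), by rwa [add_comm, ← sub_sub]⟩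
  uq p q e := by
    have e1 : p.1 = q.1 := k.uq _ _ (by
      have := add_mem (sub_mem (h.le _ e) (h.mem p.2)) (h.mem q.2)
      rw [mul_sub, mul_add, mul_add, mul_div_cancel₀ _ h.ne, mul_div_cancel₀ _ h.ne] at this
      convert this using 1
      ring)
    exact Prod.ext e1 (h.uq _ _ (by rwa [e1, add_sub_add_right_eq_sub] at e))

variable [Fintype ι] [Fintype κ]

theorem sum_eq (h : Rp L M c r) (k : Rp L M c s) : ∑ i, lk L (r i) = ∑ j, lk L (s j) := by
  choose f hf using fun i => k.ex _ (h.mem i)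
  refine Fintype.sum_bijective f ⟨fun i j e => h.uq _ _ ?_, fun j => ?_⟩ _ _
    fun i => lk_congr (hf i)
  · simpa [e] using sub_mem (hf i) (hf j)
  · obtain ⟨i, hi⟩ := h.ex _ (k.mem j)
    exact ⟨i, k.uq _ _ (by simpa using neg_mem (add_mem hi (hf i)))⟩

theorem St_dist (h : Rp L M c r) {t : ℝ} (ht : 0 < t) (h1 : t ≤ 1) (z : ℂ) :
    c * St M t (c * z) = ∑ i, St L (t * ‖c‖ ^ 2) (z + r i) := by
  let e : ι × L.lattice ≃ M.lattice := Equiv.ofBijective
    (fun p => ⟨c * (p.2 - r p.1), by rw [mul_sub]; exact sub_mem (h.le _ p.2.2) (h.mem _)⟩)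
    ⟨fun p q k => by
      have k1 := mul_left_cancel₀ h.ne (congrArg Subtype.val k)
      have k2 : p.1 = q.1 := h.uq _ _ (by
        convert sub_mem p.2.2 q.2.2 using 1
        linear_combination -k1)
      exact Prod.ext k2 (Subtype.ext (by rwa [k2, sub_left_inj] at k1)), fun l => by
      obtain ⟨i, hi⟩ := h.neg.ex (l / c) (by rw [mul_div_cancel₀ _ h.ne]; exact l.2)
      exact ⟨(i, ⟨_, hi⟩), Subtype.ext (by simp [mul_div_cancel₀ _ h.ne])⟩⟩
  have sm : Summable fun p => (gs t (c * z - e p) : ℂ) / (c * z - e p) :=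
    e.summable_iff.2 (summable_St ht h1 (c * z))
  rw [St, ← e.tsum_eq, sm.tsum_prod, tsum_fintype, mul_sum]
  refine sum_congr rfl fun i _ => ?_
  rw [St, ← tsum_mul_left]
  refine tsum_congr fun l => ?_
  have e1 : c * z - (e (i, l) : ℂ) = c * (z + r i - l) := by
    change _ - c * (l - r i) = _
    ring
  have e2 : gs t (c * (z + r i - l)) = gs (t * ‖c‖ ^ 2) (z + r i - l) := by
    rw [gs, gs, norm_mul]
    congr 1
    ring
  rw [e1, e2, ← mul_div_assoc, mul_div_mul_left _ _ h.ne]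

theorem Es_dist (h : Rp L M c r) (hz : c * z ∉ M.lattice) :
    c * Es M (c * z) = ∑ i, Es L (z + r i) := by
  have c0 : 0 < ‖c‖ ^ 2 := pow_pos (norm_pos_iff.2 h.ne) 2
  have k : Tendsto (fun t : ℝ => t * ‖c‖ ^ 2) (𝓝[>] 0) (𝓝[>] 0) :=
    tendsto_nhdsWithin_iff.2 ⟨((continuous_mul_const _).tendsto' 0 0 (zero_mul _)).mono_left
      nhdsWithin_le_nhds, eventually_nhdsWithin_of_forall fun t ht => mul_pos ht c0⟩
  refine tendsto_nhds_unique_of_eventuallyEq ((tendsto_St hz).const_mul c)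
    (tendsto_finsetSum _ fun i _ => (tendsto_St (h.notMem hz i)).comp k) ?_
  filter_upwards [Ioc_mem_nhdsGT one_pos] with t ht
  exact h.St_dist ht.1 ht.2 z

/-- The distribution relation. -/
theorem dist (h : Rp L M c r) (hz : c * z ∉ M.lattice) :
    ∑ i, lk L (z + r i) = lk M (c * z) - Real.log ‖c‖ + ∑ i, lk L (r i) := by
  have c0 := h.ne
  let f : ℂ → ℝ := fun w => ∑ i, lk L (w / c + r i) - lk M w
  have d : ∀ w ∉ M.lattice, HasFDerivAt f (0 : ℂ →L[ℝ] ℝ) w := fun w hw => by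
    have hw' : c * (w / c) ∉ M.lattice := by rwa [mul_div_cancel₀ _ c0]
    have d0 := fun i => (((hasDerivAt_id w).div_const c).add_const
      (r i)).hasFDerivAt.restrictScalars ℝ
    refine ((HasFDerivAt.fun_sum fun i _ => HasFDerivAt.comp (g := lk L) w
      (lk_deriv (h.notMem hw' i)) (d0 i)).sub (lk_deriv hw)).congr_fderiv ?_
    ext1 x
    have e := h.Es_dist hw'
    rw [mul_div_cancel₀ _ c0] at e
    have e2 : ∑ i, (Es L (w / c + r i) * (x * c⁻¹)).re = (Es M w * x).re := by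
      rw [← re_sum, ← sum_mul, ← e]
      congr 1
      field_simp
    simpa [-mul_re, sub_eq_zero] using e2
  have k : ∀ w ∉ M.lattice, f w = f (c * z) := fun w hw =>
    isOpen_compl.is_const_of_fderiv_eq_zero (𝕜 := ℝ) isPreconnected_compl
      (fun x hx => (d x hx).differentiableAt.differentiableWithinAt)
      (fun x hx => (d x hx).fderiv) hw hz
  obtain ⟨i₀, hi⟩ := h.ex 0 (by simp)
  have hi' : r i₀ ∈ L.lattice := by simpa using hi
  have t0 : Tendsto (fun w => w / c) (𝓝[≠] 0) (𝓝[≠] (0 : ℂ)) :=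
    tendsto_nhdsWithin_iff.2 ⟨((continuous_id.div_const c).tendsto' 0 0 (zero_div _)).mono_left
      nhdsWithin_le_nhds, eventually_nhdsWithin_of_forall fun w hw => div_ne_zero hw c0⟩
  have t1 : Tendsto (fun w => ∑ i ∈ univ.erase i₀, lk L (w / c + r i)) (𝓝[≠] 0)
      (𝓝 (∑ i ∈ univ.erase i₀, lk L (r i))) := tendsto_finsetSum _ fun i hi₁ => by
    have n : r i ∉ L.lattice := fun e => ne_of_mem_erase hi₁ (h.uq _ _ (sub_mem e hi'))
    refine (lk_deriv n).continuousAt.tendsto.comp ?_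
    simpa using (t0.mono_right nhdsWithin_le_nhds).add_const (r i)
  have t2 := ((((lk_zero L).comp t0).add t1).sub (lk_zero M)).sub_const (Real.log ‖c‖)
  have t3 := tendsto_nhds_unique_of_eventuallyEq t2 (tendsto_const_nhds (x := f (c * z))) (by
    filter_upwards [ev_notMem (L := M) 0] with w hw
    rw [← k w hw]
    simp only [f, Function.comp_apply]
    rw [← add_sum_erase _ _ (mem_univ i₀), lk_add hi', norm_div,
      Real.log_div (norm_ne_zero_iff.2 (ne_zero_of_notMem hw)) (norm_ne_zero_iff.2 c0)]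
    ring)
  simp only [f, mul_div_cancel_left₀ _ c0] at t3
  rw [← add_sum_erase _ (fun i => lk L (r i)) (mem_univ i₀), lk_mem hi']
  linarith

/-- The cocycle rule for the constants. -/
theorem cocycle (h : Rp L M c r) (k : Rp M N d s) :
    ∑ p : κ × ι, lk L (r p.2 + s p.1 / c) = ∑ j, lk M (s j) +
      Fintype.card κ * (∑ i, lk L (r i) - Real.log ‖c‖) + Real.log ‖c‖ := by
  have hz : d * c * (N.ω₁ / 2 / (d * c)) ∉ N.lattice := by
    rw [mul_div_cancel₀ _ (h.comp k).ne]
    exact N.ω₁_div_two_notMem_lattice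
  generalize N.ω₁ / 2 / (d * c) = z at hz
  have e1 := (h.comp k).dist hz
  rw [mul_assoc] at hz
  have e2 := k.dist hz
  have e3 : ∀ j, ∑ i, lk L (z + (r i + s j / c)) =
      lk M (c * z + s j) + (∑ i, lk L (r i) - Real.log ‖c‖) := fun j => by
    have e := h.dist (z := z + s j / c) (by
      rw [mul_add, mul_div_cancel₀ _ h.ne]; exact k.notMem hz j)
    rw [mul_add, mul_div_cancel₀ _ h.ne] at e
    simp only [add_comm (r _), ← add_assoc]
    linarith
  rw [Fintype.sum_prod_type, sum_congr rfl fun j _ => e3 j, sum_add_distrib, e2, sum_const,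
    card_univ, nsmul_eq_mul, norm_mul, Real.log_mul (norm_ne_zero_iff.2 k.ne)
      (norm_ne_zero_iff.2 h.ne), mul_assoc d] at e1
  linarith

end Rp

end Pool.Agent.Lib.MP_696deb_nt.ED
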