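import Pool.Agent.Lib.MP_696deb_nt.ED.A1
import Pool.Agent.Lib.MP_696deb_nt.B8.PE
import Pool.Agent.Lib.MP_23455a_nt.H4.CNb

/-! The constant of the distribution relation is the logarithm of the discriminant. -/

set_option autoImplicit false

open Complex Filter Topology PeriodPair Finset
open scoped Real ComplexConjugate Classical

namespace Pool.Agent.Lib.MP_696deb_nt.ED

open Pool.Agent.Shared.Weier

variable {L M : PeriodPair} {c : ℂ} {ι : Type} {r : ι → ℂ}

/-- The half periods. -/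
noncomputable def hp (L : PeriodPair) (p : Fin 2 × Fin 2) : ℂ :=
  ((p.1 : ℤ) * L.ω₁ + (p.2 : ℤ) * L.ω₂) / 2

theorem int_mem (L : PeriodPair) (a b : ℤ) : a * L.ω₁ + b * L.ω₂ ∈ L.lattice :=
  mem_lattice.2 ⟨a, b, rfl⟩

theorem rp_half (L : PeriodPair) : Rp L L 2 (hp L) where
  ne := two_ne_zero
  le l hl := by rw [two_mul]; exact add_mem hl hl
  mem p := by rw [hp, mul_div_cancel₀ _ two_ne_zero]; exact int_mem L _ _
  ex w hw := by
    obtain ⟨a, b, e⟩ := mem_lattice.1 hw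
    refine ⟨(⟨(a % 2).toNat, by omega⟩, ⟨(b % 2).toNat, by omega⟩), ?_⟩
    have e1 : (a : ℂ) = 2 * (a / 2 : ℤ) + (((a % 2).toNat : ℤ) : ℂ) := by
      exact_mod_cast (by omega : a = 2 * (a / 2) + ((a % 2).toNat : ℤ))
    have e2 : (b : ℂ) = 2 * (b / 2 : ℤ) + (((b % 2).toNat : ℤ) : ℂ) := by
      exact_mod_cast (by omega : b = 2 * (b / 2) + ((b % 2).toNat : ℤ))
    convert int_mem L (a / 2) (b / 2) using 1
    simp only [hp]
    linear_combination -e / 2 + L.ω₁ / 2 * e1 + L.ω₂ / 2 * e2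
  uq p q e := by
    by_contra k
    refine half_notMem (L := L) (p.1 - q.1) (p.2 - q.2) ?_ (by
      convert e using 1
      simp only [hp]
      push_cast
      ring)
    clear e
    revert p q
    decide

theorem sum_half (L : PeriodPair) : 4 * ∑ p, lk L (hp L p) =
    Real.log 16 - Real.log ‖L.g₂ ^ 3 - 27 * L.g₃ ^ 2‖ := by
  have m1 := L.ω₁_mem_lattice
  have m2 := L.ω₂_mem_lattice
  have n1 := L.ω₁_div_two_notMem_lattice
  have n2 := L.ω₂_div_two_notMem_lattice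
  have n3 : (L.ω₁ + L.ω₂) / 2 ∉ L.lattice := by simpa using half_notMem (L := L) 1 1 (by simp)
  have root : ∀ l ∈ L.lattice, l / 2 ∉ L.lattice →
      4 * ℘[L] (l / 2) ^ 3 - L.g₂ * ℘[L] (l / 2) - L.g₃ = 0 := fun l hl h => by
    rw [← L.derivWeierstrassP_sq _ h,
      (wp'_eq_zero_iff h).mpr (by rwa [mul_div_cancel₀ _ two_ne_zero])]
    ring
  have key : ∀ u v w : ℂ, u ∉ L.lattice → v ∉ L.lattice → w ∉ L.lattice →
      u + v - w ∈ L.lattice → u - v - w ∈ L.lattice → ℘[L] u - ℘[L] v ≠ 0 ∧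
        Real.log ‖℘[L] u - ℘[L] v‖ = 2 * lk L w - 2 * lk L u - 2 * lk L v :=
    fun u v w hu hv hw h1 h2 => by
      have k1 : u + v ∉ L.lattice := fun e => hw (by simpa using sub_mem e h1)
      have k2 : u - v ∉ L.lattice := fun e => hw (by simpa using sub_mem e h2)
      exact ⟨wp_ne hu hv k1 k2, by rw [lk_wp hu hv k1 k2, lk_congr h1, lk_congr h2]; ring⟩
  obtain ⟨d12, e12⟩ := key _ _ _ n1 n2 n3 (by convert zero_mem L.lattice using 1; ring)
    (by convert neg_mem m2 using 1; ring)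
  obtain ⟨d13, e13⟩ := key _ _ _ n1 n3 n2 (by convert m1 using 1; ring)
    (by convert neg_mem m2 using 1; ring)
  obtain ⟨d32, e32⟩ := key _ _ _ n3 n2 n1 (by convert m2 using 1; ring)
    (by convert zero_mem L.lattice using 1; ring)
  have n := fun {x : ℂ} (h : x ≠ 0) => norm_ne_zero_iff.2 h
  rw [B8.PE.disc_eq (root _ m1 n1) (root _ m2 n2) (root _ (add_mem m1 m2) n3) d12 d13 d32, norm_mul,
    norm_pow, norm_mul, norm_mul, Real.log_mul (n (by norm_num))
      (pow_ne_zero _ (mul_ne_zero (mul_ne_zero (n d12) (n d13)) (n d32))), Real.log_pow,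
    Real.log_mul (mul_ne_zero (n d12) (n d13)) (n d32), Real.log_mul (n d12) (n d13), e12, e13, e32]
  simp only [Fintype.sum_prod_type, Fin.sum_univ_two, hp]
  simp [lk_mem (zero_mem L.lattice)]
  ring

theorem Rp.half (h : Rp L M c r) [Fintype ι] : 12 * ∑ i, lk L (r i) =
    Real.log ‖M.g₂ ^ 3 - 27 * M.g₃ ^ 2‖ + 12 * Real.log ‖c‖ -
      Fintype.card ι * Real.log ‖L.g₂ ^ 3 - 27 * L.g₃ ^ 2‖ := by
  have e1 := (rp_half L).cocycle h
  have e2 := h.cocycle (rp_half M)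
  have e3 := ((rp_half L).comp h).sum_eq (mul_comm 2 c ▸ h.comp (rp_half M))
  have e4 := sum_half L
  have e5 := sum_half M
  have e6 : Real.log 16 = 4 * Real.log ‖(2 : ℂ)‖ := by
    rw [norm_ofNat, show (16 : ℝ) = 2 ^ 4 by norm_num, Real.log_pow, Nat.cast_ofNat]
  rw [e1, e2, Fintype.card_prod, Fintype.card_fin] at e3
  push_cast at e3
  linear_combination -4 * e3 + Fintype.card ι * e4 - e5 + (Fintype.card ι - 1 : ℝ) * e6

/-- The constant for a lattice with basis `τ, 1`. -/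
theorem Rp.lam (h : Rp L M c r) [Fintype ι] {τ : ℂ} (hτ : 0 < τ.im)
    (hM : M.lattice = B2.CM.sp2 τ 1) : H3.T.Lam τ = 12 * ∑ i, lk L (r i) +
      6 * Real.log (τ.im / ‖c‖ ^ 2) - 12 * Real.log (2 * π) +
      Fintype.card ι * Real.log ‖L.g₂ ^ 3 - 27 * L.g₃ ^ 2‖ := by
  have d0 := norm_ne_zero_iff.2 (Dl_ne hτ)
  have p0 : 0 < 2 * π := by positivity
  rw [h.half, ← B8.PE.disc hτ hM, H3.T.Lam, Real.log_mul (by positivity) d0, norm_mul, norm_pow,
    show ‖(2 * π : ℂ)‖ = 2 * π by simp [abs_of_pos Real.pi_pos], Real.log_mul (by positivity) d0,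
    Real.log_div hτ.ne' (pow_ne_zero _ (norm_ne_zero_iff.2 h.ne)), Real.log_pow, Real.log_pow,
    Real.log_pow]
  push_cast
  ring

end Pool.Agent.Lib.MP_696deb_nt.ED
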