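import Pool.Agent.Lib.MP_696deb_nt.ED.A2
import Pool.Agent.Lib.MP_696deb_nt.EW.K8

/-! The lattices that are generated by the Eisenstein lattice and one division point. -/

set_option autoImplicit false

open Complex Filter Topology PeriodPair Finset
open scoped Real ComplexConjugate Classical

namespace Pool.Agent.Lib.MP_696deb_nt.ED

open EW
open CU (O)
open CL (nm normSq_toC toC_apply wC)

export CL (toC)

variable {m : ℕ} {a b : O}

theorem int_dvd {k n : ℤ} (h : (k : O) ∣ n) : k ∣ n := by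
  obtain ⟨c, e⟩ := h
  exact ⟨c.re, by simpa using congrArg QuadraticAlgebra.re e⟩

theorem int_cop {k n : ℤ} (h : IsCoprime (k : O) n) : IsCoprime k n := by
  obtain ⟨u, v, e⟩ := h
  exact ⟨u.re, v.re, by simpa [QuadraticAlgebra.re_one] using congrArg QuadraticAlgebra.re e⟩

theorem not_dvd (hm : 1 < m) (ha : IsCoprime a m) : ¬ (m : O) ∣ a := fun h => by
  have k : ((m : ℤ) : O) ∣ (1 : ℤ) := by simpa using ha.symm.isUnit_of_dvd h |>.dvd
  have := Int.le_of_dvd one_pos (int_dvd k)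
  omega

theorem fin_uq (ha : IsCoprime a m) {i j : Fin m} (h : (m : O) ∣ (i : ℕ) * a - (j : ℕ) * a) :
    i = j := by
  rw [← sub_mul] at h
  have k : ((m : ℤ) : O) ∣ (((i : ℕ) : ℤ) - (j : ℕ) : ℤ) := by
    simpa using ha.symm.dvd_of_dvd_mul_right h
  have := Int.eq_zero_of_abs_lt_dvd (int_dvd k) (abs_lt.2 ⟨by omega, by omega⟩)
  omega

theorem fin_ex (hm : 0 < m) {n : ℤ} (h : (m : O) ∣ b - n * a) :
    ∃ i : Fin m, (m : O) ∣ b - (i : ℕ) * a := by
  have m0 : (0 : ℤ) < m := by exact_mod_cast hm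
  have h1 := Int.emod_nonneg n m0.ne'
  have h2 := Int.emod_lt_of_pos n m0
  refine ⟨⟨(n % m).toNat, by omega⟩, ?_⟩
  have e : (n : O) = m * (n / m : ℤ) + ((n % m).toNat : ℕ) := by
    rw [← Int.cast_natCast (n % m).toNat, Int.toNat_of_nonneg h1]
    exact_mod_cast (Int.mul_ediv_add_emod n m).symm
  convert h.add (dvd_mul_right (m : O) ((n / m : ℤ) * a)) using 1
  linear_combination a * e

theorem exists_basis (hm : 1 < m) (ha : IsCoprime a m) : ∃ (g : ℤ) (x y : O),
    IsCoprime g m ∧ a = g * x ∧ x.re * y.im - x.im * y.re = 1 := by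
  have h0 : 0 < a.re.gcd a.im := Int.gcd_pos_iff.2 (by
    by_contra! k
    exact not_dvd hm ha (by rw [show a = 0 from QuadraticAlgebra.ext k.1 k.2]; exact dvd_zero _))
  obtain ⟨x, y, h1, h2, h3⟩ := Int.exists_gcd_one h0
  obtain ⟨u, v, e⟩ := Int.isCoprime_iff_gcd_eq_one.2 h1
  have e1 : a = ((a.re.gcd a.im : ℕ) : ℤ) * (⟨x, y⟩ : O) :=
    QuadraticAlgebra.ext (by simpa [mul_comm] using h2) (by simpa [mul_comm] using h3)
  refine ⟨_, ⟨x, y⟩, ⟨-v, u⟩, int_cop ?_, e1, by linear_combination e⟩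
  rw [e1] at ha
  simpa using ha.of_mul_left_left

/-- The constant. -/
noncomputable def KK (m : ℕ) : ℝ := 6 * Real.log (√3 / 2 * ‖Om‖ ^ 2 / m) - 12 * Real.log (2 * π) +
  m * Real.log ‖LG.g₂ ^ 3 - 27 * LG.g₃ ^ 2‖

theorem lat (hm : 1 < m) (ha : IsCoprime a m) : ∃ τ : ℂ, 0 < τ.im ∧
    (∀ s : ℝ, 1 < s → HasSum (fun b : O => (m * (√3 / 2)) ^ s *
      ((∑ i : Fin m, if (m : O) ∣ b - (i : ℕ) * a then 1 else 0) * (nm b : ℝ) ^ (-s)))
      (H3.T.Ez τ s)) ∧
    H3.T.Lam τ = 12 * ∑ i : Fin m, lk LG (Om * toC ((i : ℕ) * a) / toC m) + KK m := by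
  obtain ⟨g, x, y, ⟨s, t, hg⟩, rfl, e⟩ := exists_basis hm ha
  have m0 : (m : O) ≠ 0 := Nat.cast_ne_zero.2 (by omega)
  have m1 : (0 : ℝ) < m := Nat.cast_pos.2 (by omega)
  have x0 : x ≠ 0 := fun k => by simp [k] at e
  have x1 := coe_ne x0
  have m2 := coe_ne m0
  have x2 : (0 : ℝ) < nm x := by exact_mod_cast nm_pos x0
  let E : ℤ × ℤ → O := fun p => p.1 * m * y + p.2 * x
  have dec : ∀ b : O, b = (x.re * b.im - x.im * b.re : ℤ) * y +
      (y.im * b.re - y.re * b.im : ℤ) * x := fun b => QuadraticAlgebra.ext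
    (by simp; linear_combination -b.re * e) (by simp; linear_combination -b.im * e)
  have inj : Function.Injective E := fun p q k => by
    have k1 := congrArg QuadraticAlgebra.re k
    have k2 := congrArg QuadraticAlgebra.im k
    simp [E] at k1 k2
    have m3 : (m : ℤ) ≠ 0 := by omega
    exact Prod.ext (mul_right_cancel₀ m3 (by
      linear_combination x.re * k2 - x.im * k1 - (p.1 - q.1) * m * e))
      (by linear_combination y.im * k1 - y.re * k2 - (p.2 - q.2) * e)
  have rng : ∀ b, b ∈ Set.range E ↔ ∃ i : Fin m, (m : O) ∣ b - (i : ℕ) * (g * x) := fun b => by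
    have hg' : (s : O) * g + t * m = 1 := by exact_mod_cast hg
    constructor
    · rintro ⟨p, rfl⟩
      exact fin_ex (by omega) (n := p.2 * s) ⟨p.1 * y + p.2 * t * x, by
        simp only [E]
        push_cast
        linear_combination -(p.2 * x) * hg'⟩
    · rintro ⟨i, c, k⟩
      refine ⟨(x.re * c.im - x.im * c.re, (i : ℕ) * g + m * (y.im * c.re - y.re * c.im)), ?_⟩
      have := dec c
      simp only [E]
      push_cast at this ⊢
      linear_combination -k - m * this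
  obtain ⟨τ, hτ⟩ : ∃ τ, τ = toC m * toC y / toC x := ⟨_, rfl⟩
  have e1 : ∀ p : ℤ × ℤ, p.1 * τ + p.2 = toC (E p) / toC x := fun p => by
    simp only [E, map_add, map_mul, map_intCast, hτ]
    field_simp
  have e2 : τ.im = m * (√3 / 2) / nm x := by
    have e' : (x.re : ℝ) * y.im - x.im * y.re = 1 := by exact_mod_cast e
    rw [hτ, div_im, normSq_toC, ← sub_div]
    congr 1
    simp [toC_apply, wC]
    linear_combination m * (√3 / 2) * e'
  have t0 : 0 < τ.im := by rw [e2]; positivity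
  obtain ⟨M, hM⟩ := B2.CM.isLat_sp2 t0.ne'
  have o0 := Om_ne
  have e3 : ∀ w, toC m / (Om * toC x) * w ∈ M.lattice ↔ ∃ p, w = Om * toC (E p) / toC m :=
    fun w => by
      rw [hM, B2.CM.mem_sp2, Prod.exists]
      refine exists₂_congr fun p q => ?_
      rw [mul_one, e1 (p, q), div_mul_eq_mul_div, div_eq_div_iff (mul_ne_zero o0 x1) x1,
        eq_div_iff m2]
      exact ⟨fun k => mul_right_cancel₀ x1 (by linear_combination k),
        fun k => by linear_combination toC x * k⟩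
  have rp : Rp LG M (toC m / (Om * toC x)) fun i : Fin m =>
      Om * toC ((i : ℕ) * (g * x)) / toC m :=
    { ne := div_ne_zero m2 (mul_ne_zero o0 x1)
      le := fun l hl => by
        obtain ⟨c, rfl⟩ := mem_LG.1 hl
        obtain ⟨p, k⟩ := (rng (m * c)).2 ⟨⟨0, by omega⟩, by simp⟩
        exact (e3 _).2 ⟨p, by rw [k, map_mul, mul_left_comm, mul_div_cancel_left₀ _ m2]⟩
      mem := fun i => by
        obtain ⟨p, k⟩ := (rng _).2 ⟨i, by rw [sub_self]; exact dvd_zero _⟩
        exact (e3 _).2 ⟨p, by rw [k]⟩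
      ex := fun w hw => by
        obtain ⟨p, rfl⟩ := (e3 w).1 hw
        refine ((rng _).1 ⟨p, rfl⟩).imp fun i k => ?_
        rwa [← sub_div, ← mul_sub, ← map_sub, div_mem_LG m0]
      uq := fun i j k => fin_uq ha (by rwa [← sub_div, ← mul_sub, ← map_sub, div_mem_LG m0] at k) }
  refine ⟨τ, t0, fun s hs => ?_, ?_⟩
  · refine (inj.hasSum_iff fun b hb => ?_).1
      (((H3.T.kl_summable t0 hs).mul_left (τ.im ^ s)).hasSum.congr_fun fun p => ?_)
    · rw [sum_eq_zero fun i _ => if_neg fun k => hb ((rng b).2 ⟨i, k⟩), zero_mul, mul_zero]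
    · obtain ⟨i, k⟩ := (rng _).1 ⟨p, rfl⟩
      have n0 : (0 : ℝ) ≤ nm (E p) := by exact_mod_cast CL.nm_nonneg _
      rw [Function.comp_apply, sum_eq_single_of_mem i (mem_univ i) fun j _ hj => if_neg fun k' =>
        hj (fin_uq ha (by simpa using dvd_sub k k')), if_pos k, one_mul, e1, map_div₀, normSq_toC,
        normSq_toC, e2, Real.div_rpow (by positivity) x2.le, Real.div_rpow n0 x2.le,
        Real.rpow_neg x2.le]
      have := (Real.rpow_pos_of_pos x2 s).ne'
      field_simp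
  · rw [rp.lam t0 hM, KK, Fintype.card_fin, e2, norm_div, norm_mul, div_pow, mul_pow,
      Complex.sq_norm (toC x), normSq_toC, map_natCast, norm_natCast,
      show m * (√3 / 2) / nm x / (m ^ 2 / (‖Om‖ ^ 2 * nm x)) = √3 / 2 * ‖Om‖ ^ 2 / m by field_simp]
    ring

end Pool.Agent.Lib.MP_696deb_nt.ED
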