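import Pool.Agent.Lib.MP_696deb_nt.ED.A3

/-! The limit formula for a quadratic ring class character. -/

set_option autoImplicit false

open Complex Filter Topology PeriodPair Finset
open scoped Real ComplexConjugate Classical

namespace Pool.Agent.Lib.MP_696deb_nt.ED

open EW
open CU (O)
open CL (nm)

/-- A primitive quadratic ring class character of conductor `m`. -/
structure Rc (m : ℕ) (χ : O → ℝ) : Prop where
  one_lt : 1 < m
  mul : ∀ a b, χ (a * b) = χ a * χ b
  per : ∀ a b, (m : O) ∣ a - b → χ a = χ b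
  int : ∀ n : ℕ, m.Coprime n → χ n = 1
  zero : ∀ a : O, ¬ IsCoprime a m → χ a = 0
  sq : ∀ a : O, IsCoprime a m → χ a * χ a = 1
  prim : ∀ p : ℕ, p.Prime → p ∣ m →
    ∃ u : O, IsCoprime u m ∧ ((m / p : ℕ) : O) ∣ u - 1 ∧ χ u ≠ 1

namespace Rc

variable {m : ℕ} {χ : O → ℝ} (h : Rc m χ) {R : Finset O} (hR : IsRep m R) {F : O → ℝ}
include h hR

theorem shift (hF : ∀ a b, (m : O) ∣ a - b → F a = F b) {c : O} (hc : IsCoprime c m) :
    χ c * ∑ a ∈ R, χ a * F (c * a) = ∑ a ∈ R, χ a * F a := by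
  rw [← hR.sum_mul hR hc (F := fun a => χ a * F a) fun a γ => by
    rw [h.per (a + m * γ) a (by simp), hF (a + m * γ) a (by simp)], mul_sum]
  exact sum_congr rfl fun a _ => by rw [h.mul, mul_assoc]

theorem drop {p : ℕ} (hp : p.Prime) (k : p ∣ m)
    (hF : ∀ a b, ((m / p : ℕ) : O) ∣ a - b → F a = F b) : ∑ a ∈ R, χ a * F a = 0 := by
  obtain ⟨u, u1, u2, u3⟩ := h.prim p hp k
  have e := h.shift hR (F := F) (fun a b d =>
    hF a b ((Nat.cast_dvd_cast (Nat.div_dvd_of_dvd k)).trans d)) u1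
  rw [sum_congr rfl fun a _ => by
    rw [hF (u * a) a (by simpa [sub_mul] using u2.mul_right a)]] at e
  exact (mul_eq_zero.1 (by linear_combination e)).resolve_left (sub_ne_zero.2 u3)

theorem sum_zero : ∑ a ∈ R, χ a = 0 := by
  simpa using h.drop hR (F := fun _ => 1) (Nat.minFac_prime h.one_lt.ne') (Nat.minFac_dvd m)
    fun _ _ _ => rfl

theorem twist (hF : ∀ a b, (m : O) ∣ a - b → F a = F b) :
    ∑ a ∈ R, χ a * ∑ i : Fin m, F ((i : ℕ) * a) = m.totient * ∑ a ∈ R, χ a * F a := by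
  have e : ∀ n : ℕ, ∑ a ∈ R, χ a * F (n * a) = if m.Coprime n then ∑ a ∈ R, χ a * F a else 0 :=
    fun n => by
      split_ifs with k
      · rw [← h.shift hR hF (c := n) k.symm.cast, h.int n k, one_mul]
      · obtain ⟨p, hp, k1, c, rfl⟩ := Nat.Prime.not_coprime_iff_dvd.1 k
        refine h.drop hR hp k1 fun a b ⟨d, e⟩ => hF _ _ ⟨c * d, ?_⟩
        rw [← mul_sub, e, ← Nat.mul_div_cancel' k1, Nat.mul_div_cancel_left _ hp.pos]
        push_cast
        ring
  simp only [mul_sum _ _ (χ _)]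
  rw [sum_comm, sum_congr rfl fun (i : Fin m) _ => e i,
    Fin.sum_univ_eq_sum_range fun n => if m.Coprime n then ∑ a ∈ R, χ a * F a else 0,
    ← sum_filter, sum_const, nsmul_eq_mul, Nat.totient_eq_card_coprime]

theorem ind (b : O) : ∑ a ∈ R, χ a * ∑ i : Fin m, (if (m : O) ∣ b - (i : ℕ) * a then 1 else 0) =
    m.totient * χ b := by
  obtain ⟨r, hr, k⟩ := hR.ex b
  rw [h.twist hR (F := fun a => if (m : O) ∣ b - a then 1 else 0) fun a c d => if_congr
    ⟨fun e => by simpa using e.add d, fun e => by simpa using e.sub d⟩ rfl rfl,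
    sum_eq_single_of_mem r hr fun a ha ne => by
      rw [if_neg fun e => ne (hR.uq _ ha _ hr (by simpa using k.sub e)), mul_zero],
    if_pos k, mul_one, h.per b r k]

/-- The limit formula. -/
theorem lim : Tendsto (fun s : ℝ => √3 * m / π * ∑' a : O, χ a * (nm a : ℝ) ^ (-s)) (𝓝[>] 1)
    (𝓝 (-4 * ∑ b ∈ R, χ b * lk LG (Om * toC b / toC m))) := by
  have k : ∀ a : O, ∃ τ : ℂ, 0 < τ.im ∧
      (∀ s : ℝ, 1 < s → HasSum (fun b : O => χ a * ((m * (√3 / 2)) ^ s *
        ((∑ i : Fin m, if (m : O) ∣ b - (i : ℕ) * a then 1 else 0) * (nm b : ℝ) ^ (-s))))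
        (χ a * H3.T.Ez τ s)) ∧ χ a * H3.T.Lam τ =
        12 * (χ a * ∑ i : Fin m, lk LG (Om * toC ((i : ℕ) * a) / toC m)) + KK m * χ a := fun a => by
    by_cases ha : IsCoprime a m
    · obtain ⟨τ, h1, h2, h3⟩ := lat h.one_lt ha
      exact ⟨τ, h1, fun s hs => (h2 s hs).mul_left _, by rw [h3]; ring⟩
    · exact ⟨I, by simp, fun s _ => by simp [h.zero a ha],
        by simp [h.zero a ha]⟩
  choose τ h1 h2 h3 using k
  have t := H3.T.klf_sum (ι := R) (fun a => χ a) (fun a => τ a)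
    (by rw [sum_coe_sort R χ, h.sum_zero hR]) fun a => h1 a
  have m1 : (0 : ℝ) < m := Nat.cast_pos.2 (zero_lt_one.trans h.one_lt)
  have f0 : (0 : ℝ) < m.totient := Nat.cast_pos.2 (Nat.totient_pos.2 (zero_lt_one.trans h.one_lt))
  have c0 : 0 < m * (√3 / 2) := by positivity
  rw [sum_coe_sort R fun a => χ a * H3.T.Lam (τ a), sum_congr rfl fun a _ => h3 a,
    sum_add_distrib, ← mul_sum, ← mul_sum, h.sum_zero hR,
    h.twist hR (F := fun b => lk LG (Om * toC b / toC m)) fun a b d => lk_congr (by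
      rwa [← sub_div, ← mul_sub, ← map_sub, div_mem_LG hR.ne])] at t
  have t2 := (t.div (H3.T.klb_rpow c0 continuous_id) (by positivity)).const_mul
    (√3 * m / π / m.totient)
  refine (t2.congr' ?_).trans_eq (congrArg _ ?_)
  · filter_upwards [self_mem_nhdsWithin] with s hs
    have e := (hasSum_sum fun a (_ : a ∈ R) => h2 a s hs).tsum_eq
    have e2 : ∀ b : O, ∑ a ∈ R, χ a * ((m * (√3 / 2)) ^ s *
        ((∑ i : Fin m, if (m : O) ∣ b - (i : ℕ) * a then 1 else 0) * (nm b : ℝ) ^ (-s))) =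
        (m * (√3 / 2)) ^ s * m.totient * (χ b * (nm b : ℝ) ^ (-s)) := fun b => by
      rw [mul_assoc, ← mul_assoc (m.totient : ℝ), ← h.ind hR b, sum_mul, mul_sum]
      exact sum_congr rfl fun a _ => by ring
    have := (Real.rpow_pos_of_pos c0 s).ne'
    rw [tsum_congr e2, tsum_mul_left] at e
    rw [Pi.div_apply, sum_coe_sort R fun a => χ a * H3.T.Ez (τ a) s, ← e, id]
    field_simp
  · rw [id, Real.rpow_one]
    field_simp
    ring

end Rc

end Pool.Agent.Lib.MP_696deb_nt.ED
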