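import Pool.Agent.Lib.MP_696deb_nt.ED.A4
import Pool.Agent.Lib.MP_696deb_nt.EW.L1

/-! The logarithms of the elliptic units and the value at one of the lattice sum. -/

set_option autoImplicit false

open Complex Filter Topology PeriodPair Finset
open scoped Real ComplexConjugate Classical

namespace Pool.Agent.Lib.MP_696deb_nt.ED

open EW
open CU (O A)
open CL (nm)

theorem IsRep_rp {n : O} {R : Finset O} (h : IsRep n R) :
    Rp LG LG (toC n) fun r : R => Om * toC r / toC n where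
  ne := coe_ne h.ne
  le _ hl := mul_mem_LG n hl
  mem r := by
    rw [mul_div_cancel₀ _ (coe_ne h.ne)]
    exact mem_LG.2 ⟨r, rfl⟩
  ex w hw := by
    obtain ⟨c, e⟩ := mem_LG.1 hw
    obtain ⟨r, hr, k⟩ := h.ex c
    refine ⟨⟨r, hr⟩, ?_⟩
    rwa [eq_div_of_mul_eq (coe_ne h.ne) ((mul_comm _ _).trans e), ← sub_div, ← mul_sub, ← map_sub,
      div_mem_LG h.ne]
  uq i j k := Subtype.ext (h.uq _ i.2 _ j.2 (by
    rwa [← sub_div, ← mul_sub, ← map_sub, div_mem_LG h.ne] at k))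

theorem log_u0 {α : O} (hα : CU.red α ≠ 0) : ∃ K : ℝ, ∀ (P : A) (z : ℂ), cp P = un z → α • P ≠ 0 →
    Real.log ‖EW.jc (u0 α P)‖ = 2 * lk LG (toC α * z) - 2 * nm α * lk LG z + K := by
  have a0 := ne_of_red hα
  obtain ⟨R, hR, h0⟩ := exists_rep a0
  have rp := IsRep_rp hR
  refine ⟨2 * (∑ r ∈ R, lk LG (Om * toC r / toC α) - Real.log ‖toC α‖) - ∑ r ∈ R.erase 0,
    (2 * lk LG (Om * toC r / toC α) + Real.log ‖℘[LG] (Om * toC r / toC α)‖), fun P z hz hP => ?_⟩
  have p0 : P ≠ 0 := fun e => hP (by rw [e, smul_zero])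
  have z0 : z ∉ LG.lattice := mt (cp_ne hz).1 p0
  have z1 : toC α * z ∉ LG.lattice := mt (cp_ne (cp_smul α hz)).1 hP
  have e1 := rp.dist z1
  have e2 := rp.neg.dist z1
  simp only [lk_neg, ← sub_eq_add_neg] at e2
  rw [sum_coe_sort R fun r => lk LG (Om * toC r / toC α)] at e1 e2
  rw [sum_coe_sort R fun r => lk LG (z + Om * toC r / toC α), ← add_sum_erase R _ h0] at e1
  rw [sum_coe_sort R fun r => lk LG (z - Om * toC r / toC α), ← add_sum_erase R _ h0] at e2
  have e3 : ((R.erase 0).card : ℝ) + 1 = nm α := by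
    rw [← hR.card, ← card_erase_add_one h0]
    push_cast
    rfl
  have k : ∀ r ∈ R.erase 0, ‖EW.jc (1 - xco P / xco (tq r α))‖ ≠ 0 ∧
      Real.log ‖EW.jc (1 - xco P / xco (tq r α))‖ = lk LG (z + Om * toC r / toC α) +
        lk LG (z - Om * toC r / toC α) - 2 * lk LG z - (2 * lk LG (Om * toC r / toC α) +
          Real.log ‖℘[LG] (Om * toC r / toC α)‖) := fun r hr => by
    have s0 := hR.notMem h0 hr
    have s1 := (cp_co (cp_tq r a0) (mt (cp_ne (cp_tq r a0)).2 s0)).1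
    have s2 : ℘[LG] (Om * toC r / toC α) ≠ 0 := by
      rw [← s1, map_ne_zero]
      exact Xb_ne hα (hR.En0 h0 ▸ mem_image_of_mem _ hr)
    have s3 := rp.notMem z1 ⟨r, mem_of_mem_erase hr⟩
    have s4 := rp.neg.notMem z1 ⟨r, mem_of_mem_erase hr⟩
    rw [← sub_eq_add_neg] at s4
    have s5 := norm_ne_zero_iff.2 (Shared.Weier.wp_ne z0 s0 s3 s4)
    rw [map_sub, map_one, map_div₀, s1, (cp_co hz p0).1, one_sub_div s2, norm_div, norm_sub_rev,
      Real.log_div s5 (norm_ne_zero_iff.2 s2), lk_wp z0 s0 s3 s4]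
    exact ⟨div_ne_zero s5 (norm_ne_zero_iff.2 s2), by ring⟩
  rw [u0, hR.En0 h0, prod_image (hR.inj.mono (erase_subset _ _)), map_prod, norm_prod,
    Real.log_prod fun r hr => (k r hr).1, sum_congr rfl fun r hr => (k r hr).2, sum_sub_distrib,
    sum_sub_distrib, sum_add_distrib, sum_const, nsmul_eq_mul, ← e3]
  simp only [map_zero, mul_zero, zero_div, add_zero, sub_zero] at e1 e2
  linear_combination e1 + e2

/-- The limit formula for the elliptic units. -/
theorem Rc.kron {m : ℕ} {χ : O → ℝ} (h : Rc m χ) {R : Finset O} (hR : IsRep m R) {α : O}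
    (hα : CU.red α ≠ 0) (hc : IsCoprime α m) :
    Tendsto (fun s : ℝ => (nm α - χ α) * (√3 * m / π * ∑' a : O, χ a * (nm a : ℝ) ^ (-s))) (𝓝[>] 1)
      (𝓝 (∑ b ∈ R, χ b * Real.log ‖EW.jc (ub α (tq b m))‖)) := by
  obtain ⟨K, hK⟩ := log_u0 hα
  have n : ∀ {P : A}, α • P ≠ 0 → ‖EW.jc (u0 α P)‖ ≠ 0 := fun k =>
    norm_ne_zero_iff.2 ((map_ne_zero EW.jc).2 (u0_ne hα k))
  have e : ∀ b : O, χ b * Real.log ‖EW.jc (ub α (tq b m))‖ =
      4 * (χ b * lk LG (Om * toC (α * b) / toC m)) - 4 * nm α * (χ b * lk LG (Om * toC b / toC m)) +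
        (2 * K - 3 * Real.log ‖EW.jc (u0 α CU.T3)‖) * χ b := fun b => by
    by_cases hb : IsCoprime b m
    · have k : α • tq b m ≠ 0 := by
        rw [smul_tq _ _ hR.ne, Ne, tq_eq_zero hR.ne]
        exact not_dvd h.one_lt (hc.mul_left hb)
      rw [ub, map_div₀, map_pow, map_pow, norm_div, norm_pow, norm_pow,
        Real.log_div (pow_ne_zero _ (n k)) (pow_ne_zero _ (n (n_T3 hα))), Real.log_pow,
        Real.log_pow, hK _ _ (cp_tq b hR.ne) k, map_mul, mul_left_comm Om, mul_div_assoc (toC α)]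
      push_cast
      ring
    · simp [h.zero b hb]
  have e2 := h.shift hR (F := fun b => lk LG (Om * toC b / toC m)) (fun a b d => lk_congr (by
    rwa [← sub_div, ← mul_sub, ← map_sub, div_mem_LG hR.ne])) hc
  refine ((h.lim hR).const_mul (nm α - χ α)).trans_eq (congrArg _ ?_)
  rw [sum_congr rfl fun b _ => e b, sum_add_distrib, sum_sub_distrib, ← mul_sum, ← mul_sum,
    ← mul_sum, h.sum_zero hR, ← e2]
  linear_combination 4 * (∑ a ∈ R, χ a * lk LG (Om * toC (α * a) / toC m)) * h.sq α hc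

end Pool.Agent.Lib.MP_696deb_nt.ED
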