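import Pool.Agent.Lib.MP_696deb_nt.ED.A5

/-! A primitive quadratic Dirichlet character composed with the norm. -/

set_option autoImplicit false

open Finset
open scoped Classical

namespace Pool.Agent.Lib.MP_696deb_nt.ED

open CU (O)
open CL (nm nm_mul nm_nonneg nm_nat mul_star_self)

variable {m : ℕ} {a b : O}

theorem nm_abs (a : O) : ((nm a).natAbs : ℤ) = nm a := Int.natAbs_of_nonneg (nm_nonneg a)

theorem cop_nm : IsCoprime a m ↔ m.Coprime (nm a).natAbs := by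
  rw [Nat.coprime_comm, ← Nat.isCoprime_iff_coprime, nm_abs]
  refine ⟨fun h => int_cop ?_, fun h => ?_⟩
  · rw [← mul_star_self, Int.cast_natCast]
    exact h.mul_left (by simpa only [map_natCast, starRingEnd_apply] using h.map (starRingEnd O))
  · have k := h.map (Int.castRingHom O)
    rw [eq_intCast, eq_intCast, ← mul_star_self, Int.cast_natCast] at k
    exact k.of_mul_left_left

theorem nm_mod {n : ℕ} (h : (m : ℤ) ∣ n - nm a) : (nm a).natAbs ≡ n [MOD m] := by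
  rwa [Nat.modEq_iff_dvd, nm_abs]

theorem nm_per (h : (m : O) ∣ a - b) : (nm a).natAbs ≡ (nm b).natAbs [MOD m] := by
  obtain ⟨c, e⟩ := h
  refine nm_mod ⟨-(2 * b.re * c.re - b.re * c.im - b.im * c.re + 2 * b.im * c.im + m * nm c), ?_⟩
  rw [nm_abs, eq_add_of_sub_eq e]
  simp [nm]
  ring

theorem quad_two :
    ∀ t k : ZMod 2, ∃ x y : ZMod 2, k - (2 * x - y + t * (x ^ 2 - x * y + y ^ 2)) = 0 := by decide

theorem exists_quad {p : ℕ} (hp : p.Prime) (h3 : p ≠ 3) (t k : ℤ) :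
    ∃ x y : ℤ, (p : ℤ) ∣ k - (2 * x - y + t * (x ^ 2 - x * y + y ^ 2)) := by
  have := Fact.mk hp
  have h : ∀ t k : ZMod p, ∃ x y : ZMod p, k - (2 * x - y + t * (x ^ 2 - x * y + y ^ 2)) = 0 := by
    by_cases h2 : p = 2
    · subst h2
      exact quad_two
    intro t k
    by_cases t0 : t = 0
    · exact ⟨0, -k, by simp [t0]⟩
    have k3 : (3 : ZMod p) ≠ 0 := fun e => h3 ((Nat.prime_dvd_prime_iff_eq hp Nat.prime_three).1
      ((ZMod.natCast_eq_zero_iff 3 p).1 (by exact_mod_cast e)))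
    obtain ⟨x, y, e⟩ := FiniteField.exists_root_sum_quadratic
      (Polynomial.degree_quadratic (b := 2) (c := -k) t0)
      (Polynomial.degree_quadratic (b := 0) (c := 0) (mul_ne_zero k3 t0))
      (by rw [ZMod.card]; exact hp.eq_two_or_odd.resolve_left h2)
    refine ⟨x + y, 2 * y, ?_⟩
    simp only [Polynomial.eval_add, Polynomial.eval_mul, Polynomial.eval_C, Polynomial.eval_pow,
      Polynomial.eval_X] at e
    linear_combination -e
  obtain ⟨x, y, e⟩ := h t k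
  obtain ⟨x, rfl⟩ := ZMod.intCast_surjective x
  obtain ⟨y, rfl⟩ := ZMod.intCast_surjective y
  exact ⟨x, y, (ZMod.intCast_zmod_eq_zero_iff_dvd _ p).1 (by exact_mod_cast e)⟩

/-- Norms of elements that are congruent to one. -/
theorem exists_nm {p n : ℕ} (hp : p.Prime) (h3 : p ≠ 3) (k : p ∣ m) (h : n ≡ 1 [MOD m / p]) :
    ∃ u : O, ((m / p : ℕ) : O) ∣ u - 1 ∧ (nm u).natAbs ≡ n [MOD m] := by
  obtain ⟨t, rfl⟩ := k
  rw [Nat.mul_div_cancel_left _ hp.pos] at h ⊢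
  obtain ⟨c, e⟩ := (Nat.modEq_iff_dvd.1 h.symm)
  obtain ⟨x, y, d, e'⟩ := exists_quad hp h3 t c
  refine ⟨1 + t * ⟨x, y⟩, ⟨_, add_sub_cancel_left _ _⟩, nm_mod ⟨d, ?_⟩⟩
  simp [nm, QuadraticAlgebra.re_one, QuadraticAlgebra.im_one]
  push_cast at e
  linear_combination e + t * e'

theorem rc_of (hm : 1 < m) (h3 : ¬ 3 ∣ m) {κ : ℕ → ℤ} (mul : ∀ a b, κ (a * b) = κ a * κ b)
    (per : ∀ a b, a ≡ b [MOD m] → κ a = κ b) (zero : ∀ n, ¬ m.Coprime n → κ n = 0)
    (sq : ∀ n, m.Coprime n → κ n * κ n = 1)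
    (prim : ∀ p : ℕ, p.Prime → p ∣ m → ∃ n, m.Coprime n ∧ n ≡ 1 [MOD m / p] ∧ κ n ≠ 1) :
    Rc m fun a => κ (nm a).natAbs where
  one_lt := hm
  mul a b := by rw [nm_mul, Int.natAbs_mul, mul, Int.cast_mul]
  per a b h := by rw [per _ _ (nm_per h)]
  int n h := by
    rw [nm_nat, Int.natAbs_pow, Int.natAbs_natCast, pow_two, mul, sq n h, Int.cast_one]
  zero a h := by rw [zero _ (mt cop_nm.2 h), Int.cast_zero]
  sq a h := by rw [← Int.cast_mul, sq _ (cop_nm.1 h), Int.cast_one]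
  prim p hp k := by
    obtain ⟨n, h1, h2, h4⟩ := prim p hp k
    obtain ⟨u, u1, u2⟩ := exists_nm hp (fun e => h3 (e ▸ k)) k h2
    refine ⟨u, cop_nm.2 ?_, u1, ?_⟩
    · rwa [Nat.Coprime, Nat.gcd_comm, u2.gcd_eq, Nat.gcd_comm]
    · rw [per _ _ u2]
      exact_mod_cast h4

end Pool.Agent.Lib.MP_696deb_nt.ED
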