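import Pool.Agent.Lib.MP_696deb_nt.EV.G1
import Pool.Agent.Lib.MP_23455a_nt.H4.CNk
import Pool.Agent.Lib.MP_23455a_nt.H4.CNd

/-! Fundamental discriminants and their characters: definitions. -/

set_option autoImplicit false

open scoped Classical NumberTheorySymbols

namespace Pool.Agent.Lib.MP_696deb_nt.EV.D

export Pool.Agent.H3.T (GQ vh KumF Ls)
export B2 (chi)

/-- Fundamental discriminants other than one. -/
def Fund (d : ℤ) : Prop := (Squarefree d ∧ d % 4 = 1 ∧ d ≠ 1) ∨
  ∃ m : ℤ, d = 4 * m ∧ Squarefree m ∧ (m % 4 = 2 ∨ m % 4 = 3)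

/-- Fundamental discriminants that are prime to three. -/
structure Fd (d : ℤ) : Prop where
  fund : Fund d
  three : ¬ 3 ∣ d

/-- The character of the discriminant. -/
def kr (d : ℤ) (a : ℕ) : ℤ := if d % 4 = 1 then J(a | d.natAbs) else if Odd a then J(d | a) else 0

/-- The character of the discriminant on norms. -/
def kN (d : ℤ) (a : O) : ℤ := kr d (nm a)

/-- The group of the biquadratic field. -/
noncomputable def HF (d : ℤ) : Subgroup Gam := G ⊓ GQ d

/-- The discriminant of the real subfield. -/
def dp (d : ℤ) : ℤ := if 0 < d then d else -3 * d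

/-- The discriminant of the other imaginary subfield. -/
def dm (d : ℤ) : ℤ := if 0 < d then -3 * d else d

/-- The exponent of three in the product of the two class numbers. -/
noncomputable def hf (d : ℤ) : ℕ := vh (dp d) + vh (dm d)

/-- The regulator of the real subfield times the two class numbers. -/
noncomputable def Rh (d : ℤ) : ℝ := NumberField.Units.regulator (B2.Kf (GQ (dp d))) *
  NumberField.classNumber (B2.Kf (GQ (dp d))) * NumberField.classNumber (B2.Kf (GQ (dm d)))

end Pool.Agent.Lib.MP_696deb_nt.EV.D
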