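import Pool.Agent.Lib.MP_696deb_nt.ED.A6
import Pool.Agent.Lib.MP_696deb_nt.ED.B0

/-! The character of a fundamental discriminant is primitive. -/

set_option autoImplicit false

open scoped Classical NumberTheorySymbols

namespace Pool.Agent.Lib.MP_696deb_nt.EV.D

open jacobiSym

variable {d : ℤ} {p : ℕ}

theorem a7_non (hp : p.Prime) (h2 : p ≠ 2) {t : ℕ} (h : p.Coprime t) :
    ∃ n : ℕ, n ≡ 1 [MOD t] ∧ J(n | p) = -1 := by
  have := Fact.mk hp
  obtain ⟨r, hr⟩ := FiniteField.exists_nonsquare (F := ZMod p) (by rwa [ZMod.ringChar_zmod_n])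
  obtain ⟨n, h1, h3⟩ := Nat.chineseRemainder h r.val 1
  refine ⟨n, h3, ?_⟩
  rw [← legendreSym.to_jacobiSym, legendreSym.eq_neg_one_iff, Int.cast_natCast,
    (ZMod.natCast_eq_natCast_iff _ _ _).2 h1, ZMod.natCast_zmod_val]
  exact hr

theorem a7_one {n t : ℕ} (h : n ≡ 1 [MOD t]) : J(n | t) = 1 := by
  rw [mod_left' (a₂ := (1 : ℕ)) (by exact_mod_cast h), Nat.cast_one, one_left]

theorem a7_right {n : ℕ} {m : ℤ} (h : n ≡ 1 [MOD 4 * m.natAbs]) : J(m | n) = 1 := by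
  have h4 : n % 4 = 1 := h.of_mul_right _
  rw [mod_right m (Nat.odd_iff.2 (by omega)), h, ← mod_right m odd_one, one_right]

theorem a7_cop {m : ℤ} (h : Squarefree m) {t : ℕ} (e : m.natAbs = p * t) : p.Coprime t :=
  Nat.coprime_of_squarefree_mul (e ▸ Int.squarefree_natAbs.2 h)

theorem kr_prim (h : Fund d) (hp : p.Prime) (k : p ∣ d.natAbs) :
    ∃ n : ℕ, n ≡ 1 [MOD d.natAbs / p] ∧ kr d n = -1 := by
  rcases h with ⟨h1, h2, -⟩ | ⟨m, rfl, h1, h2⟩
  · obtain ⟨t, e⟩ := k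
    have t0 : t ≠ 0 := by rintro rfl; omega
    obtain ⟨n, n1, n2⟩ := a7_non hp (by rintro rfl; omega) (a7_cop h1 e)
    refine ⟨n, by rwa [e, Nat.mul_div_cancel_left _ hp.pos], ?_⟩
    rw [kr, if_pos h2, e, mul_right' _ hp.ne_zero t0, n2, a7_one n1, mul_one]
  have key : ∀ n : ℕ, Odd n → kr (4 * m) n = J(m | n) := fun n hn => by
    rw [kr, if_neg (by omega), if_pos hn, mul_left, at_four hn, one_mul]
  have e4 : (4 * m).natAbs = 4 * m.natAbs := by rw [Int.natAbs_mul]; rfl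
  rw [e4] at k ⊢
  by_cases p2 : p = 2
  · subst p2
    have o : Odd (2 * m.natAbs + 1) := odd_two_mul_add_one _
    refine ⟨2 * m.natAbs + 1, by
      rw [show 4 * m.natAbs / 2 = 2 * m.natAbs by omega]
      exact Nat.add_modEq_left, (key _ o).trans ?_⟩
    rcases h2 with h2 | h2
    · obtain ⟨c, rfl⟩ : ∃ c, m = 2 * c := ⟨m / 2, by omega⟩
      rw [mul_left, at_two o, a7_right (m := c) (by
        rw [show 2 * (2 * c).natAbs = 4 * c.natAbs by omega]
        exact Nat.add_modEq_left), ZMod.χ₈_nat_eq_if_mod_eight, if_neg (by omega),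
        if_neg (by omega), mul_one]
    have h3 : J((2 * m.natAbs + 1 : ℕ) | m.natAbs) = 1 :=
      a7_one (by simp)
    rcases Int.natAbs_eq m with e | e
    · rw [← h3, ← quadratic_reciprocity_three_mod_four (by omega) (by omega), ← e]
    · rw [← neg_one_mul] at e
      nth_rw 1 [e]
      rw [mul_left, at_neg_one o, ZMod.χ₄_nat_three_mod_four (by omega),
        quadratic_reciprocity_one_mod_four (by omega) o, h3, mul_one]
  have c4 : p.Coprime 4 := Nat.Coprime.pow_right 2 ((Nat.coprime_primes hp Nat.prime_two).2 p2)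
  obtain ⟨c, rfl⟩ : (p : ℤ) ∣ m := Int.natCast_dvd.2 (c4.dvd_of_dvd_mul_left k)
  have e : ((p : ℤ) * c).natAbs = p * c.natAbs := by rw [Int.natAbs_mul, Int.natAbs_natCast]
  obtain ⟨n, n1, n2⟩ := a7_non hp p2 (c4.mul_right (a7_cop h1 e))
  have n4 : n % 4 = 1 := n1.of_mul_right _
  refine ⟨n, by rwa [e, mul_left_comm, Nat.mul_div_cancel_left _ hp.pos], ?_⟩
  rw [key n (Nat.odd_iff.2 (by omega)), mul_left, a7_right n1, mul_one,
    ← quadratic_reciprocity_one_mod_four n4 (hp.odd_of_ne_two p2), n2]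

/-- An element that is congruent to one and whose norm is congruent to a nonresidue. -/
theorem a7_prim (h : Fd d) (hp : p.Prime) (k : p ∣ d.natAbs) : ∃ (u : O) (n : ℕ),
    ((d.natAbs / p : ℕ) : O) ∣ u - 1 ∧ nm u ≡ n [MOD d.natAbs] ∧ kr d n = -1 := by
  obtain ⟨n, h1, h2⟩ := kr_prim h.fund hp k
  obtain ⟨u, h3, h4⟩ := ED.exists_nm hp (fun e => h.three (by
    rw [e] at k
    exact Int.natCast_dvd.2 k)) k h1
  exact ⟨u, n, h3, h4, h2⟩

end Pool.Agent.Lib.MP_696deb_nt.EV.D
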