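import Pool.Agent.Lib.MP_696deb_nt.ED.B3

/-! The logarithms of the elliptic units and the class numbers. -/

set_option autoImplicit false

open scoped Classical
open Filter Topology Finset

namespace Pool.Agent.Lib.MP_696deb_nt.EV.D

variable {d : ℤ}

theorem rc_kN (h : Fd d) : ED.Rc d.natAbs fun a => (kN d a : ℝ) where
  one_lt := h.fund.one_lt
  mul a b := by rw [kN_mul h.fund, Int.cast_mul]
  per a b k := by rw [kN_per h.fund (b1_dvd.1 k)]
  int n k := by
    rw [← Int.cast_natCast n, kN_int h.fund (n := n) (Int.isCoprime_iff_gcd_eq_one.2 k.symm),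
      Int.cast_one]
  zero a k := by rw [(kN_zero h).2 (mt b1_cop.2 k), Int.cast_zero]
  sq a k := by rw [← Int.cast_mul, kN_sq h (b1_cop.1 k), Int.cast_one]
  prim p hp k := by
    obtain ⟨u, h1, h2⟩ := kN_prim h hp k
    refine ⟨u, b1_cop.2 (not_not.1 fun e => ?_), h1, by rw [h2]; norm_num⟩
    rw [(kN_zero h).2 e] at h2
    omega

/-- The class number formula for the elliptic units. -/
theorem log_ub (h : Fd d) : ∃ c : ℕ, (c = 1 ∨ c = 2) ∧ ∀ (R : Finset O) (α : O),
    EW.IsRep (d.natAbs : O) R → red α ≠ 0 → IsCoprime α (d : O) →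
      ∑ b ∈ R, (kN d b : ℝ) * Real.log ‖EW.jc (EW.ub α (EW.tq b d.natAbs))‖ =
        6 * c * (nm α - kN d α) * Rh d := by
  obtain ⟨c, hc, t⟩ := lim_kN h
  refine ⟨c, hc, fun R α hR hα k => ?_⟩
  have e : ∀ a : O, (nm a : ℝ) = CL.nm a := fun a => by
    rw [← ED.nm_abs, Int.cast_natCast, nm]
  have m0 : (0 : ℝ) < d.natAbs := Nat.cast_pos.2 (zero_lt_one.trans h.fund.one_lt)
  simp only [e] at t ⊢
  rw [tendsto_nhds_unique ((rc_kN h).kron hR hα (b1_cop.2 k)) ((t.const_mul _).const_mul _)]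
  field_simp

end Pool.Agent.Lib.MP_696deb_nt.EV.D
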