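import Pool.Agent.Lib.MP_696deb_nt.ED.A7

/-! The character of a fundamental discriminant. -/

set_option autoImplicit false

open scoped Classical NumberTheorySymbols

namespace Pool.Agent.Lib.MP_696deb_nt.EV.D

open jacobiSym

variable {d : ℤ} {a b : ℕ} {x y : O}

theorem b1_four {m : ℤ} : kr (4 * m) a = if Odd a then J(m | a) else 0 := by
  rw [kr, if_neg (by omega)]
  split_ifs with h
  · rw [mul_left, at_four h, one_mul]
  · rfl

theorem b1_dvd : (d.natAbs : O) ∣ x ↔ (d : O) ∣ x := by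
  rcases Int.natAbs_eq d with e | e <;> nth_rw 2 [e] <;> simp [-Nat.cast_natAbs]

theorem b1_cop : IsCoprime x (d.natAbs : O) ↔ IsCoprime x (d : O) := by
  rcases Int.natAbs_eq d with e | e <;> nth_rw 2 [e] <;>
    simp [-Nat.cast_natAbs, IsCoprime.neg_right_iff]

theorem Fund.ne (h : Fund d) : d ≠ 0 := by
  rcases h with ⟨-, h, -⟩ | ⟨m, rfl, -, h⟩ <;> omega

theorem Fund.one_lt (h : Fund d) : 1 < d.natAbs := by
  rcases h with ⟨-, h, k⟩ | ⟨m, rfl, -, h⟩ <;> omega

theorem Fund.m3 (h : Fd d) : Fund (-3 * d) := by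
  have k : ∀ m : ℤ, Squarefree m → ¬ 3 ∣ m → Squarefree (-3 * m) := fun m h1 h2 =>
    squarefree_mul_iff.2 ⟨(Int.prime_three.neg.coprime_iff_not_dvd.2 (by rwa [neg_dvd])).isRelPrime,
      Int.prime_three.neg.squarefree, h1⟩
  obtain ⟨⟨h1, h2, -⟩ | ⟨m, rfl, h1, h2⟩, h3⟩ := h
  · exact .inl ⟨k d h1 h3, by omega, by omega⟩
  · exact .inr ⟨-3 * m, by ring, k m h1 fun e => h3 (e.mul_left 4), by omega⟩

theorem Fd.dp (h : Fd d) : Fund (dp d) ∧ 0 < dp d := by
  have := h.fund.ne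
  unfold D.dp
  split_ifs with k
  exacts [⟨h.fund, k⟩, ⟨Fund.m3 h, by omega⟩]

theorem Fd.dm (h : Fd d) : Fund (dm d) ∧ dm d < -3 := by
  have := h.fund.one_lt
  unfold D.dm
  split_ifs with k
  · exact ⟨Fund.m3 h, by omega⟩
  · refine ⟨h.fund, ?_⟩
    obtain ⟨⟨-, h2, -⟩ | ⟨m, rfl, -, h2⟩, h3⟩ := h <;> omega

theorem kr_one : kr d 1 = 1 := by
  rw [kr, if_pos odd_one, Nat.cast_one, one_left, one_right, ite_self]

theorem kr_mul (h : Fund d) (a b : ℕ) : kr d (a * b) = kr d a * kr d b := by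
  rcases h with ⟨-, h, -⟩ | ⟨m, rfl, -⟩
  · simp only [kr, if_pos h, Nat.cast_mul, mul_left]
  · by_cases ha : Odd a <;> by_cases hb : Odd b <;> simp only [b1_four, Nat.odd_mul, ha, hb,
      and_self, and_false, false_and, if_true, if_false, mul_zero, zero_mul]
    exact mul_right' m ha.pos.ne' hb.pos.ne'

theorem kr_cases (d : ℤ) (a : ℕ) : kr d a = 0 ∨ kr d a = 1 ∨ kr d a = -1 := by
  unfold kr
  split_ifs
  exacts [trichotomy _ _, trichotomy _ _, .inl rfl]

theorem kr_zero (h : Fund d) : kr d a = 0 ↔ ¬ a.Coprime d.natAbs := by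
  have h0 := Int.natAbs_ne_zero.2 h.ne
  rcases h with ⟨-, h, -⟩ | ⟨m, rfl, -⟩
  · rw [kr, if_pos h, eq_zero_iff, Int.gcd_natCast_natCast, and_iff_right h0]
  · rw [kr, if_neg (by omega)]
    split_ifs with k
    · rw [eq_zero_iff, and_iff_right k.pos.ne', Nat.coprime_comm]
      rfl
    · refine iff_of_true rfl fun e => ?_
      have := Nat.eq_one_of_dvd_coprimes e (Nat.not_odd_iff_even.1 k).two_dvd (by omega)
      omega

theorem kr_per (h : Fund d) (k : a ≡ b [MOD d.natAbs]) : kr d a = kr d b := by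
  rcases h with ⟨-, h, -⟩ | ⟨m, rfl, -⟩
  · rw [kr, kr, if_pos h, if_pos h, mod_left' (Int.natCast_modEq_iff.2 k)]
  · rw [show (4 * m).natAbs = 4 * m.natAbs by omega] at k
    have e : a % 4 = b % 4 := k.of_mul_right _
    have e2 : Odd a ↔ Odd b := by rw [Nat.odd_iff, Nat.odd_iff]; omega
    rw [b1_four, b1_four]
    by_cases hb : Odd b
    · rw [if_pos hb, if_pos (e2.2 hb), mod_right m hb, mod_right m (e2.2 hb), k]
    · rw [if_neg hb, if_neg (mt e2.1 hb)]

theorem kr_odd (h : Fund d) (k : Odd a) : kr d a = J(d | a) := by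
  unfold kr
  split_ifs with h4
  exacts [H3.T.cnq1_rec h4 k, rfl]

theorem kr_two (h : d % 4 = 1) : kr d 2 = if d % 8 = 1 then 1 else -1 := by
  rw [kr, if_pos h, Nat.cast_ofNat, at_two (Nat.odd_iff.2 (by omega)),
    ZMod.χ₈_nat_eq_if_mod_eight]
  split_ifs <;> omega

theorem kr_three (h : Fd d) : kr d 3 = if d % 3 = 1 then 1 else -1 := by
  have := h.three
  rw [kr_odd h.fund (by decide), mod_left, Nat.cast_ofNat]
  split_ifs with k
  · rw [k, one_left]
  · rw [show d % 3 = 2 by omega]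
    norm_num

theorem kr_m3 (h : Fd d) (a : ℕ) : kr (-3 * d) a = J(a | 3) * kr d a := by
  rcases h.fund with ⟨-, k, -⟩ | ⟨m, rfl, -⟩
  · rw [kr, kr, if_pos k, if_pos (by omega), show (-3 * d).natAbs = 3 * d.natAbs by omega,
      mul_right' _ three_ne_zero (by omega)]
  · rw [mul_left_comm, b1_four, b1_four]
    split_ifs with k
    · rw [mul_left, ← H3.T.cnq1_rec (d := -3) rfl k]
      rfl
    · rw [mul_zero]

theorem kN_one : kN d 1 = 1 := kr_one

theorem kN_mul (h : Fund d) (x y : O) : kN d (x * y) = kN d x * kN d y := by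
  rw [kN, g1_nm_mul, kr_mul h, kN, kN]

theorem kN_unit (k : IsUnit x) : kN d x = 1 := by
  rw [kN, g1_nm_one.2 k, kr_one]

theorem kN_per (h : Fund d) (k : (d : O) ∣ x - y) : kN d x = kN d y := kr_per h (ED.nm_per (b1_dvd.2 k))

theorem kN_zero (h : Fd d) : kN d x = 0 ↔ ¬ IsCoprime x (d : O) := by
  rw [kN, kr_zero h.fund, ← b1_cop, ED.cop_nm, Nat.coprime_comm, nm]

theorem kN_sq (h : Fd d) (k : IsCoprime x (d : O)) : kN d x * kN d x = 1 := by
  rcases (kr_cases d (nm x)).resolve_left fun e => (kN_zero h).1 e k with e | e <;>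
    simp [kN, e]

theorem kN_int (h : Fund d) {n : ℤ} (k : IsCoprime n d) : kN d (n : O) = 1 := by
  have e : nm (n : O) = n.natAbs * n.natAbs := by
    rw [nm, CL.nm_int, Int.natAbs_pow, pow_two]
  rw [kN, e, kr_mul h]
  rcases (kr_cases d n.natAbs).resolve_left fun e => (kr_zero h).1 e
    (Int.isCoprime_iff_gcd_eq_one.1 k) with e | e <;> simp [e]

theorem kN_w (h : Fd d) : kN d w = if d % 3 = 1 then 1 else -1 := kr_three h

/-- The character is primitive. -/
theorem kN_prim (h : Fd d) {p : ℕ} (hp : p.Prime) (k : p ∣ d.natAbs) :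
    ∃ u : O, ((d.natAbs / p : ℕ) : O) ∣ u - 1 ∧ kN d u = -1 := by
  obtain ⟨u, n, h1, h2, h3⟩ := a7_prim h hp k
  exact ⟨u, h1, (kr_per h.fund h2).trans h3⟩

end Pool.Agent.Lib.MP_696deb_nt.EV.D
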