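import Pool.Agent.Lib.MP_696deb_nt.ED.B2b
import Pool.Agent.Lib.MP_696deb_nt.CL.F3
import Pool.Agent.Lib.MP_23455a_nt.H4.CNa

/-! The lattice sum of the character of a discriminant. -/

set_option autoImplicit false

open Finset Filter Topology NumberTheorySymbols
open scoped Classical

namespace Pool.Agent.Lib.MP_696deb_nt.EV.D
open Pool.Agent.H3.T (cnq_conv)
open CL (mem_reps)

variable {d : ℤ}

theorem b2_j (a : ℕ) : J(a | 3) = if a % 3 = 0 then 0 else if a % 3 = 1 then 1 else -1 := by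
  rw [jacobiSym.mod_left, show (a : ℤ) % (3 : ℕ) = (a % 3 : ℕ) by simp]
  have : a % 3 < 3 := Nat.mod_lt _ three_pos
  interval_cases a % 3 <;> norm_num

theorem b2_rec {p : ℕ} (hp : p.Prime) (k : ℕ) :
    ((CL.reps (p * k)).card : ℤ) = (1 + J(p | 3)) * (CL.reps k).card - 1 * J(p | 3) *
      if p ∣ k then ((CL.reps (k / p)).card : ℤ) else 0 := by
  have hψ : ∀ α β : O, (fun _ => (1 : O)) (α * β) = (fun _ => (1 : O)) α * (fun _ => (1 : O)) β :=
    fun _ _ => (one_mul _).symm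
  have inj : ∀ {x y : ℤ}, (x : O) = y → x = y := fun e => by
    simpa using congrArg QuadraticAlgebra.re e
  rw [b2_j]
  have h3 : p % 3 < 3 := Nat.mod_lt _ three_pos
  apply inj
  interval_cases e : p % 3
  · obtain rfl := (Nat.prime_dvd_prime_iff_eq Nat.prime_three hp).1 (Nat.dvd_of_mod_eq_zero e)
    have h1 := CL.f3_div (ψ := fun _ => 1) hψ three_ne_zero (w := w) rfl k
    rw [filter_true_of_mem fun α hα => ?_] at h1
    · simpa using h1
    · have h2 := CL.three_dvd_nm.1 ⟨k, by rw [mem_reps.1 hα]; push_cast; rfl⟩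
      obtain ⟨c, hc⟩ := h2
      refine ⟨⟨α.im - c, α.im - 2 * c⟩, ?_⟩
      ext <;> simp [CU.th] <;> omega
  · obtain ⟨z, hz, -⟩ := CL.f3_exists hp e
    have h1 := CL.f3_one (ψ := fun _ => 1) hψ hp e hz k
    rw [if_neg one_ne_zero, if_pos rfl]
    simp only [sum_const, nsmul_eq_mul, mul_one, one_mul] at h1
    split_ifs at h1 ⊢ <;> push_cast <;> linear_combination h1
  · have h1 := CL.f3_three (ψ := fun _ => 1) hψ hp e k
    rw [if_neg two_ne_zero, if_neg (by decide)]
    simp only [sum_const, nsmul_eq_mul, mul_one, one_mul] at h1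
    split_ifs at h1 ⊢ <;> push_cast <;> linear_combination h1

/-- The number of elements of given norm. -/
theorem b2_card {k : ℕ} (hk : k ≠ 0) :
    ((CL.reps k).card : ℤ) = 6 * ∑ x ∈ k.divisorsAntidiagonal, 1 * J(x.2 | 3) := by
  induction k using Nat.strong_induction_on with
  | _ k ih =>
    rcases eq_or_ne k 1 with rfl | h1
    · rw [show (CL.reps 1).card = 6 by decide]
      simp
    obtain ⟨p, h2, m, rfl⟩ := Nat.exists_prime_and_dvd h1
    have hm := right_ne_zero_of_mul hk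
    have h3 : m < p * m := lt_mul_of_one_lt_left (Nat.pos_of_ne_zero hm) h2.one_lt
    rw [b2_rec h2, cnq_conv (χ := fun _ => 1) (χ' := fun a => J(a | 3)) (fun _ _ _ _ => rfl)
      (fun a b _ _ => by rw [Nat.cast_mul, jacobiSym.mul_left]) h2 hm, ih m h3 hm]
    split_ifs with h4
    · rw [ih _ ((Nat.div_le_self _ _).trans_lt h3)
        (Nat.div_pos (Nat.le_of_dvd (Nat.pos_of_ne_zero hm) h4) h2.pos).ne']
      ring
    · ring

theorem b2_nm (a : O) : (nm a : ℤ) = CL.nm a := Int.natAbs_of_nonneg (CL.nm_nonneg a)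

theorem b2_summable {s : ℝ} (hs : 1 < s) : Summable fun a : O => (nm a : ℝ) ^ (-s) := by
  have h0 : 0 < CL.wC.im := by
    simp [CL.wC]
  let e : O ≃ ℤ × ℤ := ⟨fun a => (a.im, a.re), fun p => ⟨p.2, p.1⟩, fun _ => rfl, fun _ => rfl⟩
  refine (e.summable_iff.2 (Pool.Agent.H3.T.kl_summable h0 hs)).congr fun a => ?_
  have h1 : ((nm a : ℕ) : ℝ) = (CL.nm a : ℤ) := by rw [← b2_nm, Int.cast_natCast]
  rw [h1, ← CL.normSq_toC, CL.toC_apply, add_comm]
  rfl

/-- The lattice sum is a product of two Dirichlet series. -/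
theorem sum_kN (h : Fd d) {s : ℝ} (hs : 1 < s) :
    ∑' a : O, (kN d a : ℝ) * (nm a : ℝ) ^ (-s) = 6 * (Ls (kr d) s * Ls (kr (-3 * d)) s) := by
  have h0 : s ≠ 0 := by linarith
  have h1 : Summable fun a : O => (kN d a : ℝ) * (nm a : ℝ) ^ (-s) :=
    (b2_summable hs).of_norm_bounded fun a => by
      rw [norm_mul, Real.norm_of_nonneg (Real.rpow_nonneg (Nat.cast_nonneg _) _), Real.norm_eq_abs]
      exact mul_le_of_le_one_left (Real.rpow_nonneg (Nat.cast_nonneg _) _)
        (by exact_mod_cast kr_abs d _)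
  rw [← b2b_mul (kr_abs _) (kr_abs _) hs, ← (h1.hasSum.tsum_fiberwise nm).tsum_eq, Ls,
    ← tsum_mul_left]
  refine tsum_congr fun k => ?_
  have e : ∀ a, a ∈ CL.reps k ↔ nm a = k := fun a => by rw [mem_reps, ← b2_nm, Nat.cast_inj]
  rw [show nm ⁻¹' {k} = CL.reps k from Set.ext fun a => (e a).symm,
    Finset.tsum_subtype' (CL.reps k) fun a => (kN d a : ℝ) * (nm a : ℝ) ^ (-s),
    sum_congr rfl fun a ha => by rw [kN, (e a).1 ha], sum_const, nsmul_eq_mul]
  rcases eq_or_ne k 0 with rfl | hk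
  · simp [h0]
  have h2 : ((CL.reps k).card : ℤ) * kr d k =
      6 * ∑ x ∈ k.divisorsAntidiagonal, kr d x.1 * kr (-3 * d) x.2 := by
    rw [b2_card hk, mul_assoc, sum_mul]
    refine congrArg _ (sum_congr rfl fun x hx => ?_)
    rw [← (Nat.mem_divisorsAntidiagonal.1 hx).1, kr_mul h.fund, kr_m3 h]
    ring
  rw [← mul_assoc, ← mul_assoc]
  congr 1
  exact_mod_cast h2

end Pool.Agent.Lib.MP_696deb_nt.EV.D
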