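import Pool.Agent.Lib.MP_696deb_nt.ED.B1

/-! The ring of integers, the discriminant and the prime ideals of a quadratic field. -/

set_option autoImplicit false

open NumberField IsDedekindDomain Polynomial Module NumberTheorySymbols
open scoped Classical

namespace Pool.Agent.Lib.MP_696deb_nt.EV.D
open Pool.Agent.H3.T (cnq1_eq)

variable {K : Type} [Field K] [NumberField K] {d t m : ℤ} {β : 𝓞 K}

theorem Fund.nsq (h : Fund d) (r : ℤ) : d ≠ r ^ 2 := fun e => by
  rcases h with ⟨hs, h4, h1⟩ | ⟨n, rfl, hs, h4⟩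
  · rw [sq] at e
    exact h1 (e ▸ Int.isUnit_mul_self (hs r e.symm.dvd))
  · obtain ⟨u, rfl⟩ : 2 ∣ r := Int.prime_two.dvd_of_dvd_pow (n := 2) ⟨2 * n, by omega⟩
    have h5 : n = u * u := by linarith
    have := Int.isUnit_mul_self (hs u h5.symm.dvd)
    omega

/-- The field is quadratic of discriminant `d`. -/
structure Qf (K : Type) [Field K] [NumberField K] (d : ℤ) : Prop where
  rank : finrank ℚ K = 2
  fund : Fund d
  root : ∃ δ : K, δ ^ 2 = d

/-- A generator of the ring of integers. -/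
structure Qb (d t m : ℤ) (β : 𝓞 K) : Prop where
  rank : finrank ℚ K = 2
  fund : Fund d
  t01 : t = 0 ∨ t = 1
  eq : t ^ 2 - 4 * m = d
  pw : β ^ 2 = t * β - m

theorem Qf.beta (h : Qf K d) : ∃ (t m : ℤ) (β : 𝓞 K), Qb d t m β := by
  obtain ⟨δ, hδ⟩ := h.root
  obtain ⟨t, m, h1, h2⟩ : ∃ t m : ℤ, (t = 0 ∨ t = 1) ∧ t ^ 2 - 4 * m = d := by
    rcases h.fund with ⟨-, h4, -⟩ | ⟨n, rfl, -⟩
    · exact ⟨1, (1 - d) / 4, .inr rfl, by omega⟩
    · exact ⟨0, -n, .inl rfl, by ring⟩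
  have h4 : (t : K) ^ 2 - 4 * m = d := by exact_mod_cast congrArg (Int.cast : ℤ → K) h2
  have h5 : ((t + δ) / 2) ^ 2 = t * ((t + δ) / 2) - m := by linear_combination hδ / 4 - h4 / 4
  have h6 : IsIntegral ℤ ((t + δ) / 2) := by
    refine ⟨X ^ 2 - C t * X + C m, by monicity!, ?_⟩
    rw [eval₂_add, eval₂_sub, eval₂_X_pow, eval₂_mul, eval₂_X, eval₂_C, eval₂_C, h5, eq_intCast,
      eq_intCast]
    ring
  exact ⟨t, m, ⟨_, h6⟩, h.rank, h.fund, h1, h2, Subtype.ext h5⟩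

theorem Qb.cast (h : Qb d t m β) (R : Type) [CommRing R] : (t : R) ^ 2 - 4 * m = d := by
  exact_mod_cast congrArg (Int.cast : ℤ → R) h.eq

theorem Qb.ind (h : Qb d t m β) {s u : ℤ} (e : s + u * β = 0) : s = 0 ∧ u = 0 := by
  have h2 : (((2 * s + u * t) ^ 2 - u ^ 2 * d : ℤ) : 𝓞 K) = 0 := by
    push_cast
    linear_combination (4 * s + 4 * u * t - 4 * u * β) * e + 4 * u ^ 2 * h.pw +
      u ^ 2 * h.cast (𝓞 K)
  rw [Int.cast_eq_zero, sub_eq_zero] at h2
  have h3 : u = 0 := by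
    by_contra k
    obtain ⟨r, hr⟩ := (Int.pow_dvd_pow_iff two_ne_zero).1 ⟨d, h2⟩
    rw [hr, mul_pow, mul_right_inj' (pow_ne_zero 2 k)] at h2
    exact h.fund.nsq r h2.symm
  exact ⟨by simpa [h3] using e, h3⟩

theorem b2a_ch (hK : finrank ℚ K = 2) (x : 𝓞 K) :
    ∃ N : ℤ, x ^ 2 - Algebra.trace ℤ (𝓞 K) x * x + N = 0 := by
  let b := finBasisOfFinrankEq ℤ (𝓞 K) ((RingOfIntegers.rank K).trans hK)
  have := Matrix.aeval_self_charpoly (Algebra.leftMulMatrix b x)
  rw [aeval_algHom_apply, map_eq_zero_iff _ (Algebra.leftMulMatrix_injective b),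
    Matrix.charpoly_fin_two, ← Algebra.trace_eq_matrix_trace] at this
  simp only [map_add, map_sub, map_mul, aeval_X, map_intCast, eq_intCast, map_pow] at this
  exact ⟨_, this⟩

theorem b2a_even {a b n T N : ℤ} (hn : n % 4 = 2 ∨ n % 4 = 3)
    (h1 : a ^ 2 + n * b ^ 2 - 2 * T * a + 4 * N = 0) (h2 : 2 * a * b - 2 * T * b = 0) :
    2 ∣ a ∧ 2 ∣ b := by
  have h3 : b = 0 ∨ T = a := by
    rcases mul_eq_zero.1 (show b * (a - T) = 0 by linarith) with e | e
    exacts [.inl e, .inr (by linarith)]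
  rcases h3 with rfl | rfl
  · exact ⟨Int.prime_two.dvd_of_dvd_pow (n := 2) ⟨T * a - 2 * N, by linarith⟩, dvd_zero _⟩
  · have h4 : ∀ x y z : ZMod 4, z = 2 ∨ z = 3 → z * y ^ 2 - x ^ 2 = 0 → 2 * x = 0 ∧ 2 * y = 0 := by
      decide
    have h5 := h4 T b n (hn.imp (fun e => (ZMod.intCast_eq_intCast_iff' n 2 4).2 e)
      fun e => (ZMod.intCast_eq_intCast_iff' n 3 4).2 e) (by
        have := (ZMod.intCast_zmod_eq_zero_iff_dvd (n * b ^ 2 - T ^ 2) 4).2 ⟨-N, by
          push_cast; linarith⟩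
        exact_mod_cast this)
    have h6 : ∀ x : ℤ, 2 * (x : ZMod 4) = 0 → 2 ∣ x := fun x e => by
      have := (ZMod.intCast_zmod_eq_zero_iff_dvd (2 * x) 4).1 (by exact_mod_cast e)
      omega
    exact ⟨h6 _ h5.1, h6 _ h5.2⟩

theorem Qb.bas (h : Qb d t m β) : discr K = d ∧ ∀ x : 𝓞 K, ∃ a b : ℤ, x = a + b * β := by
  let b := finBasisOfFinrankEq ℤ (𝓞 K) ((RingOfIntegers.rank K).trans h.rank)
  have t1 : Algebra.trace ℤ (𝓞 K) β = t := by
    obtain ⟨e, he⟩ := b2a_ch h.rank β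
    have := (h.ind (s := e - m) (u := t - Algebra.trace ℤ (𝓞 K) β)
      (by push_cast; linear_combination he - h.pw)).2
    omega
  have t0 : ∀ a : ℤ, Algebra.trace ℤ (𝓞 K) a = 2 * a := fun a => by
    have := Algebra.trace_algebraMap_of_basis b a
    simpa using this
  have d1 : Algebra.discr ℤ ![1, β] = d := by
    have := t0 1
    rw [Int.cast_one] at this
    have t2 : Algebra.trace ℤ (𝓞 K) (t * β) = t * t := by
      rw [← zsmul_eq_mul, map_zsmul, t1, smul_eq_mul]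
    simp only [Algebra.discr_def, Matrix.det_fin_two, Algebra.traceMatrix_apply,
      Algebra.traceForm_apply, Matrix.cons_val_zero, Matrix.cons_val_one, mul_one, one_mul, ← sq,
      h.pw, map_sub, t0, t1, t2, this, one_pow]
    linear_combination h.eq
  have d2 := Algebra.discr_of_matrix_vecMul b (b.toMatrix ![1, β])
  rw [Basis.toMatrix_map_vecMul, d1, discr_eq_discr] at d2
  have sp : ∀ x : 𝓞 K, ∃ a c : ℤ, ((b.toMatrix ![1, β]).det : 𝓞 K) * x = a + c * β := fun x => by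
    have e0 := b.sum_repr 1
    have e1 := b.sum_repr β
    have e2 := b.sum_repr x
    simp only [Fin.sum_univ_two, zsmul_eq_mul] at e0 e1 e2
    refine ⟨b.repr β 1 * b.repr x 0 - b.repr β 0 * b.repr x 1,
      b.repr 1 0 * b.repr x 1 - b.repr 1 1 * b.repr x 0, ?_⟩
    simp only [Matrix.det_fin_two, Basis.toMatrix_apply, Matrix.cons_val_zero, Matrix.cons_val_one]
    generalize b.repr β 0 = p0, b.repr β 1 = p1, b.repr 1 0 = q0, b.repr 1 1 = q1,
      b.repr x 0 = r0, b.repr x 1 = r1 at e0 e1 e2 ⊢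
    push_cast
    linear_combination (p1 * r0 - p0 * r1) * e0 + (q0 * r1 - q1 * r0) * e1 - (q0 * p1 - p0 * q1) * e2
  have sp' : ∀ x : 𝓞 K, ∃ a c : ℤ, x = a + c * β := by
    generalize (b.toMatrix ![1, β]).det = n at d2 sp
    have un : IsUnit n → ∀ x : 𝓞 K, ∃ a c : ℤ, x = a + c * β := fun u x => by
      obtain ⟨a, c, e⟩ := sp x
      rcases Int.isUnit_iff.1 u with rfl | rfl
      · exact ⟨a, c, by simpa using e⟩
      · exact ⟨-a, -c, by push_cast at e ⊢; linear_combination -e⟩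
    rcases h.fund with ⟨hs, -⟩ | ⟨k, rfl, hs, h4⟩
    · exact un (hs _ ⟨discr K, by linear_combination d2⟩)
    have t2 : t = 0 := h.t01.resolve_right fun e => by have := h.eq; rw [e] at this; omega
    have m2 : m = -k := by have := h.eq; rw [t2] at this; omega
    by_cases h2 : 2 ∣ n
    · obtain ⟨j, rfl⟩ := h2
      have uj := hs j ⟨discr K, by linarith⟩
      intro x
      obtain ⟨a, c, e⟩ : ∃ a c : ℤ, 2 * x = a + c * β := by
        obtain ⟨a, c, e⟩ := sp x
        rcases Int.isUnit_iff.1 uj with rfl | rfl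
        · exact ⟨a, c, by simpa using e⟩
        · exact ⟨-a, -c, by push_cast at e ⊢; linear_combination -e⟩
      obtain ⟨N, hN⟩ := b2a_ch h.rank x
      generalize Algebra.trace ℤ (𝓞 K) x = T at hN
      have h5 := h.pw
      rw [t2, m2] at h5
      obtain ⟨k1, k2⟩ := h.ind (s := a ^ 2 + k * c ^ 2 - 2 * T * a + 4 * N)
        (u := 2 * a * c - 2 * T * c) (by
          push_cast at h5 ⊢
          linear_combination 4 * hN - (2 * x + a + c * β - 2 * T) * e - c ^ 2 * h5)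
      obtain ⟨⟨a, rfl⟩, c, rfl⟩ := b2a_even h4 k1 k2
      exact ⟨a, c, mul_left_cancel₀ two_ne_zero (by push_cast at e; linear_combination e)⟩
    · refine un (hs n ?_)
      have : IsCoprime (n * n) 4 := by
        have := (Int.prime_two.coprime_iff_not_dvd.2 h2).symm
        exact (this.mul_right this).mul_left (this.mul_right this)
      exact this.dvd_of_dvd_mul_left ⟨discr K, by linear_combination d2⟩
  refine ⟨?_, sp'⟩
  have u := (b.is_basis_iff_det (v := ![1, β])).1 ⟨by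
    rw [LinearIndependent.pair_iff]
    exact fun s u e => h.ind (by simpa using e), eq_top_iff.2 fun x _ => by
      obtain ⟨a, c, rfl⟩ := sp' x
      exact (Submodule.mem_span_range_iff_exists_fun ℤ).2 ⟨![a, c], by simp⟩⟩
  rw [Basis.det_apply] at u
  rcases Int.isUnit_iff.1 u with e | e <;> simp [d2, e]

theorem Qb.min (h : Qb d t m β) : minpoly ℤ β = X ^ 2 - C t * X + C m := by
  symm
  refine eq_of_monic_of_dvd_of_natDegree_le (minpoly.monic β.isIntegral) (by monicity!)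
    (minpoly.isIntegrallyClosed_dvd β.isIntegral (by simp [h.pw])) (le_trans (by compute_degree)
      ((minpoly.two_le_natDegree_iff β.isIntegral).2 ?_))
  rintro ⟨a, e⟩
  simpa using h.ind (s := a) (u := -1) (by simp [← e])

/-- The prime ideals above a rational prime correspond to the factors of the minimal polynomial. -/
theorem Qb.kd (h : Qb d t m β) (p : ℕ) [Fact p.Prime] :
    ∃ e : (ZMod p)[X] → HeightOneSpectrum (𝓞 K) → Prop,
      (∀ v : HeightOneSpectrum (𝓞 K), (p : 𝓞 K) ∈ v.asIdeal ↔ ∃ Q, e Q v) ∧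
      (∀ Q, Irreducible Q ∧ Q.Monic ∧ Q ∣ X ^ 2 - C (t : ZMod p) * X + C (m : ZMod p) ↔
        ∃ v, e Q v) ∧
      (∀ Q v Q' v', e Q v → e Q' v' → (Q = Q' ↔ v = v')) ∧
      ∀ Q v, e Q v → Ideal.absNorm v.asIdeal = p ^ Q.natDegree := by
  have hp : p.Prime := Fact.out
  have hq := Nat.prime_iff_prime_int.1 hp
  have ht : Algebra.adjoin ℤ {β} = ⊤ := eq_top_iff.2 fun x _ => by
    obtain ⟨a, b, rfl⟩ := h.bas.2 x
    exact add_mem (intCast_mem _ _)
      (mul_mem (intCast_mem _ _) (Algebra.self_mem_adjoin_singleton ℤ β))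
  have he : ¬ p ∣ RingOfIntegers.exponent β := by
    rw [RingOfIntegers.exponent_eq_one_iff.2 ht]
    exact hp.not_dvd_one
  let E := NumberField.Ideal.primesOverSpanEquivMonicFactorsMod he
  refine ⟨fun Q v => ∃ h, (E.symm ⟨Q, h⟩ : Ideal (𝓞 K)) = v.asIdeal, fun v => ⟨fun h => ?_, ?_⟩,
    fun Q => ?_, ?_, ?_⟩
  · exact ⟨_, (E ⟨v.asIdeal, v.isPrime, (Ideal.liesOver_span_iff v.isPrime.ne_top hq).2
      (by simpa using h)⟩).2, by simp⟩
  · rintro ⟨Q, h, e⟩
    simpa [e] using (Ideal.liesOver_span_iff (E.symm ⟨Q, h⟩).2.1.ne_top hq).1 (E.symm ⟨Q, h⟩).2.2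
  · have : Q ∈ RingOfIntegers.monicFactorsMod β p ↔
        Irreducible Q ∧ Q.Monic ∧ Q ∣ X ^ 2 - C (t : ZMod p) * X + C (m : ZMod p) := by
      rw [Multiset.mem_toFinset, Polynomial.mem_normalizedFactors_iff
        (map_monic_ne_zero (minpoly.monic β.isIntegral)), h.min]
      simp
    rw [← this]
    exact ⟨fun h => ⟨⟨_, (E.symm ⟨Q, h⟩).2.1, Ideal.ne_bot_of_mem_primesOver
      (by simpa using hp.ne_zero) (E.symm ⟨Q, h⟩).2⟩, h, rfl⟩, fun h => h.choose_spec.1⟩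
  · rintro Q v Q' v' ⟨h, e⟩ ⟨h', e'⟩
    rw [HeightOneSpectrum.ext_iff, ← e, ← e', Subtype.val_inj, E.symm.apply_eq_iff_eq,
      Subtype.mk.injEq]
  · rintro Q v ⟨h, e⟩
    have := (E.symm ⟨Q, h⟩).2.1
    have := (E.symm ⟨Q, h⟩).2.2
    rw [← e, ← Ideal.pow_inertiaDeg p,
      NumberField.Ideal.inertiaDeg_primesOverSpanEquivMonicFactorsMod_symm_apply']

theorem b2a_two {p : ℕ} (hp : p.Prime) (ho : p ≠ 2) : (2 : ZMod p) ≠ 0 := fun e =>
  ho ((Nat.prime_dvd_prime_iff_eq hp Nat.prime_two).1 ((ZMod.natCast_eq_zero_iff 2 p).1 e))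

theorem Qb.jac (h : Qb d t m β) {p : ℕ} [Fact p.Prime] (k : ¬ (p : ℤ) ∣ d) :
    kr d p = if ∃ c : ZMod p, c ^ 2 - t * c + m = 0 then 1 else -1 := by
  have hp : p.Prime := Fact.out
  have h3 := h.eq
  by_cases h2 : p = 2
  · subst h2
    obtain rfl : t = 1 := h.t01.resolve_left fun e => by rw [e] at h3; omega
    have e : (∃ c : ZMod 2, c ^ 2 - (1 : ℤ) * c + m = 0) ↔ 2 ∣ m := by
      rw [show (2 : ℤ) = (2 : ℕ) from rfl, ← ZMod.intCast_zmod_eq_zero_iff_dvd, Int.cast_one]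
      simp only [one_mul]
      exact Pool.Agent.H3.T.cnq1_two _
    rw [kr_two (by omega)]
    exact if_congr (by rw [e]; omega) rfl rfl
  · have h4 := h.cast (ZMod p)
    have := b2a_two hp h2
    rw [kr_odd h.fund (hp.odd_of_ne_two h2), ← jacobiSym.legendreSym.to_jacobiSym]
    split_ifs with j
    · obtain ⟨c, hc⟩ := j
      exact (legendreSym.eq_one_iff p (mt (ZMod.intCast_zmod_eq_zero_iff_dvd d p).1 k)).2
        ⟨2 * c - t, by linear_combination -h4 - 4 * hc⟩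
    · refine (legendreSym.eq_neg_one_iff p).2 fun ⟨s, e⟩ => j ⟨(t + s) / 2, ?_⟩
      field_simp
      linear_combination -h4 - e

theorem b2a_sq : ∀ x : ZMod 2, x ^ 2 + x = 0 := by decide

theorem Qb.ram (h : Qb d t m β) {p : ℕ} [Fact p.Prime] (k : (p : ℤ) ∣ d) :
    ∃ c : ZMod p, c ^ 2 - t * c + m = 0 := by
  have hp : p.Prime := Fact.out
  have h3 := h.eq
  by_cases h2 : p = 2
  · subst h2
    obtain rfl : t = 0 := h.t01.resolve_right fun e => by rw [e] at h3; omega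
    exact ⟨m, by simpa using b2a_sq m⟩
  · have := b2a_two hp h2
    refine ⟨t / 2, ?_⟩
    field_simp
    linear_combination -h.cast (ZMod p) - (ZMod.intCast_zmod_eq_zero_iff_dvd d p).2 k

/-- The decomposition of a rational prime: split, inert or ramified. -/
theorem Qf.cases (hq : Qf K d) {p : ℕ} (hp : p.Prime) :
    (kr d p = 1 ∧ ∃ P Q : Ideal (𝓞 K), P.IsMaximal ∧ Q.IsMaximal ∧ P ≠ Q ∧
      P * Q = Ideal.span {(p : 𝓞 K)} ∧ Ideal.absNorm P = p ∧ Ideal.absNorm Q = p) ∨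
    (kr d p = -1 ∧ (Ideal.span {(p : 𝓞 K)}).IsMaximal) ∨
    ((p : ℤ) ∣ d ∧ ∃ P : Ideal (𝓞 K), P.IsMaximal ∧ P * P = Ideal.span {(p : 𝓞 K)} ∧
      Ideal.absNorm P = p) := by
  have := Fact.mk hp
  obtain ⟨t, m, β, hβ⟩ := hq.beta
  obtain ⟨e, e1, e2, e3, e4⟩ := hβ.kd p
  have h4' := hβ.cast (ZMod p)
  have hN : Ideal.absNorm (Ideal.span {(p : 𝓞 K)}) = p ^ 2 := by
    rw [Ideal.absNorm_span_natCast, RingOfIntegers.rank, hq.rank]
  set g : (ZMod p)[X] := X ^ 2 - C (t : ZMod p) * X + C (m : ZMod p) with hg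
  have g1 : g.Monic := by rw [hg]; monicity!
  have g2 : g.natDegree = 2 := by rw [hg]; compute_degree!
  by_cases h : ∃ c : ZMod p, c ^ 2 - t * c + m = 0
  · obtain ⟨c, hc⟩ := id h
    have g3 : g = (X - C c) * (X - C (t - c)) := by
      rw [hg, show (m : ZMod p) = t * c - c ^ 2 by linear_combination hc]
      simp only [map_sub, map_pow, map_mul]
      ring
    have g4 : ∀ Q, (∃ v, e Q v) ↔ Q = X - C c ∨ Q = X - C (t - c) := fun Q => by
      rw [← e2, g3]
      constructor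
      · rintro ⟨a, b, d⟩
        exact (a.prime.dvd_mul.1 d).imp
          (fun d => eq_of_monic_of_associated b (monic_X_sub_C _)
            (a.associated_of_dvd (irreducible_X_sub_C _) d))
          fun d => eq_of_monic_of_associated b (monic_X_sub_C _)
            (a.associated_of_dvd (irreducible_X_sub_C _) d)
      · rintro (rfl | rfl)
        · exact ⟨irreducible_X_sub_C _, monic_X_sub_C _, dvd_mul_right _ _⟩
        · exact ⟨irreducible_X_sub_C _, monic_X_sub_C _, dvd_mul_left _ _⟩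
    obtain ⟨v, hv⟩ := (g4 _).2 (.inl rfl)
    obtain ⟨w, hw⟩ := (g4 _).2 (.inr rfl)
    have g5 : ∀ u : HeightOneSpectrum (𝓞 K), (p : 𝓞 K) ∈ u.asIdeal ↔ u = v ∨ u = w := fun u => by
      rw [e1]
      constructor
      · rintro ⟨Q, hQ⟩
        exact ((g4 Q).1 ⟨u, hQ⟩).imp (e3 _ _ _ _ hQ hv).1 (e3 _ _ _ _ hQ hw).1
      · rintro (rfl | rfl)
        exacts [⟨_, hv⟩, ⟨_, hw⟩]
    have g6 : (d : ZMod p) = (2 * c - t) * (2 * c - t) := by linear_combination -h4' - 4 * hc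
    have g7 : v = w ↔ (p : ℤ) ∣ d := by
      rw [← e3 _ _ _ _ hv hw, sub_right_inj, C_inj, ← ZMod.intCast_zmod_eq_zero_iff_dvd, g6,
        mul_self_eq_zero]
      constructor <;> intro k <;> linear_combination k
    have n1 := e4 _ _ hv
    have n2 := e4 _ _ hw
    rw [natDegree_X_sub_C, pow_one] at n1 n2
    have v1 := Ideal.dvd_span_singleton.2 ((g5 v).2 (.inl rfl))
    have w1 := Ideal.dvd_span_singleton.2 ((g5 w).2 (.inr rfl))
    by_cases k : (p : ℤ) ∣ d
    · refine .inr (.inr ⟨k, v.asIdeal, v.isMaximal, ?_, n1⟩)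
      obtain ⟨L, hL⟩ := v1
      have n3 : Ideal.absNorm L = p := by
        rw [hL, map_mul, n1, sq] at hN
        exact mul_left_cancel₀ hp.ne_zero hN
      obtain ⟨M, hM, hLM⟩ := L.exists_le_maximal fun k => hp.ne_one (by rw [← n3, k]; simp)
      have hpM : (p : 𝓞 K) ∈ M :=
        hLM (Ideal.dvd_span_singleton.1 (hL ▸ dvd_mul_left _ _))
      have hM0 : M ≠ ⊥ := fun k => hp.ne_zero (by simpa [k] using hpM)
      have := (g5 ⟨M, hM.isPrime, hM0⟩).1 hpM
      rw [← g7.2 k, or_self] at this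
      subst this
      rw [hL, ← cnq1_eq (Ideal.dvd_iff_le.2 hLM) (n1.trans n3.symm) (n1.trans_ne hp.ne_zero)]
    · have vw : v ≠ w := fun e => k (g7.1 e)
      refine .inl ⟨by rw [hβ.jac k, if_pos h], v.asIdeal, w.asIdeal, v.isMaximal, w.isMaximal,
        fun e => vw (HeightOneSpectrum.ext e), cnq1_eq ((v.isCoprime_of_ne w vw).mul_dvd v1 w1)
          (by rw [map_mul, n1, n2, hN, sq]) ?_, n1, n2⟩
      rw [map_mul, n1, n2]
      exact mul_ne_zero hp.ne_zero hp.ne_zero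
  · have g3 : Irreducible g := by
      rw [irreducible_iff_roots_eq_zero_of_degree_le_three g2.ge (by omega),
        Multiset.eq_zero_iff_forall_notMem]
      exact fun c hc => h ⟨c, by simpa [hg] using ((mem_roots g1.ne_zero).1 hc).eq_zero⟩
    have k : ¬ (p : ℤ) ∣ d := fun k => h (hβ.ram k)
    obtain ⟨v, hv⟩ := (e2 _).1 ⟨g3, g1, dvd_rfl⟩
    have n1 := e4 _ _ hv
    rw [g2] at n1
    refine .inr (.inl ⟨by rw [hβ.jac k, if_neg h], ?_⟩)
    rw [← cnq1_eq (Ideal.dvd_span_singleton.2 ((e1 v).2 ⟨_, hv⟩)) (n1.trans hN.symm)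
      (n1.trans_ne (pow_ne_zero 2 hp.ne_zero))]
    exact v.isMaximal

end Pool.Agent.Lib.MP_696deb_nt.EV.D
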