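import Pool.Agent.Lib.MP_696deb_nt.ED.B2a

/-! Quadratic fields: Dirichlet series, units and the class number formula. -/

set_option autoImplicit false

open NumberField NumberField.Units Filter Topology Real NumberTheorySymbols
open scoped Classical

namespace Pool.Agent.Lib.MP_696deb_nt.EV.D
open Pool.Agent.H3.T (cnq_conv cnqS mem_cnqS cnq_fin cnq_dvd cnq_Ls)
open Pool.Agent.Lib.MP_aed2da_nt

variable {K : Type} [Field K] [NumberField K] {d : ℤ} {χ : ℕ → ℤ}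

theorem Qf.basis (h : Qf K d) : discr K = d ∧ ∃ (t : ℤ) (β : 𝓞 K), (2 * β - t) ^ 2 = d ∧
    ∀ x : 𝓞 K, ∃ a b : ℤ, x = a + b * β := by
  obtain ⟨t, m, β, hβ⟩ := h.beta
  exact ⟨hβ.bas.1, t, β, by linear_combination 4 * hβ.pw + hβ.cast (𝓞 K), hβ.bas.2⟩

theorem kr_dvd (h : Fund d) {p : ℕ} (hp : p.Prime) : kr d p = 0 ↔ (p : ℤ) ∣ d := by
  rw [kr_zero h, hp.coprime_iff_not_dvd, not_not, Int.natCast_dvd]

theorem kr_abs (d : ℤ) (a : ℕ) : |kr d a| ≤ 1 := by
  rcases kr_cases d a with k | k | k <;> simp [k]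

/-- The sum of a character of the norm over the ideals of given norm. -/
theorem Qf.rec' (h : Qf K d) {p : ℕ} (hp : p.Prime) {k : ℕ} (hk : k ≠ 0) :
    ∑ _I ∈ cnqS K (p * k), (1 : ℤ) = (1 + kr d p) * ∑ _I ∈ cnqS K k, (1 : ℤ) - 1 * kr d p *
      if p ∣ k then ∑ _I ∈ cnqS K (k / p), (1 : ℤ) else 0 := by
  have h0 := hp.ne_zero
  have mul : ∀ I I' : Ideal (𝓞 K), I ≠ ⊥ → I' ≠ ⊥ → (fun _ => (1 : ℤ)) (I * I') =
      (fun _ => (1 : ℤ)) I * (fun _ => (1 : ℤ)) I' := fun _ _ _ _ => rfl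
  have h1 : Ideal.absNorm (Ideal.span {(p : 𝓞 K)}) = p * p := by
    rw [Ideal.absNorm_span_natCast, RingOfIntegers.rank, h.rank, sq]
  have h2 : ∑ I ∈ cnqS K (p * k) with Ideal.span {(p : 𝓞 K)} ∣ I, (1 : ℤ) =
      1 * if p ∣ k then ∑ _I ∈ cnqS K (k / p), (1 : ℤ) else 0 := by
    split_ifs with h2
    · obtain ⟨m, rfl⟩ := h2
      rw [← mul_assoc, cnq_dvd mul h1 (mul_ne_zero h0 h0) (right_ne_zero_of_mul hk),
        Nat.mul_div_cancel_left _ hp.pos]
    · rw [mul_zero]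
      refine Finset.sum_eq_zero fun I hI => absurd ?_ h2
      obtain ⟨h4, h5⟩ := Finset.mem_filter.1 hI
      have h6 := map_dvd Ideal.absNorm h5
      rw [h1, mem_cnqS.1 h4] at h6
      exact Nat.dvd_of_mul_dvd_mul_left hp.pos h6
  have h4 : ∀ I ∈ cnqS K (p * k), ∀ P Q : Ideal (𝓞 K), P.IsMaximal → Q.IsMaximal →
      Ideal.span {(p : 𝓞 K)} ∣ P * Q → P ∣ I ∨ Q ∣ I := fun I hI P Q hP hQ e => by
    obtain ⟨R, hR, k1, k2⟩ := Ideal.exists_isMaximal_dvd_of_dvd_absNorm' hp I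
      (mem_cnqS.1 hI ▸ dvd_mul_right _ _)
    have k3 : (p : 𝓞 K) ∈ R := by
      have : (p : ℤ) ∈ R.under ℤ := k1 ▸ Ideal.mem_span_singleton_self _
      simpa using Ideal.mem_comap.1 this
    have k4 : P * Q ≤ R := (Ideal.le_of_dvd e).trans ((Ideal.span_singleton_le_iff_mem _).2 k3)
    exact (hR.isPrime.mul_le.1 k4).imp (fun k => hP.eq_of_le hR.ne_top k ▸ k2)
      fun k => hQ.eq_of_le hR.ne_top k ▸ k2
  rcases h.cases hp with ⟨k1, P, Q, hP, hQ, k2, k3, k4, k5⟩ | ⟨k1, k2⟩ | ⟨k1, P, hP, k2, k3⟩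
  · have k7 := Finset.sum_union_inter (f := fun _ => (1 : ℤ))
      (s₁ := (cnqS K (p * k)).filter (P ∣ ·)) (s₂ := (cnqS K (p * k)).filter (Q ∣ ·))
    rw [← Finset.filter_or, ← Finset.filter_and, Finset.filter_true_of_mem fun I hI =>
      h4 I hI P Q hP hQ k3.symm.dvd, Finset.filter_congr (q := (Ideal.span {(p : 𝓞 K)} ∣ ·))
        fun I _ => k3 ▸ ⟨fun k => (Ideal.isCoprime_iff_sup_eq.2 (hP.coprime_of_ne hQ k2)).mul_dvd
          k.1 k.2, fun k => ⟨dvd_of_mul_right_dvd k, dvd_of_mul_left_dvd k⟩⟩, h2,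
      cnq_dvd mul k4 h0 hk, cnq_dvd mul k5 h0 hk] at k7
    rw [k1]
    linear_combination k7
  · rw [Finset.filter_true_of_mem fun I hI => (h4 I hI _ _ k2 k2 (dvd_mul_right _ _)).elim id id]
      at h2
    rw [k1]
    linear_combination h2
  · have k6 := cnq_dvd (Ψ := fun _ => 1) mul k3 h0 hk
    rw [Finset.filter_true_of_mem fun I hI => (h4 I hI _ _ hP hP k2.symm.dvd).elim id id] at k6
    rw [(kr_dvd h.fund hp).2 k1]
    linear_combination k6

/-- The number of ideals of given norm. -/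
theorem Qf.coef (h : Qf K d) {k : ℕ} (hk : k ≠ 0) :
    ∑ _I ∈ cnqS K k, (1 : ℤ) = ∑ x ∈ k.divisorsAntidiagonal, 1 * kr d x.2 := by
  induction k using Nat.strong_induction_on with
  | _ k ih =>
    rcases eq_or_ne k 1 with rfl | h1
    · rw [show cnqS K 1 = {⊤} from Finset.ext fun I => by
        rw [mem_cnqS, Ideal.absNorm_eq_one_iff, Finset.mem_singleton]]
      simp [kr_one]
    obtain ⟨p, h2, m, rfl⟩ := Nat.exists_prime_and_dvd h1
    have hm := right_ne_zero_of_mul hk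
    have h3 : m < p * m := lt_mul_of_one_lt_left (Nat.pos_of_ne_zero hm) h2.one_lt
    rw [h.rec' h2 hm, cnq_conv (χ := fun _ => 1) (fun _ _ _ _ => rfl)
      (fun a b _ _ => kr_mul h.fund a b) h2 hm, ih m h3 hm]
    split_ifs with h4
    · rw [ih _ ((Nat.div_le_self _ _).trans_lt h3)
        (Nat.div_pos (Nat.le_of_dvd (Nat.pos_of_ne_zero hm) h4) h2.pos).ne']
    · rfl

theorem b2b_mul {χ χ' : ℕ → ℤ} (h : ∀ a, |χ a| ≤ 1) (h' : ∀ a, |χ' a| ≤ 1) {s : ℝ} (hs : 1 < s) :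
    Ls (fun k => ∑ x ∈ k.divisorsAntidiagonal, χ x.1 * χ' x.2) s = Ls χ s * Ls χ' s := by
  have h0 : s ≠ 0 := by linarith
  have h3 : ∀ a : ℕ → ℤ, (∀ n, |a n| ≤ 1) → LSeriesSummable (fun n => (a n : ℂ)) s := fun a ha =>
    LSeriesSummable_of_bounded_of_one_lt_real (m := 1)
      (fun n _ => by rw [Complex.norm_intCast]; exact_mod_cast ha n) hs
  refine Complex.ofReal_injective ?_
  rw [Complex.ofReal_mul, cnq_Ls _ h0, cnq_Ls _ h0, cnq_Ls _ h0,
    ← LSeries_convolution' (h3 _ h) (h3 _ h'), LSeries.convolution_def]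
  simp

theorem Qf.sum (h : Qf K d) {s : ℝ} (hs : 1 < s) :
    ∑' I : Ideal (𝓞 K), QC.w s I = Ls (fun _ => 1) s * Ls (kr d) s := by
  have h0 : s ≠ 0 := by linarith
  rw [← b2b_mul (fun _ => le_rfl) (kr_abs d) hs,
    ← ((QC.summable_w hs).hasSum.tsum_fiberwise fun I => Ideal.absNorm I).tsum_eq, Ls]
  refine tsum_congr fun k => ?_
  rw [show (fun I : Ideal (𝓞 K) => Ideal.absNorm I) ⁻¹' {k} = cnqS K k from
    Set.ext fun I => mem_cnqS.symm, Finset.tsum_subtype' (cnqS K k) fun I => QC.w s I,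
    Finset.sum_congr rfl fun I hI => by rw [QC.w, mem_cnqS.1 hI]]
  rcases eq_or_ne k 0 with rfl | hk
  · simp [h0]
  · rw [← h.coef hk]
    simp

theorem Qf.lim (h : Qf K d) : Tendsto (Ls (kr d)) (𝓝[>] 1) (𝓝 (dedekindZeta_residue K)) := by
  have h1 := (QC.tendsto_Z K).div tendsto_sub_mul_tsum_nat_rpow one_ne_zero
  rw [div_one] at h1
  refine h1.congr' ?_
  filter_upwards [self_mem_nhdsWithin, tendsto_sub_mul_tsum_nat_rpow.eventually_ne one_ne_zero]
    with s hs h2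
  rw [Pi.div_apply, div_eq_iff h2, h.sum hs, show Ls (fun _ => 1) s = ∑' n : ℕ, 1 / (n : ℝ) ^ s from
    tsum_congr fun n => by rw [Int.cast_one, one_mul, Real.rpow_neg n.cast_nonneg, one_div]]
  ring

theorem Qf.tors (h : Qf K d) (h3 : d ≠ -3) {x : (𝓞 K)ˣ} (hx : x ∈ torsion K) :
    (x = 1 ∨ x = -1) ∨ d = -4 ∧ (x : 𝓞 K) ^ 2 = -1 := by
  obtain ⟨-, t, β, hβ, hb⟩ := h.basis
  obtain ⟨a, b, hab⟩ := hb (x : 𝓞 K)
  obtain ⟨φ⟩ : Nonempty (K →+* ℂ) := inferInstance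
  set ψ : 𝓞 K →+* ℂ := φ.comp (algebraMap (𝓞 K) K) with hψ
  have hinj : Function.Injective ψ := φ.injective.comp (IsFractionRing.injective (𝓞 K) K)
  have h1 : ‖ψ (x : 𝓞 K)‖ = 1 := (mem_torsion K).1 hx (InfinitePlace.mk φ)
  have h2 : (2 * ψ β - t) ^ 2 = (d : ℂ) := by
    have := congrArg ψ hβ
    simpa [map_ofNat] using this
  have h4 : ψ (x : 𝓞 K) = a + b * ψ β := by rw [hab]; simp
  have h5 : Complex.normSq (ψ (x : 𝓞 K)) = 1 := by rw [Complex.normSq_eq_norm_sq, h1]; norm_num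
  have hre := congrArg Complex.re h2
  have him := congrArg Complex.im h2
  rw [h4, Complex.normSq_apply] at h5
  simp [pow_two] at hre him h5
  by_cases key : (ψ (x : 𝓞 K)).im = 0
  · have h8 : ψ (x : 𝓞 K) ^ 2 = 1 := by
      have e : ψ (x : 𝓞 K) = ((ψ (x : 𝓞 K)).re : ℂ) := Complex.ext (by simp) (by simp [key])
      rw [e, Complex.norm_real, Real.norm_eq_abs] at h1
      rw [e, ← Complex.ofReal_pow, ← sq_abs, h1]; simp
    have h9 : (x : 𝓞 K) ^ 2 = 1 := hinj (by rw [map_pow, h8, map_one])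
    rcases mul_self_eq_one_iff.1 ((pow_two _).symm.trans h9) with e | e
    · exact .inl (Or.inl (Units.ext e))
    · exact .inl (Or.inr (Units.ext e))
  rw [h4] at key
  simp only [Complex.add_im, Complex.intCast_im, Complex.mul_im, Complex.intCast_re, zero_mul,
    add_zero, zero_add, mul_eq_zero] at key
  push Not at key
  obtain ⟨hb0, hi0⟩ := key
  have hr : 2 * (ψ β).re - t = 0 := by
    have : (2 * (ψ β).re - t) * (ψ β).im = 0 := by linarith
    exact (mul_eq_zero.1 this).resolve_right hi0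
  have hr' : (ψ β).re = t / 2 := by linarith
  have hd : (d : ℝ) = -(4 * (ψ β).im ^ 2) := by rw [← hre, hr']; ring
  have h6 : ((2 * a + b * t : ℤ) : ℝ) ^ 2 - (b : ℝ) ^ 2 * d = 4 := by
    rw [hd]; push_cast; rw [hr'] at h5; linarith
  have h7 : (2 * a + b * t) ^ 2 - b ^ 2 * d = 4 := by exact_mod_cast h6
  have hd0 : d < 0 := by
    have : (d : ℝ) < 0 := by rw [hd]; have := pow_pos (abs_pos.2 hi0) 2; rw [sq_abs] at this; linarith
    exact_mod_cast this
  have hd7 : d ≤ -4 := by rcases h.fund with ⟨-, h4, -⟩ | ⟨m, rfl, -⟩ <;> omega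
  have hb1 : b ≠ 0 := by exact_mod_cast hb0
  have hb2 : 1 ≤ b ^ 2 := by have := sq_pos_of_ne_zero hb1; omega
  have h8 : d = -4 := by nlinarith [sq_nonneg (2 * a + b * t)]
  subst h8
  have h9 : b ^ 2 = 1 := by nlinarith [sq_nonneg (2 * a + b * t)]
  have h10 : 2 * a + b * t = 0 := pow_eq_zero_iff two_ne_zero |>.1 (by linarith)
  refine .inr ⟨rfl, mul_left_cancel₀ (a := 4) (by norm_num) ?_⟩
  have h11 : (b : 𝓞 K) ^ 2 = 1 := by exact_mod_cast congrArg (Int.cast : ℤ → 𝓞 K) h9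
  have h12 : (2 : 𝓞 K) * a + b * t = 0 := by exact_mod_cast congrArg (Int.cast : ℤ → 𝓞 K) h10
  rw [hab]
  push_cast at hβ
  linear_combination b ^ 2 * hβ - 4 * h11 + (2 * a - b * t + 4 * b * β) * h12

theorem Qf.torsion (h : Qf K d) (h3 : d ≠ -3) (h4 : d ≠ -4) : torsionOrder K = 2 := by
  let := Fintype.ofFinite (Units.torsion K)
  rw [torsionOrder, Nat.card_eq_fintype_card]
  refine (Finset.card_eq_two.2 ⟨1, ⟨-1, neg_one_mem_torsion⟩,
    by simp [← Subtype.coe_ne_coe], Finset.ext fun x ↦ ⟨fun _ ↦ ?_, fun _ ↦ Finset.mem_univ _⟩⟩)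
  rw [Finset.mem_insert, Finset.mem_singleton, ← Subtype.val_inj, ← Subtype.val_inj]
  exact (h.tors h3 x.2).resolve_right fun e => h4 e.1

theorem Qf.torsion' (h : Qf K d) (h3 : d ≠ -3) : torsionOrder K = 2 ∨ torsionOrder K = 4 := by
  have h1 : ∀ x : Units.torsion K, x ^ 4 = 1 := fun x => Subtype.ext (by
    change x.1 ^ 4 = 1
    rcases h.tors h3 x.2 with (e | e) | e
    · rw [e, one_pow]
    · rw [e]; norm_num
    · refine Units.ext ?_
      rw [Units.val_pow_eq_pow_val, show 4 = 2 * 2 from rfl, pow_mul, e.2]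
      simp)
  have h2 : torsionOrder K ∣ 2 ^ 2 := by
    rw [torsionOrder, ← IsCyclic.exponent_eq_card]
    exact Monoid.exponent_dvd_of_forall_pow_eq_one h1
  obtain ⟨j, hj, e⟩ := (Nat.dvd_prime_pow Nat.prime_two).1 h2
  have h5 := even_torsionOrder K
  interval_cases j
  · rw [e] at h5
    exact absurd h5 (by decide)
  · exact .inl e
  · exact .inr e

theorem Qf.places_pos (h : Qf K d) (h0 : 0 < d) :
    InfinitePlace.nrRealPlaces K = 2 ∧ InfinitePlace.nrComplexPlaces K = 0 := by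
  have h1 := InfinitePlace.card_add_two_mul_card_eq_rank K
  have h2 := sign_discr K
  rw [h.rank] at h1
  rw [h.basis.1, Int.sign_eq_one_of_pos h0] at h2
  have h3 : InfinitePlace.nrComplexPlaces K ≠ 1 := fun e => by rw [e] at h2; norm_num at h2
  omega

theorem Qf.places_neg (h : Qf K d) (h0 : d < 0) :
    InfinitePlace.nrRealPlaces K = 0 ∧ InfinitePlace.nrComplexPlaces K = 1 := by
  have h1 := InfinitePlace.card_add_two_mul_card_eq_rank K
  have h2 := sign_discr K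
  rw [h.rank] at h1
  rw [h.basis.1, Int.sign_eq_neg_one_of_neg h0] at h2
  have h3 : InfinitePlace.nrComplexPlaces K ≠ 0 := fun e => by rw [e] at h2; norm_num at h2
  omega

theorem Qf.res_pos (h : Qf K d) (h0 : 0 < d) :
    dedekindZeta_residue K = 2 * regulator K * classNumber K / √d := by
  obtain ⟨h1, h2⟩ := h.places_pos h0
  have h0' : (0 : ℝ) < d := by exact_mod_cast h0
  rw [dedekindZeta_residue_def, h1, h2, h.torsion (by omega) (by omega), h.basis.1, abs_of_pos h0']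
  have : √(d : ℝ) ≠ 0 := Real.sqrt_ne_zero'.2 h0'
  push_cast
  field_simp

theorem Qf.reg (h : Qf K d) (h0 : d < 0) : regulator K = 1 := by
  obtain ⟨h1, h2⟩ := h.places_neg h0
  have h3 : Units.rank K = 0 := by
    rw [Units.rank, InfinitePlace.card_eq_nrRealPlaces_add_nrComplexPlaces, h1, h2]
  have : IsEmpty (Fin (Units.rank K)) := by rw [h3]; infer_instance
  have : IsEmpty {w : InfinitePlace K // w ≠ dirichletUnitTheorem.w₀} :=
    (equivFinRank K).symm.isEmpty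
  rw [regulator_eq_det', Matrix.det_isEmpty, abs_one]

theorem Qf.res_neg (h : Qf K d) (h0 : d < -3) : ∃ c : ℕ, (c = 1 ∨ c = 2) ∧
    dedekindZeta_residue K = c * π * classNumber K / (2 * √(-d)) := by
  obtain ⟨h1, h2⟩ := h.places_neg (by omega)
  have h0' : (d : ℝ) < 0 := by exact_mod_cast (by omega : d < 0)
  have : √(-(d : ℝ)) ≠ 0 := Real.sqrt_ne_zero'.2 (by linarith)
  rw [dedekindZeta_residue_def, h1, h2, h.basis.1, abs_of_neg h0', h.reg (by omega)]
  rcases h.torsion' (by omega) with e | e <;> rw [e]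
  · refine ⟨2, .inr rfl, ?_⟩
    push_cast
    field_simp
  · refine ⟨1, .inl rfl, ?_⟩
    push_cast
    field_simp
    ring

/-- The fundamental unit. -/
theorem Qf.unit (h : Qf K d) (h0 : 0 < d) (ι : K →+* ℂ) : ∃ ε : (𝓞 K)ˣ,
    log ‖ι (ε : 𝓞 K)‖ = regulator K ∧ ∀ u : (𝓞 K)ˣ, ∃ k : ℤ, u = ε ^ k ∨ u = -ε ^ k := by
  obtain ⟨h1, h2⟩ := h.places_pos h0
  have hc : Fintype.card (InfinitePlace K) = 2 := by
    rw [InfinitePlace.card_eq_nrRealPlaces_add_nrComplexPlaces, h1, h2]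
  have h3 : Units.rank K = 1 := by rw [Units.rank, hc]
  obtain ⟨w', hw'⟩ := Fintype.exists_ne_of_one_lt_card (by omega) (InfinitePlace.mk ι)
  have hc' : Fintype.card {w : InfinitePlace K // w ≠ w'} = 1 := by
    rw [Fintype.card_subtype_compl, Fintype.card_subtype_eq, hc]
  have hs : Subsingleton {w : InfinitePlace K // w ≠ w'} :=
    Fintype.card_le_one_iff_subsingleton.1 hc'.le
  have hs' : Subsingleton (Fin (Units.rank K)) := by rw [h3]; infer_instance
  let e : {w : InfinitePlace K // w ≠ w'} ≃ Fin (Units.rank K) :=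
    Fintype.equivOfCardEq (by rw [hc', Fintype.card_fin, h3])
  let w : {w : InfinitePlace K // w ≠ w'} := ⟨InfinitePlace.mk ι, hw'.symm⟩
  have : IsTotallyReal K := nrComplexPlaces_eq_zero_iff.1 h2
  have hreg : regulator K = |log ‖ι (fundSystem K (e w) : 𝓞 K)‖| := by
    rw [regulator_eq_det K w' e, Matrix.det_eq_elem_of_subsingleton _ w, Matrix.of_apply,
      (IsTotallyReal.isReal w.1).mult_eq_one, Nat.cast_one, one_mul]
    rfl
  have hu : ∀ u : (𝓞 K)ˣ, ∃ k : ℤ, u = fundSystem K (e w) ^ k ∨ u = -fundSystem K (e w) ^ k := by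
    intro u
    obtain ⟨⟨ζ, f⟩, hf, -⟩ := exist_unique_eq_mul_prod K u
    refine ⟨f (e w), ?_⟩
    rw [Fintype.prod_subsingleton _ (e w)] at hf
    rcases (h.tors (by omega) ζ.2).resolve_right fun e => by omega with hz | hz
    · left; rw [hf]; simp only [hz, one_mul]
    · right; rw [hf]; simp only [hz, neg_mul, one_mul]
  rcases le_total 0 (log ‖ι (fundSystem K (e w) : 𝓞 K)‖) with hp | hp
  · exact ⟨_, by rw [hreg, abs_of_nonneg hp], hu⟩
  · refine ⟨(fundSystem K (e w))⁻¹, ?_, fun u => ?_⟩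
    · rw [hreg, abs_of_nonpos hp, ← log_inv, ← norm_inv, ← map_inv₀]
      congr 3
      simp
    · obtain ⟨k, hk⟩ := hu u
      exact ⟨-k, by simpa using hk⟩

end Pool.Agent.Lib.MP_696deb_nt.EV.D
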