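import Pool.Agent.Lib.MP_696deb_nt.ED.B2

/-! The class number formula for the biquadratic field. -/

set_option autoImplicit false

open scoped Classical NNReal
open NumberField Filter Topology

namespace Pool.Agent.Lib.MP_696deb_nt.EV.D
open Pool.Agent.H3.T (op_GQ normal_GQ mem_GQ mul_mem_GQ cnd_out cnd_val cnd_norm cnd_inj cnd_fx
  cnk_sel cnk_kum cnk_vh)
open Pool.Agent.H3 (zva_app)

variable {d : ℤ} {g σ : Gam} {v : Plc} {k : ℕ}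

theorem op_HF (d : ℤ) : Op (HF d) := op_G.inf (op_GQ d)

theorem normal_HF (d : ℤ) : (HF d).Normal :=
  @Subgroup.normal_inf_normal _ _ _ _ normal_G (normal_GQ d)

theorem mem_HF : g ∈ HF d ↔ g ∈ G ∧ chi d g = 1 := Iff.rfl

theorem HF_le (d : ℤ) : HF d ≤ G := inf_le_left

theorem b3_G : g ∈ G ↔ chi (-3) g = 1 := Iff.rfl

theorem b3_m3 (h : d ≠ 0) (g : Gam) : chi (-3 * d) g = chi (-3) g * chi d g :=
  B2.chi_mul (by decide) h g

theorem b3_dp (h : Fd d) (hg : g ∈ G) : chi (dp d) g = chi d g := by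
  unfold dp
  split_ifs
  · rfl
  · rw [b3_m3 h.fund.ne, b3_G.1 hg, one_mul]

theorem b3_dm (h : Fd d) (hg : g ∈ G) : chi (dm d) g = chi d g := by
  unfold dm
  split_ifs
  · rw [b3_m3 h.fund.ne, b3_G.1 hg, one_mul]
  · rfl

theorem b3_pm (h : Fd d) (g : Gam) : chi (dp d) g * chi (dm d) g = chi (-3) g := by
  unfold dp dm
  split_ifs <;> rw [b3_m3 h.fund.ne]
  · rw [mul_left_comm, Int.units_mul_self, mul_one]
  · rw [mul_assoc, Int.units_mul_self, mul_one]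

theorem b3_mem (h : Fd d) (h1 : g ∈ GQ (dp d)) (h2 : g ∈ GQ (dm d)) : g ∈ HF d := by
  have h3 : g ∈ G := by rw [b3_G, ← b3_pm h, mem_GQ.1 h1, mem_GQ.1 h2, one_mul]
  exact ⟨h3, (b3_dp h h3).symm.trans h1⟩

theorem HF_le_dp (h : Fd d) : HF d ≤ GQ (dp d) := fun _ hg => (b3_dp h hg.1).trans hg.2

theorem HF_le_dm (h : Fd d) : HF d ≤ GQ (dm d) := fun _ hg => (b3_dm h hg.1).trans hg.2

theorem qf_GQ (h : Fund d) : Qf (B2.Kf (GQ d)) d := by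
  obtain ⟨g, hg⟩ := B2.exists_chi_ne (a := d) fun ⟨r, hr⟩ => h.nsq r (hr.trans (sq r).symm)
  have h2 : g ∉ GQ d := cnd_out.2 hg
  refine ⟨?_, h, ⟨B2.rt d, B2.b3a_fx.1 fun _ h => B2.chi_eq_one.1 h⟩, Subtype.ext ?_⟩
  · rw [B2.finrank_Kf (op_GQ d)]
    refine Subgroup.index_eq_two_iff.2 ⟨g, fun b => ?_⟩
    by_cases hb : b ∈ GQ d
    · exact Or.inr ⟨hb, fun h => h2 ((mul_mem_cancel_left hb).1 h)⟩
    · exact Or.inl ⟨mul_mem_GQ hb h2, hb⟩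
  · simpa using B2.rt_sq d

/-- The character is unramified away from the discriminant. -/
theorem chi_unr (h : Fund d) (hv : ¬ (v.p : ℤ) ∣ d) (hσ : σ ∈ Ine v) : chi d σ = 1 := by
  by_cases h2 : v.p = 2
  · refine B2.chi_ine_two h2 ?_ hσ
    rw [h2] at hv
    rcases h with ⟨-, h4, -⟩ | ⟨m, rfl, -⟩ <;> omega
  · refine B2.chi_ine (fun k => ?_) hσ
    rcases (Nat.prime_iff_prime_int.1 v.prime).dvd_or_dvd k with k | k
    · exact h2 ((Nat.prime_dvd_prime_iff_eq v.prime Nat.prime_two).1 (Int.natCast_dvd_natCast.1 k))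
    · exact hv k

theorem b3_V {m : ℤ} (hs : Squarefree m) (hv : (v.p : ℤ) ∣ m) : v.V m = v.V v.p ^ 1 := by
  obtain ⟨c, rfl⟩ := hv
  rw [Int.cast_mul, map_mul, v.V_int_eq_one.2 fun k => (Nat.prime_iff_prime_int.1 v.prime).not_isUnit
    (hs _ (mul_dvd_mul_left _ k)), mul_one, pow_one, Int.cast_natCast]

/-- The character is ramified at the primes of the discriminant. -/
theorem chi_ram (h : Fund d) (hv : (v.p : ℤ) ∣ d) : ∃ σ ∈ Ine v, chi d σ = -1 := by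
  suffices k : ∃ x y z : Qbar, (∀ g : Gam, g y = y) ∧ (∀ g : Gam, g z = z) ∧ x = y + z * B2.rt d ∧
      v.V x ^ 2 = v.V v.p ^ 1 by
    obtain ⟨x, y, z, h1, h2, h3, h4⟩ := k
    obtain ⟨σ, k1, k2⟩ := H3.exists_ine_ne two_ne_zero (by decide) h4
    refine ⟨σ, k1, (Int.units_eq_one_or _).resolve_left fun e => k2 ?_⟩
    rw [h3, map_add, map_mul, h1, h2, B2.chi_eq_one.1 e]
  rcases h with ⟨hs, -⟩ | ⟨m, rfl, hs, h4⟩
  · exact ⟨_, 0, 1, map_zero, map_one, rfl, by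
      rw [zero_add, one_mul, ← map_pow, B2.rt_sq, b3_V hs hv]⟩
  have h5 : (2⁻¹ * B2.rt (4 * m)) ^ 2 = m := by
    rw [mul_pow, B2.rt_sq]
    push_cast
    ring
  have h6 : ∀ g : Gam, g (2⁻¹ : Qbar) = 2⁻¹ := fun g => by rw [map_inv₀, map_ofNat]
  by_cases k : (v.p : ℤ) ∣ m
  · exact ⟨_, 0, 2⁻¹, map_zero, h6, rfl, by rw [zero_add, ← map_pow, h5, b3_V hs k]⟩
  have h2 : v.p = 2 := (Nat.prime_dvd_prime_iff_eq v.prime Nat.prime_two).1
    (v.prime.dvd_of_dvd_pow (n := 2) (Int.natCast_dvd_natCast.1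
      (((Nat.prime_iff_prime_int.1 v.prime).dvd_or_dvd hv).resolve_right k)))
  refine ⟨_, 1, 2⁻¹, map_one, h6, rfl, ?_⟩
  generalize 2⁻¹ * B2.rt (4 * m) = δ at h5
  rw [h2] at k
  obtain ⟨j, rfl⟩ : ∃ j, m = 4 * j + 3 := ⟨m / 4, by omega⟩
  have h7 : v.V (2 : Qbar) < 1 := by
    have := B2.b2c_lt (w := v) (a := 2)
    rw [h2] at this
    exact_mod_cast this.2 dvd_rfl
  have h8 : v.V δ = 1 := (pow_eq_one_iff_of_nonneg zero_le two_ne_zero).1 (by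
    rw [← map_pow, h5, v.V_int_eq_one, h2]
    exact k)
  have h9 : (1 + δ) ^ 2 = 2 * (δ + 2 * ((j + 1 : ℤ) : Qbar)) := by
    push_cast at h5 ⊢
    linear_combination h5
  rw [← map_pow, h9, map_mul, v.V.map_add_eq_of_lt_left, h8, mul_one, pow_one, h2, Nat.cast_ofNat]
  rw [h8, map_mul]
  exact mul_lt_one_of_lt_of_le h7 (v.V_int_le _)

theorem b3_fr (h : Fund d) (hv : ¬ (v.p : ℤ) ∣ d) {φ : Gam} (hφ : IsFrob v v.p φ) :
    (chi d φ : ℤ) = kr d v.p := by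
  by_cases h2 : v.p = 2
  · have h4 : d % 4 = 1 := by
      rw [h2] at hv
      rcases h with ⟨-, h4, -⟩ | ⟨m, rfl, -⟩ <;> omega
    rw [h2, kr_two h4]
    split_ifs with k
    · rw [B2.chi_dec_two h2 k hφ.1, Units.val_one]
    · have h5 := B2.chi_dec_two (a := 5 * d) h2 (by omega) hφ.1
      rw [B2.chi_mul (by decide) h.ne, B2.chi_frob_two h2 (h2 ▸ hφ), neg_one_mul,
        neg_eq_iff_eq_neg] at h5
      rw [h5]
      rfl
  · rw [kr_odd h (v.prime.odd_of_ne_two h2)]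
    refine B2.chi_frob (fun k => ?_) hφ
    rcases (Nat.prime_iff_prime_int.1 v.prime).dvd_or_dvd k with k | k
    · exact h2 ((Nat.prime_dvd_prime_iff_eq v.prime Nat.prime_two).1 (Int.natCast_dvd_natCast.1 k))
    · exact hv k

theorem kr_pow (h : Fund d) (a n : ℕ) : kr d (a ^ n) = kr d a ^ n := by
  induction n with
  | zero => rw [pow_zero, pow_zero, kr_one]
  | succ n ih => rw [pow_succ, pow_succ, kr_mul h, ih]

theorem chi_fr (h : Fund d) (hv : ¬ (v.p : ℤ) ∣ d) {φ : Gam} {n : ℕ} (hφ : IsFrob v (v.p ^ n) φ) :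
    (chi d φ : ℤ) = kr d (v.p ^ n) := by
  obtain ⟨ψ, hψ⟩ := B2.exists_frob v
  have h1 := chi_unr h hv ((hψ.pow n).inv_mul_mem hφ)
  rw [map_mul, map_inv, inv_mul_eq_one] at h1
  rw [← h1, map_pow, Units.val_pow_eq_pow_val, b3_fr h hv hψ, kr_pow h]

theorem TP.dvd_int (t : TP) {n : ℤ} : t.π ∣ (n : O) ↔ (t.v.p : ℤ) ∣ n := by
  rw [← t.V_lt, map_intCast, B2.b2c_lt]

/-- The value at a Frobenius element. -/
theorem chi_tp (h : Fund d) (t : TP) (ht : ¬ t.π ∣ (d : O)) : (chi d t.φ : ℤ) = kN d t.π := by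
  rw [kN, t.tm.deg]
  exact chi_fr h (mt (TP.dvd_int t).2 ht) (t.tm.deg ▸ t.tm.frob)

theorem Hw_le (h : Fd d) : Hw ≤ GQ d ↔ d % 3 = 1 := by
  have hv : ¬ (w3.p : ℤ) ∣ d := by rw [w3_p]; exact h.three
  have e : ∀ φ, IsFrob w3 w3.p φ → (chi d φ = 1 ↔ d % 3 = 1) := fun φ hφ => by
    rw [← Units.val_eq_one, b3_fr h.fund hv hφ, w3_p, kr_three h]
    split_ifs with k <;> simp [k]
  obtain ⟨φ, h1⟩ := B2.exists_frob w3
  refine ⟨fun k => ?_, fun k g hg =>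
    B2.b2c_dec (fun _ => chi_unr h.fund hv) h1 ((e φ h1).2 k) hg.2⟩
  by_cases h2 : φ ∈ G
  · exact (e φ h1).1 (k ⟨h2, h1.1⟩)
  · obtain ⟨σ, h3, h4⟩ := H3.exists_z1 w3_p
    have h5 := h1.mul_ine h3
    exact (e _ h5).1 (k ⟨B2.mul_mem_GK h2 fun k =>
      absurd (h4.symm.trans (cy_one_G k)) (by decide), h5.1⟩)

theorem exists_g0 (h : Fd d) : ∃ (v : Plc) (σ : Gam), (v.p : ℤ) ∣ d ∧ v.p ≠ 3 ∧ σ ∈ Ine v ∧
    σ ∈ G ∧ chi d σ = -1 := by
  obtain ⟨p, hp, k⟩ := Nat.exists_prime_and_dvd h.fund.one_lt.ne'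
  obtain ⟨v, rfl⟩ := B2.exists_plc hp
  have h1 := Int.natCast_dvd.2 k
  have h2 : v.p ≠ 3 := fun e => h.three (by rwa [e] at h1)
  obtain ⟨σ, h3, h4⟩ := chi_ram h.fund h1
  exact ⟨v, σ, h1, h2, h3, ine_le h2 h3, h4⟩

theorem index_HF (h : Fd d) : (HF d).index = 4 := by
  obtain ⟨-, g, -, -, -, h2, h3⟩ := exists_g0 h
  have h4 := cnd_out.2 h3
  have h1 : (GQ d).relIndex G = 2 := Subgroup.index_eq_two_iff.2 ⟨⟨g, h2⟩, fun b => by
    by_cases hb : b.1 ∈ GQ d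
    · exact Or.inr ⟨hb, fun h => h4 ((mul_mem_cancel_left hb).1 h)⟩
    · exact Or.inl ⟨mul_mem_GQ hb h4, hb⟩⟩
  rw [← Subgroup.relIndex_mul_index (HF_le d), HF, Subgroup.inf_relIndex_left, h1,
    B2.index_GK three_pos]

/-- The fundamental unit. -/
theorem Fund.fund (h : Fund d) (h0 : 0 < d) (ι : B2.Kf (GQ d) →+* ℂ) :
    ∃ ε : (𝓞 (B2.Kf (GQ d)))ˣ, Real.log ‖ι (ε : 𝓞 (B2.Kf (GQ d)))‖ =
      Units.regulator (B2.Kf (GQ d)) ∧ ∀ u : (𝓞 (B2.Kf (GQ d)))ˣ, ∃ k : ℤ,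
        u = ε ^ k ∨ u = -ε ^ k := (qf_GQ h).unit h0 ι

/-- Units of the fixed field of an open subgroup. -/
theorem b3_unit {H : Subgroup Gam} {y : Qbar} (hy : Fx H y) (k : ∀ v : Plc, v.V y = 1) :
    ∃ u : (𝓞 (B2.Kf H))ˣ, (((u : 𝓞 (B2.Kf H)) : B2.Kf H) : Qbar) = y := by
  have v0 : y ≠ 0 := w3.V.ne_zero_iff.1 (k w3 ▸ one_ne_zero)
  have i : ∀ x : B2.Kf H, (∀ w : Plc, w.V x = 1) → IsIntegral ℤ x := fun x hx =>
    (isIntegral_algebraMap_iff (algebraMap (B2.Kf H) Qbar).injective).1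
      (B2.isIntegral_of_V fun w => (hx w).le)
  let x : B2.Kf H := ⟨y, B2.b3a_fx.1 hy⟩
  have x0 : x ≠ 0 := fun e => v0 (congrArg Subtype.val e)
  exact ⟨.mkOfMulEqOne ⟨x, i x k⟩ ⟨x⁻¹, i _ fun w => by
    rw [IntermediateField.coe_inv, map_inv₀, k, inv_one]⟩ (Subtype.ext (mul_inv_cancel₀ x0)), rfl⟩

theorem b3_V_unit {H : Subgroup Gam} (u : (𝓞 (B2.Kf H))ˣ) (v : Plc) :
    v.V (((u : 𝓞 (B2.Kf H)) : B2.Kf H) : Qbar) = 1 := by
  have h1 : ∀ x : 𝓞 (B2.Kf H), v.V ((x : B2.Kf H) : Qbar) ≤ 1 := fun x =>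
    v.V_le_one_of_isIntegral (x.isIntegral_coe.map (IsScalarTower.toAlgHom ℤ (B2.Kf H) Qbar))
  refine le_antisymm (h1 _) ?_
  have h2 : v.V (((u : 𝓞 (B2.Kf H)) : B2.Kf H) : Qbar) *
      v.V ((((u⁻¹ : (𝓞 (B2.Kf H))ˣ) : 𝓞 (B2.Kf H)) : B2.Kf H) : Qbar) = 1 := by
    rw [← map_mul, ← IntermediateField.coe_mul, ← map_mul, Units.mul_inv]
    simp
  rw [← h2]
  exact mul_le_of_le_one_right' (h1 _)

theorem cn_unit (h : Fund d) (h0 : 0 < d) (ι : Qbar →+* ℂ) {y : Qbar} (hy : Fx (GQ d) y)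
    (k : ∀ v : Plc, v.V y = 1) :
    ∃ n : ℤ, Real.log ‖ι y‖ = n * Units.regulator (B2.Kf (GQ d)) := by
  obtain ⟨ε, h2, h3⟩ := h.fund h0 (ι.comp (algebraMap (B2.Kf (GQ d)) Qbar))
  obtain ⟨u, rfl⟩ := b3_unit hy k
  let f : 𝓞 (B2.Kf (GQ d)) →+* ℂ :=
    (ι.comp (algebraMap (B2.Kf (GQ d)) Qbar)).comp (algebraMap _ _)
  obtain ⟨k, e⟩ := h3 u
  have h5 : ‖f (ε ^ k : (𝓞 (B2.Kf (GQ d)))ˣ)‖ = ‖f ε‖ ^ k := by
    rw [← norm_zpow]
    exact congrArg norm ((congrArg Units.val (map_zpow (Units.map f.toMonoidHom) ε k)).trans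
      (Units.val_zpow_eq_zpow_val _ _))
  refine ⟨k, ?_⟩
  change Real.log ‖f u‖ = _
  change Real.log ‖f ε‖ = _ at h2
  rcases e with e | e
  · rw [e, h5, Real.log_zpow, h2]
  · rw [e, Units.val_neg, map_neg, norm_neg, h5, Real.log_zpow, h2]

theorem kumF_pos (h : Fund d) (h0 : 0 < d) (hk : vh d ≤ k) : KumF (GQ d) k (3 ^ (k + vh d)) := by
  obtain ⟨a, h2, h3⟩ := cnk_sel (B2.Kf (GQ d)) (N := 3 ^ k) (by positivity)
  obtain ⟨ε, h5, h6⟩ := h.fund h0 (B2.jC.comp (algebraMap (B2.Kf (GQ d)) Qbar))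
  let f : 𝓞 (B2.Kf (GQ d)) →+* ℂ :=
    (B2.jC.comp (algebraMap (B2.Kf (GQ d)) Qbar)).comp (algebraMap _ _)
  let L : (𝓞 (B2.Kf (GQ d)))ˣ →* Multiplicative ℝ :=
    MonoidHom.mk' (fun u => .ofAdd (Real.log ‖f u‖)) fun u v => by
      rw [Units.val_mul, map_mul, norm_mul, Real.log_mul (norm_ne_zero_iff.2 (u.isUnit.map f).ne_zero)
        (norm_ne_zero_iff.2 (v.isUnit.map f).ne_zero), ofAdd_add]
  have L1 : L ε = .ofAdd (Units.regulator (B2.Kf (GQ d))) := congrArg Multiplicative.ofAdd h5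
  have L2 : ∀ u, L (-u) = L u := fun u => by
    simp only [L, MonoidHom.mk'_apply, Units.val_neg, map_neg, norm_neg]
  refine cnk_kum (A := Fin (3 ^ k) × {c : ClassGroup (𝓞 (B2.Kf (GQ d))) // c ^ 3 ^ k = 1})
    ?_ (fun i => (ε ^ i.1.1 : (𝓞 (B2.Kf (GQ d)))ˣ) * a i.2) (fun i => ?_) fun i j y e => ?_
  · rw [Nat.card_prod, Nat.card_fin, pow_add]
    exact Nat.mul_le_mul_left _ (cnk_vh hk)
  · rw [Ideal.span_singleton_mul_left_unit (Units.isUnit _)]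
    exact ⟨mul_ne_zero (Units.ne_zero _) (h2 _).1, (h2 _).2⟩
  obtain ⟨h7, v, h8⟩ := h3 _ _ _ _ y e
  obtain ⟨m, h9⟩ := h6 v
  have L3 : L v = L ε ^ m := by rcases h9 with rfl | rfl <;> simp only [L2, map_zpow]
  have L4 := congrArg (fun u => (L u).toAdd) h8
  simp only [map_mul, map_pow, L3, L1, toAdd_mul, toAdd_pow, toAdd_zpow, toAdd_ofAdd, nsmul_eq_mul,
    zsmul_eq_mul] at L4
  have L5 : (i.1.1 : ℤ) = j.1.1 + (3 ^ k : ℕ) * m := by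
    have := mul_right_cancel₀ (Units.regulator_ne_zero (B2.Kf (GQ d)))
      (L4.trans (by rw [← mul_assoc, ← add_mul]))
    exact_mod_cast this
  refine Prod.ext (Fin.ext (Nat.ModEq.eq_of_lt_of_lt (Nat.modEq_iff_dvd.2 ⟨-m, ?_⟩) i.1.2 j.1.2)) h7
  rw [L5]
  ring

theorem kumF_neg (hk : vh d ≤ k) : KumF (GQ d) k (3 ^ vh d) := Pool.Agent.H3.T.kumF_neg hk

/-- Numbers of the biquadratic field whose ideals are powers. -/
theorem kum_HF (h : Fd d) (hg : g ∈ G) (hg' : chi d g = -1) (hk : hf d ≤ k) :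
    ∃ (A : Type) (a : A → Qbar), 3 ^ (k + hf d) ≤ Nat.card A ∧
      (∀ i, a i ≠ 0 ∧ Fx (HF d) (a i) ∧ (∃ y, Fx ⊤ y ∧ a i * g (a i) = y ^ 3 ^ k) ∧
        ∀ v : Plc, ∃ t : ℤ, v.V (a i) ^ 2 = ((v.p : ℝ≥0) ^ (3 ^ k * t))⁻¹) ∧
      ∀ i i' y, Fx (HF d) y → a i = a i' * y ^ 3 ^ k → i = i' := by
  have k1 : vh (dp d) ≤ k := le_trans (Nat.le_add_right _ _) hk
  have k2 : vh (dm d) ≤ k := le_trans (Nat.le_add_left _ _) hk
  obtain ⟨A, a, h1, h2, h3⟩ := kumF_pos h.dp.1 h.dp.2 k1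
  obtain ⟨A', a', h1', h2', h3'⟩ := kumF_neg k2
  have g1 : g ∉ GQ (dp d) := cnd_out.2 ((b3_dp h hg).trans hg')
  have g2 : g ∉ GQ (dm d) := cnd_out.2 ((b3_dm h hg).trans hg')
  have c1 : cc ∈ GQ (dp d) := by rw [mem_GQ, B2.chi_cc h.dp.1.ne, if_pos h.dp.2]
  have c2 : cc ∉ GQ (dm d) := by
    have := h.dm.2
    rw [cnd_out, B2.chi_cc h.dm.1.ne, if_neg (by omega)]
  refine ⟨A × A', fun i => a i.1 * a' i.2, ?_, fun i => ⟨mul_ne_zero (h2 _).1 (h2' _).1,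
    fun g hg => ?_, ?_, fun w => cnd_val ((h2 _).2.2 w) ((h2' _).2.2 w)⟩, fun i i' y hy k => ?_⟩
  · rw [Nat.card_prod, hf, ← add_assoc, pow_add]
    exact Nat.mul_le_mul h1 h1'
  · rw [map_mul, (h2 _).2.1 g (HF_le_dp h hg), (h2' _).2.1 g (HF_le_dm h hg)]
  · obtain ⟨y, -, y1, y2⟩ := cnd_norm (h2 i.1) g1
    obtain ⟨z, -, z1, z2⟩ := cnd_norm (h2' i.2) g2
    refine ⟨y * z, fun g _ => by rw [map_mul, y1 g trivial, z1 g trivial], ?_⟩
    rw [mul_pow, ← y2, ← z2, map_mul]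
    ring
  · obtain ⟨u, u1, u2⟩ := cnd_inj (h2 i.1).2.1 (h2 i'.1).2.1 (h2 _).1 (h2 _).1
      (h2' i.2) (h2' i'.2) (fun g hg hg' => hy g (b3_mem h hg hg')) c1 c2 k
    obtain ⟨v, v1, v2⟩ := cnd_inj (h2' i.2).2.1 (h2' i'.2).2.1 (h2' _).1 (h2' _).1
      (h2 i.1) (h2 i'.1) (fun g hg hg' => hy g (b3_mem h hg' hg)) (mul_mem_GQ g2 c2)
      (fun k => g1 ((mul_mem_cancel_right c1).1 k))
      (by rw [mul_comm (a' _), mul_comm (a' _)]; exact k)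
    exact Prod.ext (h3 _ _ u u1 u2) (h3' _ _ v v1 v2)

/-- The analytic class number formula. -/
theorem lim_kN (h : Fd d) : ∃ c : ℕ, (c = 1 ∨ c = 2) ∧
    Tendsto (fun s : ℝ => ∑' a : O, (kN d a : ℝ) * (nm a : ℝ) ^ (-s)) (𝓝[>] 1)
      (𝓝 (6 * c * Real.pi * Rh d / (√3 * d.natAbs))) := by
  obtain ⟨p1, p2⟩ := h.dp
  obtain ⟨m1, m2⟩ := h.dm
  obtain ⟨c, hc, e⟩ := (qf_GQ m1).res_neg m2
  refine ⟨c, hc, ?_⟩
  have h1 := ((qf_GQ p1).lim.mul (qf_GQ m1).lim).const_mul 6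
  rw [e, (qf_GQ p1).res_pos p2] at h1
  have h2 : √(dp d : ℝ) * √(-(dm d : ℝ)) = √3 * d.natAbs := by
    rw [← Real.sqrt_mul (by exact_mod_cast p2.le), Nat.cast_natAbs, Int.cast_abs,
      ← Real.sqrt_sq_eq_abs, ← Real.sqrt_mul (by norm_num)]
    congr 1
    unfold dp dm
    split_ifs <;> push_cast <;> ring
  have h3 : √(dp d : ℝ) ≠ 0 := Real.sqrt_ne_zero'.2 (by exact_mod_cast p2)
  have h4 : √(-(dm d : ℝ)) ≠ 0 := Real.sqrt_ne_zero'.2 (by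
    have : (dm d : ℝ) < 0 := by exact_mod_cast (by omega : dm d < 0)
    linarith)
  convert h1.congr' _ using 2
  · rw [← h2, Rh]
    field_simp
  · filter_upwards [self_mem_nhdsWithin] with s hs
    rw [sum_kN h hs]
    unfold dp dm
    split_ifs
    · rfl
    · rw [mul_comm (Ls _ s)]

theorem b3_cc (h : Fd d) (ι : Qbar →+* ℂ) : ∃ s, s ∈ GQ (dp d) ∧ s ∉ G ∧
    ∀ x, ι (s x) = starRingEnd ℂ (ι x) := by
  obtain ⟨σ, hσ⟩ := NumberField.ComplexEmbedding.exists_comp_symm_eq_of_comp_eq (k := ℚ) ι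
    (NumberField.ComplexEmbedding.conjugate ι) (Subsingleton.elim _ _)
  have h1 : ∀ x, ι (σ.symm x) = starRingEnd ℂ (ι x) := RingHom.congr_fun hσ
  have h2 : B2.IsCC σ.symm := ⟨ι, h1⟩
  refine ⟨σ.symm, ?_, tc_G _ h2, h1⟩
  obtain ⟨k, e⟩ := h2.conj
  rw [mem_GQ, e, map_mul, map_mul, B2.chi_cc h.dp.1.ne, if_pos h.dp.2, mul_one, ← map_mul,
    mul_inv_cancel, map_one]

theorem b3_norm (h : Fd d) {s : Gam} (h1 : s ∈ GQ (dp d)) (h2 : s ∉ G) {y : Qbar}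
    (hy : Fx (HF d) y) : Fx (GQ (dp d)) (y * s y) :=
  cnd_fx (d := -3) (fun g hg hg' => hy g ⟨hg', (b3_dp h hg').symm.trans hg⟩) h1 h2

/-- A unit whose logarithm is a multiple prime to three of the regulator times the class numbers
is not a higher power. -/
theorem val_unit (h : Fd d) (ι : Qbar →+* ℂ) {u : Qbar} (h1 : ∀ v : Plc, v.V u = 1) {c : ℤ}
    (hc : ¬ 3 ∣ c) (e : Real.log ‖ι u‖ = c * Rh d) {y : Qbar} (hy : Fx (HF d) y) :
    y ^ 3 ^ (hf d + 1) ≠ u := by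
  rintro rfl
  obtain ⟨s, s1, s2, s3⟩ := b3_cc h ι
  have h2 : ∀ v : Plc, v.V y = 1 := fun v =>
    (pow_eq_one_iff_of_nonneg zero_le (pow_ne_zero _ three_ne_zero)).1 (by rw [← map_pow, h1])
  obtain ⟨n, hn⟩ := cn_unit h.dp.1 h.dp.2 ι (b3_norm h s1 s2 hy) fun v => by
    rw [map_mul, h2, one_mul]
    exact h2 (s⁻¹ • v)
  rw [map_mul, s3, norm_mul, Complex.norm_conj, ← sq, Real.log_pow] at hn
  rw [map_pow, norm_pow, Real.log_pow, Rh] at e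
  have h3 : (3 : ℤ) ^ (hf d + 1) * n = 2 * c * (classNumber (B2.Kf (GQ (dp d))) *
      classNumber (B2.Kf (GQ (dm d))) : ℕ) := by
    have : ((3 : ℝ) ^ (hf d + 1) * n) * Units.regulator (B2.Kf (GQ (dp d))) =
        (2 * c * (classNumber (B2.Kf (GQ (dp d))) * classNumber (B2.Kf (GQ (dm d))))) *
          Units.regulator (B2.Kf (GQ (dp d))) := by
      push_cast at e hn
      linear_combination 2 * e - 3 ^ (hf d + 1) * hn
    exact_mod_cast mul_right_cancel₀ (Units.regulator_ne_zero _) this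
  have h4 : IsCoprime ((3 : ℤ) ^ (hf d + 1)) (2 * c) :=
    (Int.prime_three.coprime_iff_not_dvd.2 (by omega)).pow_left
  have h5 : 3 ^ (hf d + 1) ∣ classNumber (B2.Kf (GQ (dp d))) * classNumber (B2.Kf (GQ (dm d))) := by
    exact_mod_cast h4.dvd_of_dvd_mul_left ⟨n, h3.symm⟩
  have : Fact (Nat.Prime 3) := ⟨Nat.prime_three⟩
  rw [padicValNat_dvd_iff_le (mul_ne_zero (classNumber_ne_zero _) (classNumber_ne_zero _)),
    padicValNat.mul (classNumber_ne_zero _) (classNumber_ne_zero _)] at h5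
  exact absurd h5 (Nat.not_succ_le_self _)

/-- The units have rank one. -/
theorem unit_rank (h : Fd d) : ∃ (N : ℕ) (ε : Qbar), N ≠ 0 ∧ Fx (GQ (dp d)) ε ∧
    (∀ v : Plc, v.V ε = 1) ∧
    ∀ u, Fx (HF d) u → (∀ v : Plc, v.V u = 1) → ∃ n : ℤ, u ^ N = ε ^ n := by
  have := B2.nf_Kf (op_HF d)
  obtain ⟨ε, -, h3⟩ := h.dp.1.fund h.dp.2 (B2.jC.comp (algebraMap (B2.Kf (GQ (dp d))) Qbar))
  refine ⟨2 * (2 * Units.torsionOrder (B2.Kf (HF d))), _,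
    mul_ne_zero two_ne_zero (mul_ne_zero two_ne_zero (Units.torsionOrder_ne_zero _)),
    B2.fx_Kf _, b3_V_unit ε, fun u hu h1 => ?_⟩
  obtain ⟨s, s1, s2, -⟩ := b3_cc h B2.jC
  have u0 : u ≠ 0 := w3.V.ne_zero_iff.1 (h1 w3 ▸ one_ne_zero)
  have h2 : ∀ v : Plc, v.V (s u) = 1 := fun v => h1 (s⁻¹ • v)
  have h4 : Fx (HF d) (s u) := fun g hg => by
    rw [zva_app, hu _ ((normal_HF d).conj_mem' g hg s)]
  obtain ⟨x, hx⟩ := b3_unit (b3_norm h s1 s2 hu) fun v => by rw [map_mul, h1, h2, one_mul]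
  obtain ⟨y, hy⟩ := b3_unit (H := HF d) (y := u / s u)
    (fun g hg => by rw [map_div₀, hu g hg, h4 g hg]) fun v => by rw [map_div₀, h1, h2, div_one]
  have h5 : y ∈ Units.torsion (B2.Kf (HF d)) := (Units.mem_torsion _).2 fun v => by
    let ι := NumberField.ComplexEmbedding.lift Qbar v.embedding
    obtain ⟨t, t1, t2, t3⟩ := b3_cc h ι
    have h6 : s u = t u := by
      have := congrArg t (hu (t⁻¹ * s) ⟨B2.mul_mem_GK (fun k => t2 (inv_mem_iff.1 k)) s2, ?_⟩)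
      · rwa [← AlgEquiv.mul_apply, mul_inv_cancel_left] at this
      · exact (b3_dp h (B2.mul_mem_GK (fun k => t2 (inv_mem_iff.1 k)) s2)).symm.trans
          (mul_mem (inv_mem t1) s1)
    rw [← v.norm_embedding_eq, ← NumberField.ComplexEmbedding.lift_algebraMap_apply Qbar]
    change ‖ι _‖ = 1
    rw [show algebraMap _ Qbar _ = _ from hy, h6, map_div₀, t3, norm_div, Complex.norm_conj,
      div_self (norm_ne_zero_iff.2 ((map_ne_zero ι).2 u0))]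
  have h7 : (u / s u) ^ Units.torsionOrder (B2.Kf (HF d)) = 1 := by
    have : y ^ Units.torsionOrder (B2.Kf (HF d)) = 1 :=
      congrArg Subtype.val (pow_card_eq_one' (x := (⟨y, h5⟩ : Units.torsion _)))
    let f : 𝓞 (B2.Kf (HF d)) →+* Qbar :=
      (algebraMap (B2.Kf (HF d)) Qbar).comp (algebraMap _ _)
    change f y = _ at hy
    rw [← hy, ← map_pow, ← Units.val_pow_eq_pow_val, this, Units.val_one, map_one]
  obtain ⟨n, hn⟩ := h3 x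
  let f : 𝓞 (B2.Kf (GQ (dp d))) →+* Qbar :=
    (algebraMap (B2.Kf (GQ (dp d))) Qbar).comp (algebraMap _ _)
  have h8 : f (ε ^ n : (𝓞 (B2.Kf (GQ (dp d))))ˣ) = f ε ^ n :=
    (congrArg Units.val (map_zpow (Units.map f.toMonoidHom) ε n)).trans
      (Units.val_zpow_eq_zpow_val _ _)
  have h9 : (u * s u) ^ 2 = (f ε ^ n) ^ 2 := by
    change f x = _ at hx
    rw [← hx, ← h8]
    rcases hn with rfl | rfl
    · rfl
    · rw [Units.val_neg, map_neg, neg_sq]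
  refine ⟨n * (2 * Units.torsionOrder (B2.Kf (HF d)) : ℕ), ?_⟩
  change _ = f ε ^ _
  have h10 : u ^ 2 = u * s u * (u / s u) := by
    have := (map_ne_zero s).2 u0
    field_simp
  rw [zpow_mul, zpow_natCast, pow_mul, h10, mul_pow, pow_mul (u * s u), h9, ← pow_mul,
    mul_comm 2, pow_mul (u / s u), h7, one_pow, mul_one]

end Pool.Agent.Lib.MP_696deb_nt.EV.D
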