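import Pool.Agent.Lib.MP_696deb_nt.ED.Q1
import Pool.Agent.Lib.MP_696deb_nt.CX.Cv
import Pool.Agent.Lib.MP_696deb_nt.EV.C4

/-! The character of the twisted curve. -/

set_option autoImplicit false

open scoped Classical NNReal
open Finset

namespace Pool.Agent.Lib.MP_696deb_nt.EV.D

/-- The two numbers generate the same quadratic extension of the field of Eisenstein numbers. -/
def Rel (D d : ℤ) : Prop :=
  ∃ u v : ℤ, u ≠ 0 ∧ v ≠ 0 ∧ (D * u ^ 2 = d * v ^ 2 ∨ D * u ^ 2 = -3 * d * v ^ 2)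

/-- The parameters of a sextic twist. -/
structure Tw where
  N : ℕ
  ne : N ≠ 0
  d : ℤ
  fd : Fd d
  D : ℤ
  δ : Qbar
  sq : δ ^ 2 = D
  rel : Rel D d

namespace Tw

variable (t : Tw)

/-- The twisted Galois action. -/
noncomputable def tw (g : Gam) : A →+ A := CX.ac t.δ t.N g

/-- The coboundary of a point. -/
noncomputable def cob (Q : A) (g : Gam) : A := t.tw g Q - Q

/-- The root of unity of the twist. -/
noncomputable def u (g : Gam) : O := xq t.d O g * un (kk t.N g)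

/-- The bad primes. -/
def M : ℕ := t.N * t.d.natAbs

/-- The number by which the local parameter is scaled. -/
noncomputable def τ : Qbar := CU.rho t.N * B2.rt t.d

end Tw

/-- The scalar of the twisted action. -/
noncomputable def rho0 (t : Tw) (g : Gam) : Ow := oW (t.u g) * psi g

/-- The finite part of the Hecke character. -/
structure Phi (t : Tw) (φ : O → O) : Prop where
  mul : ∀ a b, φ (a * b) = φ a * φ b
  per : ∀ a b, ((9 * t.M : ℕ) : O) ∣ a - b → φ a = φ b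
  unit : ∀ a, IsCoprime a ((3 * t.M : ℕ) : O) → φ a ^ 6 = 1 ∧ φ a * star (φ a) = 1
  zero : ∀ a, ¬ IsCoprime a ((3 * t.M : ℕ) : O) → φ a = 0
  link : ∀ m : O, m ≠ 0 → ((9 * t.M : ℕ) : O) ∣ m → ∀ g ∈ G, φ (cm m g) = t.u g
  cong : ∀ a, Prim a → IsCoprime a ((3 * t.M : ℕ) : O) → w ∣ φ a - kN t.d a

variable {g h σ : Gam} {v : Plc} {a : O} {P : A} (t : Tw)

theorem exists_fd {D : ℤ} (h0 : ¬ IsSquare D) (h1 : ¬ IsSquare (-3 * D)) :
    ∃ d, Fd d ∧ Rel D d := by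
  obtain ⟨m, b, m1, m2, e⟩ : ∃ m b : ℤ, Squarefree m ∧ ¬ 3 ∣ m ∧
      (D = m * b ^ 2 ∨ D = -3 * m * b ^ 2) := by
    obtain ⟨a, b, e, ha⟩ : ∃ a b : ℤ, b ^ 2 * a = D ∧ Squarefree a := by
      obtain ⟨a, b, e, ha⟩ := Nat.sq_mul_squarefree D.natAbs
      rcases Int.natAbs_eq D with l | l <;> rw [l, ← e]
      exacts [⟨a, b, by simp, Int.squarefree_natCast.2 ha⟩,
        ⟨-a, b, by simp, Int.squarefree_natAbs.1 (by simpa)⟩]
    by_cases k : 3 ∣ a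
    · obtain ⟨c, rfl⟩ := k
      exact ⟨-c, b, ha.of_mul_right.squarefree_of_dvd (neg_dvd.2 dvd_rfl),
        fun l => Int.prime_three.not_isUnit (ha 3 (mul_dvd_mul_left 3 (dvd_neg.1 l))),
        .inr (by linear_combination -e)⟩
    · exact ⟨a, b, ha, k, .inl (by linear_combination -e)⟩
  have b0 : b ≠ 0 := by
    rintro rfl
    exact h0 ⟨0, by simpa using e⟩
  by_cases k : m % 4 = 1
  · refine ⟨m, ⟨.inl ⟨m1, k, ?_⟩, m2⟩, 1, b, one_ne_zero, b0, by simpa using e⟩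
    rintro rfl
    exact e.elim (fun e => h0 ⟨b, by linear_combination e⟩)
      fun e => h1 ⟨3 * b, by linear_combination -3 * e⟩
  · have : ¬ 2 * 2 ∣ m := fun l => Int.prime_two.not_isUnit (m1 2 l)
    exact ⟨4 * m, ⟨.inr ⟨m, rfl, m1, by omega⟩, by omega⟩, 2, b, two_ne_zero, b0,
      e.imp (fun e => by linear_combination 4 * e) fun e => by linear_combination 4 * e⟩

/-- The cubic twist alone. -/
@[reducible] def Tw.c7 : EV.Tw := ⟨t.N, t.ne⟩

theorem c7_D : t.D ≠ 0 := fun e => by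
  obtain ⟨u, v, -, h, k⟩ := t.rel
  simp [e, h, t.fd.fund.ne] at k

theorem Tw.δ_ne : t.δ ≠ 0 := fun e => c7_D t (by
  have := t.sq
  rw [e] at this
  exact_mod_cast this.symm.trans (zero_pow two_ne_zero))

theorem Tw.M_ne : t.M ≠ 0 := mul_ne_zero t.ne (Int.natAbs_ne_zero.2 t.fd.fund.ne)

theorem Tw.τ_ne : t.τ ≠ 0 := mul_ne_zero (CU.rho_ne t.ne) (B2.b1b_rt_ne t.fd.fund.ne)

theorem Tw.sg (hg : g ∈ G) : CX.sg t.δ g = chi t.d g := by
  obtain ⟨u, v, h1, h2, k⟩ := t.rel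
  have d0 := t.fd.fund.ne
  have e := B2.chi_mul (c7_D t) (pow_ne_zero 2 h1) g
  rw [CX.sg_eq t.δ_ne t.sq (B2.chi_spec t.sq g), ← mul_one (chi t.D g), ← B2.chi_sq u g, ← e]
  rcases k with k | k <;> rw [k, B2.chi_mul (by omega) (pow_ne_zero 2 h2), B2.chi_sq, mul_one]
  rw [b3_m3 d0, b3_G.1 hg, one_mul]

theorem Tw.cob_eq (Q : A) : t.cob Q = H3.cob (CX.ac t.δ t.N) Q := rfl

theorem tw_mul (g h : Gam) (P : A) : t.tw (g * h) P = t.tw g (t.tw h P) :=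
  CX.ac_mul t.δ_ne t.sq g h P

theorem tw_one (P : A) : t.tw 1 P = P := by
  rw [Tw.tw, CX.ac_apply, CU.act_one, CX.sg, AlgEquiv.one_apply, if_pos rfl, one_smul]

theorem c7_tw (hg : g ∈ G) (P : A) : t.tw g P = (chi t.d g : ℤ) • t.c7.tw g P :=
  congrArg (· • t.c7.tw g P) (t.sg hg)

theorem tw_eq (hg : g ∈ G) (P : A) : t.tw g P = t.u g • g • P := by
  rw [c7_tw t hg, EV.tw_eq _ hg, Tw.u, mul_smul, xq, Int.cast_smul_eq_zsmul]

theorem tw_smul (hg : g ∈ G) (a : O) (P : A) : t.tw g (a • P) = a • t.tw g P := by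
  rw [tw_eq t hg, tw_eq t hg, act_smul hg, smul_comm]

theorem tw_cc (a : O) (P : A) : t.tw cc (a • P) = star a • t.tw cc P := by
  rw [Tw.tw, CX.ac_apply, CX.ac_apply, CU.act_smul, CU.chi_cc, if_neg (by decide), smul_comm]

theorem coc_cob (H : Subgroup Gam) (Q : A) : Sm H (t.cob Q) ∧
    ∀ g h, t.cob Q (g * h) = t.cob Q g + t.tw g (t.cob Q h) :=
  ⟨(CX.ac_coc t.δ_ne t.sq H Q).1, fun g h => (CX.ac_coc t.δ_ne t.sq ⊤ Q).2 g trivial h trivial⟩

theorem u_mul (hg : g ∈ G) (h : Gam) : t.u (g * h) = t.u g * t.u h := by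
  rw [Tw.u, Tw.u, Tw.u, xq_mul, un_zq_mul t.c7 hg, mul_mul_mul_comm]

theorem c7_six {x y : O} (h : x * x = 1) (k : star x = x) (l : y ^ 6 = 1 ∧ y * star y = 1) :
    (x * y) ^ 6 = 1 ∧ x * y * star (x * y) = 1 :=
  ⟨by linear_combination l.1 + y ^ 6 * (x ^ 4 + x ^ 2 + 1) * h, by
    rw [star_mul', k, mul_mul_mul_comm, h, l.2, one_mul]⟩

theorem u_six (g : Gam) : t.u g ^ 6 = 1 ∧ t.u g * star (t.u g) = 1 :=
  c7_six (xq_sq _ g) (star_intCast _) ⟨by rw [show 6 = 3 * 2 from rfl, pow_mul, (un_four _).1,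
    one_pow], (un_four _).2⟩

theorem u_ine (hv : v.p ≠ 3) (k : ¬ v.p ∣ t.M) (hσ : σ ∈ Ine v) : t.u σ = 1 := by
  rw [Tw.u, c7_ine hv (mt (·.mul_right _) k) hσ, xq_of (chi_unr t.fd.fund
    (fun e => k ((Int.natCast_dvd.1 e).mul_left _)) hσ), CU.un_zero, one_mul]

theorem zc_tw (hg : g ∈ G) (P : A) : zc (t.tw g P) * t.τ⁻¹ = g (zc P * t.τ⁻¹) := by
  rw [c7_tw t hg, Tw.τ, mul_inv, ← mul_assoc, ← mul_assoc, map_mul g _ _⁻¹,
    ← show _ = g (zc P * (CU.rho t.N)⁻¹) from EV.zc_tw t.c7 hg P, map_inv₀,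
    B2.chi_spec (B2.rt_sq t.d) g]
  rcases chi_or t.d g with e | e <;> simp [e, EW.zc_neg, EV.Tw.ρ]

theorem c7_phi {φ : O → O} (hφ : EV.Phi t.N φ) (a : O) :
    IsCoprime a ((9 * t.N : ℕ) : O) → CU.red (φ a * a) = 1 := by
  have u1 : ∀ j : ℕ, φ (CL.om ^ j) * CL.om ^ j = 1 := fun j => by
    induction j with
    | zero => rw [pow_zero, hφ.gch.one, one_mul]
    | succ j ih => rw [pow_succ, hφ.gch.mul, mul_mul_mul_comm, ih, hφ.gch.unit, one_mul]
  have u2 : ∀ u, IsUnit u → φ u * u = 1 := fun u hu => by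
    obtain ⟨k, e | e⟩ := CL.nm_eq_one (EW.isUnit_iff.1 hu)
    · exact e ▸ u1 _
    · rw [e, ← neg_one_mul (CL.op k), hφ.gch.mul, hφ.gch.neg, mul_mul_mul_comm, neg_mul_neg,
        one_mul, one_mul]
      exact u1 _
  have h3 : w ∣ ((9 * t.N : ℕ) : O) := w_dvd_three.trans ⟨3 * t.N, by push_cast; ring⟩
  induction a using UniqueFactorizationMonoid.induction_on_prime with
  | h₁ => exact fun h => absurd (isUnit_of_dvd_unit h3 (isCoprime_zero_left.1 h)) g1_w.not_isUnit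
  | h₂ u hu => exact fun _ => by rw [u2 u hu, map_one]
  | h₃ n p _ hp ih =>
    intro h
    rcases p1_prime hp with k | ⟨π, k1, k2, u, rfl⟩
    · exact absurd (h.of_mul_left_left.isUnit_of_dvd' k.dvd h3) g1_w.not_isUnit
    obtain ⟨r, rfl⟩ := exists_tp k1 k2
    have e := hφ.per' dvd_rfl (cm_frob r fun d => k1.not_isUnit
      (h.of_mul_left_left.of_mul_left_left.isUnit_of_dvd' dvd_rfl d))
    rw [hφ.gch.mul, hφ.gch.mul, mul_mul_mul_comm, mul_mul_mul_comm (φ r.π), u2 _ u.isUnit, mul_one,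
      map_mul, ih h.of_mul_left_right, mul_one, ← e, hφ.link t.c7 (Nat.cast_ne_zero.2
        (mul_ne_zero (by decide) t.ne)) dvd_rfl r.φ_mem, map_mul, EW.prim_red1 k2, mul_one,
      CU.red_un]

theorem phi_of {φ : O → O} (k : EV.Phi t.N φ) : Phi t fun a => φ a * kN t.d a := by
  have e : ∀ c : ℕ, ((c * t.M : ℕ) : O) = (c * t.N : ℕ) * t.d.natAbs := fun c => by
    rw [Tw.M, ← mul_assoc, Nat.cast_mul]
  have d1 : ∀ {x : O}, ((9 * t.M : ℕ) : O) ∣ x → ((9 * t.N : ℕ) : O) ∣ x ∧ (t.d : O) ∣ x :=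
    fun l => ⟨dvd_of_mul_right_dvd (e 9 ▸ l), b1_dvd.1 (dvd_of_mul_left_dvd (e 9 ▸ l))⟩
  refine ⟨fun a b => ?_, fun a b l => ?_, fun a l => ?_, fun a l => ?_, fun m m0 l g hg => ?_,
    fun a ha l => ?_⟩
  · rw [k.gch.mul, kN_mul t.fd.fund, Int.cast_mul, mul_mul_mul_comm]
  · rw [k.per' dvd_rfl (d1 l).1, kN_per t.fd.fund (d1 l).2]
  · rw [e] at l
    rw [mul_comm]
    exact c7_six (by rw [← Int.cast_mul, kN_sq t.fd (b1_cop.1 l.of_mul_right_right), Int.cast_one])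
      (star_intCast _) (k.unit t.ne l.of_mul_right_left)
  · rw [e, IsCoprime.mul_right_iff, not_and_or, b1_cop, ← kN_zero t.fd, ED.cop_nm] at l
    rcases l with l | l
    · obtain ⟨p, hp, h1, h2⟩ := Nat.Prime.not_coprime_iff_dvd.1 l
      rw [k.gch.zero p hp (by exact_mod_cast h1) a (Int.natCast_dvd.2 h2), zero_mul]
    · rw [l, Int.cast_zero, mul_zero]
  · rw [k.link t.c7 m0 (d1 l).1 hg, kN_cm t.fd m0 (d1 l).2 hg, mul_comm]
    rfl
  · rw [e] at l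
    have := c7_phi t k a ((l.of_mul_right_left.pow_right (n := 2)).of_isCoprime_of_dvd_right
      ⟨t.N, by push_cast; ring⟩)
    rw [map_mul, EW.prim_red1 ha, mul_one] at this
    rw [← sub_one_mul]
    exact (EW.w_dvd (by rw [map_sub, this, map_one, sub_self])).mul_right _

theorem c7_rho (g : Gam) : rho0 t g = xq t.d Ow g * EV.rho0 t.c7 g := by
  rw [rho0, Tw.u, map_mul, xq_map, mul_assoc, EV.rho0]

theorem rho0_mul (hg : g ∈ G) (hh : h ∈ G) : rho0 t (g * h) = rho0 t g * rho0 t h := by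
  rw [rho0, rho0, rho0, u_mul t hg, psi_mul hg hh, map_mul, mul_mul_mul_comm]

theorem rho0_one : rho0 t 1 = 1 := by rw [c7_rho, xq_one, EV.rho0_one, one_mul]

theorem sm_rho0 (e : ℕ) :
    Sm G fun g => Ideal.Quotient.mk (Ideal.span {(3 : Ow) ^ e}) (rho0 t g) :=
  ((sm_xq (R := Ow) t.d G).comp₂ (EV.sm_rho0 t.c7 e) fun x y =>
    Ideal.Quotient.mk _ x * y).congr fun _ _ => by rw [c7_rho, map_mul]

theorem norm_rho0 (hg : g ∈ G) : (rho0 t g).norm = cyc g := by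
  rw [c7_rho, map_mul, EV.norm_rho0 _ hg]
  rcases chi_or t.d g with e | e
  · rw [xq_of e, map_one, one_mul]
  · rw [xq_of' e, QuadraticAlgebra.norm_neg, map_one, one_mul]

theorem rho0_w (hg : g ∈ G) : wO ∣ rho0 t g - xq t.d Ow g := by
  rw [c7_rho, ← mul_sub_one]
  exact (EV.rho0_w _ hg).mul_left _

theorem tw_rho0 {e : ℕ} (hg : g ∈ G) (hP : (3 : O) ^ e • P = 0)
    (k : (3 : Ow) ^ e ∣ rho0 t g - oW a) : t.tw g P = a • P := by
  obtain ⟨c, e1⟩ : (3 : O) ^ e ∣ t.u g * cm (3 ^ e) g - a := by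
    refine dvd_oW.1 ?_
    convert k.sub ((psi_spec e hg).mul_left (oW (t.u g))) using 1
    rw [rho0, map_sub, map_mul]
    ring
  rw [tw_eq t hg, cm_spec (pow_ne_zero _ (by decide)) hg hP, smul_smul, eq_add_of_sub_eq e1,
    add_smul, mul_comm, mul_smul, hP, smul_zero, zero_add]

theorem rho0_ine (hv : v.p ≠ 3) (k : ¬ v.p ∣ t.M) (hσ : σ ∈ Ine v) : rho0 t σ = 1 := by
  rw [rho0, psi_ine hv hσ, u_ine t hv k hσ, map_one, one_mul]

theorem rho0_sigma (r : TP) (hs : Spt t.d r.v) (k : ¬ 3 ∣ t.N.factorization r.v.p) :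
    rho0 t r.σ = oW om ∨ rho0 t r.σ = oW (om ^ 2) := by
  rw [c7_rho, hs.xq ⟨ine_le r.odd r.σ_ine, r.σ_ine.1⟩, one_mul]
  exact EV.rho0_sigma t.c7 r k

/-- The auxiliary prime. -/
theorem exists_alpha {d : ℤ} (hd : Fd d) (B : Finset ℕ) :
    ∃ α : TP, α.v.p ∉ B ∧ kN d α.π = -1 := by
  obtain ⟨p, hp, h1⟩ := Nat.exists_prime_and_dvd hd.fund.one_lt.ne'
  obtain ⟨v, rfl⟩ := B2.exists_plc hp
  obtain ⟨σ, h2, h3⟩ := chi_ram hd.fund (Int.natCast_dvd.2 h1)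
  obtain ⟨r, n, r1, r2, -, r4⟩ := cheb (nice_HF d) (ine_le (v := v) (fun e => hd.three
    (Int.natCast_dvd.2 (e ▸ h1 :))) h2) (B ∪ d.natAbs.primeFactors)
  rw [mem_union, not_or] at r2
  have r5 := mem_GQ.1 r4.2
  rw [map_mul, map_inv, inv_mul_eq_one, map_pow, h3,
    (Nat.coprime_two_right.1 (r1.coprime_dvd_right (by decide : 2 ∣ 6))).neg_one_pow] at r5
  exact ⟨r, r2.1, by rw [← chi_tp hd.fund r fun e => r2.2 (Nat.mem_primeFactors.2 ⟨r.v.prime,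
    Int.natCast_dvd.1 ((tp_dvd r).1 e), Int.natAbs_ne_zero.2 hd.fund.ne⟩), r5]; rfl⟩

end Pool.Agent.Lib.MP_696deb_nt.EV.D
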