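import Pool.Agent.Lib.MP_696deb_nt.ED.N4

/-! Units and class numbers at finite level. -/

set_option autoImplicit false

open scoped Classical NNReal
open Finset

namespace Pool.Agent.Lib.MP_696deb_nt.EV.D

variable {d : ℤ} {j : ℕ} {c : Gam → ZMod (3 ^ j)}

/-- One unramified character is enough. -/
theorem Uc.of_eta (hc : Zc G (fun g => xq d _ g * cy j g) c)
    (hu : ∀ v : Plc, v.p ≠ 3 → ∀ σ ∈ HF d ⊓ Ine v, c σ = 0)
    (hw : Spt d w3 → ∃ η : Gam → ZMod (3 ^ j), Sm Hw η ∧ IsHom Hw η ∧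
      (∀ σ ∈ G ⊓ Ine w3, η σ = 0) ∧ (∃ g ∈ Hw, ¬ 3 ∣ (η g).val) ∧ Spl j Hw (cup j η c)) :
    Uc d j c := ⟨hc, hu, fun s _ k1 k2 k3 => by
  obtain ⟨η, h1, h2, h3, ⟨g, hg, u⟩, h4⟩ := hw s
  refine spl_eta h1 h2 h3 hg ?_ h4 k1 k2 k3
  rw [← ZMod.natCast_zmod_val (η g), ZMod.isUnit_iff_coprime]
  exact ((Nat.Prime.coprime_iff_not_dvd Nat.prime_three).2 u).symm.pow_right j⟩

theorem Uc.cob (h : Uc d j c) (x : ZMod (3 ^ j)) :
    Uc d j fun g => c g + (xq d _ g * cy j g - 1) * x := by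
  refine ⟨h.zc.add ((ch_cy d j).cob le_rfl x), fun v hv σ hσ => ?_, fun s η e1 e2 e3 => ?_⟩
  · rw [h.unr v hv σ hσ, xq_of (mem_HF.1 hσ.1).2, H3.cy_ine hv hσ.2, mul_one, sub_self, zero_mul,
      add_zero]
  · obtain ⟨b, b1, b2⟩ := h.w s η e1 e2 e3
    refine ⟨fun g => b g - η g * cy j g * x,
      (b1.comp₂ (e1.comp₂ (H3.sm_cy j) (· * ·)) fun p q => p - q * x :), fun g hg k hk => ?_⟩
    have := b2 g hg k hk
    simp only [cup, s.xq hk, e2 g hg k hk, H3.b3b_cy] at this ⊢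
    linear_combination this

/-- The lower bound. -/
theorem lb_fin (hd : Fd d) (hj : hf d ≤ j) : ∃ (B : Type) (c : B → Gam → ZMod (3 ^ j)),
    3 ^ (2 * j + hf d) ≤ Nat.card B ∧ (∀ i, Uc d j (c i)) ∧
      ∀ i i', (∀ g ∈ G, c i g = c i' g) → i = i' := by
  obtain ⟨A, c, h1, h2, h3⟩ := uc_card hd hj
  obtain ⟨v, σ, -, v3, s1, s2, s3⟩ := exists_g0 hd
  refine ⟨A × ZMod (3 ^ j), fun p g => c p.1 g + (xq d _ g * cy j g - 1) * p.2, ?_,
    fun p => (h2 p.1).cob p.2, fun p q e => ?_⟩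
  · rw [Nat.card_prod, Nat.card_zmod, two_mul, add_right_comm, pow_add _ _ j]
    exact Nat.mul_le_mul_right _ h1
  · have h4 := h3 p.1 q.1 (q.2 - p.2) fun g hg => by
      have := e g hg.1
      simp only [xq_of (mem_HF.1 hg).2] at this
      linear_combination this
    have := e σ s2
    simp only [h4, xq_of' s3, H3.cy_ine v3 s1] at this
    exact Prod.ext h4 (sub_eq_zero.1 (H3.T.cnd_two (by linear_combination -this)))

/-- The index of the elliptic unit. -/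
theorem idx_fin (hd : Fd d) (lam α : TP) (hl : kN d lam.π = -1) (hα : kN d α.π = -1)
    (ne : α.π ≠ lam.π) {e : ℕ} (f : ZMod (3 ^ e) →+* ZMod (3 ^ (hf d + 1))) :
    ¬ ∃ x, ∀ g ∈ HF d, FY f (d * lam.π) α.π (fun a => kN d a) g = (f (cy e g) - 1) * x := by
  rintro ⟨x, hx⟩
  have h1 : 3 ^ (hf d + 1) ∣ 3 ^ e := (ZMod.natCast_eq_zero_iff _ _).1 (by
    rw [← map_natCast f, ZMod.natCast_self, map_zero])
  refine n3_idx hd hl α.red ((n3_cop hd hα).mul_right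
    (α.prime.irreducible.coprime_iff_not_dvd.2 (α.not_dvd lam ne))) hα
    ((Nat.pow_dvd_pow_iff_le_right (by norm_num)).1 h1) (x.val : ZMod (3 ^ e)) fun g hg => ?_
  have h2 : ∀ y, f y = 0 → 3 ^ (hf d + 1) ∣ y := fun y hy => by
    rw [← ZMod.natCast_zmod_val y] at hy ⊢
    rw [map_natCast, ZMod.natCast_eq_zero_iff] at hy
    exact_mod_cast Nat.cast_dvd_cast (α := ZMod (3 ^ e)) hy
  refine h2 _ ?_
  rw [map_sub, map_mul, map_sub, map_one, map_natCast, ZMod.natCast_zmod_val, ← hx g hg, FY, FF_map,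
    RingHom.comp_id, FY]
  simp only [map_intCast, sub_self]

end Pool.Agent.Lib.MP_696deb_nt.EV.D
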