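import Pool.Agent.Lib.MP_696deb_nt.ED.TopC

/-! Many solutions of a linear system force a divisible determinant. -/

set_option autoImplicit false

open scoped Classical NNReal
open Finset Matrix PowerSeries

namespace Pool.Agent.Lib.MP_696deb_nt.EV.D

theorem cnt_w (k : ℕ) : Nat.card (Ow ⧸ Ideal.span {wO ^ k}) ≤ 3 ^ k := by
  have := (Ideal.span_singleton_prime prime_wO.ne_zero).2 prime_wO
  rw [← Ideal.span_singleton_pow]
  refine (cardQuot_pow_of_prime (Ideal.span_singleton_eq_bot.not.2 prime_wO.ne_zero)).trans_le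
    (Nat.pow_le_pow_left ?_ k)
  refine (Nat.card_le_card_of_surjective
    (fun i : Fin 3 => Ideal.Quotient.mk (Ideal.span {wO}) (![0, 1, -1] i)) fun z => ?_).trans_eq
    (Nat.card_fin 3)
  obtain ⟨z, rfl⟩ := Ideal.Quotient.mk_surjective z
  rcases wO_or z with e | e | e
  · exact ⟨0, (Ideal.Quotient.eq.2 (Ideal.mem_span_singleton.2 (by simpa using e))).symm⟩
  · exact ⟨1, (Ideal.Quotient.eq.2 (Ideal.mem_span_singleton.2 (by simpa using e))).symm⟩
  · exact ⟨2, (Ideal.Quotient.eq.2 (Ideal.mem_span_singleton.2 (by simpa using e))).symm⟩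

theorem cnt_fin (k : ℕ) : Finite (Ow ⧸ Ideal.span {wO ^ k}) := by
  refine Finite.of_surjective (α := ZMod (3 ^ k) × ZMod (3 ^ k))
    (fun a => Ideal.Quotient.mk _ ⟨a.1.val, a.2.val⟩) fun z => ?_
  obtain ⟨z, rfl⟩ := Ideal.Quotient.mk_surjective z
  have h : ∀ x : ℤ_[3], (3 : ℤ_[3]) ^ k ∣ ((PadicInt.toZModPow k x).val : ℤ_[3]) - x := fun x =>
    (lb_ker k _).1 (by rw [map_sub, map_natCast, ZMod.natCast_zmod_val, sub_self])
  exact ⟨(PadicInt.toZModPow k z.re, PadicInt.toZModPow k z.im), Ideal.Quotient.eq.2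
    (Ideal.mem_span_singleton.2 ((pow_dvd_pow_of_dvd la_two k).trans
      (two_pow_dvd_Ow.2 ⟨h _, h _⟩)))⟩

/-- The index of the image of a square matrix. -/
theorem cnt_det {ι : Type} [Fintype ι] [DecidableEq ι] (M : Matrix ι ι Ow) (hM : M.det ≠ 0) :
    Finite ((ι → Ow) ⧸ LinearMap.range M.mulVecLin) ∧ ∃ k,
      Nat.card ((ι → Ow) ⧸ LinearMap.range M.mulVecLin) ≤ 3 ^ k ∧ wO ^ k ∣ M.det := by
  have hi : Function.Injective M.mulVecLin := mulVec_injective_of_det_ne_zero hM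
  have h := LinearMap.finrank_range_of_inj hi
  let b := Pi.basisFun Ow ι
  let e := Submodule.quotientEquivPiSpan _ b h
  choose k u hu ha using fun i => exists_wO_pow (Submodule.smithNormalFormCoeffs_ne_zero b h i)
  have sp : ∀ i, Ideal.span {Submodule.smithNormalFormCoeffs b h i} = Ideal.span {wO ^ k i} :=
    fun i => by rw [ha, Ideal.span_singleton_mul_right_unit (hu i)]
  have f : ∀ i, Finite (Ow ⧸ Ideal.span {Submodule.smithNormalFormCoeffs b h i}) := fun i => by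
    rw [sp]
    exact cnt_fin _
  refine ⟨Finite.of_equiv _ e.toEquiv.symm, ∑ i, k i, ?_, ?_⟩
  · rw [Nat.card_congr e.toEquiv, Nat.card_pi, ← prod_pow_eq_pow_sum]
    exact prod_le_prod' fun i _ => by
      rw [sp]
      exact cnt_w _
  · let b' := Submodule.smithNormalFormTopBasis b h
    have d : ∀ i j, wO ^ k i ∣ LinearMap.toMatrix b' b' M.mulVecLin i j := fun i j => by
      obtain ⟨c, hc⟩ := (Submodule.smithNormalFormBotBasis b h).mem_submodule_iff'.1
        (LinearMap.mem_range_self M.mulVecLin (b' j))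
      rw [LinearMap.toMatrix_apply, hc]
      simp only [Submodule.smithNormalFormBotBasis_def, ← mul_smul]
      rw [b'.repr_sum_self, ha]
      exact (dvd_mul_right _ _).mul_left _
    choose c hc using d
    rw [← LinearMap.det_toLin', ← prod_pow_eq_pow_sum, ← LinearMap.det_toMatrix b',
      show LinearMap.toMatrix b' b' (toLin' M) = of fun i j => wO ^ k i * of c i j from
        Matrix.ext hc, det_mul_column]
    exact dvd_mul_right _ _

/-- Many solutions modulo `3 ^ j` force a divisible determinant. -/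
theorem dt_dvd {κ α : Type} [Fintype κ] (B : Matrix κ (κ ⊕ Fin 2) Ow) {j v : ℕ}
    (f : α → κ ⊕ Fin 2 → Ow) (h1 : ∀ a i, (3 : Ow) ^ j ∣ (B *ᵥ f a) i)
    (h2 : ∀ a a', (∀ i, (3 : Ow) ^ j ∣ f a i - f a' i) → a = a')
    (h3 : 3 ^ (4 * j + 2 * v) ≤ Nat.card α) (l l' : κ ⊕ Fin 2 → Ow) :
    (3 : Ow) ^ v ∣ Dt B l l' := by
  by_cases h0 : Dt B l l' = 0
  · rw [h0]
    exact dvd_zero _
  have c0 : (3 : Ow) ^ j ≠ 0 := pow_ne_zero _ fun e => pow_ne_zero 2 prime_wO.ne_zero (by
    rw [wO_sq, e, neg_zero])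
  let N : Matrix (κ ⊕ Fin 2) (κ ⊕ Fin 2) Ow := of (Sum.elim B ![l, l'])
  let t : κ ⊕ Fin 2 → Ow := Sum.elim 1 fun _ => 3 ^ j
  let M : Matrix (κ ⊕ Fin 2) (κ ⊕ Fin 2) Ow := of fun r s => t r * N r s
  have hM : M.det = 3 ^ j * 3 ^ j * Dt B l l' := by
    rw [det_mul_column, Fintype.prod_sum_type, Dt]
    simp only [t, Sum.elim_inl, Sum.elim_inr, Pi.one_apply, prod_const_one, one_mul,
      Fin.prod_univ_two, N]
  have M0 : M.det ≠ 0 := hM ▸ mul_ne_zero (mul_ne_zero c0 c0) h0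
  have d : ∀ a r, (3 : Ow) ^ j ∣ (M *ᵥ f a) r := fun a r => by
    have e : (M *ᵥ f a) r = t r * (N *ᵥ f a) r := by
      simp only [M, mulVec, dotProduct, of_apply, mul_sum, mul_assoc]
    rw [e]
    rcases r with i | i
    exacts [(h1 a i).mul_left _, dvd_mul_right _ _]
  choose z hz using d
  obtain ⟨_, k, k1, k2⟩ := cnt_det M M0
  have k3 : 4 * j + 2 * v ≤ k := (Nat.pow_le_pow_iff_right (by norm_num)).1
    (h3.trans ((Nat.card_le_card_of_injective
      (fun a => (LinearMap.range M.mulVecLin).mkQ (z a)) fun a a' e => by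
        obtain ⟨x, hx⟩ := (Submodule.Quotient.eq _).1 e
        have e1 : f a - f a' = (3 : Ow) ^ j • x := mulVec_injective_of_det_ne_zero M0 (by
          rw [mulVec_sub, mulVec_smul, show M *ᵥ x = _ from hx]
          exact funext fun r => by
            simp only [Pi.sub_apply, Pi.smul_apply, smul_eq_mul, hz, mul_sub])
        exact h2 a a' fun i => ⟨x i, congrFun e1 i⟩).trans k1))
  have k4 : (3 : Ow) ^ j * 3 ^ j * 3 ^ v ∣ 3 ^ j * 3 ^ j * Dt B l l' := by
    rw [← hM, ← pow_add, ← pow_add]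
    exact (la_pow _).trans ((pow_dvd_pow _ (by omega)).trans k2)
  exact (mul_dvd_mul_iff_left (mul_ne_zero c0 c0)).1 k4

/-- The form that is used for the data. -/
theorem dt_cnt {κ α : Type} [Fintype κ] (B : Matrix κ (κ ⊕ Fin 2) La) {j v : ℕ}
    (f : α → κ ⊕ Fin 2 → La) (h1 : ∀ a i, (3 : Ow) ^ j ∣ constantCoeff ((B *ᵥ f a) i))
    (h2 : ∀ a a', (∀ i, (3 : Ow) ^ j ∣ constantCoeff (f a i - f a' i)) → a = a')
    (h3 : 3 ^ (4 * j + 2 * v) ≤ Nat.card α) (l l' : κ ⊕ Fin 2 → La) :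
    (3 : Ow) ^ v ∣ constantCoeff (Dt B l l') := by
  rw [dt_map]
  exact dt_dvd _ (fun a => constantCoeff ∘ f a) (fun a i => by
    rw [← RingHom.map_mulVec]
    exact h1 a i) (fun a a' e => h2 a a' fun i => by
      rw [map_sub]
      exact e i) h3 _ _

end Pool.Agent.Lib.MP_696deb_nt.EV.D
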