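import Pool.Agent.Lib.MP_696deb_nt.ED.B0
import Pool.Agent.Lib.MP_696deb_nt.EV.P5
import Pool.Agent.Lib.MP_696deb_nt.EV.C7

/-! Characters with a quadratic residual character: definitions. -/

set_option autoImplicit false

open scoped Classical NNReal
open Finset

namespace Pool.Agent.Lib.MP_696deb_nt.EV.D

/-- The quadratic character with values in a ring. -/
noncomputable def xq (d : ℤ) (R : Type) [CommRing R] (g : Gam) : R := ((chi d g : ℤˣ) : ℤ)

/-- The place splits in the biquadratic field. -/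
def Spt (d : ℤ) (v : Plc) : Prop := G ⊓ Dec v ≤ GQ d

/-- Cocycles with values in the residual representation. -/
def Cq (d : ℤ) (H : Subgroup Gam) (c : Gam → ZMod 3) : Prop := Zc H (xq d (ZMod 3)) c

/-- Open subgroups, normal in `G`, of exponent twice a power of three. -/
structure Nice (U : Subgroup Gam) : Prop where
  le : U ≤ G
  op : Op U
  conj : ∀ g ∈ G, ∀ u ∈ U, g * u * g⁻¹ ∈ U
  six : ∀ g ∈ G, ∃ n : ℕ, g ^ (2 * 3 ^ n) ∈ U

/-- Ramification at one more split prime can be prescribed. -/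
def Fix (d : ℤ) {ι : Type} (t : ι → TP) : Prop := ∀ r : TP, Spt d r.v → Off t r.v →
  ∃ c, Cq d G c ∧ c r.σ ≠ 0 ∧ ∀ v, Off t v → v.V (io r.π) = 1 → ∀ σ ∈ Ine v, c σ = 0

/-- Generators. -/
structure Gens (d : ℤ) {ι J : Type} (t : ι → TP) (γ : J → Gam) : Prop where
  ram : ∀ v, Off t v → ¬ (v.p : ℤ) ∣ d
  fix : Fix d t
  mem : ∀ j, γ j ∈ G
  det : ∀ c, Cq d G c → Unr t c → (∀ j, c (γ j) = 0) → ∀ g ∈ G, c g = 0
  sur : ∀ x : J → ZMod 3, ∃ c, Cq d G c ∧ Unr t c ∧ ∀ j, c (γ j) = x j

/-- The labels of the rows: `none` is a zero row, `some none` is the row at three, and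
`some (some j)` is the row at a split prime. -/
structure Ty (d : ℤ) {ι κ : Type} (t : ι → TP) (ty : κ → Option (Option ι)) : Prop where
  sp : ∀ i j, ty i = some (some j) → Spt d (t j).v
  sw : ∀ i, ty i = some none → Spt d w3
  cp : ∀ j, Spt d (t j).v → ∃ i, ty i = some (some j)
  cw : Spt d w3 → ∃ i, ty i = some none
  inj : ∀ i i' x, ty i = some x → ty i' = some x → i = i'

/-- Four elements of the decomposition group at three that detect the residual cocycles. -/
structure IsEe (d : ℤ) (x : Fin 4 → Gam) : Prop where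
  mem : ∀ j, x j ∈ Hw
  det : ∀ c, Cq d Hw c → (∀ j, c (x j) = 0) → ∀ g ∈ Hw, c g = 0
  sp : Spt d w3 → x = ew
  ns : ¬ Spt d w3 → x 3 = 1

/-- The chosen elements. -/
noncomputable def ee (d : ℤ) : Fin 4 → Gam := if h : ∃ x, IsEe d x then h.choose else 1

/-- The primes where ramification is allowed. -/
def sb {ι : Type} (t : ι → TP) (st : ι → Prop) (i : {i // ¬ st i}) : TP := t i.1

section

variable {R : Type} [CommRing R]

/-- Characters whose reduction is the quadratic character. -/
def Ch (d : ℤ) (ρ : Gam → R) : Prop := Chr fun g => xq d R g * ρ g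

/-- Linear forms that express the values of all cocycles by their values at the generators. -/
def Val {ι J : Type} [Fintype J] (t : ι → TP) (γ : J → Gam) (ρ : Gam → R) (L : Gam → J → R) :
    Prop :=
  ∀ (M : Type) [AddCommGroup M] [Module R M] [Finite M] (c : Gam → M), Zc G ρ c → Unr t c →
    ∀ g ∈ G, c g = ∑ j, L g j • c (γ j)

/-- The relation between the values of the local cocycles at three. -/
def IsB (ρ : Gam → R) (β : Fin 4 → R) : Prop :=
  ∀ (M : Type) [AddCommGroup M] [Module R M] [Finite M] (x : Fin 4 → M),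
    (∃ c : Gam → M, Zc Hw ρ c ∧ ∀ i, c (ew i) = x i) ↔ ∑ i, β i • x i = 0

/-- The coefficient of the tame relation. -/
noncomputable def rq (ρ : Gam → R) (r : TP) : R := ρ r.φ - ∑ i ∈ range (nm r.π), ρ r.σ ^ i

/-- The rows. -/
noncomputable def rowF {ι J : Type} (st : ι → Prop) (t : ι → TP) (ρ : Gam → R) (β : Fin 4 → R)
    (L : Gam → J → R) : Option (Option ι) → J → R
  | none, _ => 0
  | some none, j => ∑ i, β i * L (ew i) j
  | some (some i), j => if st i then L (t i).σ j
      else (ρ (t i).σ - 1) * L (t i).φ j - rq ρ (t i) * L (t i).σ j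

/-- A presentation of the cocycles that are unramified away from `t`. -/
structure Prs {ι κ J : Type} [Fintype J] (t : ι → TP) (γ : J → Gam) (ρ : Gam → R)
    (L : Gam → J → R) (B : κ → J → R) : Prop where
  val : Val t γ ρ L
  rel : ∀ (M : Type) [AddCommGroup M] [Module R M] [Finite M] (c : Gam → M), Zc G ρ c → Unr t c →
    ∀ i, ∑ j, B i j • c (γ j) = 0
  ex : ∀ (M : Type) [AddCommGroup M] [Module R M] [Finite M] (x : J → M),
    (∀ i, ∑ j, B i j • x j = 0) → ∃ c : Gam → M, Zc G ρ c ∧ Unr t c ∧ ∀ j, c (γ j) = x j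

/-- The ring of congruent pairs. -/
def Fp (I : Ideal R) : Subring (R × R) where
  carrier := {p | p.1 - p.2 ∈ I}
  zero_mem' := by simp
  one_mem' := by simp
  add_mem' := fun {a b} h k => by
    have := I.add_mem h k
    rwa [sub_add_sub_comm] at this
  neg_mem' := fun {a} h => by
    have := I.neg_mem h
    rwa [neg_sub, ← neg_sub_neg] at this
  mul_mem' := fun {a b} h k => by
    have := I.add_mem (I.mul_mem_right b.1 h) (I.mul_mem_left a.2 k)
    rwa [sub_mul, mul_sub, sub_add_sub_cancel] at this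

/-- Linear forms for two congruent characters. -/
def Val2 {ι J : Type} [Fintype J] (I : Ideal R) (t : ι → TP) (γ : J → Gam) (ρ ρ' : Gam → R)
    (L L' : Gam → J → R) : Prop :=
  ∃ (P : Gam → Fp I) (Q : Gam → J → Fp I), Val t γ P Q ∧ (∀ g ∈ G, (P g).1 = (ρ g, ρ' g)) ∧
    ∀ g j, (Q g j).1 = (L g j, L' g j)

end

/-- Cocycles of the kind that come from units of the biquadratic field. -/
structure Uc (d : ℤ) (j : ℕ) (c : Gam → ZMod (3 ^ j)) : Prop where
  zc : Zc G (fun g => xq d _ g * cy j g) c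
  unr : ∀ v : Plc, v.p ≠ 3 → ∀ σ ∈ HF d ⊓ Ine v, c σ = 0
  w : Spt d w3 → ∀ η : Gam → ZMod (3 ^ j), Sm Hw η → IsHom Hw η → (∀ σ ∈ G ⊓ Ine w3, η σ = 0) →
    Spl j Hw (cup j η c)

end Pool.Agent.Lib.MP_696deb_nt.EV.D
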