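import Pool.Agent.Lib.MP_696deb_nt.EV.Es
import Pool.Agent.Lib.MP_696deb_nt.ED.G0

/-! The Euler system of elliptic units. -/

set_option autoImplicit false

open scoped Classical NNReal
open Finset

namespace Pool.Agent.Lib.MP_696deb_nt.EV.D

variable {R : Type} [CommRing R] {e : ℕ} {m b n : O} {W : O → R} {θ : Gam → R} {g : Gam}

/-- A weight of conductor `m` that transforms by the character `θ`. -/
structure Kb (m b : O) (W : O → R) (θ : Gam → R) : Prop where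
  ne : m ≠ 0
  w3 : (3 : O) ∣ m
  red : CU.red b ≠ 0
  cop : IsCoprime m b
  per : ∀ a a', m ∣ a - a' → W a = W a'
  eqv : ∀ g ∈ G, ∀ a, IsCoprime a m → Prim a → W (cm m g * a) = θ g * W a

variable (f : ZMod (3 ^ e) →+* R)

namespace Kb

theorem act (h : Kb m b W θ) (hg : g ∈ G) {P : A} (hP : P ∈ Im m) :
    W (co m (g • P)) = θ g * W (co m P) := by
  rw [h.per _ _ (co_act h.ne hg (Im_kill h.ne hP)), h.eqv g hg _ (co_cop h.ne hP)
    (co_prim h.ne h.w3 hP)]

theorem frob (h : Kb m b W θ) (r : TP) (hr : ¬ r.π ∣ m) {a : O} (h1 : IsCoprime a m) (h2 : Prim a) :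
    W (r.π * a) = θ r.φ * W a := by
  rw [← h.eqv _ r.φ_mem a h1 h2]
  refine (h.per _ _ ?_).symm
  rw [← sub_mul]
  exact (cm_frob r hr).mul_right a

theorem up (h : Kb m b W θ) (hn : n ≠ 0) (hc : IsCoprime n b) : Kb (m * n) b W θ :=
  ⟨mul_ne_zero h.ne hn, h.w3.mul_right n, h.red, h.cop.mul_left hc,
    fun a a' k => h.per a a' ((dvd_mul_right m n).trans k), fun g hg a h1 h2 => by
      rw [← h.eqv g hg a h1.of_mul_right_left h2]
      refine h.per _ _ ?_
      rw [← sub_mul]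
      exact (cm_of_dvd (mul_ne_zero h.ne hn) hg (dvd_mul_right m n)).mul_right a⟩

theorem map (h : Kb m b W θ) {R' : Type} [CommRing R'] (π : R →+* R') :
    Kb m b (fun a => π (W a)) fun g => π (θ g) :=
  ⟨h.ne, h.w3, h.red, h.cop, fun a a' k => congrArg π (h.per a a' k), fun g hg a h1 h2 => by
    rw [h.eqv g hg a h1 h2, map_mul]⟩

theorem zc (h : Kb m b W θ) : Zc G (fun g => f (cy e g) * θ g) (FE f m b W) :=
  zc_FF f (fam_Im h.ne h.w3 h.red e) fun _ hg _ hP => h.act hg hP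

theorem unr (h : Kb m b W θ) {v : Plc} (hv : v.p ≠ 3) (k : v.V (io m) = 1) {σ : Gam}
    (hσ : σ ∈ Ine v) : FE f m b W σ = 0 := by
  refine sum_eq_zero fun P hP => ?_
  have h1 := (fam_Im h.ne h.w3 h.red e).root (ine_le hv hσ) hP
  have h2 := es_ne (e := e) h.red (Im_ne h.ne h.w3 hP h.red)
  have h3 : v.V (yb b e P) = 1 := (pow_eq_one_iff_of_nonneg zero_le
    (pow_ne_zero e three_ne_zero)).1 (by rw [← map_pow, es_pow, Im_unit h.red h.ne h.w3 hv hP])
  rw [kc]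
  rw [act_ine hv k (inv_mem hσ) (Im_kill h.ne hP)] at h1 ⊢
  rw [root_eq hv h1 (one_pow _) (B2.b4a_unit hσ h3 (mul_div_cancel₀ _ h2).symm), lg_one, map_zero,
    zero_mul]

theorem es_down (h : Kb m b W θ) (hn : n ≠ 0) (hc : IsCoprime n b) :
    ∃ x, ∀ g ∈ G, FF f (pre n (Im m)) (yb b e) (fun P => W (co m (n • P))) g =
      FE f m b W g + (f (cy e g) * θ g - 1) * x :=
  ⟨_, fun g hg => by
    rw [FF_down f h.red hn hc (fun _ hg _ => act_Im h.ne h.w3 hg)
      (fun _ hP => Im_ne h.ne h.w3 hP h.red) (fun P => W (co m P)) hg,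
      es_tr f fun _ => h.act hg, sub_mul, one_mul, mul_assoc, FE]⟩

theorem es_up (h : Kb m b W θ) (hn : n ≠ 0) :
    FF f (Im (m * n)) (yb b e) (fun P => W (co m (n • P))) g = FE f (m * n) b W g :=
  FF_congr f fun P hP => h.per _ _ (co_down h.ne hn (by
    rw [Im_kill (mul_ne_zero h.ne hn) hP]))

theorem es_frob (h : Kb m b W θ) (r : TP) (hr : ¬ r.π ∣ m) {y : A → Qbar} :
    FF f (Im m) y (fun P => W (co m (r.π • P))) g =
      θ r.φ * FF f (Im m) y (fun P => W (co m P)) g := by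
  rw [← FF_smul]
  exact FF_congr f fun P hP => (h.per _ _ (co_smul h.ne _ (Im_kill h.ne hP))).trans
    (h.frob r hr (co_cop h.ne hP) (co_prim h.ne h.w3 hP))

theorem ram (h : Kb m b W θ) (hn : n ≠ 0) (hp : ∀ p, Prime p → p ∣ n → p ∣ m) :
    ∃ x, ∀ g ∈ G, FE f (m * n) b W g = FE f m b W g + (f (cy e g) * θ g - 1) * x := by
  have hc : IsCoprime n b := isCoprime_of_prime_dvd (fun e => hn e.1)
    fun z hz h3 h4 => hz.not_isUnit (h.cop.isUnit_of_dvd' (hp z hz h3) h4)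
  obtain ⟨x, hx⟩ := h.es_down f hn hc
  exact ⟨x, fun g hg => by rw [← hx g hg, pre_ram h.ne hn h.w3 hp, h.es_up f hn]⟩

theorem euler (h : Kb m b W θ) (r : TP) (hr : ¬ r.π ∣ m) (hc : IsCoprime r.π b) :
    ∃ x, ∀ g ∈ G, FE f (m * r.π) b W g =
      (1 - θ r.φ) * FE f m b W g + (f (cy e g) * θ g - 1) * x := by
  obtain ⟨x, hx⟩ := h.es_down f r.prime.ne_zero hc
  obtain ⟨h1, h2⟩ := pre_new h.ne h.w3 r.prime r.prim hr
  refine ⟨x, fun g hg => ?_⟩
  have := hx g hg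
  rw [h1, FF, sum_union h2, ← FF, ← FF, h.es_up f r.prime.ne_zero, h.es_frob f r hr, ← FE] at this
  linear_combination this

end Kb

end Pool.Agent.Lib.MP_696deb_nt.EV.D
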