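import Pool.Agent.Lib.MP_696deb_nt.ED.C7
import Pool.Agent.Lib.MP_696deb_nt.EV.Ind

/-! Local points at three. -/

set_option autoImplicit false

open scoped Classical NNReal
open Finset

namespace Pool.Agent.Lib.MP_696deb_nt.EV.D

variable (t : Tw) {P Q : A}

theorem indd_rho : CU.rho t.N ≠ 0 ∧ w3.V (CU.rho t.N) ≤ 1 := ind_rho ⟨t.N, t.ne⟩

theorem indd_d : w3.V (t.d : Qbar) = 1 :=
  (w3.V_int_eq_one (a := t.d)).2 (by rw [w3_p]; exact t.fd.three)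

theorem indd_rt : w3.V (B2.rt t.d) = 1 :=
  (pow_eq_one_iff_of_nonneg zero_le two_ne_zero).1 (by rw [← map_pow, B2.rt_sq, indd_d])

theorem indd_co {g : Gam} (hg : g ∈ G) (P : A) :
    xco (t.tw g P) * CU.rho t.N ^ 2 = g (xco P * CU.rho t.N ^ 2) ∧
      EW.y2 (t.tw g P) * B2.rt t.d = g (EW.y2 P * B2.rt t.d) := by
  have k : ∀ (j : ℕ) (P : A), xco (om ^ j • P) = (zeta 1 ^ j) ^ 2 * xco P ∧
      EW.y2 (om ^ j • P) = EW.y2 P := fun j P => by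
    induction j with
    | zero => simp
    | succ j ih =>
      rw [pow_succ', mul_smul, EW.x_om, EW.y2_om, ih.1]
      exact ⟨by ring, ih.2⟩
  rw [tw_eq t hg, Tw.u, mul_smul, CU.un, map_mul, map_mul, map_pow, CU.kk_spec,
    B2.chi_spec (B2.rt_sq t.d) g]
  rcases chi_or t.d g with h | h
  · rw [xq_of h, one_smul, h, (k _ _).1, (k _ _).2, xco_act, EW.y2_act]
    exact ⟨by ring, by simp⟩
  · rw [xq_of' h, neg_smul, one_smul, xco_neg, EW.y2_neg, h, (k _ _).1, (k _ _).2, xco_act,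
      EW.y2_act]
    exact ⟨by ring, by simp⟩

theorem exists_Q0 :
    ∃ Q ∈ Kr w3, Q ≠ 0 ∧ (∀ g ∈ Hw, t.tw g Q = Q) ∧ w3.V (zc Q) ^ 2 < w3.V (io w) := by
  obtain ⟨q0, q1, q2⟩ := ind_q
  obtain ⟨r0, r1⟩ := indd_rho t
  have t1 := V_three_lt
  have t4 : w3.V 4 = 1 := by
    rw [show (4 : Qbar) = 2 ^ 2 by norm_num, map_pow, EW.V_two w3_two, one_pow]
  have N0 : (t.N : Qbar) ≠ 0 := Nat.cast_ne_zero.2 t.ne
  have d0 : (t.d : Qbar) ≠ 0 := Int.cast_ne_zero.2 t.fd.fund.ne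
  have e0 : B2.rt t.d ≠ 0 := B2.b1b_rt_ne t.fd.fund.ne
  have e2 := B2.rt_sq t.d
  obtain ⟨s, s1, s2, -⟩ := B2.exists_sqrt (D := Hw) (w := w3) inf_le_right
    (a := 1 - 19683 * t.N ^ 2 / (4 * t.d ^ 3)) (fun g _ => by simp [map_ofNat]) (by
      rw [sub_sub_cancel_left, w3.V.map_neg, map_div₀, map_mul _ (4 : Qbar), t4,
        map_pow _ (t.d : Qbar), indd_d, one_pow, mul_one, div_one, show (19683 * t.N ^ 2 : Qbar) =
        3 * ((6561 * t.N ^ 2 : ℤ) : Qbar) by push_cast; ring, map_mul]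
      exact mul_lt_one_of_lt_of_le t1 (w3.V_int_le _))
  have k := MP_23455a_nt.ns_iff.2 (show (B2.rt t.d ^ 3 * s / (27 * t.N) - 1 / 2) ^ 2 +
      (B2.rt t.d ^ 3 * s / (27 * t.N) - 1 / 2) = (t.d * (9 * CU.rho t.N ^ 2)⁻¹) ^ 3 - 7 by
    have e6 : (B2.rt t.d ^ 3 * s) ^ 2 = t.d ^ 3 - 19683 * t.N ^ 2 / 4 := by
      rw [mul_pow, pow_right_comm, e2, s2]
      field_simp
    rw [mul_pow, inv_pow, mul_pow, pow_right_comm, CU.rho_cube]
    generalize B2.rt t.d ^ 3 * s = u at e6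
    field_simp
    linear_combination 2916 * e6)
  have a1 : w3.V (9 * CU.rho t.N ^ 2) ≤ w3.V 3 ^ 2 := by
    rw [map_mul, show (9 : Qbar) = 3 ^ 2 by norm_num, map_pow, map_pow]
    exact mul_le_of_le_one_right' (pow_le_one' r1 2)
  have a0 := B2.b3a_pos w3 (x := 9 * CU.rho t.N ^ 2)
    (mul_ne_zero (by norm_num) (pow_ne_zero 2 r0))
  have a2 : 1 < w3.V (t.d * (9 * CU.rho t.N ^ 2)⁻¹) := by
    rw [map_mul, indd_d, one_mul, map_inv₀]
    exact (one_lt_inv₀ a0).2 (a1.trans_lt (pow_lt_one' t1 two_ne_zero))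
  have p0 : (.some _ _ k : A) ≠ 0 := WeierstrassCurve.Affine.Point.some_ne_zero _
  refine ⟨.some _ _ k, EW.mem_Kr.2 (.inr a2), p0, fun g hg => ?_, ?_⟩
  · obtain ⟨h1, h2⟩ := indd_co t hg.1 (.some _ _ k)
    have e : t.d * (9 * CU.rho t.N ^ 2)⁻¹ * CU.rho t.N ^ 2 = t.d * 9⁻¹ := by field_simp
    rw [xco_some, e, map_mul, map_intCast, map_inv₀, map_ofNat, ← e] at h1
    have h3 := mul_right_cancel₀ (pow_ne_zero 2 r0) h1
    have p1 : t.tw g (.some _ _ k) ≠ 0 := fun e => by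
      rw [e, xco_zero] at h3
      rw [← h3, map_zero] at a2
      exact not_lt_zero a2
    have e' : EW.y2 (.some _ _ k : A) * B2.rt t.d = 2 * t.d ^ 2 * s / (27 * t.N) := by
      rw [EW.y2_eq p0, yco_some, ← e2]
      ring
    have e'' : g (2 * t.d ^ 2 * s / (27 * t.N)) = 2 * t.d ^ 2 * s / (27 * t.N) := by
      simp [s1 g hg, map_ofNat]
    rw [e', e'', ← e'] at h2
    have h4 := mul_right_cancel₀ e0 h2
    rw [EW.y2_eq p0, EW.y2_eq p1] at h4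
    exact H3.rd_ext p1 p0 h3 (mul_left_cancel₀ two_ne_zero (add_right_cancel h4))
  · have h := EW.V_zc w3_two (P := .some _ _ k) a2
    rw [xco_some, map_mul, indd_d, one_mul, map_inv₀, mul_inv_eq_one₀ a0.ne'] at h
    rw [h]
    refine a1.trans_lt ?_
    rw [← q2, ← pow_mul]
    exact pow_lt_self_of_lt_one₀ q0 q1 (by norm_num)

theorem exists_idx :
    ∃ N : ℕ, 0 < N ∧ ∀ R : A, (∀ g ∈ Hw, t.tw g R = R) → (N : O) • R ∈ Kr w3 := by
  obtain ⟨q0, q1, -⟩ := ind_q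
  obtain ⟨r0, r1⟩ := indd_rho t
  have r2 := B2.b3a_pos w3 r0
  have e1 := indd_rt t
  obtain ⟨n, hn⟩ := (B2.b3a_small 1 q1
    (mul_pos (B2.b3a_pos w3 (x := 81) (by norm_num)) (pow_pos r2 2))).exists
  rw [one_mul] at hn
  obtain ⟨S, hS, -⟩ := EW.exists_rep (n := w ^ n) (pow_ne_zero _ (by decide))
  have ap : ∀ x : Qbar, ∃ a, Fx Hw x → w3.V x ≤ 1 → a ∈ S ∧ w3.V (x - io a) ≤ w3.V (io w) ^ n :=
    fun x => by
      by_cases h : Fx Hw x ∧ w3.V x ≤ 1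
      · obtain ⟨a, ha⟩ := approx_w3 h.1 h.2 n
        obtain ⟨r, hr, k⟩ := hS.ex a
        refine ⟨r, fun _ _ => ⟨hr, ?_⟩⟩
        convert w3.V.map_add_le ha (V_w3_dvd.2 k) using 2
        rw [map_sub, sub_add_sub_cancel]
      · exact ⟨0, fun h1 h2 => absurd ⟨h1, h2⟩ h⟩
  choose f hf using ap
  refine ⟨((S ×ˢ S).card + 1).factorial, Nat.factorial_pos _, fun R hR => by_contra fun h => ?_⟩
  have k : ∀ j : ℕ, 0 < j → j ≤ (S ×ˢ S).card + 1 → (j : O) • R ∉ Kr w3 := fun j j0 j1 e => h (by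
    obtain ⟨c, hc⟩ := Nat.dvd_factorial j0 j1
    rw [hc, mul_comm, Nat.cast_mul, mul_smul]
    exact (Kr w3).smul_mem _ e)
  have fx : ∀ j ∈ Icc 1 ((S ×ˢ S).card + 1),
      (Fx Hw (xco ((j : O) • R) * CU.rho t.N ^ 2) ∧
        w3.V (xco ((j : O) • R) * CU.rho t.N ^ 2) ≤ 1) ∧
        Fx Hw (EW.y2 ((j : O) • R) * B2.rt t.d) ∧
          w3.V (EW.y2 ((j : O) • R) * B2.rt t.d) ≤ 1 := fun j hj => by
    have h1 := k j (mem_Icc.1 hj).1 (mem_Icc.1 hj).2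
    refine ⟨⟨fun g hg => ?_, ?_⟩, fun g hg => ?_, ?_⟩
    · rw [← (indd_co t hg.1 _).1, tw_smul t hg.1, hR g hg]
    · rw [map_mul, map_pow]
      exact mul_le_one' (EW.V_x h1) (pow_le_one' r1 _)
    · rw [← (indd_co t hg.1 _).2, tw_smul t hg.1, hR g hg]
    · rw [map_mul, e1, mul_one]
      exact EW.V_y2 h1
  have cl : ∀ {x y c : Qbar}, w3.V (CU.rho t.N) ^ 2 ≤ w3.V c → Fx Hw (x * c) ∧ w3.V (x * c) ≤ 1 →
      Fx Hw (y * c) ∧ w3.V (y * c) ≤ 1 → f (x * c) = f (y * c) →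
      w3.V (x - y) < w3.V 81 := fun {x y c} he hx hy h => by
    have := w3.V.map_sub_le (hf _ hx.1 hx.2).2 (hf _ hy.1 hy.2).2
    rw [h, sub_sub_sub_cancel_right, ← sub_mul, map_mul] at this
    exact lt_of_mul_lt_mul_right ((this.trans_lt hn).trans_le (mul_le_mul_right he _)) zero_le
  have key : ∀ i ∈ Icc 1 ((S ×ˢ S).card + 1), ∀ j ∈ Icc 1 ((S ×ˢ S).card + 1), i < j →
      (f (xco ((j : O) • R) * CU.rho t.N ^ 2), f (EW.y2 ((j : O) • R) * B2.rt t.d)) ≠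
        (f (xco ((i : O) • R) * CU.rho t.N ^ 2), f (EW.y2 ((i : O) • R) * B2.rt t.d)) :=
    fun i hi j hj h e => by
    have hj' := k j (mem_Icc.1 hj).1 (mem_Icc.1 hj).2
    have hi' := k i (mem_Icc.1 hi).1 (mem_Icc.1 hi).2
    have y1 := cl (e1 ▸ pow_le_one' r1 2) (fx j hj).2 (fx i hi).2 (congrArg Prod.snd e)
    have n0 : ∀ {S : A}, S ∉ Kr w3 → S ≠ 0 := fun k e => k (e ▸ zero_mem _)
    rw [EW.y2_eq (n0 hj'), EW.y2_eq (n0 hi'), add_sub_add_right_eq_sub,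
      ← mul_sub, map_mul, EW.V_two w3_two, one_mul] at y1
    have := ind_near hj' hi'
      (cl (map_pow _ _ _).ge (fx j hj).1 (fx i hi).1 (congrArg Prod.fst e)) y1
    rw [← sub_smul, ← Nat.cast_sub h.le] at this
    exact k _ (Nat.sub_pos_of_lt h) ((Nat.sub_le _ _).trans (mem_Icc.1 hj).2) this
  obtain ⟨i, hi, j, hj, h1, h2⟩ := exists_ne_map_eq_of_card_lt_of_maps_to
    (s := Icc 1 ((S ×ˢ S).card + 1)) (t := S ×ˢ S) (by simp)
    (f := fun j => (f (xco ((j : O) • R) * CU.rho t.N ^ 2), f (EW.y2 ((j : O) • R) * B2.rt t.d)))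
    fun j hj =>
      mem_product.2 ⟨(hf _ (fx j hj).1.1 (fx j hj).1.2).1, (hf _ (fx j hj).2.1 (fx j hj).2.2).1⟩
  rcases h1.lt_or_gt with h | h
  · exact key i hi j hj h h2.symm
  · exact key j hj i hi h h2

theorem indd_small (h : P ∈ Kr w3) (k : ∀ g ∈ Hw, t.tw g P = P) (j : ℕ) :
    w3.V (zc ((3 : O) ^ (j + 1) • P)) ≤ w3.V 3 ^ j := by
  obtain ⟨q0, q1, q2⟩ := ind_q
  have i2 : io 3 = 3 := map_ofNat io 3
  have e0 : B2.rt t.d ≠ 0 := B2.b1b_rt_ne t.fd.fund.ne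
  have a1 : w3.V (zc P) ^ 3 ≤ w3.V (io w) ^ 1 := by
    by_cases z0 : zc P = 0
    · simp [z0]
    have e : zc P ^ 3 * (B2.rt t.d ^ 3)⁻¹ = (zc P * t.τ⁻¹) ^ 3 * t.N := by
      have N0 : (t.N : Qbar) ≠ 0 := Nat.cast_ne_zero.2 t.ne
      rw [Tw.τ, mul_pow, inv_pow, mul_pow, CU.rho_cube]
      field_simp
    obtain ⟨n, hn⟩ := V_fx_w3 (x := zc P ^ 3 * (B2.rt t.d ^ 3)⁻¹) (fun g hg => by
      rw [e, map_mul, map_pow, ← zc_tw t hg.1, k g hg, map_natCast])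
      (mul_ne_zero (pow_ne_zero 3 z0) (inv_ne_zero (pow_ne_zero 3 e0)))
    rw [map_mul, map_inv₀, map_pow _ (B2.rt t.d), indd_rt, one_pow, inv_one, mul_one] at hn
    have h1 := pow_lt_one' (EW.V_zc_lt w3_two h) three_ne_zero
    rw [← map_pow, hn] at h1 ⊢
    rw [← zpow_natCast]
    exact zpow_le_zpow_right_of_le_one₀ q0 q1.le ((zpow_lt_one_iff_right_of_lt_one₀ q0 q1).1 h1)
  have a2 : w3.V (zc ((3 : O) • P)) ^ 2 ≤ w3.V 3 := by
    rw [← q2, ← sub_add_cancel (zc ((3 : O) • P)) (io 3 * zc P)]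
    refine pow_le_pow_left' (w3.V.map_add_le ((EW.zc_smul w3_two h 3).2.trans
      (a1.trans_eq (pow_one _))) ?_) 2
    rw [map_mul, i2, ← q2, sq, mul_assoc]
    exact mul_le_of_le_one_right' (mul_le_one' q1.le (EW.V_zc_lt w3_two h).le)
  have h2 := (Kr w3).smul_mem 3 h
  rw [pow_succ, mul_smul]
  generalize (3 : O) • P = Q at a2 h2
  induction j with
  | zero => simpa using (EW.V_zc_lt w3_two h2).le
  | succ j ih =>
    rw [pow_succ', mul_smul, pow_succ']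
    refine (EW.V_zc_smul_le w3_two ((Kr w3).smul_mem _ h2) ?_).trans
      (by rw [i2]; exact mul_le_mul_right ih _)
    exact (pow_le_pow_left' (EW.zc_smul w3_two h2 _).1 2).trans (by rwa [i2])

theorem ind_dvd (h : Q ∈ Kr w3) (h0 : Q ≠ 0) (hz : w3.V (zc Q) ^ 2 < w3.V (io w)) :
    ∃ c : ℕ, ∀ (j : ℕ) (a : O) (R : A), (∀ g ∈ Hw, t.tw g R = R) →
      a • Q = (3 : O) ^ (j + c) • R → 3 ^ j ∣ a := by
  obtain ⟨q0, q1, q2⟩ := ind_q
  obtain ⟨N, N0, hN⟩ := exists_idx t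
  have p0 : 0 < w3.V (io N) * w3.V (zc Q) := mul_pos
    (B2.b3a_pos _ (EW.io_ne (Nat.cast_ne_zero.2 N0.ne')))
    (B2.b3a_pos _ (mt (EW.zc_eq_zero w3_two h) h0))
  obtain ⟨c, hc⟩ := (B2.b3a_small 1 V_three_lt p0).exists
  refine ⟨c + 1, fun j d R hR e => ?_⟩
  have k := indd_small t (hN R hR) (fun g hg => by rw [tw_smul t hg.1, hR g hg]) (j + c)
  rw [smul_comm, add_assoc, ← e, smul_smul, zc_exact h hz, map_mul, map_mul, pow_add,
    mul_right_comm, mul_comm] at k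
  have k2 := le_of_mul_le_mul_right (k.trans (mul_le_mul_right (one_mul (w3.V 3 ^ c) ▸ hc.le) _)) p0
  rw [← q2, ← pow_mul, V_w3_dvd, pow_mul] at k2
  exact (pow_dvd_pow_of_dvd ⟨-1, by decide⟩ j).trans k2

end Pool.Agent.Lib.MP_696deb_nt.EV.D
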