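import Pool.Agent.Lib.MP_696deb_nt.ED.T0
import Pool.Agent.Lib.MP_696deb_nt.Y3.K0

/-! Special primes. -/

set_option autoImplicit false

open scoped Classical NNReal
open Finset PowerSeries

namespace Pool.Agent.Lib.MP_696deb_nt.EV.D

/-- The derivatives tend to zero. -/
def Cb.Small (c : Cb) : Prop := ∀ e a : ℕ, ∃ v, ∀ u ≥ v, ∀ (r : TP) (x : Ix r u),
  AdmR c.φ r u → w3.V (kur c.φ (c.m0 e) c.α.π x) < w3.V (3 ^ a)

/-- Special stages. -/
def Cx.Sp (c : Cx) (s : c.Stg 1) : Prop := ∀ k, ∃ r : DP (k + 1), s.J k = {r} ∧ r.t = s.t k none ∧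
  r.x.ind w = 0 ∧ AdmR c.φ r.t (k + 1)

end Pool.Agent.Lib.MP_696deb_nt.EV.D
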