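import Pool.Agent.Lib.MP_696deb_nt.EW.K8

/-! The central value of a periodic Hecke character as a finite sum. -/

set_option autoImplicit false

open scoped Classical Real ComplexConjugate
open Complex Finset Filter Topology MeasureTheory

namespace Pool.Agent.Lib.MP_696deb_nt.EW

open Pool.Agent.Shared.Weier CL

theorem k9_an {f f' : O → ℂ} (bd : ∀ α, ‖f α‖ ≤ 1) (bd' : ∀ α, ‖f' α‖ ≤ 1) {l l' : ℝ} (hl : 0 < l)
    (hl' : 0 < l') {w : ℂ} (hw : w ≠ 0)
    (fe : ∀ t : ℝ, 0 < t → tht f (l / t) = w * t ^ 2 * tht f' (l' * t)) {a : ℕ → ℂ}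
    (ha : ∀ n, ∑ α ∈ reps n, f α * toC α = 6 * a n) :
    ∃ L : ℂ → ℂ, Differentiable ℂ L ∧
      (∀ s : ℂ, (3 : ℝ) / 2 < s.re → LSeriesSummable a s ∧ L s = LSeries a s) ∧
      Tendsto (Ph f) (𝓝[>] 0) (𝓝 (6 * L 1)) := by
  have hi : ∀ {f : O → ℂ} {l : ℝ}, (∀ α, ‖f α‖ ≤ 1) → 0 < l →
      LocallyIntegrableOn (fun t => tht f (l * t)) (Set.Ioi 0) := fun bd hl =>
    ((f7_cont bd).comp (by fun_prop) fun t ht => mul_pos hl ht).locallyIntegrableOn
      measurableSet_Ioi
  have ht : ∀ {f : O → ℂ} {l : ℝ}, (∀ α, ‖f α‖ ≤ 1) → 0 < l → ∀ r : ℝ,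
      (fun t => tht f (l * t) - 0) =O[Filter.atTop] (· ^ r) := fun {f l} bd hl r => by
    refine Asymptotics.IsBigO.trans ?_
      (isLittleO_exp_neg_mul_rpow_atTop (mul_pos Real.pi_pos hl) r).isBigO
    refine .of_bound ((∑' α : O, ‖f α * toC α * (Real.exp (-π * l * (nm α : ℝ)) : ℝ)‖) *
      Real.exp (π * l)) ((Filter.eventually_ge_atTop 1).mono fun t h => ?_)
    rw [sub_zero, Real.norm_of_nonneg (Real.exp_pos _).le, mul_assoc, ← Real.exp_add]
    convert f7_bound bd hl (le_mul_of_one_le_right hl.le h) using 3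
    ring
  let P : WeakFEPair ℂ := ⟨fun t => tht f (l * t), fun t => tht f' (l' * t), 2, w, 0, 0, hi bd hl,
    hi bd' hl', two_pos, hw, fun x hx => by
      rw [mul_one_div, fe x hx, Real.rpow_two, ofReal_pow, smul_eq_mul], ht bd hl, ht bd' hl'⟩
  have hP : IsStrongFEPair P := ⟨rfl, rfl⟩
  have l0 : (l : ℂ) ≠ 0 := ofReal_ne_zero.2 hl.ne'
  have p0 : (π : ℂ) ≠ 0 := ofReal_ne_zero.2 Real.pi_ne_zero
  refine ⟨fun s => π ^ s * l ^ s * (Gamma s)⁻¹ / 6 * P.Λ s,
    ((((differentiable_id.const_cpow (.inl p0)).mul (differentiable_id.const_cpow (.inl l0))).mul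
      differentiable_one_div_Gamma).div_const 6).mul hP.differentiable_Λ, fun s hs => ?_, ?_⟩
  · have s0 : 0 < s.re := by linarith
    have h1 := ((hasSum_mellin_pi_mul (a := fun α : O => f α * toC α)
      (q := fun α => l * (nm α : ℝ)) (F := P.f) (fun α => (eq_or_ne α 0).imp
        (fun e => by simp [e]) fun e => mul_pos hl (by exact_mod_cast nm_pos e))
      s0 (fun t ht => (summable_tht bd (mul_pos hl ht)).of_norm.hasSum.congr_fun fun α => by
        congr 3
        ring) (f7_sum bd hl hs)).mul_left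
      (π ^ s * l ^ s * (Gamma s)⁻¹ / 6)).tsum_fiberwise fun α => (nm α).toNat
    have h2 : LSeriesHasSum a s (π ^ s * l ^ s * (Gamma s)⁻¹ / 6 * P.Λ s) := by
      rw [hP.Λ_eq]
      refine h1.congr_fun fun n => ?_
      have e : (fun α : O => (nm α).toNat) ⁻¹' {n} = (reps n : Set O) := by
        ext α
        have := nm_nonneg α
        simp only [Set.mem_preimage, Set.mem_singleton_iff, mem_coe, mem_reps]
        omega
      have g0 := Gamma_ne_zero_of_re_pos s0
      have k : ∀ α ∈ reps n, π ^ s * l ^ s * (Gamma s)⁻¹ / 6 * (π ^ (-s) * Gamma s *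
          (f α * toC α) / ((l * (nm α : ℝ) : ℝ) : ℂ) ^ s) = f α * toC α / 6 / n ^ s :=
        fun α hα => by
          have := cpow_ne_zero_iff.2 (.inl p0 : _ ∨ s = 0)
          have := cpow_ne_zero_iff.2 (.inl l0 : _ ∨ s = 0)
          rw [mem_reps.1 hα, ofReal_mul, mul_cpow_ofReal_nonneg hl.le (by positivity), cpow_neg]
          push_cast
          field_simp
      rw [e, Finset.tsum_subtype' (reps n) fun α : O => π ^ s * l ^ s * (Gamma s)⁻¹ / 6 *
        (π ^ (-s) * Gamma s * (f α * toC α) / ((l * (nm α : ℝ) : ℝ) : ℂ) ^ s), sum_congr rfl k,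
        ← sum_div, ← sum_div, ha, mul_div_cancel_left₀ _ (by norm_num : (6 : ℂ) ≠ 0)]
      rcases eq_or_ne n 0 with rfl | n0
      · simp [ne_zero_of_re_pos s0]
      · exact LSeries.term_of_ne_zero n0 _ _
    exact ⟨h2.LSeriesSummable, h2.LSeries_eq.symm⟩
  · have h1 : IntegrableOn (fun t => tht f (l * t)) (Set.Ioi 0) := by
      simpa [MellinConvergent, P] using (hP.hasMellin 1).1
    have h2 := ((h1.continuousWithinAt_Ici_primitive_Ioi.mono Set.Ioi_subset_Ici_self).tendsto.comp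
      (show Tendsto (fun t : ℝ => t / l) (𝓝[>] 0) (𝓝[>] 0) from
        tendsto_nhdsWithin_iff.2 ⟨(Continuous.tendsto' (by fun_prop) 0 _ (zero_div l)).mono_left
          nhdsWithin_le_nhds, eventually_mem_nhdsWithin.mono fun t ht => div_pos ht hl⟩)).const_mul
      (π * l : ℂ)
    convert h2.congr' (eventually_mem_nhdsWithin.mono fun t ht => ?_) using 2
    · simp only [hP.Λ_eq, mellin, cpow_one, Gamma_one, sub_self, cpow_zero, one_smul, P]
      ring
    · rw [Function.comp_apply, ← k3_int bd hl (div_pos ht hl), mul_div_cancel₀ _ hl.ne']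

theorem k9_per {M : ℕ} (hM : 0 < M) {f : O → ℂ} (per : Per M f) (bd : ∀ α, ‖f α‖ ≤ 1) {a : ℕ → ℂ}
    (ha : ∀ n, ∑ α ∈ reps n, f α * toC α = 6 * a n) :
    ∃ L : ℂ → ℂ, Differentiable ℂ L ∧
      (∀ s : ℂ, (3 : ℝ) / 2 < s.re → LSeriesSummable a s ∧ L s = LSeries a s) ∧
      Tendsto (Ph f) (𝓝[>] 0) (𝓝 (6 * L 1)) := by
  have M0 : (0 : ℝ) < M := by positivity
  have M1 : (M : ℂ) ≠ 0 := by exact_mod_cast hM.ne'
  have b : ∀ ξ, ‖FT M f ξ‖ ≤ M ^ 2 := fun ξ => by
    refine (norm_sum_le_of_le _ fun x _ => norm_sum_le_of_le (n := fun _ => (1 : ℝ)) _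
      fun y _ => ?_).trans_eq (by simp [pow_two])
    generalize (y * ξ.re - x * ξ.im : ℤ) = k
    rw [norm_mul, show 2 * π * I * (k : ℂ) / M = ((2 * π * k / M : ℝ) : ℂ) * I by
      push_cast; ring, norm_exp_ofReal_mul_I, mul_one]
    exact bd _
  refine k9_an (f' := fun ξ => ((M : ℂ) ^ 2)⁻¹ * FT M f ξ) bd (fun ξ => ?_) one_pos
    (l' := 4 / (3 * M ^ 2)) (by positivity) (w := 4 / (3 * M))
    (div_ne_zero (by norm_num) (mul_ne_zero (by norm_num) M1)) (fun t ht => ?_) ha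
  · rw [norm_mul, norm_inv, norm_pow, norm_natCast]
    exact inv_mul_le_one_of_le₀ (b ξ) (by positivity)
  · have t1 : (t : ℂ) ≠ 0 := by exact_mod_cast ht.ne'
    have e : ∀ x, tht (fun ξ => ((M : ℂ) ^ 2)⁻¹ * FT M f ξ) x =
        ((M : ℂ) ^ 2)⁻¹ * tht (FT M f) x := fun x => by
      rw [tht, tht, ← tsum_mul_left]
      simp only [mul_assoc]
    rw [poisson hM per (div_pos one_pos ht), e,
      show 4 / (3 * (M : ℝ) ^ 2 * (1 / t)) = 4 / (3 * M ^ 2) * t by field_simp]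
    push_cast
    field_simp

/-- The central value of a Hecke character that counts the points of a curve. -/
theorem k9_val {N M : ℤ} {φ : O → O} (h1 : Gch N φ) {m : ℕ} (hm : 0 < m) (hP : Per m φ)
    (m0 : M ≠ 0) {c : ℕ → ℕ} (hc : ∀ p : ℕ, p.Prime → ¬ (p : ℤ) ∣ M → ¬ (p : ℤ) ∣ N ∧
      (p % 3 = 2 → (p : ℤ) - c p = 0) ∧ (p % 3 = 1 → ∃ z : O, nm z = p ∧
        (((p : ℤ) - c p : ℤ) : O) = φ z * z + star (φ z * z)))
    {F : ℂ → ℂ} (hF : Differentiable ℂ F)
    (hp : ∀ s : ℂ, (3 : ℝ) / 2 < s.re → HasProd (fun p : ℕ => if p.Prime ∧ ¬ ((p : ℤ) ∣ M) then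
      (1 - ((p : ℂ) - (c p : ℂ)) * (p : ℂ) ^ (-s) + (p : ℂ) ^ (1 - 2 * s))⁻¹ else 1) (F s))
    (hz : F 1 = 0) : ES m (fun α => toC (star (φ α))) = 0 := by
  obtain ⟨a, a1, a2, a3, a4⟩ := h1.hecke
  have per : Per m fun α => toC (φ α) := fun α γ => congrArg _ (hP α γ)
  have bd : ∀ α, ‖toC (φ α)‖ ≤ 1 := fun α => by
    have k : ((nm (φ α) : ℤ) : ℝ) ≤ 1 := by exact_mod_cast h1.bd α
    rw [← normSq_toC, Complex.normSq_eq_norm_sq] at k
    exact (sq_le_one_iff₀ (norm_nonneg _)).1 k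
  have ha : ∀ n, ∑ α ∈ reps n, toC (φ α) * toC α = 6 * (1 * (a n : ℂ)) := fun n => by
    simpa [map_ofNat] using congrArg toC (a2 n)
  obtain ⟨L, b1, b2, b3⟩ := k9_per hm per bd ha
  have k2 : ∀ p : ℕ, p.Prime → ¬ (p : ℤ) ∣ N → p % 3 = 1 ∨ p % 3 = 2 := fun p p1 p3 => by
    have : ¬ 3 ∣ p := fun e => p3 (by
      rw [← (Nat.prime_dvd_prime_iff_eq Nat.prime_three p1).1 e]
      exact h1.three)
    omega
  have e : F = fun s => (∏ p ∈ M.natAbs.primeFactors,
      loc (fun _ => 1) a (fun p => if (p : ℤ) ∣ N then 0 else p) p s) * L s := by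
    refine AnalyticOnNhd.eq_of_eventuallyEq (fun z _ => hF.analyticAt z)
      (fun z _ => ((Differentiable.fun_finsetProd fun p hp =>
        loc_differentiable _ _ _ (Nat.mem_primeFactors.mp hp).1.ne_zero).mul b1).analyticAt z)
      (z₀ := 2) ?_
    filter_upwards [(isOpen_lt continuous_const continuous_re).mem_nhds
      (show (2 : ℂ) ∈ {s : ℂ | (3 : ℝ) / 2 < s.re} by norm_num)] with s hs
    rw [(b2 s hs).2, (hp s hs).unique (hasProd_frozen a1 rfl (fun _ _ => (mul_one _).symm)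
      (b2 s hs).1 m0 (fun p => (p : ℂ) - (c p : ℂ)) fun p hp k => ?_)]
    obtain ⟨k1, k3, k4⟩ := hc p hp k
    refine ⟨?_, one_pow 2, if_neg k1⟩
    suffices e : a p = p - c p by
      rw [one_mul, e]
      push_cast
      rfl
    rcases k2 p hp k1 with e | e
    · obtain ⟨z, z1, z2⟩ := k4 e
      exact Int.cast_injective ((a4 p z hp e z1).trans z2.symm)
    · rw [a3 p hp e, k3 e]
  have e1 : L 1 = 0 := by
    rw [e] at hz
    refine (mul_eq_zero.1 hz).resolve_left (prod_ne_zero_iff.2 fun p hp => ?_)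
    have p1 := (Nat.mem_primeFactors.1 hp).1
    have p0 : (p : ℂ) ≠ 0 := Nat.cast_ne_zero.2 p1.ne_zero
    by_cases p3 : (p : ℤ) ∣ N
    · have p4 := ha p
      rw [sum_eq_zero fun α hα => by
        rw [h1.zero p p1 p3 α (by rw [mem_reps.1 hα]), map_zero, zero_mul]] at p4
      have p5 : (a p : ℂ) = 0 := by simpa using p4
      simp [loc, p3, p5]
    have k : (p : ℤ) + 1 - a p ≠ 0 := by
      rcases k2 p p1 p3 with e | e
      · obtain ⟨z, z1, -⟩ := f3_exists p1 e
        have k3 := congrArg QuadraticAlgebra.re (a4 p z p1 e z1)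
        have k4 : nm (φ z * z) ≤ p := by
          rw [nm_mul, z1]
          exact mul_le_of_le_one_left (by positivity) (h1.bd z)
        have k5 := p1.two_le
        generalize φ z * z = u at k3 k4
        simp only [QuadraticAlgebra.re_add, QuadraticAlgebra.re_star,
          QuadraticAlgebra.re_intCast, Int.cast_id] at k3
        have k6 := f0_im u
        intro k7
        nlinarith [sq_nonneg u.im, sq_nonneg ((p : ℤ) - 1)]
      · rw [a3 p p1 e]
        omega
    intro k2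
    refine (Int.cast_ne_zero (α := ℂ)).2 k ?_
    simp only [loc, p3, if_false, cpow_neg_one] at k2
    push_cast at k2 ⊢
    field_simp at k2
    linear_combination k2
  have k := tendsto_nhds_unique b3 (tendsto_Ph hm per (by
    rw [h1.zero 3 Nat.prime_three h1.three 0 (by decide), map_zero]))
  rw [e1, mul_zero, eq_comm, map_eq_zero, mul_eq_zero] at k
  simpa only [toC_star] using k.resolve_left
    (div_ne_zero Om_ne (by exact_mod_cast hm.ne'))

end Pool.Agent.Lib.MP_696deb_nt.EW
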