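import Pool.Agent.Lib.MP_696deb_nt.ED.C7
import Pool.Agent.Lib.MP_696deb_nt.ED.K9a
import Pool.Agent.Lib.MP_696deb_nt.CX.Glue
import Pool.Agent.Lib.MP_696deb_nt.CQ.Fe
import Pool.Agent.Lib.MP_696deb_nt.EW.K8

/-! The central value and the Eisenstein numbers. -/

set_option autoImplicit false

open scoped Classical NNReal
open Finset

namespace Pool.Agent.Lib.MP_696deb_nt.EV.D

theorem k9_dec {P x y : ℤ} (h0 : P ≠ 0) {a c : ℕ} (hx : ¬ P ∣ x) (hy : ¬ P ∣ y)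
    (h : P ^ a * x = P ^ c * y) : a = c ∧ x = y := by
  have k : ∀ {x y : ℤ} {a c : ℕ}, ¬ P ∣ x → P ^ a * x = P ^ c * y → c ≤ a := fun {x y a c} hx h =>
    not_lt.1 fun e => hx ((mul_dvd_mul_iff_left (pow_ne_zero a h0)).1 (by
      rw [h, ← pow_succ]
      exact (pow_dvd_pow P e).mul_right y))
  obtain rfl := le_antisymm (k hy h.symm) (k hx h)
  exact ⟨rfl, mul_left_cancel₀ (pow_ne_zero a h0) h⟩

theorem k9_sq {e : ℤ} (h : Fund e) {p : ℕ} (hp : p.Prime) (h2 : ¬ (p : ℤ) ∣ 2) :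
    ¬ (p : ℤ) ^ 2 ∣ e := fun k => by
  have p1 : Prime (p : ℤ) := Nat.prime_iff_prime_int.1 hp
  rcases h with ⟨h, -⟩ | ⟨m, rfl, h, -⟩
  · exact p1.not_isUnit (h _ (sq (p : ℤ) ▸ k))
  · exact p1.not_isUnit (h _ (sq (p : ℤ) ▸
      ((p1.irreducible.coprime_iff_not_dvd.2 h2).pow (m := 2) (n := 2)).dvd_of_dvd_mul_left k))

theorem k9_ar {p N s : ℕ} (hp : p.Prime) {b D e u v : ℤ} (h : CX.Tw b D (N * s ^ 3))
    (hN : N.factorization p < 3) (hb : ¬ (p : ℤ) ∣ 6 * b) (hu : u ≠ 0) (hv : v ≠ 0)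
    (he : D * u ^ 2 = e * v ^ 2) (h2 : ¬ (p : ℤ) ^ 2 ∣ e) : ¬ p ∣ N ∧ ¬ (p : ℤ) ∣ e ∧
      ∃ r : ℕ, ¬ p ∣ r ∧
        (p : ℤ) - CQ.cnb b p = jacobiSym e p * ((p : ℤ) - CL.cnt (N * r ^ 3) p) := by
  have := Fact.mk hp
  have p1 : Prime (p : ℤ) := Nat.prime_iff_prime_int.1 hp
  have N0 := left_ne_zero_of_mul h.ne
  have s0 := ne_zero_pow three_ne_zero (right_ne_zero_of_mul h.ne)
  obtain ⟨i, D, d1, rfl⟩ := WfDvdMonoid.max_power_factor h.D_ne p1.irreducible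
  obtain ⟨l, u, u1, rfl⟩ := WfDvdMonoid.max_power_factor hu p1.irreducible
  obtain ⟨m, v, v1, rfl⟩ := WfDvdMonoid.max_power_factor hv p1.irreducible
  obtain ⟨n, e, e1, rfl⟩ := WfDvdMonoid.max_power_factor (a₀ := e) (fun k => h2 (k ▸ dvd_zero _))
    p1.irreducible
  obtain ⟨j, s, s1, rfl⟩ := Nat.exists_eq_pow_mul_and_not_dvd s0 p hp.ne_one
  obtain ⟨k, N, n1, rfl⟩ := Nat.exists_eq_pow_mul_and_not_dvd N0 p hp.ne_one
  have k1 := (hp.pow_dvd_iff_le_factorization N0).1 (dvd_mul_right _ _)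
  have k2 : n < 2 := not_le.1 fun k => h2 ((pow_dvd_pow _ k).mul_right e)
  have t2 : ¬ (p : ℤ) ∣ 2 := fun k => hb ((k.trans ⟨3, rfl⟩).mul_right b)
  have t3 : ¬ (p : ℤ) ∣ 3 := fun k => hb ((k.trans ⟨2, rfl⟩).mul_right b)
  obtain ⟨k3, k4⟩ := k9_dec p1.ne_zero (a := 3 * i) (c := 2 * k + 6 * j) (x := 4 * b * D ^ 3)
    (y := -27 * ((N * s ^ 3 : ℕ) : ℤ) ^ 2) (by
      rw [show (4 : ℤ) = 2 ^ 2 from rfl]
      simp only [p1.dvd_mul, p1.dvd_pow_iff_dvd two_ne_zero, p1.dvd_pow_iff_dvd three_ne_zero,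
        not_or]
      exact ⟨⟨t2, fun k => hb (k.mul_left 6)⟩, d1⟩) (by
      rw [show (-27 : ℤ) = -3 ^ 3 from rfl, Nat.cast_mul, Nat.cast_pow]
      simp only [p1.dvd_mul, p1.dvd_pow_iff_dvd two_ne_zero, p1.dvd_pow_iff_dvd three_ne_zero,
        not_or, dvd_neg, Int.natCast_dvd_natCast]
      exact ⟨t3, n1, s1⟩) (by
      have := h.eq
      push_cast at this ⊢
      linear_combination this)
  obtain ⟨k5, k6⟩ := k9_dec p1.ne_zero (a := i + 2 * l) (c := n + 2 * m) (x := D * u ^ 2)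
    (y := e * v ^ 2) (by simp [p1.dvd_mul, p1.dvd_pow_iff_dvd, d1, u1])
    (by simp [p1.dvd_mul, p1.dvd_pow_iff_dvd, e1, v1]) (by linear_combination he)
  obtain rfl : k = 0 := by omega
  obtain rfl : n = 0 := by omega
  simp only [pow_zero, one_mul]
  refine ⟨n1, e1, s, s1, ?_⟩
  have k7 := congrArg (jacobiSym · p) k6
  simp only [jacobiSym.mul_left, CQ.jac_sq hp u1, CQ.jac_sq hp v1, mul_one] at k7
  rw [CQ.count_tw (fun k => t2 (by simp [k])) k4 d1, k7]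

theorem k9_gch {N d : ℤ} {φ : O → O} (g : CL.Gch N φ) (hd : Fund d) :
    CL.Gch (N * d) fun a => φ a * kN d a := by
  refine ⟨by simp only [g.one, kN_one, Int.cast_one, mul_one], fun α β => ?_,
    by rw [kN_unit (x := CL.om) EW.isUnit_om, Int.cast_one, mul_one, g.unit],
    by rw [kN_unit isUnit_one.neg, Int.cast_one, mul_one, g.neg], fun α => ?_,
    fun p hp k α hα => ?_, g.three.mul_right d, fun p hp k => ?_, fun α => ?_⟩
  · simp only [g.mul, kN_mul hd, Int.cast_mul]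
    ring
  · simp only [g.conj, star_mul', star_intCast, kN, nm, CL.nm_star]
  · rcases (Nat.prime_iff_prime_int.1 hp).dvd_or_dvd k with e | e
    · simp only [g.zero p hp e α hα, zero_mul]
    · rw [kN, nm, (kr_zero hd).2 fun c => hp.ne_one (Nat.eq_one_of_dvd_coprimes c
        (Int.natCast_dvd.1 hα) (Int.natCast_dvd.1 e)), Int.cast_zero, mul_zero]
  · have := kN_int hd ((Nat.prime_iff_prime_int.1 hp).irreducible.coprime_iff_not_dvd.2
      fun e => k (e.mul_left N))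
    rw [Int.cast_natCast] at this
    simp only [this, Int.cast_one, mul_one, g.int p hp fun e => k (e.mul_right d)]
  · refine CL.f8_bd (g.bd α) ?_
    rw [CL.nm_int]
    rcases kr_cases d (nm α) with e | e | e <;> simp [kN, e]

/-- If the central value vanishes, the sums of the logarithmic derivatives vanish. -/
theorem final (t : Tw) (hn : ∀ q : ℕ, t.N.factorization q < 3) : ∃ φ : O → O, Phi t φ ∧
    ∀ (b : ℤ) (s : ℕ), CX.Tw b t.D (t.N * s ^ 3) → ∀ F : ℂ → ℂ, Differentiable ℂ F →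
      CX.Eul 0 b F → F 1 = 0 → ∀ m : ℕ, 0 < m → 9 * t.M ∣ m → ∀ (a c : O) (R : Finset O),
        IsCoprime a m → IsCoprime c m → EW.IsRep m R →
          ∑ x ∈ R with Prim x, io (star (φ x)) * dl a (x • tq c m) = 0 := by
  obtain ⟨φ, g, g1, g2, -⟩ := EW.final ⟨t.ne, hn⟩
  have P := phi_of t ⟨g, g1, g2⟩
  refine ⟨_, P, fun b s hb F hF hE hz m hm k a c R ha hc hR => ?_⟩
  have h1 := k9_gch g t.fd.fund
  have per : CL.Per m fun a => φ a * kN t.d a := fun α γ => P.per _ _ (by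
    rw [add_sub_cancel_left]
    exact (Nat.cast_dvd_cast k).mul_right γ)
  have m1 : 2 * (-4 * 0 ^ 3 - 27 * b ^ 2) = 6 * b * (-(9 * b)) := by ring
  refine EW.sum_prim h1 hm per (EW.k9_val h1 hm per (M := 2 * (-4 * 0 ^ 3 - 27 * b ^ 2))
    (by simp [hb.b_ne]) (c := CQ.cnb b) (fun p hp k => ?_) hF hE hz) hR
    (((by decide : 3 ∣ 9).mul_right _).trans k) ha hc
  have := Fact.mk hp
  have p1 : Prime (p : ℤ) := Nat.prime_iff_prime_int.1 hp
  have k0 : ¬ (p : ℤ) ∣ 6 * b := fun e => k (m1 ▸ e.mul_right _)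
  have t2 : ¬ (p : ℤ) ∣ 2 := fun k => k0 ((k.trans ⟨3, rfl⟩).mul_right b)
  have o := hp.odd_of_ne_two fun k => t2 (by simp [k])
  obtain ⟨u, v, hu, hv, he⟩ := t.rel
  obtain ⟨e, e1, e2, e3, e4⟩ : ∃ e, Fund e ∧ t.d ∣ e ∧ t.D * u ^ 2 = e * v ^ 2 ∧
      (p % 3 = 1 → jacobiSym e p = kr t.d p) := by
    rcases he with he | he
    · exact ⟨_, t.fd.fund, dvd_rfl, he, fun _ => (kr_odd t.fd.fund o).symm⟩
    · refine ⟨_, Fund.m3 t.fd, dvd_mul_left _ _, he, fun h => ?_⟩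
      rw [← kr_odd (Fund.m3 t.fd) o, kr_m3 t.fd, CQ.jac_three (by omega), if_pos (by omega), one_mul]
  obtain ⟨k1, k2, r, k3, k4⟩ := k9_ar hp hb (hn p) k0 hu hv e3 (k9_sq e1 hp t2)
  refine ⟨?_, fun h => by rw [k4, CL.count_two h, sub_self, mul_zero], fun h => ?_⟩
  · simp only [p1.dvd_mul, not_or, Int.natCast_dvd_natCast]
    exact ⟨⟨fun k => k0 ((k.trans ⟨2, rfl⟩).mul_right b), k1⟩, fun k => k2 (k.trans e2)⟩
  · obtain ⟨z, ρ, χ, q⟩ := CL.exists_qc h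
    refine ⟨z, q.norm, ?_⟩
    rw [k4, Int.cast_mul, q.count (by simp [hp.dvd_mul, hp.prime.dvd_pow_iff_dvd, k1, k3]), e4 h,
      g2 p z ρ χ q k1, kN, nm, q.norm, Int.natAbs_natCast, Nat.cast_mul, Nat.cast_pow, map_mul,
      map_pow, q.cube r (mt (ZMod.natCast_eq_zero_iff r p).1 k3), mul_one]
    simp only [star_mul', star_star, star_intCast]
    ring

end Pool.Agent.Lib.MP_696deb_nt.EV.D
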