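import Pool.Agent.Lib.MP_696deb_nt.ED.S4
import Pool.Agent.Lib.MP_696deb_nt.Y3.KS6

/-! The explicit reciprocity law at finite level, with invariant weights. -/

set_option autoImplicit false

open scoped Classical NNReal
open Finset

namespace Pool.Agent.Lib.MP_696deb_nt.EV.D

variable {t : Tw} {φ : O → O}

/-- The explicit reciprocity law with invariant weights. -/
theorem erl_core2 (hφ : Phi t φ) {b π : O} (hb : CU.red b ≠ 0) (hb2 : IsCoprime 2 b) (hp : Prime π)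
    (hπ : CU.red π ≠ 0) (h1 : π ∣ (t.M : O)) (h2 : ¬ π ∣ b) {Q0 : A} (hQ : Q0 ∈ Kr w3)
    (hf : ∀ g ∈ Hw, t.tw g Q0 = Q0) : ∃ c : ℕ, ∀ (e n τ : ℕ) (d m : O), m = d * 3 ^ n →
    m ≠ 0 → e < n → ((9 * t.M : ℕ) : O) ∣ m → e + n + c ≤ 3 * τ →
    ∀ ν : A → ℕ, (∀ g ∈ Hw, ∀ P ∈ Im m, ν (g⁻¹ • P) = ν P) →
    w3.V (∑ P ∈ Im m, io (star (φ (co m P))) * ν P * dl b P) < w3.V (3 ^ (e + n + 1)) →
    ∀ Q1 : A, (3 : O) ^ e • Q1 = Q0 → ∀ (l : O →+ ZMod (3 ^ e)) (W : A → O),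
    (∀ P ∈ Im m, 3 ^ e ∣ W P * star (co m P) - φ (co m P)) →
    ∀ κ : Gam → A → ZMod (3 ^ e), KF Hw (Im m) (ub b) κ → Spl e Hw fun g h => 3 ^ (τ + 1) *
      SS (Im m) (fun g P => l (star d * star (co (3 ^ e) (t.cob Q1 g)) * W P * ν P)) κ g h := by
  obtain ⟨c1, hc1⟩ := x_bd hb hb2
  obtain ⟨c2, hc2⟩ := exists_tau hQ
  refine ⟨3 * (c1 + c2) + 2, fun e n τ d m hd h0 hn hm hτ ν hν hL Q1 hQ1 l W hW κ hκ => ?_⟩
  obtain ⟨j, rfl⟩ : ∃ j, τ = c1 + j + c2 := ⟨τ - c1 - c2, by omega⟩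
  have hH : Hw ≤ G := inf_le_left
  have k3 := s4_dvd hm
  have b0 := EW.ne_of_red hb
  have hS := st_Im hH h0 k3
  have un := fun P k => hφ.s4_unit (P := P) h0 hm k
  have nm : ∀ P ∈ Im m, ∀ R, b • R = 0 → P + R ∉ Kr w3 := fun P k R hR =>
    Im_notMem_w3 h0 hp hπ ((h1.mul_left 9).trans (by simpa using hm)) k h2 hR
  have hV : ∀ P ∈ Im m, 3 ^ e ∣ star (W P) * φ (co m P) * co m P - 1 := fun P k => by
    obtain ⟨z, hz⟩ := hW P k
    have := congrArg star hz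
    simp only [star_sub, star_mul', star_star, star_pow, star_ofNat] at this
    exact ⟨star z * φ (co m P), by linear_combination φ (co m P) * this + (un P k).2⟩
  let l' : O →+ ZMod (3 ^ e) := l.comp (starAddEquiv (R := O)).toAddMonoidHom
  have hω := wt_om hH h0 k3 ((pow_dvd_pow 3 hn.le).trans (hd ▸ dvd_mul_left _ _))
    (l'.comp (AddMonoidHom.mulLeft d)) hV
  obtain ⟨χ, β, x1, x2, x3⟩ := xc_dv hH h0 k3 hd hn l' hV
  let a1 : A → A := fun P => (ν P : O) • star (φ (co m P)) • (3 : O) ^ (c1 + j + c2) • Q1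
  let al : A → A := fun P => (ν P : O) • star (φ (co m P)) • (3 : O) ^ (c1 + j + c2) • Q0
  have a2 : ∀ P, (3 : O) ^ e • a1 P = al P := fun P => by
    rw [smul_comm, smul_comm ((3 : O) ^ e), smul_comm ((3 : O) ^ e), hQ1]
  have a3 : ∀ g ∈ Hw, ∀ P ∈ Im m, g • a1 (g⁻¹ • P) - a1 P =
      (ν P * (star (φ (co m P)) * 3 ^ (c1 + j + c2))) • t.cob Q1 g := fun g hg P k => by
    rw [act_smul (hH hg), hν g hg P k, hφ.s4_act h0 hm (hH hg) k, tw_smul t (hH hg), Tw.cob,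
      smul_sub, mul_smul, mul_smul, mul_smul, mul_smul]
  have a4 : ∀ g ∈ Hw, (3 : O) ^ e • t.cob Q1 g = 0 := fun g hg => by
    rw [Tw.cob, smul_sub, ← tw_smul t (hH hg), hQ1, hf g hg, sub_self]
  have ea : Eqv e Hw (Im m) a1 := fun g hg P k => by
    rw [a3 g hg P k, smul_comm, a4 g hg, smul_zero]
  have ep : Eqv e Hw (Im m) (dv e m) := eqv_dv hH h0
  have k0 : ∀ u : O, u • (3 : O) ^ (c1 + j + c2) • Q0 ∈ Kr w3 := fun u =>
    (Kr w3).smul_mem _ ((Kr w3).smul_mem _ hQ)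
  have kr : ∀ P, al P ∈ Kr w3 := fun P => (Kr w3).smul_mem _ (k0 _)
  have sp : ∀ P ∈ Im m, (3 : O) ^ e • (dv e m P + a1 P) = P + al P := fun P k => by
    rw [smul_add, a2, dv_spec h0 (Im_kill h0 k)]
  have sm : ∀ P ∈ Im m, (3 : O) ^ e • (dv e m P - a1 P) = P - al P := fun P k => by
    rw [smul_sub, a2, dv_spec h0 (Im_kill h0 k)]
  have np : ∀ P ∈ Im m, b • (3 : O) ^ e • (dv e m P + a1 P) ≠ 0 := fun P k z =>
    nm P k (-(P + al P)) (by rw [smul_neg, ← sp P k, z, neg_zero]) (by simpa using kr P)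
  have nn : ∀ P ∈ Im m, b • (3 : O) ^ e • (dv e m P - a1 P) ≠ 0 := fun P k z =>
    nm P k (-(P - al P)) (by rw [smul_neg, ← sm P k, z, neg_zero]) (by simpa using kr P)
  have kf : ∀ {Q : A → A}, Eqv e Hw (Im m) Q → (∀ P ∈ Im m, b • (3 : O) ^ e • Q P ≠ 0) →
      ∃ k : Gam → A → ZMod (3 ^ e), KF Hw (Im m) (fun P => ub b ((3 : O) ^ e • Q P)) k :=
    fun h k => exists_KF e (fun P hP => EW.ub_ne hb (k P hP)) fun g hg P hP => by
      rw [← ub_act b0 (hH hg), h.act hH hg hP]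
  obtain ⟨kp, hkp⟩ := kf (ep.add ea) np
  obtain ⟨km, hkm⟩ := kf (ep.sub ea) nn
  have p2 : 0 < w3.V 3 := B2.b3a_pos w3 three_ne_zero
  have z0 : ∀ u : O, w3.V (zc (u • (3 : O) ^ (c1 + j + c2) • Q0)) ≤ w3.V 3 ^ c1 * w3.V 3 ^ j :=
    fun u => (EW.zc_smul w3_two ((Kr w3).smul_mem _ hQ) _).1.trans ((hc2 _).trans (pow_add _ _ _).le)
  have n0 : ∀ P ∈ Im m, P ∉ Kr w3 := fun P k => add_zero P ▸ nm P k 0 (smul_zero _)
  have b1 : ∀ P ∈ Im m, ∀ r ∈ (En b).erase 0, w3.V 3 ^ c1 ≤ w3.V (xco P - xco r) := fun P k =>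
    map_pow w3.V 3 c1 ▸ hc1 P (nm P k)
  have g1 := pow_le_one' V_three_lt.le c1
  obtain ⟨y1, y2⟩ := ub_exp2 (v := w3) (S := Im m) (al := al) (γ := w3.V 3 ^ c1) (η := w3.V 3 ^ j)
    (μ := max ((w3.V 3 ^ j) ^ 3) (w3.V (∑ P ∈ Im m, io (star (φ (co m P))) * ν P * dl b P)))
    w3_two hb (pow_pos p2 _) g1 (pow_lt_one' V_three_lt (by omega))
    (fun P k => ⟨n0 P k, fun z => nm P k (-P) (by rw [smul_neg, z, neg_zero]) (by simp), b1 P k⟩)
    (fun P _ => ⟨kr P, (EW.zc_smul w3_two (k0 _) _).1.trans (z0 _)⟩) (le_max_left _ _) (by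
      rw [← sub_add_cancel (∑ P ∈ Im m, zc (al P) * dl b P) (zc ((3 : O) ^ (c1 + j + c2) • Q0) *
        ∑ P ∈ Im m, io (star (φ (co m P))) * ν P * dl b P)]
      refine (w3.V.map_add _ _).trans (max_le_max ?_ ((V_mul_le
        (EW.V_zc_lt w3_two ((Kr w3).smul_mem _ hQ)).le le_rfl).trans (one_mul _).le))
      rw [mul_sum, ← sum_sub_distrib]
      refine w3.V.map_sum_le fun P k => ?_
      have e1 := V_mul_le ((EW.zc_smul w3_two (k0 (star (φ (co m P)))) (ν P)).2.trans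
        (pow_le_pow_left' (z0 _) 3)) (dl_bd w3_two (n0 P k) (pow_pos p2 c1) (b1 P k))
      rw [zc_unit (u := star _) (by rw [← star_pow, (un P k).1, star_one]), map_natCast] at e1
      refine le_trans (le_of_eq ?_) (e1.trans ?_)
      · congr 1
        ring
      · rw [mul_pow, mul_right_comm, pow_succ _ 2, mul_inv_cancel_right₀ (pow_pos p2 c1).ne']
        exact mul_le_of_le_one_left' (pow_le_one' g1 2))
  have lt : ∀ {s k : ℕ}, k < j * s → (w3.V 3 ^ j) ^ s < w3.V (3 ^ k) := fun h => by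
    rw [map_pow, ← pow_mul]
    exact pow_lt_pow_right_of_lt_one₀ p2 V_three_lt h
  have kp' := hkp.congr (a' := fun P => ub b (P + al P)) fun P k => by rw [sp P k]
  have km' := hkm.congr (a' := fun P => ub b (P - al P)) fun P k => by rw [sm P k]
  have mu := max_lt (lt (s := 3) (k := e + n + 1) (by omega)) hL
  obtain ⟨r, r1, r2⟩ := H3.exists_root3 (D := Hw) inf_le_right (e + n) (fun g hg => by
    rw [← hS.prod hg, map_prod, hS.prod hg fun P => ub b (P + al P) / ub b (P - al P)]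
    refine prod_congr rfl fun P k => ?_
    rw [map_div₀, ← ub_act b0 (hH hg), ← ub_act b0 (hH hg), ← sp _ (hS.inv hg k),
      ← sm _ (hS.inv hg k), (ep.add ea).act hH hg k, (ep.sub ea).act hH hg k, sp P k, sm P k])
    (y1.trans_lt (max_lt mu ((pow_le_of_le_one zero_le (mu.le.trans (map_pow w3.V 3 _ ▸
      pow_le_one' V_three_lt.le _)) two_ne_zero).trans_lt mu)))
  refine spl_congr (spl_half (spl_polar
    (ss_congr (hω.spl hH hS (ep.add ea) hb np hkp) fun g hg P k => (hω.xc_add ep ea hg k).symm)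
    (ss_congr (hω.spl hH hS (ep.sub ea) hb nn hkm) fun g hg P k => (hω.xc_sub ep ea hg k).symm)
    ((kp'.div km').spl_hom (op_G.closed.inter (B2.closed_Dec w3)) hS (hω.pc hH hS ep) x1 x2 β x3
      r1 r2)
    (((kp'.mul km').div (hκ.mul hκ)).spl_near inf_le_right hS (hω.pc hH hS ea)
      fun P k => (y2 P k).trans_lt (lt (by omega))))) fun g hg h _ => ?_
  rw [pow_succ', mul_assoc, SS, SS, mul_sum]
  refine congrArg _ (sum_congr rfl fun P k => ?_)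
  obtain ⟨z, hz⟩ := co_smul (two_ne e) (ν P * (star (φ (co m P)) * 3 ^ (c1 + j + c2))) (a4 g hg)
  rw [← mul_assoc, ← mul_assoc, XC, a3 g hg P k, omg, eq_add_of_sub_eq hz]
  congr 2
  rw [← Nat.cast_ofNat (R := ZMod (3 ^ e)), ← Nat.cast_pow, ← nsmul_eq_mul, ← map_nsmul]
  refine hom_three l ⟨-(star d * W P * star (φ (co m P)) * star z), ?_⟩
  change _ - star (d * _) = _
  simp only [star_add, star_mul', star_star, star_pow, star_ofNat, star_natCast, nsmul_eq_mul,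
    Nat.cast_pow, Nat.cast_ofNat]
  linear_combination (-(star d * W P * ν P * 3 ^ (c1 + j + c2) * star (co (3 ^ e) (t.cob Q1 g)))) *
    (un P k).2

end Pool.Agent.Lib.MP_696deb_nt.EV.D
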