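import Pool.Agent.Lib.MP_696deb_nt.ED.T1
import Pool.Agent.Lib.MP_696deb_nt.EV.T2

/-! The tower: the Euler systems. -/

set_option autoImplicit false

open scoped Classical NNReal
open Finset PowerSeries

namespace Pool.Agent.Lib.MP_696deb_nt.EV.D

theorem t2_down {R : Type} [CommRing R] {e : ℕ} {m b : O} {W : O → R} {θ : Gam → R}
    (f : ZMod (3 ^ e) →+* R) (h : Kb m b W θ) {κ : Type} {t : κ → TP}
    (inj : ∀ i j, (t i).π = (t j).π → i = j) (S : Finset κ) (nd : ∀ i ∈ S, ¬ (t i).π ∣ m)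
    (hc : ∀ i ∈ S, IsCoprime (t i).π b) : Kb (m * ∏ i ∈ S, (t i).π) b W θ ∧
      ∃ x, ∀ g ∈ G, FE f (m * ∏ i ∈ S, (t i).π) b W g =
        (∏ i ∈ S, (1 - θ (t i).φ)) * FE f m b W g + (f (cy e g) * θ g - 1) * x := by
  refine ⟨h.up (prod_ne_zero_iff.2 fun i _ => (t i).prime.ne_zero) (.prod_left hc), ?_⟩
  induction S using Finset.induction_on with
  | empty => exact ⟨0, fun g _ => by simp⟩
  | insert i S hS ih =>
    rw [forall_mem_insert] at nd hc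
    obtain ⟨y, hy⟩ := ih nd.2 hc.2
    obtain ⟨z, hz⟩ := (h.up (prod_ne_zero_iff.2 fun i _ => (t i).prime.ne_zero)
      (.prod_left hc.2)).euler f (t i) (fun d => ((t i).prime.dvd_or_dvd d).elim nd.1 fun d => by
        obtain ⟨j, hj, d⟩ := (t i).prime.exists_mem_finset_dvd d
        exact (t i).not_dvd (t j) (fun k => hS (inj i j k ▸ hj)) d) hc.1
    refine ⟨(1 - θ (t i).φ) * y + z, fun g hg => ?_⟩
    rw [prod_insert hS, prod_insert hS, mul_comm (t i).π, ← mul_assoc, hz g hg, hy g hg]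
    ring

/-- Removing primes from the level. -/
theorem Kb.down {R : Type} [CommRing R] {e : ℕ} {m m' b : O} {W : O → R} {θ : Gam → R}
    (f : ZMod (3 ^ e) →+* R) (h : Kb m' b W θ) {κ : Type} (S : Finset κ) (t : κ → TP)
    (inj : ∀ i j, (t i).π = (t j).π → i = j) (nd : ∀ i ∈ S, ¬ (t i).π ∣ m') (hm : m ≠ 0)
    (hc : IsCoprime m b) (h1 : m' * ∏ i ∈ S, (t i).π ∣ m)
    (h2 : ∀ p, Prime p → p ∣ m → p ∣ m' * ∏ i ∈ S, (t i).π) :
    ∃ x, ∀ g ∈ G, FE f m b W g =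
      (∏ i ∈ S, (1 - θ (t i).φ)) * FE f m' b W g + (f (cy e g) * θ g - 1) * x := by
  obtain ⟨k, y, hy⟩ := t2_down f h inj S nd fun i hi =>
    hc.of_isCoprime_of_dvd_left (((dvd_prod_of_mem _ hi).mul_left _).trans h1)
  obtain ⟨n, rfl⟩ := h1
  obtain ⟨z, hz⟩ := k.ram f (right_ne_zero_of_mul hm) fun p hp d => h2 p hp (d.mul_left _)
  exact ⟨y + z, fun g hg => by rw [hz g hg, hy g hg, mul_add, add_assoc]⟩

theorem t2_per (c : Cb) (y : Bool) {j e : ℕ} (k : j ≤ e) {a a' : O} (h : c.m0 j ∣ a - a') :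
    (3 : Ow) ^ j ∣ oW (c.W0 y e a) - oW (c.W0 y e a') := by
  obtain ⟨-, d2, d3, d4⟩ := c.dvd_m0 j
  cases y
  · rw [Cb.W0, Cb.W0, kN_per c.fd.fund (d4.trans h), sub_self]
    exact dvd_zero _
  · rw [Cb.W0, Cb.W0, ← map_sub, dvd_oW, Tht, Tht, c.phi.per _ _ (d2.trans h), ← mul_sub]
    exact (t2_iv k (t2_star2 (d3.trans h))).mul_left _

theorem t2_eqv (c : Cb) (y : Bool) {j e : ℕ} (k : j ≤ e) {m a : O} (h0 : m ≠ 0) (h : c.m0 j ∣ m)
    {g : Gam} (hg : g ∈ G) (ha : IsCoprime a m) : (3 : Ow) ^ j ∣ oW (c.W0 y e (cm m g * a)) -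
      c.r0 y true g * algebraMap ℤ_[3] Ow (cyc g⁻¹) * oW (c.W0 y e a) := by
  obtain ⟨d1, d2, d3, d4⟩ := c.dvd_m0 j
  cases y
  · rw [Cb.W0, Cb.W0, Cb.r0, kN_mul c.fd.fund, kN_cm c.fd h0 (d4.trans h) hg, mul_assoc (xq _ _ _),
      ← map_mul, ← H3.cyc_mul, mul_inv_cancel, H3.cyc_one, map_one, mul_one, map_intCast,
      map_intCast, Int.cast_mul, xq, sub_self]
    exact dvd_zero _
  have nw : ∀ {x : O}, IsCoprime x m → ¬ w ∣ x := fun hx d =>
    g1_w.not_isUnit (hx.isUnit_of_dvd' d (t2_w3.trans (d1.trans h)))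
  obtain ⟨x, hx⟩ := dvd_oW.2 ((pow_dvd_pow 3 k).trans (iv_spec (t2_star (nw ha))))
  obtain ⟨y, hy⟩ := dvd_oW.2 ((pow_dvd_pow 3 k).trans
    (iv_spec (t2_star (nw ((cm_cop h0 hg).mul_left ha)))))
  obtain ⟨z, hz⟩ := psi_cm h0 (d3.trans h) hg
  have h1 := congrArg star hz
  have h2 : psi g * star (psi g) * algebraMap ℤ_[3] Ow (cyc g⁻¹) = 1 := by
    rw [mul_star_Ow, norm_psi hg, ← map_mul, ← H3.cyc_mul, mul_inv_cancel, H3.cyc_one, map_one]
  rw [star_sub, star_mul', star_pow, star_ofNat, ← oW_star] at h1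
  rw [star_mul'] at hy
  simp only [map_sub, map_mul, map_one] at hx hy
  rw [Cb.W0, Cb.W0, Cb.r0, Tht, Tht, c.phi.mul, c.phi.link m h0 (d2.trans h) g hg, rho0, star_mul']
  simp only [map_mul]
  generalize oW (iv e (star (cm m g) * star a)) = p at hy ⊢
  generalize oW (iv e (star a)) = q at hx ⊢
  generalize algebraMap ℤ_[3] Ow (cyc g⁻¹) = r at h2 ⊢
  refine ⟨oW (c.t.u g) * oW (c.φ a) * (psi g * r * q * y - p * x +
    psi g * r * q * p * oW (star a) * star z), ?_⟩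
  linear_combination oW (c.t.u g) * oW (c.φ a) * (psi g * r * q * hy - p * hx +
    psi g * r * q * p * oW (star a) * h1 - p * q * oW (star a) * h2)

theorem t2_ind {c : Cb} {k : ℕ} (l : Lv c k) {m a b : O} (hm : l.lam.π ∣ m) (ha : IsCoprime a m)
    (hb : IsCoprime b m) : Ideal.Quotient.mk (aa k) (1 + X) ^ (l.x.ind (a * b)).val =
      Ideal.Quotient.mk (aa k) (1 + X) ^ (l.x.ind a).val *
        Ideal.Quotient.mk (aa k) (1 + X) ^ (l.x.ind b).val := by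
  have nd : ∀ {x : O}, IsCoprime x m → ¬ l.lam.π ∣ x := fun hx d =>
    l.lam.prime.not_isUnit (hx.isUnit_of_dvd' d hm)
  have h1 : Ideal.Quotient.mk (aa k) (1 + X) ^ 3 ^ l.s = 1 := by
    rw [← map_pow]
    exact Ideal.Quotient.eq.2 l.pow_s
  rw [l.x.mul _ _ (nd ha) (nd hb), ZMod.val_add, ← pow_eq_pow_mod _ h1, pow_add]

namespace Cx

variable (c : Cx) {g : Gam} {k n j : ℕ}

theorem kb (y : Bool) (k : ℕ) : Kb (c.m k) c.α.π (c.Wq y (aa k) k) (md (aa k) (c.θ y k)) := by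
  have d1 : c.m0 (k + 1) ∣ c.m k := dvd_mul_right _ _
  have d2 : (c.lv k).lam.π ∣ c.m k := dvd_mul_left _ _
  refine ⟨c.m_ne k, (c.dvd_m0 _).1.trans d1, c.α.red, (c.α.prime.coprime_iff_not_dvd.2
    (c.nd_m k c.α (c.nd_M' c.α c.α_ne) (c.lv k).ne.symm)).symm,
    fun a a' h => ?_, fun g hg a ha _ => ?_⟩
  · simp only [Wq, Wt, map_mul]
    rw [t2_C le_rfl (t2_per c.toCb y le_rfl (d1.trans h)), (c.lv k).x.per a a' (d2.trans h)]
  · simp only [Wq, Wt, md, θ, ρ, Lv.ρ, Lv.ex, map_mul, map_pow]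
    rw [t2_C le_rfl (t2_eqv c.toCb y le_rfl (c.m_ne k) d1 hg ha),
      t2_ind (c.lv k) d2 (cm_cop (c.m_ne k) hg) ha,
      (c.lv k).x.per _ _ (cm_of_dvd (c.m_ne k) hg d2), Ix.ig]
    simp only [map_mul]
    ring

theorem kb' (y : Bool) {J : Ideal La} (h : aa k ≤ J) :
    Kb (c.m k) c.α.π (c.Wq y J k) (md J (c.θ y k)) := (c.kb y k).map (Ideal.Quotient.factor h)

theorem Wq_JX (y : Bool) (j k : ℕ) (a : O) : c.Wq y (JX j) k a = oq (JX j) (c.W0 y (k + 1) a) := by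
  rw [Wq, mk_JX, Wt]
  simp [oq]

/-- At the bottom of the tower the weight has a smaller conductor. -/
theorem kb0 (h : j ≤ k) :
    Kb (c.m0 (j + 1)) c.α.π (c.Wq true (JX j) k) (md (JX j) (c.θ true k)) := by
  refine ⟨c.m0_ne _, (c.dvd_m0 _).1, c.α.red,
    (c.α.prime.coprime_iff_not_dvd.2 (c.nd_m0 _ _ (c.nd_M' c.α c.α_ne))).symm,
    fun a a' d => ?_, fun g hg a ha _ => ?_⟩
  · rw [Wq_JX, Wq_JX]
    exact t2_C le_sup_right (t2_per c.toCb true (Nat.succ_le_succ h) d)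
  · rw [Wq_JX, Wq_JX, md, mk_JX j (c.θ true k g), θ, map_mul, ρ_const, constantCoeff_C]
    refine (t2_C le_sup_right
      (t2_eqv c.toCb true (Nat.succ_le_succ h) (c.m0_ne _) dvd_rfl hg ha)).trans ?_
    rw [map_mul C, map_mul (Ideal.Quotient.mk _)]
    rfl

theorem mu (k : ℕ) : Mu (c.m1 k) c.α.π (c.Wq false (aa k) k) := by
  have d1 : (c.d : O) ∣ c.m1 k := dvd_mul_right _ _
  have d2 : (c.lv k).lam.π ∣ c.m1 k := dvd_mul_left _ _
  have h := (c.kb false k).cop.symm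
  refine ⟨?_, ?_, c.α.red, (h.of_mul_right_left.of_isCoprime_of_dvd_right
    (c.dvd_m0 _).2.2.2).mul_right h.of_mul_right_right, fun a a' e => ?_, fun a a' ha ha' => ?_, ?_⟩
  · rw [m1, map_mul]
    exact mul_ne_zero (mt EW.red_zero.1 (by simpa using c.fd.three)) (c.lv k).lam.red
  · have h1 := c.fd.fund.one_lt
    have h2 := mt g1_nm_one.1 (c.lv k).lam.prime.not_isUnit
    have h3 := (c.lv k).lam.nm_mod
    rw [m1, g1_nm_mul, nm, CL.nm_int, Int.natAbs_pow]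
    nlinarith [show 2 ≤ nm (c.lv k).lam.π by omega]
  · simp only [Wq, Wt, Cb.W0]
    rw [kN_per c.fd.fund (d1.trans e), (c.lv k).x.per a a' (d2.trans e)]
  · simp only [Wq, Wt, Cb.W0, map_mul, map_pow, kN_mul c.fd.fund, Int.cast_mul]
    rw [t2_ind (c.lv k) d2 ha ha']
    ring
  · simp only [Wq, Wt, Cb.W0, kN_unit n2_u, c6_ind_unit (c.lv k).x n2_u, ZMod.val_zero, pow_zero,
      Int.cast_one, map_one, mul_one]

theorem Wq_cm (k : ℕ) (hg : g ∈ G) :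
    c.Wq false (aa k) k (cm (c.m1 k) g) = md (aa k) (c.θ false k) g := by
  rw [md, θ_false, Wq, Wt, Cb.W0, kN_cm c.fd (c.mu k).ne (dvd_mul_right _ _) hg,
    (c.lv k).x.per _ _ (cm_of_dvd (c.mu k).ne hg (dvd_mul_left _ _)), map_intCast, map_intCast, xq,
    Ix.ig]

theorem kb1 (k : ℕ) : Kb (3 * c.m1 k) c.α.π (c.Wq false (aa k) k) (md (aa k) (c.θ false k)) :=
  have h := c.mu k
  have h0 := mul_ne_zero three_ne h.ne
  ⟨h0, dvd_mul_right _ _, h.red, (EW.cop_three h.red).mul_left h.cop.symm,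
    fun a a' e => h.per a a' ((dvd_mul_left _ _).trans e), fun g hg a ha _ => by
      rw [h.mul _ _ (cm_cop h0 hg).of_mul_right_right ha.of_mul_right_right,
        h.per _ _ (cm_of_dvd h0 hg (dvd_mul_left _ _)), c.Wq_cm k hg]⟩

theorem Wq_cong (k : ℕ) {a : O} (h1 : Prim a) (h2 : IsCoprime a (c.m k)) :
    ww ∣ c.Wt true k a - c.Wt false k a := by
  obtain ⟨d1, d2, -⟩ := c.dvd_m0 (k + 1)
  have h3 := h2.of_mul_right_left
  obtain ⟨x, hx⟩ := c.phi.cong a h1 (h3.of_isCoprime_of_dvd_right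
    ((Nat.cast_dvd_cast (mul_dvd_mul_right (by decide : 3 ∣ 9) _)).trans d2))
  obtain ⟨y, hy⟩ := t2_w3.trans ((dvd_pow_self 3 k.succ_ne_zero).trans (iv_spec (t2_star fun d =>
    g1_w.not_isUnit (h3.isUnit_of_dvd' d (t2_w3.trans d1)))))
  obtain ⟨z, hz⟩ := t2_w3.trans (pow_one (3 : O) ▸ t2_star2 (j := 1) (b := 1)
    (by rw [pow_one]; exact prim_iff.1 h1))
  rw [star_one] at hz
  rw [Wt, Wt, ← sub_mul, ← map_sub, ← map_sub, Cb.W0, Cb.W0, Tht]
  exact (map_dvd C (map_dvd oW (⟨x + c.φ a * (y - iv (k + 1) (star a) * z), by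
    linear_combination hx + c.φ a * (hy - iv (k + 1) (star a) * hz)⟩ : w ∣ _))).mul_right _

theorem md_Fk (y : Bool) {J : Ideal La} (h : aa k ≤ J) (f : ZMod (3 ^ (k + 1)) →+* La ⧸ J) :
    md J (c.Fk y k) = FE f (c.m k) c.α.π (c.Wq y J k) := by
  funext g
  rw [RingHom.ext_zmod f ((Ideal.Quotient.factor h).comp (fa k))]
  exact (congrArg (Ideal.Quotient.factor h) (congrFun (md_lft _) g)).trans (FE_map _ _)

theorem md_F1 {J : Ideal La} (h : aa k ≤ J) (f : ZMod (3 ^ (k + 1)) →+* La ⧸ J) :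
    md J (c.F1 k) = FY f (c.m1 k) c.α.π (c.Wq false J k) := by
  funext g
  rw [RingHom.ext_zmod f ((Ideal.Quotient.factor h).comp (fa k))]
  exact (congrArg (Ideal.Quotient.factor h) (congrFun (md_lft _) g)).trans (FF_map _ _)

theorem Fk_down (h : j ≤ k) (f : ZMod (3 ^ (k + 1)) →+* La ⧸ JX j) :
    ∃ z x, ∀ g ∈ G, md (JX j) (c.Fk true k) g =
      z * FE f (c.m0 (j + 1)) c.α.π (c.Wq true (JX j) k) g +
        (md (JX j) (c.ρ true true k) g - 1) * x := by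
  have e : c.m0 (k + 1) = c.m0 (j + 1) * 3 ^ (k - j) := by
    rw [c.m0_eq, c.m0_eq, mul_assoc, ← pow_add]
    congr 2
    omega
  have h0 : (3 : O) ^ (k - j) ≠ 0 := pow_ne_zero _ three_ne
  have h1 := (c.kb true k).cop
  rw [m, e] at h1
  obtain ⟨x, hx⟩ := (c.kb0 h).ram f h0 fun p hp d => (hp.dvd_of_dvd_pow d).trans (c.dvd_m0 _).1
  obtain ⟨y, hy⟩ := ((c.kb0 h).up h0 h1.of_mul_left_left.of_mul_left_right).euler f (c.lv k).lam
    (e ▸ c.nd_m0 _ _ (c.nd_M' _ (c.lv k).nd)) h1.of_mul_left_right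
  refine ⟨1 - md (JX j) (c.θ true k) (c.lv k).lam.φ,
    (1 - md (JX j) (c.θ true k) (c.lv k).lam.φ) * x + y, fun g hg => ?_⟩
  rw [c.md_Fk true (aa_le_sup h _) f, m, e, hy g hg, hx g hg, c.cy_θ true f hg]
  ring

variable {c}

theorem Stg.zc_Fk (s : c.Stg n) (y : Bool) (k : ℕ) :
    Zc G (md (aa k) (c.ρ y true k)) (md (aa k) (c.Fk y k)) ∧
      Unr (s.ts y true k) (md (aa k) (c.Fk y k)) := by
  rw [Fk, md_lft]
  exact ⟨((c.kb y k).zc (fa k)).congr (fun g hg => (c.cy_θ y _ hg).symm) fun _ _ => rfl,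
    fun v hv σ hσ => (c.kb y k).unr _ hv.1 (s.off_ts hv).1 hσ⟩

theorem Stg.zc_F1 (s : c.Stg n) (k : ℕ) :
    Zc G (md (aa k) (c.ρ false true k)) (md (aa k) (c.F1 k)) ∧
      Unr (s.ts false true k) (md (aa k) (c.F1 k)) := by
  rw [F1, md_lft]
  exact ⟨((c.mu k).zc (fa k)).congr (fun g hg => by rw [c.Wq_cm k hg, c.cy_θ false _ hg])
    fun _ _ => rfl, fun v hv σ hσ => (c.mu k).unr _ hv.1 (s.off_ts hv).2.1 hσ⟩

theorem Stg.zc_kp (s : c.Stg n) (y : Bool) (k : ℕ) :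
    Zc G (md (aa k) (c.ρ y true k)) (md (aa k) (s.kp y k)) ∧
      Unr (s.ts y true k) (md (aa k) (s.kp y k)) := by
  rw [Stg.kp, md_lft]
  exact ⟨(kol_zc (fa k) (s.good k y) (c.kb y k)).congr (fun g hg => (c.cy_θ y _ hg).symm)
    fun _ _ => rfl, fun v hv σ hσ => kol_unr _ (s.good k y) (c.kb y k) hv.1 (s.off_ts hv).2.2 hσ⟩

theorem Stg.kp_zero (s : c.Stg 0) (y : Bool) (k : ℕ) (hg : g ∈ G) : s.kp y k g -
    ((c.ρ y true k c.g0 - 1) * c.Fk y k g - (c.ρ y true k g - 1) * c.Fk y k c.g0) ∈ aa k := by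
  have h := s.good k y
  have h1 := c.cy_θ (k := k) y (fa k) h.mem
  rw [h.cy0, map_one, one_mul] at h1
  refine Ideal.Quotient.eq.1 ((congrFun (md_lft _) g).trans ?_)
  rw [s.J0] at h ⊢
  rw [kol_empty _ h (c.kb y k) hg, c.cy_θ y _ hg, h1, ← c.md_Fk y le_rfl]
  simp only [md, map_sub, map_mul, map_one]

theorem Stg.kp_cong (s : c.Stg n) (k : ℕ) (hg : g ∈ G) :
    s.kp true k g - s.kp false k g ∈ Ideal.span {ww} ⊔ aa k := by
  have h : aa k ≤ Ideal.span {ww} ⊔ aa k := le_sup_right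
  have e : ∀ {x x' : La}, ww ∣ x - x' → Ideal.Quotient.factor h (Ideal.Quotient.mk _ x) =
      Ideal.Quotient.factor h (Ideal.Quotient.mk _ x') := fun d =>
    Ideal.Quotient.eq.2 (Ideal.mem_sup_left (Ideal.mem_span_singleton.2 d))
  obtain ⟨h0, h3⟩ := (s.good k true).ne (c.kb true k)
  refine Ideal.Quotient.eq.1 ((congrArg (Ideal.Quotient.factor h) (congrFun (md_lft _) g)).trans
    (.trans ?_ (congrArg (Ideal.Quotient.factor h) (congrFun (md_lft _) g)).symm))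
  rw [kol, kol, kap_map, kap_map, map_sub, map_sub, md, md, e (x' := c.θ false k c.g0) (by
    rw [θ, θ, ← sub_mul]
    exact ((c.lv k).ρ_cong _ c.g0_mem).mul_right _)]
  refine kap_congr _ (fam_Im h0 h3 c.α.red _) hg fun P hP => ?_
  rw [WJ, WJ, map_mul, map_mul, Wq, Wq,
    e (c.Wq_cong k (co_prim h0 h3 hP) (co_cop h0 hP).of_mul_right_left)]

end Cx

end Pool.Agent.Lib.MP_696deb_nt.EV.D
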