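import Pool.Agent.Lib.MP_696deb_nt.ED.T1

/-! The tower: the data of the limit argument. -/

set_option autoImplicit false

open scoped Classical NNReal
open Finset PowerSeries

namespace Pool.Agent.Lib.MP_696deb_nt.EV.D

namespace Cx

variable (c : Cx)

/-- The elements that may be approximated by Frobenius elements of new primes. -/
noncomputable def Stg.N {c : Cx} {n : ℕ} (s : c.Stg n) : Subgroup GG where
  carrier := {x | ∀ k, s.InN k (x k)}
  one_mem' k := Stg.InN.one s k
  mul_mem' h h' k := (h k).mul (h' k) (Subtype.prop _) (Subtype.prop _)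
  inv_mem' h k := (h k).inv (Subtype.prop _)

/-- The data. -/
noncomputable def dat : Dat GG c.κ where
  ρ y b := limH (c.ρ y b) (c.chr y b)
  g0 := fun _ => ⟨c.g0, c.g0_mem⟩
  e := eeL c.d
  St := c.Stg
  gen s := s.γ
  φ s i := φL s.t i.pr
  L s y b := LL (s.L y b)
  R s y b i j := ul fun k => s.rw y b k i j
  Z s y b := ZL (s.ts y b) (c.ρ y b)
  u s i := uL s.t i.pr
  N s := s.N
  kap s y := lim (s.kp y)
  W y := WL c.d (c.ρ y false)
  s0 := c.s0
  F y := lim (c.Fk y)
  k i := ul fun k => c.ks k (ee c.d i)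
  t i := ul fun k => c.tf k (c.ty i)
  B' i j := ul fun k => c.bf k (c.s0.L false true k) (c.ty i) j
  F' := lim c.F1
  v := hf c.d

end Cx

end Pool.Agent.Lib.MP_696deb_nt.EV.D
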