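import Pool.Agent.Lib.MP_696deb_nt.ED.T2
import Pool.Agent.Lib.MP_696deb_nt.ED.T3
import Pool.Agent.Lib.MP_696deb_nt.EV.T5

/-! The tower: new primes. -/

set_option autoImplicit false

open scoped Classical NNReal
open Finset Matrix PowerSeries

namespace Pool.Agent.Lib.MP_696deb_nt.EV.D

theorem t5_pw {R : Type} [CommRing R] {d : ℤ} {ρ f : Gam → R} (h : Zc G ρ f) (hρ : Ch d ρ) {x : Gam}
    (hx : x ∈ G) (h1 : ρ x = 1) (a : ℕ) : f (x ^ a) = a * f x := by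
  induction a with
  | zero => rw [pow_zero, hρ.zc_one h, Nat.cast_zero, zero_mul]
  | succ a ih =>
    rw [pow_succ', h.2 _ hx _ (pow_mem hx a), ih, h1, one_smul, Nat.cast_succ]
    ring

namespace Cx

variable {c : Cx} {n : ℕ}

theorem Stg.t5_pow {s : c.Stg n} {k : ℕ} {x : Gam} (hx : x ∈ G) (h : s.InN k x) (a : ℕ) :
    s.InN k (x ^ a) := by
  induction a with
  | zero => rw [pow_zero]; exact .one s k
  | succ a ih => rw [pow_succ]; exact ih.mul h (pow_mem hx a) hx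

theorem Stg.t5_J (s : c.Stg n) {k : ℕ} {t : TP} (h : ∀ i, (s.t k i).π ≠ t.π) :
    ∀ r ∈ s.J k, r.t.π ≠ t.π := fun r hr => by
  obtain ⟨i, -, e⟩ := s.ofJ k r hr
  exact e ▸ h i

theorem t5_spt {k : ℕ} {J : Finset (DP (k + 1))} {r : DP (k + 1)} (hr : r ∈ J)
    (h : Good (c.m k) c.α.π (md (aa k) (c.θ false k)) c.g0 J) : Spt c.d r.t.v := by
  refine (spt_iff c.fd fun e => h.nd r hr ((e.trans (c.dvd_m0 _).2.2.2).mul_right _)).2
    ((chi_or _ _).resolve_right fun e => ?_)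
  have h1 := (c.chr false true k).unit r.t.φ_mem e
  rw [← c.cy_θ false (fa k) r.t.φ_mem, k2_cy r, h.th r hr, map_one, one_mul, sub_self] at h1
  exact not_isUnit_zero h1

theorem t5_St {y b : Bool} {j : Jx (Option c.ι) n} :
    c.St y b (n := n + 1) (some j) ↔ c.St y b j :=
  exists_congr fun _ => and_congr_left' Option.some_inj

/-- A new prime at level `k`. -/
theorem Stg.exists_dp (s : c.Stg n) (k : ℕ) {x : Gam} (hx : x ∈ G) (h : s.InN k x)
    {U : Subgroup Gam} (hU : Nice U) : ∃ (r : DP (k + 1)) (a : ℕ) (φ : Gam), ¬ 3 ∣ a ∧ φ ∈ G ∧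
      φ⁻¹ * x ^ a ∈ U ∧ φ⁻¹ * r.t.φ ∈ Ine r.t.v ∧ (∀ i, (s.t k i).π ≠ r.t.π) ∧
      ∀ y, Good (c.m k) c.α.π (md (aa k) (c.θ y k)) c.g0 (insert r (s.J k)) := by
  obtain ⟨V, hV, hV'⟩ := s.nice k
  obtain ⟨t, a, ha, hB, hn, hm⟩ := cheb (hU.inf hV) hx
    (insert c.α.v.p (univ.image fun i => (s.t k i).v.p))
  have h1 : ∀ i, (s.t k i).π ≠ t.π := fun i => t5_ne fun e =>
    hB (mem_insert_of_mem (mem_image.2 ⟨i, mem_univ _, e⟩))
  have h2 : c.α.π ≠ t.π := t5_ne fun e => hB (e ▸ mem_insert_self _ _)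
  have h3 : ∀ i, (c.t0 k i).π ≠ t.π := fun i => s.base k i ▸ h1 _
  have hJ := s.t5_J h1
  have hφ : s.InN k t.φ := by
    have := (Stg.t5_pow hx h a).mul ((hV' _ hm.2).inv (hV.le hm.2)) (pow_mem hx a)
      (inv_mem (hV.le hm.2))
    rwa [_root_.mul_inv_rev, inv_inv, mul_inv_cancel_left] at this
  have hq : 3 ^ (k + 1 + 1) ∣ nm t.π - 1 := by
    have h4 : 1 ≤ nm t.π := by have := t.nm_mod; omega
    have h5 := hφ.cy
    rw [cy, t.cyc_φ, map_natCast] at h5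
    rw [← ZMod.natCast_eq_zero_iff, Nat.cast_sub h4, Nat.cast_one]
    exact sub_eq_zero.2 h5
  obtain ⟨z⟩ := exists_ix t k.succ_pos hq
  have hσ : t.σ ^ (-z.ig t.φ).val ∈ Ine t.v := pow_mem t.σ_ine _
  have hσ' := ine_le t.odd hσ
  have hN : ¬ t.π ∣ c.m k := c.nd_m k t (c.nd_M' t fun i => h3 (some i)) (h3 none)
  refine ⟨⟨t.adj _ hσ, z.adj _ hσ⟩, a, t.φ, fun e => absurd
    (Nat.eq_one_of_dvd_coprimes ha e (by decide)) (by decide), t.φ_mem, hm.1, ?_, h1, fun y => ?_⟩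
  · change t.φ⁻¹ * (t.φ * _) ∈ _
    rwa [inv_mul_cancel_left]
  have g := s.good k y
  refine ⟨g.mem, g.cy0, forall_mem_insert .. |>.2 ⟨hN, g.nd⟩,
    forall_mem_insert .. |>.2 ⟨?_, g.cop⟩, forall_mem_insert .. |>.2 ⟨?_, g.th⟩,
    forall_mem_insert .. |>.2 ⟨?_, g.ig0⟩,
    forall_mem_insert .. |>.2 ⟨forall_mem_insert .. |>.2 ⟨t5_adj z, fun r hr => ?_⟩,
      fun r hr => forall_mem_insert .. |>.2 ⟨?_, g.ig r hr⟩⟩,
    forall_mem_insert .. |>.2 ⟨forall_mem_insert .. |>.2 ⟨fun _ => rfl,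
      fun r hr e => absurd e.symm (hJ r hr)⟩, fun r hr => forall_mem_insert .. |>.2
        ⟨fun e => absurd e (hJ r hr), g.inj r hr⟩⟩⟩
  · exact t.prime.coprime_iff_not_dvd.2 (t.not_dvd _ h2.symm)
  · have e := c.cy_θ y (k := k) (fa k) (mul_mem t.φ_mem hσ')
    rw [show cy (k + 1) (t.φ * _) = 1 from k2_cy ⟨t.adj _ hσ, z.adj _ hσ⟩, map_one, one_mul,
      (c.chr y true k).mul _ t.φ_mem _ hσ', md, md, md, c.ρ_ine y true t.odd (t.V_eq.2 hN) hσ,
      ← map_mul, mul_one, Ideal.Quotient.eq.2 (hφ.ρ y true), map_one] at e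
    exact e
  · exact z.ig_ine (c.tp c.i0).odd (t5_V (h3 (some c.i0)).symm) c.g0_ine
  · change r.x.ig (t.φ * _) = 0
    rw [r.x.hom_ig _ t.φ_mem _ hσ', hφ.ig r hr, r.x.ig_ine t.odd (t5_V (hJ r hr)) hσ, add_zero]
  · have h4 := t.not_dvd _ (hJ r hr).symm
    obtain ⟨u, hu⟩ := pow_of_fix t hn h4 (hφ.rt r hr)
    have h5 : ¬ t.π ∣ u := fun e => h4 (by
      simpa using dvd_add hu (dvd_pow e (pow_pos three_pos (k + 1)).ne'))
    change z.ig r.t.φ = 0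
    rw [z.ig_frob _ (hJ r hr), z.per _ _ hu, z.pow h5, ZMod.natCast_self, zero_mul]

/-- The next stage. -/
theorem Stg.exists_ex (s : c.Stg n) (r : ∀ k, DP (k + 1)) (h1 : ∀ k i, (s.t k i).π ≠ (r k).t.π)
    (h2 : ∀ k y, Good (c.m k) c.α.π (md (aa k) (c.θ y k)) c.g0 (insert (r k) (s.J k))) :
    ∃ s' : c.Stg (n + 1), s.Ex s' ∧ ∀ k, s'.t k none = (r k).t := by
  let t : ℕ → Option (Jx (Option c.ι) n) → TP := fun k o => o.elim (r k).t (s.t k)
  let γ : Option (Jx c.κ n) ⊕ Fin 2 → GG :=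
    Sum.elim (fun o => o.elim (fun k => ⟨(r k).t.σ, (r k).t.σ_mem⟩) fun i => s.γ (.inl i))
      fun i => s.γ (.inr i)
  have hγ (j : Jx c.κ n ⊕ Fin 2) : γ (old j) = s.γ j := by rcases j with i | i <;> rfl
  have hs (k : ℕ) : Spt c.d (t k none).v := t5_spt (mem_insert_self _ _) (h2 k false)
  have h0 (y : Bool) (k : ℕ) : ∀ σ ∈ Ine (t k none).v, md (aa k) (c.ρ y true k) σ - 1 = 0 :=
    fun σ hσ => by
      rw [md, c.ρ_ine y true (r k).t.odd ((r k).t.V_eq.2 ((h2 k y).nd _ (mem_insert_self _ _))) hσ,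
        map_one, sub_self]
  have hg (k : ℕ) : Gens c.d (t k) fun j => γ j k :=
    (s.gens k).step (fun _ => rfl) (hs k) (t5_off (h1 k)) (fun j => by rw [hγ]) rfl
  choose L0 hL0 using fun y k => exists_val (hg k) (c.chr y false k)
  choose N N' hN hN' using fun k =>
    (s.val2 k).ext (wI_ne k) (c.chr true true k) (c.chr false true k) (t' := t k) (fun _ => rfl)
      (hs k) (fun σ hσ => ⟨h0 true k σ hσ, h0 false k σ hσ⟩) (γ' := fun j => γ j k)
      (fun j => by rw [hγ]) rfl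
  let M : Bool → ℕ → Gam → Option (Jx c.κ n) ⊕ Fin 2 → La := fun y k g =>
    Sum.elim (fun o => o.elim (Quotient.out (cond y N N' k g (.inl none)))
      fun i => s.L y true k g (.inl i)) fun i => s.L y true k g (.inr i)
  have hM (k : ℕ) : mdL (aa k) (M true k) = N k ∧ mdL (aa k) (M false k) = N' k := by
    constructor <;> funext g j <;> rcases j with (_ | i) | i
    exacts [Ideal.Quotient.mk_out _, (hN' k g (.inl i)).1.symm, (hN' k g (.inr i)).1.symm,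
      Ideal.Quotient.mk_out _, (hN' k g (.inl i)).2.symm, (hN' k g (.inr i)).2.symm]
  have hL (y : Bool) (k : ℕ) : mdL (aa k) (fun g j => Quotient.out (L0 y k g j)) = L0 y k :=
    funext₂ fun _ _ => Ideal.Quotient.mk_out _
  refine ⟨⟨t, γ, fun k => insert (r k) (s.J k),
    fun y b => cond b (M y) fun k g j => Quotient.out (L0 y k g j), s.base, fun k i hi => ?_,
    fun k r' hr => ?_, fun k i j e => ?_, h2, fun k i hi => ?_, hg, fun y k => ?_, fun k => ?_⟩,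
    ⟨fun _ _ => rfl, hγ, fun y k g j => ?_,
      fun k => ⟨r k, fun h => s.t5_J (h1 k) _ h rfl, rfl, rfl⟩⟩, fun _ => rfl⟩
  · rcases i with _ | i
    · exact ⟨r k, mem_insert_self _ _, rfl⟩
    · exact (s.toJ k i hi).imp fun _ h => ⟨mem_insert_of_mem h.1, h.2⟩
  · rcases mem_insert.1 hr with rfl | hr
    · exact ⟨none, trivial, rfl⟩
    · obtain ⟨i, h⟩ := s.ofJ k r' hr
      exact ⟨some i, h⟩
  · rcases i with _ | i <;> rcases j with _ | j
    exacts [rfl, absurd e.symm (h1 k j), absurd e (h1 k i), congrArg some (s.inj k i j e)]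
  · rcases i with _ | i
    exacts [rfl, s.γ_deep k i hi]
  · exact (hL y k).symm ▸ hL0 y k
  · have := hN k
    rw [← (hM k).1, ← (hM k).2] at this
    exact this
  · rcases j with i | i <;> rfl

theorem Stg.Ex.t5_kp {s : c.Stg n} {s' : c.Stg (n + 1)} (h : s.Ex s') (y : Bool) (k : ℕ) :
    s'.kp y k (s'.t k none).σ + s.kp y k (s'.t k none).φ ∈ aa k := by
  obtain ⟨r, hr, e, hJ⟩ := h.J k
  have := kol_σ (fa k) (hJ ▸ s'.good k y) (c.kb y k) hr
  rw [← Ideal.Quotient.eq_zero_iff_mem, map_add, ← e]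
  change md _ (lft _) _ + md _ (lft _) _ = 0
  rw [md_lft, md_lft, hJ, this, neg_add_cancel]

theorem Stg.Ex.t5_rw {s : c.Stg n} {s' : c.Stg (n + 1)} (h : s.Ex s') (y : Bool) (k : ℕ)
    (i : Jx c.κ n) (j : Jx c.κ n ⊕ Fin 2) : s'.rw y true k (some i) (old j) = s.rw y true k i j := by
  change rowF _ _ _ _ _ ((c.tyn i).map (Option.map some)) _ = rowF _ _ _ _ _ (c.tyn i) _
  rcases c.tyn i with _ | _ | a
  · rfl
  · exact sum_congr rfl fun _ _ => by rw [h.L]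
  · simp only [Option.map_some, rowF, t5_St, h.t, h.L]

theorem Stg.t5_γ (s : c.Stg (n + 1)) :
    c.dat.gen s (.inl none) = fun k => ⟨(s.t k none).σ, (s.t k none).σ_mem⟩ :=
  funext fun k => Subtype.ext (s.γ_deep k none trivial)

theorem Stg.Ex.ext {s : c.Stg n} {s' : c.Stg (n + 1)} (h : s.Ex s') : c.dat.Ext s s' where
  gen := h.γ
  φ i := funext fun k => Subtype.ext (congrArg TP.φ (h.t k i.pr))
  L y g j := congrArg ul (funext fun k => h.L y k _ j)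
  R y i j := congrArg ul (funext fun k => h.t5_rw y k i j)
  le _ _ _ := ZL_le fun k v hv => ⟨hv.1, fun j => by
    have := hv.2 ⟨some j.1, mt t5_St.1 j.2⟩
    rwa [ts, sb, h.t] at this⟩
  zero _ _ _ := s'.t5_γ ▸ ZL_zero _ fun k => off_sb (t5_off fun i e =>
    Option.some_ne_none i (s'.inj k _ _ (h.t k i ▸ e)))
  unr y b _ hI := s'.t5_γ ▸ ZL_unr (c.chr y b) hI _ (fun k v hv => by
      obtain ⟨u, rfl⟩ := exists_tp_v hv.1
      refine (em _).symm.imp (fun e => ⟨hv.1, ?_⟩) u.V_lt.2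
      rintro ⟨_ | j, hj⟩
      · exact u.V_eq.2 e
      · rw [ts, sb, h.t]
        exact hv.2 ⟨j, mt t5_St.2 hj⟩)
    (fun k => (s'.deep y b k (j := none) trivial).1) fun k σ hσ => by
      rw [(s'.deep y b k (j := none) trivial).2.2.1 σ hσ, sub_self]
      exact zero_mem _
  kap y := s'.t5_γ ▸ (ul_congr (.of_forall fun k => by
    rw [sub_neg_eq_add]
    exact h.t5_kp y k)).trans (ul_neg _)

variable (c)

theorem ok_step : ∀ {n : ℕ} (s : c.dat.St n), ∀ x ∈ c.dat.N s, ∀ (m : ℕ) (f : Fin m → GG → La)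
    (y b : Fin m → Bool) (J : Fin m → Ideal La),
    (∀ i, J i ≠ ⊤ ∧ f i ∈ c.dat.Z s (y i) (b i) (J i)) →
    ∃ (s' : c.dat.St (n + 1)) (t : La), c.dat.Ext s s' ∧ IsUnit t ∧
      ∀ i, f i (c.dat.φ s' none) - t * f i x ∈ J i := by
  intro n s x hx m f y b J hf
  choose z hz e using fun i => (hf i).2
  obtain ⟨jj, j1, j2, j3⟩ := diag fun j => Filter.eventually_all.2 fun i => hz i j
  have hU (k : ℕ) : ∃ U, Nice U ∧ ∀ u ∈ U, ∀ i,
      Zc G (md (J i ⊔ aa (jj k)) (c.ρ (y i) (b i) k)) (md (J i ⊔ aa (jj k)) (z i k)) →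
        md (J i ⊔ aa (jj k)) (z i k) u = 0 := nice_fin fun i => by
    by_cases h : Zc G (md (J i ⊔ aa (jj k)) (c.ρ (y i) (b i) k)) (md (J i ⊔ aa (jj k)) (z i k))
    · have := lo2_sup (hf i).1 (jj k)
      obtain ⟨U, h1, h2⟩ := nice_zc ((c.chr (y i) (b i) k).fac (aa_le_sup (j1 k) _)) h
      exact ⟨U, h1, fun u hu _ => (h2 u hu).1⟩
    · exact ⟨G, nice_G, fun _ _ h' => absurd h' h⟩
  choose U hU hU' using hU
  choose r a φ a1 a2 a3 a4 a5 a6 using fun k => Stg.exists_dp s k (x k).2 (hx k) (hU k)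
  obtain ⟨s', h1, h2⟩ := Stg.exists_ex s r a5 a6
  refine ⟨s', ul fun k => (a k : La), h1.ext, ul_unit (.of_forall fun k => t5_unit (a1 k)),
    fun i => ?_⟩
  rw [e i, lim, lim, ← ul_mul, ← ul_sub, ul_mem_iff]
  refine fun j => (j2.and (j3 j)).mono fun k hk => sup_le_sup_left (aa_anti hk.2) _ ?_
  obtain ⟨b1, b2⟩ := hk.1 i
  have l := aa_le_sup (j1 k) (J i)
  rw [← Ideal.Quotient.eq, map_mul, map_natCast]
  change md _ (z i k) (s'.t k none).φ = _ * md _ (z i k) (x k)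
  rw [h2, t5_mul b1 (a2 k) (r k).t.φ_mem (b2 _ (off_sb (t5_off (a5 k))) _ (a4 k)),
    ← t5_mul b1 (a2 k) (pow_mem (x k).2 _) (hU' k _ (a3 k) i b1),
    t5_pw b1 ((c.chr (y i) (b i) k).fac l) (x k).2
      ((Ideal.Quotient.eq.2 (l ((hx k).ρ (y i) (b i)))).trans (map_one _))]

theorem ok_kap_mem : ∀ {n : ℕ} (s : c.dat.St n) (y : Bool),
    c.dat.kap s y ∈ c.dat.Z s y true ⊥ :=
  fun s y => (LC.of (Stg.zc_kp s y) ⊥).lim_mem

theorem ok_kap_φ : ∀ {n : ℕ} (s : c.dat.St n) (y : Bool) (i : Jx c.κ n), i.deep →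
    c.dat.kap s y (c.dat.φ s i) = 0 := by
  refine fun s y i hi => (ul_congr (.of_forall fun k => ?_)).trans (ul_const 0)
  obtain ⟨r, hr, e⟩ := Stg.toJ s k i.pr (Jx.pr_deep hi)
  rw [sub_zero, ← Ideal.Quotient.eq_zero_iff_mem]
  change md _ (lft _) (Stg.t s k i.pr).φ = 0
  rw [md_lft, ← e, kol_φ (fa k) (Stg.good s k y) (c.kb y k) hr]

theorem ok_F_mem : ∀ y, c.dat.F y ∈ c.dat.Z c.dat.s0 y true ⊥ :=
  fun y => (LC.of (Stg.zc_Fk c.s0 y) ⊥).lim_mem

theorem ok_kap0 : ∀ y g, c.dat.kap c.dat.s0 y g = c.dat.hat y true (c.dat.F y) g := by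
  refine fun y g => (ul_congr (.of_forall fun k => Stg.kp_zero c.dat.s0 y k (g k).2)).trans ?_
  rw [ul_sub, ul_mul, ul_mul, ul_sub, ul_sub, ul_const]
  rfl

theorem ok_cg_kap : ∀ {n : ℕ} (s : c.dat.St n) g,
    ww ∣ c.dat.kap s true g - c.dat.kap s false g := fun s g =>
  Ideal.mem_span_singleton.1 (ul_sub _ _ ▸ ul_mem_iff.2 fun j => (ev_ge j).mono fun k hk =>
    sup_le_sup_left (aa_anti hk) _ (Stg.kp_cong s k (g k).2))

theorem ok_F'_mem : c.dat.F' ∈ c.dat.Z c.dat.s0 false true ⊥ :=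
  (LC.of (Stg.zc_F1 c.s0) ⊥).lim_mem

end Cx

end Pool.Agent.Lib.MP_696deb_nt.EV.D
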