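import Pool.Agent.Lib.MP_696deb_nt.ED.K0
import Pool.Agent.Lib.MP_696deb_nt.ED.T5
import Pool.Agent.Lib.MP_696deb_nt.Y3.KStep

/-! Special primes exist. -/

set_option autoImplicit false

open scoped Classical NNReal
open Finset PowerSeries

namespace Pool.Agent.Lib.MP_696deb_nt.EV.D

theorem ks_split (t : TP) (h : ¬ (7 : ℤ) ∣ t.π.im) : nm t.π = t.v.p := by
  refine (g1_nm t.prime t.lt).resolve_right fun e => h ?_
  obtain ⟨c, e'⟩ := t.dvd_p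
  have h4 := g1_nm_mul t.π c
  rw [← e', g1_nm_nat, e, left_eq_mul₀ (pow_ne_zero 2 t.v.prime.ne_zero), g1_nm_one] at h4
  have h5 := congrArg QuadraticAlgebra.im (prim_assoc (EW.prim_star t.prim) t.prim
    ((CL.f3_pstar t.prime).associated_of_dvd t.prime (h4.dvd_mul_right.1
      ⟨star c, by rw [← star_mul', ← e', star_natCast]⟩)))
  rw [QuadraticAlgebra.im_star] at h5
  omega

theorem ks_nd {t : TP} {s : ℕ} (x : Ix t s) : ¬ t.π ∣ 7 := fun e => by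
  have h1 := (Nat.prime_dvd_prime_iff_eq t.v.prime (by norm_num)).1 (c8_dvd (n := 7) t e)
  have h2 := (pow_dvd_pow 3 (show 2 ≤ _ + 1 from Nat.add_le_add_right x.pos 1)).trans x.dvd
  rcases g1_nm t.prime t.lt with k | k <;> rw [k, h1] at h2 <;> exact absurd h2 (by decide)

namespace Cx

variable (c : Cx)

theorem exists_y {i : c.ι} (h5 : ¬ (c.tp i).π ∣ 7)
    (h6 : ¬ 3 ∣ c.t.N.factorization (c.tp i).v.p) : ∃ y ∈ G, y (rt3 1 (io ka)) ≠ rt3 1 (io ka) ∧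
    y (rt3 1 (io (star ka))) = rt3 1 (io (star ka)) ∧
    ∀ k, y (rt3 (k + 1) (io w)) = rt3 (k + 1) (io w) ∧ ∀ s : c.Stg 0, s.InN k y := by
  obtain ⟨t, ht⟩ := exists_tp ka_prime.1 ka_prim.1
  obtain ⟨b, hb⟩ := ks_three (u := kk c.t.c7.N t.σ) (EV.rho0_sigma c.t.c7 _ h6)
  have o := (c.tp i).odd
  have h3 : (c.tp i).σ ^ b ∈ Ine (c.tp i).v := pow_mem (c.tp i).σ_ine b
  have h4 := ine_le o h3
  rw [← mul_one (oW _), ← psi_ine t.odd t.σ_ine, ← EV.rho0, ← ks_pow _ (c.tp i).σ_mem,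
    ← EV.rho0_mul _ t.σ_mem h4] at hb
  rw [psi_ine t.odd t.σ_ine] at hb
  have z0 := mul_mem t.σ_mem h4
  have z1 : ∀ {e : ℕ} {a : O}, t.v.V (io a) = 1 → (c.tp i).v.V (io a) = 1 →
      ((t.σ * (c.tp i).σ ^ b) ^ 2) (rt3 e (io a)) = rt3 e (io a) := fun k1 k2 => by
    simp only [sq, AlgEquiv.mul_apply, ks_ine o h3 _ k2, ks_ine t.odd t.σ_ine _ k1]
  have z2 : cyc ((t.σ * (c.tp i).σ ^ b) ^ 2) = 1 := by
    rw [sq, H3.cyc_mul, H3.cyc_mul, t.cyc_σ, H3.cyc_ine o h3, one_mul, one_mul]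
  refine ⟨(t.σ * (c.tp i).σ ^ b) ^ 2, pow_mem z0 2, fun e => ?_, z1 (t.V_eq.2 fun k => ?_)
    ((c.tp i).V_eq.2 fun k => h5 (k.trans ka_dvd.2)), fun k => ⟨z1 (p1_V_w t.odd) (p1_V_w o),
      fun s => ⟨fun y j => ?_, by rw [cy, z2, map_one], by simp [s.J0], by simp [s.J0]⟩⟩⟩
  · obtain ⟨V, v, v'⟩ := nice_root 1 (io_fx ka)
    replace e := ks_odd v v' z0 (by decide) e
    rw [AlgEquiv.mul_apply, ks_ine o h3 1 ((c.tp i).V_eq.2 fun k => h5 (k.trans ka_dvd.1)),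
      ← ht] at e
    exact chC_sigma t ((chC_zero t.σ_mem (rt3_pow 1 _)).2 e)
  · exact absurd (prim_assoc t.prim ka_prim.2 (t.prime.associated_of_dvd ka_prime.2 k))
      (by rw [ht]; decide)
  · have h6 : (c.lv k).lam.π ≠ t.π := fun e => ks_nd (c.lv k).x (e ▸ ht ▸ ka_dvd.1)
    have h7 : xq c.d Ow ((t.σ * (c.tp i).σ ^ b) ^ 2) = 1 := by rw [sq, xq_mul, xq_sq]
    have h8 : rho0 c.t ((t.σ * (c.tp i).σ ^ b) ^ 2) = 1 := by
      rw [c7_rho, h7, ks_pow _ z0, hb, one_pow, one_mul]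
    rw [ρ, (c.lv k).ρ_of_ig y j (by
      rw [sq, (c.lv k).x.hom_ig _ z0 _ z0, (c.lv k).x.hom_ig _ t.σ_mem _ h4,
        (c.lv k).x.ig_ine t.odd (t5_V h6) t.σ_ine,
        (c.lv k).x.ig_ine o (t5_V ((c.lv k).nd i).symm) h3, add_zero, add_zero])]
    cases y <;> cases j <;> simp [Cb.r0, h7, h8, z2]

variable {c}

theorem Stg.exists_dp1 (s : c.Stg 0) (k : ℕ) {x : Gam} (hx : x ∈ G) (h : s.InN k x)
    (h1 : x (rt3 1 (io ka)) ≠ rt3 1 (io ka))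
    (h1' : x (rt3 1 (io (star ka))) = rt3 1 (io (star ka)))
    (h2 : x (rt3 (k + 1) (io w)) = rt3 (k + 1) (io w))
    {U : Subgroup Gam} (hU : Nice U) : ∃ (r : DP (k + 1)) (a : ℕ) (φ : Gam), ¬ 3 ∣ a ∧ φ ∈ G ∧
      φ⁻¹ * x ^ a ∈ U ∧ φ⁻¹ * r.t.φ ∈ Ine r.t.v ∧ (∀ i, (s.t k i).π ≠ r.t.π) ∧
      (∀ y, Good (c.m k) c.α.π (md (aa k) (c.θ y k)) c.g0 (insert r (s.J k))) ∧
      (∀ z : Ix r.t (k + 1), z.ind w = 0) ∧ AdmR c.φ r.t (k + 1) := by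
  obtain ⟨V1, v1, v1'⟩ := nice_root (k + 1) (io_fx w)
  obtain ⟨V2, v2, v2'⟩ := nice_root 1 (io_fx ka)
  obtain ⟨V3, v3, v3'⟩ := nice_root 1 (io_fx (star ka))
  obtain ⟨r, a, φ, a1, a2, ⟨a3, m1, m2, m3⟩, a4, a5, a6⟩ :=
    s.exists_dp k hx h (hU.inf (.of (v1.inf (v2.inf v3))))
  have n7 := ks_nd r.x
  have fix {e : ℕ} {b : O} (hb : ¬ r.t.π ∣ b)
      (m : (φ⁻¹ * x ^ a) (rt3 e (io b)) = rt3 e (io b)) :
      r.t.φ (rt3 e (io b)) = (x ^ a) (rt3 e (io b)) := by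
    have k1 := congrArg φ (ks_ine r.t.odd a4 e (r.t.V_eq.2 hb))
    have k2 := congrArg φ m
    rw [← AlgEquiv.mul_apply, mul_inv_cancel_left] at k1 k2
    exact k1.trans k2.symm
  have h7 := ks_seven r.t n7 (fun e => h1 (ks_odd v2 v2' hx a1
      ((fix (fun k => n7 (k.trans ka_dvd.1)) (v2' _ m2)).symm.trans e)))
    ((fix (fun k => n7 (k.trans ka_dvd.2)) (v3' _ m3)).trans
      ((MulAction.stabilizer Gam _).pow_mem h1' a))
  refine ⟨r, a, φ, a1, a2, a3, a4, a5, a6, fun y => ?_, ks_split _ h7, ?_, h7⟩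
  · have h4 : ¬ r.t.π ∣ w := r.t.V_eq.1 (p1_V_w r.t.odd)
    obtain ⟨z, hz⟩ := pow_of_fix r.t (ks_split _ h7) h4 ((fix h4 (v1' _ m1)).trans
      ((MulAction.stabilizer Gam _).pow_mem h2 a))
    have h5 : ¬ r.t.π ∣ z := fun e => h4 (by
      simpa using dvd_add hz (dvd_pow e (pow_pos three_pos (k + 1)).ne'))
    rw [y.per _ _ hz, y.pow h5, ZMod.natCast_self, zero_mul]
  · have h3 := c.cy_θ (k := k) true (fa k) r.t.φ_mem
    rw [k2_cy r, map_one, one_mul, (a6 true).th r (mem_insert_self _ _)] at h3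
    have h4 := mem_aa.1 (t1_md.2 h3.symm) 0 k.zero_le
    have h5 : ¬ r.t.π ∣ c.m0 (k + 1) := fun e =>
      (a6 true).nd r (mem_insert_self _ _) (e.mul_right _)
    rw [coeff_zero_eq_constantCoeff_apply, map_sub, map_one, c.ρ_const, Cb.r0, rho0, psi_frob,
      ← c.phi.link _ (c.m0_ne (k + 1)) (c.dvd_m0 _).2.1 _ r.t.φ_mem,
      c.phi.per _ _ ((c.dvd_m0 _).2.1.trans (cm_frob r.t h5)), ← map_mul, ← map_one oW,
      ← map_sub] at h4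
    exact dvd_oW.1 h4

variable (c)

theorem ok_step1 {i : c.ι} (h5 : ¬ (c.tp i).π ∣ 7)
    (h6 : ¬ 3 ∣ c.t.N.factorization (c.tp i).v.p) : ∃ (N : Subgroup GG) (z : GG),
    N ≤ c.dat.N c.dat.s0 ∧ z ∈ c.dat.N c.dat.s0 ∧ (∀ g, cmt c.dat.g0 (cmt c.dat.g0 g) ∈ N) ∧
    ∀ x ∈ N, ∀ (m : ℕ) (f : Fin m → GG → La) (y b : Fin m → Bool) (J : Fin m → Ideal La),
    (∀ i, J i ≠ ⊤ ∧ f i ∈ c.dat.Z c.dat.s0 (y i) (b i) (J i)) →
    ∃ (s : c.dat.St 1) (t : La), c.dat.Ext c.dat.s0 s ∧ c.Sp s ∧ IsUnit t ∧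
      ∀ i, f i (c.dat.φ s none) - t * f i (z * x) ∈ J i := by
  obtain ⟨y, y0, y1, y1', y2⟩ := c.exists_y h5 h6
  let N : Subgroup GG := c.dat.N c.dat.s0 ⊓ ⨅ k, (MulAction.stabilizer Gam (rt3 (k + 1) (io w)) ⊓
    (MulAction.stabilizer Gam (rt3 1 (io ka)) ⊓
      MulAction.stabilizer Gam (rt3 1 (io (star ka))))).comap (G.subtype.comp (Pi.evalMonoidHom _ k))
  refine ⟨N, fun _ => ⟨y, y0⟩, inf_le_left, fun k => (y2 k).2 _, fun g =>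
    ⟨fun k => Stg.inN_cmt _ k (g k).2, Subgroup.mem_iInf.2 fun k =>
      ⟨comm_root _ (io_fx w) c.g0_mem (g k).2 c.cyc_g0,
        comm_root _ (io_fx _) c.g0_mem (g k).2 c.cyc_g0,
        comm_root _ (io_fx _) c.g0_mem (g k).2 c.cyc_g0⟩⟩, fun x0 hx0 m f u b J hf => ?_⟩
  have x3 := Subgroup.mem_iInf.1 hx0.2
  obtain ⟨x, ex⟩ : ∃ x : GG, x = (fun _ => ⟨y, y0⟩) * x0 := ⟨_, rfl⟩
  have x4 (k : ℕ) : (x k : Gam) = y * x0 k := ex ▸ rfl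
  have x1 (k : ℕ) : (x k : Gam) (rt3 1 (io ka)) ≠ rt3 1 (io ka) := by
    rwa [x4, AlgEquiv.mul_apply, show (x0 k : Gam) _ = _ from (x3 k).2.1]
  have x1' (k : ℕ) : (x k : Gam) (rt3 1 (io (star ka))) = rt3 1 (io (star ka)) := by
    rwa [x4, AlgEquiv.mul_apply, show (x0 k : Gam) _ = _ from (x3 k).2.2]
  have x2 (k : ℕ) : (x k : Gam) (rt3 (k + 1) (io w)) = rt3 (k + 1) (io w) := by
    rw [x4, AlgEquiv.mul_apply, show (x0 k : Gam) _ = _ from (x3 k).1, (y2 k).1]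
  rw [← ex]
  let s : c.Stg 0 := c.dat.s0
  have hx (k : ℕ) : s.InN k (x k) := x4 k ▸ ((y2 k).2 s).mul (hx0.1 k) y0 (x0 k).2
  choose z hz e using fun i => (hf i).2
  obtain ⟨jj, j1, j2, j3⟩ := diag fun j => Filter.eventually_all.2 fun i => hz i j
  have hU (k : ℕ) : ∃ U, Nice U ∧ ∀ v ∈ U, ∀ i,
      Zc G (md (J i ⊔ aa (jj k)) (c.ρ (u i) (b i) k)) (md (J i ⊔ aa (jj k)) (z i k)) →
        md (J i ⊔ aa (jj k)) (z i k) v = 0 := nice_fin fun i => by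
    by_cases h : Zc G (md (J i ⊔ aa (jj k)) (c.ρ (u i) (b i) k)) (md (J i ⊔ aa (jj k)) (z i k))
    · have := lo2_sup (hf i).1 (jj k)
      obtain ⟨U, h1, h2⟩ := nice_zc ((c.chr (u i) (b i) k).fac (aa_le_sup (j1 k) _)) h
      exact ⟨U, h1, fun u hu _ => (h2 u hu).1⟩
    · exact ⟨G, nice_G, fun _ _ h' => absurd h' h⟩
  choose U hU hU' using hU
  choose r a φ a1 a2 a3 a4 a5 a6 a7 a8 using
    fun k => Stg.exists_dp1 s k (x k).2 (hx k) (x1 k) (x1' k) (x2 k) (hU k)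
  obtain ⟨s', h1, h2⟩ := Stg.exists_ex s r a5 a6
  refine ⟨s', ul fun k => (a k : La), h1.ext, fun k => ?_,
    ul_unit (.of_forall fun k => t5_unit (a1 k)), fun i => ?_⟩
  · obtain ⟨⟨t, v⟩, -, k1, k2⟩ := h1.J k
    obtain rfl : t = (r k).t := k1.trans (h2 k)
    exact ⟨_, by rw [k2, Stg.J0]; rfl, k1, a7 k v, a8 k⟩
  rw [e i, lim, lim, ← ul_mul, ← ul_sub, ul_mem_iff]
  refine fun j => (j2.and (j3 j)).mono fun k hk => sup_le_sup_left (aa_anti hk.2) _ ?_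
  obtain ⟨b1, b2⟩ := hk.1 i
  have l := aa_le_sup (j1 k) (J i)
  rw [← Ideal.Quotient.eq, map_mul, map_natCast]
  change md _ (z i k) (s'.t k none).φ = _ * md _ (z i k) (x k)
  rw [h2, t5_mul b1 (a2 k) (r k).t.φ_mem (b2 _ (off_sb (t5_off (a5 k))) _ (a4 k)),
    ← t5_mul b1 (a2 k) (pow_mem (x k).2 _) (hU' k _ (a3 k) i b1),
    t5_pw b1 ((c.chr (u i) (b i) k).fac l) (x k).2
      ((Ideal.Quotient.eq.2 (l ((hx k).ρ (u i) (b i)))).trans (map_one _))]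

end Cx

end Pool.Agent.Lib.MP_696deb_nt.EV.D
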