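import Pool.Agent.Lib.MP_696deb_nt.ED.T3
import Pool.Agent.Lib.MP_696deb_nt.EV.T4

/-! The tower: the reciprocity law. -/

set_option autoImplicit false

open scoped Classical NNReal
open Finset Matrix PowerSeries

namespace Pool.Agent.Lib.MP_696deb_nt.EV.D

theorem t4r_one {J J' : Ideal La} (h : J ≤ J') {r : Gam → La} {g : Gam} (k : md J r g - 1 = 0) :
    md J' r g - 1 = 0 :=
  sub_eq_zero.2 (Ideal.Quotient.eq.2 (h (Ideal.Quotient.eq.1 (sub_eq_zero.1 k))))

theorem t4r_geo {J J' : Ideal La} (h : J ≤ J') {ρ : Gam → La} {r : TP} (k : Geo (md J ρ) r) :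
    Geo (md J' ρ) r := by
  have := congrArg (Ideal.Quotient.factor h) k
  simp only [map_sum, map_pow, map_zero] at this
  exact this

theorem t4r_rq (J : Ideal La) (ρ : Gam → La) (r : TP) :
    rq (md J ρ) r = Ideal.Quotient.mk J (rq ρ r) := by
  simp only [rq, md, map_sub, map_sum, map_pow]

namespace Cx

variable {c : Cx} {n k : ℕ}

theorem Stg.t4r_fin (s : c.Stg n) (y : Bool) {J : Ideal La} (hJ : aa k ≤ J) (hJ' : J ≠ ⊤) {e : ℕ}
    (he : e ≤ k + 1) (f : ZMod (3 ^ e) →+* La ⧸ J)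
    {p p' : Gam → La ⧸ J} (hp : Zc G (md J (c.ρ y true k)) p) (hu : Unr (s.ts y true k) p)
    (hp' : Zc G (md J (c.ρ y false k)) p') (hu' : Unr (s.ts y false k) p')
    (hr : ∀ i, c.Rm i →
      (∃ x, ∀ g ∈ G ⊓ Dec (c.tp i).v, p' g = (md J (c.ρ y false k) g - 1) * x) ∨
      ∀ σ ∈ Ine (c.tp i).v, md J (c.ρ y true k) σ - 1 = 0 ∧ p' σ = 0 ∧ p σ = 0)
    (hw : ∀ l : La ⧸ J →+ ZMod (3 ^ e), Spl e Hw (cupR l (md J (c.ρ y true k)) p' p)) :
    ∑ j : Jx (Option c.ι) n with j.deep, f (du e (s.t k j)) *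
      (p' (s.t k j).φ * p (s.t k j).σ - p' (s.t k j).σ * p (s.t k j).φ) = 0 := by
  have := lo2_of hJ hJ'
  have b := (c.chr y true k).fac hJ
  have b' := (c.chr y false k).fac hJ
  have ns : ∀ r : TP, ¬ Spt c.d r.v →
      ∃ x, ∀ g ∈ G ⊓ Dec r.v, p' g = (md J (c.ρ y false k) g - 1) * x :=
    fun r h => acy b' r.odd h (hp'.mono inf_le_left)
  refine recip f (s.inj k) b' b ((c.dual y).symm.cy hJ f)
    (fun v hv σ hσ => t4r_one hJ (s.unr y true k v (off_sb hv) σ hσ)) Jx.deep (fun j hj => ?_)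
    (fun j hj => ?_) hp' (unr_le (fun _ => off_sb) hu') hp (unr_le (fun _ => off_sb) hu) hw
  · obtain ⟨h0, h1, h2, h3⟩ := s.deep y false k hj
    refine ⟨h0, Ideal.Quotient.eq.2 (hJ h1), ?_, ?_⟩
    · rw [md, h2 _ (s.t k j).σ_ine, map_one]
    · rw [p3_pos, Nat.cast_succ, (ZMod.natCast_eq_zero_iff _ _).2
        ((pow_dvd_pow 3 (he.trans (k + 1).le_succ)).trans h3), zero_add]
  · obtain ⟨o, rfl⟩ := Jx.not_deep.1 hj
    rw [s.base]
    rcases o with _ | i
    · exact .inl (ns _ (c.lv k).ns)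
    · by_cases h : Spt c.d (c.tp i).v
      · by_cases h' : (c.tp i).π ∣ (c.t.N : O)
        · exact hr i ⟨h, h'⟩
        · have o1 := s.off_st (y := y) (b := true) ⟨h, .inl h'⟩ k
          have o2 := s.off_st (y := y) (b := false) ⟨h, .inl h'⟩ k
          exact .inr fun σ hσ =>
            ⟨t4r_one hJ (s.unr y true k _ o1 σ hσ), hu' _ o2 σ hσ, hu _ o1 σ hσ⟩
      · exact .inl (ns _ h)

/-- The reciprocity law at finite level. The factor `a` kills the local classes of the dual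
system of the curve, or the ramification of the classes of the system of the units. -/
theorem Stg.recip_fin (s : c.Stg n) (y : Bool) {J : Ideal La} (hJ : aa k ≤ J) (hJ' : J ≠ ⊤) {e : ℕ}
    (he : e ≤ k + 1) (f : ZMod (3 ^ e) →+* La ⧸ J) {a : La ⧸ J}
    (ha : ∀ i, c.Rm i → (y = true → md J (c.ρ true false k) (c.tp i).σ - 1 ∣ a ∨
      md J (c.ρ true false k) (c.tp i).φ - 1 ∣ a) ∧
        (y = false → rq (md J (c.ρ false true k)) (c.tp i) ∣ a))
    {p p' : Gam → La ⧸ J} (hp : Zc G (md J (c.ρ y true k)) p) (hu : Unr (s.ts y true k) p)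
    (hp' : Zc G (md J (c.ρ y false k)) p') (hu' : Unr (s.ts y false k) p')
    (hw : ∀ l : La ⧸ J →+ ZMod (3 ^ e),
      Spl e Hw (cupR l (md J (c.ρ y true k)) (fun g => a * p' g) p)) :
    a * ∑ j : Jx (Option c.ι) n with j.deep, f (du e (s.t k j)) *
      (p' (s.t k j).φ * p (s.t k j).σ - p' (s.t k j).σ * p (s.t k j).φ) = 0 := by
  have := lo2_of hJ hJ'
  cases y
  · have h := s.t4r_fin false hJ hJ' he f (p := fun g => a * p g) (hp.smul a)
      (fun v hv σ hσ => by
        change a * p σ = 0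
        rw [hu v hv σ hσ, mul_zero]) hp' hu' (fun i hi => .inr fun σ hσ => ?_) fun l => ?_
    · rw [← h, mul_sum]
      exact sum_congr rfl fun j _ => by ring
    · have e1 : ∀ σ ∈ Ine (c.tp i).v, md J (c.ρ false true k) σ = 1 := fun σ hσ => by
        rw [md, c.ρ_tp _ _ k i hσ, c.r0_ine' true (c.tp i).odd hi.1 hσ, map_one, map_one]
      obtain ⟨z, rfl⟩ := (ha i hi).2 rfl
      refine ⟨by rw [e1 σ hσ, sub_self],
        hu' _ (s.off_st ⟨hi.1, .inr ⟨rfl, rfl⟩⟩ k) σ hσ, ?_⟩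
      have e2 := rq_ine ((c.chr false true k).fac hJ) hi.1 (e1 _ (c.tp i).σ_ine)
        (hp.mono inf_le_left) σ hσ
      rw [smul_eq_mul] at e2
      change _ * z * p σ = 0
      rw [mul_right_comm, e2, zero_mul]
    · convert hw l using 1
      funext g h
      simp only [cupR]
      congr 1
      ring
  · have h := s.t4r_fin true hJ hJ' he f (p' := fun g => a * p' g) hp hu (hp'.smul a)
      (fun v hv σ hσ => by
        change a * p' σ = 0
        rw [hu' v hv σ hσ, mul_zero]) (fun i hi => .inl ?_) hw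
    · rw [← h, mul_sum]
      exact sum_congr rfl fun j _ => by ring
    · have b := (c.chr true false k).fac hJ
      have q := t4r_geo hJ (c.geo false k hi)
      rcases (ha i hi).1 rfl with ⟨z, rfl⟩ | ⟨z, rfl⟩
      · refine ⟨p' (c.tp i).σ * z, fun g hg => ?_⟩
        have e2 := cob_σ b hi.1 q (hp'.mono inf_le_left) g hg
        simp only [smul_eq_mul] at e2
        linear_combination z * e2
      · refine ⟨p' (c.tp i).φ * z, fun g hg => ?_⟩
        have e2 := cob_φ b hi.1 q (hp'.mono inf_le_left) g hg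
        simp only [smul_eq_mul] at e2
        linear_combination z * e2

variable (c)

theorem t4r_δ {y : Bool} {I : Ideal La} (hI : Gd y I) : ∃ δ : c.ι → ℕ → La, ∀ i, c.Rm i →
    ul (δ i) ∉ I ∧ ∀ k, (y = true → δ i k = c.ρ true false k (c.tp i).σ - 1 ∨
      δ i k = c.ρ true false k (c.tp i).φ - 1) ∧
        (y = false → δ i k = rq (c.ρ false true k) (c.tp i)) := by
  cases y
  · obtain ⟨h1, h2⟩ := hI.resolve_right fun h => Bool.false_ne_true h.1
    refine ⟨fun i k => rq (c.ρ false true k) (c.tp i), fun i hi =>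
      ⟨fun e => ?_, fun k => ⟨fun h => absurd h Bool.false_ne_true, fun _ => rfl⟩⟩⟩
    choose u hu hu' using fun k => c.rq_X k hi.1
    simp only [hu'] at e
    rw [ul_mul, ul_const] at e
    exact h2 rfl ((I.mul_unit_mem_iff_mem (ul_unit (.of_forall hu))).1 e)
  · rcases hI with ⟨h1, -⟩ | ⟨-, rfl⟩
    · refine ⟨fun i k => c.ρ true false k (c.tp i).σ - 1, fun i hi =>
        ⟨?_, fun k => ⟨fun _ => .inl rfl, fun h => absurd h.symm Bool.false_ne_true⟩⟩⟩
      rw [lima_one, funext fun k => c.ρ_tp true false k i (c.tp i).σ_ine, ul_const,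
        ← map_one (C : Ow →+* La), ← map_sub]
      exact h1.C_notMem (c.r0_σ false hi).2.1
    · refine ⟨fun i k => c.ρ true false k (c.tp i).φ - 1, fun i hi =>
        ⟨?_, fun k => ⟨fun _ => .inr rfl, fun h => absurd h.symm Bool.false_ne_true⟩⟩⟩
      rw [lima_one, Ideal.mem_span_singleton]
      exact (c.tu_ρ true false (fun _ => (c.tp i).φ)
        (fun _ => hi.1.le (c.tp i).tm.φ_mem) (.of_forall fun k => c.ig_φ k i)).not_dvd

theorem ok_recip : ∀ y I, Gd y I → ∀ {n : ℕ} (s : c.dat.St n), ∀ f ∈ c.dat.Z s y true I,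
    ∀ f' ∈ c.dat.Z s y false I, (∀ i, f' (c.dat.e i) ∈ I) → ∑ i : Jx c.κ n with i.deep,
      c.dat.u s i * (f' (c.dat.φ s i) * f (c.dat.gen s (.inl i)) -
        f' (c.dat.gen s (.inl i)) * f (c.dat.φ s i)) ∈ I := by
  rintro y I hG n (s : c.Stg n) _ ⟨p, hp, rfl⟩ _ ⟨p', hp', rfl⟩ h0
  have hI : I.IsPrime := hG.elim (fun h => h.1.1) fun h =>
    h.2 ▸ (Ideal.span_singleton_prime prime_ww.ne_zero).2 prime_ww
  obtain ⟨δ, hδ⟩ := c.t4r_δ hG
  refine (hI.mem_or_mem (lima_of (fun k => (∏ i with c.Rm i, δ i k) *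
    ∑ i : Jx c.κ n with i.deep, ((du (k + 1) (s.t k i.pr)).val : La) *
      (p' k (s.t k i.pr).φ * p k (s.γ (.inl i) k) - p' k (s.γ (.inl i) k) * p k (s.t k i.pr).φ))
    (x := (∏ i with c.Rm i, ul (δ i)) * _)
    (by simp only [ul_mul, ul_prod, ul_sum, ul_sub]; rfl) fun j => ?_)).resolve_left
    fun h => ?_
  · refine ((((hp j).and (hp' j)).and (ev_ge j)).and (Filter.eventually_all.2 fun i =>
      lima_to _ rfl (h0 i) j)).mono fun k ⟨⟨⟨a, a'⟩, hk⟩, z⟩ => ?_
    have := lo2_sup hI.ne_top j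
    have e := aa_le_sup hk I
    have b := (c.chr y true k).fac e
    have b' := (c.chr y false k).fac e
    have h4 := s.recip_fin y e (sup_ne_top hI.ne_top j) le_rfl (fz (two_pow_zero e))
      (a := Ideal.Quotient.mk _ (∏ i with c.Rm i, δ i k)) (fun i hi => by
        have h5 := map_dvd (Ideal.Quotient.mk (I ⊔ aa j)) (dvd_prod_of_mem (fun i => δ i k)
          (mem_filter.2 ⟨mem_univ i, hi⟩ : i ∈ univ.filter fun i => c.Rm i))
        refine ⟨fun r => (((hδ i hi).2 k).1 r).imp (fun q => ?_) fun q => ?_, fun r => ?_⟩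
        · rw [q] at h5
          exact h5
        · rw [q] at h5
          exact h5
        · rw [t4r_rq, ← ((hδ i hi).2 k).2 r]
          exact h5) a.1 a.2 a'.1 a'.2
      (spl_cupR _ inf_le_left b' b ((c.dual y).symm.cy e (fz (two_pow_zero e))) (x := 0)
        (fun g hg => by rw [zero_ee b' (a'.1.mono inf_le_left) z g hg, mul_zero, mul_zero])
        (a.1.mono inf_le_left))
    rw [← Jx.sum_pr (κ := c.κ)] at h4
    simp only [hom_val] at h4
    rw [map_mul, map_sum, ← h4]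
    refine congrArg _ (sum_congr rfl fun i hi => ?_)
    rw [s.γ_deep k i (mem_filter.1 hi).2]
    simp only [map_mul, map_sub, map_natCast, md]
  · obtain ⟨i, h5, h6⟩ := Ideal.IsPrime.prod_mem_iff.1 h
    exact (hδ i (mem_filter.1 h5).2).1 h6

end Cx

end Pool.Agent.Lib.MP_696deb_nt.EV.D
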