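import Pool.Agent.Lib.MP_696deb_nt.ED.T3
import Pool.Agent.Lib.MP_696deb_nt.ED.T4r
import Pool.Agent.Lib.MP_696deb_nt.ED.Ind
import Pool.Agent.Lib.MP_696deb_nt.ED.Sel
import Pool.Agent.Lib.MP_696deb_nt.EV.T8

/-! The tower: the Selmer group. -/

set_option autoImplicit false

open scoped Classical NNReal
open Finset Matrix PowerSeries

namespace Pool.Agent.Lib.MP_696deb_nt.EV.D

namespace Cx

variable (c : Cx) {g : Gam} {j k : ℕ}

theorem xi_ρ (j k : ℕ) (hg : g ∈ G) (z : La ⧸ JX j) :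
    xi j (md (JX j) (c.ρ true false k) g * z) = c.t.tw g (xi j z) := by
  obtain ⟨a, ha⟩ := exists_ap (j + 1) (rho0 c.t g)
  have e : md (JX j) (c.ρ true false k) g = oq (JX j) (star a) := Ideal.Quotient.eq.2 (mem_X_sup.2 (by
    have := t7_star ha
    rw [star_sub, ← oW_star] at this
    rwa [map_sub, c.ρ_const, Cb.r0, RingHom.comp_apply, constantCoeff_C]))
  rw [e, xi_mul, star_star, tw_rho0 c.t hg (xi_tor j z) ha]

theorem xi_cob (j k : ℕ) (hg : g ∈ G) (z : La ⧸ JX j) :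
    xi j ((md (JX j) (c.ρ true false k) g - 1) * z) = c.t.cob (xi j z) g := by
  rw [sub_mul, one_mul, xi_sub, c.xi_ρ j k hg, Tw.cob]

theorem xi_ks (h : j ≤ k) (hg : g ∈ Hw) :
    xi j (md (JX j) (c.ks k) g) = c.t.cob ((3 : O) ^ (k - j) • c.Q1 (k + 1)) g := by
  have e : (3 : O) ^ (k + 1) = 3 ^ (k - j) * 3 ^ (j + 1) := by
    rw [← pow_add, ← add_assoc, Nat.sub_add_cancel h]
  have k0 : (3 : O) ^ (k + 1) • c.t.cob (c.Q1 (k + 1)) g = 0 := by
    rw [← sel_cob _ hg.1, c.Q1_spec, Tw.cob, c.Q_fix g hg, sub_self]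
  refine (xi_oq j _).trans ?_
  rw [star_star, sel_cob _ hg.1, ← EW.tq_eq _ (t7_ne _), ← EW.tq_mul (t7_ne (k - j)) _ (t7_ne _),
    ← e, ← EW.smul_tq _ _ (t7_ne _), co_spec (t7_ne _) k0]

theorem xi_km (h : j ≤ k) (hg : g ∈ Hw) (z : La ⧸ JX j) (b : O) :
    xi j (z * (md (JX j) (c.ρ true false k) g - 1) + oq (JX j) b * md (JX j) (c.ks k) g) =
      c.t.cob (xi j z + star b • (3 : O) ^ (k - j) • c.Q1 (k + 1)) g := by
  rw [xi_add, mul_comm z, c.xi_cob j k hg.1, xi_mul, c.xi_ks h hg, sel_add,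
    sel_cob _ hg.1 (star b)]

theorem zc_ks (h : j ≤ k) : Zc Hw (md (JX j) (c.ρ true false k)) (md (JX j) (c.ks k)) := by
  refine ⟨(coc_cob c.t Hw (c.Q1 (k + 1))).1.comp fun P => oq (JX j) (star (co (3 ^ (k + 1)) P)),
    fun g hg g' hg' => xi_inj ?_⟩
  rw [xi_add, smul_eq_mul, c.xi_ρ j k hg.1, c.xi_ks h hg, c.xi_ks h hg', c.xi_ks h (mul_mem hg hg'),
    (coc_cob c.t Hw _).2]

theorem ok_k_mem : c.dat.k ∈ c.dat.W true (Ideal.span {X}) :=
  ⟨c.ks, fun j => (ev_ge j).mono fun _ h => c.zc_ks h, rfl⟩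

/-- The local form of a cocycle whose values at three are Kummer values. -/
theorem km_loc {f : ℕ → Gam → La} (hf : LW (c.ρ true false) (Ideal.span {X}) f) {a x y : La}
    (h : ∀ i, a * lim f (eeL c.d i) - (x * (lim (c.ρ true false) (eeL c.d i) - 1) + y * c.dat.k i) ∈
      Ideal.span {(X : La)}) (j : ℕ) :
    ∀ᶠ k in UU, ∀ g ∈ Hw, a * f k g - (x * (c.ρ true false k g - 1) + y * c.ks k g) ∈ JX j := by
  have e : ∀ i, ∀ᶠ k in UU,
      a * f k (ee c.d i) - (x * (c.ρ true false k (ee c.d i) - 1) + y * c.ks k (ee c.d i)) ∈ JX j := fun i => by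
    refine ul_mem_iff.1 ?_ j
    rw [ul_sub, ul_add, ul_mul, ul_mul, ul_mul, ul_sub, ul_const, ul_const, ul_const, ul_const]
    exact h i
  refine (((Filter.eventually_all.2 e).and (hf j)).and (ev_ge j)).mono fun k hk g hg => ?_
  have := pr_X.lo2 j
  have r : Ch c.d (md (JX j) (c.ρ true false k)) := (c.chr true false k).fac (aa_le_sup hk.2 _)
  have m : ∀ g, Ideal.Quotient.mk (JX j) (a * f k g - (x * (c.ρ true false k g - 1) + y * c.ks k g)) =
      Ideal.Quotient.mk (JX j) a • md (JX j) (f k) g -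
        ((md (JX j) (c.ρ true false k) g - 1) • Ideal.Quotient.mk (JX j) x +
          Ideal.Quotient.mk (JX j) y • md (JX j) (c.ks k) g) := fun g => by
    simp only [md, map_sub, map_add, map_mul, map_one, smul_eq_mul, mul_comm]
  exact Ideal.Quotient.eq_zero_iff_mem.1 ((m g).trans (zero_ee r ((hk.1.2.smul _).sub
    ((r.cob inf_le_left _).add ((c.zc_ks hk.2).smul _)))
      (fun i => (m _).symm.trans (Ideal.Quotient.eq_zero_iff_mem.2 (hk.1.1 i))) g hg))

theorem ok_ind : ∀ x y : La, (∀ i, x * (c.dat.ρ true false (c.dat.e i) - 1) + y * c.dat.k i ∈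
    Ideal.span {(X : La)}) → y ∈ Ideal.span {(X : La)} := by
  intro x y h
  obtain ⟨n, hn⟩ := ind_dvd c.t c.Q_mem c.Q_ne c.Q_deep
  refine mem_span_X.2 (eq_zero_Ow fun e => ?_)
  obtain ⟨k, h1, h2⟩ := ((c.km_loc (a := 0) (x := x) (y := y) LW.zero
    (fun i => by rw [zero_mul, zero_sub]; exact neg_mem (h i)) (e + n)).and (ev_ge (e + n))).exists
  obtain ⟨b, hb⟩ := oq_surj (e + n) (Ideal.Quotient.mk _ y)
  have k1 := hn (e + 1) (star b) _ (fun g hg => sub_eq_zero.1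
    ((c.xi_km h2 hg (Ideal.Quotient.mk _ x) b).symm.trans (xi_eq_zero.2 (by
      have := Ideal.Quotient.eq_zero_iff_mem.2 (h1 g hg)
      rw [zero_mul, zero_sub, map_neg, neg_eq_zero, map_add, map_mul, map_mul, map_sub,
        map_one] at this
      rwa [hb])))) (by
    rw [add_right_comm, smul_add, xi_tor, zero_add, smul_comm, smul_smul ((3 : O) ^ _), ← pow_add,
      add_right_comm, Nat.add_sub_cancel' h2, c.Q1_spec])
  have k2 := mem_X_sup.1 (Ideal.Quotient.eq.1 hb)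
  rw [map_sub, RingHom.comp_apply, constantCoeff_C] at k2
  have k3 : (3 : Ow) ^ e ∣ oW b :=
    dvd_oW.2 ((pow_dvd_pow 3 e.le_succ).trans (star_star b ▸ t7_star k1))
  simpa using k3.sub ((pow_dvd_pow 3 (by omega)).trans k2)

/-- The element that kills the local cohomology at the bad primes. -/
noncomputable def δ : La := C (∏ i with c.Rm i, (c.r0 true false (c.tp i).σ - 1))

theorem δ_notMem : c.δ ∉ Ideal.span {(X : La)} := fun h => by
  rw [mem_span_X, δ, constantCoeff_C, prod_eq_zero_iff] at h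
  obtain ⟨i, hi, e⟩ := h
  exact (c.r0_σ false (mem_filter.1 hi).2).2.1 e

theorem dvd_δ (J : Ideal La) (k : ℕ) {i : c.ι} (hi : c.Rm i) :
    md J (c.ρ true false k) (c.tp i).σ - 1 ∣ Ideal.Quotient.mk J c.δ := by
  have e := map_dvd ((Ideal.Quotient.mk J).comp C)
    (dvd_prod_of_mem (fun i => c.r0 true false (c.tp i).σ - 1) (mem_filter.2 ⟨mem_univ i, hi⟩))
  rw [map_sub, map_one] at e
  rw [md, c.ρ_tp true false k i (c.tp i).σ_ine]
  exact e

theorem sel_fin (h : CX.GroA c.t.tw 2) : ∃ n : ℕ, ∀ j k, j ≤ k → ∀ f : Gam → La,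
    Zc G (md (JX j) (c.ρ true false k)) (md (JX j) f) →
    Unr (c.s0.ts true false k) (md (JX j) f) → ∀ x y : La,
    (∀ g ∈ Hw, f g - (x * (c.ρ true false k g - 1) + y * c.ks k g) ∈ JX j) → ∀ g ∈ G,
    3 ^ n * c.δ * ((c.ρ true false k c.g0 - 1) * f g - (c.ρ true false k g - 1) * f c.g0) ∈ JX j := by
  obtain ⟨n, hn⟩ := sel1 c.t h
  refine ⟨n, fun j k hjk f hf hu x y hl g hg => ?_⟩
  have := pr_X.lo2 j
  have hJ : aa k ≤ JX j := aa_le_sup hjk _
  have ad := (c.chr true false k).fac hJ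
  have hD := fun i => c.dvd_δ (JX j) k (i := i)
  generalize hd : Ideal.Quotient.mk (JX j) c.δ = D at hD
  have tame : ∀ i, ¬ c.St true false (n := 0) i → ∃ u, ∀ h ∈ G ⊓ Dec (c.t0 k i).v,
      D * md (JX j) f h = (md (JX j) (c.ρ true false k) h - 1) * u := by
    intro i hi
    by_cases s : Spt c.d (c.t0 k i).v
    · rcases i with _ | i
      · exact absurd s (c.lv k).ns
      have r : c.Rm i := ⟨s, by
        by_contra e
        exact hi ⟨i, rfl, s, .inl e⟩⟩
      obtain ⟨E, hE⟩ := hD i r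
      exact ⟨_, fun h hh => by
        have e := cob_σ ad s (t4r_geo hJ (c.geo false k r)) (hf.mono inf_le_left) h hh
        rw [hE, mul_right_comm]
        exact (congrArg (· * _) e).trans (mul_assoc _ _ _)⟩
    · obtain ⟨u, hu⟩ := acy ad (c.t0 k i).odd s (hf.mono inf_le_left)
      exact ⟨D * u, fun h hh => by rw [hu h hh, smul_eq_mul, mul_left_comm]⟩
  have z : Zt c.t (j + 1) fun g => xi j (D * md (JX j) f g) := by
    refine ⟨hf.1.comp fun z => xi j (D * z), fun g _ => xi_tor _ _, fun g hg h hh => ?_,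
      fun v => ?_⟩
    · rw [hf.2 g hg h hh, mul_add, xi_add, smul_eq_mul, mul_left_comm, c.xi_ρ j k hg]
    by_cases hv : v.p = 3
    · obtain ⟨a, ha, rfl⟩ := conj_w3 hv
      obtain ⟨b, hb⟩ := oq_surj j (D * Ideal.Quotient.mk _ y)
      refine .inl ⟨a⁻¹, inv_mem ha, xi j (D * Ideal.Quotient.mk _ x) +
        star b • (3 : O) ^ (k - j) • c.Q1 (k + 1), fun h hh => ?_⟩
      rw [inv_smul_smul] at hh
      refine Eq.trans (congrArg (xi j) ?_) (c.xi_km hjk hh (D * Ideal.Quotient.mk _ x) b)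
      rw [hb, md, Ideal.Quotient.eq.2 (hl h hh), map_add, map_mul, map_mul, map_sub, map_one,
        mul_add, mul_assoc, mul_assoc]
      rfl
    rcases off_or (c.s0.ts true false k) hv with ho | ⟨i, a, ha, rfl⟩
    · obtain ⟨r, rfl⟩ := exists_tp_v hv
      refine .inr ⟨hv, fun e => ?_, fun σ hσ => by rw [hu _ ho σ hσ, mul_zero, xi_eq_zero]⟩
      have e' := r.dvd_p.trans (Nat.cast_dvd_cast (α := O) e)
      rcases c.s0.t1_case ho with q | ⟨i, q, l⟩
      · exact q e'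
      · exact c.nd_M _ q.1 (q.2.resolve_right fun e => Bool.noConfusion e.1) (l ▸ e')
    · obtain ⟨u, e⟩ := tame i.1 i.2
      refine .inl ⟨a⁻¹, inv_mem ha, xi j u, fun h hh => ?_⟩
      rw [inv_smul_smul, Stg.ts, sb, Stg.t_zero] at hh
      rw [e h hh, c.xi_cob j k hh.1]
  obtain ⟨S, m, h1, h2⟩ := hn _ _ z
  have e : ∀ g ∈ G, xi j (oq (JX j) (3 ^ n) * (D * md (JX j) f g)) = c.t.cob S g := fun g hg => by
    rw [xi_mul, star_pow, star_ofNat, h2 g hg]
  obtain ⟨a, ha⟩ := exists_ap m (rho0 c.t g)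
  obtain ⟨b, hb⟩ := exists_ap m (rho0 c.t c.g0)
  refine Ideal.Quotient.eq_zero_iff_mem.1 (xi_eq_zero.1 ?_)
  rw [show Ideal.Quotient.mk (JX j) (3 ^ n * c.δ *
      ((c.ρ true false k c.g0 - 1) * f g - (c.ρ true false k g - 1) * f c.g0)) =
      (md (JX j) (c.ρ true false k) c.g0 - 1) * (oq (JX j) (3 ^ n) * (D * md (JX j) f g)) -
      (md (JX j) (c.ρ true false k) g - 1) * (oq (JX j) (3 ^ n) * (D * md (JX j) f c.g0)) by
    simp only [← hd, md, map_mul, map_sub, map_one, map_pow, map_ofNat]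
    ring, xi_sub, c.xi_cob j k hg, c.xi_cob j k c.g0_mem, e g hg, e _ c.g0_mem]
  simp only [Tw.cob, map_sub, tw_rho0 c.t hg h1 ha, tw_rho0 c.t c.g0_mem h1 hb,
    tw_smul c.t hg, tw_smul c.t c.g0_mem]
  rw [smul_comm a b]
  abel

theorem ok_sel (h : CX.GroA c.t.tw 2) :
    ∀ f ∈ c.dat.Z c.dat.s0 true false (Ideal.span {X}), c.dat.Km f →
      ∀ g, c.dat.hat true false f g ∈ Ideal.span {(X : La)} := by
  rintro _ ⟨f, hf, rfl⟩ ⟨d, x, y, hd, hk⟩ g
  obtain ⟨n, hn⟩ := c.sel_fin h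
  have key : ul (fun k => 3 ^ n * c.δ * ((c.ρ true false k c.g0 - 1) * (d * f k (g k)) -
      (c.ρ true false k (g k) - 1) * (d * f k c.g0))) ∈ Ideal.span {(X : La)} :=
    ul_mem_iff.2 fun j => (((hf.smul d j).and (c.km_loc (t8_lw hf) hk j)).and (ev_ge j)).mono
      fun k hk => hn j k hk.2 (fun g => d * f k g) hk.1.1.1 hk.1.1.2 x y hk.1.2 _ (g k).2
  simp only [ul_mul, ul_sub, ul_const] at key
  have k2 := (pr_X.1.mem_or_mem key).resolve_left fun k =>
    (pr_X.1.mem_or_mem k).elim (t8_two n) c.δ_notMem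
  refine (pr_X.1.mem_or_mem (x := d) ?_).resolve_left hd
  convert k2 using 1
  show d * (((ul fun k => c.ρ true false k c.g0) - 1) * (ul fun k => f k (g k)) -
    ((ul fun k => c.ρ true false k (g k)) - 1) * ul fun k => f k c.g0) = _
  ring

end Cx

end Pool.Agent.Lib.MP_696deb_nt.EV.D
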