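import Pool.Agent.Lib.MP_696deb_nt.ED.T2
import Pool.Agent.Lib.MP_696deb_nt.ED.T4r
import Pool.Agent.Lib.MP_696deb_nt.ED.T7
import Pool.Agent.Lib.MP_696deb_nt.ED.S4
import Pool.Agent.Lib.MP_696deb_nt.EV.T8

/-! The tower: the explicit reciprocity law. -/

set_option autoImplicit false

open scoped Classical NNReal
open Finset Matrix PowerSeries

namespace Pool.Agent.Lib.MP_696deb_nt.EV.D

namespace Cx

variable (c : Cx)

theorem erl_fin (hv : c.Van) : ∃ a : ℕ, ∀ j k τ, j ≤ k → 2 * j + a ≤ 3 * τ →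
    ∀ (f : ZMod (3 ^ (k + 1)) →+* La ⧸ JX j) (l : La ⧸ JX j →+ ZMod (3 ^ (j + 1))) (z : La ⧸ JX j),
    Spl (j + 1) Hw (cupR l (md (JX j) (c.ρ true true k))
      (fun g => z * (3 ^ (τ + 1) * c.t.M * md (JX j) (c.ks k) g))
      (FE f (c.m0 (j + 1)) c.α.π (c.Wq true (JX j) k))) := by
  obtain ⟨a, ha⟩ := erl_core c.phi c.α.red
    (c.α.prime.irreducible.coprime_iff_not_dvd.2 c.α_2).symm
    (c.tp c.i0).prime (c.tp c.i0).red
    (by rw [Tw.M, Nat.cast_mul]; exact (c.i0_d.trans (b1_dvd.1 dvd_rfl)).mul_left _)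
    (TP.not_dvd _ _ (c.α_ne _)) c.Q_mem c.Q_fix
  refine ⟨a + 5, fun j k τ hj hτ f l z => ?_⟩
  have kb := c.kb0 hj
  have hH : Hw ≤ G := inf_le_left
  have fm := (fam_Im kb.ne kb.w3 kb.red (k + 1)).mono hH
  have e2 : (3 : O) ^ (j + 1) * 3 ^ (k - j) = 3 ^ (k + 1) := by
    rw [← pow_add]; congr 1; omega
  have od : ∀ P ∈ Im (c.m0 (j + 1)), ¬ w ∣ co (c.m0 (j + 1)) P := fun P hP h =>
    g1_w.not_isUnit ((co_cop kb.ne hP).isUnit_of_dvd' h (w_dvd_three.trans kb.w3))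
  refine spl_congr (ha (j + 1) (j + 1 + 3) τ c.t.M _ (by rw [c.m0_eq, Int.cast_natCast])
    kb.ne (by omega) (c.dvd_m0 _).2.1 (by omega) (hv _) ((3 : O) ^ (k - j) • c.Q1 (k + 1))
    (by rw [← mul_smul, e2, c.Q1_spec])
    (l.comp ((AddMonoidHom.mulLeft z).comp (oq (JX j)).toAddMonoidHom))
    (fun P => Tht c.φ (k + 1) (co (c.m0 (j + 1)) P))
    (fun P hP => (Dvd.intro _ e2).trans (tht_spec c.φ (od P hP))) _
    ((fm.kf.congr fun P _ => (es_pow _ _ P).symm).down' (by omega))) fun g hg h _ => ?_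
  have a0 : oq (JX j) (star (co (3 ^ (j + 1)) (c.t.cob ((3 : O) ^ (k - j) • c.Q1 (k + 1)) g))) =
      md (JX j) (c.ks k) g := by
    have a4 : ((3 : O) ^ (j + 1) * 3 ^ (k - j)) • c.t.cob (c.Q1 (k + 1)) g = 0 := by
      rw [e2, Tw.cob, smul_sub, ← tw_smul _ (hH hg), c.Q1_spec, c.Q_fix g hg, sub_self]
    obtain ⟨u, hu⟩ := co_down (two_ne _) (two_ne _) a4
    rw [e2, Tw.cob, smul_sub, ← tw_smul _ (hH hg)] at hu
    refine sub_eq_zero.1 ((map_sub (oq (JX j)) _ _).symm.trans (oq_zero.2 ⟨star u, ?_⟩))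
    rw [← star_sub]
    refine (congrArg star hu).trans ?_
    rw [star_mul', star_pow, star_ofNat]
  rw [cupR, FE, FF, SS, ← fm.sum_act (inv_mem hg), mul_sum, mul_sum, map_sum, mul_sum]
  refine sum_congr rfl fun P hP => ?_
  have a1 := kb.act (hH hg) (fm.stab _ (inv_mem hg) P hP)
  rw [smul_inv_smul] at a1
  change _ = _ * (l (z * oq (JX j) _) * _ * _)
  rw [map_mul (oq _), map_mul (oq _), map_intCast, a0, show oq (JX j) (Tht c.φ (k + 1) _) = _ from
    (c.Wq_JX true j k _).symm, a1, ← c.cy_θ true f (hH hg), ← erl_cy (Nat.succ_le_succ hj),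
    ← erl_lin f, Int.cast_natCast]
  congr 1
  ring

theorem erl_lev (hv : c.Van) (s : c.Stg 1) : ∃ a : ℕ, ∀ j k τ, j ≤ k → 2 * j + a ≤ 3 * τ →
    ∀ f : Gam → La, Zc G (md (JX j) (c.ρ true false k)) (md (JX j) f) →
    Unr (s.ts true false k) (md (JX j) f) →
    ∀ x y : La, (∀ g ∈ Hw, f g - (x * (c.ρ true false k g - 1) + y * c.ks k g) ∈ JX j) →
    3 ^ (τ + 1) * (c.t.M * c.δ * (f (s.t k none).σ * c.Fk true k (s.t k none).φ)) ∈ JX j := by
  obtain ⟨a, ha⟩ := c.erl_fin hv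
  refine ⟨a, fun j k τ hjk hτ f hf hu x y hl => ?_⟩
  have hJ : aa k ≤ JX j := aa_le_sup hjk _
  have := pr_X.lo2 j
  let f0 : ZMod (3 ^ (j + 1)) →+* La ⧸ JX j := fz (two_pow_zero le_sup_right)
  let f1 : ZMod (3 ^ (k + 1)) →+* La ⧸ JX j := fz (two_pow_zero hJ)
  have hd := (c.dual true).symm.cy hJ f0
  have z1 := (s.zc_Fk true k).1.fac hJ
  obtain ⟨z, u, hz⟩ := c.Fk_down hjk f1
  obtain ⟨M, hM⟩ : ∃ M : La ⧸ JX j, M = 3 ^ (τ + 1) * c.t.M := ⟨_, rfl⟩
  obtain ⟨D, hD⟩ : ∃ D, D = Ideal.Quotient.mk (JX j) c.δ := ⟨_, rfl⟩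
  have key := s.recip_fin true hJ (Ideal.Quotient.nontrivial_iff.1 inferInstance)
    (Nat.succ_le_succ hjk) f0 (a := D) (p' := fun g => M * md (JX j) f g)
    (fun i hi => ⟨fun _ => .inl (hD ▸ c.dvd_δ _ k hi), fun h => by cases h⟩) z1
    ((s.zc_Fk true k).2.fac hJ) (hf.smul M)
    (fun v hv σ hσ => (congrArg (M * ·) (hu v hv σ hσ)).trans (mul_zero _)) fun l => by
      refine spl_mix f0 inf_le_left ((c.chr true false k).fac hJ) ((c.chr true true k).fac hJ) hd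
        (z1.mono inf_le_left) (c.zc_ks hjk)
        (x := D * M * Ideal.Quotient.mk _ x) (y := D * M * Ideal.Quotient.mk _ y)
        (fun g hg => ?_) (fun g hg => hz g hg.1) l ?_
      · have e := Ideal.Quotient.eq.2 (hl g hg)
        simp only [map_add, map_mul, map_sub, map_one] at e
        simp only [md]
        linear_combination (D * M) * e
      · refine spl_congr (ha j k τ hjk hτ f1 l (z * D * Ideal.Quotient.mk _ y)) fun g _ h _ => ?_
        rw [cupR, cupR, ← hM]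
        exact congrArg l (by ring)
  have o : Off (c.s0.ts true true k) (s.t k none).v := ⟨(s.t k none).odd, fun i => by
    rw [Stg.ts, sb, c.s0.t_zero, ← s.base]
    refine (s.t k none).V_eq.2 (TP.not_dvd _ _ fun e => ?_)
    exact Option.some_ne_none _ (s.inj k _ _ e).symm⟩
  have e1 : ∀ F : Jx (Option c.ι) 1 → La ⧸ JX j, ∑ i : Jx (Option c.ι) 1 with i.deep, F i = F none :=
    fun F => sum_eq_single_of_mem (s := univ.filter fun i : Jx (Option c.ι) 1 => i.deep)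
      (none : Option (Jx (Option c.ι) 0)) (mem_filter.2 ⟨mem_univ _, trivial⟩) fun i hi h => by
        rcases i with _ | i
        · exact absurd rfl h
        · exact (mem_filter.1 hi).2.elim
  rw [e1, (c.s0.zc_Fk true k).2.fac hJ _ o _ (s.t k none).σ_ine, mul_zero, zero_sub, mul_left_comm,
    ((du_unit _ _).map f0).mul_right_eq_zero] at key
  rw [← Ideal.Quotient.eq_zero_iff_mem]
  simp only [map_mul, map_pow, map_ofNat, map_natCast]
  simp only [md, hM, hD] at key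
  linear_combination -key

theorem ok_erl (hv : c.Van) : ∀ s : c.dat.St 1, c.dat.Ext c.dat.s0 s →
    ∀ f ∈ c.dat.Z s true false (Ideal.span {X}), c.dat.Km f →
      f (c.dat.gen s (.inl none)) * c.dat.F true (c.dat.φ s none) ∈ Ideal.span {(X : La)} := by
  rintro (s : c.Stg 1) - _ ⟨f, hf, rfl⟩ ⟨d, x, y, hd, hk⟩
  obtain ⟨a, ha⟩ := c.erl_lev hv s
  have key : ul (fun k => (c.t.M : La) * c.δ *
      (d * f k (s.t k none).σ * c.Fk true k (s.t k none).φ)) ∈ Ideal.span {(X : La)} :=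
    ul_mem_iff.2 fun j => (((hf.smul d (3 * j + a + 5)).and
      (c.km_loc (t8_lw hf) hk (3 * j + a + 5))).and (ev_ge (3 * j + a + 5))).mono fun k hk => by
        have h1 := mem_X_sup.1 (ha _ k (2 * j + a + 4) hk.2 (by omega) (fun g => d * f k g)
          hk.1.1.1 hk.1.1.2 x y hk.1.2)
        rw [map_mul, map_pow, map_ofNat,
          show 3 * j + a + 5 + 1 = 2 * j + a + 4 + 1 + (j + 1) by omega, pow_add,
          mul_dvd_mul_iff_left (pow_ne_zero _ fun e => pr_X.2 (mem_span_X.2 (by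
            rw [map_ofNat, e])))] at h1
        exact mem_X_sup.2 h1
  rw [t8_smul, ul_mul, t8_smul] at key
  have hN : (c.t.M : La) ∉ Ideal.span {(X : La)} := fun e => by
    rw [mem_span_X, map_natCast, ← map_natCast oW, ← map_zero oW] at e
    exact c.m0_ne 0 (by rw [c.m0_eq, oW_inj e, zero_mul])
  have k2 := (pr_X.1.mem_or_mem key).resolve_left fun k =>
    (pr_X.1.mem_or_mem k).elim hN c.δ_notMem
  rw [mul_assoc] at k2
  have e : c.dat.gen s (.inl none) = fun k => ⟨(s.t k none).σ, (s.t k none).σ_mem⟩ :=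
    funext fun k => Subtype.ext (s.γ_deep k none trivial)
  rw [e]
  exact (pr_X.1.mem_or_mem k2).resolve_left hd

end Cx

end Pool.Agent.Lib.MP_696deb_nt.EV.D
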