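import Pool.Agent.Lib.MP_696deb_nt.ED.K0
import Pool.Agent.Lib.MP_696deb_nt.ED.T8
import Pool.Agent.Lib.MP_696deb_nt.ED.KSel
import Pool.Agent.Lib.MP_696deb_nt.Y3.KT1

/-! Rank at most one at the bottom of the tower, with a quadratic twist. -/

set_option autoImplicit false

open scoped Classical NNReal
open Finset PowerSeries

namespace Pool.Agent.Lib.MP_696deb_nt.EV.D

theorem kt1_sum {κ M : Type} [Fintype κ] [AddCommMonoid M] (f : Jx κ 1 → M) :
    ∑ i : Jx κ 1 with i.deep, f i = f none := by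
  refine sum_eq_single_of_mem (s := univ.filter fun i : Jx κ 1 => i.deep) (none : Option (Jx κ 0))
    (mem_filter.2 ⟨mem_univ _, trivial⟩) fun i hi h => ?_
  rcases i with _ | i
  · exact absurd rfl h
  · exact (mem_filter.1 hi).2.elim

namespace Cx

variable (c : Cx)

theorem kt1_ks {j k : ℕ} {g : Gam} (h : j ≤ k) (hg : g ∈ Hw) :
    xi j (md (JX j) (c.ks k) g) = c.t.cob ((3 : O) ^ (k - j) • c.Q1 (k + 1)) g := by
  have e : (3 : O) ^ (k + 1) = 3 ^ (k - j) * 3 ^ (j + 1) := by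
    rw [← pow_add, ← add_assoc, Nat.sub_add_cancel h]
  have k0 : (3 : O) ^ (k + 1) • c.t.cob (c.Q1 (k + 1)) g = 0 := by
    rw [← sel_cob _ hg.1, c.Q1_spec, Tw.cob, c.Q_fix g hg, sub_self]
  refine (xi_oq j _).trans ?_
  rw [star_star, sel_cob _ hg.1, ← EW.tq_eq _ (t7_ne _), ← EW.tq_mul (t7_ne (k - j)) _ (t7_ne _),
    ← e, ← EW.smul_tq _ _ (t7_ne _), co_spec (t7_ne _) k0]

theorem kt1_km {j k : ℕ} {g : Gam} (h : j ≤ k) (hg : g ∈ Hw) (z : La ⧸ JX j) (b : O) :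
    xi j (z * (md (JX j) (c.ρ true false k) g - 1) + oq (JX j) b * md (JX j) (c.ks k) g) =
      c.t.cob (xi j z + star b • (3 : O) ^ (k - j) • c.Q1 (k + 1)) g := by
  rw [xi_add, mul_comm z, c.xi_cob j k hg.1, xi_mul, c.kt1_ks h hg, sel_add,
    sel_cob _ hg.1 (star b)]

theorem kt1_zt {j k : ℕ} (hjk : j ≤ k) {f : Gam → La}
    (hf : Zc G (md (JX j) (c.ρ true false k)) (md (JX j) f))
    (hu : Unr (c.s0.ts true false k) (md (JX j) f)) {x y : La}
    (hl : ∀ g ∈ Hw, f g - (x * (c.ρ true false k g - 1) + y * c.ks k g) ∈ JX j) :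
    Zt c.t (j + 1) fun g => xi j (Ideal.Quotient.mk (JX j) c.δ * md (JX j) f g) := by
  have := pr_X.lo2 j
  have hJ : aa k ≤ JX j := aa_le_sup hjk _
  have ch := (c.chr true false k).fac hJ
  have hD := fun i (hi : c.Rm i) => c.dvd_δ (JX j) k hi
  generalize Ideal.Quotient.mk (JX j) c.δ = D at hD ⊢
  have sm : Sm G fun g => xi j (D * md (JX j) f g) := hf.1.comp fun z => xi j (D * z)
  have coc : ∀ g ∈ G, ∀ h ∈ G, xi j (D * md (JX j) f (g * h)) =
      xi j (D * md (JX j) f g) + c.t.tw g (xi j (D * md (JX j) f h)) := fun g hg h hh => by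
    rw [hf.2 g hg h hh, mul_add, xi_add, smul_eq_mul, mul_left_comm, c.xi_ρ j k hg]
  have ns : ∀ r : TP, ¬ Spt c.d r.v →
      ∃ S, ∀ h ∈ G ⊓ Dec r.v, xi j (D * md (JX j) f h) = c.t.cob S h := fun r hr => by
    obtain ⟨u, e⟩ := acy ch r.odd hr (hf.mono inf_le_left)
    exact ⟨xi j (D * u), fun h hh => by
      rw [e h hh, smul_eq_mul, mul_left_comm, c.xi_cob j k hh.1]⟩
  have tame : ∀ i, ∃ S, ∀ h ∈ G ⊓ Dec (c.t0 k i).v, xi j (D * md (JX j) f h) = c.t.cob S h := by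
    rintro (_ | i)
    · exact ns _ (c.lv k).ns
    by_cases h1 : Spt c.d (c.tp i).v
    swap
    · exact ns _ h1
    by_cases h2 : (c.tp i).π ∣ (c.t.N : O)
    · obtain ⟨E, hE⟩ := hD i ⟨h1, h2⟩
      refine ⟨xi j (md (JX j) f (c.tp i).σ * E), fun h hh => ?_⟩
      have e := cob_σ ch h1 (t4r_geo hJ (c.geo false k ⟨h1, h2⟩)) (hf.mono inf_le_left) h hh
      rw [smul_eq_mul, smul_eq_mul] at e
      rw [← c.xi_cob j k hh.1, hE, mul_right_comm, e, mul_assoc]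
    · exact unr_kum c.t (c.tp i).odd
        (fun e => c.nd_M _ h1 h2 ((c.tp i).dvd_p.trans (Nat.cast_dvd_cast e)))
        (sm.mono inf_le_left) (fun g _ => xi_tor _ _) (fun g hg h hh => coc g hg.1 h hh.1)
        fun σ hσ => by
          rw [hu _ (c.s0.off_st ⟨h1, .inl h2⟩ k) σ hσ, mul_zero, xi_eq_zero]
  refine ⟨sm, fun g _ => xi_tor _ _, coc, fun v => ?_⟩
  by_cases hv : v.p = 3
  · obtain ⟨a, ha, rfl⟩ := conj_w3 hv
    obtain ⟨b, hb⟩ := oq_surj j (D * Ideal.Quotient.mk _ y)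
    refine .inl ⟨a⁻¹, inv_mem ha, xi j (D * Ideal.Quotient.mk _ x) +
      star b • (3 : O) ^ (k - j) • c.Q1 (k + 1), fun h hh => ?_⟩
    rw [inv_smul_smul] at hh
    refine Eq.trans (congrArg (xi j) ?_) (c.kt1_km hjk hh (D * Ideal.Quotient.mk _ x) b)
    rw [hb, md, Ideal.Quotient.eq.2 (hl h hh), map_add, map_mul, map_mul, map_sub, map_one,
      mul_add, mul_assoc, mul_assoc]
    rfl
  rcases off_or (c.t0 k) hv with ho | ⟨i, a, ha, rfl⟩
  · exact .inr ⟨hv, c.off ⟨hv, fun i => ho.2 (some i)⟩, fun σ hσ => by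
      rw [hu v (off_sb (c.s0.t_zero k ▸ ho)) σ hσ, mul_zero, xi_eq_zero]⟩
  · obtain ⟨S, e⟩ := tame i
    refine .inl ⟨a⁻¹, inv_mem ha, S, fun h hh => ?_⟩
    rw [inv_smul_smul] at hh
    exact e h hh

theorem kt1_fin {j : ℕ} (k : ℕ) (F : Gam → La ⧸ JX j) {S : A} {m : ℕ} (h1 : (3 : O) ^ m • S = 0)
    (e : ∀ g ∈ G, xi j (F g) = c.t.cob S g) {g : Gam} (hg : g ∈ G) :
    (md (JX j) (c.ρ true false k) c.g0 - 1) * F g -
      (md (JX j) (c.ρ true false k) g - 1) * F c.g0 = 0 := by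
  obtain ⟨a, ha⟩ := exists_ap m (rho0 c.t g)
  obtain ⟨b, hb⟩ := exists_ap m (rho0 c.t c.g0)
  refine xi_eq_zero.1 ?_
  rw [xi_sub, c.xi_cob j k hg, c.xi_cob j k c.g0_mem, e g hg, e _ c.g0_mem]
  simp only [Tw.cob, map_sub, tw_rho0 c.t hg h1 ha, tw_rho0 c.t c.g0_mem h1 hb,
    tw_smul c.t hg, tw_smul c.t c.g0_mem]
  rw [smul_comm a b]
  abel

theorem sel_fin2 (h : CX.GroA c.t.tw 3) : ∃ n : ℕ, ∀ j k, j ≤ k → ∀ f f' : Gam → La,
    Zc G (md (JX j) (c.ρ true false k)) (md (JX j) f) →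
    Unr (c.s0.ts true false k) (md (JX j) f) →
    Zc G (md (JX j) (c.ρ true false k)) (md (JX j) f') →
    Unr (c.s0.ts true false k) (md (JX j) f') → ∀ x y x' y' : La,
    (∀ g ∈ Hw, f g - (x * (c.ρ true false k g - 1) + y * c.ks k g) ∈ JX j) →
    (∀ g ∈ Hw, f' g - (x' * (c.ρ true false k g - 1) + y' * c.ks k g) ∈ JX j) →
    ∃ (u u' : La) (a : ℕ), (IsUnit u ∨ IsUnit u') ∧ 2 * a ≤ j + n ∧ ∀ g ∈ G, 3 ^ a * c.δ *
      (u * ((c.ρ true false k c.g0 - 1) * f g - (c.ρ true false k g - 1) * f c.g0) +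
        u' * ((c.ρ true false k c.g0 - 1) * f' g - (c.ρ true false k g - 1) * f' c.g0)) ∈ JX j := by
  obtain ⟨n, hn⟩ := sel2 c.t h
  refine ⟨n + 1, fun j k hjk f f' hf hu hf' hu' x y x' y' hl hl' => ?_⟩
  obtain ⟨u, u', S, m, a, h0, ha, h1, h2⟩ :=
    hn _ _ _ (c.kt1_zt hjk hf hu hl) (c.kt1_zt hjk hf' hu' hl')
  refine ⟨C (oW (star u)), C (oW (star u')), a, h0.imp kt1_unit kt1_unit, by omega,
    fun g hg => ?_⟩
  have e := c.kt1_fin k (fun g => oq (JX j) (3 ^ a) *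
    (oq (JX j) (star u) * (Ideal.Quotient.mk (JX j) c.δ * md (JX j) f g) +
      oq (JX j) (star u') * (Ideal.Quotient.mk (JX j) c.δ * md (JX j) f' g))) h1
    (fun g hg => by
      rw [xi_mul, xi_add, xi_mul, xi_mul, star_pow, star_ofNat, star_star, star_star, h2 g hg]) hg
  refine Ideal.Quotient.eq_zero_iff_mem.1 (Eq.trans ?_ e)
  simp only [md, oq, RingHom.comp_apply, map_mul, map_add, map_sub, map_one, map_pow, map_ofNat]
  ring

theorem ok_sel2 (h : CX.GroA c.t.tw 3) :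
    ∀ f ∈ c.dat.Z c.dat.s0 true false (Ideal.span {X}),
      ∀ f' ∈ c.dat.Z c.dat.s0 true false (Ideal.span {X}),
      c.dat.Km f → c.dat.Km f' → ¬ c.dat.Two true false (Ideal.span {X}) f f' := by
  rintro _ ⟨f, hf, rfl⟩ _ ⟨f', hf', rfl⟩ ⟨d, x, y, hd, hk⟩ ⟨d', x', y', hd', hk'⟩ H
  obtain ⟨n, hn⟩ := c.sel_fin2 h
  obtain ⟨u, hu⟩ := lima_diag (p := fun j k (u : La × La) => (IsUnit u.1 ∨ IsUnit u.2) ∧
    ∀ g ∈ G, c.δ * (u.1 * ((c.ρ true false k c.g0 - 1) * (d * f k g) -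
      (c.ρ true false k g - 1) * (d * f k c.g0)) +
        u.2 * ((c.ρ true false k c.g0 - 1) * (d' * f' k g) -
      (c.ρ true false k g - 1) * (d' * f' k c.g0))) ∈ JX j)
    (fun j => ((((hf.smul d (2 * j + n)).and (c.km_loc (t8_lw hf) hk (2 * j + n))).and
      ((hf'.smul d' (2 * j + n)).and (c.km_loc (t8_lw hf') hk' (2 * j + n)))).and
      (ev_ge (2 * j + n))).mono fun k ⟨⟨⟨a1, a2⟩, b1, b2⟩, hk⟩ => by
        obtain ⟨u, u', a, h1, h2, h3⟩ := hn _ k hk (fun g => d * f k g) (fun g => d' * f' k g)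
          a1.1 a1.2 b1.1 b1.2 x y x' y' a2 b2
        exact ⟨(u, u'), h1, fun g hg =>
          kt1_cancel (a := a) (J := 2 * j + n) (by omega) (by
            rw [← mul_assoc]
            exact h3 g hg)⟩)
    fun j j' k u e h => ⟨h.1, fun g hg => sup_le_sup_left (aa_anti e) _ (h.2 g hg)⟩
  obtain ⟨k1, k2⟩ := H (ul (fun k => (u k).1) * d) (ul (fun k => (u k).2) * d') fun g => by
    have key := ul_mem_iff.2 fun j => (hu j).mono fun k hk => hk.2 _ (g k).2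
    simp only [ul_mul, ul_add, ul_sub, ul_const] at key
    convert (pr_X.1.mem_or_mem key).resolve_left c.δ_notMem using 1
    show _ * (((ul fun k => c.ρ true false k c.g0) - 1) * (ul fun k => f k (g k)) -
      ((ul fun k => c.ρ true false k (g k)) - 1) * ul fun k => f k c.g0) +
      _ * (((ul fun k => c.ρ true false k c.g0) - 1) * (ul fun k => f' k (g k)) -
      ((ul fun k => c.ρ true false k (g k)) - 1) * ul fun k => f' k c.g0) = _
    ring
  rcases Ultrafilter.eventually_or.1 ((hu 0).mono fun k hk => hk.1) with e | e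
  · exact hd ((Ideal.unit_mul_mem_iff_mem _ (ul_unit e)).1 k1)
  · exact hd' ((Ideal.unit_mul_mem_iff_mem _ (ul_unit e)).1 k2)

theorem kt1_off {n k : ℕ} (s : c.Stg n) {v : Plc} (hv : Off (s.ts true true k) v) :
    Off (s.ts true false k) v :=
  ⟨hv.1, fun i => hv.2 ⟨i.1, fun ⟨a, e, q⟩ =>
    i.2 ⟨a, e, q.1, q.2.imp_right fun z => Bool.noConfusion z.1⟩⟩⟩

theorem ok_conj : ∀ f ∈ c.dat.Z c.dat.s0 true false (Ideal.span {X}),
    ∃ f' ∈ c.dat.Z c.dat.s0 true true (Ideal.span {X}),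
      ∀ g, f' g ∈ Ideal.span {(X : La)} ↔ f g ∈ Ideal.span {(X : La)} := by
  rintro _ ⟨f, hf, rfl⟩
  refine ⟨lim fun k g => kt1_ψ (f k g), ⟨_, fun j => (hf j).mono fun k hk => ⟨(hk.1.map
    (Ideal.quotientMap (JX j) kt1_ψ fun z hz => (kt1_ψ_mem j z).2 hz)).congr (fun g _ => ?_)
      fun g _ => rfl, fun v hv σ hσ => Ideal.Quotient.eq_zero_iff_mem.2 ((kt1_ψ_mem j _).2
        (Ideal.Quotient.eq_zero_iff_mem.1 (hk.2 v (c.kt1_off _ hv) σ hσ)))⟩, rfl⟩, fun g =>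
    ul_mem_iff.trans ((forall_congr' fun j => Filter.eventually_congr
      (.of_forall fun k => kt1_ψ_mem j _)).trans ul_mem_iff.symm)⟩
  rw [md, md, Ideal.quotientMap_mk, mk_JX, c.ρ_const]
  simp only [kt1_ψ, RingHom.comp_apply, c.ρ_const, starRingEnd_apply, Cb.r0, star_star]

theorem ok_recip' : ∀ s : c.dat.St 1, ∀ f ∈ c.dat.Z s true true (Ideal.span {X}),
    ∀ f' ∈ c.dat.Z s true false (Ideal.span {X}), (∀ i, f (c.dat.e i) ∈ Ideal.span {(X : La)}) →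
    f' (c.dat.φ s none) * f (c.dat.gen s (.inl none)) -
      f' (c.dat.gen s (.inl none)) * f (c.dat.φ s none) ∈ Ideal.span {(X : La)} := by
  rintro (s : c.Stg 1) _ ⟨p, hp, rfl⟩ _ ⟨p', hp', rfl⟩ h0
  have key : c.δ * (uL s.t none * (lim p' (φL s.t none) * lim p (s.γ (.inl none)) -
      lim p' (s.γ (.inl none)) * lim p (φL s.t none))) ∈ Ideal.span {(X : La)} := by
    refine lima_of (fun k => c.δ * (((du (k + 1) (s.t k none)).val : La) *
      (p' k (s.t k none).φ * p k (s.γ (.inl none) k) -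
        p' k (s.γ (.inl none) k) * p k (s.t k none).φ)))
      (by simp only [ul_mul, ul_sub, ul_const]; rfl) fun j => ?_
    refine ((((hp j).and (hp' j)).and (ev_ge j)).and (Filter.eventually_all.2 fun i =>
      lima_to _ rfl (h0 i) j)).mono fun k ⟨⟨⟨a, a'⟩, hk⟩, z⟩ => ?_
    have := pr_X.lo2 j
    have e : aa k ≤ JX j := aa_le_sup hk _
    have b := (c.chr true true k).fac e
    have b' := (c.chr true false k).fac e
    have h4 := s.recip_fin true e (sup_ne_top pr_X.ne_top j) le_rfl (fz (two_pow_zero e))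
      (a := Ideal.Quotient.mk _ c.δ)
      (fun i hi => ⟨fun _ => .inl (c.dvd_δ _ k hi), fun h => by cases h⟩) a.1 a.2 a'.1 a'.2
      (spl_cupR' _ inf_le_left b' b ((c.dual true).symm.cy e (fz (two_pow_zero e)))
        ((a'.1.mono inf_le_left).smul _) (x := 0)
        fun g hg => by rw [zero_ee b (a.1.mono inf_le_left) z g hg, mul_zero])
    rw [kt1_sum, hom_val] at h4
    rw [← h4, s.γ_deep k none trivial]
    simp only [map_mul, map_sub, map_natCast, md]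
    rfl
  exact (Ideal.unit_mul_mem_iff_mem _ (uL_unit _ _)).1
    ((pr_X.1.mem_or_mem key).resolve_left c.δ_notMem)

end Cx

end Pool.Agent.Lib.MP_696deb_nt.EV.D
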