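import Pool.Agent.Lib.MP_696deb_nt.ED.KErl
import Pool.Agent.Lib.MP_696deb_nt.ED.KKp
import Pool.Agent.Lib.MP_696deb_nt.ED.T8
import Pool.Agent.Lib.MP_696deb_nt.Y3.KT2

/-! The reciprocity law for the derived class in the limit, with a quadratic twist. -/

set_option autoImplicit false

open scoped Classical NNReal
open Finset PowerSeries

namespace Pool.Agent.Lib.MP_696deb_nt.EV.D

theorem kt2_sum {κ M : Type} [Fintype κ] [AddCommMonoid M] (f : Jx κ 2 → M) :
    ∑ i : Jx κ 2 with i.deep, f i = f none + f (some none) := by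
  rw [sum_filter]
  refine (Fintype.sum_option (α := Jx κ 1) _).trans (congrArg₂ (· + ·) (if_pos trivial) ?_)
  refine (Fintype.sum_option (α := Jx κ 0) _).trans ?_
  exact (congrArg₂ (· + ·) (if_pos trivial) (sum_eq_zero fun i _ => if_neg id)).trans (add_zero _)

namespace Cx

variable (c : Cx)

theorem erl_lev1 (s : c.Stg 1) (s' : c.Stg 2) : ∃ a : ℕ, ∀ j k τ, j ≤ k → 2 * j + a ≤ 3 * τ →
    (∀ i, (s'.t k (some i)).π = (s.t k i).π) → ∀ r : DP (k + 1), s.J k = {r} → r.x.ind w = 0 →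
    w3.V (kur c.φ (c.m0 (j + 1)) c.α.π r.x) < w3.V (3 ^ (2 * j + a)) →
    ∀ f : Gam → La, Zc G (md (JX j) (c.ρ true false k)) (md (JX j) f) →
    Unr (s'.ts true false k) (md (JX j) f) →
    ∀ x y : La, (∀ g ∈ Hw, f g - (x * (c.ρ true false k g - 1) + y * c.ks k g) ∈ JX j) →
    ∃ u u' : La, IsUnit u ∧ IsUnit u' ∧ 3 ^ (τ + 1) * (c.t.M * c.δ *
      (u * (f (s'.t k (some none)).φ * s.kp true k (s'.t k (some none)).σ -
          f (s'.t k (some none)).σ * s.kp true k (s'.t k (some none)).φ) +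
        u' * (f (s'.t k none).φ * s.kp true k (s'.t k none).σ -
          f (s'.t k none).σ * s.kp true k (s'.t k none).φ))) ∈ JX j := by
  obtain ⟨a, ha⟩ := c.erl_fin1
  refine ⟨a, fun j k τ hjk hτ hπ r hr hi hk f hf hu x y hl => ?_⟩
  have hJ : aa k ≤ JX j := aa_le_sup hjk _
  have := pr_X.lo2 j
  let f0 : ZMod (3 ^ (j + 1)) →+* La ⧸ JX j := fz (two_pow_zero le_sup_right)
  let f1 : ZMod (3 ^ (k + 1)) →+* La ⧸ JX j := fz (two_pow_zero hJ)
  have hd := (c.dual true).symm.cy hJ f0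
  have z1 := (s.zc_kp true k).1.fac hJ
  have u0 := (s.zc_kp true k).2.fac hJ
  obtain ⟨z, u, hz⟩ := kp_down s hjk hr hi f1
  have rm : r ∈ s.J k := hr ▸ mem_singleton_self r
  have r2 : r.t.π ≠ c.α.π := fun e => r.t.prime.not_isUnit
    (((s.good k true).cop r rm).isUnit_of_dvd' dvd_rfl e.dvd)
  obtain ⟨M, hM⟩ : ∃ M : La ⧸ JX j, M = 3 ^ (τ + 1) * c.t.M := ⟨_, rfl⟩
  obtain ⟨D, hD⟩ : ∃ D, D = Ideal.Quotient.mk (JX j) c.δ := ⟨_, rfl⟩
  have key := s'.recip_fin true hJ (Ideal.Quotient.nontrivial_iff.1 inferInstance)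
    (Nat.succ_le_succ hjk) f0 (a := D) (p' := fun g => M * md (JX j) f g)
    (fun i hi => ⟨fun _ => .inl (hD ▸ c.dvd_δ _ k hi), fun h => by cases h⟩) z1
    (fun v hv => u0 v ⟨hv.1, fun i => by
      have h := hv.2 ⟨some i.1, fun ⟨a, e, q⟩ => i.2 ⟨a, Option.some.inj e, q⟩⟩
      rw [Stg.ts, sb, hπ] at h
      exact h⟩) (hf.smul M)
    (fun v hv σ hσ => (congrArg (M * ·) (hu v hv σ hσ)).trans (mul_zero _)) fun l => by
      refine spl_mix f0 inf_le_left ((c.chr true false k).fac hJ) ((c.chr true true k).fac hJ) hd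
        (z1.mono inf_le_left) (c.zc_ks hjk)
        (x := D * M * Ideal.Quotient.mk _ x) (y := D * M * Ideal.Quotient.mk _ y)
        (fun g hg => ?_) hz l ?_
      · have e := Ideal.Quotient.eq.2 (hl g hg)
        simp only [map_add, map_mul, map_sub, map_one] at e
        simp only [md]
        linear_combination (D * M) * e
      · refine spl_congr (ha j k τ hjk hτ r r2 hi hk f1 l (z * D * Ideal.Quotient.mk _ y))
          fun g _ h _ => ?_
        rw [cupR, cupR, ← hM]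
        exact congrArg l (by ring)
  refine ⟨_, _, kt2_unit j f0 (s'.t k (some none)), kt2_unit j f0 (s'.t k none), ?_⟩
  rw [kt2_sum, hom_val f0, hom_val f0] at key
  rw [← Ideal.Quotient.eq_zero_iff_mem]
  simp only [map_mul, map_add, map_sub, map_pow, map_ofNat, map_natCast]
  simp only [md, hM, hD] at key
  linear_combination key

theorem ok_erl1 (hs : c.Small) : ∀ s : c.dat.St 1, c.Sp s → ∀ s' : c.dat.St 2, c.dat.Ext s s' →
    ∀ f ∈ c.dat.Z s' true false (Ideal.span {X}), c.dat.Km f →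
    (f (c.dat.φ s' (some none)) * c.dat.kap s true (c.dat.gen s' (.inl (some none))) -
        f (c.dat.gen s' (.inl (some none))) * c.dat.kap s true (c.dat.φ s' (some none)) ∈
          Ideal.span {(X : La)} ↔
      f (c.dat.φ s' none) * c.dat.kap s true (c.dat.gen s' (.inl none)) -
        f (c.dat.gen s' (.inl none)) * c.dat.kap s true (c.dat.φ s' none) ∈
          Ideal.span {(X : La)}) := by
  rintro (s : c.Stg 1) hp (s' : c.Stg 2) hE _ ⟨f, hf, rfl⟩ ⟨d, x, y, hd, hk⟩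
  obtain ⟨a, ha⟩ := c.erl_lev1 s s'
  have hπ : ∀ k i, (s'.t k (some i)).π = (s.t k i).π := by
    rintro k (_ | i)
    · exact TP.eq_of_σ ((s'.γ_deep k (some none) trivial).symm.trans
        ((congrArg Subtype.val (congrFun (hE.gen (.inl none)) k)).trans (s.γ_deep k none trivial)))
    · exact congrArg TP.π ((s'.base k i).trans (s.base k i).symm)
  obtain ⟨T, hT⟩ : ∃ T : Jx (Option c.ι) 2 → ℕ → La, ∀ i k, T i k =
      f k (s'.t k i).φ * s.kp true k (s'.t k i).σ - f k (s'.t k i).σ * s.kp true k (s'.t k i).φ :=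
    ⟨_, fun _ _ => rfl⟩
  have e : ∀ i : Jx c.κ 2, i.deep →
      lim f (c.dat.φ s' i) * c.dat.kap s true (c.dat.gen s' (.inl i)) -
      lim f (c.dat.gen s' (.inl i)) * c.dat.kap s true (c.dat.φ s' i) = ul (T i.pr) := fun i hi => by
    have e1 : c.dat.gen s' (.inl i) = fun k => ⟨(s'.t k i.pr).σ, (s'.t k i.pr).σ_mem⟩ :=
      funext fun k => Subtype.ext (s'.γ_deep k i hi)
    rw [e1, funext (hT i.pr), ul_sub, ul_mul, ul_mul]
    rfl
  have hN : (c.t.M : La) ∉ Ideal.span {(X : La)} := fun e => by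
    rw [mem_span_X, map_natCast, ← map_natCast oW, ← map_zero oW] at e
    exact c.m0_ne 0 (by rw [c.m0_eq, oW_inj e, zero_mul])
  have hU : ul (fun _ => d * ((c.t.M : La) * c.δ)) ∉ Ideal.span {(X : La)} := fun k => by
    rw [ul_const] at k
    exact (pr_X.1.mem_or_mem k).elim hd fun k => (pr_X.1.mem_or_mem k).elim hN c.δ_notMem
  have key : ∀ j, ∀ᶠ k in UU, ∃ u u' : La, IsUnit u ∧ IsUnit u' ∧
      d * ((c.t.M : La) * c.δ) * (u * T (some none) k + u' * T none k) ∈ JX j := fun j => by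
    obtain ⟨J, hJ⟩ : ∃ J, J = 2 * j + a + 4 + 1 + j := ⟨_, rfl⟩
    obtain ⟨v, hv⟩ := hs (J + 1) (2 * J + a)
    refine ((((hf.smul d J).and (c.km_loc (t8_lw hf) hk J)).and (ev_ge J)).and (ev_ge v)).mono
      fun k hk => ?_
    obtain ⟨r, r1, -, r2, r3⟩ := hp k
    obtain ⟨u, u', h1, h2, h3⟩ := ha J k (2 * j + a + 4) hk.1.2 (by omega) (hπ k) r r1 r2
      (hv _ (Nat.le_succ_of_le hk.2) _ r.x r3) (fun g => d * f k g) hk.1.1.1.1 hk.1.1.1.2 x y
      hk.1.1.2
    refine ⟨u, u', h1, h2, kt2_two (n := 2 * j + a + 4 + 1) ?_⟩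
    rw [← hJ, hT, hT]
    convert h3 using 1
    ring
  refine (congrArg (· ∈ Ideal.span {(X : La)}) (e (some none) trivial)).to_iff.trans
    (Iff.trans (?_ : ul (T (some none)) ∈ _ ↔ ul (T none) ∈ _)
      (congrArg (· ∈ Ideal.span {(X : La)}) (e none trivial)).to_iff.symm)
  refine ⟨kt2_imp hU fun j => (key j).mono fun k ⟨u, u', _, h1, h2⟩ => ⟨u, u', h1, h2⟩,
    kt2_imp hU fun j => (key j).mono fun k ⟨u, u', h1, _, h2⟩ => ⟨u', u, h1, ?_⟩⟩
  rwa [add_comm]

end Cx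

end Pool.Agent.Lib.MP_696deb_nt.EV.D
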