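import Pool.Agent.Lib.MP_696deb_nt.ED.TopD

/-! The limit argument with two systems in the case of rank one. -/

set_option autoImplicit false

open scoped Classical NNReal
open Finset Matrix PowerSeries

namespace Pool.Agent.Lib.MP_696deb_nt.EV.D

namespace Dat

open EV.Dat (topb_indep)

variable {Γ κ : Type} [Group Γ] [Fintype κ] (D : Dat Γ κ)

/-- The properties in the case of rank at most one. -/
structure Ok2 (Sp : D.St 1 → Prop) : Prop extends D.Ok where
  erl : ∀ s : D.St 1, D.Ext D.s0 s → ∀ c ∈ D.Z s true false (Ideal.span {X}), D.Km c →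
    c (D.gen s (.inl none)) * D.F true (D.φ s none) ∈ Ideal.span {(X : La)}
  sel2 : ∀ c ∈ D.Z D.s0 true false (Ideal.span {X}), ∀ c' ∈ D.Z D.s0 true false (Ideal.span {X}),
    D.Km c → D.Km c' → ¬ D.Two true false (Ideal.span {X}) c c'
  conj : ∀ c ∈ D.Z D.s0 true false (Ideal.span {X}), ∃ c' ∈ D.Z D.s0 true true (Ideal.span {X}),
    ∀ g, c' g ∈ Ideal.span {(X : La)} ↔ c g ∈ Ideal.span {(X : La)}
  recip' : ∀ s : D.St 1, ∀ c ∈ D.Z s true true (Ideal.span {X}),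
    ∀ c' ∈ D.Z s true false (Ideal.span {X}), (∀ i, c (D.e i) ∈ Ideal.span {(X : La)}) →
    c' (D.φ s none) * c (D.gen s (.inl none)) - c' (D.gen s (.inl none)) * c (D.φ s none) ∈
      Ideal.span {(X : La)}
  step1 : ∃ (N : Subgroup Γ) (z : Γ), N ≤ D.N D.s0 ∧ z ∈ D.N D.s0 ∧
    (∀ g, cmt D.g0 (cmt D.g0 g) ∈ N) ∧ ∀ x ∈ N, ∀ (m : ℕ) (c : Fin m → Γ → La)
    (y b : Fin m → Bool) (J : Fin m → Ideal La),
    (∀ i, J i ≠ ⊤ ∧ c i ∈ D.Z D.s0 (y i) (b i) (J i)) →
    ∃ (s : D.St 1) (t : La), D.Ext D.s0 s ∧ Sp s ∧ IsUnit t ∧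
      ∀ i, c i (D.φ s none) - t * c i (z * x) ∈ J i
  erl1 : ∀ s : D.St 1, Sp s → ∀ s' : D.St 2, D.Ext s s' →
    ∀ c ∈ D.Z s' true false (Ideal.span {X}), D.Km c →
    (c (D.φ s' (some none)) * D.kap s true (D.gen s' (.inl (some none))) -
        c (D.gen s' (.inl (some none))) * D.kap s true (D.φ s' (some none)) ∈ Ideal.span {(X : La)} ↔
      c (D.φ s' none) * D.kap s true (D.gen s' (.inl none)) -
        c (D.gen s' (.inl none)) * D.kap s true (D.φ s' none) ∈ Ideal.span {(X : La)})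

variable {D} {Sp : D.St 1 → Prop}

theorem Ok2.new1 (h : D.Ok2 Sp) {m : ℕ} (c : Fin m → Γ → La) (y b : Fin m → Bool)
    (J : Fin m → Ideal La) (hc : ∀ i, Pr (J i) ∧ c i ∈ D.Z D.s0 (y i) (b i) (J i))
    (h0 : ∀ i, ∃ g, D.hat (y i) (b i) (c i) g ∉ J i) :
    ∃ s : D.St 1, D.Ext D.s0 s ∧ Sp s ∧ ∀ i, c i (D.φ s none) ∉ J i := by
  obtain ⟨N, z, hN, hz, hg, hs⟩ := h.step1
  have k : ∀ T : Finset (Fin m), ∃ x ∈ N, ∀ i ∈ T, c i x ∉ J i := fun T => by
    induction T using Finset.induction_on with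
    | empty => exact ⟨1, one_mem _, fun i hi => absurd hi (notMem_empty i)⟩
    | insert j T _ ih =>
      obtain ⟨x, hx, k⟩ := ih
      obtain ⟨g, e0⟩ := h0 j
      have k1 : c j (cmt D.g0 (cmt D.g0 g)) ∉ J j := fun e =>
        e0 (((J j).unit_mul_mem_iff_mem (h.vp _ _)).1
          (((J j).sub_mem_iff_right e).1 (h.toOk.val_cmt (hc j).2 g)))
      obtain ⟨t, ht⟩ := ((insert j T).finite_toSet.biUnion fun i hi =>
        (h.toOk.topA_sub (hc i).1.1 (hc i).2 (hN hx) (hN (hg g)) ((mem_insert.1 hi).symm.imp (k i)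
          fun e : i = j => e ▸ ⟨k1, (hc j).1.2⟩)).finite).exists_notMem
      exact ⟨_, mul_mem hx (pow_mem (hg g) (3 * t)), fun i hi e => ht (Set.mem_biUnion hi e)⟩
  obtain ⟨x, hx, k⟩ := k univ
  obtain ⟨t, ht⟩ := (Set.finite_iUnion fun i => (h.toOk.topA_sub (hc i).1.1 (hc i).2 hz (hN hx)
    (.inr ⟨k i (mem_univ i), (hc i).1.2⟩)).finite).exists_notMem
  obtain ⟨s, u, h1, h2, h3, h4⟩ := hs _ (pow_mem hx (3 * t)) m c y b J
    fun i => ⟨(hc i).1.ne_top, (hc i).2⟩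
  exact ⟨s, h1, h2, fun i e => ht (Set.mem_iUnion.2 ⟨i,
    ((J i).unit_mul_mem_iff_mem h3).1 (((J i).sub_mem_iff_right e).1 (h4 i))⟩)⟩

theorem ktop_one : (1 : La) ∉ Ideal.span {(X : La)} := (Ideal.ne_top_iff_one _).1 pr_X.ne_top

omit [Fintype κ] in
theorem ktop_zero {c : Γ → La} (he : ∀ i, c (D.e i) ∈ Ideal.span {(X : La)}) : D.Km c :=
  ⟨1, 0, 0, ktop_one, fun i => by simpa using he i⟩

theorem Ok.ktop_km (h : D.Ok) {n : ℕ} {s : D.St n} {c c' : Γ → La}
    (c1 : c ∈ D.Z s true false (Ideal.span {X})) (c2 : c' ∈ D.Z s true false (Ideal.span {X}))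
    (k : D.Two true false (Ideal.span {X}) c c') : ∃ t t' : La, D.Km (t • c + t' • c') ∧
      ∃ g, D.hat true false (t • c + t' • c') g ∉ Ideal.span {(X : La)} := by
  by_cases hc : D.Km c
  · refine ⟨1, 0, ?_⟩
    rw [one_smul, zero_smul, add_zero]
    exact ⟨hc, k.ne pr_X.ne_top⟩
  have i2 : Indep (Ideal.span {(X : La)}) ![fun i => D.ρ true false (D.e i) - 1, D.k] :=
    fun t ht => by
    simp only [Fin.sum_univ_two, cons_val_zero, cons_val_one] at ht
    have h1 := h.ind _ _ ht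
    obtain ⟨i, hi⟩ := h.ne _ _ gd_X
    refine Fin.forall_fin_two.2 ⟨(pr_X.1.mem_or_mem ?_).resolve_right hi, h1⟩
    exact (Ideal.add_mem_iff_left _ (Ideal.mul_mem_right _ _ h1)).1 (ht i)
  have i3 := i2.cons pr_X.1 (y := fun i => c (D.e i)) fun d t ht => by
    by_contra e
    exact hc ⟨d, t 0, t 1, e, fun i => by
      simpa only [Fin.sum_univ_two, cons_val_zero, cons_val_one] using ht i⟩
  have i4 := mt (i3.cons pr_X.1 (y := fun i => c' (D.e i))) (h.four gd_X fun i => by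
    refine Fin.cases (h.W_mem s _ _ _ c2)
      (fun i => Fin.cases (h.W_mem s _ _ _ c1) (fun i => ?_) i) i
    revert i
    exact Fin.forall_fin_two.2 ⟨h.W_mem s _ _ _ ((h.pres s true false).cob _), h.k_mem⟩)
  push Not at i4
  obtain ⟨d, t, h1, h2⟩ := i4
  refine ⟨-t 0, d, ⟨1, t 1, t 2, ktop_one, fun i => ?_⟩, ?_⟩
  · convert h1 i using 1
    rw [Fin.sum_univ_three]
    change 1 * (-t 0 * c (D.e i) + d * c' (D.e i)) - _ = d * c' (D.e i) -
      (t 0 * c (D.e i) + t 1 * (D.ρ true false (D.e i) - 1) + t 2 * D.k i)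
    ring
  · by_contra! e
    refine h2 (k (-t 0) d fun g => ?_).2
    convert e g using 1
    simp only [hat, Pi.add_apply, Pi.smul_apply, smul_eq_mul]
    ring

/-- A dual class with Kummer values at three that vanishes at the first new Frobenius element. -/
theorem Ok.exists_km2 (h : D.Ok) (s : D.St 2) : ∃ c ∈ D.Z s true false (Ideal.span {X}), D.Km c ∧
    c (D.φ s (some none)) ∈ Ideal.span {(X : La)} ∧
    ∃ g, D.hat true false c g ∉ Ideal.span {(X : La)} := by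
  obtain ⟨x, x1, x2⟩ := exists_indep pr_X.1 (m := 3) (Matrix.of fun i : Option (Jx κ 0) =>
    i.elim (D.L s true false (D.φ s (some none))) fun i => D.R s true false (some (some i))) (by
      rw [Fintype.card_sum, Fintype.card_option, Jx.card, Jx.card, Fintype.card_fin])
  have z (i : Jx κ 2) (hi : i.deep) (a : Fin 3) :
      D.R s true false i ⬝ᵥ x a ∈ Ideal.span {(X : La)} := by
    rw [(h.deep s true false i hi).2.2, zero_dotProduct]
    exact Ideal.zero_mem _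
  choose c c1 c2 using fun a => (h.pres s true false).ex _ pr_X.ne_top (x a) fun j => by
    rcases j with _ | _ | j
    exacts [z none trivial a, z (some none) trivial a, x2 a (some j)]
  have c3 : ∀ a, c a (D.φ s (some none)) ∈ Ideal.span {(X : La)} := fun a =>
    (Submodule.sub_mem_iff_left _ (x2 a none)).1 (h.val_x pr_X.ne_top (c1 a) (c2 a) _)
  obtain ⟨i, j, k⟩ := h.two pr_X.1 true false c (topb_indep x1 c2)
  obtain ⟨t, t', k1, k2⟩ := h.ktop_km (c1 i) (c1 j) k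
  exact ⟨_, add_mem (Submodule.smul_mem _ _ (c1 i)) (Submodule.smul_mem _ _ (c1 j)), k1,
    Ideal.add_mem _ (Ideal.mul_mem_left _ _ (c3 i)) (Ideal.mul_mem_left _ _ (c3 j)), k2⟩

theorem Ok2.caseA (h : D.Ok2 Sp)
    (hF : ∃ g, D.hat true true (D.F true) g ∉ Ideal.span {(X : La)}) : False := by
  by_cases hs : ∀ c ∈ D.Z D.s0 true false (Ideal.span {X}), D.Km c →
      ∀ g, D.hat true false c g ∈ Ideal.span {(X : La)}
  · exact Ok1.false_of ⟨h.toOk, hs, h.erl⟩ hF
  push Not at hs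
  obtain ⟨c, hc, km, h0⟩ := hs
  obtain ⟨s, E, sp, hn⟩ := h.new1 ![D.F true, c] (fun _ => true) ![true, false]
    (fun _ => Ideal.span {X})
    (fun i => by
      fin_cases i
      exacts [⟨pr_X, (h.pres _ _ _).mono _ (h.F_mem true)⟩, ⟨pr_X, hc⟩])
    (fun i => by
      fin_cases i
      exacts [hF, h0])
  have n0 : D.F true (D.φ s none) ∉ Ideal.span {(X : La)} := hn 0
  have n1 : c (D.φ s none) ∉ Ideal.span {(X : La)} := hn 1
  obtain ⟨s', E', -⟩ := h.toOk.new s (m := 0) Fin.elim0 Fin.elim0 Fin.elim0 Fin.elim0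
    (fun i => i.elim0) (fun i => i.elim0) fun i => i.elim0
  have k := (h.erl1 s sp s' E' c (E'.le _ _ _ (E.le _ _ _ hc)) km).2 (Ideal.sub_mem _
    (Ideal.mul_mem_left _ _ (E'.zero _ _ _ _ ((h.pres _ _ _).mono _ (h.kap_mem s true))))
    (Ideal.mul_mem_right _ _ (E'.zero _ _ _ _ (E.le _ _ _ hc))))
  have e1 : D.φ s' (some none) = D.φ s none := E'.φ none
  have e2 : D.gen s' (.inl (some none)) = D.gen s (.inl none) := E'.gen (.inl none)
  rw [e1, e2, h.kap_φ s true none trivial, mul_zero, sub_zero, E.kap, h.kap0, hat,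
    (h.deep s true true none trivial).1, sub_self, zero_mul, sub_zero] at k
  exact (pr_X.1.mem_or_mem k).elim n1 fun k =>
    n0 ((Ideal.unit_mul_mem_iff_mem _ (h.vp true true)).1 (neg_mem_iff.1 k))

theorem Ok2.caseB (h : D.Ok2 Sp) {c : Γ → La} (hc : c ∈ D.Z D.s0 true false (Ideal.span {X}))
    (he : ∀ i, c (D.e i) ∈ Ideal.span {(X : La)})
    (h0 : ∃ g, D.hat true false c g ∉ Ideal.span {(X : La)}) : False := by
  obtain ⟨c', hc', cj⟩ := h.conj c hc
  obtain ⟨b2, p', q', p0, c2, r2, hu⟩ := h.toOk.base2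
  obtain ⟨s, E, sp, hn⟩ := h.new1 ![c, D.kap D.s0 false] ![true, false] ![false, true]
    ![Ideal.span {X}, ⊥]
    (fun i => by
      fin_cases i
      exacts [⟨pr_X, hc⟩, ⟨pr_bot, h.kap_mem _ false⟩])
    (fun i => by
      fin_cases i
      exacts [h0, h.toOk.kap_ne p0 b2 r2])
  have n0 : c (D.φ s none) ∉ Ideal.span {(X : La)} := hn 0
  obtain ⟨b3, δ, u3, r3⟩ := h.toOk.adv pr_bot.1 E (h.kap_mem _ false) (h.kap_φ _ false) (hn 1) b2 r2
  have L : ∀ d ∈ D.Z s true false (Ideal.span {X}), D.Km d →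
      d (D.φ s none) ∈ Ideal.span {(X : La)} →
      ∀ g, D.hat true false d g ∈ Ideal.span {(X : La)} := fun d hd km d0 g => by
    have r := h.recip' s c' (E.le _ _ _ hc') d hd fun i => (cj _).2 (he i)
    rw [Submodule.sub_mem_iff_right _ (Ideal.mul_mem_right _ _ d0)] at r
    have d1 := E.unr _ _ _ pr_X.ne_top d hd
      ((pr_X.1.mem_or_mem r).resolve_right fun e => n0 ((cj _).1 e))
    by_contra e
    refine h.sel2 c hc d d1 (ktop_zero he) km fun t t' k => ?_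
    have k1 := k (D.φ s none)
    simp only [hat, (h.deep s true false none trivial).1, sub_self, zero_mul, sub_zero] at k1
    rw [Ideal.add_mem_iff_left _ (Ideal.mul_mem_left _ _ (Ideal.mul_mem_left _ _ d0))] at k1
    have k2 := (pr_X.1.mem_or_mem k1).resolve_right fun e =>
      n0 ((Ideal.unit_mul_mem_iff_mem _ (h.vp true false)).1 e)
    exact ⟨k2, (pr_X.1.mem_or_mem ((Ideal.add_mem_iff_right _ (Ideal.mul_mem_right _ _ k2)).1
      (k g))).resolve_right e⟩
  have hz : ∃ l l', Dt (D.B s true) l l' ∉ Ideal.span {(X : La)} := by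
    by_contra! k
    obtain ⟨-, d, d1, d2, d3, g, d4⟩ := h.toOk.dual gd_X (three_of_dt pr_X.1 k)
    exact d4 (L d d1 (ktop_zero d3) (d2 none trivial) g)
  obtain ⟨p, q, up, r1⟩ := h.toOk.unit_rt hz b3 p0 c2 hu u3 r3
  have km := (h.pres s true true).mono (Ideal.span {X}) (h.kap_mem s true)
  obtain ⟨s', E', n2⟩ := h.toOk.new1 pr_X.1 km (by
    by_contra! k
    obtain ⟨l, l', hz⟩ := hz
    refine hz ((Ideal.unit_mul_mem_iff_mem _ up).1 ?_)
    rw [← r1 l l']
    exact Ideal.mul_mem_left _ _ (h.toOk.hat_wd k l l'))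
  obtain ⟨d, d1, d2, d3, g, d4⟩ := h.toOk.exists_km2 s'
  have e1 : D.φ s' (some none) = D.φ s none := E'.φ none
  have k := (h.erl1 s sp s' E' d d1 d2).1 (Ideal.sub_mem _ (Ideal.mul_mem_right _ _ d3) (by
    rw [e1, h.kap_φ s true none trivial, mul_zero]
    exact Ideal.zero_mem _))
  rw [Submodule.sub_mem_iff_right _ (Ideal.mul_mem_left _ _ (E'.zero _ _ _ _ km))] at k
  exact d4 (L d (E'.unr _ _ _ pr_X.ne_top d d1 ((pr_X.1.mem_or_mem k).resolve_right n2)) d2
    (e1 ▸ d3) g)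

theorem Ok2.false (h : D.Ok2 Sp) : False := by
  by_cases k : ∃ l l', Dt (D.B D.s0 true) l l' ∉ Ideal.span {(X : La)}
  · exact h.caseA (h.toOk.F_ne k)
  push Not at k
  obtain ⟨-, c, c1, -, c2, c3⟩ := h.toOk.dual gd_X (three_of_dt pr_X.1 k)
  exact h.caseB c1 c2 c3

end Dat

end Pool.Agent.Lib.MP_696deb_nt.EV.D
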