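import Pool.Agent.Lib.MP_696deb_nt.ED.NotHz
import Pool.Agent.Lib.MP_696deb_nt.ED.KTop
import Pool.Agent.Lib.MP_696deb_nt.ED.KT1
import Pool.Agent.Lib.MP_696deb_nt.ED.KT2
import Pool.Agent.Lib.MP_696deb_nt.ED.KStep
import Pool.Agent.Lib.MP_696deb_nt.Y3.B7

/-! Rank at most one: a first derivative of bounded valuation. -/

set_option autoImplicit false

open scoped Classical NNReal
open Finset PowerSeries

namespace Pool.Agent.Lib.MP_696deb_nt.EV.D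

theorem Cb.exists_q (c : Cb) (hN : ∀ q : ℕ, c.t.N.factorization q < 3) {q : ℕ} (hq : q.Prime)
    (h3 : q ≠ 3) (h7 : q ≠ 7) (hv : q ∣ c.t.N) :
    ∃ i, ¬ (c.tp i).π ∣ 7 ∧ ¬ 3 ∣ c.t.N.factorization (c.tp i).v.p := by
  obtain ⟨v, rfl⟩ := B2.exists_plc hq
  obtain ⟨π, p1, p2, p3⟩ := g1_pi h3
  have p4 := (g1_lt p1 p3).1 (g1_p v)
  obtain ⟨i, hi⟩ := (c.all π p1 (p4.trans (Nat.cast_dvd_cast (hv.mul_right _)))).resolve_left
    fun e => (g1_dvd p3 e).ne (p1_V_w h3)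
  have e := (Nat.prime_dvd_prime_iff_eq (c.tp i).v.prime hq).1
    (c8_dvd _ ((p1.associated_of_dvd (c.tp i).prime hi).symm.dvd.trans p4))
  refine ⟨i, fun k => h7 ?_, fun k => ?_⟩
  · rw [← e]
    exact (Nat.prime_dvd_prime_iff_eq (c.tp i).v.prime (by norm_num)).1 (c8_dvd (n := 7) _ k)
  · have h1 := hq.factorization_pos_of_dvd c.t.ne hv
    have h2 := hN v.p
    rw [e] at k
    omega

theorem kur_tw (t : Tw) (hN : ∀ q : ℕ, t.N.factorization q < 3) {q : ℕ} (hq : q.Prime) (h3 : q ≠ 3)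
    (h7 : q ≠ 7) (hv : q ∣ t.N) (h : CX.GroA t.tw 3) {φ : O → O} (hφ : Phi t φ)
    (hk : Hk ((9 * t.M : ℕ) : O) φ) (hz : EV.Hz (9 * t.M) φ) : Kur φ := by
  obtain ⟨c, rfl, rfl⟩ := exists_cb t hN hφ
  obtain ⟨i, h5, h6⟩ := c.exists_q hN hq h3 h7 hv
  let x : Cx := ⟨c, fun k => (c.exists_lv k).some, fun k => (c.exists_lv k).some.exists_bw.some⟩
  have k : ¬ c.Small := fun hs => Dat.Ok2.false (Sp := x.Sp) ⟨x.ok, x.ok_erl (c.van hz),
    x.ok_sel2 h, x.ok_conj, x.ok_recip', x.ok_step1 h5 h6, x.ok_erl1 hs⟩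
  unfold Cb.Small at k
  push Not at k
  obtain ⟨e, a, k⟩ := k
  obtain ⟨d1, d2, -⟩ := c.dvd_m0 e
  refine ⟨c.m0 e, _, a, ⟨c.m0_ne e, d1, fun a b l => hk.per a b (d2.trans l), hk.mul, hk.unit,
    hk.neg, hk.conj, fun a l => hφ.zero a fun j => l ?_⟩, c.α.prime,
    c.nd_m0 e _ (c.nd_M' _ c.α_ne), k⟩
  rw [Nat.cast_mul] at j
  exact c.m0_eq e ▸ j.of_mul_right_right.mul_right j.of_mul_right_left.pow_right

/-- If the Selmer group has corank at most one and the central value vanishes, the first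
derivatives have bounded valuation. -/
theorem kur_gro : Y3.KuD := fun d n q φ hd r hφ hq h3 h7 hv g hz => by
  obtain ⟨δ, hδ⟩ := IsAlgClosed.exists_pow_nat_eq (d : Qbar) two_pos
  have k := r.hk hφ
  rw [mul_assoc] at hz k
  exact kur_tw (twOf hd r.ne hδ) r.cf hq h3 h7 hv (g δ hδ) (phi_of (twOf hd r.ne hδ) hφ) k hz

theorem nz_gro : Y3.NzD := fun _ _ _ _ hd r hφ _ _ _ g => not_hz_gro hd r.ne r.cf hφ g

end Pool.Agent.Lib.MP_696deb_nt.EV.D
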