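import Pool.Agent.Lib.MP_696deb_nt.EV.Kol2
import Pool.Agent.Lib.MP_696deb_nt.ED.Kol

/-! The derived classes at the primes of the conductor. -/

set_option autoImplicit false

open scoped Classical NNReal
open Finset

namespace Pool.Agent.Lib.MP_696deb_nt.EV.D

variable {R : Type} [CommRing R] {e : ℕ} {m b : O} {W : O → R} {θ : Gam → R} {g g0 : Gam}
  {J : Finset (DP e)} {r : DP e}

variable (f : ZMod (3 ^ e) →+* R)

theorem k2_per (k : Kb m b W θ) {a a' : O} (h : mJ m J ∣ a - a') : WJ f W J a = WJ f W J a' := by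
  rw [WJ, WJ, k.per a a' ((Dvd.intro _ rfl).trans h)]
  congr 1
  exact prod_congr rfl fun r hr => by
    rw [r.x.per a a' (((dvd_prod_of_mem (fun r : DP e => r.t.π) hr).mul_left m).trans h)]

theorem k2_act (h : Good m b θ g0 J) (k : Kb m b W θ) (hg : g ∈ G) (hi : ∀ r ∈ J, r.x.ig g = 0)
    {P : A} (hP : P ∈ Im (mJ m J)) :
    WJ f W J (co (mJ m J) (g • P)) = θ g * WJ f W J (co (mJ m J) P) := by
  rw [h.act f k subset_rfl hg hP, WJ]
  congr 2
  exact prod_congr rfl fun r hr => by rw [hi r hr, map_zero, add_zero]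

theorem kol_σ (h : Good m b θ g0 (insert r J)) (k : Kb m b W θ) (hr : r ∉ J) :
    kol f m b W θ g0 (insert r J) r.t.σ = -kol f m b W θ g0 J r.t.φ := by
  have h' := h.mono (subset_insert r J)
  obtain ⟨m0, m3⟩ := h'.ne k
  obtain ⟨n0, n3⟩ := h.ne k
  have nd := h.nd' hr
  have ri := mem_insert_self r J
  have hσ := r.t.σ_mem
  obtain ⟨y, hy⟩ := k2_near m0 m3 k.red r.t nd e
  have a1 : ∀ P ∈ Im (mJ m J), WJ f W J (co (mJ m J) (r.t.φ • P)) = WJ f W J (co (mJ m J) P) :=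
    fun P hP => by
      rw [k2_act f h' k r.t.φ_mem (fun r' hr' => h.ig r ri r' (mem_insert_of_mem hr')) hP,
        h.th r ri, one_mul]
  have a2 := k2_down f m0 m3 k.red r.t nd (h.cop r ri) hy
    (V := fun P => WJ f W J (co (mJ m J) P)) h.mem h.cy0
    (fun P hP => k2_act f h' k h.mem h'.ig0 hP) a1
  have a3 : ∀ P ∈ Im (mJ m (insert r J)), WJ f W (insert r J) (co (mJ m (insert r J)) (g0 • P)) =
      (1 + (θ g0 - 1)) * WJ f W (insert r J) (co (mJ m (insert r J)) P) := fun P hP => by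
    rw [k2_act f h k h.mem h.ig0 hP, add_sub_cancel]
  have a4 : ∀ P ∈ Im (mJ m (insert r J)),
      WJ f W (insert r J) (co (mJ m (insert r J)) (r.t.σ • P)) =
        WJ f W (insert r J) (co (mJ m (insert r J)) P) + WJ f W J (co (mJ m J) (r.t.π • P)) :=
    fun P hP => by
      have s1 : θ r.t.σ * W (co (mJ m (insert r J)) P) = W (co (mJ m (insert r J)) P) := by
        rw [← k.eqv _ hσ _ ((co_cop n0 hP).of_isCoprime_of_dvd_right (Dvd.intro _ rfl))
          (co_prim n0 n3 hP)]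
        refine k.per _ _ ?_
        rw [← sub_one_mul]
        exact (cm_ine r.t.odd (r.t.V_eq.2 (h.nd r ri)) r.t.σ_ine).mul_right _
      have s2 : ∏ r' ∈ J, (f (r'.x.ind (co (mJ m (insert r J)) P)) + f (r'.x.ig r.t.σ)) =
          ∏ r' ∈ J, f (r'.x.ind (co (mJ m (insert r J)) P)) := prod_congr rfl fun r' hr' => by
        rw [r'.x.ig_ine r.t.odd (r.t.V_eq.2 (r.t.not_dvd r'.t fun z =>
          hr (h.inj r ri r' (mem_insert_of_mem hr') z ▸ hr'))) r.t.σ_ine, map_zero, add_zero]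
      rw [h.act f k subset_rfl hσ hP, ← mul_assoc, s1, prod_insert hr, s2, r.x.ig_sigma, map_one,
        k2_ins f hr]
      rw [mJ_insert hr] at hP ⊢
      rw [k2_per f k (co_down m0 r.t.prime.ne_zero (Im_kill (mJ_insert hr ▸ n0) hP)), WJ]
      ring
  have a5 : ∀ P ∈ Im (mJ m (insert r J)), P ∈ pre r.t.π (Im (mJ m J)) := fun P hP =>
    k2_sub m0 r.t (mJ_insert hr ▸ hP)
  have F1 := fam_Im n0 n3 k.red e
  have a6 : FF f (Im (mJ m (insert r J))) y
      (fun P => WJ f W (insert r J) (co (mJ m (insert r J)) P)) r.t.σ = 0 :=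
    sum_eq_zero fun P hP => by
      have s1 := F1.stab _ (inv_mem hσ) _ hP
      have s2 := (hy _ (a5 _ s1)).2
      rw [← act_smul (inv_mem hσ), act_ine r.t.odd (r.t.V_eq.2 nd) (inv_mem r.t.σ_ine)
        (Im_kill m0 ((mem_pre r.t.prime.ne_zero).1 (a5 _ hP)))] at s2
      have s3 : ∀ Q ∈ Im (mJ m (insert r J)), r.t.v.V (y Q) = 1 := fun Q hQ =>
        k2_V ((hy _ (a5 _ hQ)).1.trans (k2_yb _ _ _)) (Im_unit k.red n0 n3 r.t.odd hQ)
      have s4 : r.t.σ (y (r.t.σ⁻¹ • P)) = y P := by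
        refine k2_eq (e := e) r.t.odd ?_ (s3 P hP)
          (k2_tr (k2_tr (r.t.σ_ine.2 _ (s3 _ s1).le) s2) (k2_sw (hy _ (a5 _ hP)).2))
        rw [← map_pow, (hy _ (a5 _ s1)).1, F1.eqv _ hσ _ s1, smul_inv_smul, (hy _ (a5 _ hP)).1]
      rw [kc, s4, div_self fun z => by simpa [z] using s3 P hP, lg_one, map_zero, zero_mul]
  rw [kol, kol, k2_kap f (k2_cy r) a1,
    kap_root f F1 (fun P hP => (hy _ (a5 _ hP)).1) hσ h.mem h.cy0 a3 fun P hP => by
      rw [k2_comm n0 hσ h.mem (Im_kill n0 hP)]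
      exact a3 _ (F1.stab _ hσ _ hP),
    kap, a6, cy, r.t.cyc_σ, map_one, map_one, FF_congr f (W := tr _ _) a4, FF_add, ← a2,
    mJ_insert hr]
  ring

theorem kol_φ (h : Good m b θ g0 J) (k : Kb m b W θ) (hr : r ∈ J) :
    kol f m b W θ g0 J r.t.φ = 0 := by
  obtain ⟨J, hJ, rfl⟩ : ∃ J', r ∉ J' ∧ J = insert r J' :=
    ⟨J.erase r, notMem_erase _ _, (insert_erase hr).symm⟩
  have h' := h.mono (subset_insert r J)
  obtain ⟨m0, m3⟩ := h'.ne k
  obtain ⟨n0, n3⟩ := h.ne k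
  have nd := h.nd' hJ
  have hφ := r.t.φ_mem
  have p0 := r.t.prime.ne_zero
  obtain ⟨y, hy⟩ := exists_near m0 m3 k.red r.t nd e
  have a1 : ∀ P ∈ Im (mJ m (insert r J)),
      WJ f W (insert r J) (co (mJ m (insert r J)) (r.t.φ • P)) =
        1 * WJ f W (insert r J) (co (mJ m (insert r J)) P) := fun P hP => by
    rw [k2_act f h k hφ (h.ig r hr) hP, h.th r hr]
  have F1 := fam_Im n0 n3 k.red e
  have F0 := fam_Im m0 m3 k.red e
  rw [kol, k2_kap f (k2_cy r) fun P hP => (a1 P hP).trans (one_mul _)]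
  rw [mJ_insert hJ] at a1 F1 n0 n3 ⊢
  rw [FF_root f F1 (fun P hP => (hy P hP).1) hφ, XX_tr f F1 a1, k2_cy, map_one, one_mul, one_mul,
    sub_self, add_zero, FF, ← sum_fiberwise_of_maps_to (g := fun P : A => r.t.π • P)
      fun P hP => Im_down m0 p0 hP]
  refine mul_eq_zero_of_right _ (sum_eq_zero fun B hB => ?_)
  obtain ⟨T, hT, -⟩ := EW.exists_rep p0
  have s1 := F0.stab _ (inv_mem hφ) _ hB
  have s2 := F0.stab _ (inv_mem hφ) _ s1
  have a2 : ∀ P ∈ Im (mJ m J * r.t.π), r.t.π • P = B →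
      kc e y r.t.φ P = kc e (yb b e) r.t.φ (r.t.φ⁻¹ • B) := fun P hP hp => by
    have s3 := (hy P hP).2
    have s4 := (hy _ (F1.stab _ (inv_mem hφ) _ hP)).2
    rw [← act_smul (inv_mem hφ), hp] at s4
    rw [hp] at s3
    have s5 := (F1.of_pow fun P hP => (hy P hP).1).root hφ hP
    have s6 := F0.root hφ s1
    have s7 : r.t.v.V (y P) = 1 :=
      k2_V ((hy P hP).1.trans (k2_yb _ _ _)) (Im_unit k.red n0 n3 r.t.odd hP)
    have s8 := k2_unit (e := e) m0 m3 k.red r.t.odd s1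
    have s9 := k2_unit (e := e) m0 m3 k.red r.t.odd s2
    rw [← B2.mem_Dec.1 r.t.tm.frob.1] at s4 s9
    rw [map_sub] at s4
    rw [kc, kc, root_eq r.t.odd s5 s6]
    have y0 : y P ≠ 0 := fun z => by simp [z] at s7
    have y1 : yb b e (r.t.φ⁻¹ • B) ≠ 0 := fun z => by simp [z] at s8
    generalize r.t.φ (y (r.t.φ⁻¹ • P)) = a at *
    generalize r.t.φ (yb b e (r.t.φ⁻¹ • r.t.φ⁻¹ • B)) = a' at *
    rw [div_sub_div _ _ y0 y1, map_div₀, map_mul, s7, s8, mul_one, div_one,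
      show a * yb b e (r.t.φ⁻¹ • B) - y P * a' =
        (a - a') * yb b e (r.t.φ⁻¹ • B) - (y P - yb b e (r.t.φ⁻¹ • B)) * a' by ring]
    exact r.t.v.V.map_sub_lt (by rwa [map_mul, s8, mul_one]) (by rwa [map_mul, s9, mul_one])
  rw [sum_congr rfl (g := fun P => f (kc e (yb b e) r.t.φ (r.t.φ⁻¹ • B)) *
    WJ f W J (co (mJ m J) B) * f (r.x.ind (co (mJ m J * r.t.π) P))) fun P hP => by
      obtain ⟨s3, s4⟩ := mem_filter.1 hP
      rw [a2 P s3 s4, k2_ins f hJ, ← s4, k2_per f k (co_down m0 p0 (Im_kill n0 s3)), mul_assoc],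
    ← mul_sum, ← map_sum, sum_fibre m0 m3 r.t.prime r.t.prim nd hB hT _ r.x.per, r.x.sum hT,
    map_zero, mul_zero]

end Pool.Agent.Lib.MP_696deb_nt.EV.D
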