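import Pool.Agent.Lib.MP_696deb_nt.ED.Q3

/-! Cocycles of the tame group. -/

set_option autoImplicit false

open scoped Classical NNReal
open Finset

namespace Pool.Agent.Lib.MP_696deb_nt.EV.D

variable {R : Type} [CommRing R] {d : ℤ} {ι J : Type} {t : ι → TP} {γ : J → Gam} {ρ ρ' : Gam → R}
  {H : Subgroup Gam} {M : Type} [AddCommGroup M] [Module R M] {c c' : Gam → M} {g h σ : Gam}
  {v : Plc} {r : TP}

theorem q7_cy (r : TP) {m n : ℕ} {ω : Gam → ZMod (3 ^ (n + m))} (o1 : Sm (G ⊓ Dec r.v) ω)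
    (o2 : IsHom (G ⊓ Dec r.v) ω) (o3 : ω r.φ = 1) (o4 : ∀ σ ∈ Ine r.v, ω σ = 0)
    (hg : g ∈ G ⊓ Dec r.v) : cy m g = (nm r.π : ZMod (3 ^ m)) ^ (ω g).val := by
  have e1 : ∀ k : ℕ, cy m (r.φ ^ k) = (nm r.π : ZMod (3 ^ m)) ^ k := fun k => by
    rw [cy, H3.cyc_frob r.odd (r.tm.frob.pow k), map_natCast, Nat.cast_pow]
  have e2 : (nm r.π : ZMod (3 ^ m)) ^ 3 ^ (n + m) = 1 := by
    rw [add_comm, pow_add, pow_mul, ← pow_one (nm r.π : ZMod (3 ^ m)), ← e1,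
      cy_three (pow_mem r.φ_mem 1), one_pow]
  have e3 : ∀ k : ℕ, ω (r.φ ^ k) = k := fun k => by
    induction k with
    | zero => rw [pow_zero, o4 1 (one_mem _), Nat.cast_zero]
    | succ k ih => rw [pow_succ, o2 _ (pow_mem r.tm.φ_mem k) _ r.tm.φ_mem, ih, o3, Nat.cast_succ]
  obtain ⟨U, u1, -, u3⟩ := (H3.sm_cy (H := G ⊓ Dec r.v) m).comp₂ o1 Prod.mk
  obtain ⟨k, σ, hσ, e⟩ := r.tm.dg hg u1
  have p := pow_mem r.tm.φ_mem k
  have a := Prod.mk.inj (u3 _ (mul_mem p (r.tm.ine_le hσ)) g hg e)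
  rw [← a.1, ← a.2, o2 _ p _ (r.tm.ine_le hσ), o4 σ hσ, add_zero, e3, ZMod.val_natCast,
    ← pow_eq_pow_mod _ e2, ← e1, cy, cy, H3.cyc_mul, H3.cyc_ine r.odd hσ, mul_one]

theorem q7_sw {F : Type} [Group F] {S Φ : F} {q : ℕ} (e : Φ * S * Φ⁻¹ = S ^ q) (j a : ℕ) :
    Φ ^ j * S ^ a = S ^ (q ^ j * a) * Φ ^ j := by
  have h1 : ∀ a, Φ * S ^ a = S ^ (q * a) * Φ := fun a => by
    rw [pow_mul, ← e, conj_pow, inv_mul_cancel_right]
  induction j generalizing a with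
  | zero => simp
  | succ j ih => rw [pow_succ, mul_assoc, h1, ← mul_assoc, ih, mul_assoc, pow_succ q, mul_assoc]

theorem q7_nf {F : Type} [Group F] {S Φ : F} {q : ℕ} (e : Φ * S * Φ⁻¹ = S ^ q) (y j : ℕ) :
    ∃ a, (S ^ y * Φ) ^ j = S ^ a * Φ ^ j := by
  induction j with
  | zero => exact ⟨0, by simp⟩
  | succ j ih =>
    obtain ⟨a, ha⟩ := ih
    exact ⟨a + q ^ j * y, by
      rw [pow_succ, ha, mul_assoc, ← mul_assoc (Φ ^ j), q7_sw e, pow_add, pow_succ, mul_assoc,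
        mul_assoc]⟩

/-- Homomorphisms from the tame group to finite three-groups. -/
theorem tame_hom {F : Type} [Group F] (r : TP) {S Φ : F} (hS : ∃ n : ℕ, S ^ 3 ^ n = 1)
    (hΦ : ∃ n : ℕ, Φ ^ 3 ^ n = 1) (e : Φ * S * Φ⁻¹ = S ^ nm r.π) :
    ∃ π : Gam → F, Sm (G ⊓ Dec r.v) π ∧ B2.IsMul (G ⊓ Dec r.v) π ∧ π r.σ = S ∧ π r.φ = Φ ∧
      ∀ g, ∃ a b : ℕ, π g = S ^ a * Φ ^ b := by
  obtain ⟨m, hm⟩ := hS
  obtain ⟨n, hn⟩ := hΦ
  obtain ⟨κ, hκ⟩ := H3.exists_kum (H := G ⊓ Dec r.v) (a := (r.v.p : Qbar)) m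
    (by exact_mod_cast r.v.prime.ne_zero) fun g _ => map_natCast g _
  obtain ⟨u, hu⟩ := (H3.lo2_unit r.tm.gen r.tm.τ_mem hκ).exists_left_inv
  obtain ⟨ω, o1, o2, o3, o4⟩ := r.tm.exists_om (n + m)
  obtain ⟨T, hT⟩ : ∃ T, T = S ^ (-(u * κ r.φ)).val * Φ := ⟨_, rfl⟩
  have e1 : T * S * T⁻¹ = S ^ nm r.π := by
    rw [hT, mul_inv_rev, mul_assoc _ Φ, mul_assoc, ← mul_assoc (Φ * S), e, ← mul_assoc,
      pow_mul_comm, mul_inv_cancel_right]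
  have e2 : T ^ 3 ^ (n + m) = 1 := by
    obtain ⟨a, ha⟩ := q7_nf e (-(u * κ r.φ)).val (3 ^ n)
    rw [hT, pow_add, pow_mul, ha, hn, mul_one, pow_right_comm, hm, one_pow]
  refine ⟨fun g => S ^ (u * κ g).val * T ^ (ω g).val,
    hκ.sm.comp₂ o1 fun a b => S ^ (u * a).val * T ^ b.val, fun g hg k hk => ?_, ?_, ?_, fun g => ?_⟩
  · have e3 : S ^ (u * (cy m g * κ k)).val = S ^ (nm r.π ^ (ω g).val * (u * κ k).val) := by
      rw [pow_eq_pow_mod (nm r.π ^ (ω g).val * (u * κ k).val) hm, ← ZMod.val_natCast, Nat.cast_mul,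
        Nat.cast_pow, ZMod.natCast_zmod_val, ← q7_cy r o1 o2 o3 o4 hg, mul_left_comm]
    simp only [hκ.coc g hg k hk, o2 g hg k hk, mul_add, p3_add hm, p3_add e2]
    rw [e3, mul_assoc, mul_assoc, ← mul_assoc (T ^ _) (S ^ _), q7_sw e1, mul_assoc]
  · simp only [hu, o4 _ r.σ_ine, p3_one hm, ZMod.val_zero, pow_zero, mul_one]
  · simp only [o3, p3_one e2]
    rw [hT, ← mul_assoc, ← p3_add hm, add_neg_cancel, ZMod.val_zero, pow_zero, one_mul]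
  · obtain ⟨a, ha⟩ := q7_nf e (-(u * κ r.φ)).val (ω g).val
    exact ⟨(u * κ g).val + a, (ω g).val, by simp only [hT, ha, pow_add, mul_assoc]⟩

theorem q7_pow [Lo2 R] (k : Chr ρ) (r : TP) : ρ r.σ ^ nm r.π = ρ r.σ := by
  obtain ⟨m, hm⟩ := Lo2.kill R
  have e := r.tm.act_rel (hm R) (k.act (M := R) inf_le_left) r.σ_ine 1
  simp only [sa_apply, k.pow r.σ_mem, smul_eq_mul, mul_one] at e
  exact (k.isUnit r.φ_mem).mul_right_cancel (e.symm.trans (mul_comm _ _))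

theorem rel0 [Lo2 R] [Finite M] (k : Chr ρ) (hc : Zc (G ⊓ Dec r.v) ρ c) :
    (ρ r.σ - 1) • c r.φ = rq ρ r • c r.σ := by
  obtain ⟨m, hm⟩ := Lo2.kill R
  have ha : Act (G ⊓ Dec r.v) (sa M ρ) := k.act inf_le_left
  have e := r.tm.rel (hm M) ha (zc_iff.1 hc) r.σ_ine
  rw [(zc_iff.1 hc).lo_pow ha r.tm.τ_mem] at e
  simp only [sa_apply, k.pow r.σ_mem, q7_pow k] at e
  rw [← sum_smul] at e
  rw [rq, sub_smul, sub_smul, one_smul, sub_eq_sub_iff_add_eq_add, add_comm, ← e, add_comm]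

theorem tame0 [Lo2 R] [Finite M] (k : Chr ρ) {x y : M} (e : (ρ r.σ - 1) • y = rq ρ r • x) :
    ∃ c : Gam → M, Zc (G ⊓ Dec r.v) ρ c ∧ c r.φ = y ∧ c r.σ = x := by
  let U : R → Rˣ := fun a => if h : IsUnit a then h.unit else 1
  have hU {g : Gam} (hg : g ∈ G) : (U (ρ g) : R) = ρ g := by
    simp only [U, dif_pos (k.isUnit hg), IsUnit.unit_spec]
  have h3 {g : Gam} (hg : g ∈ G) : ∃ n : ℕ, U (ρ g) ^ 3 ^ n = 1 := (k.three g hg).imp fun n hn =>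
    Units.ext (by rw [Units.val_pow_eq_pow_val, hU hg, hn, Units.val_one])
  obtain ⟨π, p1, p2, p3, p4, p5⟩ := tame_hom (F := P3A R M) r (S := ⟨x, U (ρ r.σ)⟩)
    (Φ := ⟨y, U (ρ r.φ)⟩) (p3_two _ (h3 r.σ_mem)) (p3_two _ (h3 r.φ_mem)) (by
      rw [mul_inv_eq_iff_eq_mul, p3_pow]
      refine P3A.ext ?_ (Units.ext ?_)
      · simp only [p3_mul_t, Units.val_pow_eq_pow_val, hU r.σ_mem, hU r.φ_mem, q7_pow k]
        rw [rq, sub_smul, sub_smul, one_smul, sub_eq_sub_iff_add_eq_add] at e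
        rw [add_comm, ← e, add_comm]
      · simp only [p3_mul_u, Units.val_mul, Units.val_pow_eq_pow_val, hU r.σ_mem, hU r.φ_mem,
          q7_pow k, mul_comm])
  have e {g : Gam} (hg : g ∈ G ⊓ Dec r.v) : (π g).u = U (ρ g) :=
    p3_ext r (π := fun g => (π g).u) (π' := fun g => U (ρ g)) (fun g _ => by
        obtain ⟨a, b, e⟩ := p5 g
        simp only [e, p3_mul_u, p3_pow]
        exact p3_cm (Commute.all _ _) (p3_pw (h3 r.σ_mem) a) (p3_pw (h3 r.φ_mem) b))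
      (fun g hg => h3 hg.1) (p1.comp _)
      (fun a ha b hb => congrArg P3A.u (p2 a ha b hb)) ((k.sm.mono inf_le_left).comp U)
      (fun a ha b hb => Units.ext (by
        rw [Units.val_mul, hU ha.1, hU hb.1, hU (mul_mem ha.1 hb.1), k.mul a ha.1 b hb.1]))
      (congrArg P3A.u p3) (congrArg P3A.u p4) hg
  exact ⟨fun g => (π g).t, ⟨p1.comp _, fun a ha b hb => by
    simp only [p2 a ha b hb, p3_mul_t, e ha, hU ha.1]⟩, congrArg P3A.t p4, congrArg P3A.t p3⟩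

theorem rel [Lo2 R] [Finite M] (k : Ch d ρ) (hs : Spt d r.v) (hc : Zc (G ⊓ Dec r.v) ρ c) :
    (ρ r.σ - 1) • c r.φ = rq ρ r • c r.σ := by
  simpa only [rq, hs.xq r.tm.τ_mem, hs.xq r.tm.φ_mem, one_mul] using rel0 k ((zc_xq hs).2 hc)

theorem exists_tame [Lo2 R] [Finite M] (k : Ch d ρ) (hs : Spt d r.v) {x y : M}
    (e : (ρ r.σ - 1) • y = rq ρ r • x) :
    ∃ c : Gam → M, Zc (G ⊓ Dec r.v) ρ c ∧ c r.φ = y ∧ c r.σ = x :=
  (tame0 (r := r) k (by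
    simpa only [rq, hs.xq r.tm.τ_mem, hs.xq r.tm.φ_mem, one_mul] using e)).imp
      fun _ h => ⟨(zc_xq hs).1 h.1, h.2⟩

theorem q7_geo (hs : Spt d r.v) (hg : Geo ρ r) : Geo (fun g => xq d R g * ρ g) r := by
  simpa only [Geo, hs.xq r.tm.τ_mem, one_mul] using hg

theorem cob_σ [Lo2 R] [Finite M] (k : Ch d ρ) (hs : Spt d r.v) (hg : Geo ρ r)
    (hc : Zc (G ⊓ Dec r.v) ρ c) :
    ∀ g ∈ G ⊓ Dec r.v, (ρ r.σ - 1) • c g = (ρ g - 1) • c r.σ := fun g h => by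
  simpa only [hs.xq r.tm.τ_mem, hs.xq h, one_mul] using
    Zc.cob_σ k (q7_geo hs hg) ((zc_xq hs).2 hc) g h

theorem cob_φ [Lo2 R] [Finite M] (k : Ch d ρ) (hs : Spt d r.v) (hg : Geo ρ r)
    (hc : Zc (G ⊓ Dec r.v) ρ c) :
    ∀ g ∈ G ⊓ Dec r.v, (ρ r.φ - 1) • c g = (ρ g - 1) • c r.φ := fun g h => by
  simpa only [hs.xq r.tm.φ_mem, hs.xq h, one_mul] using
    Zc.cob_φ k (q7_geo hs hg) ((zc_xq hs).2 hc) g h

/-- A multiple of a cocycle is unramified. -/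
theorem rq_ine [Lo2 R] [Finite M] (k : Ch d ρ) (hs : Spt d r.v) (h1 : ρ r.σ = 1)
    (hc : Zc (G ⊓ Dec r.v) ρ c) : ∀ σ ∈ Ine r.v, rq ρ r • c σ = 0 := fun σ hσ => by
  obtain ⟨m, hm⟩ := Lo2.kill R
  exact r.tm.zero_ine (hm M) (Chr.act k inf_le_left) (zc_iff.1 (((zc_xq hs).2 hc).smul (rq ρ r)))
    (by simp only [← rel k hs hc, h1, sub_self, zero_smul]) hσ

theorem lw [Lo2 R] [Finite M] (k : Ch d ρ) (hs : Spt d w3) {e : ℕ} (f : ZMod (3 ^ e) →+* R) (m : M)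
    (h : ∀ x : Fin 4 → R, ∃ c : Gam → M, Zc Hw ρ c ∧ ∀ i, c (ew i) = x i • m) :
    ∀ g ∈ Hw, (ρ g - f (cy e g)) • m = 0 := fun g hg => by
  simpa only [hs.xq hg, one_mul] using
    EV.lw k f m (fun x => (h x).imp fun _ hc => ⟨(zc_xq hs).2 hc.1, hc.2⟩) g hg

end Pool.Agent.Lib.MP_696deb_nt.EV.D
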