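import Pool.Agent.Lib.MP_696deb_nt.ED.Q5
import Pool.Agent.Lib.MP_696deb_nt.ED.Q7
import Pool.Agent.Lib.MP_696deb_nt.EV.P4

/-! Existence of cocycles with given values. -/

set_option autoImplicit false

open scoped Classical NNReal
open Finset

namespace Pool.Agent.Lib.MP_696deb_nt.EV.D

variable {R : Type} [CommRing R] {d : ℤ} {ι J : Type} {t : ι → TP} {γ : J → Gam} {ρ ρ' : Gam → R}
  {H : Subgroup Gam} {M : Type} [AddCommGroup M] [Module R M] {c c' : Gam → M} {g h σ : Gam}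
  {v : Plc} {r : TP}

theorem q8_inv (F : CFT) (hH : Op H) {η η' : Gam → Gam → ZMod (3 ^ 1)}
    (h : C2 1 (H ⊓ Dec v) η) (β : Gam → ZMod (3 ^ 1)) (hβ : Sm (H ⊓ Dec v) β)
    (e : ∀ g ∈ H ⊓ Dec v, ∀ k ∈ H ⊓ Dec v,
      η' g k = η g k + (β g + cy 1 g * β k - β (g * k))) : F.inv 1 H v η' = F.inv 1 H v η := by
  have h1 : Spl 1 (H ⊓ Dec v) fun g k => β g + cy 1 g * β k - β (g * k) :=
    ⟨β, hβ, fun _ _ _ _ => rfl⟩
  rw [F.congr (c' := η + fun g k => β g + cy 1 g * β k - β (g * k)) e, F.add hH h h1.c2,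
    (F.zero_iff hH h1.c2).2 h1, add_zero]

section

variable {N : Type} [AddCommGroup N] [Module R N] {ε : ZMod 3 →+ M} {π : M →ₗ[R] N} {s : N → M}
  (hE : P4Ext ε π s) (k : Ch d ρ) {a : Gam → N} (ha : Zc G ρ a) {b b' : Gam → M}
include hE k

theorem q8_fix (hg : g ∈ G) (z : ZMod 3) : ρ g • ε z = ε (xq d _ g * z) := by
  have e := hE.fix _ (Chr.three k g hg) z
  rcases chi_or d g with q | q
  · rwa [xq_of q, one_mul] at e ⊢
  · rw [xq_of' q, neg_one_mul] at e ⊢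
    rw [neg_smul] at e
    rw [map_neg, neg_eq_iff_eq_neg.1 e]

theorem q8_fix' (hg : g ∈ HF d) (z : ZMod 3) : ρ g • ε z = ε z := by
  rw [q8_fix hE k hg.1, xq_of hg.2, one_mul]

theorem q8_coc {x : Gam → ZMod 3} (hx : Cq d G x) : Zc G ρ fun g => ε (x g) :=
  ⟨hx.1.comp ε, fun g hg h hh => by
    simp only [hx.2 g hg h hh, map_add, q8_fix hE k hg, smul_eq_mul]⟩

include ha

omit k in
theorem q8_ob (hb : ∀ g ∈ G, π (b g) = a g) (hg : g ∈ G) (hh : h ∈ G) :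
    ε (p4ob ε ρ b g h) = b g + ρ g • b h - b (g * h) :=
  hE.ker _ (by
    rw [map_sub, map_add, map_smul, hb g hg, hb h hh, hb _ (mul_mem hg hh), ha.2 g hg h hh,
      sub_self])

theorem q8_c2 (h1 : Sm G b) (hb : ∀ g ∈ G, π (b g) = a g) : C2 1 (HF d) (p4ob ε ρ b) := by
  refine ⟨(((h1.left.comp₂ (k.sm.left.comp₂ h1.right (· • ·)) (· + ·)).comp₂ h1.mul (· - ·)).comp
    (Function.invFun ε)).mono (HF_le d), fun g hg h hh j hj => ?_⟩
  rw [cy_one_G hg.1, one_mul]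
  refine hE.inj ((map_add ε _ _).trans (Eq.trans ?_ (map_add ε _ _).symm))
  rw [← q8_fix' hE k hg, q8_ob hE ha hb hh.1 hj.1, q8_ob hE ha hb hg.1 (mul_mem hh hj).1,
    q8_ob hE ha hb (mul_mem hg hh).1 hj.1, q8_ob hE ha hb hg.1 hh.1, k.mul g hg.1 h hh.1, mul_assoc]
  module

theorem q8_cob (hH : H ≤ HF d) (hb : ∀ g ∈ G, π (b g) = a g) (hb' : ∀ g ∈ H, π (b' g) = a g)
    (hg : g ∈ H) (hh : h ∈ H) : p4ob ε ρ b g h = p4ob ε ρ b' g h +
      (Function.invFun ε (b g - b' g) + cy 1 g * Function.invFun ε (b h - b' h) -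
        Function.invFun ε (b (g * h) - b' (g * h))) := by
  have h4 : ∀ g ∈ H, ε (Function.invFun ε (b g - b' g)) = b g - b' g := fun g hg =>
    hE.ker _ (by rw [map_sub, hb g (hH hg).1, hb' g hg, sub_self])
  have h5 : ε (p4ob ε ρ b' g h) = b' g + ρ g • b' h - b' (g * h) := hE.ker _ (by
    rw [map_sub, map_add, map_smul, hb' g hg, hb' h hh, hb' _ (mul_mem hg hh),
      ha.2 g (hH hg).1 h (hH hh).1, sub_self])
  rw [cy_one_G (hH hg).1, one_mul]
  refine hE.inj (Eq.trans ?_ ((map_add ε _ _).trans (congrArg (_ + ·) ((map_sub ε _ _).trans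
    (congrArg (· - _) (map_add ε _ _))))).symm)
  rw [q8_ob hE ha hb (hH hg).1 (hH hh).1, h5,
    ← q8_fix' hE k (hH hg) (Function.invFun _ (b h - _)), h4 g hg, h4 h hh, h4 _ (mul_mem hg hh)]
  module

theorem q8_spl (hH : H ≤ HF d) (h1 : Sm G b) (hb : ∀ g ∈ G, π (b g) = a g) :
    Spl 1 H (p4ob ε ρ b) ↔ ∃ c : Gam → M, Zc H ρ c ∧ ∀ g ∈ H, π (c g) = a g := by
  have h1 := h1.mono (hH.trans (HF_le d))
  constructor
  · rintro ⟨β, h2, h3⟩
    refine ⟨fun g => b g - ε (β g), ⟨h1.comp₂ (h2.comp ε) (· - ·), fun g hg h hh => ?_⟩,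
      fun g hg => by rw [map_sub, hb g (hH hg).1, hE.zero, sub_zero]⟩
    have := q8_ob hE ha hb (hH hg).1 (hH hh).1
    rw [h3 g hg h hh, cy_one_G (hH hg).1, one_mul] at this
    have e := ((map_sub ε _ _).trans (congrArg (· - _) (map_add ε _ _))).symm.trans this
    rw [smul_sub, q8_fix' hE k (hH hg)]
    linear_combination (norm := module) e
  · rintro ⟨c, h2, h3⟩
    refine ⟨fun g => Function.invFun ε (b g - c g),
      (h1.comp₂ h2.1 (· - ·)).comp (Function.invFun ε), fun g hg h hh => ?_⟩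
    have e : p4ob ε ρ c g h = 0 := hE.inj (by
      rw [p4ob, h2.2 g hg h hh, sub_self, hE.ker _ (map_zero π), map_zero])
    rw [q8_cob hE k ha hH hb h3 hg hh, e, zero_add]

/-- The local invariants of the obstruction change by the quadratic character. -/
theorem q8_sign (F : CFT) (h1 : Sm G b) (hb : ∀ g ∈ G, π (b g) = a g) (hg : g ∈ G) (v : Plc) :
    xq d _ g * F.inv 1 (HF d) (g • v) (p4ob ε ρ b) = F.inv 1 (HF d) v (p4ob ε ρ b) := by
  have m : ∀ x ∈ G, g⁻¹ * x * g ∈ G := fun x hx => mul_mem (mul_mem (inv_mem hg) hx) hg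
  have s1 : Sm G fun x => ρ g • b (g⁻¹ * x * g) - (ρ x - 1) • b g :=
    (h1.conj g⁻¹ g m).comp₂ k.sm fun y r => ρ g • y - (r - 1) • b g
  have s2 : ∀ x ∈ G, π (ρ g • b (g⁻¹ * x * g) - (ρ x - 1) • b g) = a x := fun x hx => by
    rw [map_sub, map_smul, map_smul, hb _ (m x hx), hb g hg, q2_cj ha hg hx, add_sub_cancel_right]
  have c1 := (q8_c2 hE k ha s1 s2).mono (inf_le_left : HF d ⊓ Dec (g • v) ≤ _)
  have l : HF d ⊓ Dec (g • v) ≤ G := inf_le_left.trans (HF_le d)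
  rw [q8_inv F (op_HF d) c1 _ (((h1.comp₂ s1 (· - ·)).comp (Function.invFun ε)).mono l)
      fun x hx y hy => q8_cob hE k ha inf_le_left hb (fun z hz => s2 z (l hz)) hx hy]
  refine (F.smul (op_HF d) c1 _).symm.trans ((F.congr fun x hx y hy => ?_).trans
    (F.conj g (op_HF d) (normal_HF d) ((q8_c2 hE k ha h1 hb).mono inf_le_left)))
  have e := k.conj (inv_mem hg) (l hx)
  rw [inv_inv] at e
  rw [cy_one_G hg, one_mul]
  refine hE.inj ((q8_fix hE k hg _).symm.trans ((k.isUnit hg).smul_left_cancel.1 ?_))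
  rw [q8_fix hE k hg, q8_fix hE k hg, ← mul_assoc, xq_sq, one_mul,
    q8_ob hE ha s2 (l hx) (l hy), q8_ob hE ha hb (m x (l hx)) (m y (l hy)), e,
    k.mul x (l hx) y (l hy), show g⁻¹ * (x * y) * g = g⁻¹ * x * g * (g⁻¹ * y * g) by group]
  module

theorem q8_off (F : CFT) (hv : v.p ≠ 3) (h1 : ∀ σ ∈ Ine v, ρ σ - 1 = 0)
    (h2 : ∀ σ ∈ Ine v, a σ = 0) : F.inv 1 (HF d) v (p4ob ε ρ fun g => s (a g)) = 0 := by
  refine F.unr (op_HF d) ((q8_c2 hE k ha (ha.1.comp s) fun _ _ => hE.sec _).mono inf_le_left)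
    fun g hg h hh σ hσ σ' hσ' => ?_
  have q : ∀ g ∈ G, ∀ σ ∈ Ine v, a (g * σ) = a g := fun g hg σ hσ => by
    rw [ha.2 g hg σ (ine_le hv hσ), h2 σ hσ, smul_zero, add_zero]
  have e : g * σ * (h * σ') = g * h * (h⁻¹ * σ * h⁻¹⁻¹ * σ') := by group
  have m : h⁻¹ * σ * h⁻¹⁻¹ * σ' ∈ Ine v :=
    mul_mem (B2.conj_mem_Ine ((Dec v).inv_mem hh.2) hσ.2) hσ'.2
  simp only [p4ob]
  rw [e, q _ (mul_mem hg hh).1.1 _ m, q g hg.1.1 σ hσ.2, q h hh.1.1 σ' hσ'.2,
    k.mul g hg.1.1 σ hσ.1.1, sub_eq_zero.1 (h1 σ hσ.2), mul_one]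

end

/-- Local lifts at the split places give a global lift. -/
theorem lift [Lo2 R] [Finite M] [Finite ι] (hd : Fd d) (hγ : Gens d t γ) (k : Ch d ρ)
    (hu : Unr t fun g => ρ g - 1) {N : Type} [AddCommGroup N] [Module R N] {ε : ZMod 3 →+ M}
    {π : M →ₗ[R] N} {s : N → M} (hE : P4Ext ε π s) {a : Gam → N} (ha : Zc G ρ a) (ha' : Unr t a)
    (h1 : ∀ i, Spt d (t i).v →
      ∃ c : Gam → M, Zc (G ⊓ Dec (t i).v) ρ c ∧ ∀ g ∈ G ⊓ Dec (t i).v, π (c g) = a g)
    (h2 : Spt d w3 → ∃ c : Gam → M, Zc Hw ρ c ∧ ∀ g ∈ Hw, π (c g) = a g) :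
    ∃ c : Gam → M, Zc G ρ c ∧ Unr t c ∧ ∀ g ∈ G, π (c g) = a g := by
  obtain ⟨F⟩ := H3.exists_cft
  have s1 := ha.1.comp s
  have s2 : ∀ g ∈ G, π (s (a g)) = a g := fun _ _ => hE.sec _
  have c2 := q8_c2 hE k ha s1 s2
  have loc : ∀ g ∈ G, ∀ v, (Spt d v → ∃ c : Gam → M, Zc (G ⊓ Dec v) ρ c ∧
      ∀ g ∈ G ⊓ Dec v, π (c g) = a g) → Spt d (g • v) →
      F.inv 1 (HF d) (g • v) (p4ob ε ρ fun g => s (a g)) = 0 := fun g hg v q hs => by
    have l : HF d ⊓ Dec v ≤ G ⊓ Dec v := inf_le_inf_right _ (HF_le d)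
    obtain ⟨c, q1, q2⟩ := q (by simpa only [inv_smul_smul] using hs.smul (inv_mem hg))
    have e := (q8_sign hE k ha F s1 s2 hg v).trans ((F.zero_iff (op_HF d)
      (c2.mono inf_le_left)).2 ((q8_spl hE k ha inf_le_left s1 s2).2
        ⟨c, q1.mono l, fun g hg => q2 g (l hg)⟩))
    linear_combination xq d (ZMod 3) g * e -
      F.inv 1 (HF d) (g • v) (p4ob ε ρ fun g => s (a g)) * xq_sq (R := ZMod 3) d g
  obtain ⟨c0, z1, z2⟩ := (q8_spl hE k ha le_rfl s1 s2).1 (F.abhn (op_HF d) c2 fun v => by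
    by_cases hs : Spt d v
    · by_cases hv : v.p = 3
      · obtain ⟨g, hg, rfl⟩ := conj_w3 hv
        exact loc g hg w3 h2 hs
      · rcases off_or t hv with q | ⟨i, g, hg, rfl⟩
        · exact q8_off hE k ha F hv (hu v q) (ha' v q)
        · exact loc g hg _ (h1 i) hs
    · obtain ⟨g, hg, e⟩ := exists_ns hs
      have := q8_sign hE k ha F s1 s2 hg.1 v
      rw [show g • v = v from hg.2, xq_of' e, neg_one_mul] at this
      exact q2_two this.symm)
  obtain ⟨-, g0, -, -, -, m0, e0⟩ := exists_g0 hd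
  obtain ⟨c, c1, c2⟩ := exists_lift2 k le_rfl m0 e0 π (fun y => ⟨s y, hE.sec y⟩) ha z1 z2
  have k0 : ∀ v, Off t v → ∀ σ ∈ Ine v, ε (Function.invFun ε (c σ)) = c σ := fun v hv σ hσ =>
    hE.ker _ ((c2 σ (ine_le hv.1 hσ)).trans (ha' v hv σ hσ))
  obtain ⟨x, x1, x2⟩ := exists_fix hd hγ.ram hγ.fix (f := fun g => Function.invFun ε (c g))
    (c1.1.comp _) (fun v hv σ hσ σ' hσ' => hE.inj (by
      rw [map_add, k0 v hv _ (mul_mem hσ hσ'), k0 v hv _ hσ, k0 v hv _ hσ',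
        c1.2 _ (ine_le hv.1 hσ) _ (ine_le hv.1 hσ'), sub_eq_zero.1 (hu v hv σ hσ), one_smul]))
    fun v hv σ hσ g hg => by
      rw [k.zc_conj le_rfl c1 hg (ine_le hv.1 hσ), show ρ σ - 1 = 0 from hu v hv σ hσ, zero_smul,
        sub_zero,
        ← k0 v hv σ hσ, q8_fix hE k hg, Function.leftInverse_invFun hE.inj,
        Function.leftInverse_invFun hE.inj]
  exact ⟨fun g => c g - ε (x g), c1.sub (q8_coc hE k x1),
    fun v hv σ hσ => by simp only [x2 v hv σ hσ, k0 v hv σ hσ, sub_self],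
    fun g hg => by rw [map_sub, hE.zero, sub_zero, c2 g hg]⟩

variable [Fintype J] {L : Gam → J → R}

theorem exists_coc [Lo2 R] [Finite M] [Finite ι] (hd : Fd d) (hγ : Gens d t γ) (k : Ch d ρ)
    (hu : Unr t fun g => ρ g - 1) (hL : Val t γ ρ L) (x : J → M)
    (h1 : ∀ i, Spt d (t i).v → ∃ c : Gam → M, Zc (G ⊓ Dec (t i).v) ρ c ∧
      c (t i).φ = ∑ j, L (t i).φ j • x j ∧ c (t i).σ = ∑ j, L (t i).σ j • x j)
    (h2 : Spt d w3 → ∃ c : Gam → M, Zc Hw ρ c ∧ ∀ i, c (ew i) = ∑ j, L (ew i) j • x j) :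
    ∃ c : Gam → M, Zc G ρ c ∧ Unr t c ∧ ∀ j, c (γ j) = x j := by
  induction hn : Nat.card M using Nat.strong_induction_on generalizing M with | _ n ih => ?_
  rcases subsingleton_or_nontrivial M with hM | hM
  · exact ⟨fun _ => 0, ⟨B2.Sm.const _, fun _ _ _ _ => Subsingleton.elim _ _⟩, fun _ _ _ _ => rfl,
      fun _ => Subsingleton.elim _ _⟩
  obtain ⟨W, ε, s, hW, E⟩ := p4_ext (R := R) (M := M)
  have : Finite (M ⧸ W) := .of_surjective _ W.mkQ_surjective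
  obtain ⟨a, d1, d2, d3⟩ := ih _ (hn ▸ (Nat.card_le_card_of_surjective _ W.mkQ_surjective).lt_of_ne
    fun e => hW (W.ker_mkQ ▸ LinearMap.ker_eq_bot.2
      ((Nat.bijective_iff_surjective_and_card _).2 ⟨W.mkQ_surjective, e.symm⟩).1))
    (fun j => W.mkQ (x j)) (fun i hs => (h1 i hs).elim fun c q => ⟨_, q.1.lin W.mkQ, by
      simp only [q.2.1, map_smul, map_sum], by simp only [q.2.2, map_smul, map_sum]⟩)
    (fun hs => (h2 hs).elim fun c q => ⟨_, q.1.lin W.mkQ, fun i => by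
      simp only [q.2 i, map_smul, map_sum]⟩) rfl
  have ev : ∀ g ∈ G, W.mkQ (∑ j, L g j • x j) - a g = 0 := fun g hg => by
    simp only [hL _ a d1 d2 g hg, d3, map_smul, map_sum, sub_self]
  obtain ⟨c, c1, c2, c3⟩ := lift hd hγ k hu E d1 d2 (fun i hs => (h1 i hs).imp fun c q =>
    ⟨q.1, fun g hg => sub_eq_zero.1 (dec_zero k hs ((q.1.lin W.mkQ).sub (d1.mono inf_le_left))
      (by rw [q.2.2, ev _ (t i).σ_mem]) (by rw [q.2.1, ev _ (t i).φ_mem]) g hg)⟩)
    fun hs => (h2 hs).imp fun c q => ⟨q.1, fun g hg => sub_eq_zero.1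
      (zero_ee k ((q.1.lin W.mkQ).sub (d1.mono inf_le_left))
        (fun i => by rw [ee_sp hs, q.2, ev _ (ew_mem i).1]) g hg)⟩
  obtain ⟨χ, x1, x2, x3⟩ := hγ.sur fun j => Function.invFun ε (x j - c (γ j))
  refine ⟨fun g => c g + ε (χ g), c1.add (q8_coc E k x1),
    fun v hv σ hσ => by simp only [c2 v hv σ hσ, x2 v hv σ hσ, map_zero, add_zero], fun j => ?_⟩
  beta_reduce
  rw [x3, E.ker _ (by rw [map_sub, c3 _ (hγ.mem j), d3, sub_self]), add_sub_cancel]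

theorem rowF_map {R' : Type} [CommRing R'] (f : R →+* R') (st : ι → Prop) (β : Fin 4 → R)
    (x : Option (Option ι)) (j : J) : f (rowF st t ρ β L x j) =
      rowF st t (fun g => f (ρ g)) (fun i => f (β i)) (fun g j => f (L g j)) x j := by
  rcases x with _ | _ | i
  · exact map_zero f
  · simp only [rowF, map_sum, map_mul]
  · simp only [rowF, apply_ite f, rq, map_sub, map_mul, map_sum, map_pow, map_one]

theorem Prs.map {κ : Type} {B : κ → J → R} {R' : Type} [CommRing R'] (f : R →+* R')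
    (k : Prs t γ ρ L B) :
    Prs t γ (fun g => f (ρ g)) (fun g j => f (L g j)) fun i j => f (B i j) := by
  refine ⟨k.val.map f, fun M _ _ _ => ?_, fun M _ _ _ => ?_⟩
  · let _ : Module R M := Module.compHom M f
    exact k.rel M
  · let _ : Module R M := Module.compHom M f
    exact k.ex M

theorem q8_w (st : ι → Prop) (β : Fin 4 → R) (x : J → M) :
    ∑ j, rowF st t ρ β L (some none) j • x j = ∑ i, β i • ∑ j, L (ew i) j • x j := by
  simp only [rowF, sum_smul, smul_sum, mul_smul]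
  exact sum_comm

theorem q8_st {st : ι → Prop} (β : Fin 4 → R) (x : J → M) {i : ι} (q : st i) :
    ∑ j, rowF st t ρ β L (some (some i)) j • x j = ∑ j, L (t i).σ j • x j := by
  simp only [rowF, if_pos q]

theorem q8_ns {st : ι → Prop} (β : Fin 4 → R) (x : J → M) {i : ι} (q : ¬ st i) :
    ∑ j, rowF st t ρ β L (some (some i)) j • x j =
      (ρ (t i).σ - 1) • ∑ j, L (t i).φ j • x j - rq ρ (t i) • ∑ j, L (t i).σ j • x j := by
  simp only [rowF, if_neg q, sub_smul _ (rq ρ (t i) * _), mul_smul, sum_sub_distrib, smul_sum]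

/-- The presentation. -/
theorem prs_of [Lo2 R] [Finite ι] (hd : Fd d) (inj : ∀ i j, (t i).π = (t j).π → i = j)
    (hγ : Gens d t γ) (k : Ch d ρ) {st : ι → Prop} (hs : ∀ i, st i → Spt d (t i).v)
    (hu : Unr (sb t st) fun g => ρ g - 1) (hL : Val t γ ρ L) {β : Fin 4 → R}
    (hβ : Spt d w3 → IsB ρ β) {κ : Type} {ty : κ → Option (Option ι)} (hty : Ty d t ty) :
    Prs (sb t st) γ ρ L fun i => rowF st t ρ β L (ty i) := by
  have o : ∀ i, st i → Off (sb t st) (t i).v := fun i q =>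
    off_tp.2 fun j e => j.2 (inj _ _ e ▸ q)
  refine ⟨hL.le fun _ => off_sb, fun M _ _ _ c hc hu' i => ?_, fun M _ _ _ x hx => ?_⟩
  · have ev := hL M c hc (unr_le (fun _ => off_sb) hu')
    rcases e : ty i with _ | _ | j
    · simp only [rowF, zero_smul, sum_const_zero]
    · rw [q8_w]
      exact (hβ (hty.sw i e) M _).1 ⟨c, hc.mono inf_le_left, fun i => ev _ (ew_mem i).1⟩
    · by_cases q : st j
      · rw [q8_st β _ q, ← ev _ (t j).σ_mem, hu' _ (o j q) _ (t j).σ_ine]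
      · rw [q8_ns β _ q, ← ev _ (t j).σ_mem, ← ev _ (t j).φ_mem,
          rel k (hty.sp i j e) (hc.mono inf_le_left), sub_self]
  · have z : ∀ j, st j → ∑ i, L (t j).σ i • x i = 0 := fun j q => by
      obtain ⟨i, e⟩ := hty.cp j (hs j q)
      have := hx i
      rwa [e, q8_st β _ q] at this
    obtain ⟨c, c1, c2, c3⟩ := exists_coc hd hγ k (unr_le (fun _ => off_sb) hu) hL x
      (fun j sp => exists_tame k sp (by
        by_cases q : st j
        · rw [z j q, show ρ (t j).σ - 1 = 0 from hu _ (o j q) _ (t j).σ_ine, zero_smul, smul_zero]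
        · obtain ⟨i, e⟩ := hty.cp j sp
          have := hx i
          rwa [e, q8_ns β _ q, sub_eq_zero] at this))
      fun sp => (hβ sp M _).2 (by
        obtain ⟨i, e⟩ := hty.cw sp
        have := hx i
        rwa [e, q8_w] at this)
    refine ⟨c, c1, fun v hv => ?_, c3⟩
    rcases off_or t hv.1 with q | ⟨j, g, hg, rfl⟩
    · exact c2 v q
    · have q : st j := by
        by_contra q
        have := hv.2 ⟨j, q⟩
        rw [B2.smul_V, io_fx _ _ (inv_mem hg)] at this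
        exact (t j).lt.ne this
      refine k.unr_smul c1 (t j).odd (hu _ (o j q))
        (ine_zero k (hs j q) (c1.mono inf_le_left) ?_) hg
      simp only [hL M c c1 c2 _ (t j).σ_mem, c3, z j q]

end Pool.Agent.Lib.MP_696deb_nt.EV.D
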