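import Pool.Agent.Lib.MP_696deb_nt.ED.Q7
import Pool.Agent.Lib.MP_696deb_nt.EV.S2

/-! The reciprocity law. -/

set_option autoImplicit false

open scoped Classical NNReal
open Finset

namespace Pool.Agent.Lib.MP_696deb_nt.EV.D

variable {R : Type} [CommRing R] {d : ℤ} {ι : Type} {t : ι → TP} {ρ ρ' c c' p q : Gam → R} {e : ℕ}
  {H : Subgroup Gam}

theorem c2_cupR (f : ZMod (3 ^ e) →+* R) (hH : H ≤ G) (h : Ch d ρ) (h' : Ch d ρ')
    (hd : ∀ g ∈ G, ρ g * ρ' g = f (cy e g)) (hc : Zc H ρ c) (hc' : Zc H ρ' c')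
    (l : R →+ ZMod (3 ^ e)) : C2 e H (cupR l ρ' c c') := by
  refine ⟨(hc.1.comp₂ (h'.sm.mono hH) Prod.mk).left.comp₂ hc'.1.right
    fun x y => l (x.1 * (x.2 * y)), fun g hg k hk j hj => ?_⟩
  simp only [cupR]
  rw [← p5_lin f, ← hd g (hH hg), hc.2 g hg k hk, hc'.2 k hk j hj, h'.mul g (hH hg) k (hH hk),
    ← map_add, ← map_add]
  simp only [smul_eq_mul]
  congr 1
  ring

theorem spl_cupR (f : ZMod (3 ^ e) →+* R) (hH : H ≤ G) (h : Ch d ρ) (h' : Ch d ρ')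
    (hd : ∀ g ∈ G, ρ g * ρ' g = f (cy e g)) {x : R} (hc : ∀ g ∈ H, c g = (ρ g - 1) * x)
    (hc' : Zc H ρ' c') (l : R →+ ZMod (3 ^ e)) : Spl e H (cupR l ρ' c c') := by
  refine ⟨fun g => l (x * c' g), hc'.1.comp fun y => l (x * y), fun g hg k hk => ?_⟩
  simp only [cupR]
  rw [← p5_lin f, ← hd g (hH hg), hc g hg, hc'.2 g hg k hk, ← map_add, ← map_sub, smul_eq_mul]
  congr 1
  ring

theorem spl_cupR' (f : ZMod (3 ^ e) →+* R) (hH : H ≤ G) (h : Ch d ρ) (h' : Ch d ρ')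
    (hd : ∀ g ∈ G, ρ g * ρ' g = f (cy e g)) (hc : Zc H ρ c) {x : R}
    (hc' : ∀ g ∈ H, c' g = (ρ' g - 1) * x) (l : R →+ ZMod (3 ^ e)) :
    Spl e H (cupR l ρ' c c') := by
  refine ⟨fun g => l (-(c g * (ρ' g * x))), hc.1.comp₂ (h'.sm.mono hH) fun y z => l (-(y * (z * x))),
    fun g hg k hk => ?_⟩
  simp only [cupR]
  rw [← p5_lin f, ← hd g (hH hg), hc' k hk, hc.2 g hg k hk, h'.mul g (hH hg) k (hH hk), ← map_add,
    ← map_sub, smul_eq_mul]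
  congr 1
  ring

theorem spl_mix (f : ZMod (3 ^ e) →+* R) (hH : H ≤ G) (h : Ch d ρ) (h' : Ch d ρ')
    (hd : ∀ g ∈ G, ρ g * ρ' g = f (cy e g)) (hc' : Zc H ρ' c') (hp : Zc H ρ p) {x y z u : R}
    (k : ∀ g ∈ H, c g = (ρ g - 1) * x + y * p g)
    (k' : ∀ g ∈ H, c' g = z * q g + (ρ' g - 1) * u) (l : R →+ ZMod (3 ^ e))
    (s : Spl e H (cupR l ρ' (fun g => z * (y * p g)) q)) : Spl e H (cupR l ρ' c c') := by
  have s1 := spl_cupR f hH h h' hd (c := fun g => (ρ g - 1) * x) (fun _ _ => rfl) hc' l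
  have s2 := spl_cupR' f hH h h' hd (hp.smul y) (c' := fun g => (ρ' g - 1) * u) (fun _ _ => rfl) l
  refine spl_congr (spl_lin s1 (spl_lin s s2 1 1) 1 1) fun g hg j hj => ?_
  simp only [cupR, one_mul, ← map_add, smul_eq_mul]
  congr 1
  rw [k g hg]
  linear_combination (y * p g * ρ' g) * k' j hj

theorem q9_unr (F : CFT) (f : ZMod (3 ^ e) →+* R) (h : Ch d ρ) (h' : Ch d ρ')
    (hd : ∀ g ∈ G, ρ g * ρ' g = f (cy e g)) (hc : Zc G ρ c) (hc' : Zc G ρ' c') {v : Plc}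
    (k : ∀ σ ∈ Ine v, ρ' σ - 1 = 0 ∧ c σ = 0 ∧ c' σ = 0) (l : R →+ ZMod (3 ^ e)) :
    F.inv e G v (cupR l ρ' c c') = 0 := by
  refine F.unr op_G ((c2_cupR f le_rfl h h' hd hc hc' l).mono inf_le_left)
    fun g hg j hj σ hσ τ hτ => ?_
  rw [cupR, cupR, hc.2 g hg.1 σ hσ.1, hc'.2 j hj.1 τ hτ.1, (k σ hσ.2).2.1, (k τ hτ.2).2.2,
    smul_zero, smul_zero, add_zero, add_zero, h'.mul g hg.1 σ hσ.1, sub_eq_zero.1 (k σ hσ.2).1,
    mul_one]

theorem q9_deep [Lo2 R] (F : CFT) (f : ZMod (3 ^ e) →+* R) (h : Ch d ρ)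
    (hd : ∀ g ∈ G, ρ g * ρ' g = f (cy e g)) (hc : Zc G ρ c) (hc' : Zc G ρ' c') {r : TP}
    (k0 : Spt d r.v) (k1 : ρ r.φ = 1) (k2 : ρ r.σ = 1) (k3 : ((nm r.π : ℕ) : ZMod (3 ^ e)) = 1)
    (l : R →+ ZMod (3 ^ e)) :
    F.inv e G r.v (cupR l ρ' c c') = l (f (du e r) * (c r.φ * c' r.σ - c r.σ * c' r.φ)) := by
  have ha : ∀ g ∈ G ⊓ Dec r.v, ∀ x : R, sa R ρ g x = x := fun g hg x =>
    r.tm.fix (p5_kill f) (h.act k0.le) (by rw [sa_apply, k2, one_smul])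
      (by rw [sa_apply, k1, one_smul]) hg
  have ha' : ∀ g ∈ G ⊓ Dec r.v, ∀ x : R, sa R ρ' g x = x := fun g hg x => by
    have e1 : ρ g = 1 := by simpa [sa_apply] using ha g hg 1
    have e2 := hd g hg.1
    rw [e1, one_mul, r.tm.cy_one k3 hg, map_one] at e2
    rw [sa_apply, e2, one_smul]
  have e3 := (r.tm.deep_inv k3).choose_spec F R R (AddMonoidHom.mul.compr₂ l) (sa R ρ) (sa R ρ')
    c c' (p5_kill f) (p5_kill f) ha ha' (hc.mono inf_le_left) (hc'.mono inf_le_left)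
  rw [p5_lin f, du, dif_pos k3, map_sub]
  exact e3

theorem recip [Lo2 R] [Fintype ι] (f : ZMod (3 ^ e) →+* R)
    (inj : ∀ i j, (t i).π = (t j).π → i = j) (h : Ch d ρ) (h' : Ch d ρ')
    (hd : ∀ g ∈ G, ρ g * ρ' g = f (cy e g)) (u' : Unr t fun g => ρ' g - 1) (dp : ι → Prop)
    (h1 : ∀ i, dp i → Spt d (t i).v ∧ ρ (t i).φ = 1 ∧ ρ (t i).σ = 1 ∧
      ((nm (t i).π : ℕ) : ZMod (3 ^ e)) = 1)
    (h2 : ∀ i, ¬ dp i → (∃ x, ∀ g ∈ G ⊓ Dec (t i).v, c g = (ρ g - 1) * x) ∨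
      ∀ σ ∈ Ine (t i).v, ρ' σ - 1 = 0 ∧ c σ = 0 ∧ c' σ = 0)
    (hc : Zc G ρ c) (hu : Unr t c) (hc' : Zc G ρ' c') (hu' : Unr t c')
    (hw : ∀ l : R →+ ZMod (3 ^ e), Spl e Hw (cupR l ρ' c c')) :
    ∑ i with dp i, f (du e (t i)) * (c (t i).φ * c' (t i).σ - c (t i).σ * c' (t i).φ) = 0 := by
  obtain ⟨F⟩ := H3.exists_cft
  have inj' : Function.Injective fun i => (t i).v := fun i j k =>
    p5_apart inj (one_mem G) ((one_smul _ _).trans k)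
  have n2 : ∀ i, ∀ g : Gam, g • w3 ≠ (t i).v := fun i g k =>
    (t i).odd (by rw [← k, B2.smul_p, w3_p])
  refine p5_sep (p5_kill f) fun l => ?_
  have c2 := c2_cupR f le_rfl h h' hd hc hc' l
  have key := F.recip (insert w3 (univ.image fun i => (t i).v)) op_G c2
    (fun v hv v' hv' g hg k => by
      rcases mem_insert.1 hv with rfl | hv <;> rcases mem_insert.1 hv' with rfl | hv'
      · rfl
      · obtain ⟨j, -, rfl⟩ := mem_image.1 hv'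
        exact absurd k (n2 j g)
      · obtain ⟨j, -, rfl⟩ := mem_image.1 hv
        exact absurd (by rw [← k, inv_smul_smul]) (n2 j g⁻¹)
      · obtain ⟨i, -, rfl⟩ := mem_image.1 hv
        obtain ⟨j, -, rfl⟩ := mem_image.1 hv'
        rw [p5_apart inj hg k])
    fun v hv => by
      have o1 : v.p ≠ 3 := fun k => by
        obtain ⟨g, hg, k⟩ := conj_w3 k
        exact hv _ (mem_insert_self _ _) g hg k
      have o2 : Off t v := (off_or t o1).resolve_right fun ⟨i, g, hg, k⟩ =>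
        hv _ (mem_insert_of_mem (mem_image_of_mem _ (mem_univ i))) g hg k
      exact q9_unr F f h h' hd hc hc' (fun σ hσ => ⟨u' v o2 σ hσ, hu v o2 σ hσ, hu' v o2 σ hσ⟩) l
  rw [sum_insert fun k => by
      obtain ⟨j, -, k⟩ := mem_image.1 k
      exact n2 j 1 ((one_smul _ _).trans k.symm),
    (F.zero_iff op_G (c2.mono inf_le_left)).2 (hw l), zero_add,
    sum_image fun i _ j _ k => inj' k] at key
  rw [← key, map_sum, sum_filter]
  refine sum_congr rfl fun i _ => ?_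
  split_ifs with hi
  · obtain ⟨k0, k1, k2, k3⟩ := h1 i hi
    rw [q9_deep F f h hd hc hc' k0 k1 k2 k3]
  · rcases h2 i hi with ⟨y, hy⟩ | k
    · exact ((F.zero_iff op_G (c2.mono inf_le_left)).2
        (spl_cupR f inf_le_left h h' hd hy (hc'.mono inf_le_left) l)).symm
    · exact (q9_unr F f h h' hd hc hc' k l).symm

end Pool.Agent.Lib.MP_696deb_nt.EV.D
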