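import Pool.Agent.Lib.MP_696deb_nt.EV.TopC

/-! The abstract data of the limit argument with two systems. -/

set_option autoImplicit false

open scoped Classical NNReal
open Finset Matrix PowerSeries

namespace Pool.Agent.Lib.MP_696deb_nt.EV.D

/-- Indices of the rows at stage `n`. -/
def Jx (κ : Type) : ℕ → Type
  | 0 => κ
  | n + 1 => Option (Jx κ n)

instance Jx.fintype (κ : Type) [Fintype κ] : ∀ n, Fintype (Jx κ n)
  | 0 => inferInstanceAs (Fintype κ)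
  | n + 1 => @instFintypeOption _ (Jx.fintype κ n)

/-- The primes that were added. -/
def Jx.deep {κ : Type} : ∀ {n : ℕ}, Jx κ n → Prop
  | 0, _ => False
  | _ + 1, none => True
  | _ + 1, some i => Jx.deep i

theorem Jx.card (κ : Type) [Fintype κ] (n : ℕ) : Fintype.card (Jx κ n) = Fintype.card κ + n := by
  induction n with
  | zero => rfl
  | succ n ih => exact Fintype.card_option.trans (by rw [ih]; rfl)

/-- The presentation of the modules of cocycles. -/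
structure Pres {Γ ι : Type} [Group Γ] [Fintype ι] (ρ : Γ →* La) (gen : ι ⊕ Fin 2 → Γ)
    (L : Γ → ι ⊕ Fin 2 → La) (R : ι → ι ⊕ Fin 2 → La) (Z : Ideal La → Submodule La (Γ → La)) :
    Prop where
  coc : ∀ I, ∀ c ∈ Z I, ∀ g h, c (g * h) - (c g + ρ g * c h) ∈ I
  cob : ∀ I, (fun g => ρ g - 1) ∈ Z I
  mono : ∀ I, Z ⊥ ≤ Z I
  val : ∀ I, I ≠ ⊤ → ∀ c ∈ Z I, ∀ g, c g - (L g ⬝ᵥ fun j => c (gen j)) ∈ I
  rel : ∀ I, I ≠ ⊤ → ∀ c ∈ Z I, ∀ i, (R i ⬝ᵥ fun j => c (gen j)) ∈ I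
  ex : ∀ I, I ≠ ⊤ → ∀ x : ι ⊕ Fin 2 → La, (∀ i, R i ⬝ᵥ x ∈ I) →
    ∃ c ∈ Z I, ∀ j, c (gen j) - x j ∈ I

/-- The primes at which duality is used: `true` is the system of the curve, `false` is the system
of the units. -/
def Gd (y : Bool) (I : Ideal La) : Prop :=
  Pr I ∧ (y = false → X ∉ I) ∨ y = true ∧ I = Ideal.span {ww}

/-- The data. The first boolean index names the system, the second one names the side. -/
structure Dat (Γ κ : Type) [Group Γ] where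
  ρ : Bool → Bool → Γ →* La
  g0 : Γ
  e : Fin 4 → Γ
  St : ℕ → Type
  gen : ∀ {n : ℕ}, St n → Jx κ n ⊕ Fin 2 → Γ
  φ : ∀ {n : ℕ}, St n → Jx κ n → Γ
  L : ∀ {n : ℕ}, St n → Bool → Bool → Γ → Jx κ n ⊕ Fin 2 → La
  R : ∀ {n : ℕ}, St n → Bool → Bool → Jx κ n → Jx κ n ⊕ Fin 2 → La
  Z : ∀ {n : ℕ}, St n → Bool → Bool → Ideal La → Submodule La (Γ → La)
  u : ∀ {n : ℕ}, St n → Jx κ n → La
  N : ∀ {n : ℕ}, St n → Subgroup Γ
  kap : ∀ {n : ℕ}, St n → Bool → Γ → La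
  W : Bool → Ideal La → Submodule La (Fin 4 → La)
  s0 : St 0
  F : Bool → Γ → La
  k : Fin 4 → La
  t : κ → La
  B' : Matrix κ (κ ⊕ Fin 2) La
  F' : Γ → La
  v : ℕ

namespace Dat

variable {Γ κ : Type} [Group Γ] [Fintype κ] (D : Dat Γ κ)

/-- The stage `s'` has one more prime than `s`. -/
structure Ext {n : ℕ} (s : D.St n) (s' : D.St (n + 1)) : Prop where
  gen : ∀ j, D.gen s' (old j) = D.gen s j
  φ : ∀ i, D.φ s' (some i) = D.φ s i
  L : ∀ y g j, D.L s' y true g (old j) = D.L s y true g j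
  R : ∀ y i j, D.R s' y true (some i) (old j) = D.R s y true i j
  le : ∀ y b I, D.Z s y b I ≤ D.Z s' y b I
  zero : ∀ y b I, ∀ c ∈ D.Z s y b I, c (D.gen s' (.inl none)) ∈ I
  unr : ∀ y b I, I ≠ ⊤ → ∀ c ∈ D.Z s' y b I, c (D.gen s' (.inl none)) ∈ I → c ∈ D.Z s y b I
  kap : ∀ y, D.kap s' y (D.gen s' (.inl none)) = -D.kap s y (D.φ s' none)

/-- The matrix of relations. -/
noncomputable def B {n : ℕ} (s : D.St n) (y : Bool) : Matrix (Jx κ n) (Jx κ n ⊕ Fin 2) La :=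
  fun i => if i.deep then D.L s y true (D.φ s i) else D.R s y true i

/-- The values at the generators. -/
def vl {n : ℕ} (s : D.St n) (c : Γ → La) (j : Jx κ n ⊕ Fin 2) : La := c (D.gen s j)

/-- The rigidified cocycle. -/
noncomputable def hat (y b : Bool) (c : Γ → La) (g : Γ) : La :=
  (D.ρ y b D.g0 - 1) * c g - (D.ρ y b g - 1) * c D.g0

/-- The values at three lie in the span of the coboundaries and the local points. -/
def Km (c : Γ → La) : Prop := ∃ d x y : La, d ∉ Ideal.span {(X : La)} ∧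
  ∀ i, d * c (D.e i) - (x * (D.ρ true false (D.e i) - 1) + y * D.k i) ∈ Ideal.span {(X : La)}

/-- The kernel of the matrix of relations has rank at least `m` modulo `I`. -/
def Zr {n : ℕ} (s : D.St n) (y : Bool) (I : Ideal La) (m : ℕ) : Prop :=
  ∃ x : Fin m → Jx κ n ⊕ Fin 2 → La, Indep I x ∧ ∀ i j, (D.B s y *ᵥ x i) j ∈ I

/-- Cocycles that vanish at the Frobenius elements of the primes that were added. -/
def Tr {n : ℕ} (s : D.St n) (I : Ideal La) (c : Γ → La) : Prop :=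
  ∀ i : Jx κ n, i.deep → c (D.φ s i) ∈ I

/-- Two cocycles that are independent modulo coboundaries. -/
def Two (y b : Bool) (I : Ideal La) (c c' : Γ → La) : Prop :=
  ∀ t t' : La, (∀ g, t * D.hat y b c g + t' * D.hat y b c' g ∈ I) → t ∈ I ∧ t' ∈ I

/-- Classes of units at the lowest level. -/
def Un (c : Γ → La) : Prop := c ∈ D.Z D.s0 false true (Ideal.span {X}) ∧
  ∀ i, (D.B' *ᵥ fun j => c (D.gen D.s0 j)) i ∈ Ideal.span {(X : La)}

/-- The properties. -/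
structure Ok : Prop where
  vp : ∀ y b, IsUnit (D.ρ y b D.g0 - 1)
  ne : ∀ y I, Gd y I → ∃ i, D.ρ y false (D.e i) - 1 ∉ I
  pres : ∀ {n : ℕ} (s : D.St n) (y b : Bool),
    Pres (D.ρ y b) (D.gen s) (D.L s y b) (D.R s y b) (D.Z s y b)
  deep : ∀ {n : ℕ} (s : D.St n) (y b : Bool) (i : Jx κ n), i.deep →
    D.ρ y b (D.φ s i) = 1 ∧ D.ρ y b (D.gen s (.inl i)) = 1 ∧ D.R s y b i = 0
  W_mem : ∀ {n : ℕ} (s : D.St n) (y : Bool) (I : Ideal La), ∀ c ∈ D.Z s y false I,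
    (fun i => c (D.e i)) ∈ D.W y I
  lw : ∀ y I, Gd y I → ∀ d ∉ I, ¬ ∀ z : Fin 4 → La, ∃ v ∈ D.W y I, ∀ i, v i - d * z i ∈ I
  unit : ∀ {n : ℕ} (s : D.St n) (i : Jx κ n), i.deep → IsUnit (D.u s i)
  recip : ∀ y I, Gd y I → ∀ {n : ℕ} (s : D.St n), ∀ c ∈ D.Z s y true I, ∀ c' ∈ D.Z s y false I,
    (∀ i, c' (D.e i) ∈ I) → ∑ i : Jx κ n with i.deep, D.u s i *
      (c' (D.φ s i) * c (D.gen s (.inl i)) - c' (D.gen s (.inl i)) * c (D.φ s i)) ∈ I
  N_ρ : ∀ {n : ℕ} (s : D.St n) (y b : Bool), ∀ x ∈ D.N s, D.ρ y b x = 1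
  comm : ∀ {n : ℕ} (s : D.St n) (g : Γ), cmt D.g0 (cmt D.g0 g) ∈ D.N s
  step : ∀ {n : ℕ} (s : D.St n), ∀ x ∈ D.N s, ∀ (m : ℕ) (c : Fin m → Γ → La)
    (y b : Fin m → Bool) (J : Fin m → Ideal La), (∀ i, J i ≠ ⊤ ∧ c i ∈ D.Z s (y i) (b i) (J i)) →
    ∃ (s' : D.St (n + 1)) (t : La), D.Ext s s' ∧ IsUnit t ∧
      ∀ i, c i (D.φ s' none) - t * c i x ∈ J i
  kap_mem : ∀ {n : ℕ} (s : D.St n) (y : Bool), D.kap s y ∈ D.Z s y true ⊥
  kap_φ : ∀ {n : ℕ} (s : D.St n) (y : Bool) (i : Jx κ n), i.deep → D.kap s y (D.φ s i) = 0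
  F_mem : ∀ y, D.F y ∈ D.Z D.s0 y true ⊥
  kap0 : ∀ y g, D.kap D.s0 y g = D.hat y true (D.F y) g
  cg_ρ : ∀ g, ww ∣ D.ρ true true g - D.ρ false true g
  cg_B : ∀ {n : ℕ} (s : D.St n) i j, ww ∣ D.B s true i j - D.B s false i j
  cg_kap : ∀ {n : ℕ} (s : D.St n) g, ww ∣ D.kap s true g - D.kap s false g
  row : ∀ i j, D.R D.s0 false true i j = D.t i * D.B' i j
  t_ne : ∀ i, D.t i ≠ 0
  F'_mem : D.F' ∈ D.Z D.s0 false true ⊥
  nr : ∃ u, IsUnit u ∧ ∀ g, D.hat false true (D.F false) g =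
    u * (∏ i, D.t i) * D.hat false true D.F' g
  rk2 : ∀ c c', D.Un c → D.Un c' → ¬ D.Two false true (Ideal.span {X}) c c'
  cnt : ∀ l l', (3 : Ow) ^ D.v ∣ constantCoeff (Dt D.B' l l')
  idx : ∃ g, ¬ wO * 3 ^ D.v ∣ constantCoeff (D.hat false true D.F' g)
  k_mem : D.k ∈ D.W true (Ideal.span {X})
  ind : ∀ x y : La, (∀ i, x * (D.ρ true false (D.e i) - 1) + y * D.k i ∈ Ideal.span {(X : La)}) →
    y ∈ Ideal.span {(X : La)}

/-- The properties in the case of rank zero. -/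
structure Ok1 : Prop extends D.Ok where
  sel : ∀ c ∈ D.Z D.s0 true false (Ideal.span {X}), D.Km c →
    ∀ g, D.hat true false c g ∈ Ideal.span {(X : La)}
  erl : ∀ s : D.St 1, D.Ext D.s0 s → ∀ c ∈ D.Z s true false (Ideal.span {X}), D.Km c →
    c (D.gen s (.inl none)) * D.F true (D.φ s none) ∈ Ideal.span {(X : La)}

end Dat

end Pool.Agent.Lib.MP_696deb_nt.EV.D
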