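import Pool.Agent.Lib.MP_696deb_nt.ED.Q6
import Pool.Agent.Lib.MP_696deb_nt.ED.Q8
import Pool.Agent.Lib.MP_696deb_nt.ED.Q9
import Pool.Agent.Lib.MP_696deb_nt.ED.Sys
import Pool.Agent.Lib.MP_696deb_nt.EV.LimA

/-! Limits of cocycles. -/

set_option autoImplicit false

open scoped Classical NNReal
open Finset Matrix PowerSeries

namespace Pool.Agent.Lib.MP_696deb_nt.EV.D

variable {d : ℤ} {ι ι' κ : Type} {t : ℕ → ι → TP} {t' : ℕ → ι' → TP} {ρ ρ' c c' : ℕ → Gam → La}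
  {I J J' : Ideal La}

theorem Ch.fac {r : Gam → La} (h : Ch d (md J r)) (k : J ≤ J') : Ch d (md J' r) :=
  h.map (Ideal.Quotient.factor k)

/-- The module of the values of limits of local cocycles. -/
noncomputable def WL (d : ℤ) (ρ : ℕ → Gam → La) (I : Ideal La) : Submodule La (Fin 4 → La) where
  carrier := {v | ∃ c, LW ρ I c ∧ v = fun i => ul fun k => c k (ee d i)}
  zero_mem' := ⟨_, LW.zero, funext fun _ => (ul_const 0).symm⟩
  add_mem' := by
    rintro _ _ ⟨c, h, rfl⟩ ⟨c', h', rfl⟩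
    exact ⟨_, h.add h', funext fun _ => (ul_add _ _).symm⟩
  smul_mem' := by
    rintro a _ ⟨c, h, rfl⟩
    exact ⟨_, h.smul a, funext fun g => ((ul_mul _ _).trans (by rw [ul_const]; rfl)).symm⟩

/-- The limit of a sequence of characters. -/
noncomputable def limH (ρ : ℕ → Gam → La) (h : ∀ k, Ch d (md (aa k) (ρ k))) : GG →* La where
  toFun := lim ρ
  map_one' := (ul_congr (.of_forall fun k => Ideal.Quotient.eq.1 (h k).one)).trans (ul_const 1)
  map_mul' g g' := (ul_congr (.of_forall fun k => Ideal.Quotient.eq.1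
    (((h k).mul _ (g k).2 _ (g' k).2).trans (map_mul _ _ _).symm))).trans (ul_mul _ _)

/-- The local elements. -/
noncomputable def eeL (d : ℤ) (i : Fin 4) : GG := fun _ => ⟨ee d i, (ee_mem d i).1⟩

/-- Dual sequences of characters. -/
structure Dual (d : ℤ) (ρ ρ' : ℕ → Gam → La) : Prop where
  chr : ∀ k, Ch d (md (aa k) (ρ k))
  chr' : ∀ k, Ch d (md (aa k) (ρ' k))
  mul : ∀ k, ∀ g ∈ G, ρ k g * ρ' k g - C (algebraMap ℤ_[3] Ow (cyc g)) ∈ aa k

theorem Dual.symm (h : Dual d ρ ρ') : Dual d ρ' ρ :=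
  ⟨h.chr', h.chr, fun k g hg => mul_comm (ρ k g) _ ▸ h.mul k g hg⟩

theorem Dual.cy {k e : ℕ} (h : Dual d ρ ρ') (hJ : aa k ≤ J) (f : ZMod (3 ^ e) →+* La ⧸ J) :
    ∀ g ∈ G, md J (ρ k) g * md J (ρ' k) g = f (cy e g) :=
  fun g hg => (map_mul _ _ _).symm.trans
    ((Ideal.Quotient.eq.2 (hJ (h.mul k g hg))).trans (mk_padic f _))

theorem lo2_sup (h : I ≠ ⊤) (j : ℕ) : Lo2 (La ⧸ (I ⊔ aa j)) := lo2_of le_sup_right (sup_ne_top h j)

theorem lim_fac {κ' : Type} [Fintype κ'] {u : ι → TP} {γ : κ' → Gam} {r : Gam → La}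
    {L : Gam → κ' → La} {B : κ → κ' → La}
    (h : Prs u γ (md J r) (mdL J L) fun i j => Ideal.Quotient.mk J (B i j)) (k : J ≤ J') :
    Prs u γ (md J' r) (mdL J' L) fun i j => Ideal.Quotient.mk J' (B i j) :=
  h.map (Ideal.Quotient.factor k)

theorem pres_lim [Fintype κ] (h : ∀ k, Ch d (md (aa k) (ρ k)))
    (hu : ∀ k, Unr (t k) fun g => md (aa k) (ρ k) g - 1) (γ : κ ⊕ Fin 2 → GG)
    {L : ℕ → Gam → κ ⊕ Fin 2 → La} {B : ℕ → κ → κ ⊕ Fin 2 → La}
    (hL : ∀ k, Prs (t k) (fun j => γ j k) (md (aa k) (ρ k)) (mdL (aa k) (L k))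
      fun i j => Ideal.Quotient.mk (aa k) (B k i j)) :
    Pres (limH ρ h) γ (LL L) (fun i j => ul fun k => B k i j) (ZL t ρ) where
  coc I := by
    rintro _ ⟨c, hc, rfl⟩ g g'
    refine lima_of (fun k => c k (g k * g' k) - (c k (g k) + ρ k (g k) * c k (g' k)))
      (by rw [ul_sub, ul_add, ul_mul]; rfl) fun j => (hc j).mono fun k hk => ?_
    rw [map_sub, map_add, map_mul]
    exact sub_eq_zero.2 (hk.1.2 _ (g k).2 _ (g' k).2)
  cob I := ⟨fun k g => ρ k g - 1, .of (fun k => ⟨((h k).cob le_rfl (1 : La ⧸ aa k)).congr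
    (fun _ _ => rfl) fun _ _ => (mul_one _).symm, hu k⟩) I, funext fun _ => (lima_one _).symm⟩
  mono I := by
    rintro _ ⟨c, hc, rfl⟩
    exact ⟨c, fun j => (hc j).mono fun k hk =>
      ⟨hk.1.fac (sup_le_sup_right bot_le _), hk.2.fac (sup_le_sup_right bot_le _)⟩, rfl⟩
  val I hI := by
    rintro _ ⟨c, hc, rfl⟩ g
    refine lima_of (fun k => c k (g k) - ∑ j, L k (g k) j * c k (γ j k))
      (by simp only [ul_sub, ul_sum, ul_mul]; rfl) fun j =>
      ((hc j).and (ev_ge j)).mono fun k hk => ?_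
    have := lo2_sup hI j
    simp only [map_sub, map_sum, map_mul]
    exact sub_eq_zero.2 ((lim_fac (hL k) (aa_le_sup hk.2 I)).val _ _ hk.1.1 hk.1.2 _ (g k).2)
  rel I hI := by
    rintro _ ⟨c, hc, rfl⟩ i
    refine lima_of (fun k => ∑ j, B k i j * c k (γ j k))
      (by simp only [ul_sum, ul_mul]; rfl) fun j => ((hc j).and (ev_ge j)).mono fun k hk => ?_
    have := lo2_sup hI j
    simp only [map_sum, map_mul]
    exact (lim_fac (hL k) (aa_le_sup hk.2 I)).rel _ _ hk.1.1 hk.1.2 i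
  ex I hI x hx := by
    have h0 := fun i => lima_to (fun k => ∑ j, B k i j * x j)
      (by simp only [ul_sum, ul_mul, ul_const]; rfl) (hx i)
    obtain ⟨c, hc⟩ := lima_diag (p := fun j k (c : Gam → La) =>
      (Zc G (md (I ⊔ aa j) (ρ k)) (md (I ⊔ aa j) c) ∧ Unr (t k) (md (I ⊔ aa j) c)) ∧
        ∀ i, c (γ i k) - x i ∈ I ⊔ aa j) (fun j =>
      ((Filter.eventually_all.2 fun i => h0 i j).and (ev_ge j)).mono fun k hk => by
        have := lo2_sup hI j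
        obtain ⟨c, h1, h2, h3⟩ := (lim_fac (hL k) (aa_le_sup hk.2 I)).ex _
          (fun i => Ideal.Quotient.mk (I ⊔ aa j) (x i)) fun i => by
            have := hk.1 i
            simp only [map_mul, map_sum] at this
            exact this
        exact ⟨lft c, by rw [md_lft]; exact ⟨h1, h2⟩, fun i =>
          Ideal.Quotient.eq.1 ((congrFun (md_lft c) _).trans (h3 i))⟩)
      fun j j' k c e h => have e' := sup_le_sup_left (aa_anti e) I
        ⟨⟨h.1.1.fac e', h.1.2.fac e'⟩, fun i => e' (h.2 i)⟩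
    refine ⟨lim c, ⟨c, fun j => (hc j).mono fun _ hk => hk.1, rfl⟩, fun i => ?_⟩
    exact lima_of (fun k => c k (γ i k) - x i) (by rw [ul_sub, ul_const]; rfl) fun j =>
      (hc j).mono fun _ hk => Ideal.Quotient.eq_zero_iff_mem.2 (hk.2 i)

theorem ZL_le (h : ∀ k v, Off (t' k) v → Off (t k) v) : ZL t ρ I ≤ ZL t' ρ I := by
  rintro _ ⟨c, hc, rfl⟩
  exact ⟨c, fun j => (hc j).mono fun k hk => ⟨hk.1, unr_le (h k) hk.2⟩, rfl⟩

theorem ZL_zero (r : ℕ → TP) (h : ∀ k, Off (t k) (r k).v) :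
    ∀ f ∈ ZL t ρ I, f (fun k => ⟨(r k).σ, (r k).σ_mem⟩) ∈ I := by
  rintro _ ⟨c, hc, rfl⟩
  exact lima_of _ rfl fun j => (hc j).mono fun k hk => hk.2 _ (h k) _ (r k).σ_ine

theorem ZL_unr (h : ∀ k, Ch d (md (aa k) (ρ k))) (hI : I ≠ ⊤) (r : ℕ → TP)
    (ht : ∀ k v, Off (t k) v → Off (t' k) v ∨ v.V (io (r k).π) < 1) (hs : ∀ k, Spt d (r k).v)
    (h1 : ∀ k, ∀ σ ∈ Ine (r k).v, ρ k σ - 1 ∈ aa k) :
    ∀ f ∈ ZL t' ρ I, f (fun k => ⟨(r k).σ, (r k).σ_mem⟩) ∈ I → f ∈ ZL t ρ I := by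
  rintro _ ⟨c, hc, rfl⟩ h0
  refine ⟨c, fun j => (((hc j).and (ev_ge j)).and (lima_to _ rfl h0 j)).mono fun k hk =>
    ⟨hk.1.1.1, ?_⟩, rfl⟩
  have := lo2_sup hI j
  have e := aa_le_sup hk.1.2 I
  exact unr_of_zero ((h k).fac e) (ht k) (hs k) (fun σ hσ => sub_eq_zero.2
    (Ideal.Quotient.eq.2 (e (h1 k σ hσ)))) hk.1.1.1 hk.1.1.2 hk.2

theorem WL_mem : ∀ f ∈ ZL t ρ I, (fun i => f (eeL d i)) ∈ WL d ρ I := by
  rintro _ ⟨c, hc, rfl⟩
  exact ⟨c, fun j => (hc j).mono fun k hk => hk.1.mono inf_le_left, rfl⟩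

theorem lw_lim (h : Dual d ρ ρ') (hI : I.IsPrime)
    (h1 : Spt d w3 → ∃ i, (ul fun k => ρ k (ew i)) - 1 ∉ I) {a : La} (ha : a ∉ I) :
    ¬ ∀ y : Fin 4 → La, ∃ v ∈ WL d ρ' I, ∀ i, v i - a * y i ∈ I := by
  intro H
  by_cases hs : Spt d w3
  · obtain ⟨n, h1⟩ := h1 hs
    have hg : ew n ∈ Hw := ew_spec.1 n
    refine (hI.mem_or_mem (lima_of (fun k => (ρ k (ew n) - 1) * a)
      (by rw [ul_mul, lima_one, ul_const]) fun j => ?_)).elim h1 ha
    have := lo2_sup hI.ne_top j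
    have h2 : ∀ x : Fin 4 → La ⧸ (I ⊔ aa j), ∀ᶠ k in UU, ∃ c : Gam → La ⧸ (I ⊔ aa j),
        Zc Hw (md (I ⊔ aa j) (ρ' k)) c ∧ ∀ i, c (ew i) = x i • Ideal.Quotient.mk _ a := fun x => by
      obtain ⟨_, ⟨c, hc, rfl⟩, hv⟩ := H fun i => Quotient.out (x i)
      rw [ee_sp hs] at hv
      refine ((hc j).and (Filter.eventually_all.2 fun i => lima_to
        (fun k => c k (ew i) - a * Quotient.out (x i)) (by rw [ul_sub, ul_const]) (hv i) j)).mono
        fun k hk => ⟨_, hk.1, fun i => ?_⟩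
      have := hk.2 i
      rw [map_sub, map_mul, Ideal.Quotient.mk_out, mul_comm] at this
      exact sub_eq_zero.1 this
    refine ((Filter.eventually_all.2 h2).and (ev_ge j)).mono fun k hk => ?_
    have e := aa_le_sup hk.2 I
    have h3 := lw ((h.chr' k).fac e) hs (fz (two_pow_zero e)) _ hk.1 _ hg
    rw [← h.cy e _ _ hg.1] at h3
    refine (((h.chr' k).fac e).isUnit hg.1).mul_right_eq_zero.1 ?_
    rw [map_mul, map_sub, map_one]
    exact neg_eq_zero.1 (Eq.trans (by simp only [md, smul_eq_mul]; ring) h3)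
  · obtain ⟨_, ⟨c, hc, rfl⟩, hv⟩ := H fun _ => 1
    have h2 := hv 3
    have h3 : (ul fun k => c k (ee d 3)) ∈ I := lima_of _ rfl fun j =>
      ((hc j).and (ev_ge j)).mono fun k hk => by
        rw [ee_ns hs]
        exact ((h.chr' k).fac (aa_le_sup hk.2 I)).zc_one hk.1
    have h4 := I.sub_mem h3 h2
    rw [sub_sub_cancel, mul_one] at h4
    exact ha h4

/-- A character that is trivial at the chosen elements is trivial on the decomposition group. -/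
theorem ne_lim (h : ∀ k, Ch d (md (aa k) (ρ k))) (hI : I ≠ ⊤) {g : Gam} (hg : g ∈ Hw)
    (h1 : (ul fun k => ρ k g) - 1 ∉ I) : ∃ i, (ul fun k => ρ k (ee d i)) - 1 ∉ I := by
  by_contra! H
  refine h1 (lima_of _ (lima_one _) fun j => ((Filter.eventually_all.2 fun i =>
    lima_to _ (lima_one _) (H i) j).and (ev_ge j)).mono fun k hk => ?_)
  have := lo2_sup hI j
  have h2 := (h k).fac (aa_le_sup hk.2 I)
  exact (mul_one _).symm.trans (zero_ee h2 (h2.cob inf_le_left (1 : La ⧸ (I ⊔ aa j)))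
    (fun i => (mul_one _).trans (hk.1 i)) g hg)

theorem unit_lim (h : ∀ k, Ch d (md (aa k) (ρ k))) {g : Gam} (hg : g ∈ G) (e : chi d g = -1) :
    IsUnit ((ul fun k => ρ k g) - 1) := by
  rw [← lima_one]
  exact ul_unit (.of_forall fun k => (unit_mk (J := aa k) fun e =>
    (IsLocalRing.maximalIdeal.isMaximal La).ne_top (top_le_iff.1 (e ▸ aa_le k))).1
      ((h k).unit hg e))

end Pool.Agent.Lib.MP_696deb_nt.EV.D
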