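import Pool.Agent.Lib.MP_696deb_nt.ED.T2
import Pool.Agent.Lib.MP_696deb_nt.ED.T3

/-! The tower: the norm relation for the system of the units. -/

set_option autoImplicit false

open scoped Classical NNReal
open Finset Matrix PowerSeries

namespace Pool.Agent.Lib.MP_696deb_nt.EV.D

theorem t6_prod {d : ℤ} {ι κ : Type} [Fintype ι] [Fintype κ] {t : ι → TP}
    {ty : κ → Option (Option ι)} (h : Ty d t ty) (F : Option (Option ι) → La) (h0 : F none = 1) :
    ∏ i, F (ty i) = (if Spt d w3 then F (some none) else 1) *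
      ∏ j, if Spt d (t j).v then F (some (some j)) else 1 := by
  have key : ∀ (x : Option ι) (p : Prop), (p → ∃ i, ty i = some x) → (∀ i, ty i = some x → p) →
      ∏ i with ty i = some x, F (some x) = if p then F (some x) else 1 := fun x p e e' => by
    split_ifs with k
    · obtain ⟨i, hi⟩ := e k
      exact prod_eq_single_of_mem i (mem_filter.2 ⟨mem_univ _, hi⟩) fun j hj n =>
        absurd (h.inj _ _ _ (mem_filter.1 hj).2 hi) n
    · exact prod_eq_one fun i hi => absurd (e' i (mem_filter.1 hi).2) k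
  rw [← prod_fiberwise' univ ty F, Fintype.prod_option, Fintype.prod_option, h0, prod_const_one,
    one_mul, key _ _ h.cw h.sw]
  exact congrArg _ (prod_congr rfl fun j _ => key _ _ (h.cp j) fun i => h.sp i j)

theorem t6_nat {n : ℕ} {f : La} (hn : ¬ 3 ∣ n) (e : constantCoeff f = n) : IsUnit f :=
  unit_La.2 fun k => by
    obtain ⟨a, b, r⟩ := Nat.isCoprime_iff_coprime.2 ((Nat.prime_three.coprime_iff_not_dvd).2 hn)
    have r' := congrArg (Int.cast : ℤ → Ow) r
    push_cast at r'
    exact unit_iff_wO.1 isUnit_one (r' ▸ dvd_add (la_two.mul_left _) ((e ▸ k).mul_left _))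

theorem t6_two (n : ℕ) : IsUnit (1 - -1 * (1 + X : La) ^ n) :=
  t6_nat (n := 2) (by decide) (by simp; norm_num)

namespace Cx

variable (c : Cx)

theorem t6_pi (k : ℕ) (j : c.ι) : Associated
    (if (c.tp j).π ∣ (c.t.N : O) ∧ ¬ (c.tp j).π ∣ (c.d : O) then 1 - c.θ false k (c.tp j).φ else 1)
    (if Spt c.d (c.tp j).v then c.tf k (some (some j)) else 1) := by
  by_cases s : Spt c.d (c.tp j).v
  · have n := mt (tp_dvd (c.tp j)).1 (s.nd c.fd (c.tp j).odd)
    rw [if_pos s, tf]
    by_cases h : (c.tp j).π ∣ (c.t.N : O)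
    · have := (c.tp j).nm_mod
      rw [if_pos ⟨h, n⟩, if_pos h, c.rq_θ k s]
      exact associated_unit_mul_right _ _ (t6_nat (n := nm (c.tp j).π) (by omega) (map_natCast _ _))
    · rw [if_neg fun e => h e.1, if_neg h]
  · rw [if_neg s]
    split_ifs with h
    · rw [θ_false, xq_of' ((chi_or _ _).resolve_left (mt (spt_iff c.fd h.2).2 s))]
      exact associated_one_iff_isUnit.2 (t6_two _)
    · rfl

theorem t6_w (k : ℕ) :
    Associated (1 - c.Wt false k w) (if Spt c.d w3 then c.tf k (some none) else 1) := by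
  rw [Wt, Cb.W0, map_intCast, map_intCast]
  split_ifs with s
  · obtain ⟨u, hu, e⟩ := odd_pow_sub (t := (X : La)) (fun h => unit_La.1 h (by simp))
      (fun h => unit_La.1 h (by rw [map_ofNat]; exact la_two)) (c.lv k).ow
    rw [(spt_w c.fd).1 s, Int.cast_one, one_mul, ← neg_sub, e, tf]
    exact (associated_mul_unit_left _ _ hu).neg_left
  · rw [kN_w' c.fd s, Int.cast_neg, Int.cast_one]
    exact associated_one_iff_isUnit.2 (t6_two _)

theorem nr_fin (k : ℕ) : ∃ u x : La, IsUnit u ∧ ∀ g ∈ G, c.Fk false k g -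
    (u * (∏ i, c.tf k (c.ty i)) * c.F1 k g + (c.ρ false true k g - 1) * x) ∈ aa k := by
  let S : Finset c.ι := univ.filter fun j => (c.tp j).π ∣ (c.t.N : O) ∧ ¬ (c.tp j).π ∣ (c.d : O)
  have eM : (c.t.M : O) = c.t.N * (c.d.natAbs : O) := by rw [Tw.M, Nat.cast_mul]
  obtain ⟨x, hx⟩ := Kb.down (fa k) (c.kb1 k) S c.tp c.inj (fun i hi h => by
      rw [m1, (c.tp i).prime.dvd_mul, (c.tp i).prime.dvd_mul] at h
      exact h.elim (t1a_three _) fun h => h.elim (mem_filter.1 hi).2.2
        ((c.tp i).not_dvd _ ((c.lv k).nd i))) (c.m_ne k) (c.kb false k).cop (by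
      obtain ⟨a, ha⟩ : ∏ i ∈ S, (c.tp i).π ∣ (c.t.N : O) :=
        Finset.prod_dvd_of_coprime (fun i _ j _ h =>
          (c.tp i).prime.irreducible.coprime_iff_not_dvd.2
            ((c.tp i).not_dvd _ (mt (c.inj i j) h))) fun i hi => (mem_filter.1 hi).2.1
      obtain ⟨b, hb⟩ : (c.d : O) ∣ (c.d.natAbs : O) := b1_dvd.1 dvd_rfl
      exact ⟨a * b * 3 ^ (k + 3), by rw [m, c.m0_eq, eM, ha, hb, m1]; ring⟩) fun p hp h => by
    rw [m, c.m0_eq, hp.dvd_mul, hp.dvd_mul] at h
    rw [m1]
    rcases h with (h | h) | h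
    · rcases c.all p hp h with k | ⟨i, k⟩
      · exact ((k.trans w_dvd_three).mul_right _).mul_right _
      · by_cases n : (c.tp i).π ∣ (c.d : O)
        · exact (((k.trans n).mul_right _).mul_left _).mul_right _
        · refine (k.trans (dvd_prod_of_mem (fun i => (c.tp i).π)
            (mem_filter.2 ⟨mem_univ i, ?_, n⟩))).mul_left _
          have e := (hp.associated_of_dvd (c.tp i).prime k).symm.dvd.trans h
          rw [eM] at e
          exact ((c.tp i).prime.dvd_or_dvd e).resolve_right fun r => n (r.trans (b1_dvd.2 dvd_rfl))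
    · exact ((hp.dvd_of_dvd_pow h).mul_right _).mul_right _
    · exact ((h.mul_left _).mul_left _).mul_right _
  obtain ⟨y, hy⟩ := (c.mu k).down (fa k)
  obtain ⟨x, rfl⟩ := Ideal.Quotient.mk_surjective x
  obtain ⟨y, rfl⟩ := Ideal.Quotient.mk_surjective y
  obtain ⟨u, hu⟩ := ((c.t6_w k).mul_mul (Associated.prod univ _ _ fun j _ => c.t6_pi k j)).symm
  rw [← t6_prod c.rows (c.tf k) rfl, ← prod_filter] at hu
  refine ⟨u, (∏ i ∈ S, (1 - c.θ false k (c.tp i).φ)) * y + x, u.isUnit, fun g hg =>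
    Ideal.Quotient.eq.1 ?_⟩
  have e1 := hx g hg
  rw [hy g hg, c.Wq_cm k hg, c.cy_θ false _ hg, ← c.md_Fk false le_rfl, ← c.md_F1 le_rfl] at e1
  rw [mul_comm (u : La), hu]
  simp only [map_add, map_mul, map_sub, map_prod, map_one]
  simp only [md, Wq] at e1
  rw [e1]
  ring

theorem ok_nr : ∃ u, IsUnit u ∧ ∀ g, c.dat.hat false true (c.dat.F false) g =
    u * (∏ i, c.dat.t i) * c.dat.hat false true c.dat.F' g := by
  choose u x hu h using c.nr_fin
  have key : ∀ g, c.dat.F false g = ul u * (∏ i, c.dat.t i) * c.dat.F' g +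
      (c.dat.ρ false true g - 1) * ul x := fun g =>
    (ul_congr (.of_forall fun k => h k _ (g k).2)).trans (by
      rw [ul_add, ul_mul, ul_mul, ul_mul, ul_sub, ul_const, ul_prod]
      rfl)
  refine ⟨ul u, ul_unit (.of_forall hu), fun g => ?_⟩
  rw [Dat.hat, Dat.hat, key, key]
  ring

end Cx

end Pool.Agent.Lib.MP_696deb_nt.EV.D
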