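import Pool.Agent.Lib.MP_696deb_nt.ED.Q3
import Pool.Agent.Lib.MP_23455a_nt.H3.GWi
import Pool.Agent.Lib.MP_23455a_nt.H3.CFc

/-! Existence of generators and the lower bound for their number. -/

set_option autoImplicit false

open scoped Classical NNReal
open Finset

namespace Pool.Agent.Lib.MP_696deb_nt.EV.D

variable {d : ℤ} {ι : Type} [Fintype ι] {t : ι → TP}

theorem q4_dual {X : Type} {V : Set (X → ZMod 3)} (hV : V.Finite) (h0 : (fun _ => 0) ∈ V)
    (ha : ∀ c ∈ V, ∀ c' ∈ V, ∀ a : ZMod 3, (fun g => c g + a • c' g) ∈ V) (S : Set X) :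
    ∃ (n : ℕ) (γ : Fin n → X), (∀ j, γ j ∈ S) ∧
      (∀ c ∈ V, (∀ j, c (γ j) = 0) → ∀ g ∈ S, c g = 0) ∧
      ∀ x : Fin n → ZMod 3, ∃ c ∈ V, ∀ j, c (γ j) = x j := by
  by_contra k
  have key : ∀ n, ∃ γ : Fin n → X, (∀ j, γ j ∈ S) ∧
      ∀ x : Fin n → ZMod 3, ∃ c ∈ V, ∀ j, c (γ j) = x j := fun n => by
    induction n with
    | zero => exact ⟨Fin.elim0, fun j => j.elim0, fun _ => ⟨_, h0, fun j => j.elim0⟩⟩
    | succ n ih =>
      obtain ⟨γ, h1, h2⟩ := ih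
      obtain ⟨c, hc, h3, g, hg, h4⟩ : ∃ c ∈ V, (∀ j, c (γ j) = 0) ∧ ∃ g ∈ S, c g ≠ 0 := by
        by_contra e
        exact k ⟨n, γ, h1, fun c hc h3 g hg => by_contra fun h4 => e ⟨c, hc, h3, g, hg, h4⟩, h2⟩
      refine ⟨Fin.cons g γ, Fin.forall_fin_succ.2 ⟨hg, h1⟩, fun x => ?_⟩
      obtain ⟨c', hc', h5⟩ := h2 (Fin.tail x)
      refine ⟨_, ha c' hc' c hc ((x 0 - c' g) * c g), Fin.forall_fin_succ.2 ⟨?_, fun j => ?_⟩⟩
      · rw [Fin.cons_zero, smul_eq_mul, mul_assoc, F3_sq h4, mul_one, add_sub_cancel]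
      · rw [Fin.cons_succ, h3, h5, smul_zero, add_zero]
        rfl
  have := hV.to_subtype
  obtain ⟨γ, -, h⟩ := key (Nat.card V)
  have le := Nat.card_le_card_of_surjective (fun (c : V) j => c.1 (γ j)) fun x =>
    (h x).elim fun c hc => ⟨⟨c, hc.1⟩, funext hc.2⟩
  rw [Nat.card_fun, Nat.card_zmod, Nat.card_eq_fintype_card (α := Fin _), Fintype.card_fin] at le
  exact (Nat.lt_pow_self (by norm_num)).not_ge le

theorem q4_out {g : Gam} (hg : g ∈ G) (k : g ∉ HF d) : chi d g = -1 :=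
  (chi_or d g).resolve_left fun e => k ⟨hg, e⟩

omit [Fintype ι] in
theorem q4_rs {c : Gam → ZMod 3} (h1 : Cq d G c) (h2 : Unr t c) :
    Cq d G (H3.rs G c) ∧ Unr t (H3.rs G c) ∧ ∀ g ∉ G, H3.rs G c g = 0 :=
  ⟨h1.congr (fun _ _ => rfl) fun _ hg => H3.rs_of_mem hg _,
    fun v hv σ hσ => (H3.rs_of_mem (ine_le hv.1 hσ) _).trans (h2 v hv σ hσ),
    fun _ hg => H3.rs_of_notMem hg _⟩

theorem q4_fin (hd : Fd d) (t : ι → TP) :
    {c : Gam → ZMod 3 | Cq d G c ∧ Unr t c ∧ ∀ g ∉ G, c g = 0}.Finite := by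
  obtain ⟨-, g0, -, -, -, m0, c0⟩ := exists_g0 hd
  obtain ⟨s, -, -, hs⟩ := B2.exists_reps (op_HF d) (insert 3 (univ.image fun i => (t i).v.p))
  have off : ∀ v, B2.Away (HF d) s v → Off t v := fun v hv => by
    have k := mt (hs v) (not_not.2 hv)
    rw [mem_insert, not_or] at k
    refine (off_or t k.1).resolve_right ?_
    rintro ⟨i, g, -, rfl⟩
    exact k.2 (mem_image.2 ⟨i, mem_univ _, rfl⟩)
  have := H3.finH (op_HF d) (HF_le d) s
  refine Finite.of_injective (β := H3.Zu (HF d) H3.tr s × ZMod 3) (fun c => (⟨H3.rs (HF d) c.1,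
    H3.mem_Zu.2 ⟨H3.rs_mem_Z1 (H3.coc_tr.2 ((cq_iff inf_le_right).1 (c.2.1.mono (HF_le d)))),
      fun v hv σ hσ => (H3.rs_of_mem hσ.1 _).trans (c.2.2.1 v (off v hv) σ hσ.2)⟩⟩, c.1 g0))
    fun c c' e => Subtype.ext (funext fun g => ?_)
  obtain ⟨e1, e2⟩ := Prod.ext_iff.1 e
  have e3 : ∀ u ∈ HF d, c.1 u = c'.1 u := fun u hu => (H3.rs_of_mem hu _).symm.trans
    ((congrFun (congrArg Subtype.val e1) u).trans (H3.rs_of_mem hu _))
  by_cases hg : g ∈ G
  · by_cases k : g ∈ HF d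
    · exact e3 g k
    · have m : g0⁻¹ * g ∈ HF d :=
        mem_HF.2 ⟨mul_mem (inv_mem m0) hg, by simp [c0, q4_out hg k]⟩
      rw [← mul_inv_cancel_left g0 g, c.2.1.2 g0 m0 _ m.1, c'.2.1.2 g0 m0 _ m.1, e3 _ m]
      exact congrArg (· + _) e2
  · rw [c.2.2.2 g hg, c'.2.2.2 g hg]

/-- The transfer of a character. -/
theorem q4_plus {g0 : Gam} (m0 : g0 ∈ G) (c0 : chi d g0 = -1) {x : Gam → ZMod 3}
    (hx : B4bG (HF d) x) :
    ∃ p, B4bG G p ∧ ∀ h ∈ HF d, p h = x h + x (g0⁻¹ * h * g0) := by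
  have a1 : ∀ g ∈ HF d, g0⁻¹ * g * g0 ∈ HF d := fun g hg => (normal_HF d).conj_mem' g hg g0
  have a2 : ∀ g ∈ G, g ∉ HF d → g0⁻¹ * g ∈ HF d := fun g hg k =>
    mem_HF.2 ⟨mul_mem (inv_mem m0) hg, by simp [c0, q4_out hg k]⟩
  have a3 : ∀ g ∈ G, g ∉ HF d → g * g0 ∈ HF d := fun g hg k =>
    mem_HF.2 ⟨mul_mem hg m0, by simp [c0, q4_out hg k]⟩
  refine ⟨fun g => if g ∈ HF d then x g + x (g0⁻¹ * g * g0) else x (g0⁻¹ * g) + x (g * g0),
    ⟨?_, fun g hg h hh => ?_⟩, fun h hh => if_pos hh⟩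
  · obtain ⟨U, u1, u2, u3⟩ := hx.1
    have := normal_HF d
    refine ⟨U ⊓ HF d, u1.inf (op_HF d), inferInstance, fun g hg h hh e => ?_⟩
    have c : g0⁻¹ * (g⁻¹ * h) * g0 ∈ U := u2.conj_mem' _ e.1 g0
    beta_reduce
    by_cases k : g ∈ HF d
    · have k' : h ∈ HF d := by simpa using mul_mem k e.2
      rw [if_pos k, if_pos k', u3 g k h k' e.1, u3 _ (a1 g k) _ (a1 h k') (by
        convert c using 1
        group)]
    · have k' : h ∉ HF d := fun k' => k (by simpa using mul_mem k' (inv_mem e.2))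
      rw [if_neg k, if_neg k', u3 _ (a2 g hg k) _ (a2 h hh k') (by
        convert (Subgroup.mem_inf.1 e).1 using 1
        group), u3 _ (a3 g hg k) _ (a3 h hh k') (by
        convert c using 1
        group)]
  · by_cases k : g ∈ HF d <;> by_cases k' : h ∈ HF d
    · simp only [k, k', mul_mem k k', if_true]
      rw [show g0⁻¹ * (g * h) * g0 = g0⁻¹ * g * g0 * (g0⁻¹ * h * g0) by group, hx.2 g k h k',
        hx.2 _ (a1 g k) _ (a1 h k')]
      ring
    · simp only [k, k', mt (mul_mem_cancel_left k).1 k', if_true, if_false]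
      rw [show g0⁻¹ * (g * h) = g0⁻¹ * g * g0 * (g0⁻¹ * h) by group, mul_assoc g h,
        hx.2 _ (a1 g k) _ (a2 h hh k'), hx.2 g k _ (a3 h hh k')]
      ring
    · simp only [k, k', mt (mul_mem_cancel_right k').1 k, if_true, if_false]
      rw [show g * h * g0 = g * g0 * (g0⁻¹ * h * g0) by group, ← mul_assoc g0⁻¹ g h,
        hx.2 _ (a2 g hg k) _ k', hx.2 _ (a3 g hg k) _ (a1 h k')]
      ring
    · have e : g * h = g * g0 * (g0⁻¹ * h) := by group
      have m : g * h ∈ HF d := e ▸ mul_mem (a3 g hg k) (a2 h hh k')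
      simp only [k, k', m, if_true, if_false]
      rw [show g0⁻¹ * (g * h) * g0 = g0⁻¹ * g * (h * g0) by group, e,
        hx.2 _ (a3 g hg k) _ (a2 h hh k'), hx.2 _ (a2 g hg k) _ (a3 h hh k')]
      ring

theorem q4_minus {g0 : Gam} (m0 : g0 ∈ G) (c0 : chi d g0 = -1) {x : Gam → ZMod 3}
    (hx : B4bG (HF d) x) (a : ZMod 3) :
    ∃ m, Cq d G m ∧ (∀ h ∈ HF d, m h = x h - x (g0⁻¹ * h * g0)) ∧ m g0 = a := by
  obtain ⟨m, h1, h2⟩ := exists_cor (ch_xq d) le_rfl m0 c0 ((cq_iff inf_le_right).2 hx)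
  refine ⟨_, h1.add ((ch_xq d).cob le_rfl (a - m g0)), fun h hh => ?_, ?_⟩
  · rw [h2 h hh, xq_of' c0, xq_of (mem_HF.1 hh).2]
    simp [sub_eq_add_neg]
  · rw [xq_of' c0, show (-1 - 1 : ZMod 3) = 1 by decide, one_smul, add_sub_cancel]

/-- The places above the primes of `t` and above three. -/
noncomputable def q4v (t : ι → TP) (a : Option ι) : Plc := a.elim w3 fun i => (t i).v

omit [Fintype ι] in
theorem q4_sep (inj : ∀ i j, (t i).π = (t j).π → i = j) {a b : Option ι} {g : Gam} (hg : g ∈ G)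
    (e : g • q4v t a = q4v t b) : a = b := by
  have p : (q4v t a).p = (q4v t b).p := congrArg (·.p) e
  rcases a with _ | i <;> rcases b with _ | j
  · rfl
  · exact absurd (p.symm.trans w3_p) (t j).odd
  · exact absurd (p.trans w3_p) (t i).odd
  · refine congrArg _ (inj j i (by_contra fun k => (t j).not_dvd _ k ((t j).V_lt.1 ?_))).symm
    rw [← show g • (t i).v = (t j).v from e, B2.smul_V, io_fx _ _ (inv_mem hg)]
    exact (t i).lt

omit [Fintype ι] in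
theorem q4_off (a : Option ι) : ¬ Off t (q4v t a) := fun k => by
  rcases a with _ | i
  exacts [k.1 w3_p, (t i).lt.ne (k.2 i)]

theorem q4_card (d : ℤ) (t : ι → TP) : (univ.filter fun a => Spt d (q4v t a)).card =
    (univ.filter fun i => Spt d (t i).v).card + (if Spt d w3 then 1 else 0) := by
  rw [card_filter, card_filter, Fintype.sum_option, add_comm]
  rfl

/-- Representatives of the places of the biquadratic field above `t` and three. -/
theorem q4_reps (inj : ∀ i j, (t i).π = (t j).π → i = j) {g0 : Gam} (m0 : g0 ∈ G)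
    (c0 : chi d g0 = -1) : ∃ s : Finset Plc, B2.Apart (HF d) s ∧
      (∀ v, B2.Away (HF d) s v → v.p ≠ 3) ∧ (∀ v, Off t v → B2.Away (HF d) s v) ∧
      s.card = Fintype.card ι + 1 + (univ.filter fun a => Spt d (q4v t a)).card := by
  have no : ∀ a b, Spt d (q4v t b) → ∀ u ∈ HF d, u • q4v t a ≠ g0 • q4v t b := fun a b k u hu e => by
    have m : g0⁻¹ * u ∈ G := mul_mem (inv_mem m0) hu.1
    have e1 : (g0⁻¹ * u) • q4v t a = q4v t b := by rw [mul_smul, e, inv_smul_smul]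
    obtain rfl := q4_sep inj m e1
    have := k.chi ⟨m, e1⟩
    simp [c0, (mem_HF.1 hu).2] at this
  refine ⟨univ.image (q4v t) ∪ (univ.filter fun a => Spt d (q4v t a)).image fun a => g0 • q4v t a,
    fun v hv w hw u hu e => ?_, fun v hv h3 => ?_, fun v hv w hw u hu e => ?_, ?_⟩
  · rcases mem_union.1 hv with hv | hv <;> rcases mem_union.1 hw with hw | hw <;>
      obtain ⟨a, ha, rfl⟩ := mem_image.1 hv <;> obtain ⟨b, hb, rfl⟩ := mem_image.1 hw
    · rw [q4_sep inj hu.1 e]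
    · exact absurd e (no a b (mem_filter.1 hb).2 u hu)
    · exact absurd (inv_smul_eq_iff.2 e.symm) (no b a (mem_filter.1 ha).2 _ (inv_mem hu))
    · rw [q4_sep inj (g := g0⁻¹ * u * g0) (a := a) (b := b)
        (mul_mem (mul_mem (inv_mem m0) hu.1) m0) (by rw [mul_smul, mul_smul, e, inv_smul_smul])]
  · obtain ⟨g, hg, rfl⟩ := conj_w3 h3
    have n : w3 ∈ univ.image (q4v t) := mem_image.2 ⟨none, mem_univ _, rfl⟩
    by_cases k : g ∈ HF d
    · exact hv w3 (mem_union_left _ n) g k rfl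
    by_cases k' : Spt d w3
    · exact hv (g0 • w3) (mem_union_right _ (mem_image.2 ⟨none, mem_filter.2 ⟨mem_univ _, k'⟩, rfl⟩))
        (g * g0⁻¹) (mem_HF.2 ⟨mul_mem hg (inv_mem m0), by simp [c0, q4_out hg k]⟩)
        (by rw [mul_smul, inv_smul_smul])
    · obtain ⟨δ, h1, h2⟩ := exists_ns k'
      exact hv w3 (mem_union_left _ n) (g * δ)
        (mem_HF.2 ⟨mul_mem hg h1.1, by simp [h2, q4_out hg k]⟩)
        (by rw [mul_smul, show δ • w3 = w3 from h1.2])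
  · have k := off_smul hv (inv_mem hu.1)
    rw [← e, inv_smul_smul] at k
    rcases mem_union.1 hw with hw | hw <;> obtain ⟨a, -, rfl⟩ := mem_image.1 hw
    · exact q4_off a k
    · have k' := off_smul k (inv_mem m0)
      rw [inv_smul_smul] at k'
      exact q4_off a k'
  · have i : Function.Injective (q4v t) := fun a b e => q4_sep inj G.one_mem (by rw [one_smul, e])
    rw [card_union_of_disjoint, card_image_of_injective _ i, card_image_of_injective, card_univ,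
      Fintype.card_option]
    · exact fun a b e => i (smul_left_cancel g0 e)
    · refine disjoint_left.2 fun v h1 h2 => ?_
      obtain ⟨a, -, rfl⟩ := mem_image.1 h1
      obtain ⟨b, hb, e⟩ := mem_image.1 h2
      exact no a b (mem_filter.1 hb).2 1 (one_mem _) (by rw [one_smul, e])

/-- A basis of the dual of the space of residual cocycles consists of evaluations. -/
theorem exists_dual (hd : Fd d) (ram : ∀ v, Off t v → ¬ (v.p : ℤ) ∣ d) :
    ∃ (n : ℕ) (γ : Fin n → Gam), (∀ j, γ j ∈ G) ∧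
      (∀ c, Cq d G c → Unr t c → (∀ j, c (γ j) = 0) → ∀ g ∈ G, c g = 0) ∧
      ∀ x : Fin n → ZMod 3, ∃ c, Cq d G c ∧ Unr t c ∧ ∀ j, c (γ j) = x j := by
  have _ := ram
  obtain ⟨n, γ, h1, h2, h3⟩ := q4_dual (q4_fin hd t)
    ⟨⟨.const _, fun _ _ _ _ => by simp⟩, fun _ _ _ _ => rfl, fun _ _ => rfl⟩
    (fun c hc c' hc' a => ⟨hc.1.add (hc'.1.smul a),
      fun v hv σ hσ => by simp [hc.2.1 v hv σ hσ, hc'.2.1 v hv σ hσ],
      fun g hg => by simp [hc.2.2 g hg, hc'.2.2 g hg]⟩) G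
  exact ⟨n, γ, h1, fun c k1 k2 k3 g hg => (H3.rs_of_mem hg c).symm.trans
    (h2 _ (q4_rs k1 k2) (fun j => (H3.rs_of_mem (h1 j) c).trans (k3 j)) g hg),
    fun x => (h3 x).imp fun c hc => ⟨hc.1.1, hc.1.2.1, hc.2⟩⟩

/-- The inequality of the Euler characteristic. -/
theorem Gens.card (hd : Fd d) (inj : ∀ i j, (t i).π = (t j).π → i = j) {J : Type} [Fintype J]
    {γ : J → Gam} (h : Gens d t γ) :
    (univ.filter fun i => Spt d (t i).v).card + (if Spt d w3 then 1 else 0) + 2 ≤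
      Fintype.card J := by
  obtain ⟨-, g0, -, -, -, m0, c0⟩ := exists_g0 hd
  obtain ⟨s, s1, s2, s3, s4⟩ := q4_reps inj m0 c0
  have su := H3.su_card H3.su (op_HF d) (B2.tc_of_le three_pos (HF_le d)) (HF_le d) s1 s2
  have b : ∀ x : H3.Zu (HF d) H3.tr s, B4bG (HF d) x.1 := fun x => H3.coc_tr.1 x.2.1.1
  have z : ∀ x : H3.Zu (HF d) H3.tr s, ∀ v, Off t v → ∀ σ ∈ Ine v,
      σ ∈ HF d ∧ x.1 σ = 0 ∧ x.1 (g0⁻¹ * σ * g0) = 0 := fun x v hv σ hσ => by
    have m : σ ∈ HF d := mem_HF.2 ⟨ine_le hv.1 hσ, chi_unr hd.fund (h.ram v hv) hσ⟩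
    refine ⟨m, x.2.2 v (s3 v hv) σ ⟨m, hσ⟩, x.2.2 _ (s3 _ (off_smul hv (inv_mem m0))) _
      ⟨(normal_HF d).conj_mem' σ m g0, B2.mem_Ine_smul.2 ?_⟩⟩
    convert hσ using 1
    group
  choose p p1 p2 using fun x => q4_plus m0 c0 (b x)
  choose m m1 m2 m3 using fun x => q4_minus m0 c0 (b x)
  have pu : ∀ x, Unr t (p x) := fun x v hv σ hσ => by
    obtain ⟨k1, k2, k3⟩ := z x v hv σ hσ
    rw [p2 x σ k1, k2, k3]
    rfl
  have mu : ∀ x a, Unr t (m x a) := fun x a v hv σ hσ => by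
    obtain ⟨k1, k2, k3⟩ := z x v hv σ hσ
    rw [m2 x a σ k1, k2, k3]
    rfl
  have le := Nat.card_le_card_of_injective (α := H3.Zu (HF d) H3.tr s × ZMod 3)
    (β := (ι ⊕ Fin 2 → ZMod 3) × (J → ZMod 3))
    (fun y => (fun j => p y.1 (gen t j), fun j => m y.1 y.2 (γ j))) fun y y' e => by
      obtain ⟨e1, e2⟩ := Prod.ext_iff.1 e
      have k1 := det2 (t := t) ((p1 y.1).add ((p1 y'.1).smul (-1)))
        (fun v hv σ hσ => by simp [pu _ v hv σ hσ]) fun j => by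
          rw [show p y.1 (gen t j) = p y'.1 (gen t j) from congrFun e1 j]
          ring
      have k2 := h.det _ ((m1 y.1 y.2).sub (m1 y'.1 y'.2))
        (fun v hv σ hσ => by simp [mu _ _ v hv σ hσ]) fun j => sub_eq_zero.2 (congrFun e2 j)
      refine Prod.ext (Subtype.ext (funext fun g => ?_)) ?_
      · by_cases hg : g ∈ HF d
        · have k3 := k1 g hg.1
          have k4 := k2 g hg.1
          simp only [p2 _ g hg, m2 _ _ g hg] at k3 k4
          exact (by decide : ∀ a b a' b' : ZMod 3, a + b + -1 * (a' + b') = 0 →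
            a - b - (a' - b') = 0 → a = a') _ _ _ _ k3 k4
        · rw [y.1.2.1.2 g hg, y'.1.2.1.2 g hg]
      · have k3 := k2 g0 m0
        simp only [m3] at k3
        exact sub_eq_zero.1 k3
  simp only [Nat.card_prod, Nat.card_fun, Nat.card_zmod, Nat.card_eq_fintype_card (α := J),
    Nat.card_eq_fintype_card (α := ι ⊕ Fin 2), Fintype.card_sum, Fintype.card_fin] at le
  have k := (Nat.mul_le_mul_right 3 su).trans le
  rw [← pow_succ, ← pow_add, Nat.pow_le_pow_iff_right (by norm_num), index_HF hd, s4, q4_card] at k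
  omega

theorem exists_gens (hd : Fd d) (inj : ∀ i j, (t i).π = (t j).π → i = j)
    (ram : ∀ v, Off t v → ¬ (v.p : ℤ) ∣ d) (fix : Fix d t) :
    ∃ (n : ℕ) (γ : Fin n ⊕ Fin 2 → Gam) (ty : Fin n → Option (Option ι)),
      Gens d t γ ∧ Ty d t ty := by
  obtain ⟨n, γ, h1, h2, h3⟩ := exists_dual hd ram
  have k := Gens.card hd inj ⟨ram, fix, h1, h2, h3⟩
  rw [Fintype.card_fin, ← q4_card, ← Fintype.card_subtype] at k
  obtain ⟨n, rfl⟩ : ∃ m, n = m + 2 := ⟨n - 2, by omega⟩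
  obtain ⟨f⟩ := Function.Embedding.nonempty_of_card_le (α := {a // Spt d (q4v t a)}) (β := Fin n)
    (by rw [Fintype.card_fin]; omega)
  have e : ∀ i a, (Function.partialInv f i).map Subtype.val = some a ↔ ∃ k, f ⟨a, k⟩ = i :=
    fun i a => by
      rw [Option.map_eq_some_iff]
      exact ⟨fun ⟨x, k1, k2⟩ => ⟨k2 ▸ x.2, k2 ▸ (f.2.isPartialInv x i).1 k1⟩,
        fun ⟨k1, k2⟩ => ⟨_, (f.2.isPartialInv _ i).2 k2, rfl⟩⟩
  refine ⟨n, fun j => γ (finSumFinEquiv j), fun i => (Function.partialInv f i).map Subtype.val,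
    ⟨ram, fix, fun j => h1 _, fun c k1 k2 k3 => h2 c k1 k2 fun j => ?_, fun x => ?_⟩,
    fun i j k => ((e i _).1 k).1, fun i k => ((e i _).1 k).1,
    fun j k => ⟨_, (e _ _).2 ⟨k, rfl⟩⟩, fun k => ⟨_, (e _ _).2 ⟨k, rfl⟩⟩, fun i i' x k k' => ?_⟩
  · simpa using k3 (finSumFinEquiv.symm j)
  · exact (h3 fun j => x (finSumFinEquiv.symm j)).imp fun c hc =>
      ⟨hc.1, hc.2.1, fun j => by rw [hc.2.2, Equiv.symm_apply_apply]⟩
  · obtain ⟨_, rfl⟩ := (e _ _).1 k
    obtain ⟨_, rfl⟩ := (e _ _).1 k'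
    rfl

end Pool.Agent.Lib.MP_696deb_nt.EV.D
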