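import Pool.Agent.Lib.MP_696deb_nt.ED.Q3

/-! Prescribed ramification. -/

set_option autoImplicit false

open scoped Classical NNReal
open Finset NumberField

namespace Pool.Agent.Lib.MP_696deb_nt.EV.D

variable {d : ℤ} {ι : Type} {t : ι → TP}

theorem q5_cl (K : Type) [Field K] [NumberField K] : ∃ n : ℕ, n ≠ 0 ∧ ∀ P : Ideal (𝓞 K), P ≠ ⊥ →
    ∃ x ∈ P, ∀ y ∈ P, ∃ z, z * x = n * y := by
  choose I hI using ClassGroup.mk0_surjective (R := 𝓞 K)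
  refine ⟨∏ c, Ideal.absNorm (I c).1,
    prod_ne_zero_iff.2 fun c _ => Ideal.absNorm_ne_zero_of_nonZeroDivisors _, fun P hP => ?_⟩
  obtain ⟨x, -, hx⟩ := ClassGroup.mk0_eq_mk0_inv_iff.1
    (hI (ClassGroup.mk0 ⟨P, mem_nonZeroDivisors_of_ne_zero hP⟩)⁻¹)
  refine ⟨x, Ideal.mul_le_right (hx.ge (Ideal.mem_span_singleton_self x)), fun y hy =>
    Ideal.mem_span_singleton'.1 (hx.le (Ideal.mul_mem_mul ?_ hy))⟩
  generalize (ClassGroup.mk0 (R := 𝓞 K) _)⁻¹ = c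
  obtain ⟨m, hm⟩ := dvd_prod_of_mem (fun c => Ideal.absNorm (I c).1) (mem_univ c)
  rw [hm, Nat.cast_mul]
  exact Ideal.mul_mem_right _ _ (Ideal.absNorm_mem _)

theorem q5_gen {H : Subgroup Gam} (hH : Op H) : ∃ B : Finset ℕ, ∀ u : Plc, u.p ∉ B →
    ∃ x : Qbar, Fx H x ∧ u.V u.p ≤ u.V x ∧ u.V x < 1 ∧
      ∀ v : Plc, v.p ∉ B → (∀ g ∈ H, g • u ≠ v) → v.V x = 1 := by
  have := B2.nf_Kf hH
  obtain ⟨n, n0, hn⟩ := q5_cl (B2.Kf H)
  refine ⟨n.primeFactors, fun u hu => ?_⟩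
  have h1 : ∀ v : Plc, (v.p : 𝓞 (B2.Kf H)) ∈ (B2.b2aP v).comap (B2.cfaHom H) := fun v => by
    rw [Ideal.mem_comap, map_natCast]
    exact B2.b2a_p_mem v
  have h2 : ∀ v : Plc, (B2.b2aP v).comap (B2.cfaHom H) ≠ ⊥ := fun v h => by
    have e := h1 v
    rw [h, Ideal.mem_bot, Nat.cast_eq_zero] at e
    exact v.prime.ne_zero e
  obtain ⟨x, hx, h4⟩ := hn _ (h2 u)
  have h3 : ∀ v : Plc, v.p ∉ n.primeFactors → ∀ y ∈ (B2.b2aP u).comap (B2.cfaHom H),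
      v.V (B2.cfaHom H y) ≤ v.V (B2.cfaHom H x) := fun v hv y hy => by
    obtain ⟨z, hz⟩ := h4 y hy
    have e := congrArg (fun a => v.V (B2.cfaHom H a)) hz
    simp only [map_mul, map_natCast, MulMemClass.coe_mul, SubringClass.coe_natCast] at e
    rw [← Int.cast_natCast, v.V_int_eq_one.2 fun k =>
      hv (Nat.mem_primeFactors.2 ⟨v.prime, Int.natCast_dvd_natCast.1 k, n0⟩), one_mul] at e
    rw [← e]
    exact mul_le_of_le_one_left' (v.V_le_one_of_isIntegral (B2.cfaHom H z).2)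
  have h5 := h3 u hu _ (h1 u)
  rw [map_natCast, SubringClass.coe_natCast] at h5
  refine ⟨B2.cfaHom H x, B2.fx_Kf (x : B2.Kf H), h5, hx, fun v hv k =>
    (v.V_le_one_of_isIntegral (B2.cfaHom H x).2).eq_of_not_lt fun l => ?_⟩
  have e := ((Ideal.comap_isPrime (B2.cfaHom H) (B2.b2aP u)).isMaximal (h2 u)).eq_of_le
    (Ideal.comap_isPrime (B2.cfaHom H) (B2.b2aP v)).ne_top fun y hy => (h3 v hv y hy).trans_lt l
  obtain ⟨g, hg, e'⟩ := B2.Un.conj hH (v := ⟨_, Ideal.comap_isPrime _ _, h2 u⟩) (B2.cfa_un rfl)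
    (B2.cfa_un e.symm)
  exact k g hg e'

/-- Finitely many primes generate the class group of the biquadratic field. -/
theorem exists_gen_cl (_ : Fd d) : ∃ B : Finset ℕ, ∀ r : TP, Spt d r.v → r.v.p ∉ B →
    ∃ x : Qbar, x ≠ 0 ∧ Fx (HF d) x ∧ r.v.V x = r.v.V (io r.π) ∧
      ∀ v : Plc, v.p ∉ B → (∀ g ∈ HF d, g • r.v ≠ v) → v.V x = 1 := by
  obtain ⟨B, h⟩ := q5_gen (op_HF d)
  refine ⟨B, fun r hs hr => ?_⟩
  obtain ⟨x, k1, h3, h2, k2⟩ := h r.v hr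
  have h1 := B2.b2a_one_lt r.v
  have h0 := zero_lt_one.trans h1
  have x0 : x ≠ 0 := fun e => by
    rw [e, map_zero, r.v.hV] at h3
    exact h3.not_gt (inv_pos.2 h0)
  refine ⟨x, x0, k1, ?_, k2⟩
  obtain ⟨k, hk⟩ := B2.V_of_fx_ine (w := r.v)
    (fun g hg => k1 g (hs.le ⟨ine_le r.odd hg, B2.Ine_le _ hg⟩)) x0
  rw [r.v.hV, hk, inv_le_inv₀ h0 (zpow_pos h0 k), ← zpow_one (r.v.p : ℝ≥0),
    ← zpow_mul, zpow_le_zpow_iff_right₀ h1] at h3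
  rw [hk, inv_lt_one₀ (zpow_pos h0 k), one_lt_zpow_iff_right₀ h1] at h2
  rw [hk, show k = 1 by omega, zpow_one, r.V_pi]

theorem exists_base (hd : Fd d) : ∃ B : Finset ℕ, ∀ {ι : Type} (t : ι → TP),
    (∀ v, Off t v → v.p ∉ B) → Fix d t := by
  obtain ⟨B, h⟩ := exists_gen_cl hd
  obtain ⟨-, g, -, -, -, g1, g2⟩ := exists_g0 hd
  refine ⟨B ∪ d.natAbs.primeFactors, fun t ht r hs hr => ?_⟩
  have hB := fun v hv => (notMem_union.1 (ht v hv)).1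
  obtain ⟨x, x0, h1, h2, h3⟩ := h r hs (hB _ hr)
  obtain ⟨c, c1, c2⟩ := exists_cor (ch_xq (R := ZMod 3) d) le_rfl g1 g2
    ((cq_iff inf_le_right).2 (b4_chC (HF_le d) x0 h1))
  have z : ∀ v : Plc, v.p ≠ 3 → v.p ∉ B → (∀ g ∈ HF d, g • r.v ≠ v) → ∀ σ ∈ HF d, σ ∈ Ine v →
      chC x σ = 0 := fun v a1 a2 a3 σ a4 a5 => (kum_chC x0 h1).unr a1 (h3 v a2 a3) σ ⟨a4, a5⟩
  have z' : ∀ {v : Plc} {σ : Gam}, σ ∈ Ine v → g⁻¹ * σ * g ∈ Ine (g⁻¹ • v) := fun hσ => by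
    rw [B2.mem_Ine_smul]
    simpa [mul_assoc] using hσ
  refine ⟨c, c1, ?_, fun v hv e σ hσ => ?_⟩
  · have m : r.σ ∈ HF d := hs.le ⟨r.σ_mem, B2.Ine_le _ r.σ_ine⟩
    have p0 := EW.io_ne r.prime.ne_zero
    have a1 : Fx (HF d) (x / io r.π) := fun g hg => by
      rw [map_div₀, h1 g hg, io_fx _ g hg.1]
    have a2 : r.v.V (x / io r.π) = 1 := by
      rw [map_div₀, h2, div_self ((map_ne_zero r.v.V).2 p0)]
    rw [c2 _ m, z (g⁻¹ • r.v) r.odd (hB r.v hr) (fun k hk e => ?_) _ (q2_conj g1 m) (z' r.σ_ine),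
      smul_zero, add_zero, ← div_mul_cancel₀ x p0, chC_mul r.σ_mem (div_ne_zero x0 p0) p0 (a1 _ m)
        (io_fx _ _ r.σ_mem), (kum_chC (div_ne_zero x0 p0) a1).unr r.odd a2 _ ⟨m, r.σ_ine⟩, zero_add]
    · exact chC_sigma r
    · have e' := hs.chi (g := g * k) ⟨mul_mem g1 hk.1, show (g * k) • r.v = r.v by
        rw [mul_smul, e, smul_inv_smul]⟩
      rw [map_mul, g2, (mem_HF.1 hk).2] at e'
      exact absurd e' (by decide)
  · have m : σ ∈ HF d := ⟨ine_le hv.1 hσ, chi_unr hd.fund (fun k => (notMem_union.1 (ht v hv)).2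
      (Nat.mem_primeFactors.2 ⟨v.prime, Int.natCast_dvd.1 k, Int.natAbs_ne_zero.2 hd.fund.ne⟩)) hσ⟩
    have n : ∀ u : Plc, u.V (io r.π) = 1 → ∀ g ∈ HF d, g • r.v ≠ u := fun u hu k hk e => by
      rw [← e, B2.smul_V, io_fx _ _ (inv_mem hk.1)] at hu
      exact r.lt.ne hu
    rw [c2 _ m, z v hv.1 (hB v hv) (n v e) σ m hσ, z (g⁻¹ • v) hv.1 (hB v hv) (n _ (by
      rw [B2.smul_V, inv_inv, io_fx _ _ g1, e])) _ (q2_conj g1 m) (z' hσ), smul_zero, add_zero]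

theorem q5_sum {κ : Type} (s : Finset κ) {x : κ → Gam → ZMod 3} (h : ∀ i ∈ s, Cq d G (x i)) :
    Cq d G fun g => ∑ i ∈ s, x i g := by
  induction s using Finset.induction_on with
  | empty => exact ⟨.const _, fun _ _ _ _ => by simp⟩
  | insert i s hi ih =>
    simp only [sum_insert hi]
    exact Zc.add (h i (mem_insert_self _ _)) (ih fun j hj => h j (mem_insert_of_mem hj))

theorem exists_fix (hd : Fd d) (ram : ∀ v, Off t v → ¬ (v.p : ℤ) ∣ d) (fix : Fix d t)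
    {f : Gam → ZMod 3} (hs : Sm G f) (h1 : ∀ v, Off t v → IsHom (Ine v) f)
    (h2 : ∀ v, Off t v → ∀ σ ∈ Ine v, ∀ g ∈ G, f (g * σ * g⁻¹) = xq d _ g * f σ) :
    ∃ x, Cq d G x ∧ ∀ v, Off t v → ∀ σ ∈ Ine v, x σ = f σ := by
  have fin : {π : O | ∃ s : TP, s.π = π ∧ Off t s.v ∧ f s.σ ≠ 0}.Finite := by
    obtain ⟨U, hU, -, h⟩ := hs
    obtain ⟨B, hB⟩ := B2.finite_ram hU
    refine ((B.filter (· ≠ 0)).finite_toSet.biUnion fun p hp =>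
      p1_fin (n := p) (Nat.cast_ne_zero.2 (mem_filter.1 hp).2)).subset ?_
    rintro _ ⟨s, rfl, k1, k2⟩
    refine Set.mem_biUnion (x := s.v.p) (mem_filter.2 ⟨by_contra fun e => k2 ?_,
      s.v.prime.ne_zero⟩) ⟨s.prime, s.prim, s.dvd_p⟩
    rw [← h 1 G.one_mem _ s.σ_mem (by simpa using hB _ e s.σ_ine), p1_one (h1 _ k1)]
  have A : ∀ {x : Gam → ZMod 3}, Sm G x → ∀ r : TP, Off t r.v → IsHom (Ine r.v) x →
      x r.σ = f r.σ → ∀ σ ∈ Ine r.v, x σ = f σ := fun {x} b r hr b' e σ hσ => by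
    have l := ine_le hr.1
    refine sub_eq_zero.1 (p1_tame r (f := fun g => x g - f g)
      ((b.mono l).comp₂ (hs.mono l) (· - ·)) (fun a ha c hc => ?_) (sub_eq_zero.2 e) hσ)
    simp only [b' a ha c hc, h1 _ hr a ha c hc]
    ring
  have sp : ∀ r : TP, Off t r.v → f r.σ ≠ 0 → Spt d r.v := fun r hr e => by_contra fun k => by
    obtain ⟨g, hg, e1⟩ := exists_ns k
    have b := (p1_b4 r.prime.ne_zero).smul (f r.σ * chC (io r.π) r.σ)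
    have l := ine_le r.odd
    have e2 := A b.1 r hr (fun a ha c hc => b.2 a (l ha) c (l hc))
      (by rw [mul_assoc, F3_sq (chC_sigma r), mul_one]) _ (B2.conj_mem_Ine hg.2 r.σ_ine)
    rw [p1_conj (p1_b4 r.prime.ne_zero).2 hg.1 r.σ_mem, mul_assoc, F3_sq (chC_sigma r), mul_one,
      h2 _ hr _ r.σ_ine g hg.1, xq_of' e1, neg_one_mul] at e2
    exact e (q2_two e2)
  choose! c hc using fun π (h : π ∈ fin.toFinset) => show ∃ c : Gam → ZMod 3, Cq d G c ∧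
      (∃ r : TP, r.π = π ∧ Off t r.v ∧ c r.σ = f r.σ) ∧
      ∀ s : TP, Off t s.v → π ≠ s.π → c s.σ = 0 by
    obtain ⟨r, rfl, k1, k2⟩ := fin.mem_toFinset.1 h
    obtain ⟨c, c1, c2, c3⟩ := fix r (sp r k1 k2) k1
    refine ⟨fun g => (f r.σ * c r.σ) • c g, Zc.smul c1 _, ⟨r, rfl, k1, ?_⟩, fun s k e => ?_⟩
    · simp only [smul_eq_mul, mul_assoc, F3_sq c2, mul_one]
    · simp only [c3 _ k (s.V_eq.2 (s.not_dvd r e.symm)) _ s.σ_ine, smul_zero]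
  have b := q5_sum fin.toFinset fun π h => (hc π h).1
  have u : ∀ v, Off t v → ∀ σ ∈ Ine v, xq d (ZMod 3) σ = 1 := fun v hv σ hσ =>
    xq_of (chi_unr hd.fund (ram v hv) hσ)
  have A' := fun (r : TP) (hr : Off t r.v) => A b.1 r hr fun a ha c hc =>
    (b.2 a (ine_le hr.1 ha) c (ine_le hr.1 hc)).trans (by rw [u _ hr a ha, one_smul])
  refine ⟨_, b, fun v hv σ hσ => ?_⟩
  obtain ⟨s, rfl⟩ := exists_tp_v hv.1
  by_cases k : s.π ∈ fin.toFinset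
  · obtain ⟨r, e, k1, k2⟩ := (hc _ k).2.1
    obtain ⟨g, hg, e'⟩ := r.conj (e ▸ s.lt)
    rw [← e', B2.mem_Ine_smul] at hσ
    have e1 := (ch_xq d).zc_conj le_rfl b hg (ine_le k1.1 hσ)
    rw [u _ k1 _ hσ, sub_self, zero_smul, sub_zero, smul_eq_mul] at e1
    rw [show σ = g * (g⁻¹ * σ * g) * g⁻¹ by group, h2 _ k1 _ hσ g hg, e1]
    refine congrArg _ (A' r k1 ?_ _ hσ)
    rw [sum_eq_single_of_mem _ k fun x hx ne => (hc x hx).2.2 r k1 (e ▸ ne), k2]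
  · refine A' s hv ?_ σ hσ
    rw [sum_eq_zero fun x hx => (hc x hx).2.2 s hv fun e => k (e ▸ hx)]
    exact (not_not.1 fun z => k (fin.mem_toFinset.2 ⟨s, rfl, hv, z⟩)).symm

end Pool.Agent.Lib.MP_696deb_nt.EV.D
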