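import Pool.Agent.Lib.MP_696deb_nt.ED.T1b
import Pool.Agent.Lib.MP_696deb_nt.ED.Q4
import Pool.Agent.Lib.MP_696deb_nt.ED.Q5
import Pool.Agent.Lib.MP_696deb_nt.ED.Ind
import Pool.Agent.Lib.MP_696deb_nt.EV.T9
import Pool.Agent.Lib.MP_696deb_nt.EV.C8

/-! The data exist. -/

set_option autoImplicit false

open scoped Classical NNReal
open Finset PowerSeries

namespace Pool.Agent.Lib.MP_696deb_nt.EV.D

theorem exists_cb (t : Tw) (hN : ∀ q : ℕ, t.N.factorization q < 3) {φ : O → O} (hφ : Phi t φ) :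
    ∃ c : Cb, c.t = t ∧ c.φ = φ := by
  obtain ⟨B, hB⟩ := exists_base t.fd
  obtain ⟨n, n0, n1, n2, n3⟩ : ∃ n : ℕ, n ≠ 0 ∧ t.M ∣ n ∧ 2 ∣ n ∧ ∀ p ∈ B, p ≠ 0 → p ∣ n :=
    ⟨t.M * 2 * ∏ p ∈ B.erase 0, p, mul_ne_zero (mul_ne_zero t.M_ne two_ne_zero)
      (prod_ne_zero_iff.2 fun p hp => ne_of_mem_erase hp), (dvd_mul_right _ _).mul_right _,
      (dvd_mul_left _ _).mul_right _, fun p hp h =>
        (dvd_prod_of_mem _ (mem_erase.2 ⟨h, hp⟩)).mul_left _⟩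
  choose tp htp using fun i : {π : O | Prime π ∧ Prim π ∧ π ∣ (n : O)} => exists_tp i.2.1 i.2.2.1
  have dv : ∀ i, (tp i).π ∣ (n : O) := fun i => htp i ▸ i.2.2.2
  have inj : ∀ i j, (tp i).π = (tp j).π → i = j := fun i j e =>
    Subtype.ext (by rwa [htp, htp] at e)
  have ex : ∀ v : Plc, v.p ≠ 3 → v.p ∣ n → ∃ i, v.V (io (tp i).π) < 1 := fun v h2 hv => by
    obtain ⟨π, p1, p2, p3⟩ := g1_pi h2
    exact ⟨⟨π, p1, p2, ((g1_lt p1 p3).1 (g1_p v)).trans (Nat.cast_dvd_cast hv)⟩, by rwa [htp]⟩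
  have off : ∀ v, Off tp v → ¬ v.p ∣ n := fun v hv h => by
    obtain ⟨i, hi⟩ := ex v hv.1 h
    exact hi.ne (hv.2 i)
  have nd : t.d.natAbs ∣ n := (dvd_mul_left _ _).trans n1
  have fin := (p1_fin (Nat.cast_ne_zero.2 n0 : (n : O) ≠ 0)).fintype
  obtain ⟨m, γ, ty, g1, g2⟩ := exists_gens t.fd inj
    (fun v hv h => off v hv ((Int.natCast_dvd.1 h).trans nd))
    (hB tp fun v hv h => off v hv (n3 _ h v.prime.ne_zero))
  obtain ⟨p, hp, h1⟩ := Nat.exists_prime_and_dvd t.fd.fund.one_lt.ne'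
  obtain ⟨v, rfl⟩ := B2.exists_plc hp
  obtain ⟨i0, h0⟩ := ex v (fun e => t.fd.three (Int.natCast_dvd.2 (e ▸ h1 :))) (h1.trans nd)
  have d0 : (tp i0).π ∣ (t.d : O) := ((g1_lt (tp i0).prime h0).1 (g1_p v)).trans
    (by exact_mod_cast Int.cast_dvd_cast (α := O) _ _ (Int.natCast_dvd.2 h1))
  obtain ⟨g0, k1, k2⟩ := chi_ram t.fd.fund ((tp_dvd _).1 d0)
  obtain ⟨α, a1, a2⟩ := exists_alpha t.fd n.primeFactors
  have a3 : ¬ α.π ∣ (n : O) := fun h =>
    a1 (Nat.mem_primeFactors.2 ⟨α.v.prime, c8_dvd α h, n0⟩)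
  obtain ⟨Q, q1, q2, q3, q4⟩ := exists_Q0 t
  refine ⟨⟨t, φ, hφ, _, fin, tp, inj, fun p k1 k2 => ?_, fun i hs hi => rho0_sigma t _ hs fun k => ?_,
    Fin m, inferInstance, γ, g1, ty, g2, i0, d0, g0, k1, k2, α, fun i e => a3 (e ▸ dv i),
    fun h => a3 (h.trans (by exact_mod_cast Nat.cast_dvd_cast (α := O) n2)), a2,
    Q, q1, q2, q3, q4⟩, rfl, rfl⟩
  · rcases p1_prime k1 with k | ⟨π, l1, l2, k⟩
    · exact .inl k.symm.dvd
    · exact .inr ⟨⟨π, l1, l2, (k.dvd.trans k2).trans (Nat.cast_dvd_cast n1)⟩, by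
        rw [htp]; exact k.symm.dvd⟩
  · have h1 := (tp i).v.prime.factorization_pos_of_dvd t.ne (c8_dvd _ hi)
    have h3 := hN (tp i).v.p
    omega

theorem Cb.van (c : Cb) (h : ∀ m : ℕ, 0 < m → 9 * c.t.M ∣ m → ∀ (a b : O) (R : Finset O),
    IsCoprime a m → IsCoprime b m → EW.IsRep m R →
      ∑ x ∈ R with Prim x, io (star (c.φ x)) * dl a (x • tq b m) = 0) : c.Van := by
  intro e
  have m0 := c.m0_ne e
  obtain ⟨R, hR, -⟩ := EW.exists_rep m0
  obtain ⟨d1, d2, -⟩ := c.dvd_m0 e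
  have k := h _ (Nat.pos_of_ne_zero (Nat.cast_ne_zero.1 m0))
    ⟨3 ^ (e + 1), by ring⟩ c.α.π 1 R (c.α.prime.irreducible.coprime_iff_not_dvd.2
      (c.nd_m0 e _ (c.nd_M' _ c.α_ne))) isCoprime_one_left hR
  refine (sum_congr rfl fun P hP => by rw [co_spec m0 (Im_kill m0 hP)]).trans ((sum_Im m0 d1 hR
    (fun a => io (star (c.φ a)) * dl c.α.π (tq a (c.m0 e))) fun a a' l => by
      rw [c.phi.per _ _ (d2.trans l), (tq_eq_iff m0).2 l]).trans (Eq.trans ?_ k))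
  rw [← filter_filter, sum_filter]
  refine sum_congr rfl fun a _ => ?_
  split_ifs with l
  · rw [EW.tq_eq a m0]
    rfl
  · rw [c.phi.zero a fun l' => l ?_, star_zero, map_zero, zero_mul]
    rw [Nat.cast_mul, Nat.cast_ofNat] at l'
    rw [c.m0_eq]
    exact l'.of_mul_right_right.mul_right l'.of_mul_right_left.pow_right

theorem Cb.exists_g (c : Cb) : ∃ g ∈ G, cyc g = 1 ∧ chi c.d g = -1 ∧ chC (io w) g ≠ 0 ∧
    ∀ i, chC (io (c.tp i).π) g ≠ 0 := by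
  obtain ⟨g, hg, h1, h2, h3⟩ := t9_fix c.tp c.inj (fun _ => 1) univ
  have e : ∀ a : O, a ≠ 0 → chC (io a) g ≠ 0 → chC (io a) (g ^ 2 * c.g0 ^ 3) ≠ 0 :=
    fun a ha k => by
      rw [t9_mul ha (pow_mem hg 2) (pow_mem c.g0_mem 3), t9_pow ha hg, t9_pow ha c.g0_mem]
      revert k
      generalize chC (io a) g = x, chC (io a) c.g0 = y
      revert x y
      decide
  refine ⟨g ^ 2 * c.g0 ^ 3, mul_mem (pow_mem hg 2) (pow_mem c.g0_mem 3), ?_, ?_, e _ p1_w h2,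
    fun i => e _ (c.tp i).prime.ne_zero (by rw [h3 i (mem_univ _)]; decide)⟩
  · simp only [pow_succ, pow_zero, one_mul, H3.cyc_mul, h1, c.cyc_g0]
  · rw [map_mul, map_pow, map_pow, c.g0_chi, Int.units_sq, one_mul]
    decide

theorem Cb.exists_lv (c : Cb) (k : ℕ) : Nonempty (Lv c k) := by
  obtain ⟨s, hs, ord⟩ : ∃ s : ℕ, k + 1 ≤ s ∧ ∑ i ∈ range (3 ^ s), (1 + X : La) ^ i ∈ aa k := by
    obtain ⟨s, -, ord⟩ := exists_ord k
    refine ⟨s + (k + 1), by omega, Ideal.Quotient.eq_zero_iff_mem.1 ?_⟩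
    have := Ideal.Quotient.eq_zero_iff_mem.2 ord
    simp only [map_sum, map_pow] at this ⊢
    exact t1b_mul this (pow_dvd_pow 3 (by omega))
  obtain ⟨g, hg, h1, h0, h2, h3⟩ := c.exists_g
  obtain ⟨U1, n1, u1⟩ := nice_cy (s + 1)
  let a : Option c.ι → O := fun i => i.elim w fun j => (c.tp j).π
  have a0 : ∀ i, a i ≠ 0 := by
    rintro (_ | j)
    exacts [p1_w, (c.tp j).prime.ne_zero]
  obtain ⟨U3, n3, u3⟩ := EV.nice_fin (p := fun i u => chC (io (a i)) u = 0) fun i =>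
    nice_hom (m := 1) (p1_b4 (a0 i)).1 (p1_b4 (a0 i)).2
  obtain ⟨l, n, hn, hB, -, hu⟩ := cheb ((Nice.of (n1.inf n3)).inf (nice_HF c.d)) hg
    (insert c.α.v.p (univ.image fun i => (c.tp i).v.p))
  have hφ := l.φ_mem
  obtain ⟨u, e, ⟨m1, m3⟩, m4⟩ : ∃ u, g ^ n = l.φ * u ∧ (u ∈ U1 ∧ u ∈ U3) ∧ u ∈ HF c.d :=
    ⟨_, (mul_inv_cancel_left _ _).symm, hu⟩
  have hG := n1.le m1
  have d : 3 ^ (s + 1) ∣ nm l.π - 1 := by
    let f : Gam →* ZMod (3 ^ (s + 1)) := ⟨⟨cy (s + 1), g1_cy_one _⟩, H3.cy_mul _⟩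
    have e1 : f g ^ n = f l.φ * f u := by rw [← map_pow, e, map_mul]
    change cy _ g ^ n = cy _ l.φ * cy _ u at e1
    rw [u1 u m1, mul_one, cy, h1, map_one, one_pow, cy, l.cyc_φ, map_natCast,
      ← Nat.cast_one (R := ZMod (3 ^ (s + 1))), ZMod.natCast_eq_natCast_iff] at e1
    exact (Nat.modEq_iff_dvd' (by have := l.nm_mod; omega)).1 e1
  obtain ⟨x⟩ := exists_ix l (by omega) d
  have pe : ∀ r : TP, r.π = l.π → l.v.p = r.v.p := fun r e => by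
    obtain ⟨b, -, e'⟩ := r.conj (e ▸ l.lt)
    exact e' ▸ rfl
  rw [mem_insert, not_or] at hB
  have nd : ∀ i, (c.tp i).π ≠ l.π := fun i e =>
    hB.2 (mem_image.2 ⟨i, mem_univ _, (pe _ e).symm⟩)
  have n3 : ¬ 3 ∣ n := fun h => absurd ((hn.coprime_dvd_right (by decide : 3 ∣ 6)).symm.eq_one_of_dvd h)
    (by decide)
  have fr : ∀ i, chC (io (a i)) l.φ = 0 ↔ chC (io (a i)) g = 0 := fun i => by
    have p := t9_pow (a0 i) hg n
    rw [e, t9_mul (a0 i) hφ hG, u3 u m3 i, add_zero] at p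
    rw [p, mul_eq_zero, or_iff_right (mt (ZMod.natCast_eq_zero_iff n 3).1 n3)]
  have par : ∀ i, ¬ l.π ∣ a i → (3 ∣ (x.ind (a i)).val ↔ chC (io (a i)) g = 0) := fun i hi => by
    rw [x.par _ hi, ← chC_frob l hi, fr]
  have ch : chi c.d l.φ = -1 := by
    have r5 := congrArg (chi c.d) e
    rw [map_pow, map_mul, mem_GQ.1 m4.2, mul_one, h0,
      (Nat.coprime_two_right.1 (hn.coprime_dvd_right (by decide : 2 ∣ 6))).neg_one_pow] at r5
    exact r5.symm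
  have nd' : ¬ l.π ∣ (c.d : O) := fun h => c.nd_M' l nd (by
    rw [Tw.M, Nat.cast_mul]
    exact (h.trans (b1_dvd.1 dvd_rfl)).mul_left _)
  exact ⟨⟨l, s, x, ord, hs, nd, fun e => hB.1 (pe _ e), by rw [← chi_tp c.fd.fund l nd', ch]; rfl,
    mt (par none (t9_w l)).1 h2,
    fun i => mt (par (some i) (l.not_dvd _ (nd i).symm)).1 (h3 i)⟩⟩

theorem Lv.exists_bw {c : Cb} {k : ℕ} (l : Lv c k) : Nonempty l.Bw := by
  by_cases hs : Spt c.d w3
  swap
  · exact ⟨⟨0, 0, fun h => absurd h hs, fun i => by simp, fun i => by simp⟩⟩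
  choose β0 h0 using fun y => exists_B (l.chr y false) hs
  obtain ⟨β, β', h1, h2, h3⟩ := exists_B2 (wI_ne k) (l.chr true true) (l.chr false true)
    (fun g hg => by
      rw [md, md, ← map_sub, mem_wI]
      exact Ideal.mem_sup_left (Ideal.mem_span_singleton.2 (l.ρ_cong g hg))) hs
  have hX : Ideal.span {(X : La)} ≠ ⊤ := by
    rw [Ne, Ideal.span_singleton_eq_top, isUnit_iff_constantCoeff, constantCoeff_X]
    exact not_isUnit_zero
  have := lo2_sup hX k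
  have z := (h2.map (Ideal.Quotient.factor (le_sup_right : aa k ≤ Ideal.span {(X : La)} ⊔ aa k))).full
    (fz (two_pow_zero le_sup_right)) fun g hg => by
      rw [cy, ← mk_padic, md, Ideal.Quotient.factor_mk, Ideal.Quotient.eq, Lv.ρ, Cb.r0, hs.xq hg,
        one_mul, ← mul_sub_one]
      refine Ideal.mem_sup_left (Ideal.mul_mem_left _ _ (Ideal.mem_span_singleton.2 ?_))
      have := sub_dvd_pow_sub_pow (1 + X : La) 1 (l.ex true g)
      rwa [one_pow, show (1 + X - 1 : La) = X by ring] at this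
  have : ∀ i, ∃ ν : La, Ideal.Quotient.mk (aa k) (X * ν) = β' i := fun i => by
    obtain ⟨b, hb⟩ := Ideal.Quotient.mk_surjective (β' i)
    have z1 := congrFun z i
    rw [← hb, Ideal.Quotient.factor_mk, Pi.zero_apply, Ideal.Quotient.eq_zero_iff_mem] at z1
    obtain ⟨x, hx, y, hy, rfl⟩ := Submodule.mem_sup.1 z1
    obtain ⟨ν, rfl⟩ := Ideal.mem_span_singleton.1 hx
    exact ⟨ν, by rw [← hb, map_add, Ideal.Quotient.eq_zero_iff_mem.2 hy, add_zero]⟩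
  choose ν hν using this
  refine ⟨⟨fun y b i => bif b then (bif y then (β i).out else X * ν i) else (β0 y i).out, ν,
    fun _ y b => ?_, fun i => ?_, fun i => rfl⟩⟩
  · cases b
    · simpa only [cond_false, Ideal.Quotient.mk_out] using h0 y
    · cases y
      · simpa only [cond_false, cond_true, hν] using h2
      · simpa only [cond_true, Ideal.Quotient.mk_out] using h1
  · rw [← mem_wI, map_sub]
    simpa only [cond_false, cond_true, hν, Ideal.Quotient.mk_out] using h3 i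

end Pool.Agent.Lib.MP_696deb_nt.EV.D
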