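import Pool.Agent.Lib.MP_696deb_nt.ED.Q3
import Pool.Agent.Lib.MP_696deb_nt.EV.C6

/-! The relation at three. -/

set_option autoImplicit false

open scoped Classical NNReal
open Finset

namespace Pool.Agent.Lib.MP_696deb_nt.EV.D

variable {R : Type} [CommRing R] {d : ℤ} {ρ ρ' : Gam → R} {β : Fin 4 → R}

theorem IsB.map {R' : Type} [CommRing R'] (f : R →+* R') (k : IsB ρ β) :
    IsB (fun g => f (ρ g)) fun i => f (β i) := by
  intro M _ _ _ x
  let _ : Module R M := Module.compHom M f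
  exact k M x

theorem IsB.congr (k : IsB ρ β) (e : ∀ g ∈ Hw, ρ' g = ρ g) : IsB ρ' β := fun M _ _ _ x =>
  (exists_congr fun _ => and_congr_left' ⟨fun h => h.congr (fun g hg => (e g hg).symm)
    fun _ _ => rfl, fun h => h.congr e fun _ _ => rfl⟩).trans (k M x)

section

variable {M M' : Type} [AddCommGroup M] [Module R M] [AddCommGroup M'] [Module R M']
  {N : Submodule R M} {Φ Ψ : M → ZMod 3} {b : Gam → M}

/-- Vectors of values of local cocycles. -/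
def Q6R (ρ : Gam → R) (x : Fin 4 → M) : Prop := ∃ c : Gam → M, Zc Hw ρ c ∧ ∀ i, c (ew i) = x i

theorem q6_lin {x : Fin 4 → M} (f : M →ₗ[R] M') (h : Q6R ρ x) : Q6R ρ fun i => f (x i) := by
  obtain ⟨c, c1, c2⟩ := h
  exact ⟨_, c1.lin f, fun i => congrArg f (c2 i)⟩

theorem q6_prod {x : Fin 4 → M} {x' : Fin 4 → M'} (h : Q6R ρ x) (h' : Q6R ρ x') :
    Q6R ρ fun i => (x i, x' i) := by
  obtain ⟨c, c1, c2⟩ := h
  obtain ⟨c', d1, d2⟩ := h'
  exact ⟨fun g => (c g, c' g), ⟨c1.1.comp₂ d1.1 Prod.mk, fun g hg h hh =>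
    Prod.ext (c1.2 g hg h hh) (d1.2 g hg h hh)⟩, fun i => Prod.ext (c2 i) (d2 i)⟩

variable [Lo2 R]

theorem q6_inj [Finite M] (k : Chr ρ) (f : M' →ₗ[R] M) (hf : Function.Injective f)
    {x : Fin 4 → M'} (h : Q6R ρ fun i => f (x i)) : Q6R ρ x := by
  obtain ⟨c, c1, c2⟩ := h
  have : Finite (M ⧸ LinearMap.range f) := .of_surjective _ (LinearMap.range f).mkQ_surjective
  have z := Zc.zero_ew k (c1.lin (LinearMap.range f).mkQ) fun i => by
    rw [c2]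
    exact (Submodule.Quotient.mk_eq_zero _).2 ⟨_, rfl⟩
  have e : ∀ g ∈ Hw, f (Function.invFun f (c g)) = c g := fun g hg =>
    Function.invFun_eq ((Submodule.Quotient.mk_eq_zero _).1 (z g hg))
  refine ⟨fun g => Function.invFun f (c g), ⟨c1.1.comp _, fun g hg h hh => hf ?_⟩, fun i => hf ?_⟩
  · rw [map_add, map_smul, e _ (mul_mem hg hh), e g hg, e h hh, c1.2 g hg h hh]
  · rw [e _ (ew_mem i), c2]

/-- Functionals on a submodule with values in the residue field. -/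
structure Q6F (N : Submodule R M) (Φ : M → ZMod 3) : Prop where
  add : ∀ y ∈ N, ∀ z ∈ N, Φ (y + z) = Φ y + Φ z
  smul : ∀ u : R, ∀ y ∈ N, Φ (u • y) = rs R u * Φ y

theorem Q6F.plus (h : Q6F N Φ) (k : Q6F N Ψ) : Q6F N (Φ + Ψ) :=
  ⟨fun y hy z hz => by
    simp only [Pi.add_apply, h.add y hy z hz, k.add y hy z hz]
    ring, fun u y hy => by
    simp only [Pi.add_apply, h.smul u y hy, k.smul u y hy]
    ring⟩

theorem q6_fun [Finite M] (N : Submodule R M) (n : M) (h : ¬ N ≤ R ∙ n) :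
    ∃ Φ, Q6F N Φ ∧ Φ n = 0 ∧ ∃ m ∈ N, Φ m = 1 := by
  obtain ⟨y, y1, y2⟩ := SetLike.not_le_iff_exists.1 h
  let π := (R ∙ n).mkQ
  have : Finite (M ⧸ (R ∙ n)) := .of_surjective _ (R ∙ n).mkQ_surjective
  have m {y : M} (hy : y ∈ N) : π y ∈ N.map π := Submodule.mem_map_of_mem hy
  have : Nontrivial (N.map π) := ⟨⟨⟨π y, m y1⟩, 0, fun e =>
    y2 ((Submodule.Quotient.mk_eq_zero _).1 (congrArg Subtype.val e))⟩⟩
  obtain ⟨f, f1, f2⟩ := Lo2.exists_fun (R := R) (M := N.map π)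
  let Φ : M ⧸ (R ∙ n) → ZMod 3 := fun y => if h : y ∈ N.map π then f ⟨y, h⟩ else 0
  have a0 {y} (h : y ∈ N.map π) : Φ y = f ⟨y, h⟩ := dif_pos h
  refine ⟨fun y => Φ (π y), ⟨fun y hy z hz => ?_, fun u y hy => ?_⟩, ?_, ?_⟩
  · rw [a0 (m hy), a0 (m hz), a0 (m (add_mem hy hz)), ← map_add]
    exact congrArg f (Subtype.ext (map_add π y z))
  · rw [a0 (m hy), a0 (m (N.smul_mem u hy)), ← f2]
    exact congrArg f (Subtype.ext (map_smul π u y))
  · have e : π n = 0 := (Submodule.Quotient.mk_eq_zero _).2 (Submodule.mem_span_singleton_self n)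
    beta_reduce
    rw [e, a0 (zero_mem _)]
    exact map_zero f
  · obtain ⟨⟨_, z, hz, rfl⟩, e⟩ := f1 1
    exact ⟨z, hz, (a0 (m hz)).trans e⟩

theorem q6_c2 (k : Chr ρ) (hΦ : Q6F N Φ) (hb : Sm Hw b)
    (ho : ∀ g ∈ Hw, ∀ h ∈ Hw, b g + ρ g • b h - b (g * h) ∈ N) :
    C2 1 Hw fun g h => Φ (b g + ρ g • b h - b (g * h)) := by
  have sρ := k.sm.mono (inf_le_left : Hw ≤ G)
  refine ⟨((hb.left.comp₂ (sρ.left.comp₂ hb.right (· • ·)) (· + ·)).comp₂ hb.mul (· - ·)).comp Φ,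
    fun g hg h hh l hl => ?_⟩
  rw [cy_one_G hg.1, one_mul]
  have e1 := hΦ.smul (ρ g) _ (ho h hh l hl)
  rw [k.rs hg.1, one_mul] at e1
  have e2 := hΦ.add _ (N.smul_mem (ρ g) (ho h hh l hl)) _ (ho g hg _ (mul_mem hh hl))
  have e3 := hΦ.add _ (ho _ (mul_mem hg hh) l hl) _ (ho g hg h hh)
  rw [e1] at e2
  refine e2.symm.trans (Eq.trans (congrArg Φ ?_) e3)
  rw [k.mul g hg.1 h hh.1, mul_assoc]
  module

theorem q6_step (k : Chr ρ) (hΦ : Q6F N Φ) (hb : Sm Hw b)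
    (ho : ∀ g ∈ Hw, ∀ h ∈ Hw, b g + ρ g • b h - b (g * h) ∈ N) {x : Fin 4 → M}
    (hx : ∀ i, b (ew i) - x i ∈ N) {n : M} (hn : n ∈ N) (h1 : Φ n = 1)
    (hs : Spl 1 Hw fun g h => Φ (b g + ρ g • b h - b (g * h))) :
    ∃ N' : Submodule R M, N' < N ∧ Q6R ρ fun i => N'.mkQ (x i) := by
  obtain ⟨(η : Gam → ZMod 3), s1, s2⟩ := hs
  let N' : Submodule R M :=
    { carrier := {y | y ∈ N ∧ Φ y = 0}
      zero_mem' := ⟨N.zero_mem, by simpa using hΦ.smul 0 0 N.zero_mem⟩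
      add_mem' := fun {y z} hy hz => ⟨add_mem hy.1 hz.1, by
        rw [hΦ.add y hy.1 z hz.1, hy.2, hz.2, add_zero]⟩
      smul_mem' := fun u y hy => ⟨N.smul_mem u hy.1, by rw [hΦ.smul u y hy.1, hy.2, mul_zero]⟩ }
  have key : ∀ y ∈ N, ∀ a u : R, rs R a * Φ y + rs R u = 0 → a • y + u • n ∈ N' :=
    fun y hy a u e => ⟨add_mem (N.smul_mem a hy) (N.smul_mem u hn), by
      rw [hΦ.add _ (N.smul_mem a hy) _ (N.smul_mem u hn), hΦ.smul a y hy, hΦ.smul u n hn, h1,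
        mul_one, e]⟩
  have h3 : ∀ z : ZMod 3, rs R (z.val : R) = z := fun z => by
    rw [map_natCast, ZMod.natCast_zmod_val]
  obtain ⟨χ, x1, x2⟩ := sur_ew fun i => Φ (b (ew i) - x i) - η (ew i)
  refine ⟨N', lt_of_le_of_ne (fun _ h => h.1) fun e => one_ne_zero (h1.symm.trans
    (show n ∈ N' from e ▸ hn).2), fun g => N'.mkQ (b g - ((η g + χ g).val : R) • n),
    ⟨hb.comp₂ (s1.comp₂ x1.1 (· + ·)) fun y z => N'.mkQ (y - (z.val : R) • n),
      fun g hg h hh => ?_⟩, fun i => (Submodule.Quotient.eq N').2 ?_⟩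
  · rw [← map_smul, ← map_add]
    refine (Submodule.Quotient.eq N').2 ?_
    have e : Φ (b g + ρ g • b h - b (g * h)) = η g + η h - η (g * h) := by
      have := s2 g hg h hh
      rwa [cy_one_G hg.1, one_mul] at this
    convert key _ (ho g hg h hh) (-1) (((η g + χ g).val : R) + ρ g * ((η h + χ h).val : R) -
      ((η (g * h) + χ (g * h)).val : R)) (by
        rw [map_sub, map_add, map_mul, h3, h3, h3, k.rs hg.1, e, x1.2 g hg h hh, map_neg, map_one]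
        ring) using 1
    module
  · convert key _ (hx i) 1 (-((η (ew i) + χ (ew i)).val : R)) (by
      rw [map_neg, h3, x2, map_one]
      ring) using 1
    module

/-- A minimal module of relations is cyclic. -/
theorem q6_cyc [Finite M] (k : Chr ρ) {x : Fin 4 → M} (hN : Q6R ρ fun i => N.mkQ (x i))
    (hm : ∀ N' : Submodule R M, (Q6R ρ fun i => N'.mkQ (x i)) → ¬ N' < N) : ∃ n, N = R ∙ n := by
  obtain ⟨c, c1, c2⟩ := hN
  obtain ⟨s, hs⟩ := N.mkQ_surjective.hasRightInverse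
  have hb : Sm Hw fun g => s (c g) := c1.1.comp s
  have ho : ∀ g ∈ Hw, ∀ h ∈ Hw, s (c g) + ρ g • s (c h) - s (c (g * h)) ∈ N := fun g hg h hh => by
    rw [← Submodule.Quotient.mk_eq_zero, ← N.mkQ_apply, map_sub, map_add, map_smul, hs, hs, hs,
      c1.2 g hg h hh, sub_self]
  have hx : ∀ i, s (c (ew i)) - x i ∈ N := fun i => by
    rw [← Submodule.Quotient.mk_eq_zero, ← N.mkQ_apply, map_sub, hs, c2, sub_self]
  obtain ⟨F⟩ := H3.exists_cft
  let I : (M → ZMod 3) → ZMod 3 := fun Φ =>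
    F.inv 1 G w3 fun g h => Φ (s (c g) + ρ g • s (c h) - s (c (g * h)))
  have nz : ∀ Φ, Q6F N Φ → ∀ n ∈ N, Φ n = 1 → I Φ ≠ 0 := fun Φ hΦ n hn h1 e => by
    obtain ⟨N', l, g⟩ := q6_step k hΦ hb ho hx hn h1 ((F.zero_iff op_G (q6_c2 k hΦ hb ho)).1 e)
    exact hm N' g l
  have ad : ∀ Φ Ψ, Q6F N Φ → Q6F N Ψ → I (Φ + Ψ) = I Φ + I Ψ := fun Φ Ψ hΦ hΨ =>
    F.add op_G (q6_c2 k hΦ hb ho) (q6_c2 k hΨ hb ho)
  by_contra! hc
  have nl : ∀ n ∈ N, ¬ N ≤ R ∙ n := fun n hn l =>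
    hc n (le_antisymm l ((Submodule.span_singleton_le_iff_mem n N).2 hn))
  obtain ⟨Φ, p1, -, n, hn, p2⟩ := q6_fun N 0 (nl 0 N.zero_mem)
  obtain ⟨Ψ, q1, q2, m, hm', q3⟩ := q6_fun N n (nl n hn)
  have a1 := nz Φ p1 n hn p2
  have a2 := nz Ψ q1 m hm' q3
  have a3 := nz _ (p1.plus q1) n hn (by simp [p2, q2])
  have a4 := nz _ ((p1.plus q1).plus q1) n hn (by simp [p2, q2])
  rw [ad _ _ (p1.plus q1) q1, ad _ _ p1 q1] at a4
  rw [ad _ _ p1 q1] at a3
  exact (by decide : ∀ a b : ZMod 3, a ≠ 0 → b ≠ 0 → a + b ≠ 0 → a + b + b ≠ 0 → False)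
    _ _ a1 a2 a3 a4

end

/-- The module of relations at three is cyclic. -/
theorem exists_B0 [Lo2 R] (k : Chr ρ) : ∃ β, IsB ρ β := by
  let e : Fin 4 → Fin 4 → R := fun i => Pi.single i 1
  have fin : ∀ N : Submodule R (Fin 4 → R), Finite ((Fin 4 → R) ⧸ N) := fun N =>
    .of_surjective _ N.mkQ_surjective
  obtain ⟨N, hN, hm⟩ := wellFounded_lt.has_min
    {N : Submodule R (Fin 4 → R) | Q6R ρ fun i => N.mkQ (e i)}
    ⟨⊤, fun _ => 0, ⟨.const _, fun _ _ _ _ => Subsingleton.elim _ _⟩,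
      fun _ => Subsingleton.elim _ _⟩
  have least : ∀ N' : Submodule R (Fin 4 → R), (Q6R ρ fun i => N'.mkQ (e i)) → N ≤ N' :=
    fun N' h' => by
      have l : LinearMap.ker (N.mkQ.prod N'.mkQ) = N ⊓ N' := by
        rw [LinearMap.ker_prod, Submodule.ker_mkQ, Submodule.ker_mkQ]
      exact inf_eq_left.1 (inf_le_left.eq_of_not_lt (hm _ (q6_inj k ((N ⊓ N').liftQ _ l.ge)
        (LinearMap.ker_eq_bot.1 (Submodule.ker_liftQ_eq_bot _ _ _ l.le)) (q6_prod hN h'))))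
  obtain ⟨β, hβ⟩ := q6_cyc k hN hm
  refine ⟨β, fun M _ _ _ x => ?_⟩
  let φ : (Fin 4 → R) →ₗ[R] M := Fintype.linearCombination R x
  have φe : ∀ i, φ (e i) = x i := fun i =>
    (Fintype.linearCombination_apply_single R x i 1).trans (one_smul R _)
  constructor
  · intro h
    refine least (LinearMap.ker φ) (q6_inj k ((LinearMap.ker φ).liftQ φ le_rfl)
      (LinearMap.ker_eq_bot.1 (Submodule.ker_liftQ_eq_bot _ _ _ le_rfl)) ?_)
      (hβ ▸ Submodule.mem_span_singleton_self β)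
    obtain ⟨c, c1, c2⟩ := h
    exact ⟨c, c1, fun i => (c2 i).trans (φe i).symm⟩
  · intro h
    have hl : N ≤ LinearMap.ker φ := by
      rw [hβ, Submodule.span_singleton_le_iff_mem]
      exact h
    obtain ⟨c, c1, c2⟩ := q6_lin (N.liftQ φ hl) hN
    exact ⟨c, c1, fun i => (c2 i).trans (φe i)⟩

theorem exists_B [Lo2 R] (k : Ch d ρ) (hs : Spt d w3) : ∃ β, IsB ρ β :=
  (exists_B0 k).imp fun _ h => h.congr fun g hg => by rw [hs.xq hg, one_mul]

theorem exists_B2 [Lo2 R] {I : Ideal R} (hI : I ≠ ⊤) (k : Ch d ρ) (k' : Ch d ρ')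
    (e : ∀ g ∈ G, ρ g - ρ' g ∈ I) (hs : Spt d w3) :
    ∃ β β', IsB ρ β ∧ IsB ρ' β' ∧ ∀ i, β i - β' i ∈ I := by
  obtain ⟨P, p1, p2⟩ := exists_pair hI k k' e
  have := lo2_Fp hI
  obtain ⟨B, hB⟩ := exists_B p1 hs
  exact ⟨_, _, (hB.map ((RingHom.fst R R).comp (Fp I).subtype)).congr
      fun g hg => (congrArg Prod.fst (p2 g hg.1)).symm,
    (hB.map ((RingHom.snd R R).comp (Fp I).subtype)).congr
      fun g hg => (congrArg Prod.snd (p2 g hg.1)).symm, fun i => (B i).2⟩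

/-- For the cyclotomic character there is no relation. -/
theorem IsB.full [Lo2 R] {e : ℕ} (f : ZMod (3 ^ e) →+* R) (k : IsB ρ β)
    (h : ∀ g ∈ Hw, ρ g = f (cy e g)) : β = 0 := by
  cases e with
  | zero => exact absurd (f.codomain_trivial (α := ZMod 1)) (not_subsingleton R)
  | succ e =>
  have l : Hw ≤ G := inf_le_left
  have key : ∀ j : Fin 4, ∃ a : Fin 4 → R, ∑ i, a i * β i = 0 ∧
      ∀ i, rs R (a i) = (1 : Matrix (Fin 4) (Fin 4) (ZMod 3)) j i := fun j => by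
    obtain ⟨χ, x1, x2⟩ := sur_ew fun i => (1 : Matrix (Fin 4) (Fin 4) (ZMod 3)) j i
    obtain ⟨x, hx⟩ := H3.exists_kum_tr l (p1_closed.inter (B2.closed_Dec w3)) (H3.coc_tr.2 x1)
    obtain ⟨κ, hκ⟩ := H3.exists_kum (e + 1) hx.fx.1 hx.fx.2
    refine ⟨fun i => f (κ (ew i)), ?_, fun i => ?_⟩
    · simpa only [smul_eq_mul, mul_comm] using (k R fun i => f (κ (ew i))).1
        ⟨fun g => f (κ g), ⟨hκ.sm.comp f, fun g hg g' hg' => by
          simp only [hκ.coc g hg g' hg', map_add, map_mul, h g hg, smul_eq_mul]⟩, fun _ => rfl⟩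
    · rw [p3_rs, ← p3_par l hκ (ew_mem i), ← chC_of_kum l hx (ew_mem i), x2]
  choose A a1 a2 using key
  have u : IsUnit (Matrix.of A) := (Matrix.isUnit_iff_isUnit_det _).2 (by
    by_contra hu
    have e1 : (rs R).mapMatrix (Matrix.of A) = 1 := Matrix.ext a2
    rw [← rs_zero, RingHom.map_det, e1, Matrix.det_one] at hu
    exact one_ne_zero hu)
  exact Matrix.mulVec_injective_of_isUnit u ((funext a1).trans (Matrix.mulVec_zero _).symm)

/-- Cubic reciprocity for the prime above three. -/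
theorem ig_w {t : TP} {s : ℕ} (x : Ix t s) (h : ¬ 3 ∣ (x.ind w).val) :
    ∃ i, ¬ 3 ∣ (x.ig (ew i)).val := by
  by_contra! hc
  have nd : ¬ t.π ∣ w := t.V_eq.1 (p1_V_w t.odd)
  refine h ((x.par w nd).2 ((chC_frob t nd).1 ?_))
  have p0 := t.prime.ne_zero
  have z := ew_spec.2 _ ((p1_b4 p0).mono inf_le_left) fun i => (x.ig_par (ew_mem i).1).1 (hc i)
  obtain ⟨F⟩ := H3.exists_cft
  have k : Kum 1 G (io t.π) (chC (io t.π)) := kum_chC (EW.io_ne p0) (io_fx _)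
  have b := p1_b4 p1_w
  have b1 (v : Plc) : B4bG (G ⊓ Dec v) (chC (io w)) := b.mono inf_le_left
  have c2 : C2 1 G (cup 1 (chC (io w)) (chC (io t.π))) := H3.c2_cup (m := 1) b.1 b.2 k.sm k.coc
  have n : w3 ≠ t.v := c6_ne t 1
  have r := F.recip {w3, t.v} op_G c2 (fun v hv v' hv' g hg e => by
    simp only [mem_insert, mem_singleton] at hv hv'
    rcases hv with rfl | rfl <;> rcases hv' with rfl | rfl
    exacts [rfl, absurd e (c6_ne t g), absurd e (c6_ne' t g), rfl]) fun v hv =>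
      F.unit (m := 1) op_G (b1 v).1 (b1 v).2 (fun σ hσ => p1_unr_w (fun e => (conj_w3 e).elim
        fun g hg => hv _ (by simp) g hg.1 hg.2) hσ.2) (k.mono inf_le_left) (c6_away t hv (by simp))
  rw [sum_pair n, F.kum (m := 1) 1 op_G t.tm.ine t.tm.mem (t.tm.deg ▸ t.tm.frob) (b1 _).1 (b1 _).2
    (fun σ hσ => p1_unr_w t.odd hσ) (k.mono inf_le_left) (by rw [t.V_pi, zpow_one]),
    (F.zero_iff op_G (c2.mono inf_le_left)).2 ⟨fun _ => 0, .const _, fun g _ g' hg' => by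
      rw [cup, z g' hg', mul_zero, mul_zero, add_zero, sub_self]⟩, zero_add, Int.cast_one, mul_one] at r
  exact r

end Pool.Agent.Lib.MP_696deb_nt.EV.D
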