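import Pool.Agent.Lib.MP_696deb_nt.EV.Mwx

/-! The class of the elliptic units at a level that is prime to three. -/

set_option autoImplicit false

open scoped Classical NNReal
open Finset

namespace Pool.Agent.Lib.MP_696deb_nt.EV.D

variable {R : Type} [CommRing R] {e : ℕ} {m a b : O} {P Q : A} {ξ : Qbar} {g : Gam} {W : O → R}

/-- Points of exact order `m`. -/
def Pm (m : O) (P : A) : Prop := m • P = 0 ∧ IsCoprime (co m P) m

/-- The points of exact order `m` modulo units. -/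
noncomputable def Xp (m : O) : Finset Qbar := (Xi m).filter fun ξ => Pm m (pick m ξ)

/-- The class at the level `m`. -/
noncomputable def FY (f : ZMod (3 ^ e) →+* R) (m b : O) (W : O → R) : Gam → R :=
  FF f (Xp m) (fun ξ => yb b e (pick m ξ)) fun ξ => W (co m (pick m ξ))

/-- Levels and weights. -/
structure Mu (m b : O) (W : O → R) : Prop where
  rd : CU.red m ≠ 0
  big : 4 < nm m
  red : CU.red b ≠ 0
  cop : IsCoprime b m
  per : ∀ a a', m ∣ a - a' → W a = W a'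
  mul : ∀ a a', IsCoprime a m → IsCoprime a' m → W (a * a') = W a * W a'
  unit : W (-om) = 1

theorem n2_u : IsUnit (-om) := EW.isUnit_om.neg

theorem n2_cu (k : ℕ) : IsCoprime ((-om) ^ k) m := by
  obtain ⟨u, hu⟩ := n2_u.pow k
  exact ⟨↑u⁻¹, 0, by rw [← hu, zero_mul, add_zero, u.inv_mul]⟩

theorem Pm.smul (h : Pm m P) (hm : m ≠ 0) (ha : IsCoprime a m) : Pm m (a • P) :=
  ⟨by rw [smul_comm, h.1, smul_zero], cop_of_dvd (co_smul hm a h.1) (ha.mul_left h.2)⟩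

theorem Pm.dvd (h : Pm m P) (hm : m ≠ 0) (k : a • P = 0) : m ∣ a := by
  rw [← co_spec hm h.1, EW.smul_tq _ _ hm, EW.tq_eq_zero hm] at k
  exact h.2.symm.dvd_of_dvd_mul_right k

theorem Pm.act (h : Pm m P) (hm : m ≠ 0) (hg : g ∈ G) : Pm m (g • P) :=
  cm_spec hm hg h.1 ▸ h.smul hm (cm_cop hm hg)

theorem pm_tq (hm : m ≠ 0) : Pm m (tq a m) ↔ IsCoprime a m :=
  ⟨fun h => cop_of_dvd (dvd_sub_comm.1 (co_tq hm a)) h.2,
    fun h => ⟨m_tq hm a, cop_of_dvd (co_tq hm a) h⟩⟩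

theorem Pm.of (h : Pm m (a • P)) (hm : m ≠ 0) (k : m • P = 0) : Pm m P :=
  ⟨k, (cop_of_dvd (dvd_sub_comm.1 (co_smul hm a k)) h.2).of_mul_left_right⟩

namespace Mu

variable (h : Mu m b W)
include h

theorem ne : m ≠ 0 := EW.ne_of_red h.rd

theorem nz (k : Pm m P) (ha : IsCoprime a m) : a • P ≠ 0 := fun e => by
  have := g1_nm_one.2 (ha.symm.isUnit_of_dvd (k.dvd h.ne e))
  have := h.big
  omega

theorem nz' (k : Pm m P) : P ≠ 0 := one_smul O P ▸ h.nz k isCoprime_one_left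

theorem pk (k : ξ ∈ Xp m) : Pm m (pick m ξ) ∧ xco (pick m ξ) ^ 3 = ξ :=
  ⟨(mem_filter.1 k).2, (mw_pick h.ne (mem_filter.1 k).1).2⟩

theorem orb (k : Pm m Q) : ∃ j : ℕ, pick m (xco Q ^ 3) = (-om) ^ j • Q := by
  obtain ⟨⟨p0, -⟩, p⟩ := mw_pick h.ne (mw_mem h.ne (h.nz' k) k.1)
  exact (mw_orb p0 (h.nz' k) p).imp fun _ => And.right

theorem mem (k : Pm m Q) : xco Q ^ 3 ∈ Xp m := by
  obtain ⟨j, e⟩ := h.orb k
  exact mem_filter.2 ⟨mw_mem h.ne (h.nz' k) k.1, e ▸ k.smul h.ne (n2_cu j)⟩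

theorem wt (k : Pm m P) (ha : IsCoprime a m) : W (co m (a • P)) = W a * W (co m P) := by
  rw [h.per _ _ (co_smul h.ne a k.1), h.mul _ _ ha k.2]

theorem wp (k : Pm m Q) : W (co m (pick m (xco Q ^ 3))) = W (co m Q) := by
  obtain ⟨j, e⟩ := h.orb k
  rw [e]
  clear e
  induction j with
  | zero => rw [pow_zero, one_smul]
  | succ j ih =>
    rw [pow_succ', mul_smul, h.wt (k.smul h.ne (n2_cu j)) (pow_one (-om) ▸ n2_cu 1), h.unit,
      one_mul, ih]

theorem up (k : Pm m Q) : ub b (pick m (xco Q ^ 3)) = ub b Q := by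
  obtain ⟨j, e⟩ := h.orb k
  rw [e, mw_ubk (EW.ne_of_red h.red)]

theorem act (hg : g ∈ G) (k : ξ ∈ Xp m) : g • ξ ∈ Xp m ∧
    W (co m (pick m (g • ξ))) = W (cm m g) * W (co m (pick m ξ)) := by
  obtain ⟨p, q⟩ := h.pk k
  have e : g • ξ = xco (g • pick m ξ) ^ 3 := by rw [← mw_act, q]
  rw [e, h.wp (p.act h.ne hg), ← h.wt p (cm_cop h.ne hg), ← cm_spec h.ne hg p.1]
  exact ⟨h.mem (p.act h.ne hg), rfl⟩

theorem fam (e : ℕ) : Fam G e (Xp m) fun ξ => yb b e (pick m ξ) :=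
  (mw_fam h.ne h.red h.cop e).sub (filter_subset _ _) fun _ hg _ k => (h.act hg k).1

theorem zc (f : ZMod (3 ^ e) →+* R) : Zc G (fun g => f (cy e g) * W (cm m g)) (FY f m b W) :=
  zc_FF f (h.fam e) fun _ hg _ k => (h.act hg k).2

theorem unr (f : ZMod (3 ^ e) →+* R) {v : Plc} (hv : v.p ≠ 3) (k : v.V (io m) = 1) {σ : Gam}
    (hσ : σ ∈ Ine v) : FY f m b W σ = 0 := by
  refine sum_eq_zero fun ξ hξ => ?_
  obtain ⟨p, q⟩ := h.pk hξ
  have h1 := (h.fam e).root (ine_le hv hσ) hξ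
  have h2 := (h.fam e).ne ξ hξ
  have h3 : v.V (yb b e (pick m ξ)) = 1 := (pow_eq_one_iff_of_nonneg zero_le
    (pow_ne_zero e three_ne_zero)).1 (by
      rw [← map_pow, es_pow]
      exact EW.ub_unit hv h.red fun S r => EW.not_Kr k (c := b)
        (by rw [smul_add, r, add_zero, smul_comm, p.1, smul_zero])
        (by rw [smul_add, r, add_zero]; exact h.nz p h.cop))
  have h4 : σ⁻¹ • ξ = ξ := by rw [← q, mw_act, act_ine hv k (inv_mem hσ) p.1]
  rw [kc]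
  rw [h4] at h1 ⊢
  rw [root_eq hv h1 (one_pow _) (B2.b4a_unit hσ h3 (mul_div_cancel₀ _ h2).symm), lg_one, map_zero,
    zero_mul]

theorem fib {β : Type} [CommMonoid β] (F : A → β) (k : Pm m Q) :
    ∏ S ∈ (En m).erase 0 with xco S ^ 3 = xco Q ^ 3, F S = ∏ j ∈ range 6, F ((-om) ^ j • Q) := by
  have key : ∀ j < 6, ∀ k < 6, j = k ∨ nm ((-om) ^ j - (-om) ^ k) ∈ [1, 3, 4] := by decide
  refine (prod_bij (fun j _ => (-om) ^ j • Q) (fun j _ => mem_filter.2 ⟨(EW.mem_En0 h.ne).2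
    ⟨mw_ne j (h.nz' k), by rw [smul_comm, k.1, smul_zero]⟩, mw_x j Q⟩) (fun j hj i hi e => ?_)
    (fun S hS => ?_) fun _ _ => rfl).symm
  · rw [← sub_eq_zero, ← sub_smul] at e
    obtain ⟨c, e⟩ := k.dvd h.ne e
    refine (key j (mem_range.1 hj) i (mem_range.1 hi)).resolve_right fun r => ?_
    have := h.big
    have l := Nat.le_of_dvd (n := nm ((-om) ^ j - (-om) ^ i)) (by grind) ⟨_, e ▸ g1_nm_mul m c⟩
    grind
  · obtain ⟨j, hj, e⟩ := mw_orb ((EW.mem_En0 h.ne).1 (mem_filter.1 hS).1).1 (h.nz' k)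
      (mem_filter.1 hS).2
    exact ⟨j, mem_range.2 hj, e.symm⟩

theorem im : P ∈ Im (3 * m) ↔ m • P = tq 1 3 ∧ Pm m ((3 : O) • P) := by
  have m0 := mul_ne_zero mw_w3 h.ne
  have k : ∀ a, Pm m ((3 : O) • tq a (3 * m)) ↔ IsCoprime a m := fun a => by
    rw [mul_comm, tq_down h.ne mw_w3, pm_tq h.ne]
  rw [mem_Im m0]
  refine ⟨?_, fun ⟨h1, h2⟩ => ?_⟩
  · rintro ⟨a, h1, h2, rfl⟩
    rw [tq_down mw_w3 h.ne, tq_eq_iff mw_w3, k]
    exact ⟨prim_iff.1 h2, h1.of_mul_right_right⟩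
  · have h3 := co_spec m0 (P := P) (by rw [mul_smul, h1, m_tq mw_w3])
    rw [← h3, tq_down mw_w3 h.ne, tq_eq_iff mw_w3] at h1
    rw [← h3, k] at h2
    exact ⟨_, (cop_of_dvd h1 isCoprime_one_left).mul_right h2, prim_iff.2 h1, h3.symm⟩

/-- The product over a fibre at the level `3 * m`. -/
theorem psh (k : Pm m Q) :
    (∏ P ∈ Im (3 * m) with xco ((3 : O) • P) ^ 3 = xco ((3 : O) • Q) ^ 3, ub b P) *
      ub b (w • Q) = ub b ((3 : O) • Q) := by
  have p0 := h.ne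
  have hb := h.red
  have b0 := EW.ne_of_red hb
  have c3 := EW.cop_three h.rd
  have h0 := h.nz' k
  obtain ⟨i, hi⟩ := exists_prim h.rd
  have u6 : ∀ k, (-om) ^ (6 * k) = 1 := fun k => by
    rw [pow_mul, show (-om) ^ 6 = 1 by decide, one_pow]
  have g1 : m • (-om) ^ i • tq 1 3 = tq 1 3 := by
    rw [smul_smul, EW.smul_tq _ _ mw_w3, tq_eq_iff mw_w3, mul_one, mul_comm]
    exact prim_iff.1 hi
  have g3 : (3 : O) • (-om) ^ i • tq 1 3 = 0 := by rw [smul_comm, m_tq mw_w3 1, smul_zero]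
  have hI := fun P => h.im (P := P)
  have e2 : ∀ k, ub b ((-om) ^ i • tq 1 3 + (-om) ^ k • Q) =
      ub b ((-om) ^ (5 * i) • Q + (-om) ^ (5 * k) • tq 1 3) := fun k => by
    rw [← mw_ubk b0 (k + i) (_ • Q + _), smul_add, smul_smul, smul_smul, ← pow_add, ← pow_add,
      show k + i + 5 * k = 6 * k + i by omega, show k + i + 5 * i = 6 * i + k by omega, pow_add,
      pow_add, u6, u6, one_mul, one_mul, add_comm]
  have six := mw_six fun S => ub b ((-om) ^ (5 * i) • Q + S)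
  have k' := k.smul p0 (n2_cu (5 * i))
  generalize (-om) ^ i • tq 1 3 = G0 at g1 g3 e2
  simp only [← g1] at hI
  have g4 : ∀ R, (3 : O) • (G0 + R) = (3 : O) • R := fun R => by rw [smul_add, g3, zero_add]
  have e1 : ∏ P ∈ Im (3 * m) with xco ((3 : O) • P) ^ 3 = xco ((3 : O) • Q) ^ 3, ub b P =
      ∏ S ∈ (En m).erase 0 with xco S ^ 3 = xco Q ^ 3, ub b (G0 + S) := by
    refine (prod_bij (fun S _ => G0 + S) (fun S hS => ?_) (fun _ _ _ _ e => add_left_cancel e)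
      (fun P hP => ?_) fun _ _ => rfl).symm
    · obtain ⟨s0, s⟩ := (EW.mem_En0 p0).1 (mem_filter.1 hS).1
      obtain ⟨j, -, e⟩ := mw_orb s0 h0 (mem_filter.1 hS).2
      rw [mem_filter, hI, g4, smul_add, s, add_zero, mw_can c3 s0 s h0 k.1]
      exact ⟨⟨rfl, (e ▸ k.smul p0 (n2_cu j)).smul p0 c3⟩, (mem_filter.1 hS).2⟩
    · obtain ⟨S, rfl⟩ : ∃ S, P = G0 + S := ⟨P - G0, (add_sub_cancel _ _).symm⟩
      rw [mem_filter, hI, g4, smul_add, add_eq_left] at hP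
      have s0 : S ≠ 0 := h.nz' (hP.1.2.of p0 hP.1.1)
      exact ⟨S, mem_filter.2 ⟨(EW.mem_En0 p0).2 ⟨s0, hP.1.1⟩,
        (mw_can c3 s0 hP.1.1 h0 k.1).1 hP.2⟩, rfl⟩
  rw [e1, h.fib _ k, prod_congr rfl fun k _ => e2 k, six, ← mw_ubk b0 (5 * i) (w • Q),
    ← mw_ubk b0 (5 * i) (3 • Q), smul_comm, smul_comm _ (3 : O),
    ← EW.ub_norm hb (EW.cop_w hb) (h.nz k' (EW.cop_w h.rd)),
    ← EW.ub_norm hb (EW.cop_three hb) (h.nz k' c3)]
  refine prod_sdiff fun S hS => ?_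
  rw [EW.mem_En g1_w.ne_zero] at hS
  rw [EW.mem_En mw_w3, show (3 : O) = -w * w by decide, mul_smul, hS, smul_zero]

/-- The Euler factor at the prime above three. -/
theorem down (f : ZMod (3 ^ e) →+* R) : ∃ y : R, ∀ g ∈ G, FE f (3 * m) b W g =
    (1 - W w) * FY f m b W g + (f (cy e g) * W (cm m g) - 1) * y := by
  have p0 := h.ne
  have hb := h.red
  have m0 := mul_ne_zero mw_w3 p0
  obtain ⟨a, c, ha⟩ := EW.cop_w h.rd
  have ca : IsCoprime a m := ⟨w, c, by rwa [mul_comm]⟩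
  have aw : ∀ P : A, m • P = 0 → w • a • P = P := fun P h => by
    rw [smul_smul, mul_comm, eq_sub_of_add_eq ha, sub_smul, mul_smul, h, smul_zero, sub_zero,
      one_smul]
  have k0 := h.fam e
  have k1 := fam_Im m0 (dvd_mul_right _ _) hb e
  have mp : Set.MapsTo (fun ξ => xco (a • pick m ξ) ^ 3) (Xp m) (Xp m) := fun ξ k =>
    h.mem ((h.pk k).1.smul p0 ca)
  have bij := ((Xp m).finite_toSet.injOn_iff_bijOn_of_mapsTo mp).1
    ((mw_bij p0 ca).injOn.mono (filter_subset _ _))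
  have eq : ∀ g ∈ G, ∀ P ∈ Im (3 * m),
      xco ((3 : O) • g • P) ^ 3 = g • xco ((3 : O) • P) ^ 3 := fun g hg P _ => by
    rw [mw_act, act_smul hg]
  have k2 := k1.push (p := fun P => xco ((3 : O) • P) ^ 3) k0.stab k0.sm eq
  have k3 : Fam G e (Xp m) fun ξ => yb b e (pick m (xco (a • pick m ξ) ^ 3)) :=
    ⟨k0.stab, k0.sm, fun ξ h => k0.ne _ (mp h), fun g hg ξ h => by
      rw [mw_eqv p0 hg (filter_subset _ _ h)]
      exact k0.eqv g hg _ (mp h)⟩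
  have pw : ∀ ξ ∈ Xp m, (push (Im (3 * m)) (fun P => xco ((3 : O) • P) ^ 3) (yb b e) ξ *
      yb b e (pick m (xco (a • pick m ξ) ^ 3))) ^ 3 ^ e = yb b e (pick m ξ) ^ 3 ^ e :=
    fun ξ k => by
      obtain ⟨q1, q⟩ := h.pk k
      generalize pick m ξ = Q at q1 q
      have n1 := q1.smul p0 ca
      have e2 : (3 : O) • a • a • Q = (-om) ^ 3 • Q := by
        rw [show (3 : O) = -(w * w) by decide, neg_smul, mul_smul, aw _ n1.1, aw _ q1.1,
          show (-om) ^ 3 = -1 by decide, neg_one_smul]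
      have e3 := h.psh (n1.smul p0 ca)
      rw [e2, mw_x, q, aw _ n1.1, show (-om) ^ 3 = -1 by decide, neg_one_smul, EW.ub_neg] at e3
      rw [mul_pow, push, ← prod_pow]
      simp only [yb, rt3_pow]
      rw [h.up n1, e3]
  refine ⟨-XX f (Xp m) (fun ξ => yb b e (pick m ξ)) (fun ξ =>
    push (Im (3 * m)) (fun P => xco ((3 : O) • P) ^ 3) (yb b e) ξ *
      yb b e (pick m (xco (a • pick m ξ) ^ 3))) fun ξ => W (co m (pick m ξ)), fun g hg => ?_⟩
  have s1 : FE f (3 * m) b W g = _ :=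
    (FF_congr f fun P k => by
      rw [h.wp (h.im.1 k).2, h.per _ _ (co_down p0 mw_w3 (mul_comm m _ ▸ Im_kill m0 k)),
        mul_comm]).trans
    (FF_push f k1 (S' := Xp m) (p := fun P => xco ((3 : O) • P) ^ 3)
      (fun P k => h.mem (h.im.1 k).2) eq hg fun ξ => W (co m (pick m ξ)))
  have s2 := FF_root f (W := fun ξ => W (co m (pick m ξ))) k0 pw hg
  have s3 := FF_bij f (g := g) bij (z := fun ξ => yb b e (pick m ξ))
    (fun ξ h => mw_eqv p0 (inv_mem hg) (filter_subset _ _ h)) fun ξ => W (co m (pick m ξ))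
  have s4 : FF f (Xp m) (fun ξ => yb b e (pick m (xco (a • pick m ξ) ^ 3)))
      (fun ξ => W (co m (pick m ξ))) g = W w * FY f m b W g := by
    rw [FY, ← s3, ← FF_smul]
    refine FF_congr f fun ξ k => ?_
    have n1 := (h.pk k).1.smul p0 ca
    rw [h.wp n1, ← h.wt n1 (EW.cop_w h.rd), aw _ (h.pk k).1.1]
  rw [FF_mul f k2 k3 hg, ← s1, s4, XX_tr f k0 (a := W (cm m g)) fun ξ k => (h.act hg k).2] at s2
  unfold FY at s2 ⊢
  linear_combination -s2

end Mu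

end Pool.Agent.Lib.MP_696deb_nt.EV.D
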