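import Pool.Agent.Lib.MP_696deb_nt.ED.Lim
import Pool.Agent.Lib.MP_696deb_nt.ED.Kol2
import Pool.Agent.Lib.MP_696deb_nt.ED.C7
import Pool.Agent.Lib.MP_696deb_nt.ED.N2
import Pool.Agent.Lib.MP_696deb_nt.EV.T0

/-! The tower: definitions. -/

set_option autoImplicit false

open scoped Classical NNReal
open Finset PowerSeries

namespace Pool.Agent.Lib.MP_696deb_nt.EV.D

/-- The indices of the base among the indices of stage `n`. -/
def Jx.emb {κ : Type} : ∀ {n : ℕ}, κ → Jx κ n
  | 0, i => i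
  | _ + 1, i => some (Jx.emb i)

/-- The prime that belongs to an index that was added. -/
def Jx.pr {κ ι : Type} : ∀ {n : ℕ}, Jx κ n → Jx (Option ι) n
  | 0, _ => none
  | _ + 1, none => none
  | _ + 1, some i => some (Jx.pr i)

/-- The labels of the rows at stage `n`. -/
def Jx.ty {κ ι : Type} (ty : κ → Option (Option ι)) : ∀ {n : ℕ}, Jx κ n → Option (Option (Jx ι n))
  | 0, i => ty i
  | _ + 1, none => some (some none)
  | _ + 1, some i => (Jx.ty ty i).map (Option.map some)

/-- The data that do not depend on the level. -/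
structure Cb where
  t : Tw
  φ : O → O
  phi : Phi t φ
  ι : Type
  fin : Fintype ι
  tp : ι → TP
  inj : ∀ i j, (tp i).π = (tp j).π → i = j
  all : ∀ p : O, Prime p → p ∣ (t.M : O) → p ∣ w ∨ ∃ i, p ∣ (tp i).π
  sig : ∀ i, Spt t.d (tp i).v → (tp i).π ∣ (t.N : O) →
    rho0 t (tp i).σ = oW om ∨ rho0 t (tp i).σ = oW (om ^ 2)
  κ : Type
  fink : Fintype κ
  γ : κ ⊕ Fin 2 → Gam
  gens : Gens t.d tp γ
  ty : κ → Option (Option ι)
  rows : Ty t.d tp ty
  i0 : ι
  i0_d : (tp i0).π ∣ (t.d : O)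
  g0 : Gam
  g0_ine : g0 ∈ Ine (tp i0).v
  g0_chi : chi t.d g0 = -1
  α : TP
  α_ne : ∀ i, (tp i).π ≠ α.π
  α_2 : ¬ α.π ∣ 2
  α_chi : kN t.d α.π = -1
  Q0 : A
  Q_mem : Q0 ∈ Kr w3
  Q_ne : Q0 ≠ 0
  Q_fix : ∀ g ∈ Hw, t.tw g Q0 = Q0
  Q_deep : w3.V (zc Q0) ^ 2 < w3.V (io w)

attribute [instance] Cb.fin Cb.fink

namespace Cb

variable (c : Cb)

/-- The discriminant. -/
abbrev d : ℤ := c.t.d

/-- The four characters at the bottom of the tower. The first index names the system (`true` for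
the curve, `false` for the units), the second one the side of the duality. -/
noncomputable def r0 : Bool → Bool → Gam → Ow
  | true, true, g => rho0 c.t g
  | true, false, g => star (rho0 c.t g)
  | false, true, g => xq c.d Ow g * algebraMap ℤ_[3] Ow (cyc g)
  | false, false, g => xq c.d Ow g

/-- The split primes that divide the cubic parameter. -/
def Rm (i : c.ι) : Prop := Spt c.d (c.tp i).v ∧ (c.tp i).π ∣ (c.t.N : O)

/-- The primes where no ramification is allowed. -/
def St0 (y b : Bool) (i : c.ι) : Prop :=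
  Spt c.d (c.tp i).v ∧ (¬ (c.tp i).π ∣ (c.t.N : O) ∨ y = false ∧ b = false)

/-- The same at stage `n`. -/
def St (y b : Bool) {n : ℕ} (j : Jx (Option c.ι) n) : Prop :=
  ∃ i, j = Jx.emb (some i) ∧ c.St0 y b i

/-- The labels of the rows. -/
def tyn {n : ℕ} : Jx c.κ n → Option (Option (Jx (Option c.ι) n)) :=
  Jx.ty fun i => (c.ty i).map (Option.map some)

/-- The weights at the bottom of the tower. -/
noncomputable def W0 : Bool → ℕ → O → O
  | true, e, a => Tht c.φ e a
  | false, _, a => kN c.d a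

/-- The conductor at the bottom of the tower. -/
noncomputable def m0 (e : ℕ) : O := ((c.t.M * 3 ^ (e + 3) : ℕ) : O)

/-- A division point of the local point. -/
noncomputable def Q1 (e : ℕ) : A :=
  (exists_div (n := (3 : O) ^ e) (pow_ne_zero e three_ne) c.Q0).choose

theorem Q1_spec (e : ℕ) : (3 : O) ^ e • c.Q1 e = c.Q0 :=
  (exists_div (n := (3 : O) ^ e) (pow_ne_zero e three_ne) c.Q0).choose_spec

/-- The conjugate of the Kummer cocycle of the local point. -/
noncomputable def ks (k : ℕ) (g : Gam) : La :=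
  C (oW (star (co (3 ^ (k + 1)) (c.t.cob (c.Q1 (k + 1)) g))))

/-- The central value vanishes. -/
def Van : Prop := ∀ e : ℕ,
  ∑ P ∈ Im (c.m0 e), io (star (c.φ (co (c.m0 e) P))) * dl c.α.π P = 0

end Cb

/-- The auxiliary prime of level `k`. -/
structure Lv (c : Cb) (k : ℕ) where
  lam : TP
  s : ℕ
  x : Ix lam s
  ord : ∑ i ∈ range (3 ^ s), (1 + X : La) ^ i ∈ aa k
  le : k + 1 ≤ s
  nd : ∀ i, (c.tp i).π ≠ lam.π
  ne : c.α.π ≠ lam.π
  chi : kN c.d lam.π = -1
  ow : ¬ 3 ∣ (x.ind w).val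
  oπ : ∀ i, ¬ 3 ∣ (x.ind (c.tp i).π).val

namespace Lv

variable {c : Cb} {k : ℕ} (l : Lv c k)

/-- The exponents. -/
noncomputable def ex : Bool → Gam → ℕ
  | true, g => (l.x.ig g).val
  | false, g => (-l.x.ig g).val

/-- The four characters. -/
noncomputable def ρ (y b : Bool) (g : Gam) : La := C (c.r0 y b g) * (1 + X) ^ l.ex b g

/-- The relations at three. -/
structure Bw where
  β : Bool → Bool → Fin 4 → La
  ν : Fin 4 → La
  isB : Spt c.d w3 → ∀ y b, IsB (md (aa k) (l.ρ y b)) fun i => Ideal.Quotient.mk (aa k) (β y b i)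
  cg : ∀ i, β true true i - β false true i ∈ Ideal.span {ww} ⊔ aa k
  nu : ∀ i, β false true i = X * ν i

end Lv

/-- All the data. -/
structure Cx extends Cb where
  lv : ∀ k, Lv toCb k
  bw : ∀ k, (lv k).Bw

/-- The ideal of the congruence between the two systems. -/
noncomputable def wI (k : ℕ) : Ideal (La ⧸ aa k) := Ideal.span {Ideal.Quotient.mk (aa k) ww}

namespace Cx

variable (c : Cx)

/-- The primes of the base. -/
noncomputable def t0 (k : ℕ) : Option c.ι → TP
  | none => (c.lv k).lam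
  | some i => c.tp i

/-- The four characters. -/
noncomputable def ρ (y b : Bool) (k : ℕ) : Gam → La := (c.lv k).ρ y b

/-- The character of the weight. -/
noncomputable def θ (y : Bool) (k : ℕ) (g : Gam) : La :=
  c.ρ y true k g * C (algebraMap ℤ_[3] Ow (cyc g⁻¹))

/-- The conductor. -/
noncomputable def m (k : ℕ) : O := c.m0 (k + 1) * (c.lv k).lam.π

/-- The lowest level of the system of the units. -/
noncomputable def m1 (k : ℕ) : O := c.d * (c.lv k).lam.π

/-- The weight. -/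
noncomputable def Wt (y : Bool) (k : ℕ) (a : O) : La :=
  C (oW (c.W0 y (k + 1) a)) * (1 + X) ^ ((c.lv k).x.ind a).val

/-- The weight in a quotient. -/
noncomputable def Wq (y : Bool) (J : Ideal La) (k : ℕ) (a : O) : La ⧸ J :=
  Ideal.Quotient.mk J (c.Wt y k a)

/-- The classes of the elliptic units. -/
noncomputable def Fk (y : Bool) (k : ℕ) : Gam → La :=
  lft (FE (fa k) (c.m k) c.α.π (c.Wq y (aa k) k))

/-- The class of the elliptic unit at the lowest level. -/
noncomputable def F1 (k : ℕ) : Gam → La := lft (FY (fa k) (c.m1 k) c.α.π (c.Wq false (aa k) k))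

/-- The factors of the rows of the system of the units. -/
noncomputable def tf (k : ℕ) : Option (Option c.ι) → La
  | none => 1
  | some none => X
  | some (some i) => if (c.tp i).π ∣ (c.t.N : O) then -rq (c.ρ false true k) (c.tp i) else 1

/-- The primitive rows. -/
noncomputable def bf (k : ℕ) {J : Type} (L : Gam → J → La) : Option (Option c.ι) → J → La
  | none, _ => 0
  | some none, j => ∑ i, (c.bw k).ν i * L (ew i) j
  | some (some i), j => L (c.tp i).σ j

/-- Stages. -/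
structure Stg (n : ℕ) where
  t : ℕ → Jx (Option c.ι) n → TP
  γ : Jx c.κ n ⊕ Fin 2 → GG
  J : ∀ k, Finset (DP (k + 1))
  L : Bool → Bool → ℕ → Gam → Jx c.κ n ⊕ Fin 2 → La
  base : ∀ k i, t k (Jx.emb i) = c.t0 k i
  toJ : ∀ k i, i.deep → ∃ r ∈ J k, r.t = t k i
  ofJ : ∀ k, ∀ r ∈ J k, ∃ i, i.deep ∧ r.t = t k i
  inj : ∀ k i j, (t k i).π = (t k j).π → i = j
  good : ∀ k y, Good (c.m k) c.α.π (md (aa k) (c.θ y k)) c.g0 (J k)
  γ_deep : ∀ k i, i.deep → (γ (.inl i) k : Gam) = (t k i.pr).σ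
  gens : ∀ k, Gens c.d (t k) fun j => γ j k
  val : ∀ y k, Val (t k) (fun j => γ j k) (md (aa k) (c.ρ y false k)) (mdL (aa k) (L y false k))
  val2 : ∀ k, Val2 (wI k) (t k) (fun j => γ j k) (md (aa k) (c.ρ true true k))
    (md (aa k) (c.ρ false true k)) (mdL (aa k) (L true true k)) (mdL (aa k) (L false true k))

variable {c}

/-- The primes where ramification is allowed. -/
noncomputable def Stg.ts {n : ℕ} (s : c.Stg n) (y b : Bool) (k : ℕ) :
    {j : Jx (Option c.ι) n // ¬ c.St y b j} → TP := sb (s.t k) (c.St y b)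

/-- The rows. -/
noncomputable def Stg.rw {n : ℕ} (s : c.Stg n) (y b : Bool) (k : ℕ) (i : Jx c.κ n) :
    Jx c.κ n ⊕ Fin 2 → La :=
  rowF (c.St y b) (s.t k) (c.ρ y b k) ((c.bw k).β y b) (s.L y b k) (c.tyn i)

/-- The derived classes. -/
noncomputable def Stg.kp {n : ℕ} (s : c.Stg n) (y : Bool) (k : ℕ) : Gam → La :=
  lft (kol (fa k) (c.m k) c.α.π (c.Wq y (aa k) k) (md (aa k) (c.θ y k)) c.g0 (s.J k))

/-- The conditions on the Frobenius element of a new prime. -/
structure Stg.InN {n : ℕ} (s : c.Stg n) (k : ℕ) (g : Gam) : Prop where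
  ρ : ∀ y b, c.ρ y b k g - 1 ∈ aa k
  cy : cy (k + 2) g = 1
  ig : ∀ r ∈ s.J k, r.x.ig g = 0
  rt : ∀ r ∈ s.J k, g (rt3 (k + 1) (io r.t.π)) = rt3 (k + 1) (io r.t.π)

/-- The stage `s'` has one more prime than `s`. -/
structure Stg.Ex {n : ℕ} (s : c.Stg n) (s' : c.Stg (n + 1)) : Prop where
  t : ∀ k i, s'.t k (some i) = s.t k i
  γ : ∀ j, s'.γ (old j) = s.γ j
  L : ∀ y k g j, s'.L y true k g (old j) = s.L y true k g j
  J : ∀ k, ∃ r, r ∉ s.J k ∧ r.t = s'.t k none ∧ s'.J k = insert r (s.J k)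

end Cx

end Pool.Agent.Lib.MP_696deb_nt.EV.D
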