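import Pool.Agent.Lib.MP_696deb_nt.ED.CN
import Pool.Agent.Lib.MP_696deb_nt.ED.Q6
import Pool.Agent.Lib.MP_696deb_nt.ED.T0
import Pool.Agent.Lib.MP_696deb_nt.EV.T2
import Pool.Agent.Lib.MP_696deb_nt.EV.C6

/-! Classes of units at the bottom of the tower. -/

set_option autoImplicit false

open scoped Classical NNReal
open Finset PowerSeries

namespace Pool.Agent.Lib.MP_696deb_nt.EV.D

/-- The structure map at the bottom of the tower. -/
noncomputable def fX (j : ℕ) : ZMod (3 ^ (j + 1)) →+* La ⧸ JX j := fz (two_pow_zero le_sup_right)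

/-- The character at the bottom of the tower. -/
noncomputable def rX (d : ℤ) (j : ℕ) (g : Gam) : La ⧸ JX j := fX j (xq d _ g * cy (j + 1) g)

/-- Constants in the quotient. -/
noncomputable def cX (j : ℕ) : Ow →+* La ⧸ JX j := (Ideal.Quotient.mk (JX j)).comp C

variable {d : ℤ} {j k : ℕ} {ι : Type} {t : ι → TP} {η : Gam → ZMod (3 ^ (j + 1))}
  {F F' : Gam → La ⧸ JX j}

theorem cX_mk (f : La) : Ideal.Quotient.mk (JX j) f = cX j (constantCoeff f) := mk_JX j f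

theorem cX_zero {z : Ow} : cX j z = 0 ↔ (3 : Ow) ^ (j + 1) ∣ z :=
  Ideal.Quotient.eq_zero_iff_mem.trans (mem_X_sup.trans (by rw [constantCoeff_C]))

theorem cX_padic (x : ℤ_[3]) : cX j (algebraMap ℤ_[3] Ow x) = fX j (PadicInt.toZModPow _ x) :=
  mk_padic _ x

instance lo2_JX (j : ℕ) : Lo2 (La ⧸ JX j) := pr_X.lo2 j

theorem ch_rX (d : ℤ) (j : ℕ) : Ch d (rX d j) := (ch_cy d _).map _

/-- Coordinates. -/
theorem n5_dec (j : ℕ) : ∃ (p q : La ⧸ JX j →+ ZMod (3 ^ (j + 1))) (o : La ⧸ JX j),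
    (∀ y, y = fX j (p y) + o * fX j (q y)) ∧
      ∀ a b, p (fX j a + o * fX j b) = a ∧ q (fX j a + o * fX j b) = b := by
  let φ : La →+ ZMod (3 ^ (j + 1)) × ZMod (3 ^ (j + 1)) :=
    { toFun := fun f => (PadicInt.toZModPow _ (constantCoeff f).re,
        PadicInt.toZModPow _ (constantCoeff f).im)
      map_zero' := by ext <;> simp
      map_add' := fun f g => by ext <;> simp }
  let ψ : La ⧸ JX j →+ _ := QuotientAddGroup.lift (JX j).toAddSubgroup φ fun f h => by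
    have := two_pow_dvd_Ow.1 (mem_X_sup.1 h)
    exact Prod.ext ((lb_ker _ _).2 this.1) ((lb_ker _ _).2 this.2)
  have e : ∀ z : Ow, ψ (cX j z) = (PadicInt.toZModPow _ z.re, PadicInt.toZModPow _ z.im) :=
    fun z => show φ (C z) = _ by simp [φ]
  have s : ∀ x y : ℤ_[3], fX j (PadicInt.toZModPow _ x) + cX j ⟨0, 1⟩ *
      fX j (PadicInt.toZModPow _ y) = cX j ⟨x, y⟩ := fun x y => by
    rw [← cX_padic, ← cX_padic, ← map_mul, ← map_add]
    congr 1
    ext <;> simp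
  refine ⟨(AddMonoidHom.fst _ _).comp ψ, (AddMonoidHom.snd _ _).comp ψ, cX j ⟨0, 1⟩, fun y => ?_,
    fun a b => ?_⟩
  · obtain ⟨f, rfl⟩ := Ideal.Quotient.mk_surjective y
    simp only [cX_mk, AddMonoidHom.comp_apply, e, AddMonoidHom.coe_fst, AddMonoidHom.coe_snd, s]
  · rw [← ZMod.natCast_zmod_val a, ← ZMod.natCast_zmod_val b,
      ← map_natCast (PadicInt.toZModPow (p := 3) (j + 1)),
      ← map_natCast (PadicInt.toZModPow (p := 3) (j + 1)), s]
    simp only [AddMonoidHom.comp_apply, e, AddMonoidHom.coe_fst, AddMonoidHom.coe_snd, and_self]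

/-- First order deformations. -/
noncomputable def d1 (j : ℕ) : La →+* DualNumber (La ⧸ JX j) where
  toFun f := (cX j (constantCoeff f), cX j (coeff 1 f))
  map_one' := by ext <;> simp [coeff_one]
  map_zero' := by ext <;> simp
  map_add' f g := by ext <;> simp
  map_mul' f g := by
    ext
    · simp
    · simp [coeff_one_mul]
      ring

theorem d1_fst (f : La) : (d1 j f).fst = Ideal.Quotient.mk (JX j) f := (cX_mk f).symm

theorem d1_snd (f : La) : (d1 j f).snd = cX j (coeff 1 f) := rfl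

theorem d1_aa (h : j < k) : ∀ f ∈ aa k, d1 j f = 0 := fun f hf => by
  have := fun n hn => cX_zero.2 ((pow_dvd_pow 3 (by omega : j + 1 ≤ k + 1)).trans
    (mem_aa.1 hf n hn))
  exact Prod.ext (coeff_zero_eq_constantCoeff_apply f ▸ this 0 (by omega) :) (this 1 (by omega))

/-- The cup product with the character splits at three. -/
def SpX (η : Gam → ZMod (3 ^ (j + 1))) (F : Gam → La ⧸ JX j) : Prop :=
  ∃ B : Gam → La ⧸ JX j, Sm Hw B ∧ ∀ g ∈ Hw, ∀ h ∈ Hw,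
    fX j (η g * cy (j + 1) g) * F h = B g + fX j (cy (j + 1) g) * B h - B (g * h)

/-- Classes of units with coefficients in the quotient. -/
structure UcX (d : ℤ) (η : Gam → ZMod (3 ^ (j + 1))) (F : Gam → La ⧸ JX j) : Prop where
  zc : Zc G (rX d j) F
  unr : ∀ v : Plc, v.p ≠ 3 → ∀ σ ∈ HF d ⊓ Ine v, F σ = 0
  w : Spt d w3 → SpX η F

/-- Unramified characters of full order of the decomposition group at three. -/
structure Eta (η : Gam → ZMod (3 ^ (j + 1))) : Prop where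
  sm : Sm Hw η
  hom : IsHom Hw η
  unr : ∀ σ ∈ G ⊓ Ine w3, η σ = 0
  nd : ∃ g ∈ Hw, ¬ 3 ∣ (η g).val

theorem UcX.comp (h : UcX d η F) (e : Spt d w3 → Eta η) (p : La ⧸ JX j →+ ZMod (3 ^ (j + 1))) :
    Uc d (j + 1) fun g => p (F g) := by
  refine .of_eta ⟨h.zc.1.comp p, fun g hg k hk => ?_⟩ (fun v hv σ hσ => by
    rw [h.unr v hv σ hσ, map_zero]) fun s => ?_
  · simp only [h.zc.2 g hg k hk, map_add, smul_eq_mul, rX, p5_lin]
  · obtain ⟨B, b1, b2⟩ := h.w s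
    refine ⟨η, (e s).sm, (e s).hom, (e s).unr, (e s).nd, fun g => p (B g), b1.comp p,
      fun g hg k hk => ?_⟩
    rw [cup, ← p5_lin (fX j), b2 g hg k hk, map_sub, map_add, p5_lin]

theorem UcX.of {c c' : Gam → ZMod (3 ^ (j + 1))} (h : Uc d _ c) (h' : Uc d _ c')
    (e : Spt d w3 → Eta η) (o : La ⧸ JX j) : UcX d η fun g => fX j (c g) + o * fX j (c' g) := by
  refine ⟨(h.zc.map (fX j)).add ((h'.zc.map (fX j)).smul o), fun v hv σ hσ => by
    rw [h.unr v hv σ hσ, h'.unr v hv σ hσ, map_zero, mul_zero, add_zero], fun s => ?_⟩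
  obtain ⟨b, b1, b2⟩ := h.w s η (e s).sm (e s).hom (e s).unr
  obtain ⟨b', b3, b4⟩ := h'.w s η (e s).sm (e s).hom (e s).unr
  refine ⟨fun g => fX j (b g) + o * fX j (b' g), b1.comp₂ b3 fun x y => fX j x + o * fX j y,
    fun g hg k hk => ?_⟩
  have h1 := congrArg (fX j) (b2 g hg k hk)
  have h2 := congrArg (fX j) (b4 g hg k hk)
  simp only [cup, map_mul, map_add, map_sub] at h1 h2 ⊢
  linear_combination h1 + o * h2

theorem rX_ine {v : Plc} (hv : v.p ≠ 3) {σ : Gam} (h : σ ∈ HF d ⊓ Ine v) : rX d j σ - 1 = 0 := by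
  rw [rX, xq_of (mem_HF.1 h.1).2, H3.cy_ine hv h.2, mul_one, map_one, sub_self]

theorem unr_X (h1 : Zc G (rX d j) F) (h2 : Unr t F) (h3 : ∀ i, Spt d (t i).v → F (t i).σ = 0)
    (v : Plc) (hv : v.p ≠ 3) : ∀ σ ∈ HF d ⊓ Ine v, F σ = 0 := fun σ hσ => by
  by_cases s : Spt d v
  · rcases off_or t hv with o | ⟨i, g, hg, rfl⟩
    · exact h2 v o σ hσ.2
    · have s' : Spt d (t i).v := by simpa using s.smul (G.inv_mem hg)
      exact (ch_rX d j).unr_smul h1 (t i).odd (fun τ hτ => rX_ine (t i).odd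
        ⟨s'.le ((t i).tm.ine_le hτ), hτ⟩)
        (ine_zero (ch_rX d j) s' (h1.mono inf_le_left) (h3 i s')) hg σ hσ.2
  · obtain ⟨x, hx⟩ := acy (ch_rX d j) hv s (h1.mono inf_le_left)
    rw [hx σ ⟨HF_le d hσ.1, B2.Ine_le v hσ.2⟩, rX_ine hv hσ, zero_smul]

theorem UcX.unr' (hd : Fd d) (h : UcX d η F) (ram : ∀ v, Off t v → ¬ (v.p : ℤ) ∣ d) : Unr t F :=
  fun v hv σ hσ => h.unr v hv.1 σ ⟨mem_HF.2 ⟨ine_le hv.1 hσ, chi_unr hd.fund (ram v hv) hσ⟩, hσ⟩

/-- The upper bound. -/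
theorem ub_X (hd : Fd d) : ∃ N : ℕ, N ≠ 0 ∧ ∀ j, ∃ κ : Gam → La ⧸ JX j,
    ∀ (η : Gam → ZMod (3 ^ (j + 1))) (F : Gam → La ⧸ JX j), (Spt d w3 → Eta η) → UcX d η F →
      ∃ s x, ∀ g ∈ HF d, N * F g = s * κ g + (rX d j g - 1) * x := by
  obtain ⟨N, ε, h0, h1, h2, h3⟩ := ub_fin hd
  refine ⟨N, h0, fun j => ?_⟩
  obtain ⟨κ, hκ⟩ := H3.exists_kum (j + 1) h1 h2
  obtain ⟨p, q, o, e, -⟩ := n5_dec j
  refine ⟨fun g => fX j (κ g), fun η F k h => ?_⟩
  obtain ⟨s, x, h4⟩ := h3 _ _ _ hκ (h.comp k p)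
  obtain ⟨s', x', h5⟩ := h3 _ _ _ hκ (h.comp k q)
  refine ⟨fX j s + o * fX j s', fX j x + o * fX j x', fun g hg => ?_⟩
  have h6 := congrArg (fX j) (h4 g hg)
  have h7 := congrArg (fX j) (h5 g hg)
  simp only [map_mul, map_add, map_sub, map_one, map_natCast] at h6 h7
  rw [e (F g), rX, xq_of (mem_HF.1 hg).2, one_mul]
  linear_combination h6 + o * h7

/-- The lower bound. -/
theorem lb_X (hd : Fd d) (hj : hf d ≤ j + 1) (e : Spt d w3 → Eta η) :
    ∃ (A : Type) (F : A → Gam → La ⧸ JX j), 3 ^ (4 * (j + 1) + 2 * hf d) ≤ Nat.card A ∧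
      (∀ a, UcX d η (F a)) ∧ ∀ a a', (∀ g ∈ G, F a g = F a' g) → a = a' := by
  obtain ⟨B, c, h1, h2, h3⟩ := lb_fin hd hj
  obtain ⟨p, q, o, -, k⟩ := n5_dec j
  refine ⟨B × B, fun a g => fX j (c a.1 g) + o * fX j (c a.2 g), ?_,
    fun a => .of (h2 _) (h2 _) e o, fun a a' h => Prod.ext (h3 _ _ fun g hg => ?_)
      (h3 _ _ fun g hg => ?_)⟩
  · rw [Nat.card_prod, show 4 * (j + 1) + 2 * hf d = (2 * (j + 1) + hf d) + (2 * (j + 1) + hf d) by
      ring, pow_add]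
    exact Nat.mul_le_mul h1 h1
  · exact (k _ _).1.symm.trans ((congrArg p (h g hg)).trans (k _ _).1)
  · exact (k _ _).2.symm.trans ((congrArg q (h g hg)).trans (k _ _).2)

theorem n5_int {z : ZMod (3 ^ (j + 1))} {y : Ow} (e : fX j z = cX j y) (h : wO * 3 ^ j ∣ y) :
    z = 0 := by
  rw [hom_val, ← map_natCast (cX j), ← sub_eq_zero, ← map_sub, cX_zero] at e
  obtain ⟨u, hu⟩ := (dvd_sub_left h).1
    ((pow_succ' (3 : Ow) j ▸ mul_dvd_mul_right la_two _).trans e)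
  rw [← map_natCast (algebraMap ℤ_[3] Ow), ← map_ofNat (algebraMap ℤ_[3] Ow) 3, ← map_pow] at hu
  rw [← ZMod.natCast_zmod_val z, ← map_natCast (PadicInt.toZModPow (p := 3) (j + 1)), lb_ker]
  generalize (z.val : ℤ_[3]) = n at hu ⊢
  have h1 := congrArg QuadraticAlgebra.re hu
  have h2 := congrArg QuadraticAlgebra.im hu
  simp [la_re, la_im, -map_pow] at h1 h2
  exact ⟨-u.re, by linear_combination h1 - 2 * h2⟩

/-- The index of the elliptic unit. -/
theorem idx_X (hd : Fd d) (lam α : TP) (hl : kN d lam.π = -1) (hα : kN d α.π = -1)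
    (ne : α.π ≠ lam.π) (hk : hf d ≤ k) (f : ZMod (3 ^ (k + 1)) →+* La ⧸ JX (hf d)) {g0 : Gam}
    (h0 : rX d (hf d) g0 = -1) : ∃ g ∈ G, ∀ y, cX _ y = (rX d _ g0 - 1) *
      FY f (d * lam.π) α.π (fun a => kN d a) g - (rX d _ g - 1) *
        FY f (d * lam.π) α.π (fun a => kN d a) g0 → ¬ wO * 3 ^ hf d ∣ y := by
  by_contra! H
  let f0 := ZMod.castHom (pow_dvd_pow 3 (Nat.succ_le_succ hk)) (ZMod (3 ^ (hf d + 1)))
  have e : ∀ g, FY f (d * lam.π) α.π (fun a => kN d a) g =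
      fX _ (FY f0 (d * lam.π) α.π (fun a => kN d a) g) := fun g => by
    rw [FY, FY, FF_map, RingHom.ext_zmod f ((fX _).comp f0)]
    simp only [map_intCast]
  refine idx_fin hd lam α hl hα ne f0 ⟨-(2⁻¹ * FY f0 (d * lam.π) α.π (fun a => kN d a) g0),
    fun g hg => ?_⟩
  obtain ⟨y, h1, h2⟩ := H g hg.1
  have h3 := n5_int (z := -2 * FY f0 (d * lam.π) α.π (fun a => kN d a) g - (cy _ g - 1) *
    FY f0 (d * lam.π) α.π (fun a => kN d a) g0) (by
      rw [h1, h0, e, e, rX, xq_of (mem_HF.1 hg).2, one_mul]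
      simp only [map_sub, map_mul, map_neg, map_one, map_ofNat]
      ring) h2
  have h4 : (2 : ZMod (3 ^ (hf d + 1))) * 2⁻¹ = 1 := by
    exact_mod_cast ZMod.coe_mul_inv_eq_one 2 ((by norm_num : Nat.Coprime 2 3).pow_right _)
  have h5 : f0 (cy (k + 1) g) = cy _ g := H3.cy_cast (Nat.succ_le_succ hk) g
  rw [h5]
  linear_combination -2⁻¹ * h3 - FY f0 (d * lam.π) α.π (fun a => kN d a) g * h4

variable {c : Cb} (l : Lv c k)

/-- The index character. -/
noncomputable def Lv.eta (j : ℕ) (g : Gam) : ZMod (3 ^ (j + 1)) := (l.x.ig g).val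

theorem Lv.md_X (j : ℕ) : md (JX j) (l.ρ false true) = rX c.d j := funext fun g => by
  rw [md, cX_mk, Lv.ρ, rX, map_mul (fX j), xq_map, cy, ← cX_padic, ← xq_map (cX j), ← map_mul]
  simp [Cb.r0]

theorem Lv.eta_ok (h : j ≤ k) : Eta (l.eta j) := by
  have e : ∀ g, l.eta j g = ZMod.castHom (pow_dvd_pow 3 ((Nat.succ_le_succ h).trans l.le))
      (ZMod (3 ^ (j + 1))) (l.x.ig g) := fun g => (hom_val _ _).symm
  obtain ⟨i, hi⟩ := ig_w l.x l.ow
  refine ⟨(c6_sm l.x w3).comp fun x => (x.val : ZMod (3 ^ (j + 1))), fun g hg k hk => ?_,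
    fun σ hσ => by rw [e, l.x.ig_w3 hσ, map_zero], ew i, ew_mem i, fun n => hi ?_⟩
  · rw [e, e, e, c6_hom l.x w3 g hg k hk, map_add]
  · rwa [Lv.eta, ZMod.val_natCast, Nat.dvd_mod_iff (dvd_pow_self 3 j.succ_ne_zero)] at n

/-- The row at three. -/
theorem Lv.row_w (b : l.Bw) (h : j < k) (s : Spt c.d w3) (hF : Zc Hw (rX c.d j) F) :
    ∑ i, Ideal.Quotient.mk _ (b.ν i) * F (ew i) = 0 ↔ SpX (l.eta j) F := by
  have : Finite (La ⧸ JX j) := (lo2_JX j).fin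
  have : Finite (DualNumber (La ⧸ JX j)) := inferInstanceAs (Finite (_ × _))
  have k1 : IsB (fun g => d1 j (l.ρ false true g)) fun i => d1 j (X * b.ν i) := by
    have := (b.isB s false true).map (Ideal.Quotient.lift _ (d1 j) (d1_aa h))
    simp only [b.nu] at this
    exact this
  have k2 : ∀ g, (d1 j (l.ρ false true g)).fst = rX c.d j g := fun g =>
    (d1_fst _).trans (congrFun (l.md_X j) g)
  have k3 : ∀ g ∈ Hw, rX c.d j g = fX j (cy _ g) := fun g hg => by rw [rX, s.xq hg, one_mul]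
  have k4 : ∀ g ∈ Hw, (d1 j (l.ρ false true g)).snd = fX j (l.eta j g * cy _ g) := fun g hg => by
    rw [d1_snd, map_mul, Lv.eta, map_natCast, cy, ← cX_padic, ← map_natCast (cX j), ← map_mul]
    simp [Lv.ρ, Cb.r0, s.xq hg, coeff_one_pow, Lv.ex, coeff_one, mul_comm]
  have k5 : ∀ x : Fin 4 → DualNumber (La ⧸ JX j), ∑ i, d1 j (X * b.ν i) • x i = 0 ↔
      ∑ i, Ideal.Quotient.mk _ (b.ν i) * (x i).fst = 0 := fun x => by
    simp [TrivSqZeroExt.ext_iff, TrivSqZeroExt.fst_sum, TrivSqZeroExt.snd_sum, d1_snd, d1_fst, cX_mk]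
  constructor
  · intro e
    obtain ⟨C, h1, h2⟩ := (k1 _ _).2 ((k5 fun i => .inl (F (ew i))).2 e)
    have h3 := zero_ee (ch_rX c.d j) (hF.sub (c' := fun g => (C g).fst) ⟨h1.1.comp _,
      fun g hg k hk => by simp [h1.2 g hg k hk, k2]⟩) fun i => by simp [ee_sp s, h2]
    refine ⟨fun g => -(C g).snd, h1.1.comp fun x => -x.snd, fun g hg k hk => ?_⟩
    simp only [sub_eq_zero.1 (h3 k hk), h1.2 g hg k hk, ← k4 g hg, ← k3 g hg, ← k2]
    simp
    ring
  · rintro ⟨B, h1, h2⟩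
    refine (k5 fun i => (F (ew i), -B (ew i))).1 ((k1 _ _).1 ⟨fun g => (F g, -B g),
      ⟨hF.1.comp₂ h1 fun x y => (x, -y), fun g hg k hk => ?_⟩, fun _ => rfl⟩)
    have := h2 g hg k hk
    ext
    · simp [hF.2 g hg k hk, k2]
    · simp [k2, k3 g hg, k4 g hg]
      rw [map_mul] at this
      linear_combination -this

end Pool.Agent.Lib.MP_696deb_nt.EV.D
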