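import Pool.Agent.Lib.MP_696deb_nt.ED.T2
import Pool.Agent.Lib.MP_696deb_nt.ED.T3
import Pool.Agent.Lib.MP_696deb_nt.ED.N5
import Pool.Agent.Lib.MP_696deb_nt.ED.Cnt

/-! The tower: units and class numbers. -/

set_option autoImplicit false

open scoped Classical NNReal
open Finset Matrix PowerSeries

namespace Pool.Agent.Lib.MP_696deb_nt.EV.D

namespace Cx

variable (c : Cx) {j k : ℕ} {F : Gam → La ⧸ JX j}

theorem md_X (j k : ℕ) : md (JX j) (c.ρ false true k) = rX c.d j := (c.lv k).md_X j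

theorem tn_val (h : j ≤ k) (h1 : Zc G (rX c.d j) F) (h2 : Unr (c.t0 k) F) : ∀ g ∈ G,
    F g = ∑ i, Ideal.Quotient.mk _ (c.s0.L false true k g i) * F (c.s0.γ i k) := by
  have := (lo2_JX j).fin
  have h3 := (c.s0.valb false true k).map (Ideal.Quotient.factor (aa_le_sup h (Ideal.span {X})))
  rw [c.s0.t_zero] at h3
  exact h3 _ F (c.md_X j k ▸ h1 :) h2

/-- The primitive rows cut out the classes of units. -/
theorem tn_row (h : j < k) (h1 : Zc G (rX c.d j) F) (h2 : Unr (c.t0 k) F) :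
    (∀ i, ∑ r, Ideal.Quotient.mk _ (c.bf k (c.s0.L false true k) (c.ty i) r) * F (c.s0.γ r k) = 0) ↔
      UcX c.d ((c.lv k).eta j) F := by
  have v := c.tn_val h.le h1 h2
  have e1 : ∀ i, ∑ r, Ideal.Quotient.mk _ (c.bf k (c.s0.L false true k) (some (some i)) r) *
      F (c.s0.γ r k) = F (c.tp i).σ := fun i => (v _ (c.tp i).σ_mem).symm
  have e2 : ∑ r, Ideal.Quotient.mk _ (c.bf k (c.s0.L false true k) (some none) r) *
      F (c.s0.γ r k) = ∑ i, Ideal.Quotient.mk _ ((c.bw k).ν i) * F (ew i) := by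
    simp only [bf, map_sum, map_mul, sum_mul, v _ (ew_mem _).1, mul_sum, mul_assoc]
    exact sum_comm
  have e3 := fun s => (c.lv k).row_w (c.bw k) h s (h1.mono inf_le_left)
  refine ⟨fun H => ⟨h1, unr_X h1 h2 ?_, fun s => (e3 s).1 ?_⟩, fun H i => ?_⟩
  · rintro (_ | i) s
    · exact absurd s (c.lv k).ns
    · obtain ⟨r, e⟩ := c.rows.cp i s
      exact (e1 i).symm.trans (e ▸ H r)
  · obtain ⟨r, e⟩ := c.rows.cw s
    exact e2.symm.trans (e ▸ H r)
  · rcases e : c.ty i with _ | _ | r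
    · simp [bf]
    · exact e2.trans ((e3 (c.rows.sw i e)).2 (H.w (c.rows.sw i e)))
    · exact (e1 r).trans (H.unr _ (c.tp r).odd _
        ⟨(c.rows.sp i r e).le ((c.tp r).tm.ine_le (c.tp r).σ_ine), (c.tp r).σ_ine⟩)

theorem tn_un {f : GG → La} (h : c.dat.Un f) : ∃ p : ℕ → Gam → La, f = lim p ∧
    ∀ j, ∀ᶠ k in UU, j < k ∧ UcX c.d ((c.lv k).eta j) (md (JX j) (p k)) := by
  obtain ⟨⟨p, h1, rfl⟩, h2⟩ := h
  refine ⟨p, rfl, fun j => (((h1 j).and (ev_ge (j + 1))).and (Filter.eventually_all.2 fun i =>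
    lima_to (fun k => ∑ r, c.bf k (c.s0.L false true k) (c.ty i) r * p k (c.s0.γ r k))
      (by simp only [ul_sum, ul_mul]; rfl) (h2 i) j)).mono fun k hk => ⟨hk.1.2, ?_⟩⟩
  refine (c.tn_row hk.1.2 (c.md_X j k ▸ hk.1.1.1) (fun v hv => hk.1.1.2 v
    (off_sb (c.s0.t_zero k ▸ hv)))).1 fun i => ?_
  have := hk.2 i
  simp only [map_sum, map_mul] at this
  exact this

theorem ok_rk2 : ∀ f f', c.dat.Un f → c.dat.Un f' →
    ¬ c.dat.Two false true (Ideal.span {X}) f f' := by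
  intro f f' h h' H
  obtain ⟨p, rfl, h1⟩ := c.tn_un h
  obtain ⟨p', rfl, h2⟩ := c.tn_un h'
  obtain ⟨N, N0, hN⟩ := ub_X c.fd
  obtain ⟨a, ha⟩ := lima_diag (p := fun j k (a : (La × La) × (La × La) × (Gam → La)) =>
    ∀ g ∈ HF c.d, N * p k g - (a.1.1 * a.2.2 g + (c.ρ false true k g - 1) * a.2.1.1) ∈ JX j ∧
      N * p' k g - (a.1.2 * a.2.2 g + (c.ρ false true k g - 1) * a.2.1.2) ∈ JX j)
    (fun j => ((h1 j).and (h2 j)).mono fun k hk => by
      obtain ⟨κ, hκ⟩ := hN j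
      obtain ⟨s, x, e⟩ := hκ _ _ (fun _ => (c.lv k).eta_ok hk.1.1.le) hk.1.2
      obtain ⟨s', x', e'⟩ := hκ _ _ (fun _ => (c.lv k).eta_ok hk.1.1.le) hk.2.2
      refine ⟨((s.out, s'.out), (x.out, x'.out), lft κ), fun g hg =>
        ⟨Ideal.Quotient.eq.1 ?_, Ideal.Quotient.eq.1 ?_⟩⟩ <;>
      simp only [map_mul, map_add, map_sub, map_one, map_natCast, lft, Ideal.Quotient.mk_out]
      · exact (c.md_X j k ▸ e :) g hg
      · exact (c.md_X j k ▸ e' :) g hg)
    fun j j' k a e h g hg => have e' := sup_le_sup_left (aa_anti e) (Ideal.span {(X : La)})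
      ⟨e' (h g hg).1, e' (h g hg).2⟩
  have key : ∀ t t' : La, t * ul (fun k => (a k).1.1) + t' * ul (fun k => (a k).1.2) ∈
      Ideal.span {(X : La)} → t ∈ Ideal.span {(X : La)} ∧ t' ∈ Ideal.span {(X : La)} := by
    refine fun t t' e => H t t' fun g => (pr_X.1.mem_or_mem (x := N) (lima_of (fun k => N *
      (t * ((c.ρ false true k c.g0 - 1) * p k (g k) - (c.ρ false true k (g k) - 1) * p k c.g0) +
        t' * ((c.ρ false true k c.g0 - 1) * p' k (g k) - (c.ρ false true k (g k) - 1) * p' k c.g0)))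
      (by simp only [ul_mul, ul_add, ul_sub, ul_const]; rfl) fun j =>
      ((((h1 j).and (h2 j)).and (ha j)).and (lima_to (fun k => t * (a k).1.1 + t' * (a k).1.2)
        (by simp only [ul_mul, ul_add, ul_const]) e j)).mono fun k hk => ?_)).resolve_left ?_
    · obtain ⟨⟨⟨k1, k2⟩, k3⟩, k4⟩ := hk
      let π := Ideal.Quotient.mk (JX j)
      obtain ⟨y, hy⟩ := res_cob (ch_rX c.d j) le_rfl c.g0_mem c.g0_chi
        (((k1.2.zc.smul (π t)).add (k2.2.zc.smul (π t'))).smul (N : La ⧸ JX j))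
        (x := π t * π (a k).2.1.1 + π t' * π (a k).2.1.2) fun g hg => by
          have e1 := Ideal.Quotient.eq.2 (k3 g hg).1
          have e2 := Ideal.Quotient.eq.2 (k3 g hg).2
          simp only [map_mul, map_add, map_sub, map_one, map_natCast] at e1 e2 k4
          simp only [smul_eq_mul, ← c.md_X j k, md]
          linear_combination π t * e1 + π t' * e2 + π ((a k).2.2 g) * k4
      have e1 := hy _ c.g0_mem
      have e2 := hy _ (g k).2
      simp only [smul_eq_mul, ← c.md_X j k, md] at e1 e2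
      simp only [map_mul, map_add, map_sub, map_one, map_natCast]
      linear_combination (π (c.ρ false true k c.g0) - 1) * e2 - (π (c.ρ false true k (g k)) - 1) * e1
    · rw [← map_natCast (C : Ow →+* La)]
      exact pr_X.C_notMem (Nat.cast_ne_zero.2 N0)
  obtain ⟨k1, -⟩ := key (ul fun k => (a k).1.2) (-ul fun k => (a k).1.1) (by
    rw [neg_mul, mul_comm, add_neg_cancel]
    exact zero_mem _)
  exact pr_X.ne_top ((Ideal.eq_top_iff_one _).2 (key 0 1 (by simpa using k1)).2)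

theorem ok_cnt : ∀ l l', (3 : Ow) ^ c.dat.v ∣ constantCoeff (Dt c.dat.B' l l') := by
  let j := hf c.d
  obtain ⟨k, h1, h2⟩ := ((ev_ge (j + 1)).and (Filter.eventually_all.2 fun i =>
    Filter.eventually_all.2 fun r =>
      ul_spec (fun k => c.bf k (c.s0.L false true k) (c.ty i) r) j)).exists
  obtain ⟨A, F, k1, k2, k3⟩ := lb_X c.fd j.le_succ fun _ => (c.lv k).eta_ok (Nat.le_of_lt h1)
  have u := fun a => (k2 a).unr' c.fd (c.gens0 k).ram
  refine dt_cnt _ (fun a r => lft (F a) (c.s0.γ r k)) (fun a i => mem_X_sup.1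
    (Ideal.Quotient.eq_zero_iff_mem.1 ?_)) (fun a a' e => k3 a a' fun g hg => ?_) k1
  · rw [← (c.tn_row h1 (k2 a).zc (u a)).2 (k2 a) i, mulVec, dotProduct, map_sum]
    exact sum_congr rfl fun r _ => (map_mul _ _ _).trans (congrArg₂ (· * ·)
      (Ideal.Quotient.eq.2 (Ideal.mem_sup_right (h2 i r))).symm
      (congrFun (md_lft _) _))
  · rw [c.tn_val (Nat.le_of_lt h1) (k2 a).zc (u a) g hg,
      c.tn_val (Nat.le_of_lt h1) (k2 a').zc (u a') g hg]
    exact sum_congr rfl fun r _ => congrArg (_ * ·) ((congrFun (md_lft _) _).symm.trans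
      ((Ideal.Quotient.eq.2 (mem_X_sup.2 (e r))).trans (congrFun (md_lft _) _)))

theorem ok_idx : ∃ g, ¬ wO * 3 ^ c.dat.v ∣ constantCoeff (c.dat.hat false true c.dat.F' g) := by
  have h0 : rX c.d (hf c.d) c.g0 = -1 := by
    rw [rX, xq_of' c.g0_chi, H3.cy_ine (c.tp c.i0).odd c.g0_ine, mul_one, map_neg, map_one]
  have h1 : ∀ k, ∃ g : G, hf c.d ≤ k → ¬ wO * 3 ^ hf c.d ∣ constantCoeff
      ((c.ρ false true k c.g0 - 1) * c.F1 k g - (c.ρ false true k g - 1) * c.F1 k c.g0) :=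
    fun k => (em (hf c.d ≤ k)).elim (fun h => by
      have e := aa_le_sup h (Ideal.span {(X : La)})
      obtain ⟨g, hg, H⟩ := idx_X c.fd (c.lv k).lam c.α (c.lv k).chi c.α_chi (c.lv k).ne h
        (fz (two_pow_zero e)) h0
      refine ⟨⟨g, hg⟩, fun _ => H _ ?_⟩
      have e1 := c.md_F1 e (fz (two_pow_zero e))
      rw [show c.Wq false (JX (hf c.d)) k = fun a => (kN c.d a : La ⧸ JX _) from funext fun a =>
        (c.Wq_JX _ _ _ _).trans (map_intCast _ _), m1] at e1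
      rw [← cX_mk, ← e1, ← c.md_X _ k]
      simp only [md, map_mul, map_sub, map_one]) fun h => ⟨1, fun n => absurd n h⟩
  choose g hg using h1
  refine ⟨g, fun H => ?_⟩
  obtain ⟨k, k1, k2⟩ := ((ev_ge (hf c.d)).and (ul_spec (fun k => (c.ρ false true k c.g0 - 1) *
    c.F1 k (g k) - (c.ρ false true k (g k) - 1) * c.F1 k c.g0) (hf c.d))).exists
  have e := mem_X_sup.1 (Ideal.mem_sup_right k2)
  simp only [ul_mul, ul_sub, ul_const] at e
  rw [map_sub] at e
  exact hg k k1 ((dvd_sub_left H).1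
    ((pow_succ' (3 : Ow) _ ▸ mul_dvd_mul_right la_two _).trans e))

end Cx

end Pool.Agent.Lib.MP_696deb_nt.EV.D
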