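import Pool.Agent.Lib.MP_696deb_nt.ED.TopC

/-! The end of the limit argument. -/

set_option autoImplicit false

open scoped Classical NNReal
open Finset Matrix PowerSeries

namespace Pool.Agent.Lib.MP_696deb_nt.EV.D

section

variable {S : Type} [CommRing S] {ι : Type} [Fintype ι] {w : S}

theorem dt_cg {B B' : Matrix ι (ι ⊕ Fin 2) S} (h : ∀ i j, w ∣ B i j - B' i j)
    (l l' : ι ⊕ Fin 2 → S) : w ∣ Dt B l l' - Dt B' l l' := by
  rw [← Ideal.mem_span_singleton, ← Ideal.Quotient.eq, dt_map, dt_map]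
  congr 1
  ext i j
  exact Ideal.Quotient.eq.2 (Ideal.mem_span_singleton.2 (h i j))

theorem wd_cg {a a' c c' : ι → S} (h : ∀ j, w ∣ a j - a' j) (k : ∀ j, w ∣ c j - c' j)
    (l l' : ι → S) : w ∣ wd a c l l' - wd a' c' l l' := by
  rw [← Ideal.mem_span_singleton, ← Ideal.Quotient.eq, wd_map, wd_map]
  congr 1
  · exact funext fun j => Ideal.Quotient.eq.2 (Ideal.mem_span_singleton.2 (h j))
  · exact funext fun j => Ideal.Quotient.eq.2 (Ideal.mem_span_singleton.2 (k j))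

theorem wd_lin (a c l l' : ι → S) (x y z : S) :
    wd a (fun j => z * (x * c j - a j * y)) l l' = z * x * wd a c l l' := by
  have e : (fun j => z * (x * c j - a j * y)) = z • (x • c - y • a) := funext fun j => by
    rw [mul_comm (a j)]
    rfl
  rw [e]
  simp only [wd, dotProduct_sub, dotProduct_smul, smul_eq_mul]
  ring

end

namespace Dat

open EV.Dat (topb_indep)

variable {Γ κ : Type} [Group Γ] [Fintype κ] {D : Dat Γ κ} {n : ℕ} {s : D.St n} {y b : Bool}
  {I : Ideal La} {c c' : Γ → La} {p q : La}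

theorem Ok1.dt0 (h : D.Ok1) : ∃ l l', Dt (D.B D.s0 true) l l' ∉ Ideal.span {(X : La)} := by
  by_contra! k
  obtain ⟨-, c, c1, -, c2, g, c3⟩ := h.toOk.dual gd_X (three_of_dt pr_X.1 k)
  exact c3 (h.sel c c1 ⟨1, 0, 0, (Ideal.ne_top_iff_one _).1 pr_X.ne_top, fun i => by
    simpa using c2 i⟩ g)

theorem Ok.dt2 (h : D.Ok) : ∃ l l', Dt D.B' l l' ∉ Ideal.span {(X : La)} := by
  by_contra! k
  obtain ⟨x, x1, x2⟩ := three_of_dt pr_X.1 k
  choose z z1 z2 using fun a => (h.pres D.s0 false true).ex _ pr_X.ne_top (x a) fun i => by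
    have e := smul_dotProduct (D.t i) (D.B' i) (x a)
    rw [show D.R D.s0 false true i = D.t i • D.B' i from funext (h.row i)]
    exact (congrArg (· ∈ Ideal.span {(X : La)}) e).mpr (Ideal.mul_mem_left _ _ (x2 a i))
  have u : ∀ a, D.Un (z a) := fun a => ⟨z1 a, fun i => by
    convert Ideal.add_mem _ (x2 a i) (topA_dot (D.B' i) (z2 a)) using 1
    simp only [mulVec, dotProduct, mul_sub, sum_sub_distrib]
    exact (add_sub_cancel _ _).symm⟩
  obtain ⟨a, a', T⟩ := h.two pr_X.1 false true z (topb_indep x1 z2)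
  exact h.rk2 _ _ (u a) (u a') T

theorem Ok.dt_t (h : D.Ok) (l l' : κ ⊕ Fin 2 → La) :
    Dt (D.B D.s0 false) l l' = (∏ i, D.t i) * Dt D.B' l l' := by
  rw [← dt_row]
  exact congrArg (Dt (ι := κ) · l l')
    (funext fun i => (if_neg id).trans (funext fun j => h.row i j))

theorem Ok.unit_q (h : D.Ok) (h0 : ∃ l l', Dt (D.B s y) l l' ∉ (⊥ : Ideal La))
    (hr : Rt s y p q) (hq : q ≠ 0) (hc : IsRelPrime q p) (hw : ¬ ww ∣ q)
    (hx : y = false → ¬ X ∣ q) : IsUnit q := by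
  by_contra u
  obtain ⟨P, hP, k⟩ := WfDvdMonoid.exists_irreducible_factor u hq
  exact h.nopole hP.prime (.inl ⟨pr_span hP.prime fun e =>
    hw ((hP.associated_of_dvd prime_ww.irreducible e).symm.dvd.trans k), fun e e' =>
      hx e ((hP.associated_of_dvd X_prime.irreducible
        (Ideal.mem_span_singleton.1 e')).symm.dvd.trans k)⟩) k
    (fun e => hP.not_isUnit (hc k e)) h0 hr

/-- The ratio for the system of units, after the division by the factors of the rows. -/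
theorem Ok.rt2 (h : D.Ok) (hr : Rt D.s0 false p q) : ∃ u, IsUnit u ∧ (∀ l l' : κ ⊕ Fin 2 → La,
    X ∣ q → X ∣ p * Dt D.B' l l') ∧ ∀ g, ∃ l l',
      q * (u * D.hat false true D.F' g) = p * Dt D.B' l l' := by
  obtain ⟨u, u1, u2⟩ := h.nr
  have k : ∀ l l' : Jx κ 0 ⊕ Fin 2 → La, q * (u * (D.ρ false true D.g0 - 1) *
      wd (fun j => D.ρ false true (D.gen D.s0 j) - 1) (fun j => D.F' (D.gen D.s0 j)) l l') =
        p * Dt D.B' l l' := fun l l' => by
    have r := hr l l'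
    simp only [h.kap0, u2] at r
    simp only [hat] at r
    rw [wd_lin] at r
    refine mul_left_cancel₀ (prod_ne_zero_iff.2 fun i (_ : i ∈ univ) => h.t_ne i) ?_
    linear_combination r + p * h.dt_t l l'
  refine ⟨_, u1.mul (h.vp false true), fun l l' e => (k l l').subst (e.mul_right _),
    fun g => ⟨D.L D.s0 false true D.g0, D.L D.s0 false true g, ?_⟩⟩
  rw [← sub_eq_zero.1 (h.wd_hat bot_ne_top h.F'_mem g)]
  exact k _ _

/-- The ratio for the system of units at the lowest stage. -/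
theorem Ok.base2 (h : D.Ok) : (∃ l l', Dt (D.B D.s0 false) l l' ∉ (⊥ : Ideal La)) ∧ ∃ p' q' : La,
    p' ≠ 0 ∧ IsRelPrime q' p' ∧ Rt D.s0 false p' q' ∧ (¬ ww ∣ q' → IsUnit q' ∧ IsUnit p') := by
  obtain ⟨m, m', d2⟩ := h.dt2
  have d2' : ∃ l l', Dt (D.B D.s0 false) l l' ∉ (⊥ : Ideal La) := ⟨m, m', fun e =>
    mul_ne_zero (prod_ne_zero_iff.2 fun i _ => h.t_ne i)
      (fun e' => d2 (bot_le (a := Ideal.span {(X : La)}) e')) ((h.dt_t m m').symm.trans e)⟩
  obtain ⟨p', q', q0', c2, r2⟩ := h.exists_rt d2'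
  obtain ⟨u, u1, u2, u3⟩ := h.rt2 r2
  obtain ⟨g, hg⟩ := h.idx
  obtain ⟨l, l', e1⟩ := u3 g
  refine ⟨d2', p', q', fun e => hg (by
    rw [e, zero_mul, mul_eq_zero, or_iff_right q0', mul_eq_zero, or_iff_right u1.ne_zero] at e1
    rw [e1, map_zero]
    exact dvd_zero _), c2, r2, fun hw => ?_⟩
  have uq' := h.unit_q d2' r2 q0' c2 hw
    fun _ e => d2 (Ideal.mem_span_singleton.2 ((X_prime.dvd_or_dvd (u2 m m' e)).resolve_left
      fun e' => X_prime.not_isUnit (c2 e e')))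
  refine ⟨uq', unit_La.2 fun e => hg ?_⟩
  have e4 := congrArg constantCoeff e1
  rw [← mul_assoc, map_mul, map_mul _ p'] at e4
  refine ((uq'.mul u1).map constantCoeff).dvd_mul_left.1 ?_
  rw [e4]
  exact mul_dvd_mul e (h.cnt l l')

/-- The ratio for the system of the curve is a unit. -/
theorem Ok.unit_rt (h : D.Ok) (d1 : ∃ l l', Dt (D.B s true) l l' ∉ Ideal.span {(X : La)})
    (d2 : ∃ l l', Dt (D.B s false) l l' ∉ (⊥ : Ideal La)) {p' q' δ : La} (p0 : p' ≠ 0)
    (c2 : IsRelPrime q' p') (hu : ¬ ww ∣ q' → IsUnit q' ∧ IsUnit p') (hδ : IsUnit δ)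
    (r2 : Rt s false (δ * p') q') : ∃ p q, IsUnit p ∧ Rt s true p q := by
  have d1' : ∃ l l', Dt (D.B s true) l l' ∉ (⊥ : Ideal La) :=
    d1.imp fun l k => k.imp fun l' k e => k (bot_le (a := Ideal.span {(X : La)}) e)
  obtain ⟨p, q, q0, c1, r1⟩ := h.exists_rt d1'
  obtain ⟨n, s', ε, ε', v, v', k1, k2, a, a', k3⟩ :=
    h.chain (mul_ne_zero hδ.ne_zero p0) d1 d2 r1 r2
  rw [← mul_assoc] at k2
  replace v' := v'.mul hδ
  generalize ε' * δ = ε' at k2 v'
  have e2 := dt_cg (h.cg_B s') a a'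
  have e3 := wd_cg (a := fun j => D.ρ true true (D.gen s' j) - 1)
    (a' := fun j => D.ρ false true (D.gen s' j) - 1)
    (fun j => by rw [sub_sub_sub_cancel_right]; exact h.cg_ρ _)
    (fun j => h.cg_kap s' (D.gen s' j)) a a'
  have k1 := k1 a a'
  have k2 := k2 a a'
  have nw : ∀ {p q ε x d : La}, IsRelPrime q p → IsUnit ε → q * x = ε * p * d → ¬ ww ∣ d →
      ¬ ww ∣ q := fun {p q ε x d} c v e k e' => prime_ww.not_isUnit (c e' (v.dvd_mul_left.1
        ((prime_ww.dvd_or_dvd (by rw [← e]; exact e'.mul_right _)).resolve_right k)))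
  have uq := h.unit_q d1' r1 q0 c1 (nw c1 v k1 k3) fun e => nomatch e
  obtain ⟨uq', up'⟩ := hu (nw c2 v' k2 fun e => k3 ((dvd_sub_left e).1 e2))
  have e5 : ww ∣ q' * (ε * p) - q * (ε' * p') := (prime_ww.dvd_or_dvd (by
    convert dvd_sub (e3.mul_left (q * q')) (e2.mul_left (q * (ε' * p'))) using 1
    linear_combination -q' * k1 + q * k2)).resolve_right k3
  obtain ⟨z, hz⟩ := e5
  refine ⟨p, q, unit_La.2 fun e => unit_La.1 (uq.mul (v'.mul up')) ?_, r1⟩
  rw [show q * (ε' * p') = q' * ε * p - ww * z by linear_combination -hz, map_sub, map_mul,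
    map_mul _ ww, ww, constantCoeff_C]
  exact dvd_sub (e.mul_left _) (dvd_mul_right _ _)

theorem Ok.F_ne (h : D.Ok) (d1 : ∃ l l', Dt (D.B D.s0 true) l l' ∉ Ideal.span {(X : La)}) :
    ∃ g, D.hat true true (D.F true) g ∉ Ideal.span {(X : La)} := by
  obtain ⟨d2, p', q', p0, c2, r2, hu⟩ := h.base2
  obtain ⟨p, q, up, r1⟩ := h.unit_rt d1 d2 p0 c2 hu isUnit_one (by rwa [one_mul])
  by_contra! k
  obtain ⟨l, l', d1⟩ := d1
  refine d1 ((Ideal.unit_mul_mem_iff_mem _ up).1 ?_)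
  have r := r1 l l'
  have e := wd_lin (fun j => D.ρ true true (D.gen D.s0 j) - 1) (fun j => D.F true (D.gen D.s0 j))
    l l' (D.ρ true true D.g0 - 1) (D.F true D.g0) 1
  simp only [h.kap0, hat] at r
  simp only [one_mul] at e
  rw [← r, e]
  exact Ideal.mul_mem_left _ _ (Ideal.mul_mem_left _ _ (h.hat_wd k l l'))

theorem Ok.topd_two (h : D.Ok) (hI : I.IsPrime) (s : D.St 1) :
    ∃ c ∈ D.Z s y false I, ∃ c' ∈ D.Z s y false I, D.Two y false I c c' := by
  obtain ⟨x, x1, x2⟩ := exists_indep hI (m := 3) (Matrix.of fun i : Jx κ 0 =>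
    D.R s y false (some i)) (by
      rw [Fintype.card_sum, Jx.card, Jx.card, Fintype.card_fin])
  choose c c1 c2 using fun i => (h.pres s y false).ex I hI.ne_top (x i) fun j => by
    rcases j with _ | j
    · rw [(h.deep s y false none trivial).2.2, zero_dotProduct]
      exact I.zero_mem
    · exact x2 i j
  obtain ⟨i, j, k⟩ := h.two hI y false c (topb_indep x1 c2)
  exact ⟨_, c1 i, _, c1 j, k⟩

theorem Ok.exists_km (h : D.Ok) (s : D.St 1) : ∃ c ∈ D.Z s true false (Ideal.span {X}), D.Km c ∧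
    ∃ g, D.hat true false c g ∉ Ideal.span {(X : La)} := by
  obtain ⟨c, c1, c', c2, k⟩ := h.topd_two (y := true) pr_X.1 s
  by_cases hc : D.Km c
  · exact ⟨c, c1, hc, k.ne pr_X.ne_top⟩
  have i2 : Indep (Ideal.span {(X : La)}) ![fun i => D.ρ true false (D.e i) - 1, D.k] :=
    fun t ht => by
    simp only [Fin.sum_univ_two, cons_val_zero, cons_val_one] at ht
    have h1 := h.ind _ _ ht
    obtain ⟨i, hi⟩ := h.ne _ _ gd_X
    refine Fin.forall_fin_two.2 ⟨(pr_X.1.mem_or_mem ?_).resolve_right hi, h1⟩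
    exact (Ideal.add_mem_iff_left _ (Ideal.mul_mem_right _ _ h1)).1 (ht i)
  have i3 := i2.cons pr_X.1 (y := fun i => c (D.e i)) fun d t ht => by
    by_contra e
    exact hc ⟨d, t 0, t 1, e, fun i => by
      simpa only [Fin.sum_univ_two, cons_val_zero, cons_val_one] using ht i⟩
  have i4 := mt (i3.cons pr_X.1 (y := fun i => c' (D.e i))) (h.four gd_X fun i => by
    refine Fin.cases (h.W_mem s _ _ _ c2)
      (fun i => Fin.cases (h.W_mem s _ _ _ c1) (fun i => ?_) i) i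
    revert i
    exact Fin.forall_fin_two.2 ⟨h.W_mem s _ _ _ ((h.pres s true false).cob _), h.k_mem⟩)
  push Not at i4
  obtain ⟨d, t, h1, h2⟩ := i4
  refine ⟨d • c' - t 0 • c, sub_mem (Submodule.smul_mem _ _ c2) (Submodule.smul_mem _ _ c1),
    ⟨1, t 1, t 2, (Ideal.ne_top_iff_one _).1 pr_X.ne_top, fun i => ?_⟩, ?_⟩
  · convert h1 i using 1
    rw [Fin.sum_univ_three]
    change 1 * (d * c' (D.e i) - t 0 * c (D.e i)) - _ = d * c' (D.e i) -
      (t 0 * c (D.e i) + t 1 * (D.ρ true false (D.e i) - 1) + t 2 * D.k i)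
    ring
  · by_contra! e
    refine h2 (k (-t 0) d fun g => ?_).2
    convert e g using 1
    simp only [hat, Pi.sub_apply, Pi.smul_apply, smul_eq_mul]
    ring

theorem Ok1.false_of (h : D.Ok1)
    (hF : ∃ g, D.hat true true (D.F true) g ∉ Ideal.span {(X : La)}) : False := by
  obtain ⟨s, e, k⟩ := h.toOk.new1 pr_X.1 ((h.pres _ _ _).mono _ (h.F_mem true)) hF
  obtain ⟨c, c1, c2, g, c3⟩ := h.toOk.exists_km s
  exact c3 (h.sel c (e.unr _ _ _ pr_X.ne_top c c1
    ((pr_X.1.mem_or_mem (h.erl s e c c1 c2)).resolve_right k)) c2 g)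

theorem Ok1.false (h : D.Ok1) : False := h.false_of (h.toOk.F_ne h.dt0)

end Dat

end Pool.Agent.Lib.MP_696deb_nt.EV.D
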