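import Pool.Agent.Lib.MP_696deb_nt.ED.T4
import Pool.Agent.Lib.MP_696deb_nt.ED.T5
import Pool.Agent.Lib.MP_696deb_nt.ED.T6
import Pool.Agent.Lib.MP_696deb_nt.ED.TN
import Pool.Agent.Lib.MP_696deb_nt.ED.T8
import Pool.Agent.Lib.MP_696deb_nt.ED.T9
import Pool.Agent.Lib.MP_696deb_nt.ED.K9
import Pool.Agent.Lib.MP_696deb_nt.ED.TopD

/-! The end of the argument. -/

set_option autoImplicit false

open scoped Classical NNReal
open Finset PowerSeries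

namespace Pool.Agent.Lib.MP_696deb_nt.EV.D

theorem Cx.ok (c : Cx) : c.dat.Ok :=
  ⟨c.ok_vp, c.ok_ne, c.ok_pres, c.ok_deep, c.ok_W_mem, c.ok_lw, c.ok_unit, c.ok_recip, c.ok_N_ρ,
    c.ok_comm, c.ok_step, c.ok_kap_mem, c.ok_kap_φ, c.ok_F_mem, c.ok_kap0, c.ok_cg_ρ, c.ok_cg_B,
    c.ok_cg_kap, c.ok_row, c.ok_t_ne, c.ok_F'_mem, c.ok_nr, c.ok_rk2, c.ok_cnt, c.ok_idx,
    c.ok_k_mem, c.ok_ind⟩

/-- If the three-primary Selmer group of a sextic twist is finite, the central value of its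
`L`-function does not vanish. -/
theorem conv (t : Tw) (hN : ∀ q : ℕ, t.N.factorization q < 3) (h : CX.GroA t.tw 2) {b : ℤ} {s : ℕ}
    (hb : CX.Tw b t.D (t.N * s ^ 3)) {F : ℂ → ℂ} (hF : Differentiable ℂ F) (hp : CX.Eul 0 b F) :
    F 1 ≠ 0 := fun hz => by
  obtain ⟨φ, h1, h2⟩ := final t hN
  obtain ⟨c, rfl, rfl⟩ := exists_cb t hN h1
  let x : Cx := ⟨c, fun k => (c.exists_lv k).some, fun k => (c.exists_lv k).some.exists_bw.some⟩
  exact Dat.Ok1.false ⟨x.ok, x.ok_sel h, x.ok_erl (c.van (h2 b s hb F hF hp hz))⟩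

end Pool.Agent.Lib.MP_696deb_nt.EV.D
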