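import Pool.Agent.Lib.MP_696deb_nt.EV.C4

/-! The elliptic units at the places above three. -/

set_option autoImplicit false

open scoped Classical NNReal
open Finset

namespace Pool.Agent.Lib.MP_696deb_nt.EV.D

variable {v : Plc} {b m : O} {P R : A}

theorem n1_max {α β : Type} [LinearOrder β] (s : Finset α) {φ : α → α} {f : α → β} {c : β}
    (h1 : ∀ p ∈ s, φ p ∈ s) (h2 : ∀ p ∈ s, c < f p → f p < f (φ p)) : ∀ p ∈ s, f p ≤ c :=
  fun p hp => by
    obtain ⟨q, hq, k⟩ := s.exists_max_image f ⟨p, hp⟩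
    exact (k p hp).trans (not_lt.1 fun e => (h2 q hq e).not_ge (k _ (h1 q hq)))

/-- The isogeny of degree three. -/
theorem x_th (h : w • P ≠ 0) : 3 * xco P ^ 2 * xco (w • P) = 27 - xco P ^ 3 := by
  have k := EW.x_dist (n := w) (P := H3.T3) g1_w.ne_zero (by rw [EW.th_T3]; exact CU.T_ne) h
  have e1 : H3.T3 + -CU.T = om • H3.T3 := by rw [EW.om_T3, sub_eq_add_neg]
  have e2 : H3.T3 + CU.T = om • om • H3.T3 := by
    have : CU.T + CU.T + CU.T = 0 := by rw [← CU.three_T]; abel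
    simp only [smul_sub, EW.om_T3, EW.om_T]
    rw [← sub_eq_zero, ← this]
    abel
  have e3 := mul_prod_erase _ (fun T => xco T - xco P) (EW.zero_mem_En g1_w.ne_zero)
  rw [EW.prod_En_w, xco_neg, EW.x_T, EW.x_zero (smul_zero _)] at e3
  rw [EW.prod_En_w, add_zero, e1, e2, EW.x_om, EW.x_om, EW.x_T3, EW.th_T3, EW.x_T,
    mul_left_cancel₀ (by simpa using EW.x_ne h) (e3.trans (mul_assoc _ _ _)), ← map_pow,
    CU.th_sq, map_neg, map_ofNat] at k
  have z := EW.zeta_sq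
  generalize zeta 1 ^ 2 = u at z k
  linear_combination -k + (27 * (u - 1) - 9 * u * xco P + 3 * xco P ^ 2) * z

theorem n1_b (hv : v.p = 3) : v.V (io w) ^ 2 = v.V 3 ∧ 0 < v.V (io w) ∧ v.V (io w) < 1 := by
  have h1 : v.V (io w) ^ 2 = v.V 3 := by
    rw [← map_pow, ← map_pow, CU.th_sq, map_neg, map_ofNat, v.V.map_neg]
  have h2 : v.V 3 < 1 := by simpa [hv] using (B2.b4a_V_p v).2
  exact ⟨h1, pos_iff_ne_zero.2 (v.V.ne_zero_iff.2 (EW.io_ne g1_w.ne_zero)),
    lt_of_pow_lt_pow_left₀ 2 zero_le (by rwa [h1, one_pow])⟩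

theorem n1_w (hm : red m ≠ 0) (h : P ∈ (En m).erase 0) : w • P ∈ (En m).erase 0 := by
  rw [EW.mem_En0 (EW.ne_of_red hm)] at h ⊢
  exact ⟨fun e => h.1 (EW.cop_smul (EW.cop_w hm) h.2 e), by rw [smul_comm, h.2, smul_zero]⟩

theorem n1_x (hv : v.p = 3) (hm : red m ≠ 0) (h : P ∈ (En m).erase 0) :
    v.V (xco P) = v.V (io w) ^ 2 := by
  obtain ⟨e, b0, b1⟩ := n1_b hv
  have e3 : v.V 27 = v.V (io w) ^ 6 := by
    rw [show (27 : Qbar) = 3 ^ 3 by norm_num, map_pow, ← e, ← pow_mul]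
  have k : ∀ P ∈ (En m).erase 0, v.V (io w) ^ 2 * v.V (xco P) ^ 2 * v.V (xco (w • P)) =
      v.V (27 - xco P ^ 3) := fun P h => by
    rw [← x_th (ne_of_mem_erase (n1_w hm h)), map_mul, map_mul, map_pow, e]
  have h1 := n1_max ((En m).erase 0) (f := fun P => v.V (xco P)) (c := v.V (io w) ^ 2)
    (fun P => n1_w hm) fun P h hP => by
      have := k P h
      rw [v.V.map_sub_eq_of_lt_right (by
        rw [e3, map_pow, show 6 = 2 * 3 from rfl, pow_mul]
        exact pow_lt_pow_left₀ hP zero_le three_ne_zero), map_pow, pow_succ _ 2, mul_assoc,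
        mul_left_comm] at this
      have h2 := mul_left_cancel₀ (pow_ne_zero 2 (zero_le.trans_lt hP).ne') this
      rw [← h2] at hP ⊢
      exact mul_lt_of_lt_one_left (pos_of_mul_pos_right (zero_le.trans_lt hP) zero_le)
        (pow_lt_one₀ zero_le b1 two_ne_zero)
  refine (h1 P h).eq_of_not_lt fun h2 => ?_
  have := k P h
  rw [v.V.map_sub_eq_of_lt_left (by
    rw [e3, map_pow, show 6 = 2 * 3 from rfl, pow_mul]
    exact pow_lt_pow_left₀ h2 zero_le three_ne_zero), e3] at this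
  have h3 := h1 _ (n1_w hm h)
  have h4 := pow_lt_pow_left₀ h2 zero_le two_ne_zero
  have h5 := pow_pos b0 2
  generalize v.V (io w) = β at *
  refine absurd this (ne_of_lt ?_)
  calc _ ≤ β ^ 2 * v.V (xco P) ^ 2 * β ^ 2 := by gcongr
    _ < β ^ 2 * (β ^ 2) ^ 2 * β ^ 2 := by gcongr
    _ = β ^ 6 * β ^ 2 := by ring
    _ ≤ β ^ 6 := mul_le_of_le_one_right' (pow_le_one₀ zero_le b1.le)

theorem n1_y (hv : v.p = 3) (hm : red m ≠ 0) (h : P ∈ (En m).erase 0) :
    v.V (27 - xco P ^ 3) = v.V (io w) ^ 8 := by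
  rw [← x_th (ne_of_mem_erase (n1_w hm h)), map_mul, map_mul, map_pow, ← (n1_b hv).1,
    n1_x hv hm h, n1_x hv hm (n1_w hm h)]
  ring

theorem n1_t (hv : v.p = 3) (hm : red m ≠ 0) (h : P ∈ (En m).erase 0) :
    v.V (xco P - 3) ^ 3 = v.V (io w) ^ 8 := by
  obtain ⟨e, b0, b1⟩ := n1_b hv
  have k := n1_y hv hm h
  rw [show 27 - xco P ^ 3 = -((xco P - 3) ^ 3 + (3 ^ 2 * (xco P - 3) ^ 2 + 3 ^ 3 * (xco P - 3))) by
    ring, v.V.map_neg] at k
  have h1 : v.V (3 ^ 2 * (xco P - 3) ^ 2) = v.V (io w) ^ 4 * v.V (xco P - 3) ^ 2 := by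
    rw [map_mul, map_pow, map_pow, ← e, ← pow_mul]
  have h2 : v.V (3 ^ 3 * (xco P - 3)) = v.V (io w) ^ 6 * v.V (xco P - 3) := by
    rw [map_mul, map_pow, ← e, ← pow_mul]
  have h3 := map_pow v.V (xco P - 3) 3
  have p : ∀ {i j : ℕ}, i < j → v.V (io w) ^ j < v.V (io w) ^ i := pow_lt_pow_right_of_lt_one₀ b0 b1
  generalize v.V (io w) = β, v.V (xco P - 3) = s at *
  rcases le_or_gt s (β ^ 3) with l | l
  · refine absurd k (v.V.map_add_lt ?_ (v.V.map_add_lt ?_ ?_)).ne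
    · rw [h3]
      exact (pow_le_pow_left₀ zero_le l 3).trans_lt (by rw [← pow_mul]; exact p (by omega))
    · rw [h1]
      exact (mul_le_mul_right (pow_le_pow_left₀ zero_le l 2) _).trans_lt
        (by rw [← pow_mul, ← pow_add]; exact p (by omega))
    · rw [h2]
      exact (mul_le_mul_right l _).trans_lt (by rw [← pow_add]; exact p (by omega))
  · have s0 := zero_le.trans_lt l
    rw [← h3, ← k, v.V.map_add_eq_of_lt_left (v.V.map_add_lt ?_ ?_)]
    · rw [h1, h3, pow_succ' s 2]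
      exact mul_lt_mul_of_pos_right ((p (by omega)).trans l) (pow_pos s0 2)
    · rw [h2, h3, pow_succ s 2, show 6 = 3 * 2 from rfl, pow_mul]
      exact mul_lt_mul_of_pos_right (pow_lt_pow_left₀ l zero_le two_ne_zero) s0

theorem n1_d (hv : v.p = 3) (hm : red m ≠ 0) (h : P ∈ (En m).erase 0) (h' : R ∈ (En m).erase 0)
    (k : xco P ≠ xco R) : v.V (xco P - xco R) = v.V (io w) ^ 3 := by
  obtain ⟨e, b0, b1⟩ := n1_b hv
  have p : ∀ {i j : ℕ}, i < j → v.V (io w) ^ j < v.V (io w) ^ i := pow_lt_pow_right_of_lt_one₀ b0 b1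
  have e3 : ∀ n, v.V (3 ^ n) = v.V (io w) ^ (2 * n) := fun n => by rw [map_pow, ← e, ← pow_mul]
  let s := (((En m).erase 0) ×ˢ ((En m).erase 0)).filter fun q : A × A => xco q.1 ≠ xco q.2
  have h1 : ∀ q ∈ s, (w • q.1, w • q.2) ∈ s := fun q hq => by
    simp only [s, mem_filter, mem_product] at hq ⊢
    obtain ⟨⟨a1, a2⟩, a3⟩ := hq
    refine ⟨⟨n1_w hm a1, n1_w hm a2⟩, fun a => a3 ?_⟩
    have c := fun {S : A} (k : S ∈ (En m).erase 0) => ((EW.mem_En0 (EW.ne_of_red hm)).1 k).2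
    rcases EW.x_eq (ne_of_mem_erase (n1_w hm a1)) (ne_of_mem_erase (n1_w hm a2)) a with a | a
    · rw [sub_eq_zero.1 (EW.cop_smul (S := q.1 - q.2) (EW.cop_w hm)
        (by rw [smul_sub, c a1, c a2, sub_zero]) (by rw [smul_sub, a, sub_self]))]
    · rw [eq_neg_of_add_eq_zero_left (EW.cop_smul (S := q.1 + q.2) (EW.cop_w hm)
        (by rw [smul_add, c a1, c a2, add_zero]) (by rw [smul_add, a, neg_add_cancel])), xco_neg]
  have h2 : ∀ q ∈ s, ∃ a b : Qbar, v.V a < v.V (io w) ^ 10 ∧ v.V b ≤ v.V (io w) ^ 8 ∧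
      v.V (io w) ^ 10 * v.V (xco (w • q.1) - xco (w • q.2)) = v.V (xco q.1 - xco q.2) *
        v.V (xco q.2 ^ 2 * (xco q.1 - xco q.2) ^ 2 + (a + b * (xco q.1 - xco q.2))) ∧
      v.V (xco q.2 ^ 2 * (xco q.1 - xco q.2) ^ 2) =
        v.V (io w) ^ 4 * v.V (xco q.1 - xco q.2) ^ 2 := fun q hq => by
    simp only [s, mem_filter, mem_product] at hq
    obtain ⟨⟨a1, a2⟩, -⟩ := hq
    have t : ∀ S ∈ (En m).erase 0, v.V (xco S - 3) < v.V (io w) ^ 2 := fun S hS =>
      lt_of_pow_lt_pow_left₀ 3 zero_le (by rw [n1_t hv hm hS, ← pow_mul]; exact p (by omega))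
    have x1 := x_th (ne_of_mem_erase (n1_w hm a1))
    have x2 := x_th (ne_of_mem_erase (n1_w hm a2))
    have y1 := n1_x hv hm a1
    have y2 := n1_x hv hm a2
    have t1 := t _ a2
    have t2 := t _ (n1_w hm a2)
    have y3 := n1_y hv hm a2
    generalize xco q.1 = x, xco q.2 = y, xco (w • q.1) = x', xco (w • q.2) = y' at *
    refine ⟨-(3 * y * (y ^ 2 * (y' - 3) + (y + 3) * 3 * (y - 3))), 3 ^ 4 - 2 * (27 - y ^ 3), ?_,
      v.V.map_sub_le (e3 4).le ?_, ?_, by rw [map_mul, map_pow, map_pow, y2, ← pow_mul]⟩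
    · rw [v.V.map_neg, map_mul, map_mul, ← e, y2, ← pow_add, show 10 = 2 + 2 + (4 + 2) from rfl,
        pow_add _ (2 + 2), pow_add _ 4]
      refine mul_lt_mul_of_pos_left (v.V.map_add_lt ?_ ?_) (pow_pos b0 _)
      · rw [map_mul, map_pow, y2, ← pow_mul]
        exact mul_lt_mul_of_pos_left t2 (pow_pos b0 _)
      · rw [map_mul, map_mul, ← e, show 4 = 2 + 2 from rfl, pow_add]
        exact mul_lt_mul_of_le_of_lt_of_nonneg_of_pos
          (mul_le_mul_left (v.V.map_add_le y2.le e.ge) _) t1 zero_le (by positivity)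
    · rw [map_mul, y3]
      exact mul_le_of_le_one_left' (EW.V_two_le v)
    · rw [← map_mul _ (x - y), ← v.V.map_neg ((x - y) * _)]
      refine Eq.trans ?_ (congrArg v.V (?_ : 3 * x ^ 2 * y ^ 2 * (x' - y') = _))
      · rw [map_mul, map_mul, map_mul, map_pow, map_pow, y1, y2, ← e]
        ring
      · linear_combination y ^ 2 * x1 - (x ^ 2 + (x - y) * y) * x2
  have hq : (P, R) ∈ s := mem_filter.2 ⟨mem_product.2 ⟨h, h'⟩, k⟩
  refine le_antisymm (n1_max s (f := fun q => v.V (xco q.1 - xco q.2)) h1 (fun q hq l => ?_) _ hq)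
    (n1_max (β := ℝ≥0ᵒᵈ) s (f := fun q => v.V (xco q.1 - xco q.2)) h1 (fun q hq l => ?_) _ hq)
  · obtain ⟨a, b, a1, a2, a3, a4⟩ := h2 q hq
    have d0 := zero_le.trans_lt l
    have a5 : v.V (io w) ^ 10 < v.V (xco q.2 ^ 2 * (xco q.1 - xco q.2) ^ 2) := by
      rw [a4, show 10 = 4 + 3 * 2 from rfl, pow_add, pow_mul]
      exact mul_lt_mul_of_pos_left (pow_lt_pow_left₀ l zero_le two_ne_zero) (pow_pos b0 _)
    rw [v.V.map_add_eq_of_lt_left (v.V.map_add_lt (a1.trans a5) (by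
      rw [map_mul, a4, sq, ← mul_assoc]
      refine mul_lt_mul_of_pos_right (a2.trans_lt ?_) d0
      rw [show 8 = 4 + 4 from rfl, pow_add]
      exact mul_lt_mul_of_pos_left ((p (by omega)).trans l) (pow_pos b0 _)))] at a3
    refine lt_of_mul_lt_mul_left ?_ (pow_pos b0 10).le
    rw [a3, mul_comm]
    exact mul_lt_mul_of_pos_left a5 d0
  · obtain ⟨a, b, a1, a2, a3, a4⟩ := h2 q hq
    change v.V _ < _ at l
    change v.V _ < v.V _
    refine lt_of_mul_lt_mul_left ?_ (pow_pos b0 10).le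
    rw [a3, mul_comm (_ ^ 10)]
    refine mul_lt_mul_of_pos_left (v.V.map_add_lt ?_ (v.V.map_add_lt a1 ?_))
      (pos_iff_ne_zero.2 (v.V.ne_zero_iff.2 (sub_ne_zero.2 (mem_filter.1 hq).2)))
    · rw [a4, show 10 = 4 + 3 * 2 from rfl, pow_add, pow_mul]
      exact mul_lt_mul_of_pos_left (pow_lt_pow_left₀ l zero_le two_ne_zero) (pow_pos b0 _)
    · rw [map_mul]
      exact (mul_le_mul' a2 l.le).trans_lt (by rw [← pow_add]; exact p (by omega))

/-- The elliptic units of order prime to three are units above three. -/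
theorem ub_three (hv : v.p = 3) (hm : red m ≠ 0) (hb : red b ≠ 0) (h : m • P = 0)
    (h0 : b • P ≠ 0) : v.V (ub b P) = 1 := by
  obtain ⟨e, b0, -⟩ := n1_b hv
  have n0 := EW.ne_of_red hb
  have hc : red (m * b) ≠ 0 := by rw [map_mul]; exact mul_ne_zero hm hb
  have p0 : P ≠ 0 := fun k => h0 (by rw [k, smul_zero])
  have h1 : P ∈ (En (m * b)).erase 0 := (EW.mem_En0 (EW.ne_of_red hc)).2
    ⟨p0, by rw [mul_comm, mul_smul, h, smul_zero]⟩
  have h2 : ∀ S ∈ (En b).erase 0, v.V (1 - xco P / xco S) = v.V (io w) ∧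
      v.V (1 - xco H3.T3 / xco S) ^ 3 = v.V (io w) ^ 2 := fun S hS => by
    obtain ⟨s0, s1⟩ := (EW.mem_En0 n0).1 hS
    rw [one_sub_div (EW.Xb_ne hb hS), one_sub_div (EW.Xb_ne hb hS), map_div₀, map_div₀, div_pow,
      EW.x_T3, n1_t hv hb hS, n1_x hv hb hS, n1_d hv hc ((EW.mem_En0 (EW.ne_of_red hc)).2
        ⟨s0, by rw [mul_smul, s1, smul_zero]⟩) h1 fun k => by
          rcases EW.x_eq p0 s0 k.symm with rfl | rfl <;> simp [s1] at h0]
    constructor <;> field_simp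
  rw [EW.ub, map_div₀, map_pow, map_pow, EW.u0, EW.u0, map_prod, map_prod, ← prod_pow _ 3,
    prod_congr rfl fun S hS => (h2 S hS).1, prod_congr rfl fun S hS => (h2 S hS).2, prod_pow,
    div_self (pow_ne_zero _ (prod_ne_zero_iff.2 fun _ _ => b0.ne'))]

/-- The elliptic units of composite order are units. -/
theorem ub_all {n : O} (hm : red (m * n) ≠ 0) (hc : IsCoprime m n) (hb : red b ≠ 0)
    (h : (m * n) • P = 0) (h1 : (b * m) • P ≠ 0) (h2 : (b * n) • P ≠ 0) (v : Plc) :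
    v.V (ub b P) = 1 := by
  by_cases hv : v.p = 3
  · exact ub_three hv hm hb h fun k => h1 (by rw [mul_comm, mul_smul, k, smul_zero])
  have key : ∀ m n : O, (m * n) • P = 0 → (b * n) • P ≠ 0 → v.V (io m) = 1 → v.V (ub b P) = 1 :=
    fun m n h h2 k => EW.ub_unit hv hb fun R r => by
      have e : (b * n) • (P + R) = (b * n) • P := by
        rw [smul_add, mul_comm, mul_smul n b R, r, smul_zero, add_zero]
      exact EW.not_Kr k (c := b * n) (by
        rw [e, smul_smul, mul_left_comm, mul_smul, h, smul_zero]) (e ▸ h2)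
  rcases (EW.V_io_le v m).eq_or_lt with k | k
  · exact key m n h h2 k
  refine key n m (mul_comm m n ▸ h) h1 ((EW.V_io_le v n).eq_of_not_lt fun k' => ?_)
  obtain ⟨x, y, e⟩ := hc
  refine lt_irrefl (v.V (io 1)) ?_
  nth_rw 1 [← e]
  rw [map_add, map_one, map_one]
  exact v.V.map_add_lt (g1_dvd k (dvd_mul_left _ _)) (g1_dvd k' (dvd_mul_left _ _))

end Pool.Agent.Lib.MP_696deb_nt.EV.D
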