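import Pool.Agent.Lib.MP_696deb_nt.ED.G0
import Pool.Agent.Lib.MP_696deb_nt.ED.B3

/-! Basic facts on characters with a quadratic residual character. -/

set_option autoImplicit false

open scoped Classical NNReal
open Finset

namespace Pool.Agent.Lib.MP_696deb_nt.EV.D

variable {R : Type} [CommRing R] {d : ℤ} {ι J : Type} {t : ι → TP} {γ : J → Gam} {ρ ρ' : Gam → R}
  {H : Subgroup Gam} {M : Type} [AddCommGroup M] [Module R M] {c c' : Gam → M} {g h σ : Gam}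
  {v : Plc} {r : TP}

theorem xq_mul (d : ℤ) (g h : Gam) : xq d R (g * h) = xq d R g * xq d R h := by
  simp only [xq, map_mul, Units.val_mul, Int.cast_mul]

theorem xq_one (d : ℤ) : xq d R 1 = 1 := by
  simp only [xq, map_one, Units.val_one, Int.cast_one]

theorem xq_sq (d : ℤ) (g : Gam) : xq d R g * xq d R g = 1 := by
  rw [xq, ← Int.cast_mul, ← Units.val_mul, Int.units_mul_self, Units.val_one, Int.cast_one]

theorem xq_inv (d : ℤ) (g : Gam) : xq d R g⁻¹ = xq d R g := by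
  rw [xq, map_inv, Int.units_inv_eq_self, xq]

theorem xq_of (k : chi d g = 1) : xq d R g = 1 := by
  rw [xq, k, Units.val_one, Int.cast_one]

theorem xq_of' (k : chi d g = -1) : xq d R g = -1 := by
  rw [xq, k, Units.val_neg, Units.val_one, Int.cast_neg, Int.cast_one]

theorem chi_or (d : ℤ) (g : Gam) : chi d g = 1 ∨ chi d g = -1 := Int.units_eq_one_or _

theorem mem_GQ : g ∈ GQ d ↔ chi d g = 1 := Iff.rfl

theorem sm_xq (d : ℤ) (H : Subgroup Gam) : Sm H (xq d R) :=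
  (B2.sm_chi d).comp fun u : ℤˣ => ((u : ℤ) : R)

theorem xq_map {R' : Type} [CommRing R'] (f : R →+* R') (d : ℤ) (g : Gam) :
    f (xq d R g) = xq d R' g := map_intCast f _

theorem ch_xq (d : ℤ) : Ch d (xq d R) :=
  ⟨(B2.Sm.const 1).congr fun g _ => (xq_sq d g).symm, xq_sq d 1,
    fun _ _ _ _ => by simp only [xq_sq, mul_one], fun g _ => ⟨0, (pow_one _).trans (xq_sq d g)⟩⟩

theorem q1_can (d : ℤ) (g : Gam) (x : R) : xq d R g * (xq d R g * x) = x := by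
  rw [← mul_assoc, xq_sq, one_mul]

theorem Ch.sm (k : Ch d ρ) : Sm G ρ :=
  ((sm_xq d G).comp₂ (Chr.sm k) (· * ·)).congr fun g _ => q1_can d g _

theorem Ch.one (k : Ch d ρ) : ρ 1 = 1 := by
  have := Chr.one k
  rwa [xq_one, one_mul] at this

theorem Ch.mul (k : Ch d ρ) : ∀ g ∈ G, ∀ h ∈ G, ρ (g * h) = ρ g * ρ h := fun g hg h hh => by
  have := Chr.mul k g hg h hh
  rw [← q1_can d (g * h) (ρ _), this, xq_mul]
  linear_combination (xq d R h * xq d R h * ρ g * ρ h) * xq_sq (R := R) d g +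
    (ρ g * ρ h) * xq_sq (R := R) d h

theorem Ch.inv (k : Ch d ρ) (hg : g ∈ G) : ρ g * ρ g⁻¹ = 1 := by
  rw [← k.mul g hg _ (inv_mem hg), mul_inv_cancel, k.one]

theorem Ch.isUnit (k : Ch d ρ) (hg : g ∈ G) : IsUnit (ρ g) :=
  IsUnit.of_mul_eq_one _ (k.inv hg)

theorem Ch.pow (k : Ch d ρ) (hg : g ∈ G) (n : ℕ) : ρ (g ^ n) = ρ g ^ n := by
  induction n with
  | zero => rw [pow_zero, pow_zero, k.one]
  | succ n ih => rw [pow_succ, k.mul _ (pow_mem hg n) g hg, ih, pow_succ]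

theorem Ch.conj (k : Ch d ρ) (hg : g ∈ G) (hh : h ∈ G) : ρ (g * h * g⁻¹) = ρ h := by
  rw [k.mul _ (mul_mem hg hh) _ (inv_mem hg), k.mul g hg h hh, mul_right_comm, k.inv hg, one_mul]

theorem Ch.map {R' : Type} [CommRing R'] (f : R →+* R') (k : Ch d ρ) :
    Ch d fun g => f (ρ g) := by
  have := Chr.map f k
  simpa only [Ch, map_mul, xq_map] using this

theorem Ch.congr (k : Ch d ρ) (e : ∀ g ∈ G, ρ' g = ρ g) : Ch d ρ' :=
  ⟨(Chr.sm k).congr fun g hg => by rw [e g hg], by rw [e 1 G.one_mem]; exact Chr.one k,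
    fun g hg h hh => by
      rw [e g hg, e h hh, e _ (mul_mem hg hh)]
      exact Chr.mul k g hg h hh,
    fun g hg => by
      rw [e g hg]
      exact Chr.three k g hg⟩

theorem Ch.mul_chr (k : Ch d ρ) (k' : Chr ρ') : Ch d fun g => ρ' g * ρ g :=
  ⟨(sm_xq d G).comp₂ (k'.sm.comp₂ k.sm (· * ·)) (· * ·),
    by simp only [xq_one, k'.one, k.one, one_mul], fun g hg h hh => by
      simp only [xq_mul, k'.mul g hg h hh, k.mul g hg h hh]
      ring,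
    fun g hg => by
      rw [mul_left_comm]
      exact three_mul (k'.three g hg) (Chr.three k g hg)⟩

theorem Ch.of [Lo2 R] (h1 : Sm G ρ) (h2 : ρ 1 = 1) (h3 : ∀ g ∈ G, ∀ h ∈ G, ρ (g * h) = ρ g * ρ h)
    (h4 : ∀ g ∈ G, ¬ IsUnit (ρ g - xq d R g)) : Ch d ρ :=
  ⟨(sm_xq d G).comp₂ h1 (· * ·), by rw [xq_one, h2, one_mul], fun g hg h hh => by
      rw [xq_mul, h3 g hg h hh]
      ring,
    fun g hg => Lo2.pow_one fun u => h4 g hg (by
      rw [← xq_sq (R := R) d g, ← mul_sub] at u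
      exact isUnit_of_mul_isUnit_right u)⟩

theorem Ch.rs [Lo2 R] (k : Ch d ρ) (hg : g ∈ G) : rs R (ρ g) = xq d (ZMod 3) g := by
  rw [← q1_can d g (ρ g), map_mul, Chr.rs k hg, mul_one, xq_map]

theorem Ch.res [Lo2 R] (k : Ch d ρ) (hg : g ∈ G) : ¬ IsUnit (ρ g - xq d R g) :=
  rs_eq.1 ((k.rs hg).trans (xq_map _ d g).symm)

theorem Ch.unit [Lo2 R] (k : Ch d ρ) (hg : g ∈ G) (e : chi d g = -1) : IsUnit (ρ g - 1) := by
  by_contra u
  have := (rs_eq.2 u).symm.trans (k.rs hg)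
  rw [map_one, xq_of' e] at this
  exact absurd this (by decide)

theorem Ch.cob (k : Ch d ρ) (hH : H ≤ G) (x : M) : Zc H ρ fun g => (ρ g - 1) • x :=
  ⟨(k.sm.mono hH).comp fun r => (r - 1) • x, fun g hg h hh => by
    simp only [k.mul g (hH hg) h (hH hh)]
    module⟩

theorem Ch.act (k : Ch d ρ) (hH : H ≤ HF d) : Act H (sa M ρ) := by
  refine ⟨(k.sm.mono (hH.trans (HF_le d))).comp fun r => DistribSMul.toAddMonoidHom M r,
    fun x => ?_, fun g hg h hh x => ?_, fun g hg _ => ?_⟩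
  · rw [sa_apply, k.one, one_smul]
  · rw [sa_apply, sa_apply, sa_apply, k.mul g (hH hg).1 h (hH hh).1, mul_smul]
  · obtain ⟨n, hn⟩ := Chr.three k g (hH hg).1
    rw [xq_of (hH hg).2, one_mul] at hn
    exact ⟨n, fun x => by rw [sa_apply, k.pow (hH hg).1, hn, one_smul]⟩

theorem q1_one (k : ρ 1 = 1) (hc : Zc H ρ c) : c 1 = 0 := by
  have := hc.2 1 H.one_mem 1 H.one_mem
  rwa [mul_one, k, one_smul, left_eq_add] at this

theorem Ch.zc_one (k : Ch d ρ) (hc : Zc H ρ c) : c 1 = 0 := q1_one k.one hc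

/-- On subgroups of the kernel the twisted character gives the same cocycles. -/
theorem zc_xq (hH : H ≤ GQ d) : Zc H (fun g => xq d R g * ρ g) c ↔ Zc H ρ c :=
  have e : ∀ g ∈ H, xq d R g * ρ g = ρ g := fun g hg => by rw [xq_of (hH hg), one_mul]
  ⟨fun k => k.congr (fun g hg => (e g hg).symm) fun _ _ => rfl, fun k => k.congr e fun _ _ => rfl⟩

theorem cq_iff {c : Gam → ZMod 3} (hH : H ≤ GQ d) : Cq d H c ↔ B4bG H c :=
  and_congr_right fun _ => forall₂_congr fun g hg => by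
    simp only [xq_of (hH hg), one_smul]

/-- The value of a cocycle at a conjugate. -/
theorem Ch.zc_conj (k : Ch d ρ) (hH : H ≤ G) (hc : Zc H ρ c) (hg : g ∈ H) (hh : h ∈ H) :
    c (g * h * g⁻¹) = ρ g • c h - (ρ h - 1) • c g := by
  have h1 := hc.2 _ (mul_mem (mul_mem hg hh) (inv_mem hg)) g hg
  rw [inv_mul_cancel_right, hc.2 g hg h hh, k.conj (hH hg) (hH hh)] at h1
  rw [eq_sub_of_add_eq h1.symm]
  module

/-- Unramified at a place implies unramified at the conjugate places. -/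
theorem Ch.unr_smul (k : Ch d ρ) (hc : Zc G ρ c) (hv : v.p ≠ 3) (h1 : ∀ σ ∈ Ine v, ρ σ - 1 = 0)
    (h2 : ∀ σ ∈ Ine v, c σ = 0) (hg : g ∈ G) : ∀ σ ∈ Ine (g • v), c σ = 0 := fun σ hσ => by
  have h3 := B2.mem_Ine_smul.1 hσ
  have h4 := k.zc_conj le_rfl hc hg (ine_le hv h3)
  rwa [h1 _ h3, h2 _ h3, smul_zero, zero_smul, sub_zero, show g * (g⁻¹ * σ * g) * g⁻¹ = σ by group]
    at h4

theorem Spt.smul (k : Spt d v) (hg : g ∈ G) : Spt d (g • v) := fun x hx => by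
  have := mem_GQ.1 (k ⟨G.mul_mem (G.mul_mem (G.inv_mem hg) hx.1) hg, B2.mem_Dec_smul.1 hx.2⟩)
  rwa [map_mul, map_mul, mul_right_comm, ← map_mul, inv_mul_cancel, map_one, one_mul] at this

theorem Spt.chi (k : Spt d v) (hg : g ∈ G ⊓ Dec v) : chi d g = 1 := k hg

theorem Spt.xq (k : Spt d v) (hg : g ∈ G ⊓ Dec v) : xq d R g = 1 := xq_of (k hg)

theorem Spt.le (k : Spt d v) : G ⊓ Dec v ≤ HF d := le_inf inf_le_left k

theorem exists_ns (k : ¬ Spt d v) : ∃ g ∈ G ⊓ Dec v, chi d g = -1 := by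
  obtain ⟨g, h1, h2⟩ := SetLike.not_le_iff_exists.1 k
  exact ⟨g, h1, (chi_or d g).resolve_left h2⟩

theorem Spt.nd (hd : Fd d) (hv : v.p ≠ 3) (k : Spt d v) : ¬ (v.p : ℤ) ∣ d := fun e => by
  obtain ⟨σ, h1, h2⟩ := chi_ram hd.fund e
  exact absurd ((k.chi ⟨ine_le hv h1, h1.1⟩).symm.trans h2) (by decide)

theorem tp_dvd (r : TP) {n : ℤ} : r.π ∣ (n : O) ↔ (r.v.p : ℤ) ∣ n := TP.dvd_int r

theorem spt_iff (hd : Fd d) (k : ¬ r.π ∣ (d : O)) : Spt d r.v ↔ chi d r.φ = 1 := by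
  refine ⟨fun h => h.chi r.tm.φ_mem, fun h g hg => ?_⟩
  obtain ⟨n, σ, h1, h2⟩ := r.tm.dg hg (B2.op_ker_chi d)
  rw [MonoidHom.mem_ker, map_mul, map_inv, map_mul, map_pow, h,
    chi_unr hd.fund (mt (tp_dvd r).2 k) h1, one_pow, one_mul, inv_one, one_mul] at h2
  exact h2

theorem spt_kN (hd : Fd d) (r : TP) : Spt d r.v ↔ kN d r.π = 1 := by
  by_cases k : r.π ∣ (d : O)
  · refine iff_of_false (fun h => h.nd hd r.odd ((tp_dvd r).1 k)) ?_
    rw [(kN_zero hd).2 fun e => r.prime.not_isUnit (e.isUnit_of_dvd' dvd_rfl k)]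
    decide
  · rw [spt_iff hd k, ← chi_tp hd.fund r k, Units.val_eq_one]

theorem spt_w (hd : Fd d) : Spt d w3 ↔ kN d w = 1 := by
  rw [kN_w hd]
  refine (Hw_le hd).trans ?_
  split_ifs with k <;> simp [k]

theorem kN_w' (hd : Fd d) (k : ¬ Spt d w3) : kN d w = -1 := by
  rw [kN_w hd, if_neg (mt (Hw_le hd).2 k)]

theorem q1_congr {r' : TP} (e : r'.π = r.π) (k : Spt d r.v) : Spt d r'.v := by
  obtain ⟨g, hg, e'⟩ := r.conj (e ▸ r'.lt)
  exact e' ▸ k.smul hg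

theorem spt_congr {r' : TP} (e : r'.π = r.π) : Spt d r'.v ↔ Spt d r.v := ⟨q1_congr e.symm, q1_congr e⟩

theorem off_smul (k : Off t v) (hg : g ∈ G) : Off t (g • v) :=
  ⟨k.1, fun i => by rw [B2.smul_V, io_fx _ _ (inv_mem hg), k.2 i]⟩

theorem off_tp : Off t r.v ↔ ∀ i, (t i).π ≠ r.π :=
  ⟨fun k i e => r.V_eq.1 (k.2 i) e.symm.dvd,
    fun k => ⟨r.odd, fun i => r.V_eq.2 (r.not_dvd _ (k i).symm)⟩⟩

theorem off_sb {st : ι → Prop} (k : Off t v) : Off (sb t st) v := ⟨k.1, fun i => k.2 i.1⟩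

theorem Nice.of {U : Subgroup Gam} (k : EV.Nice U) : Nice U :=
  ⟨k.le, k.op, k.conj, fun g hg => (k.three g hg).imp fun n hn => by
    rw [mul_comm, pow_mul]
    exact pow_mem hn 2⟩

theorem nice_G : Nice G := .of EV.nice_G

theorem nice_HF (d : ℤ) : Nice (HF d) :=
  ⟨HF_le d, op_HF d, fun g _ u hu => (normal_HF d).conj_mem u hu g, fun g hg =>
    ⟨0, pow_mem hg _, mem_GQ.2 (by rw [map_pow, pow_zero, mul_one, Int.units_sq])⟩⟩

theorem q1_pow {U : Subgroup Gam} {m : ℕ} (h : g ^ (2 * 3 ^ m) ∈ U) (n : ℕ) :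
    g ^ (2 * 3 ^ (m + n)) ∈ U := by
  rw [pow_add, ← mul_assoc, pow_mul]
  exact pow_mem h _

theorem Nice.inf {U U' : Subgroup Gam} (k : Nice U) (k' : Nice U') : Nice (U ⊓ U') :=
  ⟨inf_le_left.trans k.le, k.op.inf k'.op,
    fun g hg u hu => ⟨k.conj g hg u hu.1, k'.conj g hg u hu.2⟩, fun g hg => by
      obtain ⟨m, hm⟩ := k.six g hg
      obtain ⟨n, hn⟩ := k'.six g hg
      exact ⟨m + n, q1_pow hm n, add_comm n m ▸ q1_pow hn m⟩⟩

theorem nice_fin {κ : Type} [Finite κ] {p : κ → Gam → Prop}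
    (k : ∀ i, ∃ U, Nice U ∧ ∀ u ∈ U, p i u) : ∃ U, Nice U ∧ ∀ u ∈ U, ∀ i, p i u := by
  have := Fintype.ofFinite κ
  have key (s : Finset κ) : ∃ U, Nice U ∧ ∀ u ∈ U, ∀ i ∈ s, p i u := by
    induction s using Finset.induction_on with
    | empty => exact ⟨G, nice_G, by simp⟩
    | insert i s _ ih =>
      obtain ⟨U, h1, h2⟩ := ih
      obtain ⟨U', h3, h4⟩ := k i
      exact ⟨_, h1.inf h3, fun u hu => forall_mem_insert _ _ _ |>.2 ⟨h4 u hu.2, h2 u hu.1⟩⟩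
  obtain ⟨U, h1, h2⟩ := key univ
  exact ⟨U, h1, fun u hu i => h2 u hu i (mem_univ i)⟩

theorem q1_mul (h0 : ρ 1 = 1) (h2 : ∀ g ∈ G, ∀ h ∈ G, ρ (g * h) = ρ g * ρ h) (hg : g ∈ G)
    (n : ℕ) : ρ (g ^ n) = ρ g ^ n := by
  induction n with
  | zero => rw [pow_zero, pow_zero, h0]
  | succ n ih => rw [pow_succ, h2 _ (pow_mem hg n) g hg, ih, pow_succ]

theorem q1_zc (h1 : Sm G ρ) (h0 : ρ 1 = 1) (h2 : ∀ g ∈ G, ∀ h ∈ G, ρ (g * h) = ρ g * ρ h)
    (h3 : ∀ g ∈ G, ∃ n : ℕ, ρ g ^ (2 * 3 ^ n) = 1) {m : ℕ} (hM : ∀ x : M, 3 ^ m • x = 0)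
    (hc : Zc G ρ c) : ∃ U, Nice U ∧ ∀ u ∈ U, c u = 0 ∧ ρ u = 1 := by
  have c1 := q1_one h0 hc
  let U : Subgroup Gam :=
    { carrier := {g | g ∈ G ∧ c g = 0 ∧ ρ g = 1}
      one_mem' := ⟨G.one_mem, c1, h0⟩
      mul_mem' := fun {a b} ha hb => ⟨mul_mem ha.1 hb.1, by
        rw [hc.2 a ha.1 b hb.1, ha.2.1, hb.2.1, smul_zero, add_zero], by
        rw [h2 a ha.1 b hb.1, ha.2.2, hb.2.2, mul_one]⟩
      inv_mem' := fun {a} ha => ⟨inv_mem ha.1, by
        have := hc.2 _ (inv_mem ha.1) a ha.1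
        rwa [inv_mul_cancel, c1, ha.2.1, smul_zero, add_zero, eq_comm] at this, by
        have := h2 _ (inv_mem ha.1) a ha.1
        rwa [inv_mul_cancel, h0, ha.2.2, mul_one, eq_comm] at this⟩ }
  refine ⟨U, ⟨fun _ k => k.1, ?_, fun g hg u hu => ?_, fun g hg => ?_⟩, fun _ k => k.2⟩
  · obtain ⟨V, u1, -, u3⟩ := hc.1.comp₂ h1 Prod.mk
    refine Subgroup.isOpen_mono (H₁ := G ⊓ V) (fun g hg => ?_) (op_G.inf u1)
    have := Prod.ext_iff.1 (u3 1 G.one_mem g hg.1 (by simpa using hg.2))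
    exact ⟨hg.1, this.1.symm.trans c1, this.2.symm.trans h0⟩
  · have e : ρ (g * u) = ρ g := by rw [h2 g hg u hu.1, hu.2.2, mul_one]
    have i := inv_mem hg
    have j := mul_mem hg hu.1
    refine ⟨mul_mem j i, ?_, by rw [h2 _ j _ i, e, ← h2 g hg _ i, mul_inv_cancel, h0]⟩
    rw [hc.2 _ j _ i, e, hc.2 g hg u hu.1, hu.2.1, smul_zero, add_zero, ← hc.2 g hg _ i,
      mul_inv_cancel, c1]
  · obtain ⟨n, hn⟩ := h3 g hg
    rw [← q1_mul h0 h2 hg] at hn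
    have i := pow_mem hg (2 * 3 ^ n)
    refine ⟨n + m, ?_⟩
    rw [pow_add, ← mul_assoc, pow_mul]
    generalize g ^ (2 * 3 ^ n) = x at hn i
    have e : ∀ k : ℕ, c (x ^ k) = k • c x := fun k => by
      induction k with
      | zero => rw [pow_zero, c1, zero_nsmul]
      | succ k ih => rw [pow_succ', hc.2 _ i _ (pow_mem i k), hn, one_smul, ih, succ_nsmul']
    exact ⟨pow_mem i _, (e _).trans (hM _), by rw [q1_mul h0 h2 i, hn, one_pow]⟩

theorem nice_zc [Lo2 R] [Finite M] (k : Ch d ρ) (hc : Zc G ρ c) :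
    ∃ U, Nice U ∧ ∀ u ∈ U, c u = 0 ∧ ρ u = 1 := by
  obtain ⟨m, hm⟩ := Lo2.kill R
  refine q1_zc k.sm k.one k.mul (fun g hg => (Chr.three k g hg).imp fun n hn => ?_) (hm M) hc
  have := congrArg (· ^ 2) hn
  simp only [one_pow] at this
  rwa [← pow_mul, mul_comm _ 2, mul_pow, pow_mul (xq d R g), sq, xq_sq, one_pow, one_mul] at this

/-- The density theorem. -/
theorem cheb {U : Subgroup Gam} (hU : Nice U) (hg : g ∈ G) (B : Finset ℕ) :
    ∃ (r : TP) (n : ℕ), n.Coprime 6 ∧ r.v.p ∉ B ∧ nm r.π = r.v.p ∧ r.φ⁻¹ * g ^ n ∈ U := by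
  obtain ⟨U', u1, u2, u3⟩ := B2.exists_normal_le hU.op
  obtain ⟨m, hm⟩ := hU.six g hg
  obtain ⟨n, hn⟩ := hU.six _ (normal_G.conj_mem g hg cc)
  obtain ⟨v, φ, a, h1, h2, h3, h4⟩ := H3.cheb U.normalCore g (m + n) (insert 3 B)
    (Subgroup.isOpen_mono (Subgroup.normal_le_normalCore.2 u3) u1) inferInstance (fun b => by
      by_cases hb : b ∈ G
      · exact hU.conj b hb _ (q1_pow hm n)
      · have := hU.conj _ (B2.mul_mem_GK hb (mt inv_mem_iff.1 (B2.cc_notMem three_pos))) _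
          (q1_pow hn m)
        rw [conj_pow, add_comm n] at this
        simpa [mul_assoc] using this)
  rw [mem_insert, not_or] at h1
  have h5 := U.normalCore_le h4
  have h6 : φ ∈ G := inv_mem_iff.1 ((mul_mem_cancel_right (pow_mem hg a)).1 (hU.le h5))
  obtain ⟨π, k1, k2, k3⟩ := g1_pi h1.1
  obtain ⟨τ, hτ⟩ := H3.exists_gen h1.1
  have e := g1_split k1 k2 k3 h2 h6
  exact ⟨⟨π, v, φ, τ, k1, k2, k3, e ▸ H3.tm_split op_G h1.1 (g1_dec h1.1 h2 h6) h2 hτ⟩, a,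
    h3, h1.2, e, h5⟩

/-- The character of the discriminant on the Galois side. -/
theorem kN_cm (hd : Fd d) {m : O} (hm : m ≠ 0) (k : (d : O) ∣ m) (hg : g ∈ G) :
    kN d (cm m g) = chi d g := by
  let ρ : Gam → ℤ := fun g => kN d (cm m g) * chi d g
  have h0 : ρ 1 = 1 := by
    simp only [ρ, kN_per hd.fund (k.trans (cm_one hm)), kN_one, map_one, Units.val_one, mul_one]
  have h2 : ∀ g ∈ G, ∀ h ∈ G, ρ (g * h) = ρ g * ρ h := fun g hg h hh => by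
    simp only [ρ, kN_per hd.fund (k.trans (cm_mul hm hg hh)), kN_mul hd.fund, map_mul,
      Units.val_mul]
    ring
  have h3 : ∀ g ∈ G, ρ g ^ 2 = 1 := fun g hg => by
    simp only [ρ]
    rw [mul_pow, sq, kN_sq hd ((cm_cop hm hg).of_isCoprime_of_dvd_right k), one_mul,
      ← Units.val_pow_eq_pow_val, Int.units_sq, Units.val_one]
  obtain ⟨U, u1, u2⟩ := q1_zc (M := PUnit) (c := 0) (m := 0) (ρ := ρ)
    ((sm_cm hm).comp₂ (B2.sm_chi d) fun a (u : ℤˣ) => kN d a * u) h0 h2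
    (fun g hg => ⟨0, h3 g hg⟩) (fun _ => rfl) ⟨B2.Sm.const _, fun _ _ _ _ => rfl⟩
  obtain ⟨r, n, r1, r2, r3, r4⟩ := cheb u1 hg (nm m).primeFactors
  have r5 : ¬ r.π ∣ m := fun ⟨x, e⟩ => r2 (Nat.mem_primeFactors.2 ⟨r.v.prime,
    ⟨nm x, by rw [e, g1_nm_mul, r3]⟩, Int.natAbs_ne_zero.2 (EW.nm_pos hm).ne'⟩)
  have r6 : ¬ r.π ∣ (d : O) := fun e => r5 (e.trans k)
  have r7 : ρ r.φ = 1 := by
    simp only [ρ]
    rw [kN_per hd.fund (k.trans (cm_frob r r5)), chi_tp hd.fund r r6,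
      kN_sq hd (r.prime.irreducible.coprime_iff_not_dvd.2 r6)]
  have r8 := h2 _ r.φ_mem _ (u1.le r4)
  obtain ⟨j, rfl⟩ := Nat.coprime_two_right.1 (r1.coprime_dvd_right (by decide : 2 ∣ 6))
  rw [mul_inv_cancel_left, r7, (u2 _ r4).2, mul_one, q1_mul h0 h2 hg, pow_succ, pow_mul, h3 g hg,
    one_pow, one_mul] at r8
  have r9 : (chi d g : ℤ) * chi d g = 1 := by
    rw [← Units.val_mul, Int.units_mul_self, Units.val_one]
  simp only [ρ] at r8
  linear_combination chi d g * r8 - kN d (cm m g) * r9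

end Pool.Agent.Lib.MP_696deb_nt.EV.D
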