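import Pool.Agent.Lib.MP_696deb_nt.ED.N1
import Pool.Agent.Lib.MP_696deb_nt.ED.N2
import Pool.Agent.Lib.MP_696deb_nt.ED.A8
import Pool.Agent.Lib.MP_696deb_nt.ED.Q1

/-! The index of the elliptic unit. -/

set_option autoImplicit false

open scoped Classical NNReal
open Finset

namespace Pool.Agent.Lib.MP_696deb_nt.EV.D

variable {d : ℤ} {b : O} {t : TP}

theorem n3_ne (h : Fd d) : (d : O) ≠ 0 := Int.cast_ne_zero.2 h.fund.ne

theorem n3_red (h : Fd d) : CU.red (d : O) ≠ 0 := by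
  rw [map_intCast]
  exact fun e => h.three ((ZMod.intCast_zmod_eq_zero_iff_dvd d 3).1 e)

theorem n3_nu (h : Fd d) : ¬ IsUnit (d : O) := fun k => by
  have := (kN_zero h (x := 0)).not.2 (not_not.2 (isCoprime_zero_left.2 k))
  have := h.fund.one_lt
  have := g1_nm_one.2 ((isUnit_of_dvd_unit (b1_dvd.2 dvd_rfl) k))
  rw [g1_nm_nat] at this
  nlinarith

theorem n3_cop (h : Fd d) (hl : kN d t.π = -1) : IsCoprime t.π (d : O) :=
  not_not.1 fun k => by simp [(kN_zero h).2 k] at hl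

theorem mu_kN (h : Fd d) (R : Type) [CommRing R] (hb : CU.red b ≠ 0)
    (hc : IsCoprime b (d * t.π)) : Mu (d * t.π) b fun a => (kN d a : R) where
  rd := by rw [map_mul]; exact mul_ne_zero (n3_red h) t.red
  big := by
    have h1 := mt g1_nm_one.1 t.prime.not_isUnit
    have h2 := t.nm_mod
    have h3 := mt g1_nm_one.1 (n3_nu h)
    have h4 : nm (d : O) ≠ 0 := Int.natAbs_ne_zero.2 (EW.nm_pos (n3_ne h)).ne'
    rw [g1_nm_mul]
    exact lt_of_lt_of_le (by norm_num) (Nat.mul_le_mul (show 2 ≤ _ by omega) (show 4 ≤ _ by omega))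
  red := hb
  cop := hc
  per a a' k := by rw [kN_per h.fund ((dvd_mul_right _ _).trans k)]
  mul a a' _ _ := by rw [kN_mul h.fund, Int.cast_mul]
  unit := by rw [kN_unit n2_u, Int.cast_one]

theorem n3_log (h : Fd d) (hl : kN d t.π = -1) (hb : CU.red b ≠ 0) (hc : IsCoprime b (d * t.π)) :
    ∃ c : ℕ, (c = 1 ∨ c = 2) ∧ ∑ ξ ∈ Xp (d * t.π), (kN d (co (d * t.π) (pick (d * t.π) ξ)) : ℝ) *
      Real.log ‖EW.jc (ub b (pick (d * t.π) ξ))‖ = 2 * c * (nm b - kN d b) * Rh d := by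
  obtain ⟨c, hc', k⟩ := log_ub h
  have d0 := n3_ne h
  have D0 : (d.natAbs : O) ≠ 0 := Nat.cast_ne_zero.2 (Int.natAbs_ne_zero.2 h.fund.ne)
  have p0 := t.prime.ne_zero
  have M := mu_kN h ℝ hb hc
  have m0 := M.ne
  have cp := n3_cop h hl
  obtain ⟨S, hS, -⟩ := EW.exists_rep D0
  refine ⟨c, hc', ?_⟩
  set l : A → ℝ := fun P => Real.log ‖EW.jc (ub b P)‖ with hl'
  have h1 : ∑ P ∈ En d, (kN d (co d P) : ℝ) * l P = 6 * c * (nm b - kN d b) * Rh d := by
    have : En d = En d.natAbs := ext fun P => by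
      rw [EW.mem_En d0, EW.mem_En D0]
      rcases Int.natAbs_eq d with e | e <;> nth_rw 1 [e] <;> simp
    rw [← k S b hS hb hc.of_mul_right_left, this, hS.En, sum_image hS.inj]
    refine sum_congr rfl fun a _ => ?_
    congr 2
    rcases Int.natAbs_eq d with e | e
    · rw [show (d.natAbs : O) = d by rw [← Int.cast_natCast, ← e], kN_per h.fund (co_tq d0 a)]
    · rw [show (d.natAbs : O) = -1 * d by nth_rw 2 [e]; simp,
        show a = -1 * -a by ring, EW.tq_mul (by simp) _ d0, kN_per h.fund (co_tq d0 _),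
        kN_mul h.fund (-1), kN_unit isUnit_one.neg, one_mul]
  have h2 : ∑ P ∈ En (d * t.π), (kN d (co (d * t.π) P) : ℝ) * l P =
      ∑ P ∈ En d, (kN d (co d P) : ℝ) * l P := by
    have e : En (d * t.π) = pre t.π (En d) := ext fun P => by
      rw [mem_pre p0, EW.mem_En d0, EW.mem_En m0, mul_smul]
    rw [← sum_fiberwise_of_maps_to (g := fun P : A => t.π • P) (t := En d)
      fun P hP => (mem_pre p0).1 (e ▸ hP)]
    refine sum_congr rfl fun B hB => ?_
    rw [sum_congr rfl (g := fun P => (kN d (co d B) : ℝ) * l P) fun P hP => by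
      rw [← (mem_filter.1 hP).2,
        kN_per h.fund (co_down d0 p0 ((EW.mem_En m0).1 (mem_filter.1 hP).1))], ← mul_sum]
    by_cases B0 : B = 0
    · rw [(kN_zero h).2 fun k => n3_nu h (k.symm.isUnit_of_dvd ((EW.tq_eq_zero d0).1
        ((co_spec d0 ((EW.mem_En d0).1 hB)).trans B0))), Int.cast_zero, zero_mul, zero_mul]
    obtain ⟨Q, rfl⟩ := exists_div p0 B
    simp only [l]
    rw [← Real.log_prod fun P hP => norm_ne_zero_iff.2 ((map_ne_zero _).2 (EW.ub_ne hb fun k => B0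
        (by rw [← (mem_filter.1 hP).2, EW.cop_smul hc ((EW.mem_En m0).1 (mem_filter.1 hP).1) k,
          smul_zero]))), ← norm_prod, ← map_prod, e, ← EW.ub_norm hb hc.of_mul_right_right.symm B0,
      ← pre_fibre p0 hB rfl]
  have h3 : ∑ P ∈ En d, (kN d (co (d * t.π) P) : ℝ) * l P =
      -∑ P ∈ En d, (kN d (co d P) : ℝ) * l P := by
    rw [← sum_neg_distrib]
    refine sum_congr rfl fun P hP => ?_
    rw [EW.mem_En d0] at hP
    rw [← kN_per h.fund (co_down d0 p0 (by rw [mul_comm, mul_smul, hP, smul_zero])),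
      kN_per h.fund (co_smul d0 _ hP), kN_mul h.fund, hl]
    push_cast
    ring
  have h4 : ∑ P ∈ En (d * t.π) with Pm (d * t.π) P, (kN d (co (d * t.π) P) : ℝ) * l P +
      ∑ P ∈ En d, (kN d (co (d * t.π) P) : ℝ) * l P =
      ∑ P ∈ En (d * t.π), (kN d (co (d * t.π) P) : ℝ) * l P := by
    rw [← sum_filter_add_sum_filter_not (En (d * t.π)) (Pm (d * t.π))]
    refine congrArg _ (sum_subset (fun P hP => ?_) fun P hP k => ?_)
    · rw [EW.mem_En d0] at hP
      exact mem_filter.2 ⟨(EW.mem_En m0).2 (by rw [mul_comm, mul_smul, hP, smul_zero]), fun k =>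
        t.prime.not_dvd_one ((mul_dvd_mul_iff_left d0).1 (by simpa using k.dvd m0 hP))⟩
    · obtain ⟨a1, a2⟩ := mem_filter.1 hP
      rw [EW.mem_En m0] at a1
      rw [(kN_zero h).2 fun e => a2 ⟨a1, e.mul_right
        (t.prime.irreducible.coprime_iff_not_dvd.2 fun ⟨x, e⟩ => k ?_).symm⟩, Int.cast_zero,
        zero_mul]
      rw [← co_spec m0 a1, e, mul_comm (d : O), EW.tq_mul p0 _ d0, EW.mem_En d0, m_tq d0]
  have h5 : ∑ P ∈ En (d * t.π) with Pm (d * t.π) P, (kN d (co (d * t.π) P) : ℝ) * l P =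
      ∑ ξ ∈ Xp (d * t.π), 6 * (kN d (co (d * t.π) (pick (d * t.π) ξ)) * l (pick (d * t.π) ξ)) := by
    rw [← sum_fiberwise_of_maps_to (g := fun P : A => xco P ^ 3) (t := Xp (d * t.π))
      fun P hP => M.mem (mem_filter.1 hP).2]
    refine sum_congr rfl fun ξ hξ => ?_
    obtain ⟨q1, q⟩ := M.pk hξ
    have e := M.fib (β := Multiplicative ℝ) (fun _ => Multiplicative.ofAdd 1) q1
    rw [prod_const, prod_const, ← ofAdd_nsmul, ← ofAdd_nsmul, card_range, nsmul_one,
      nsmul_one] at e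
    rw [sum_congr rfl (g := fun _ => (kN d (co (d * t.π) (pick (d * t.π) ξ)) : ℝ) *
      l (pick (d * t.π) ξ)) fun P hP => by
        obtain ⟨a1, a2⟩ := mem_filter.1 hP
        simp only [l]
        rw [← a2, M.up (mem_filter.1 a1).2]
        exact congrArg (· * _) (M.wp (mem_filter.1 a1).2).symm, sum_const, nsmul_eq_mul,
      ← show _ = (6 : ℝ) from Multiplicative.ofAdd.injective e, q]
    congr 3
    ext P
    simp only [mem_filter, mem_erase]
    refine ⟨fun k => ⟨⟨M.nz' k.1.2, k.1.1⟩, k.2⟩, fun k => ⟨⟨k.1.2, ?_⟩, k.2⟩⟩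
    obtain ⟨j, -, e⟩ := mw_orb k.1.1 (M.nz' q1) (k.2.trans q.symm)
    exact e ▸ q1.smul m0 (n2_cu j)
  rw [h5, h3, h2, h1, ← mul_sum] at h4
  linear_combination h4 / 6

theorem lg_pow {e : ℕ} {x : Qbar} (h : x ^ 3 ^ e = 1) (n : ℕ) : lg e (x ^ n) = n * lg e x := by
  simpa using lg_prod (range n) (x := fun _ => x) fun _ _ => h

theorem zeta_tor {e : ℕ} {a : ZMod (3 ^ e)} {n : ℕ} (h : n * a = 0) :
    (zeta e ^ a.val) ^ n = 1 := by
  rw [lg_spec (e := e) (x := _ ^ n) (by rw [pow_right_comm, H3.b3b_pow, one_pow]),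
    lg_pow (H3.b3b_pow e a), kf_lg, h, ZMod.val_zero, pow_zero]

theorem lg_zpow {e : ℕ} {x : Qbar} (h : x ^ 3 ^ e = 1) (n : ℤ) : lg e (x ^ n) = n * lg e x := by
  have k := lg_pow h
  obtain ⟨n, rfl | rfl⟩ := n.eq_nat_or_neg
  · rw [zpow_natCast, k, Int.cast_natCast]
  · rw [zpow_neg, zpow_natCast, ← one_div, lg_div (one_pow _) (by
      rw [pow_right_comm, h, one_pow]), lg_one, k]
    push_cast
    ring

/-- The class of the elliptic unit is not divisible by three times the class number. -/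
theorem n3_idx (h : Fd d) (hl : kN d t.π = -1) (hb : CU.red b ≠ 0) (hc : IsCoprime b (d * t.π))
    (hk : kN d b = -1) {e : ℕ} (he : hf d + 1 ≤ e) (x : ZMod (3 ^ e)) :
    ¬ ∀ g ∈ HF d, 3 ^ (hf d + 1) ∣
      FY (RingHom.id _) (d * t.π) b (fun a => (kN d a : ZMod (3 ^ e))) g - (cy e g - 1) * x := by
  intro hx
  obtain ⟨c, hc', k⟩ := n3_log h hl hb hc
  obtain ⟨r, rfl⟩ := Nat.exists_eq_add_of_le he
  have M := mu_kN h ℤ hb hc
  have F := M.fam (hf d + 1 + r)
  have z0 := H3.b3b_ne (hf d + 1 + r) x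
  set m : O := d * t.π with hm
  set Y := ∏ ξ ∈ Xp m, yb b (hf d + 1 + r) (pick m ξ) ^ kN d (co m (pick m ξ)) with hY
  have Y0 : Y ≠ 0 := prod_ne_zero_iff.2 fun ξ hξ => zpow_ne_zero _ (F.ne ξ hξ)
  have h1 : Y ^ 3 ^ (hf d + 1 + r) = ∏ ξ ∈ Xp m, ub b (pick m ξ) ^ kN d (co m (pick m ξ)) := by
    rw [hY, ← prod_pow]
    refine prod_congr rfl fun ξ _ => ?_
    rw [← zpow_natCast, ← zpow_mul, mul_comm, zpow_mul, zpow_natCast, es_pow]
  have h2 : ∀ ξ ∈ Xp m, ∀ v : Plc, v.V (ub b (pick m ξ)) = 1 := fun ξ hξ =>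
    ub_all M.rd (n3_cop h hl).symm hb (M.pk hξ).1.1
      (fun e => t.prime.not_isUnit (hc.of_mul_right_right.symm.isUnit_of_dvd ((mul_dvd_mul_iff_left
        (n3_ne h)).1 (mul_comm b _ ▸ (M.pk hξ).1.dvd M.ne e))))
      fun e => n3_nu h (hc.of_mul_right_left.symm.isUnit_of_dvd ((mul_dvd_mul_iff_right
        t.prime.ne_zero).1 ((M.pk hξ).1.dvd M.ne e)))
  refine val_unit h EW.jc (u := Y ^ 3 ^ (hf d + 1 + r)) (c := 2 * c * (nm b + 1))
    (y := (Y / zeta (hf d + 1 + r) ^ x.val) ^ 3 ^ r) (fun v => ?_) ?_ ?_ (fun g hg => ?_) ?_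
  · rw [h1, map_prod]
    exact prod_eq_one fun ξ hξ => by rw [map_zpow₀, h2 ξ hξ, one_zpow]
  · obtain ⟨j, hj⟩ := exists_prim hb
    have := EW.prim_norm hj
    change nm _ % 3 = 1 at this
    rw [g1_nm_mul, g1_nm_one.2 (n2_u.pow j), one_mul] at this
    rcases hc' with rfl | rfl <;> omega
  · rw [h1, map_prod, norm_prod, Real.log_prod fun ξ hξ => norm_ne_zero_iff.2 ((map_ne_zero _).2
      (zpow_ne_zero _ ((w3.V.ne_zero_iff).1 (h2 ξ hξ w3 ▸ one_ne_zero))))]
    simp only [map_zpow₀, norm_zpow, Real.log_zpow]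
    rw [k, hk]
    push_cast
    ring
  · obtain ⟨s, hs⟩ := hx g hg
    have g1 := HF_le d hg
    have a1 : g Y / Y = ∏ ξ ∈ Xp m, (g (yb b (hf d + 1 + r) (pick m (g⁻¹ • ξ))) /
        yb b (hf d + 1 + r) (pick m ξ)) ^ kN d (co m (pick m ξ)) := by
      simp only [div_zpow, prod_div_distrib]
      rw [hY, map_prod, ← F.prod_act (inv_mem g1)]
      refine congrArg (· / _) (prod_congr rfl fun ξ hξ => ?_)
      have := (M.act (inv_mem g1) hξ).2
      simp only [Int.cast_id] at this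
      rw [this, kN_cm h M.ne (dvd_mul_right _ _) (inv_mem g1), (mem_HF.1 (inv_mem hg)).2,
        Units.val_one, one_mul, map_zpow₀]
    have a2 : ∀ ξ ∈ Xp m, ((g (yb b (hf d + 1 + r) (pick m (g⁻¹ • ξ))) /
        yb b (hf d + 1 + r) (pick m ξ)) ^ kN d (co m (pick m ξ))) ^ 3 ^ (hf d + 1 + r) = 1 :=
      fun ξ hξ => by
        rw [← zpow_natCast, ← zpow_mul, mul_comm, zpow_mul, zpow_natCast, F.root g1 hξ, one_zpow]
    have a3 := lg_spec (e := hf d + 1 + r) (x := g Y / Y) (by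
      rw [a1, ← prod_pow]; exact prod_eq_one a2)
    have a4 : lg (hf d + 1 + r) (g Y / Y) + x =
        3 ^ (hf d + 1) * s + cy (hf d + 1 + r) g * x := by
      rw [← hs, a1, lg_prod _ a2, sum_congr rfl fun ξ hξ => lg_zpow (F.root g1 hξ) _, FY, FF]
      simp only [kc, RingHom.id_apply, mul_comm]
      ring
    have a5 := congrArg (fun a => zeta (hf d + 1 + r) ^ a.val) a4
    simp only [H3.zeta_val_add] at a5
    rw [← a3, ← H3.smul_zeta_val] at a5
    have a6 : (zeta (hf d + 1 + r) ^ (3 ^ (hf d + 1) * s).val) ^ 3 ^ r = 1 := zeta_tor (by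
      have := ZMod.natCast_self (3 ^ (hf d + 1 + r))
      push_cast at this ⊢
      linear_combination s * this)
    rw [map_pow, map_div₀, ← mul_one ((Y / _) ^ _), ← a6, ← mul_pow]
    congr 1
    have := (map_ne_zero g).2 z0
    field_simp at a5 ⊢
    linear_combination a5
  · rw [← pow_mul, ← pow_add, add_comm r, div_pow, H3.b3b_pow, div_one]

end Pool.Agent.Lib.MP_696deb_nt.EV.D
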