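import Pool.Agent.Lib.MP_696deb_nt.ED.Q1

/-! Subgroups of index two and places that do not split. -/

set_option autoImplicit false

open scoped Classical NNReal
open Finset

namespace Pool.Agent.Lib.MP_696deb_nt.EV.D

variable {R : Type} [CommRing R] {d : ℤ} {ι J : Type} {t : ι → TP} {γ : J → Gam} {ρ ρ' : Gam → R}
  {H : Subgroup Gam} {M : Type} [AddCommGroup M] [Module R M] {c c' : Gam → M} {g h σ : Gam}
  {v : Plc} {r : TP}

theorem q2_out : g ∉ GQ d ↔ chi d g = -1 := Pool.Agent.H3.T.cnd_out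

theorem q2_mul (hg : g ∉ GQ d) (hh : h ∉ GQ d) : g * h ∈ GQ d := Pool.Agent.H3.T.cnd_mul hg hh

theorem q2_conj (hg : g ∈ H) (hh : h ∈ H ⊓ GQ d) : g⁻¹ * h * g ∈ H ⊓ GQ d :=
  ⟨H.mul_mem (H.mul_mem (H.inv_mem hg) hh.1) hg,
    (Pool.Agent.H3.T.normal_GQ d).conj_mem' h hh.2 g⟩

theorem q2_inv (hg : g ∈ H) (e : g ∉ GQ d) (hh : h ∈ H) (e' : h ∉ GQ d) : g⁻¹ * h ∈ H ⊓ GQ d :=
  ⟨H.mul_mem (H.inv_mem hg) hh, q2_mul (mt (GQ d).inv_mem_iff.1 e) e'⟩

theorem q2_cj (hc : Zc H ρ c) (hg : g ∈ H) (hh : h ∈ H) :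
    ρ g • c (g⁻¹ * h * g) = c h + (ρ h - 1) • c g := by
  have e := hc.2 g hg _ (mul_mem (mul_mem (inv_mem hg) hh) hg)
  rw [← mul_assoc, mul_inv_cancel_left, hc.2 h hh g hg] at e
  linear_combination (norm := module) -e

theorem q2_cor (k : Ch d ρ) (hH : H ≤ G) {t : Gam} (ht : t ∈ H) (t3 : t ∉ GQ d)
    (hc : Zc (H ⊓ GQ d) ρ c) :
    ∃ C, Zc H ρ C ∧ (∀ g ∈ H ⊓ GQ d, C g = c g + ρ t • c (t⁻¹ * g * t)) ∧
      ∀ g ∈ H, g ∉ GQ d → C g = ρ t • c (t⁻¹ * g) + c (g * t) := by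
  obtain ⟨f, f1, f2⟩ : ∃ f : Gam → M, (∀ x ∈ GQ d, f x = c x) ∧
      ∀ x ∉ GQ d, f x = ρ t • c (t⁻¹ * x) :=
    ⟨fun x => if x ∈ GQ d then c x else ρ t • c (t⁻¹ * x), fun _ k => if_pos k, fun _ k => if_neg k⟩
  have m2 : ∀ k ∈ GQ d, k * t ∉ GQ d := fun k hk e => t3 (((GQ d).mul_mem_cancel_left hk).1 e)
  have f3 : ∀ x ∈ H, ∀ y ∈ H ⊓ GQ d, f (x * y) = f x + ρ x • c y := fun x hx y hy => by
    by_cases e : x ∈ GQ d
    · rw [f1 _ ((GQ d).mul_mem e hy.2), f1 x e, hc.2 x ⟨hx, e⟩ y hy]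
    · rw [f2 _ fun q => e (((GQ d).mul_mem_cancel_right hy.2).1 q), f2 x e, ← mul_assoc,
        hc.2 _ (q2_inv ht t3 hx e) y hy, smul_add, smul_smul,
        ← k.mul _ (hH ht) _ (hH (q2_inv ht t3 hx e).1), mul_inv_cancel_left]
  have f4 : ∀ g ∈ H ⊓ GQ d, f g + f (g * t) = c g + ρ t • c (t⁻¹ * g * t) := fun g hg => by
    rw [f1 g hg.2, f2 _ (m2 g hg.2), mul_assoc]
  have f5 : ∀ g ∈ H, ∀ y ∈ H, f (g * y) + f (g * y * t) =
      f g + f (g * t) + ρ g • (f y + f (y * t)) := fun g hg y hy => by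
    by_cases e : y ∈ GQ d
    · rw [f4 y ⟨hy, e⟩, f3 g hg y ⟨hy, e⟩, show g * y * t = g * t * (t⁻¹ * y * t) by group,
        f3 _ (mul_mem hg ht) _ (q2_conj ht ⟨hy, e⟩), k.mul _ (hH hg) _ (hH ht)]
      module
    · have e' := q2_mul e t3
      rw [mul_assoc, f3 g hg _ ⟨H.mul_mem hy ht, e'⟩, f1 _ e', f2 y e,
        show g * y = g * t * (t⁻¹ * y) by group, f3 _ (mul_mem hg ht) _ (q2_inv ht t3 hy e),
        k.mul _ (hH hg) _ (hH ht)]
      module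
  obtain ⟨U, u1, u2, u3⟩ := hc.1
  have u4 : ∀ u ∈ H ⊓ GQ d, u ∈ U → c u = 0 := fun u hu q => by
    rw [← u3 1 (one_mem _) u hu (by simpa using q), k.zc_one hc]
  refine ⟨fun g => f g + f (g * t), ⟨B2.Sm.of_open (U ⊓ GQ d) (u1.inf (Pool.Agent.H3.T.op_GQ d))
    fun g hg u hu => ?_, f5⟩, f4, fun g _ e => ?_⟩
  · have hu' : u ∈ H ⊓ GQ d := ⟨hu.1, hu.2.2⟩
    rw [f5 g hg u hu.1, f4 u hu', u4 u hu' hu.2.1, u4 _ (q2_conj ht hu') (u2.conj_mem' u hu.2.1 t),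
      smul_zero, add_zero, smul_zero, add_zero]
  · beta_reduce
    rw [f2 g e, f1 _ (q2_mul e t3)]

/-- Corestriction. -/
theorem exists_cor (k : Ch d ρ) (hH : H ≤ G) (hg : g ∈ H) (e : chi d g = -1)
    (hc : Zc (H ⊓ GQ d) ρ c) :
    ∃ c' : Gam → M, Zc H ρ c' ∧ ∀ h ∈ H ⊓ GQ d, c' h = c h + ρ g • c (g⁻¹ * h * g) :=
  (q2_cor k hH hg (q2_out.2 e) hc).imp fun _ q => ⟨q.1, q.2.1⟩

/-- A cocycle that vanishes on the subgroup of index two and at one more element vanishes. -/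
theorem q2_van (hg : g ∈ H) (e : chi d g = -1) (hc : Zc H ρ c) (h0 : c g = 0)
    (h1 : ∀ h ∈ H ⊓ GQ d, c h = 0) : ∀ h ∈ H, c h = 0 := fun h hh => by
  by_cases q : h ∈ GQ d
  · exact h1 h ⟨hh, q⟩
  · have m := q2_inv hg (q2_out.2 e) hh q
    rw [← mul_inv_cancel_left g h, hc.2 g hg _ m.1, h0, h1 _ m, smul_zero, add_zero]

/-- A cocycle is normalised by a coboundary. -/
theorem q2_norm [Lo2 R] (k : Ch d ρ) (hg : g ∈ G) (e : chi d g = -1) (y : M) :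
    ∃ z : M, (ρ g - 1) • z = y := by
  obtain ⟨a, ha⟩ := (k.unit hg e).exists_right_inv
  exact ⟨a • y, by rw [smul_smul, ha, one_smul]⟩

/-- Restriction is injective. -/
theorem res_cob [Lo2 R] (k : Ch d ρ) (hH : H ≤ G) (hg : g ∈ H) (e : chi d g = -1) (hc : Zc H ρ c)
    {x : M} (hx : ∀ h ∈ H ⊓ GQ d, c h = (ρ h - 1) • x) :
    ∃ y : M, ∀ h ∈ H, c h = (ρ h - 1) • y := by
  obtain ⟨y, hy⟩ := q2_norm k (hH hg) e (c g)
  refine ⟨y, fun h hh => sub_eq_zero.1 (q2_van hg e (hc.sub (k.cob hH y)) (sub_eq_zero.2 hy.symm)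
    (fun h hh => ?_) h hh)⟩
  have e1 := q2_cj hc hg hh.1
  have e2 := k.conj (inv_mem (hH hg)) (hH hh.1)
  rw [inv_inv] at e2
  rw [hx _ (q2_conj hg hh), e2, hx h hh, ← hy] at e1
  rw [hx h hh]
  refine (k.unit (hH hg) e).smul_eq_zero.1 ?_
  linear_combination (norm := module) e1

/-- A lift on the subgroup of index two gives a lift. -/
theorem exists_lift2 [Lo2 R] (k : Ch d ρ) (hH : H ≤ G) (hg : g ∈ H) (e : chi d g = -1)
    {N : Type} [AddCommGroup N] [Module R N] (π : M →ₗ[R] N) (hπ : Function.Surjective π)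
    {a : Gam → N} (ha : Zc H ρ a) (hc : Zc (H ⊓ GQ d) ρ c) (h1 : ∀ h ∈ H ⊓ GQ d, π (c h) = a h) :
    ∃ c' : Gam → M, Zc H ρ c' ∧ ∀ h ∈ H, π (c' h) = a h := by
  have t3 := q2_out.2 e
  obtain ⟨C, c1, c2, c3⟩ := q2_cor k hH hg t3 hc
  obtain ⟨m, hm⟩ := hπ (a g)
  obtain ⟨b, hb⟩ : ∃ b : R, b * 2 = 1 := IsUnit.exists_left_inv (by
    by_contra u
    have := rs_zero.2 u
    rw [map_ofNat] at this
    exact absurd this (by decide))
  refine ⟨fun h => b • (C h - (ρ h - 1) • m), (c1.sub (k.cob hH m)).smul b, fun h hh => ?_⟩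
  have e1 : π (C h) = a h + a h + (ρ h - 1) • a g := by
    by_cases q : h ∈ GQ d
    · rw [c2 h ⟨hh, q⟩, map_add, map_smul, h1 h ⟨hh, q⟩, h1 _ (q2_conj hg ⟨hh, q⟩), q2_cj ha hg hh,
        add_assoc]
    · have e2 := ha.2 g hg _ (mul_mem (inv_mem hg) hh)
      rw [mul_inv_cancel_left] at e2
      rw [c3 h hh q, map_add, map_smul, h1 _ (q2_inv hg t3 hh q),
        h1 _ ⟨H.mul_mem hh hg, q2_mul q t3⟩, ha.2 h hh g hg]
      linear_combination (norm := module) -e2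
  rw [map_smul, map_sub, map_smul, e1, hm, add_sub_cancel_right, ← two_smul R, smul_smul, hb,
    one_smul]

theorem zero_of [Lo2 R] [Finite M] (k : Ch d ρ) (hH : H ≤ G) (hc : Zc H ρ c) (S : Set Gam)
    (h0 : ∀ g ∈ S, c g = 0)
    (hd : ∀ x, Cq d H x → (∀ g ∈ S, g ∈ H → x g = 0) → ∀ g ∈ H, x g = 0) : ∀ g ∈ H, c g = 0 := by
  by_contra! hn
  obtain ⟨g0, hg0, hne⟩ := hn
  have hm : ∀ g ∈ H, c g ∈ Submodule.span R (c '' H) := fun g hg =>
    Submodule.subset_span ⟨g, hg, rfl⟩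
  have : Nontrivial (Submodule.span R (c '' H)) :=
    ⟨⟨⟨c g0, hm g0 hg0⟩, 0, fun e => hne (congrArg Subtype.val e)⟩⟩
  obtain ⟨f, f1, f2⟩ := Lo2.exists_fun (R := R) (M := Submodule.span R (c '' H))
  let φ : M → ZMod 3 := fun x => if hx : x ∈ Submodule.span R (c '' H) then f ⟨x, hx⟩ else 0
  have hφ : ∀ x hx, φ x = f ⟨x, hx⟩ := fun x hx => dif_pos hx
  have k1 := hd (fun g => φ (c g)) ⟨hc.1.comp φ, fun g hg x hx => by
      beta_reduce
      rw [hφ _ (hm _ (mul_mem hg hx)), hφ _ (hm g hg), hφ _ (hm x hx), smul_eq_mul,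
        ← k.rs (hH hg), ← f2, ← map_add]
      exact congrArg f (Subtype.ext (hc.2 g hg x hx))⟩ fun g hg _ => by
    rw [h0 g hg, hφ 0 (zero_mem _)]
    exact map_zero f
  have k2 : ∀ x hx, f ⟨x, hx⟩ = 0 := fun x hx => by
    induction hx using Submodule.span_induction with
    | mem x hx =>
      obtain ⟨g, hg, rfl⟩ := hx
      exact (hφ _ _).symm.trans (k1 g hg)
    | zero => exact map_zero f
    | add x y hx hy e e' =>
      exact (map_add f ⟨x, hx⟩ ⟨y, hy⟩).trans (by rw [e, e', add_zero])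
    | smul a x hx e => exact (f2 a ⟨x, hx⟩).trans (by rw [e, mul_zero])
  obtain ⟨x, hx⟩ := f1 1
  exact absurd ((k2 x.1 x.2).symm.trans hx) (by decide)

theorem q2_two {a : ZMod 3} (e : a = -a) : a = 0 := by
  revert a
  decide

/-- The number of odd characters of a decomposition group. -/
theorem q2_count (hg : g ∈ G ⊓ Dec v) (e : chi d g = -1) {n : ℕ}
    (f : (Fin n → ZMod 3) → Gam → ZMod 3) (f1 : ∀ a, Cq d (G ⊓ Dec v) (f a)) (f2 : ∀ a, f a g = 0)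
    (f3 : ∀ a b, (∀ h ∈ G ⊓ Dec v, f a h = f b h) → a = b) :
    H3.ldeg G v + n ≤ H3.ldeg (HF d) v := by
  have o : Op (HF d) := op_HF d
  have l : HF d ⊓ Dec v ≤ G ⊓ Dec v := inf_le_inf_right _ (HF_le d)
  have l' : HF d ⊓ Dec v ≤ GQ d := fun _ q => q.1.2
  have m : ∀ h ∈ G ⊓ Dec v ⊓ GQ d, h ∈ HF d ⊓ Dec v := fun _ q => ⟨⟨q.1.1, q.2⟩, q.1.2⟩
  let F : H3.Z1 (G ⊓ Dec v) H3.tr × (Fin n → ZMod 3) → H3.Z1 (HF d ⊓ Dec v) H3.tr := fun p =>
    ⟨H3.rs (HF d ⊓ Dec v) fun h => p.1.1 h + f p.2 h, H3.rs_mem_Z1 (H3.coc_tr.2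
      (B4bG.add (H3.coc_tr.1 (p.1.2.1.mono l)) ((cq_iff l').1 (Zc.mono (f1 p.2) l))))⟩
  have inj : Function.Injective F := fun ⟨y, a⟩ ⟨y', b⟩ q => by
    have q1 : ∀ h ∈ HF d ⊓ Dec v, y.1 h + f a h = y'.1 h + f b h := fun h hh =>
      (H3.rs_of_mem hh _).symm.trans
        ((congrFun (congrArg Subtype.val q) h).trans (H3.rs_of_mem hh _))
    have u : IsHom (G ⊓ Dec v) fun h => y.1 h - y'.1 h := fun h hh j hj => by
      simp only [(H3.coc_tr.1 y.2.1).2 h hh j hj, (H3.coc_tr.1 y'.2.1).2 h hh j hj]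
      ring
    have z := Zc.sub (f1 b) (f1 a)
    have z1 : ∀ h ∈ G ⊓ Dec v ⊓ GQ d, f b h - f a h = 0 := fun h hh => by
      have a1 := q2_cj z hg hh.1
      have a2 := u g hg _ (q2_conj hg hh).1
      rw [← mul_assoc, mul_inv_cancel_left, u h hh.1 g hg] at a2
      simp only [f2, sub_self, smul_eq_mul, mul_zero, add_zero, xq_of' e] at a1
      refine q2_two ?_
      linear_combination -a1 + a2 - q1 h (m h hh) + q1 _ (m _ (q2_conj hg hh))
    have z2 := q2_van hg e z (by simp only [f2, sub_self]) z1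
    refine Prod.ext (Subtype.ext (funext fun h => ?_)) (f3 a b fun h hh =>
      (sub_eq_zero.1 (z2 h hh)).symm)
    have u1 : ∀ h ∈ G ⊓ Dec v ⊓ GQ d, y.1 h - y'.1 h = 0 := fun h hh => by
      linear_combination q1 h (m h hh) + z1 h hh
    by_cases hh : h ∈ G ⊓ Dec v
    · by_cases q : h ∈ GQ d
      · exact sub_eq_zero.1 (u1 h ⟨hh, q⟩)
      · exact sub_eq_zero.1 (q2_two (eq_neg_of_add_eq_zero_left ((u h hh h hh).symm.trans
          (u1 _ ⟨mul_mem hh hh, q2_mul q q⟩))))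
    · exact (y.2.2 h hh).trans (y'.2.2 h hh).symm
  have := H3.finite_Z1_tr (w := v) o (l.trans inf_le_left)
  have c := Nat.card_le_card_of_injective F inj
  rw [Nat.card_prod, H3.card_Z1_tr op_G inf_le_left, H3.card_Z1_tr o (l.trans inf_le_left),
    Nat.card_fun, Nat.card_zmod, Nat.card_fin, ← pow_add,
    Nat.pow_le_pow_iff_right (by norm_num)] at c
  omega

/-- Away from three the cohomology vanishes at the places that do not split. -/
theorem acy [Lo2 R] [Finite M] (k : Ch d ρ) (hv : v.p ≠ 3) (hs : ¬ Spt d v)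
    (hc : Zc (G ⊓ Dec v) ρ c) : ∃ x : M, ∀ g ∈ G ⊓ Dec v, c g = (ρ g - 1) • x := by
  obtain ⟨g, hg, e⟩ := exists_ns hs
  obtain ⟨y, hy⟩ := q2_norm k hg.1 e (c g)
  refine ⟨y, fun h hh => sub_eq_zero.1 (zero_of k inf_le_left (hc.sub (k.cob inf_le_left y)) {g}
    (fun _ q => q ▸ sub_eq_zero.2 hy.symm) (fun x x1 x2 => ?_) h hh)⟩
  by_contra! q
  obtain ⟨j, hj, q⟩ := q
  have := q2_count (n := 1) hg e (fun a h => a 0 • x h) (fun a => Zc.smul x1 _)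
    (fun a => by simp only [x2 g rfl hg, smul_zero]) fun a b z =>
      funext fun i => Subsingleton.elim 0 i ▸ mul_right_cancel₀ q (z j hj)
  simp only [H3.ldeg, if_neg hv] at this
  omega

theorem sur_ew (x : Fin 4 → ZMod 3) : ∃ χ, B4bG Hw χ ∧ ∀ i, χ (ew i) = x i := by
  have := H3.finite_Z1_tr (w := w3) op_G inf_le_left
  let F : H3.Z1 Hw H3.tr → Fin 4 → ZMod 3 := fun y i => y.1 (ew i)
  have inj : Function.Injective F := fun y y' q => Subtype.ext (funext fun h => by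
    by_cases hh : h ∈ Hw
    · have := ew_spec.2 _ (B4bG.add (H3.coc_tr.1 y.2.1) (B4bG.smul (H3.coc_tr.1 y'.2.1) (-1)))
        (fun j => by
          have : y.1 (ew j) = y'.1 (ew j) := congrFun q j
          linear_combination this) h hh
      linear_combination this
    · exact (y.2.2 h hh).trans (y'.2.2 h hh).symm)
  obtain ⟨y, hy⟩ := ((Nat.bijective_iff_injective_and_card F).2 ⟨inj, by
    rw [H3.card_Z1_tr op_G inf_le_left, H3.ldeg, if_pos w3_p, relIndex_w3, Nat.card_fun,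
      Nat.card_zmod, Nat.card_fin]⟩).2 x
  exact ⟨y.1, H3.coc_tr.1 y.2.1, congrFun hy⟩

theorem q2_deg : H3.ldeg (HF d) w3 ≤ 4 := by
  have l : HF d ⊓ Dec w3 ≤ Hw := inf_le_inf_right _ (HF_le d)
  have e : HF d ⊓ Dec w3 = Hw ⊓ GQ d := inf_right_comm _ _ _
  have h1 : (GQ d).index ∣ 2 := by
    rw [GQ, Subgroup.index_ker]
    exact (Subgroup.card_subgroup_dvd_card _).trans (by simp)
  have := Pool.Agent.H3.T.normal_GQ d
  rw [H3.ldeg, if_pos w3_p, ← Subgroup.relIndex_mul_relIndex _ Hw _ l inf_le_right, relIndex_w3, e,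
    Subgroup.inf_relIndex_left]
  have := Nat.le_of_dvd two_pos ((Subgroup.relIndex_dvd_index_of_normal (GQ d) Hw).trans h1)
  omega

theorem ee_spec (d : ℤ) : IsEe d (ee d) := by
  have key : ∃ x, IsEe d x := by
    by_cases hs : Spt d w3
    · exact ⟨ew, ew_mem, fun c h => ew_spec.2 c ((cq_iff hs).1 h), fun _ => rfl,
        fun q => absurd hs q⟩
    obtain ⟨g, hg, e⟩ := exists_ns hs
    by_contra k
    have st : ∀ a ∈ Hw, ∀ b ∈ Hw, ∃ x, Cq d Hw x ∧ x g = 0 ∧ x a = 0 ∧ x b = 0 ∧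
        ∃ h ∈ Hw, x h ≠ 0 := fun a ha b hb => by
      by_contra! q
      exact k ⟨![g, a, b, 1], fun j => by
        fin_cases j
        exacts [hg, ha, hb, one_mem _], fun x h1 h2 => q x h1 (h2 0) (h2 1) (h2 2),
        fun q => absurd q hs, fun _ => rfl⟩
    obtain ⟨x0, a0, z0, -, -, g0, b0, c0⟩ := st g hg g hg
    obtain ⟨x1, a1, z1, d10, -, g1, b1, c1⟩ := st g0 b0 g hg
    obtain ⟨x2, a2, z2, d20, d21, g2, b2, c2⟩ := st g0 b0 g1 b1
    have := q2_count (n := 3) hg e (fun a h => a 0 • x0 h + a 1 • x1 h + a 2 • x2 h)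
      (fun a => Zc.add (Zc.add (Zc.smul a0 _) (Zc.smul a1 _)) (Zc.smul a2 _))
      (fun a => by simp only [z0, z1, z2, smul_zero, add_zero]) fun a b z => by
        have e0 : a 0 = b 0 := by simpa [d10, d20, c0] using z g0 b0
        have e1 : a 1 = b 1 := by simpa [e0, d21, c1] using z g1 b1
        have e2 : a 2 = b 2 := by simpa [e0, e1, c2] using z g2 b2
        funext i
        fin_cases i <;> assumption
    have h4 := q2_deg (d := d)
    rw [H3.ldeg, if_pos w3_p, relIndex_w3] at this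
    omega
  rw [ee, dif_pos key]
  exact key.choose_spec

theorem ee_mem (d : ℤ) (i : Fin 4) : ee d i ∈ Hw := (ee_spec d).mem i

theorem ee_sp (k : Spt d w3) : ee d = ew := (ee_spec d).sp k

theorem ee_ns (k : ¬ Spt d w3) : ee d 3 = 1 := (ee_spec d).ns k

theorem ee_chi (k : ¬ Spt d w3) : ∃ i, chi d (ee d i) = -1 := by
  by_contra! q
  obtain ⟨g, hg, e⟩ := exists_ns k
  have := (ee_spec d).det _ ((ch_xq d).cob inf_le_left (1 : ZMod 3)) (fun j => by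
    rw [xq_of ((chi_or d _).resolve_right (q j)), sub_self, zero_smul]) g hg
  rw [xq_of' e] at this
  exact absurd this (by decide)

theorem zero_ee [Lo2 R] [Finite M] (k : Ch d ρ) (hc : Zc Hw ρ c) (h0 : ∀ i, c (ee d i) = 0) :
    ∀ g ∈ Hw, c g = 0 := by
  refine zero_of k inf_le_left hc (Set.range (ee d)) ?_
    fun x hx q => (ee_spec d).det x hx fun j => q _ ⟨j, rfl⟩ (ee_mem d j)
  rintro g ⟨j, rfl⟩
  exact h0 j

end Pool.Agent.Lib.MP_696deb_nt.EV.D
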