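import Pool.Agent.Lib.MP_696deb_nt.ED.N3
import Pool.Agent.Lib.MP_696deb_nt.ED.Q2
import Pool.Agent.Lib.MP_23455a_nt.H4.CNc

/-! Kummer classes whose ideals are powers. -/

set_option autoImplicit false

open scoped Classical NNReal nonZeroDivisors
open Finset NumberField

namespace Pool.Agent.Lib.MP_696deb_nt.EV.D

variable {d : ℤ} {j : ℕ} {H : Subgroup Gam} {a z : Qbar} {c κ η η' : Gam → ZMod (3 ^ j)} {g : Gam}

open MP_580eba_nt in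
theorem n4_cl (K : Type) [Field K] [NumberField K] : ∃ h : ℕ, h ≠ 0 ∧ ∀ (a : K) (N : ℤ),
    (∀ v, N ∣ ord v a) → ∃ z : K, z ≠ 0 ∧ ∀ v, N * ord v z = h * ord v a := by
  have : Finite ((FractionalIdeal (𝓞 K)⁰ K)ˣ ⧸ (toPrincipalIdeal (𝓞 K) K).range) :=
    Finite.of_equiv _ (ClassGroup.equiv K).toEquiv
  refine ⟨(toPrincipalIdeal (𝓞 K) K).range.index, Subgroup.index_ne_zero_of_finite,
    fun a N h => ?_⟩
  have h1 : ∀ᶠ v : Pl K in Filter.cofinite, ord v a / N = 0 :=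
    Filter.eventually_cofinite.2 ((finite_ord a).subset fun v hv e => hv (by
      rw [e, Int.zero_ediv]))
  obtain ⟨z, hz⟩ := Subgroup.pow_index_mem (H := (toPrincipalIdeal (𝓞 K) K).range)
    (Units.mk0 (∏ᶠ v : Pl K, (v.asIdeal : FractionalIdeal (𝓞 K)⁰ K) ^ (ord v a / N))
      (finprod_ne_zero fun v => zpow_ne_zero _ (FractionalIdeal.coeIdeal_ne_zero.2 v.ne_bot)))
  refine ⟨z, z.ne_zero, fun v => ?_⟩
  have h2 := congrArg (fun J : (FractionalIdeal (𝓞 K)⁰ K)ˣ => FractionalIdeal.count K v J.1) hz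
  simp only [coe_toPrincipalIdeal, Units.val_pow_eq_pow_val, Units.val_mk0] at h2
  rw [count_eq_ord v z.ne_zero, FractionalIdeal.count_pow,
    FractionalIdeal.count_finprod K v _ h1] at h2
  rw [h2, mul_left_comm, Int.mul_ediv_cancel' (h v)]

open MP_580eba_nt in
theorem n4_pow (hH : Op H) : ∃ h : ℕ, h ≠ 0 ∧ ∀ (a : Qbar) (N : ℕ), a ≠ 0 → Fx H a →
    (∀ v : Plc, ∃ y, Fx H y ∧ v.V a = v.V y ^ N) →
    ∃ z, z ≠ 0 ∧ Fx H z ∧ ∀ v : Plc, v.V (a ^ h / z ^ N) = 1 := by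
  have := B2.nf_Kf hH
  obtain ⟨h, h0, k⟩ := n4_cl (B2.Kf H)
  refine ⟨h, h0, fun a N a0 ha hv => ?_⟩
  lift a to B2.Kf H using B2.b3a_fx.1 ha
  have a1 : a ≠ 0 := fun e => a0 (congrArg Subtype.val e)
  obtain ⟨z, z0, hz⟩ := k a N fun v => by
    obtain ⟨u, hu⟩ := B2.exists_over v
    obtain ⟨y, hy, e⟩ := hv u
    lift y to B2.Kf H using B2.b3a_fx.1 hy
    have y0 : y ^ N ≠ 0 := fun k => u.V.ne_zero_iff.2 a0 (by
      rw [e, ← map_pow, ← IntermediateField.coe_pow, k]; simp)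
    have := (ord_eq_zero_iff v (div_ne_zero a1 y0)).2 ((hu.eq_one _).2 (by
      rw [IntermediateField.coe_div, IntermediateField.coe_pow, map_div₀, map_pow, ← e,
        div_self (u.V.ne_zero_iff.2 a0)]))
    rw [ord_div v a1 y0, ord_pow, sub_eq_zero] at this
    exact ⟨_, this⟩
  refine ⟨z, fun e => z0 (Subtype.ext e), B2.fx_Kf z, fun u => ?_⟩
  obtain ⟨v, hu⟩ := B2.exists_un (H := H) u
  have := (hu.eq_one _).1 ((ord_eq_zero_iff v (div_ne_zero (pow_ne_zero h a1) (pow_ne_zero N z0))).1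
    (by rw [ord_div v (pow_ne_zero h a1) (pow_ne_zero N z0), ord_pow, ord_pow, hz, sub_self]))
  simpa using this

theorem kum_zpow (h : Kum j H a κ) (n : ℤ) : Kum j H (a ^ n) fun g => n * κ g := by
  obtain ⟨r, r0, r1, r2⟩ := h
  refine ⟨r ^ n, zpow_ne_zero _ r0, by
    rw [← r1, ← zpow_natCast, ← zpow_natCast, ← zpow_mul, ← zpow_mul, mul_comm], fun g hg => ?_⟩
  rw [map_zpow₀, r2 g hg, mul_zpow, lg_spec (e := j) (x := (_ ^ (κ g).val) ^ n) (by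
    rw [← zpow_natCast, ← zpow_mul, mul_comm, zpow_mul, zpow_natCast, H3.b3b_pow, one_zpow]),
    lg_zpow (H3.b3b_pow j _), kf_lg]

theorem kum_adj (h : Kum j H a κ) (h0 : z ≠ 0) (hz : Fx H z) : Kum j H (a * z ^ 3 ^ j) κ := by
  obtain ⟨r, r0, r1, r2⟩ := h
  exact ⟨r * z, mul_ne_zero r0 h0, by rw [mul_pow, r1], fun g hg => by
    rw [map_mul, r2 g hg, hz g hg, mul_right_comm]⟩

theorem kum_congr (h : Kum j H a κ) (e : ∀ g ∈ H, c g = κ g) : Kum j H a c :=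
  h.imp fun _ k => ⟨k.1, k.2.1, fun g hg => e g hg ▸ k.2.2 g hg⟩

theorem kum_conj [H.Normal] (h : Kum j H a κ) (g : Gam) :
    Kum j H (g a) fun x => cy j g * κ (g⁻¹ * x * g) := by
  obtain ⟨r, r0, r1, r2⟩ := h
  exact ⟨g r, (map_ne_zero g).2 r0, by rw [← map_pow, r1], fun x hx => by
    rw [H3.zva_app, r2 _ (Subgroup.Normal.conj_mem' ‹_› x hx g), map_mul, H3.smul_zeta_val]⟩

theorem n4_kum (h : Zc G (fun g => xq d _ g * cy j g) c) : ∃ a, Kum j (HF d) a c :=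
  H3.kum_surj (op_HF d).closed (h.1.mono (HF_le d)) fun g hg k hk => by
    simp only [h.2 g hg.1 k hk.1, xq_of (mem_HF.1 hg).2, one_mul, smul_eq_mul]

theorem n4_odd (h : Zc G (fun g => xq d _ g * cy j g) c) (k : Kum j (HF d) a c) (hg : g ∈ G)
    (e : chi d g = -1) : ∃ y, Fx (HF d) y ∧ y ^ 3 ^ j = a * g a := by
  have := normal_HF d
  refine (k.mul (kum_conj k g)).pow_iff.2 ⟨-c g, fun x hx => ?_⟩
  have h1 := h.2 x hx.1 g hg
  have h2 := h.2 g hg _ (this.conj_mem' x hx g).1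
  rw [← mul_assoc, ← mul_assoc, mul_inv_cancel, one_mul, h1] at h2
  simp only [xq_of (mem_HF.1 hx).2, xq_of' e, smul_eq_mul] at h2
  simp only [Pi.add_apply]
  linear_combination h2

theorem n4_dec (h1 : Sm Hw η) (h2 : IsHom Hw η) (h3 : ∀ σ ∈ G ⊓ Ine w3, η σ = 0) (k1 : Sm Hw η')
    (k2 : IsHom Hw η') (k3 : ∀ σ ∈ G ⊓ Ine w3, η' σ = 0) :
    ∃ φ, ∀ g ∈ Hw, ∃ n : ℕ, η g = n * η φ ∧ η' g = n * η' φ := by
  obtain ⟨φ, f1, f2⟩ := p1_frob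
  refine ⟨φ, fun g hg => ?_⟩
  obtain ⟨U, hU, -, e⟩ := h1.comp₂ k1 Prod.mk
  obtain ⟨n, σ, s1, ⟨s2, s3⟩, -⟩ := B2.dec_gen f2 hg.2 (hU.inf op_G)
  have s4 : σ ∈ G := by
    have := G.mul_mem (G.inv_mem (G.pow_mem f1 n)) (G.mul_mem hg.1 (G.inv_mem s3))
    simpa [mul_assoc] using this
  have m : φ ∈ Hw := ⟨f1, f2.1⟩
  have s5 : σ ∈ Hw := ⟨s4, B2.Ine_le _ s1⟩
  have p : ∀ {η : Gam → ZMod (3 ^ j)}, IsHom Hw η → ∀ n : ℕ, η (φ ^ n) = n * η φ := fun h n => by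
    induction n with
    | zero => simpa using h 1 (one_mem _) 1 (one_mem _)
    | succ n ih => rw [pow_succ, h _ (pow_mem m n) _ m, ih, Nat.cast_succ, add_one_mul]
  have := e _ (mul_mem (pow_mem m n) s5) g hg s2
  rw [Prod.mk.injEq, h2 _ (pow_mem m n) _ s5, k2 _ (pow_mem m n) _ s5, p h2, p k2, h3 σ ⟨s4, s1⟩,
    k3 σ ⟨s4, s1⟩, add_zero, add_zero] at this
  exact ⟨n, this.1.symm, this.2.symm⟩

/-- One unramified character of full order is enough. -/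
theorem spl_eta (h1 : Sm Hw η) (h2 : IsHom Hw η) (h3 : ∀ σ ∈ G ⊓ Ine w3, η σ = 0) (hg : g ∈ Hw)
    (u : IsUnit (η g)) (h : Spl j Hw (cup j η c)) (k1 : Sm Hw η') (k2 : IsHom Hw η')
    (k3 : ∀ σ ∈ G ⊓ Ine w3, η' σ = 0) : Spl j Hw (cup j η' c) := by
  obtain ⟨φ, k⟩ := n4_dec h1 h2 h3 k1 k2 k3
  obtain ⟨n, e, -⟩ := k g hg
  obtain ⟨x, hx⟩ := (isUnit_of_mul_isUnit_right (e ▸ u)).exists_left_inv
  obtain ⟨b, b1, b2⟩ := h
  refine ⟨fun g => η' φ * x * b g, b1.comp _, fun s hs t ht => ?_⟩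
  obtain ⟨n, e1, e2⟩ := k s hs
  have := b2 s hs t ht
  rw [cup, e1] at this
  rw [cup, e2]
  linear_combination η' φ * x * this - n * η' φ * cy j s * c t * hx

theorem n4_w (h : Kum j Hw a c) (k : ∀ η : Gam → ZMod (3 ^ j), Sm Hw η → IsHom Hw η →
    (∀ σ ∈ G ⊓ Ine w3, η σ = 0) → Spl j Hw (cup j η c)) :
    ∃ n : ℤ, w3.V a ^ 2 = w3.V (3 ^ n) ^ 3 ^ j := by
  obtain ⟨F⟩ := H3.exists_cft
  obtain ⟨ω, o1, o2, o3, o4⟩ := H3.T.cnc_om j w3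
  obtain ⟨n, hn⟩ := V_fx_w3 h.fx.2 h.fx.1
  obtain ⟨κ, hκ⟩ := H3.exists_kum (H := ⊤) j (a := 3) three_ne_zero fun g _ => map_ofNat g 3
  have p1 : Sm Hw ω := o1.mono inf_le_right
  have p2 : IsHom Hw ω := fun g hg h hh => o2 g hg.2 h hh.2
  have p3 : ∀ σ ∈ G ⊓ Ine w3, ω σ = 0 := fun σ hσ => o4 σ hσ.2
  have q1 : Sm (⊤ ⊓ Dec w3) ω := o1.mono inf_le_right
  have q2 : IsHom (⊤ ⊓ Dec w3) ω := fun g hg h hh => o2 g hg.2 h hh.2
  have q3 := hκ.mono (D := ⊤ ⊓ Dec w3) le_top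
  have q4 := hκ.mono (D := Hw) le_top
  have h1 := F.kum (H := ⊤) (φ := H3.fr w3) 1 isOpen_univ le_top trivial (by
    simpa using H3.fr_spec w3) q1 q2 o4 q3 (by simpa [w3_p] using w3.hV)
  have h2 := F.res op_G le_top (H3.c2_cup q1 q2 q3.sm q3.coc)
  have c1 := H3.c2_cup p1 p2 h.sm h.coc
  have c2 := H3.c2_cup p1 p2 q4.sm q4.coc
  have h3 := F.unit op_G p1 p2 p3 ((kum_zpow h 2).mul (kum_zpow q4 (-n))) (by
    rw [map_mul, map_zpow₀, map_zpow₀, hn, ← p1_V_sq, ← zpow_natCast, ← zpow_mul, ← zpow_mul,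
      ← zpow_add₀ g1_w_pos.ne']
    simp [mul_comm])
  rw [F.congr (c' := (fun s t => ((2 : ℤ) : ZMod (3 ^ j)) * cup j ω c s t) +
      fun s t => ((-n : ℤ) : ZMod (3 ^ j)) * cup j ω κ s t) (fun s _ t _ => by
      simp only [cup, Pi.add_apply]; ring), F.add op_G (c1.smul _) (c2.smul _), F.smul op_G c1,
    F.smul op_G c2, (F.zero_iff op_G c1).2 (k ω p1 p2 p3), h2, h1, o3, top_inf_eq,
    relIndex_w3] at h3
  obtain ⟨m, rfl⟩ := (ZMod.intCast_zmod_eq_zero_iff_dvd n (3 ^ j)).1 (H3.T.cnd_two (by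
    push_cast at h3
    linear_combination -h3))
  refine ⟨m, ?_⟩
  rw [hn, map_zpow₀, ← p1_V_sq, ← zpow_natCast, ← zpow_natCast, ← zpow_natCast, ← zpow_mul,
    ← zpow_mul, ← zpow_mul]
  congr 1
  ring

theorem Uc.val (h : Uc d j c) (k : Kum j (HF d) a c) (v : Plc) :
    ∃ y, Fx (HF d) y ∧ v.V (a ^ 2) = v.V y ^ 3 ^ j := by
  have N := normal_HF d
  rw [map_pow]
  by_cases hv : v.p = 3
  swap
  · obtain ⟨r, r0, rfl, r2⟩ := k
    obtain ⟨π, p1, -, -, p2⟩ := B2.exists_unif (op_HF d) v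
    obtain ⟨n, hn⟩ := p2 r (fun σ hσ => by
      rw [r2 σ hσ.1, h.unr v hv σ hσ, ZMod.val_zero, pow_zero, mul_one]) r0
    exact ⟨(π ^ n) ^ 2, fun g hg => by rw [map_pow, map_zpow₀, p1 g hg], by
      rw [map_pow, map_pow, map_zpow₀, hn, pow_right_comm]⟩
  by_cases hs : Spt d v
  swap
  · obtain ⟨g, hg, e⟩ := exists_ns hs
    obtain ⟨y, h1, h2⟩ := n4_odd h.zc k hg.1 e
    exact ⟨y, h1, by rw [← map_pow v.V y, h2, map_mul, B2.mem_Dec.1 hg.2, sq]⟩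
  obtain ⟨g, hg, rfl⟩ := conj_w3 hv
  have s : Spt d w3 := inv_smul_smul g w3 ▸ hs.smul (inv_mem hg)
  obtain ⟨n, hn⟩ := n4_w (k.mono s.le) (h.w s)
  have f3 : ∀ g : Gam, g (3 ^ n) = 3 ^ n := fun g => by rw [map_zpow₀, map_ofNat]
  rcases chi_or d g⁻¹ with e | e
  · exact ⟨3 ^ n, fun g _ => f3 g, by
      rw [B2.smul_V, B2.smul_V, f3, k.fx.2 _ (mem_HF.2 ⟨inv_mem hg, e⟩), hn]⟩
  · obtain ⟨y, h1, h2⟩ := n4_odd h.zc k (inv_mem hg) e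
    refine ⟨g (y ^ 2 / 3 ^ n), fun x hx => by
      rw [H3.zva_app, map_div₀ (g⁻¹ * x * g), map_pow, f3, h1 _ (N.conj_mem' x hx g)], ?_⟩
    rw [B2.smul_V, B2.smul_V, ← AlgEquiv.mul_apply, inv_mul_cancel, AlgEquiv.one_apply, map_div₀,
      div_pow, ← hn, map_pow, pow_right_comm, ← map_pow w3.V y, h2, map_mul, mul_pow,
      mul_div_cancel_left₀ _ (pow_ne_zero 2 (w3.V.ne_zero_iff.2 k.fx.1))]

/-- The upper bound. -/
theorem ub_fin (h : Fd d) : ∃ (N : ℕ) (ε : Qbar), N ≠ 0 ∧ ε ≠ 0 ∧ Fx (HF d) ε ∧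
    ∀ (j : ℕ) (κ c : Gam → ZMod (3 ^ j)), Kum j (HF d) ε κ → Uc d j c →
      ∃ s x, ∀ g ∈ HF d, N * c g = s * κ g + (cy j g - 1) * x := by
  obtain ⟨N, ε, N0, e1, e2, e3⟩ := unit_rank h
  obtain ⟨n, n0, k⟩ := n4_pow (op_HF d)
  refine ⟨2 * n * N, ε, by positivity, w3.V.ne_zero_iff.1 (e2 w3 ▸ one_ne_zero),
    fun g hg => e1 g (HF_le_dp h hg), fun j κ c hκ hc => ?_⟩
  obtain ⟨a, ha⟩ := n4_kum hc.zc
  have f2 : Fx (HF d) (a ^ 2) := fun g hg => by rw [map_pow, ha.fx.2 g hg]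
  obtain ⟨z, z0, z1, z2⟩ := k _ _ (pow_ne_zero 2 ha.fx.1) f2 (hc.val ha)
  obtain ⟨t, ht⟩ := e3 _ (fun g hg => by rw [map_div₀, map_pow, map_pow g z, f2 g hg, z1 g hg]) z2
  have h1 := kum_adj (kum_zpow hκ t) (pow_ne_zero N z0) fun g hg => by rw [map_pow, z1 g hg]
  rw [← ht, pow_right_comm z, ← mul_pow, div_mul_cancel₀ _ (pow_ne_zero _ z0), ← pow_mul, ← pow_mul,
    ← mul_assoc, ← zpow_natCast] at h1
  obtain ⟨x, hx⟩ := (kum_zpow ha _).sub h1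
  exact ⟨t, x, fun g hg => by rw [← hx g hg, Int.cast_natCast, add_sub_cancel]⟩

theorem ch_cy (d : ℤ) (j : ℕ) : Ch d fun g => xq d (ZMod (3 ^ j)) g * cy j g :=
  ((ch_xq d).mul_chr ⟨H3.sm_cy j, g1_cy_one j, fun g _ h _ => H3.b3b_cy j g h,
    fun _ hg => ⟨j, cy_three hg⟩⟩).congr fun _ _ => mul_comm _ _

/-- The number of classes of units. -/
theorem uc_card (h : Fd d) (hj : hf d ≤ j) : ∃ (A : Type) (c : A → Gam → ZMod (3 ^ j)),
    3 ^ (j + hf d) ≤ Nat.card A ∧ (∀ i, Uc d j (c i)) ∧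
      ∀ i i' x, (∀ g ∈ HF d, c i g - c i' g = (cy j g - 1) * x) → i = i' := by
  have N := normal_HF d
  obtain ⟨F⟩ := H3.exists_cft
  obtain ⟨-, g, -, -, -, hg, e⟩ := exists_g0 h
  obtain ⟨A, a, h1, h2, h3⟩ := kum_HF h hg e hj
  have key : ∀ i, ∃ c, Zc G (fun g => xq d _ g * cy j g) c ∧ Kum j (HF d) (a i ^ 2) c := fun i => by
    obtain ⟨a0, a1, ⟨y, y1, y2⟩, -⟩ := h2 i
    obtain ⟨κ, hκ⟩ := H3.exists_kum j a0 a1
    obtain ⟨c, c1, c2⟩ := exists_cor (c := κ) (ch_cy d j) le_rfl hg e ⟨hκ.sm, fun s hs t ht => by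
      simp only [hκ.coc s hs t ht, xq_of (mem_HF.1 hs).2, one_mul, smul_eq_mul]⟩
    have y0 : y ≠ 0 := fun k => mul_ne_zero a0 ((map_ne_zero g).2 a0) (by
      rw [y2, k, zero_pow (by positivity)])
    have := kum_adj (hκ.mul (kum_zpow (kum_conj hκ g) (-1))) y0 fun g _ => y1 g trivial
    rw [← y2, zpow_neg_one, mul_mul_mul_comm, inv_mul_cancel₀ ((map_ne_zero g).2 a0), mul_one,
      ← sq] at this
    refine ⟨c, c1, kum_congr this fun s hs => ?_⟩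
    rw [c2 s hs, xq_of' e]
    simp
  choose c c1 c2 using key
  refine ⟨A, c, h1, fun i => ?_, fun i i' x hx => ?_⟩
  · have key : ∀ v : Plc, ∃ u, Kum j (HF d) u (c i) ∧ v.V u = 1 := fun v => by
      obtain ⟨t, ht⟩ := (h2 i).2.2.2 v
      have p0 : (v.p : ℝ≥0) ≠ 0 := Nat.cast_ne_zero.2 v.prime.ne_zero
      refine ⟨_, kum_adj (c2 i) (z := (v.p : Qbar) ^ (-t))
        (zpow_ne_zero _ (Nat.cast_ne_zero.2 v.prime.ne_zero))
        fun g _ => by rw [map_zpow₀, map_natCast], ?_⟩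
      rw [map_mul, map_pow, ht, map_pow, map_zpow₀, v.hV, inv_zpow', neg_neg, ← zpow_natCast,
        ← zpow_mul, mul_comm t]
      push_cast
      exact inv_mul_cancel₀ (zpow_ne_zero _ p0)
    refine ⟨c1 i, fun v hv => (key v).elim fun u hu => hu.1.unr hv hu.2, fun s η e1 e2 e3 => ?_⟩
    obtain ⟨u, u1, u2⟩ := key w3
    have u3 := u1.mono s.le
    exact (F.zero_iff op_G (H3.c2_cup e1 e2 u3.sm u3.coc)).1 (F.unit op_G e1 e2 e3 u3 u2)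
  · obtain ⟨r, r1, r2⟩ := ((c2 i).mul (kum_zpow (c2 i') (-1))).pow_iff.2 ⟨x, fun g hg => by
      rw [← hx g hg]; simp [sub_eq_add_neg]⟩
    obtain ⟨m, hm⟩ := H3.T.cnd_three j
    have a0 := (h2 i).1
    have a1 := (h2 i').1
    refine h3 i i' (a i / a i' / r ^ m) (fun g hg => by
      rw [map_div₀, map_div₀, map_pow, r1 g hg, (h2 i).2.1 g hg, (h2 i').2.1 g hg]) ?_
    rw [div_pow, pow_right_comm, r2, hm, zpow_neg_one, ← div_eq_mul_inv, ← div_pow, ← pow_mul,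
      pow_succ, mul_div_cancel_left₀ _ (pow_ne_zero _ (div_ne_zero a0 a1)), mul_div_cancel₀ _ a1]

end Pool.Agent.Lib.MP_696deb_nt.EV.D
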