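import Pool.Agent.Lib.MP_696deb_nt.ED.Main
import Pool.Agent.Lib.MP_696deb_nt.Y3.K0
import Pool.Agent.Lib.MP_696deb_nt.Y3.B0

/-! The end of the argument in terms of the sums of logarithmic derivatives. -/

set_option autoImplicit false

open scoped Classical NNReal
open Finset

namespace Pool.Agent.Lib.MP_696deb_nt.EV.D

theorem not_hz_tw (t : Tw) (hN : ∀ q : ℕ, t.N.factorization q < 3) (h : CX.GroA t.tw 2)
    {φ : O → O} (hφ : Phi t φ) : ¬ EV.Hz (9 * t.M) φ := fun hz => by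
  obtain ⟨c, rfl, rfl⟩ := exists_cb t hN hφ
  let x : Cx := ⟨c, fun k => (c.exists_lv k).some, fun k => (c.exists_lv k).some.exists_bw.some⟩
  exact Dat.Ok1.false ⟨x.ok, x.ok_sel h, x.ok_erl (c.van hz)⟩

/-- The parameters of the pair `(d, n)`. -/
def twOf {d : ℤ} {n : ℕ} (hd : Fd d) (hn : n ≠ 0) {δ : Qbar} (hδ : δ ^ 2 = d) : Tw :=
  ⟨n, hn, d, hd, d, δ, hδ, 1, 1, one_ne_zero, one_ne_zero, .inl rfl⟩

theorem not_hz {d : ℤ} {n : ℕ} (hd : Fd d) (hn : n ≠ 0) (hN : ∀ q : ℕ, n.factorization q < 3)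
    {φ : O → O} (hφ : EV.Phi n φ) {δ : Qbar} (hδ : δ ^ 2 = d) (h : CX.GroA (CX.ac δ n) 2) :
    ¬ EV.Hz (9 * n * d.natAbs) (Y3.qt d φ) := by
  rw [mul_assoc]
  exact not_hz_tw (twOf hd hn hδ) hN h (phi_of (twOf hd hn hδ) hφ)

theorem not_hz_gro {d : ℤ} {n : ℕ} (hd : Fd d) (hn : n ≠ 0) (hN : ∀ q : ℕ, n.factorization q < 3)
    {φ : O → O} (hφ : EV.Phi n φ) (h : Y3.GroD d n 2) :
    ¬ EV.Hz (9 * n * d.natAbs) (Y3.qt d φ) := by
  obtain ⟨δ, hδ⟩ := IsAlgClosed.exists_pow_nat_eq (d : Qbar) two_pos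
  exact not_hz hd hn hN hφ hδ (h δ hδ)

end Pool.Agent.Lib.MP_696deb_nt.EV.D
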