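import Pool.Agent.Lib.MP_696deb_nt.ED.Q2
import Pool.Agent.Lib.MP_696deb_nt.EV.Det

/-! Generators and linear forms. -/

set_option autoImplicit false

open scoped Classical NNReal
open Finset

namespace Pool.Agent.Lib.MP_696deb_nt.EV.D

variable {R : Type} [CommRing R] {d : ℤ} {ι J : Type} {t : ι → TP} {γ : J → Gam} {ρ ρ' : Gam → R}
  {H : Subgroup Gam} {M : Type} [AddCommGroup M] [Module R M] {c c' : Gam → M} {g h σ : Gam}
  {v : Plc} {r : TP}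

theorem Gens.zero [Lo2 R] [Finite M] (hγ : Gens d t γ) (k : Ch d ρ) (hc : Zc G ρ c) (hu : Unr t c)
    (h0 : ∀ j, c (γ j) = 0) : ∀ g ∈ G, c g = 0 := by
  refine zero_of k le_rfl hc ({σ | ∃ v, Off t v ∧ σ ∈ Ine v} ∪ Set.range γ) ?_
    fun x hx e => hγ.det x hx (fun v hv σ hσ => e σ (Or.inl ⟨v, hv, hσ⟩) (ine_le hv.1 hσ))
      fun j => e _ (Or.inr ⟨j, rfl⟩) (hγ.mem j)
  rintro g (⟨v, hv, hσ⟩ | ⟨j, rfl⟩)
  exacts [hu v hv g hσ, h0 j]

/-- A cocycle that vanishes at the tame generator is unramified. -/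
theorem ine_zero [Lo2 R] [Finite M] (k : Ch d ρ) (hs : Spt d r.v) (hc : Zc (G ⊓ Dec r.v) ρ c)
    (h0 : c r.σ = 0) : ∀ σ ∈ Ine r.v, c σ = 0 := fun _ hσ =>
  (Lo2.kill R).elim fun _ hm => r.tm.zero_ine (hm M) (k.act hs.le) (zc_iff.1 hc) h0 hσ

/-- A local cocycle at a split prime is determined by two values. -/
theorem dec_zero [Lo2 R] [Finite M] (k : Ch d ρ) (hs : Spt d r.v) (hc : Zc (G ⊓ Dec r.v) ρ c)
    (h0 : c r.σ = 0) (h1 : c r.φ = 0) : ∀ g ∈ G ⊓ Dec r.v, c g = 0 := fun _ hg =>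
  (Lo2.kill R).elim fun _ hm => r.tm.eq_zero (hm M) (k.act hs.le) (zc_iff.1 hc) h0 h1 hg

/-- At a prime that does not split and where the character is unramified all cocycles are
unramified. -/
theorem ine_free [Lo2 R] [Finite M] (k : Ch d ρ) (hv : v.p ≠ 3) (hs : ¬ Spt d v)
    (hc : Zc (G ⊓ Dec v) ρ c) (h0 : ∀ σ ∈ Ine v, ρ σ - 1 = 0) : ∀ σ ∈ Ine v, c σ = 0 := by
  obtain ⟨x, hx⟩ := acy k hv hs hc
  exact fun σ hσ => by rw [hx σ ⟨ine_le hv hσ, B2.Ine_le v hσ⟩, h0 σ hσ, zero_smul]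

theorem unr_of_zero [Lo2 R] [Finite M] {ι' : Type} {t' : ι' → TP} (k : Ch d ρ)
    (ht : ∀ v, Off t v → Off t' v ∨ v.V (io r.π) < 1) (hs : Spt d r.v)
    (h1 : ∀ σ ∈ Ine r.v, ρ σ - 1 = 0) (hc : Zc G ρ c) (hu : Unr t' c) (h0 : c r.σ = 0) :
    Unr t c := fun v hv => (ht v hv).elim (hu v) fun e => by
  obtain ⟨g, hg, rfl⟩ := r.conj e
  exact k.unr_smul hc r.odd h1 (ine_zero k hs (hc.mono inf_le_left) h0) hg

theorem unr_le {N : Type} [Zero N] {f : Gam → N} {ι' : Type} {t' : ι' → TP}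
    (ht : ∀ v, Off t' v → Off t v) (hu : Unr t f) : Unr t' f := fun v hv => hu v (ht v hv)

theorem off_some {t' : Option ι → TP} (ht : ∀ i, t' (some i) = t i) :
    Off t' v ↔ Off t v ∧ v.V (io (t' none).π) = 1 := by
  simp only [Off, Option.forall, ht]
  tauto

theorem q3_off {t' : Option ι → TP} (ht : ∀ i, t' (some i) = t i) (v : Plc) (hv : Off t v) :
    Off t' v ∨ v.V (io (t' none).π) < 1 := by
  obtain ⟨s, rfl⟩ := exists_tp_v hv.1
  exact (em _).symm.imp (fun e => (off_some ht).2 ⟨hv, s.V_eq.2 e⟩) s.V_lt.2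

theorem q3_lo : Lo2 (ZMod 3) :=
  ⟨inferInstance, inferInstance, by simp only [isUnit_iff_ne_zero]; decide,
    by simp only [isUnit_iff_ne_zero]; decide⟩

theorem q3_cases {κ : Type} (j : Option κ ⊕ Fin 2) : j = .inl none ∨ ∃ i, j = old i := by
  rcases j with (_ | i) | i
  exacts [.inl rfl, .inr ⟨.inl i, rfl⟩, .inr ⟨.inr i, rfl⟩]

theorem Fix.mono {ι' : Type} {t' : ι' → TP} (k : Fix d t) (ht : ∀ v, Off t' v → Off t v) :
    Fix d t' := fun r hs ho =>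
  (k r hs (ht _ ho)).imp fun _ hc => ⟨hc.1, hc.2.1, fun v hv => hc.2.2 v (ht v hv)⟩

/-- One more prime that does not split. -/
theorem Gens.free (hd : Fd d) (hγ : Gens d t γ) {t' : Option ι → TP} (ht : ∀ i, t' (some i) = t i)
    (hs : ¬ Spt d (t' none).v) : Gens d t' γ := by
  have ho : ∀ v, Off t' v → Off t v := fun v hv => ((off_some ht).1 hv).1
  have := q3_lo
  refine ⟨fun v hv => hγ.ram v (ho v hv), hγ.fix.mono ho, hγ.mem, fun c hc hu =>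
    hγ.det c hc fun v hv => (q3_off ht v hv).elim (hu v) fun e => ?_, fun x =>
      (hγ.sur x).imp fun c hc => ⟨hc.1, unr_le ho hc.2.1, hc.2.2⟩⟩
  refine ine_free (ch_xq d) hv.1 (fun k => ?_) (Zc.mono hc inf_le_left) fun σ hσ =>
    sub_eq_zero.2 (xq_of (chi_unr hd.fund (hγ.ram v hv) hσ))
  obtain ⟨g, hg, rfl⟩ := (t' none).conj e
  exact hs (inv_smul_smul g (t' none).v ▸ k.smul (inv_mem hg))

/-- One more split prime. -/
theorem Gens.step {κ : Type} {γ : κ ⊕ Fin 2 → Gam} (hγ : Gens d t γ) {t' : Option ι → TP}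
    (ht : ∀ i, t' (some i) = t i) (hs : Spt d (t' none).v) (ho : Off t (t' none).v)
    {γ' : Option κ ⊕ Fin 2 → Gam} (h1 : ∀ j, γ' (old j) = γ j)
    (h2 : γ' (.inl none) = (t' none).σ) : Gens d t' γ' := by
  have hl : ∀ v, Off t' v → Off t v := fun v hv => ((off_some ht).1 hv).1
  have := q3_lo
  refine ⟨fun v hv => hγ.ram v (hl v hv), hγ.fix.mono hl, fun j => ?_, fun c hc hu h0 =>
    hγ.det c hc (unr_of_zero (ch_xq d) (q3_off ht) hs (fun σ hσ =>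
      sub_eq_zero.2 (hs.xq ((t' none).tm.ine_le hσ))) hc hu (h2 ▸ h0 _))
      fun j => h1 j ▸ h0 _, fun x => ?_⟩
  · rcases q3_cases j with rfl | ⟨i, rfl⟩
    exacts [h2 ▸ (t' none).σ_mem, h1 i ▸ hγ.mem i]
  obtain ⟨c, c1, c2, c3⟩ := hγ.fix _ hs ho
  obtain ⟨b, b1, b2, b3⟩ := hγ.sur fun j => x (old j) - x (.inl none) * c (t' none).σ * c (γ j)
  refine ⟨_, Zc.add b1 (Zc.smul c1 (x (.inl none) * c (t' none).σ)), fun v hv σ hσ => ?_,
    fun j => ?_⟩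
  · beta_reduce
    rw [b2 v (hl v hv) σ hσ, c3 v (hl v hv) ((off_some ht).1 hv).2 σ hσ, smul_zero, add_zero]
  · rcases q3_cases j with rfl | ⟨i, rfl⟩
    · rw [h2, b2 _ ho _ (t' none).σ_ine, zero_add, smul_eq_mul, mul_assoc, F3_sq c2, mul_one]
    · rw [h1, b3, smul_eq_mul, sub_add_cancel]

variable [Fintype J] {L L' : Gam → J → R}

theorem Val.map {R' : Type} [CommRing R'] (f : R →+* R') (k : Val t γ ρ L) :
    Val t γ (fun g => f (ρ g)) fun g j => f (L g j) := by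
  intro M _ _ _ c hc hu g hg
  let _ : Module R M := Module.compHom M f
  exact k M c hc hu g hg

theorem Val.congr (k : Val t γ ρ L) (e : ∀ g ∈ G, ρ' g = ρ g) : Val t γ ρ' L :=
  fun M _ _ _ c hc => k M c (hc.congr (fun g hg => (e g hg).symm) fun _ _ => rfl)

theorem Val.le {ι' : Type} {t' : ι' → TP} (k : Val t γ ρ L) (ht : ∀ v, Off t v → Off t' v) :
    Val t' γ ρ L := fun M _ _ _ c hc hu => k M c hc (unr_le ht hu)

theorem exists_val [Lo2 R] (hγ : Gens d t γ) (k : Ch d ρ) : ∃ L, Val t γ ρ L := by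
  have e := fun g (hg : g ∈ G) => p2_nat (t := t) (ρ := ρ) (K := Empty) g (fun _ => 0) (fun _ => 1)
    γ fun M _ _ _ c hc hu h0 => by rw [hγ.zero k hc hu h0 g hg, Fintype.sum_empty]
  choose L hL using e
  refine ⟨fun g => if hg : g ∈ G then L g hg else 0, fun M _ _ _ c hc hu g hg => ?_⟩
  beta_reduce
  rw [hL g hg M c hc hu, Fintype.sum_empty, zero_add, dif_pos hg]

theorem Val.ext [Lo2 R] {κ : Type} [Fintype κ] {γ : κ ⊕ Fin 2 → Gam} {L : Gam → κ ⊕ Fin 2 → R}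
    (hL : Val t γ ρ L) (k : Ch d ρ) {t' : Option ι → TP} (ht : ∀ i, t' (some i) = t i)
    (hs : Spt d (t' none).v) (h0 : ∀ σ ∈ Ine (t' none).v, ρ σ - 1 = 0)
    {γ' : Option κ ⊕ Fin 2 → Gam} (h1 : ∀ j, γ' (old j) = γ j)
    (h2 : γ' (.inl none) = (t' none).σ) :
    ∃ L', Val t' γ' ρ L' ∧ ∀ g j, L' g (old j) = L g j := by
  have e := fun g (hg : g ∈ G) => p2_nat (t := t') (ρ := ρ) (J := Unit) g (L g) γ
    (fun _ => (t' none).σ) fun M _ _ _ c hc hu h3 =>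
      hL M c hc (unr_of_zero k (q3_off ht) hs h0 hc hu (h3 ())) g hg
  choose β hβ using e
  refine ⟨fun g => Sum.elim (fun o => o.elim (if hg : g ∈ G then β g hg () else 0)
    fun i => L g (Sum.inl i)) fun j => L g (Sum.inr j), fun M _ _ _ c hc hu g hg => ?_,
    fun g j => by rcases j with i | j <;> rfl⟩
  have e1 : ∀ i, γ' (.inl (some i)) = γ (.inl i) := fun i => h1 (.inl i)
  have e2 : ∀ i, γ' (.inr i) = γ (.inr i) := fun i => h1 (.inr i)
  rw [hβ g hg M c hc hu]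
  simp only [Fintype.sum_sum_type, Fintype.sum_option, Sum.elim_inl, Sum.elim_inr, Option.elim,
    e1, e2, h2, dif_pos hg, Fintype.sum_unique]
  abel

variable {I : Ideal R}

/-- The first entry of a pair. -/
def q3_fst (I : Ideal R) : Fp I →+* R := (RingHom.fst R R).comp (Fp I).subtype

/-- The second entry of a pair. -/
def q3_snd (I : Ideal R) : Fp I →+* R := (RingHom.snd R R).comp (Fp I).subtype

theorem q3_unit [Lo2 R] (hI : I ≠ ⊤) (p : Fp I) : IsUnit p ↔ IsUnit (q3_fst I p) := by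
  refine ⟨fun h => h.map _, fun h => ?_⟩
  obtain ⟨⟨a, b⟩, hp⟩ := p
  replace hp : a - b ∈ I := hp
  have hb : IsUnit b := by_contra fun e => IsLocalRing.nonunits_add
    (fun u => hI (I.eq_top_of_isUnit_mem hp u)) e (by rwa [sub_add_cancel])
  obtain ⟨a', ha'⟩ : ∃ a', a * a' = 1 := h.exists_right_inv
  obtain ⟨b', hb'⟩ := hb.exists_right_inv
  refine IsUnit.of_mul_eq_one ⟨(a', b'), ?_⟩ (Subtype.ext (Prod.ext ha' hb'))
  show a' - b' ∈ I
  rw [show a' - b' = -(a' * b') * (a - b) by linear_combination b' * ha' - a' * hb']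
  exact I.mul_mem_left _ hp

theorem lo2_Fp [Lo2 R] (hI : I ≠ ⊤) : Lo2 (Fp I) := by
  have := (q3_fst I).domain_nontrivial
  refine ⟨inferInstance, .of_isUnit_or_isUnit_one_sub_self fun p => ?_, fun p => ?_, ?_⟩
  · simp only [q3_unit hI, map_sub, map_one]
    exact IsLocalRing.isUnit_or_isUnit_one_sub_self _
  · simp only [q3_unit hI, map_sub, map_add, map_one]
    exact Lo2.res _
  · rw [q3_unit hI, map_ofNat]
    exact Lo2.three

/-- Two congruent characters give a character with values in the ring of pairs. -/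
theorem exists_pair [Lo2 R] (hI : I ≠ ⊤) (k : Ch d ρ) (k' : Ch d ρ')
    (e : ∀ g ∈ G, ρ g - ρ' g ∈ I) : ∃ P : Gam → Fp I, Ch d P ∧ ∀ g ∈ G, (P g).1 = (ρ g, ρ' g) := by
  have := lo2_Fp hI
  let f : R → R → Fp I := fun a b => if h : a - b ∈ I then ⟨(a, b), h⟩ else 1
  have hf : ∀ g ∈ G, (f (ρ g) (ρ' g)).1 = (ρ g, ρ' g) := fun g hg =>
    congrArg Subtype.val (dif_pos (e g hg))
  refine ⟨_, Ch.of (k.sm.comp₂ k'.sm f) (Subtype.ext ?_) (fun g hg h hh => Subtype.ext ?_)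
    fun g hg u => k.res hg ?_, hf⟩
  · rw [hf 1 (one_mem _), k.one, k'.one]
    rfl
  · rw [Subring.coe_mul, hf _ (mul_mem hg hh), hf g hg, hf h hh, k.mul g hg h hh, k'.mul g hg h hh]
    rfl
  · have h1 := u.map (q3_fst I)
    rwa [map_sub, xq_map, show q3_fst I (f (ρ g) (ρ' g)) = ρ g from
      congrArg Prod.fst (hf g hg)] at h1

theorem Val2.left (k : Val2 I t γ ρ ρ' L L') : Val t γ ρ L := by
  obtain ⟨P, Q, h1, h2, h3⟩ := k
  obtain rfl : L = fun g j => q3_fst I (Q g j) :=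
    funext₂ fun g j => (congrArg Prod.fst (h3 g j)).symm
  exact (h1.map (q3_fst I)).congr fun g hg => (congrArg Prod.fst (h2 g hg)).symm

theorem Val2.right (k : Val2 I t γ ρ ρ' L L') : Val t γ ρ' L' := by
  obtain ⟨P, Q, h1, h2, h3⟩ := k
  obtain rfl : L' = fun g j => q3_snd I (Q g j) :=
    funext₂ fun g j => (congrArg Prod.snd (h3 g j)).symm
  exact (h1.map (q3_snd I)).congr fun g hg => (congrArg Prod.snd (h2 g hg)).symm

theorem Val2.cong (k : Val2 I t γ ρ ρ' L L') (g : Gam) (j : J) : L g j - L' g j ∈ I := by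
  obtain ⟨P, Q, -, -, h3⟩ := k
  exact (h3 g j ▸ (Q g j).2 : (L g j, L' g j) ∈ Fp I)

theorem exists_val2 [Lo2 R] (hI : I ≠ ⊤) (hγ : Gens d t γ) (k : Ch d ρ) (k' : Ch d ρ')
    (e : ∀ g ∈ G, ρ g - ρ' g ∈ I) : ∃ L L', Val2 I t γ ρ ρ' L L' := by
  have := lo2_Fp hI
  obtain ⟨P, h1, h2⟩ := exists_pair hI k k' e
  obtain ⟨Q, hQ⟩ := exists_val hγ h1
  exact ⟨_, _, P, Q, hQ, h2, fun _ _ => rfl⟩

theorem Val2.ext [Lo2 R] (hI : I ≠ ⊤) {κ : Type} [Fintype κ] {γ : κ ⊕ Fin 2 → Gam}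
    {L L' : Gam → κ ⊕ Fin 2 → R} (hL : Val2 I t γ ρ ρ' L L') (k : Ch d ρ) (k' : Ch d ρ')
    {t' : Option ι → TP} (ht : ∀ i, t' (some i) = t i) (hs : Spt d (t' none).v)
    (h0 : ∀ σ ∈ Ine (t' none).v, ρ σ - 1 = 0 ∧ ρ' σ - 1 = 0)
    {γ' : Option κ ⊕ Fin 2 → Gam} (h1 : ∀ j, γ' (old j) = γ j)
    (h2 : γ' (.inl none) = (t' none).σ) :
    ∃ N N', Val2 I t' γ' ρ ρ' N N' ∧ ∀ g j, N g (old j) = L g j ∧ N' g (old j) = L' g j := by
  have := lo2_Fp hI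
  obtain ⟨P, Q, q1, q2, q3⟩ := hL
  obtain ⟨P', p1, p2⟩ := exists_pair hI k k' fun g hg =>
    (q2 g hg ▸ (P g).2 : (ρ g, ρ' g) ∈ Fp I)
  obtain ⟨N, n1, n2⟩ := q1.ext (p1.congr fun g hg => Subtype.ext ((q2 g hg).trans (p2 g hg).symm))
    ht hs (fun σ hσ => sub_eq_zero.2 (Subtype.ext ((q2 σ (ine_le (t' none).odd hσ)).trans
      (Prod.ext (sub_eq_zero.1 (h0 σ hσ).1) (sub_eq_zero.1 (h0 σ hσ).2))))) h1 h2
  exact ⟨_, _, ⟨P, N, n1, q2, fun _ _ => rfl⟩, fun g j =>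
    Prod.mk.inj ((congrArg Subtype.val (n2 g j)).trans (q3 g j))⟩

end Pool.Agent.Lib.MP_696deb_nt.EV.D
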