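import Pool.Agent.Lib.MP_696deb_nt.ED.T1b
import Pool.Agent.Lib.MP_696deb_nt.EV.T1

/-! The tower: the stages. -/

set_option autoImplicit false

open scoped Classical NNReal
open Finset PowerSeries

namespace Pool.Agent.Lib.MP_696deb_nt.EV.D

theorem t1_chi {R : Type} [CommRing R] [Lo2 R] {d : ℤ} {ρ : Gam → R} (k : Ch d ρ) {g : Gam}
    (hg : g ∈ G) (e : ρ g = 1) : chi d g = 1 := (chi_or d g).resolve_right fun h => by
  have := k.unit hg h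
  rw [e, sub_self] at this
  exact not_isUnit_zero this

namespace Cx

variable (c : Cx) {g h σ : Gam} {v : Plc} {k n : ℕ}

theorem exists_s0 : Nonempty (c.Stg 0) := by
  choose L hL using fun y k => exists_val (ι := Jx (Option c.ι) 0) (J := Jx c.κ 0 ⊕ Fin 2)
    (c.gens0 k) (c.chr y false k)
  choose N N' hN using fun k => exists_val2 (ι := Jx (Option c.ι) 0) (J := Jx c.κ 0 ⊕ Fin 2)
    (wI_ne k) (c.gens0 k) (c.chr true true k) (c.chr false true k) fun g hg => by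
      rw [md, md, ← map_sub, mem_wI]
      exact Ideal.mem_sup_left (Ideal.mem_span_singleton.2 ((c.lv k).ρ_cong g hg))
  have q : ∀ k (L : Gam → Jx c.κ 0 ⊕ Fin 2 → La ⧸ aa k),
      mdL (aa k) (fun g j => Quotient.out (L g j)) = L :=
    fun k L => funext₂ fun g j => Ideal.Quotient.mk_out _
  refine ⟨⟨c.t0, fun j _ => ⟨c.γ j, c.gens.mem j⟩, fun _ => ∅,
    fun y b k g j => Quotient.out (cond b (cond y (N k) (N' k)) (L y k) g j), fun _ _ => rfl,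
    fun _ _ h => h.elim, by simp, c.t0_inj, fun k y => ⟨c.g0_mem, ?_, by simp, by simp, by simp,
      by simp, by simp, by simp⟩, fun _ _ h => h.elim, c.gens0, fun y k => ?_, fun k => ?_⟩⟩
  · rw [H3.cy, c.cyc_g0, map_one]
  · rw [q]
    exact hL y k
  · rw [q, q]
    exact hN k

/-- The first stage. -/
noncomputable def s0 : c.Stg 0 := c.exists_s0.some

variable {c}

theorem Stg.J0 (s : c.Stg 0) (k : ℕ) : s.J k = ∅ :=
  eq_empty_of_forall_notMem fun r hr => (s.ofJ k r hr).elim fun _ h => h.1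

theorem Stg.t_zero (s : c.Stg 0) (k : ℕ) : s.t k = c.t0 k := funext (s.base k)

theorem Stg.off (s : c.Stg n) (hv : Off (s.t k) v) : Off (c.t0 k) v :=
  ⟨hv.1, fun i => s.base k i ▸ hv.2 _⟩

theorem t1_deep {y b : Bool} {j : Jx (Option c.ι) n} (hj : j.deep) : ¬ c.St y b j :=
  fun ⟨_, e, _⟩ => Jx.not_deep.2 ⟨_, e⟩ hj

theorem t1_ty (i : c.κ) : (c.tyn (Jx.emb i) : Option (Option (Jx (Option c.ι) n))) =
    (c.ty i).map (Option.map fun j => Jx.emb (some j)) := by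
  rw [Cb.tyn, Jx.ty_emb]
  rcases c.ty i with _ | _ | j <;> rfl

theorem Stg.t1_lam (s : c.Stg n) {y b : Bool} {r : TP} (hv : Off (s.ts y b k) r.v) :
    (c.lv k).lam.π ≠ r.π := by
  have := off_tp.1 hv ⟨Jx.emb none, fun ⟨_, e, _⟩ => Option.some_ne_none _ (Jx.emb_inj e).symm⟩
  rwa [Stg.ts, sb, s.base] at this

theorem Stg.t1_case (s : c.Stg n) {y b : Bool} {r : TP} (hv : Off (s.ts y b k) r.v) :
    ¬ r.π ∣ (c.t.M : O) ∨ ∃ i, c.St0 y b i ∧ (c.tp i).π = r.π := by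
  refine or_iff_not_imp_right.2 fun h => c.nd_M' r fun i e => ?_
  have := off_tp.1 hv ⟨Jx.emb (some i), fun ⟨j, e', q⟩ =>
    h ⟨i, Option.some.inj (Jx.emb_inj e') ▸ q, e⟩⟩
  rw [Stg.ts, sb, s.base] at this
  exact this e

theorem Stg.off_ts (s : c.Stg n) {y : Bool} (hv : Off (s.ts y true k) v) :
    v.V (io (c.m k)) = 1 ∧ v.V (io (c.m1 k)) = 1 ∧ v.V (io (mJ (c.m k) (s.J k))) = 1 := by
  obtain ⟨r, rfl⟩ := exists_tp_v hv.1
  have h : ¬ r.π ∣ c.m k := c.nd_m k r ((s.t1_case hv).elim id fun ⟨i, q, e⟩ =>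
    e ▸ c.nd_M _ q.1 (q.2.resolve_right fun z => Bool.noConfusion z.2)) (s.t1_lam hv)
  refine ⟨r.V_eq.2 h, r.V_eq.2 fun e => h (e.trans
    (mul_dvd_mul_right (c.dvd_m0 (k + 1)).2.2.2 _)), ?_⟩
  rw [mJ, map_mul, map_mul, r.V_eq.2 h, one_mul, map_prod, map_prod]
  refine prod_eq_one fun r hr => ?_
  obtain ⟨i, q, e⟩ := s.ofJ k r hr
  exact e ▸ hv.2 ⟨i, t1_deep q⟩

theorem Stg.off_st (s : c.Stg n) {y b : Bool} {i : c.ι} (hi : c.St0 y b i) (k : ℕ) :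
    Off (s.ts y b k) (c.tp i).v :=
  off_tp.2 fun j e => j.2 ⟨i, s.inj k _ _ (by rw [s.base]; exact e), hi⟩

theorem Stg.deep (s : c.Stg n) (y b : Bool) (k : ℕ) {j : Jx (Option c.ι) n} (hj : j.deep) :
    Spt c.d (s.t k j).v ∧ c.ρ y b k (s.t k j).φ - 1 ∈ aa k ∧
      (∀ σ ∈ Ine (s.t k j).v, c.ρ y b k σ = 1) ∧ 3 ^ (k + 2) ∣ nm (s.t k j).π - 1 := by
  have h0 : Off (c.t0 k) (s.t k j).v :=
    off_tp.2 fun i e => Jx.not_deep.2 ⟨i, s.inj k _ _ (by rw [s.base, e])⟩ hj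
  obtain ⟨r, hr, e⟩ := s.toJ k j hj
  rw [← e] at h0 ⊢
  have h2 : cy (k + 1) r.t.φ = 1 := by
    have := r.t.nm_mod
    rw [H3.cy, r.t.cyc_φ, map_natCast, ← Nat.sub_add_cancel (show 1 ≤ nm r.t.π by omega),
      Nat.cast_succ, (ZMod.natCast_eq_zero_iff _ _).2
        ((pow_dvd_pow 3 (Nat.le_add_right _ 1)).trans r.x.dvd), zero_add]
  have h3 := c.cy_θ (k := k) y (fa k) r.t.φ_mem
  rw [h2, map_one, one_mul, (s.good k y).th r hr] at h3
  refine ⟨(spt_iff c.fd (mt (tp_dvd _).1 ((c.gens0 k).ram _ h0))).2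
    (t1_chi (c.chr y true k) r.t.φ_mem h3.symm), t1_md.2 ?_,
    fun σ => c.ρ_ine y b h0.1 (c.V_m h0), r.x.dvd⟩
  cases b
  · have h4 := (c.dual y).cy (k := k) le_rfl (fa k) _ r.t.φ_mem
    rwa [h2, map_one, ← h3, one_mul] at h4
  · exact h3.symm

theorem Stg.rows (s : c.Stg n) (k : ℕ) : Ty c.d (s.t k) c.tyn := by
  have A : ∀ {i : Jx c.κ n}, i.deep → c.tyn i = some (some i.pr) := fun h => Jx.ty_deep _ h
  have B : ∀ (i : Jx c.κ n) x, c.tyn i = some x → i.deep ∧ x = some i.pr ∨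
      ∃ a z, i = Jx.emb a ∧ c.ty a = some z ∧ z.map (fun j => Jx.emb (some j)) = x := fun i x e => by
    by_cases h : i.deep
    · exact .inl ⟨h, Option.some.inj (e.symm.trans (A h))⟩
    · obtain ⟨a, rfl⟩ := Jx.not_deep.1 h
      obtain ⟨z, e1, e2⟩ := Option.map_eq_some_iff.1 ((t1_ty a).symm.trans e)
      exact .inr ⟨a, z, rfl, e1, e2⟩
  refine ⟨fun i j e => ?_, fun i e => ?_, fun j q => ?_, fun q => ?_, fun i i' x e e' => ?_⟩
  · rcases B i _ e with ⟨h, e⟩ | ⟨a, z, -, e1, e2⟩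
    · exact Option.some.inj e ▸ (s.deep true true k (Jx.pr_deep h)).1
    · obtain ⟨u, rfl, rfl⟩ := Option.map_eq_some_iff.1 e2
      rw [s.base]
      exact c.rows.sp a u e1
  · rcases B i _ e with ⟨-, e⟩ | ⟨a, z, -, e1, e2⟩
    · exact absurd e.symm (Option.some_ne_none _)
    · exact c.rows.sw a (Option.map_eq_none_iff.1 e2 ▸ e1)
  · by_cases h : j.deep
    · obtain ⟨i, h1, rfl⟩ := Jx.exists_pr (κ := c.κ) h
      exact ⟨i, A h1⟩
    · obtain ⟨_ | u, rfl⟩ := Jx.not_deep.1 h <;> rw [s.base] at q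
      · exact absurd q (c.lv k).ns
      · obtain ⟨a, e⟩ := c.rows.cp u q
        exact ⟨Jx.emb a, by rw [t1_ty, e]; rfl⟩
  · obtain ⟨a, e⟩ := c.rows.cw q
    exact ⟨Jx.emb a, by rw [t1_ty, e]; rfl⟩
  · have D : ∀ {i : Jx c.κ n} {z : Option c.ι}, i.deep →
        z.map (fun j => (Jx.emb (some j) : Jx (Option c.ι) n)) ≠ some i.pr := fun h e => by
      obtain ⟨u, -, e⟩ := Option.map_eq_some_iff.1 e
      exact Jx.not_deep.2 ⟨_, e.symm⟩ (Jx.pr_deep h)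
    rcases B i _ e with ⟨h, e⟩ | ⟨a, z, rfl, e1, e2⟩ <;>
      rcases B i' _ e' with ⟨h', e'⟩ | ⟨a', z', rfl, e1', e2'⟩
    · exact Jx.pr_inj h h' (Option.some.inj (e.symm.trans e'))
    · exact absurd (e2'.trans e) (D h)
    · exact absurd (e2.trans e') (D h')
    · obtain rfl := Option.map_injective (fun _ _ e => Option.some.inj (Jx.emb_inj e))
        (e2.trans e2'.symm)
      rw [c.rows.inj a a' z e1 e1']

theorem Stg.st_spt (s : c.Stg n) (y b : Bool) (k : ℕ) :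
    ∀ j, c.St y b j → Spt c.d (s.t k j).v := by
  rintro _ ⟨i, rfl, hi⟩
  rw [s.base]
  exact hi.1

theorem Stg.unr (s : c.Stg n) (y b : Bool) (k : ℕ) :
    Unr (s.ts y b k) fun g => md (aa k) (c.ρ y b k) g - 1 := fun v hv σ hσ => by
  obtain ⟨r, rfl⟩ := exists_tp_v hv.1
  refine sub_eq_zero.2 ?_
  rcases s.t1_case hv with h | ⟨i, q, e⟩
  · rw [md, c.ρ_ine y b hv.1 (r.V_eq.2 (c.nd_m k r h (s.t1_lam hv))) hσ, map_one]
  · obtain ⟨g, hg, e'⟩ := (c.tp i).conj (e ▸ r.lt)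
    have h := B2.mem_Ine_smul.1 (e'.symm ▸ hσ : σ ∈ Ine (g • (c.tp i).v))
    have h' := (c.chr y b k).conj hg (ine_le (c.tp i).odd h)
    rwa [show g * (g⁻¹ * σ * g) * g⁻¹ = σ by group, md.eq_1 _ _ (_ * g), c.ρ_tp y b k i h, q.ine h,
      map_one, map_one] at h'

theorem Stg.valb (s : c.Stg n) (y b : Bool) (k : ℕ) :
    Val (s.t k) (fun j => s.γ j k) (md (aa k) (c.ρ y b k)) (mdL (aa k) (s.L y b k)) := by
  cases b
  · exact s.val y k
  · cases y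
    exacts [(s.val2 k).right, (s.val2 k).left]

theorem Stg.prs (s : c.Stg n) (y b : Bool) (k : ℕ) :
    Prs (s.ts y b k) (fun j => s.γ j k) (md (aa k) (c.ρ y b k)) (mdL (aa k) (s.L y b k))
      fun i j => Ideal.Quotient.mk (aa k) (s.rw y b k i j) := by
  rw [show (fun i j => Ideal.Quotient.mk (aa k) (s.rw y b k i j)) = _ from
    funext₂ fun i j => rowF_map _ _ _ (c.tyn i) j]
  exact prs_of c.fd (s.inj k) (s.gens k) (c.chr y b k) (s.st_spt y b k) (s.unr y b k)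
    (s.valb y b k) (fun h => (c.bw k).isB h y b) (s.rows k)

theorem Stg.rw_deep (s : c.Stg n) (y b : Bool) (k : ℕ) {i : Jx c.κ n} (hi : i.deep)
    (j : Jx c.κ n ⊕ Fin 2) : s.rw y b k i j ∈ aa k := by
  obtain ⟨-, h1, h2, a, h3⟩ := s.deep y b k (Jx.pr_deep hi)
  have h4 := (s.t k i.pr).nm_mod
  rw [Stg.rw, Cb.tyn, Jx.ty_deep _ hi, rowF, if_neg (t1_deep (Jx.pr_deep hi)), rq,
    h2 _ (s.t k i.pr).σ_ine, sub_self, zero_mul, zero_sub, sum_congr rfl fun _ _ => one_pow _,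
    sum_const, card_range, nsmul_one, show nm (s.t k i.pr).π = 1 + 3 ^ (k + 1) * (3 * a) by
      rw [← mul_assoc, ← pow_succ, ← h3]; omega, Nat.cast_add, Nat.cast_one, ← sub_sub, Nat.cast_mul,
    Nat.cast_pow, Nat.cast_ofNat]
  exact neg_mem (Ideal.mul_mem_right _ _ (sub_mem h1 (Ideal.mul_mem_right _ _ (two_pow_mem k))))

theorem Stg.InN.one (s : c.Stg n) (k : ℕ) : s.InN k 1 :=
  ⟨fun y b => t1_md.2 (c.chr y b k).one, g1_cy_one _, fun r _ => t1_ig r.x, fun _ _ => rfl⟩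

theorem Stg.InN.mul {s : c.Stg n} (h1 : s.InN k g) (h2 : s.InN k h) (hg : g ∈ G) (hh : h ∈ G) :
    s.InN k (g * h) :=
  ⟨fun y b => t1_md.2 (by
    rw [(c.chr y b k).mul g hg h hh, t1_md.1 (h1.ρ y b), t1_md.1 (h2.ρ y b), one_mul]),
    by rw [H3.b3b_cy, h1.cy, h2.cy, one_mul],
    fun r hr => by rw [r.x.hom_ig g hg h hh, h1.ig r hr, h2.ig r hr, add_zero],
    fun r hr => by rw [AlgEquiv.mul_apply, h2.rt r hr, h1.rt r hr]⟩

theorem Stg.InN.inv {s : c.Stg n} (h1 : s.InN k g) (hg : g ∈ G) : s.InN k g⁻¹ :=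
  ⟨fun y b => t1_md.2 (by rw [← (c.chr y b k).inv hg, t1_md.1 (h1.ρ y b), one_mul]),
    by rw [← g1_cy_one (k + 2), ← mul_inv_cancel g, H3.b3b_cy, h1.cy, one_mul],
    fun r hr => by
      rw [← t1_ig r.x, ← mul_inv_cancel g, r.x.hom_ig g hg _ (inv_mem hg), h1.ig r hr, zero_add],
    fun r hr => g.symm_apply_eq.2 (h1.rt r hr).symm⟩

theorem Stg.InN.chi {s : c.Stg n} (h1 : s.InN k g) (hg : g ∈ G) : chi c.d g = 1 :=
  t1_chi (c.chr true true k) hg (t1_md.1 (h1.ρ true true))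

theorem Stg.inN_cmt (s : c.Stg n) (k : ℕ) (hg : g ∈ G) : s.InN k (cmt c.g0 (cmt c.g0 g)) := by
  have h0 := c.g0_mem
  have h1 : cmt c.g0 g ∈ G := mul_mem (mul_mem (mul_mem h0 hg) (inv_mem h0)) (inv_mem hg)
  exact ⟨fun y b => t1_md.2 (t1_cmt (c.chr y b k).one (c.chr y b k).mul h0 h1),
    t1_cmt (g1_cy_one _) (fun g _ h _ => H3.b3b_cy _ g h) h0 h1,
    fun r _ => t1_cmt (π := fun g => Multiplicative.ofAdd (r.x.ig g)) (t1_ig r.x) r.x.hom_ig h0 h1,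
    fun r _ => comm_root _ (io_fx _) h0 hg c.cyc_g0⟩

theorem Stg.nice (s : c.Stg n) (k : ℕ) : ∃ U, Nice U ∧ ∀ u ∈ U, s.InN k u := by
  obtain ⟨U1, n1, h1⟩ := nice_fin fun p : Bool × Bool =>
    nice_zc (c.chr p.1 p.2 k) ((c.chr p.1 p.2 k).cob le_rfl (1 : La ⧸ aa k))
  obtain ⟨U2, n2, h2⟩ := nice_cy (k + 2)
  obtain ⟨U3, n3, h3⟩ := EV.nice_fin fun r : s.J k => nice_hom r.1.x.sm_ig r.1.x.hom_ig
  obtain ⟨U4, n4, h4⟩ := EV.nice_fin fun r : s.J k => nice_root (k + 1) (io_fx r.1.t.π)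
  exact ⟨_, n1.inf (.of (n2.inf (n3.inf n4))), fun u hu =>
    ⟨fun y b => t1_md.2 (h1 u hu.1 (y, b)).2, h2 u hu.2.1,
      fun r hr => h3 u hu.2.2.1 ⟨r, hr⟩, fun r hr => h4 u hu.2.2.2 ⟨r, hr⟩⟩⟩

end Cx

end Pool.Agent.Lib.MP_696deb_nt.EV.D
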