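import Pool.Agent.Lib.MP_696deb_nt.ED.T0
import Pool.Agent.Lib.MP_696deb_nt.EV.T1a

/-! The tower: the bottom. -/

set_option autoImplicit false

open scoped Classical NNReal
open Finset PowerSeries

namespace Pool.Agent.Lib.MP_696deb_nt.EV.D

section

variable {κ ι : Type} {n : ℕ}

theorem Jx.not_deep {i : Jx κ n} : ¬ i.deep ↔ ∃ j, i = Jx.emb j := by
  induction n with
  | zero => exact ⟨fun _ => ⟨i, rfl⟩, fun _ => id⟩
  | succ n ih =>
    rcases i with _ | i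
    · exact ⟨fun h => (h trivial).elim, fun ⟨_, e⟩ => by cases e⟩
    · exact ih.trans (exists_congr fun _ => ⟨congrArg some, Option.some.inj⟩)

theorem Jx.emb_inj : Function.Injective (Jx.emb : κ → Jx κ n) := by
  induction n with
  | zero => exact fun _ _ => id
  | succ n ih => exact fun _ _ e => ih (Option.some.inj e)

theorem Jx.pr_deep {i : Jx κ n} (h : i.deep) : (i.pr : Jx (Option ι) n).deep := by
  induction n with
  | zero => exact h.elim
  | succ n ih =>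
    rcases i with _ | i
    exacts [trivial, ih h]

theorem Jx.exists_pr {j : Jx (Option ι) n} (h : j.deep) : ∃ i : Jx κ n, i.deep ∧ i.pr = j := by
  induction n with
  | zero => exact h.elim
  | succ n ih =>
    rcases j with _ | j
    · exact ⟨none, trivial, rfl⟩
    · exact (ih h).elim fun i k => ⟨some i, k.1, congrArg some k.2⟩

theorem Jx.pr_inj {i i' : Jx κ n} (h : i.deep) (h' : i'.deep)
    (e : (i.pr : Jx (Option ι) n) = i'.pr) : i = i' := by
  induction n with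
  | zero => exact h.elim
  | succ n ih =>
    rcases i with _ | i <;> rcases i' with _ | i'
    exacts [rfl, (nomatch e), (nomatch e), congrArg some (ih h h' (Option.some.inj e))]

theorem Jx.sum_pr [Fintype κ] [Fintype ι] {M : Type} [AddCommMonoid M] (F : Jx (Option ι) n → M) :
    ∑ i : Jx κ n with i.deep, F i.pr = ∑ j : Jx (Option ι) n with j.deep, F j :=
  sum_bij (fun i _ => i.pr) (fun _ h => mem_filter.2 ⟨mem_univ _, Jx.pr_deep (mem_filter.1 h).2⟩)
    (fun _ h _ h' => Jx.pr_inj (mem_filter.1 h).2 (mem_filter.1 h').2)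
    (fun _ h => (Jx.exists_pr (mem_filter.1 h).2).imp fun _ k =>
      ⟨mem_filter.2 ⟨mem_univ _, k.1⟩, k.2⟩) fun _ _ => rfl

theorem Jx.ty_deep (ty : κ → Option (Option (Option ι))) {i : Jx κ n} (h : i.deep) :
    Jx.ty ty i = some (some i.pr) := by
  induction n with
  | zero => exact h.elim
  | succ n ih =>
    rcases i with _ | i
    exacts [rfl, congrArg (Option.map (Option.map some)) (ih h)]

theorem Jx.ty_emb (ty : κ → Option (Option ι)) (i : κ) :
    Jx.ty ty (Jx.emb i : Jx κ n) = (ty i).map (Option.map Jx.emb) := by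
  induction n with
  | zero =>
    change ty i = _
    rcases ty i with _ | _ | _ <;> rfl
  | succ n ih =>
    refine (congrArg (Option.map (Option.map some)) ih).trans ?_
    rcases ty i with _ | _ | _ <;> rfl

end

namespace Cb

variable (c : Cb) {g h σ : Gam} {v : Plc}

theorem fd : Fd c.d := c.t.fd

theorem g0_mem : c.g0 ∈ G := ine_le (c.tp c.i0).odd c.g0_ine

theorem cyc_g0 : cyc c.g0 = 1 := H3.cyc_ine (c.tp c.i0).odd c.g0_ine

theorem r0_mul (y b : Bool) (hg : g ∈ G) (hh : h ∈ G) :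
    c.r0 y b (g * h) = c.r0 y b g * c.r0 y b h := by
  cases y <;> cases b
  · exact xq_mul _ g h
  · rw [r0, r0, r0, xq_mul, H3.cyc_mul, map_mul, mul_mul_mul_comm]
  · exact (congrArg star (rho0_mul c.t hg hh)).trans (star_mul' _ _)
  · exact rho0_mul c.t hg hh

theorem r0_one (y b : Bool) : c.r0 y b 1 = 1 := by
  cases y <;> cases b
  · exact xq_one _
  · rw [r0, xq_one, H3.cyc_one, map_one, one_mul]
  · exact (congrArg star (rho0_one c.t)).trans (star_one _)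
  · exact rho0_one c.t

theorem r0_dual (y : Bool) (hg : g ∈ G) :
    c.r0 y true g * c.r0 y false g = algebraMap ℤ_[3] Ow (cyc g) := by
  cases y
  · rw [r0, r0, mul_right_comm, xq_sq, one_mul]
  · rw [r0, r0, mul_star_Ow, norm_rho0 c.t hg]

theorem r0_w (y b : Bool) (hg : g ∈ G) : wO ∣ c.r0 y b g - xq c.d Ow g := by
  have h1 := rho0_w c.t hg
  have h2 : wO ∣ star (rho0 c.t g) - xq c.d Ow g := by
    have k : star wO = -wO := by
      rw [wO, ← oW_star, ← map_neg]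
      exact congrArg oW (by decide)
    simpa only [starRingEnd_apply, star_sub, k, neg_dvd, xq, star_intCast] using
      map_dvd (starRingEnd Ow) h1
  cases y <;> cases b
  · exact ⟨0, (sub_self _).trans (mul_zero _).symm⟩
  · rw [r0, ← c.r0_dual true hg, r0, r0]
    convert (h1.mul_left (xq c.d Ow g * star (rho0 c.t g))).add h2 using 1
    linear_combination star (rho0 c.t g) * xq_sq (R := Ow) c.d g
  exacts [h2, h1]

theorem sm_r0 (y b : Bool) (e : ℕ) :
    Sm G fun g => Ideal.Quotient.mk (Ideal.span {(3 : Ow) ^ e}) (c.r0 y b g) := by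
  have h1 := sm_rho0 c.t e
  have h2 : Sm G fun g => Ideal.Quotient.mk (Ideal.span {(3 : Ow) ^ e}) (star (rho0 c.t g)) :=
    h1.imp fun _ k => ⟨k.1, k.2.1, fun g hg h hh l => Ideal.Quotient.eq.2 <|
      Ideal.mem_span_singleton.2 <| by
        simpa only [map_pow, map_ofNat, map_sub, starRingEnd_apply] using map_dvd (starRingEnd Ow)
          (Ideal.mem_span_singleton.1 (Ideal.Quotient.eq.1 (k.2.2 g hg h hh l)))⟩
  cases y <;> cases b
  · exact (sm_xq _ G).comp _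
  · exact ((sm_xq (R := Ow) c.d G).comp₂ (h1.comp₂ h2 (· * ·)) fun x y =>
      Ideal.Quotient.mk _ x * y).congr fun g hg => by
        rw [r0, ← c.r0_dual true hg, map_mul, map_mul, r0, r0]
  exacts [h2, h1]

theorem r0_σ (b : Bool) {i : c.ι} (hi : c.Rm i) : c.r0 true b (c.tp i).σ ^ 3 = 1 ∧
    c.r0 true b (c.tp i).σ - 1 ≠ 0 ∧ ∑ n ∈ range 3, c.r0 true b (c.tp i).σ ^ n = 0 := by
  obtain ⟨a, h, e⟩ : ∃ a : O, (a = om ∨ a = om ^ 2) ∧ rho0 c.t (c.tp i).σ = oW a :=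
    (c.sig i hi.1 hi.2).elim (fun e => ⟨om, .inl rfl, e⟩) fun e => ⟨om ^ 2, .inr rfl, e⟩
  cases b
  · rw [r0, e, ← oW_star]
    exact t1a_root (by rcases h with rfl | rfl <;> decide)
  · rw [r0, e]
    exact t1a_root h

theorem r0_gw (hs : Spt c.d w3) {y b : Bool} (h : y = true ∨ b = true) :
    c.r0 y b (gw 0) - 1 ≠ 0 := fun e => cyc_gw <| by
  cases y <;> cases b <;> rw [sub_eq_zero, r0] at e
  · simp at h
  · rw [hs.xq (gw_Hw 0), one_mul] at e
    exact congrArg QuadraticAlgebra.re e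
  · rw [← norm_rho0 c.t (gw_mem 0), ← QuadraticAlgebra.norm_star, e, map_one]
  · rw [← norm_rho0 c.t (gw_mem 0), e, map_one]

theorem off (hv : Off c.tp v) : ¬ v.p ∣ c.t.M := fun k => by
  obtain ⟨r, rfl⟩ := exists_tp_v hv.1
  rcases c.all _ r.prime (r.dvd_p.trans (Nat.cast_dvd_cast k))
    with e | ⟨i, e⟩
  · exact t1a_three r (e.trans ⟨star w, by decide⟩)
  · exact r.V_eq.1 (hv.2 i) e

theorem r0_ine (y b : Bool) (hv : v.p ≠ 3) (k : ¬ v.p ∣ c.t.M) (hσ : σ ∈ Ine v) :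
    c.r0 y b σ = 1 := by
  have h1 : xq c.d Ow σ = 1 :=
    xq_of (chi_unr c.fd.fund (fun e => k ((Int.natCast_dvd.1 e).mul_left _)) hσ)
  cases y <;> cases b
  · exact h1
  · rw [r0, h1, H3.cyc_ine hv hσ, map_one, one_mul]
  · exact (congrArg star (rho0_ine c.t hv k hσ)).trans (star_one _)
  · exact rho0_ine c.t hv k hσ

theorem r0_ine' (b : Bool) (hv : v.p ≠ 3) (k : Spt c.d v) (hσ : σ ∈ Ine v) :
    c.r0 false b σ = 1 := by
  have h1 : xq c.d Ow σ = 1 := k.xq ⟨ine_le hv hσ, hσ.1⟩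
  cases b
  · exact h1
  · rw [r0, h1, H3.cyc_ine hv hσ, map_one, one_mul]

theorem nd_M (r : TP) (hs : Spt c.d r.v) (h : ¬ r.π ∣ (c.t.N : O)) : ¬ r.π ∣ (c.t.M : O) := by
  rw [Tw.M, Nat.cast_mul]
  exact fun k => (r.prime.dvd_or_dvd k).elim h fun k =>
    hs.nd c.fd r.odd ((tp_dvd r).1 (k.trans (b1_dvd.2 dvd_rfl)))

theorem nd_M' (r : TP) (h : ∀ i, (c.tp i).π ≠ r.π) : ¬ r.π ∣ (c.t.M : O) := fun k =>
  (c.all _ r.prime k).elim (fun e => t1a_three r (e.trans ⟨star w, by decide⟩))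
    fun ⟨i, e⟩ => r.not_dvd _ (h i).symm e

theorem St0.ine {c : Cb} {y b : Bool} {i : c.ι} (h : c.St0 y b i) (hσ : σ ∈ Ine (c.tp i).v) :
    c.r0 y b σ = 1 :=
  h.2.elim (fun k => c.r0_ine y b (c.tp i).odd
    (fun l => c.nd_M _ h.1 k ((c.tp i).dvd_p.trans (Nat.cast_dvd_cast l))) hσ)
    fun k => k.1 ▸ c.r0_ine' b (c.tp i).odd h.1 hσ

theorem m0_ne (e : ℕ) : c.m0 e ≠ 0 :=
  Nat.cast_ne_zero.2 (mul_ne_zero c.t.M_ne (pow_ne_zero _ three_ne_zero))

theorem m0_eq (e : ℕ) : c.m0 e = (c.t.M : O) * 3 ^ (e + 3) := by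
  rw [m0, Nat.cast_mul, Nat.cast_pow, Nat.cast_ofNat]

theorem dvd_m0 (e : ℕ) : (3 : O) ∣ c.m0 e ∧ ((9 * c.t.M : ℕ) : O) ∣ c.m0 e ∧
    (3 : O) ^ e ∣ c.m0 e ∧ (c.d : O) ∣ c.m0 e := by
  rw [m0_eq, pow_add]
  refine ⟨(Dvd.dvd.mul_left (dvd_pow_self _ three_ne_zero) _).mul_left _, ?_,
    (dvd_mul_right _ _).mul_left _,
    (b1_dvd.1 (Nat.cast_dvd_cast (dvd_mul_left _ c.t.N))).mul_right _⟩
  rw [Nat.cast_mul, mul_comm]
  exact mul_dvd_mul_left _ (Dvd.dvd.mul_left ⟨3, by decide⟩ _)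

theorem nd_m0 (e : ℕ) (r : TP) (h : ¬ r.π ∣ (c.t.M : O)) : ¬ r.π ∣ c.m0 e := fun k =>
  (r.prime.dvd_or_dvd (c.m0_eq e ▸ k)).elim h fun k => t1a_three r (r.prime.dvd_of_dvd_pow k)

theorem V_m0 (e : ℕ) (hv : v.p ≠ 3) (k : ¬ v.p ∣ c.t.M) : v.V (io (c.m0 e)) = 1 := by
  obtain ⟨r, rfl⟩ := exists_tp_v hv
  refine r.V_eq.2 (c.nd_m0 e r (r.V_eq.1 ?_))
  simpa using r.v.V_int_eq_one.2 (mt Int.natCast_dvd_natCast.1 k)

end Cb

end Pool.Agent.Lib.MP_696deb_nt.EV.D
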