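import Pool.Agent.Lib.MP_696deb_nt.ED.T1a
import Pool.Agent.Lib.MP_696deb_nt.EV.T1b

/-! The tower: the characters. -/

set_option autoImplicit false

open scoped Classical NNReal
open Finset PowerSeries

namespace Pool.Agent.Lib.MP_696deb_nt.EV.D

theorem t1b_top (k : ℕ) : aa k ≠ ⊤ := fun e =>
  (IsLocalRing.maximalIdeal.isMaximal La).ne_top (top_unique (e ▸ aa_le k))

theorem t1b_neg {s : ℕ} (hs : 0 < s) {a : ZMod (3 ^ s)} (h : ¬ 3 ∣ a.val) : ¬ 3 ∣ (-a).val :=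
  fun k => by
  have e := ZMod.val_add a (-a)
  rw [add_neg_cancel, ZMod.val_zero] at e
  exact h ((Nat.dvd_add_left k).1 ((dvd_pow_self 3 hs.ne').trans (Nat.dvd_of_mod_eq_zero e.symm)))

theorem t1b_odd {n : ℕ} (h : ¬ 3 ∣ n) : ∃ u, IsUnit u ∧ (1 + X : La) ^ n - 1 = X * u :=
  odd_pow_sub (fun h => unit_La.1 h (by simp))
    (fun h => unit_La.1 h (by rw [map_ofNat]; exact la_two)) h

theorem t1b_ww {a b : Ow} (h : wO ∣ a - b) : ww ∣ C a - C b := by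
  rw [← map_sub]
  exact map_dvd _ h

namespace Lv

variable {c : Cb} {k : ℕ} (l : Lv c k) {g σ : Gam} {v : Plc}

theorem pow_s : (1 + X : La) ^ 3 ^ l.s - 1 ∈ aa k := by
  have h := geom_sum_mul (1 + X : La) (3 ^ l.s)
  rw [← h]
  exact Ideal.mul_mem_right _ _ l.ord

theorem t1b_pow : Ideal.Quotient.mk (aa k) (1 + X) ^ 3 ^ l.s = 1 := by
  rw [← map_pow, ← map_one (Ideal.Quotient.mk (aa k))]
  exact Ideal.Quotient.eq.2 l.pow_s

theorem t1b_ex (b : Bool) : ∃ e : Gam → ZMod (3 ^ l.s),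
    (∀ g, l.ex b g = (e g).val) ∧ Sm G e ∧ IsHom G e := by
  cases b
  · exact ⟨fun g => -l.x.ig g, fun _ => rfl, l.x.sm_ig.comp fun z => -z,
      fun g hg h hh => (congrArg Neg.neg (l.x.hom_ig g hg h hh)).trans (neg_add _ _)⟩
  · exact ⟨l.x.ig, fun _ => rfl, l.x.sm_ig, l.x.hom_ig⟩

theorem t1b_md (J : Ideal La) (y b : Bool) (g : Gam) : md J (l.ρ y b) g =
    Ideal.Quotient.mk J (C (c.r0 y b g)) * Ideal.Quotient.mk J (1 + X) ^ l.ex b g := by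
  rw [md, ρ, map_mul, map_pow]

theorem t1b_three (b : Bool) (h : ¬ 3 ∣ (l.x.ig g).val) : ¬ 3 ∣ l.ex b g := by
  cases b
  · exact t1b_neg l.x.pos h
  · exact h

theorem ρ_const (y b : Bool) (g : Gam) : constantCoeff (l.ρ y b g) = c.r0 y b g := by
  simp [ρ]

theorem chr (y b : Bool) : Ch c.d (md (aa k) (l.ρ y b)) := by
  obtain ⟨e, h1, h2, h3⟩ := l.t1b_ex b
  have h4 : Sm G fun g => Ideal.Quotient.mk (aa k) (C (c.r0 y b g) : La) :=
    t1b_sm k (RingHom.id Ow) (c.sm_r0 y b (k + 1))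
  refine .of ((h4.comp₂ h2 fun x z => x * Ideal.Quotient.mk (aa k) (1 + X) ^ z.val).congr
    fun g _ => ?_) ?_ (fun g hg h hh => ?_) fun g hg => ?_
  · rw [t1b_md, h1]
  · have h5 : e 1 = 0 := by simpa using h3 1 (one_mem _) 1 (one_mem _)
    rw [t1b_md, h1, h5, ZMod.val_zero, pow_zero, mul_one, c.r0_one, map_one, map_one]
  · simp only [t1b_md, h1]
    rw [h3 g hg h hh, t1b_add l.t1b_pow, c.r0_mul y b hg hh, map_mul, map_mul]
    ring
  · rw [md, ← xq_map (Ideal.Quotient.mk (aa k)), ← map_sub, unit_mk (t1b_top k), unit_La, not_not,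
      map_sub, xq_map, ρ_const]
    exact c.r0_w y b hg

theorem ρ_cong (g : Gam) (hg : g ∈ G) : ww ∣ l.ρ true true g - l.ρ false true g := by
  rw [ρ, ρ, ← sub_mul]
  refine (t1b_ww ?_).mul_right _
  have h := dvd_sub (c.r0_w true true hg) (c.r0_w false true hg)
  rwa [sub_sub_sub_cancel_right] at h

theorem ρ_dual (y : Bool) (hg : g ∈ G) :
    l.ρ y true g * l.ρ y false g - C (algebraMap ℤ_[3] Ow (cyc g)) ∈ aa k := by
  refine Ideal.Quotient.eq.1 ?_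
  have h := t1b_add l.t1b_pow (l.x.ig g) (-l.x.ig g)
  rw [add_neg_cancel, ZMod.val_zero, pow_zero] at h
  rw [map_mul, ← c.r0_dual y hg, map_mul, map_mul]
  refine (congrArg₂ (· * ·) (l.t1b_md _ y true g) (l.t1b_md _ y false g)).trans ?_
  rw [mul_mul_mul_comm]
  exact (congrArg (_ * ·) h.symm).trans (mul_one _)

theorem ρ_of_ig (y b : Bool) (h : l.x.ig g = 0) : l.ρ y b g = C (c.r0 y b g) := by
  have e : l.ex b g = 0 := by
    cases b <;> simp [ex, h]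
  rw [ρ, e, pow_zero, mul_one]

theorem ns : ¬ Spt c.d l.lam.v := by
  rw [spt_kN c.fd, l.chi]
  decide

end Lv

theorem wI_ne (k : ℕ) : wI k ≠ ⊤ :=
  Ideal.span_singleton_ne_top (by rw [unit_mk (t1b_top k), unit_La, not_not, ww, constantCoeff_C])

theorem mem_wI {k : ℕ} {x : La} :
    Ideal.Quotient.mk (aa k) x ∈ wI k ↔ x ∈ Ideal.span {ww} ⊔ aa k := by
  rw [← Ideal.mem_quotient_iff_mem_sup, Ideal.map_span, Set.image_singleton, wI]

namespace Cx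

variable (c : Cx) {g σ : Gam} {v : Plc} {k : ℕ}

theorem ρ_const (y b : Bool) (k : ℕ) (g : Gam) : constantCoeff (c.ρ y b k g) = c.r0 y b g :=
  (c.lv k).ρ_const y b g

theorem chr (y b : Bool) (k : ℕ) : Ch c.d (md (aa k) (c.ρ y b k)) := (c.lv k).chr y b

theorem dual (y : Bool) : Dual c.d (c.ρ y true) (c.ρ y false) :=
  ⟨c.chr y true, c.chr y false, fun k _ hg => (c.lv k).ρ_dual y hg⟩

theorem ρ_tp (y b : Bool) (k : ℕ) (i : c.ι) (hσ : σ ∈ Ine (c.tp i).v) :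
    c.ρ y b k σ = C (c.r0 y b σ) :=
  (c.lv k).ρ_of_ig y b ((c.lv k).x.ig_ine (c.tp i).odd
    ((c.tp i).V_eq.2 ((c.tp i).not_dvd _ ((c.lv k).nd i))) hσ)

theorem ρ_w3 (y b : Bool) (k : ℕ) (h : σ ∈ G ⊓ Ine w3) : c.ρ y b k σ = C (c.r0 y b σ) :=
  (c.lv k).ρ_of_ig y b ((c.lv k).x.ig_w3 h)

theorem ρ_ine (y b : Bool) (hv : v.p ≠ 3) (h : v.V (io (c.m k)) = 1) (hσ : σ ∈ Ine v) :
    c.ρ y b k σ = 1 := by
  obtain ⟨r, rfl⟩ := exists_tp_v hv
  have h1 := r.V_eq.1 h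
  rw [ρ, (c.lv k).ρ_of_ig y b ((c.lv k).x.ig_ine hv (r.V_eq.2 fun e => h1 (e.mul_left _)) hσ),
    c.r0_ine y b hv (fun e => h1 (Dvd.dvd.mul_right ?_ _)) hσ, map_one]
  rw [Cb.m0_eq]
  exact (r.dvd_p.trans (Nat.cast_dvd_cast e)).mul_right _

theorem cy_θ (y : Bool) {J : Ideal La} {e : ℕ} (f : ZMod (3 ^ e) →+* La ⧸ J) (hg : g ∈ G) :
    f (cy e g) * md J (c.θ y k) g = md J (c.ρ y true k) g := by
  rw [H3.cy, ← mk_padic, md, md, θ, ← map_mul, mul_left_comm, ← map_mul, ← map_mul, ← H3.cyc_mul,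
    mul_inv_cancel, H3.cyc_one, map_one, map_one, mul_one]

theorem θ_false (k : ℕ) (g : Gam) :
    c.θ false k g = xq c.d La g * (1 + X) ^ ((c.lv k).x.ig g).val := by
  rw [θ, ρ, Lv.ρ, mul_right_comm, ← map_mul, Cb.r0, mul_assoc, ← map_mul, ← H3.cyc_mul,
    mul_inv_cancel, H3.cyc_one, map_one, mul_one, xq_map, Lv.ex]

theorem t0_inj (k : ℕ) (i j : Option c.ι) (h : (c.t0 k i).π = (c.t0 k j).π) : i = j := by
  cases i with
  | none =>
    cases j with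
    | none => rfl
    | some j => exact absurd h.symm ((c.lv k).nd j)
  | some i =>
    cases j with
    | none => exact absurd h ((c.lv k).nd i)
    | some j => exact congrArg some (c.inj i j h)

theorem geo (b : Bool) (k : ℕ) {i : c.ι} (hi : c.Rm i) :
    Geo (md (aa k) (c.ρ true b k)) (c.tp i) := by
  have h1 := (c.tp i).nm_mod
  refine t1b_mul (d := 3) ?_ (show 3 ∣ nm (c.tp i).π - 1 by omega)
  have h2 := congrArg (fun z : Ow => Ideal.Quotient.mk (aa k) (C z : La)) (c.r0_σ b hi).2.2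
  simp only [map_sum, map_pow, map_zero] at h2
  refine Eq.trans (sum_congr rfl fun n _ => ?_) h2
  exact congrArg (fun z => Ideal.Quotient.mk (aa k) z ^ n) (c.ρ_tp true b k i (c.tp i).σ_ine)

theorem gens0 (k : ℕ) : Gens c.d (c.t0 k) c.γ :=
  Gens.free c.fd c.gens (fun _ => rfl) (c.lv k).ns

theorem m_ne (k : ℕ) : c.m k ≠ 0 := mul_ne_zero (c.m0_ne _) (c.lv k).lam.prime.ne_zero

theorem V_m (hv : Off (c.t0 k) v) : v.V (io (c.m k)) = 1 := by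
  rw [m, map_mul, map_mul, c.V_m0 _ hv.1 (c.off ⟨hv.1, fun i => hv.2 (some i)⟩), one_mul]
  exact hv.2 none

theorem nd_m (k : ℕ) (r : TP) (h : ¬ r.π ∣ (c.t.M : O)) (h' : (c.lv k).lam.π ≠ r.π) :
    ¬ r.π ∣ c.m k := fun e =>
  (r.prime.dvd_or_dvd e).elim (c.nd_m0 _ r h) (r.not_dvd _ h'.symm)

/-- The order in the variable modulo the prime above three. -/
theorem tu_ρ (y b : Bool) (g : ℕ → Gam) (hg : ∀ k, g k ∈ HF c.d)
    (h : ∀ᶠ k in UU, ¬ 3 ∣ ((c.lv k).x.ig (g k)).val) :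
    Tu 1 ((ul fun k => c.ρ y b k (g k)) - 1) := by
  rw [← lima_one]
  refine tu_ul (h.mono fun k hk => ?_)
  obtain ⟨u, hu, e⟩ := t1b_odd ((c.lv k).t1b_three b hk)
  refine ⟨u, hu, Ideal.mem_sup_left (Ideal.mem_span_singleton.2 ?_)⟩
  have h1 := t1b_ww (c.r0_w y b (mem_HF.1 (hg k)).1)
  rw [xq_of (mem_HF.1 (hg k)).2, map_one] at h1
  rw [pow_one, ← e, sub_sub_sub_cancel_right, ρ, Lv.ρ, ← sub_one_mul]
  exact h1.mul_right _

theorem X_ρ (g : ℕ → Gam) (hg : ∀ k, g k ∈ HF c.d)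
    (h : ∀ᶠ k in UU, ¬ 3 ∣ ((c.lv k).x.ig (g k)).val) :
    ∃ u, IsUnit u ∧ (ul fun k => c.ρ false false k (g k)) - 1 = X * u := by
  have h1 : ∀ n : ℕ, ∃ u : La, (¬ 3 ∣ n → IsUnit u) ∧ (1 + X : La) ^ n - 1 = X * u := fun n => by
    by_cases e : 3 ∣ n
    · have h3 := mul_geom_sum (1 + X : La) n
      rw [add_sub_cancel_left] at h3
      exact ⟨_, fun k => absurd e k, h3.symm⟩
    · exact (t1b_odd e).imp fun _ k => ⟨fun _ => k.1, k.2⟩
  choose u hu e using h1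
  refine ⟨ul fun k => u ((c.lv k).ex false (g k)),
    ul_unit (h.mono fun k hk => hu _ ((c.lv k).t1b_three false hk)), ?_⟩
  rw [← lima_one, ← ul_const X, ← ul_mul]
  refine congrArg ul (funext fun k => ?_)
  rw [← e, ρ, Lv.ρ, Cb.r0, xq_of (mem_HF.1 (hg k)).2, map_one, one_mul]

theorem exists_ew : ∃ i, ∀ᶠ k in UU, ¬ 3 ∣ ((c.lv k).x.ig (ew i)).val :=
  Ultrafilter.eventually_exists_iff.1 (.of_forall fun k => ig_w (c.lv k).x (c.lv k).ow)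

theorem t1b_ig (k : ℕ) (i : c.ι) : ¬ 3 ∣ ((c.lv k).x.ig (c.tp i).φ).val := by
  rw [(c.lv k).x.ig_frob _ ((c.lv k).nd i)]
  exact (c.lv k).oπ i

theorem t1b_rq (k : ℕ) {i : c.ι} (hi : Spt c.d (c.tp i).v) :
    rq (c.ρ false true k) (c.tp i) =
      (nm (c.tp i).π : La) * ((1 + X : La) ^ ((c.lv k).x.ig (c.tp i).φ).val - 1) := by
  rw [rq, c.ρ_tp false true k i (c.tp i).σ_ine, c.r0_ine' true (c.tp i).odd hi (c.tp i).σ_ine, ρ,
    Lv.ρ, Cb.r0, hi.xq ⟨(c.tp i).φ_mem, (c.tp i).tm.frob.1⟩, (c.tp i).cyc_φ, Lv.ex]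
  simp [mul_sub]

theorem rq_X (k : ℕ) {i : c.ι} (hi : Spt c.d (c.tp i).v) :
    ∃ u, IsUnit u ∧ rq (c.ρ false true k) (c.tp i) = X * u := by
  obtain ⟨u, hu, e⟩ := t1b_odd (c.t1b_ig k i)
  refine ⟨nm (c.tp i).π * u, IsUnit.mul ?_ hu, by rw [c.t1b_rq k hi, e, mul_left_comm]⟩
  have h := ((H3.cyc_unit (c.tp i).φ).map (algebraMap ℤ_[3] Ow)).map (C : Ow →+* La)
  rwa [(c.tp i).cyc_φ, map_natCast, map_natCast] at h

theorem rq_θ (k : ℕ) {i : c.ι} (hi : Spt c.d (c.tp i).v) :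
    -rq (c.ρ false true k) (c.tp i) = nm (c.tp i).π * (1 - c.θ false k (c.tp i).φ) := by
  rw [c.t1b_rq k hi, θ_false, hi.xq ⟨(c.tp i).φ_mem, (c.tp i).tm.frob.1⟩]
  ring

theorem ig_φ (k : ℕ) (i : c.ι) : ¬ 3 ∣ ((c.lv k).x.ig (c.tp i).φ).val := c.t1b_ig k i

end Cx

end Pool.Agent.Lib.MP_696deb_nt.EV.D
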