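import Pool.Agent.Lib.MP_696deb_nt.ED.T3
import Pool.Agent.Lib.MP_696deb_nt.EV.T4

/-! The tower: the presentation. -/

set_option autoImplicit false

open scoped Classical NNReal
open Finset Matrix PowerSeries

namespace Pool.Agent.Lib.MP_696deb_nt.EV.D

theorem t4_prime {y : Bool} {I : Ideal La} (h : Gd y I) : I.IsPrime :=
  h.elim (fun h => h.1.1) fun h => h.2 ▸ (Ideal.span_singleton_prime prime_ww.ne_zero).2 prime_ww

theorem t4_zero {z : ℕ → La} (h : ∀ k, z k ∈ aa k) : ul z = 0 :=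
  (ul_congr (.of_forall fun k => by rw [sub_zero]; exact h k)).trans (ul_const 0)

theorem t4_ww {z z' : ℕ → La} (h : ∀ k, z k - z' k ∈ Ideal.span {ww} ⊔ aa k) :
    ww ∣ ul z - ul z' := by
  rw [← ul_sub, ← Ideal.mem_span_singleton]
  exact ul_mem_iff.2 fun j => (ev_ge j).mono fun k hk => sup_le_sup_left (aa_anti hk) _ (h k)

theorem t4_row {R ι J : Type} [CommRing R] {st st' : ι → Prop} {t : ι → TP} {ρ ρ' : Gam → R}
    (β : Fin 4 → R) (L : Gam → J → R) (h : ∀ i, st i ↔ st' i) (e : ∀ g ∈ G, ρ g = ρ' g)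
    (x : Option (Option ι)) (j : J) : rowF st t ρ β L x j = rowF st' t ρ' β L x j := by
  rcases x with _ | _ | i
  · rfl
  · rfl
  · simp only [rowF, rq, h i, e _ (t i).σ_mem, e _ (t i).φ_mem]

namespace Cx

variable (c : Cx)

theorem t4_ew (hs : Spt c.d w3) {y : Bool} (b : Bool) {I : Ideal La} (hI : Gd y I) :
    ∃ i, (ul fun k => c.ρ y b k (ew i)) - 1 ∉ I := by
  obtain ⟨i, hi⟩ := c.exists_ew
  have m : ∀ _ : ℕ, ew i ∈ HF c.d := fun _ => ⟨(ew_mem i).1, hs (ew_mem i)⟩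
  rcases hI with ⟨h1, h2⟩ | ⟨-, rfl⟩
  · by_cases h : y = true ∨ b = true
    · rw [← ee_sp hs]
      refine ne_lim (c.chr y b) h1.ne_top (gw_Hw 0) ?_
      rw [funext fun k => c.ρ_w3 y b k (gw_spec.1 0), ul_const, ← map_one (C : Ow →+* La),
        ← map_sub]
      exact h1.C_notMem (c.r0_gw hs h)
    · obtain ⟨rfl, rfl⟩ : y = false ∧ b = false := by simpa using h
      obtain ⟨u, hu, e⟩ := c.X_ρ (fun _ => ew i) m hi
      exact ⟨i, fun k => h2 rfl ((I.mul_unit_mem_iff_mem hu).1 (e ▸ k))⟩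
  · exact ⟨i, fun k => (c.tu_ρ y b (fun _ => ew i) m hi).not_dvd (Ideal.mem_span_singleton.1 k)⟩

theorem t4_L {n : ℕ} (s : c.Stg n) (k : ℕ) (g : Gam) (j : Jx c.κ n ⊕ Fin 2) :
    s.L true true k g j - s.L false true k g j ∈ Ideal.span {ww} ⊔ aa k :=
  mem_wI.1 (by rw [map_sub]; exact (s.val2 k).cong g j)

theorem t4_rw {n : ℕ} (s : c.Stg n) (k : ℕ) (i : Jx c.κ n) (j : Jx c.κ n ⊕ Fin 2) :
    s.rw true true k i j - s.rw false true k i j ∈ Ideal.span {ww} ⊔ aa k := by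
  rw [← Ideal.Quotient.eq, Stg.rw, Stg.rw, rowF_map, rowF_map,
    funext fun i => Ideal.Quotient.eq.2 ((c.bw k).cg i),
    funext₂ fun g j => Ideal.Quotient.eq.2 (c.t4_L s k g j)]
  refine t4_row _ _ (fun a => ?_) (fun g hg => Ideal.Quotient.eq.2
    (Ideal.mem_sup_left (Ideal.mem_span_singleton.2 ((c.lv k).ρ_cong g hg)))) _ _
  simp [Cb.St, Cb.St0]

theorem t4_tf (k : ℕ) (i : c.κ) (j : c.κ ⊕ Fin 2) : c.s0.rw false true k i j =
    c.tf k (c.ty i) * c.bf k (c.s0.L false true k) (c.ty i) j := by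
  have e : c.tyn (n := 0) i = (c.ty i).map (Option.map some) := rfl
  have hs := c.rows.sp i
  rw [Stg.rw, e, c.s0.t_zero]
  generalize c.ty i = x at hs
  rcases x with _ | _ | a
  · exact (mul_zero _).symm
  · simp only [Option.map, rowF, tf, bf, (c.bw k).nu, mul_sum, mul_assoc]
  · have h := hs a rfl
    have q : c.St false true (n := 0) (some a) ↔ ¬ (c.tp a).π ∣ (c.t.N : O) :=
      ⟨fun ⟨a', h1, h2⟩ => by
        obtain rfl : a = a' := Option.some.inj h1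
        exact h2.2.resolve_right fun z => Bool.false_ne_true z.2.symm, fun z => ⟨a, rfl, h, .inl z⟩⟩
    change (if c.St false true (n := 0) (some a) then c.s0.L false true k (c.tp a).σ j else
      (c.ρ false true k (c.tp a).σ - 1) * c.s0.L false true k (c.tp a).φ j -
        rq (c.ρ false true k) (c.tp a) * c.s0.L false true k (c.tp a).σ j) =
      (if (c.tp a).π ∣ (c.t.N : O) then -rq (c.ρ false true k) (c.tp a) else 1) *
        c.s0.L false true k (c.tp a).σ j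
    by_cases z : (c.tp a).π ∣ (c.t.N : O)
    · rw [if_neg fun u => q.1 u z, if_pos z, c.ρ_tp _ _ k a (c.tp a).σ_ine,
        c.r0_ine' true (c.tp a).odd h (c.tp a).σ_ine, map_one]
      ring
    · rw [if_pos (q.2 z), if_neg z, one_mul]

theorem ok_vp : ∀ y b, IsUnit (c.dat.ρ y b c.dat.g0 - 1) :=
  fun y b => unit_lim (c.chr y b) c.g0_mem c.g0_chi

theorem ok_ne : ∀ y I, Gd y I → ∃ i, c.dat.ρ y false (c.dat.e i) - 1 ∉ I := by
  intro y I hI
  change ∃ i, (ul fun k => c.ρ y false k (ee c.d i)) - 1 ∉ I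
  by_cases hs : Spt c.d w3
  · rw [ee_sp hs]
    exact c.t4_ew hs false hI
  · obtain ⟨i, hi⟩ := ee_chi hs
    exact ⟨i, fun k => (t4_prime hI).ne_top
      (I.eq_top_of_isUnit_mem k (unit_lim (c.chr y false) (ee_mem _ i).1 hi))⟩

theorem ok_pres : ∀ {n : ℕ} (s : c.dat.St n) (y b : Bool),
    Pres (c.dat.ρ y b) (c.dat.gen s) (c.dat.L s y b) (c.dat.R s y b) (c.dat.Z s y b) :=
  fun s y b => pres_lim (c.chr y b) (Stg.unr s y b) (Stg.γ s) (Stg.prs s y b)

theorem ok_deep : ∀ {n : ℕ} (s : c.dat.St n) (y b : Bool) (i : Jx c.κ n), i.deep →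
    c.dat.ρ y b (c.dat.φ s i) = 1 ∧ c.dat.ρ y b (c.dat.gen s (.inl i)) = 1 ∧
      c.dat.R s y b i = 0 := by
  rintro n (s : c.Stg n) y b i hi
  refine ⟨EV.Cx.t4_one fun k => (s.deep y b k (Jx.pr_deep hi)).2.1, EV.Cx.t4_one fun k => ?_,
    funext fun j => t4_zero fun k => s.rw_deep y b k hi j⟩
  change c.ρ y b k (s.γ (.inl i) k) - 1 ∈ aa k
  rw [s.γ_deep k i hi, (s.deep y b k (Jx.pr_deep hi)).2.2.1 _ (s.t k i.pr).σ_ine, sub_self]
  exact zero_mem _

theorem ok_W_mem : ∀ {n : ℕ} (s : c.dat.St n) (y : Bool) (I : Ideal La),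
    ∀ f ∈ c.dat.Z s y false I, (fun i => f (c.dat.e i)) ∈ c.dat.W y I :=
  fun _ _ _ => WL_mem

theorem ok_lw : ∀ y I, Gd y I → ∀ a ∉ I,
    ¬ ∀ z : Fin 4 → La, ∃ v ∈ c.dat.W y I, ∀ i, v i - a * z i ∈ I :=
  fun y _ hI _ ha => lw_lim (c.dual y) (t4_prime hI) (fun hs => c.t4_ew hs true hI) ha

theorem ok_unit : ∀ {n : ℕ} (s : c.dat.St n) (i : Jx c.κ n), i.deep → IsUnit (c.dat.u s i) :=
  fun _ i _ => uL_unit _ i.pr

theorem ok_N_ρ : ∀ {n : ℕ} (s : c.dat.St n) (y b : Bool), ∀ x ∈ c.dat.N s, c.dat.ρ y b x = 1 :=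
  fun _ y b _ hx => EV.Cx.t4_one fun k => (hx k).ρ y b

theorem ok_comm : ∀ {n : ℕ} (s : c.dat.St n) (g : GG),
    cmt c.dat.g0 (cmt c.dat.g0 g) ∈ c.dat.N s :=
  fun s g k => Stg.inN_cmt s k (g k).2

theorem ok_cg_ρ : ∀ g, ww ∣ c.dat.ρ true true g - c.dat.ρ false true g :=
  fun g => t4_ww fun k =>
    Ideal.mem_sup_left (Ideal.mem_span_singleton.2 ((c.lv k).ρ_cong _ (g k).2))

theorem ok_cg_B : ∀ {n : ℕ} (s : c.dat.St n) i j,
    ww ∣ c.dat.B s true i j - c.dat.B s false i j := by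
  rintro n (s : c.Stg n) i j
  by_cases hi : i.deep
  · simp only [Dat.B, if_pos hi]
    exact t4_ww fun k => c.t4_L s k _ j
  · simp only [Dat.B, if_neg hi]
    exact t4_ww fun k => c.t4_rw s k i j

theorem ok_row : ∀ i j, c.dat.R c.dat.s0 false true i j = c.dat.t i * c.dat.B' i j :=
  fun i j => (congrArg ul (funext fun k => c.t4_tf k i j)).trans (ul_mul _ _)

theorem ok_t_ne : ∀ i, c.dat.t i ≠ 0 := by
  intro i
  change (ul fun k => c.tf k (c.ty i)) ≠ 0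
  have hs := c.rows.sp i
  generalize c.ty i = x at hs
  rcases x with _ | _ | a
  · exact (ul_const 1).trans_ne one_ne_zero
  · exact (ul_const X).trans_ne X_ne_zero
  · by_cases z : (c.tp a).π ∣ (c.t.N : O)
    · choose u hu hu' using fun k => c.rq_X k (hs a rfl)
      simp only [tf, if_pos z, hu', ul_neg, ul_mul, ul_const]
      exact neg_ne_zero.2 (mul_ne_zero X_ne_zero (ul_unit (.of_forall hu)).ne_zero)
    · simp only [tf, if_neg z, ul_const]
      exact one_ne_zero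

end Cx

end Pool.Agent.Lib.MP_696deb_nt.EV.D
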