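import Pool.Agent.Lib.MP_696deb_nt.ED.Sys

/-! Rigidified cocycles. -/

set_option autoImplicit false

open scoped Classical NNReal
open Finset Matrix PowerSeries

namespace Pool.Agent.Lib.MP_696deb_nt.EV.D

theorem Gd.prime {y : Bool} {I : Ideal La} (h : Gd y I) : I.IsPrime :=
  h.elim (fun k => k.1.1) fun k => k.2 ▸ (Ideal.span_singleton_prime prime_ww.ne_zero).2 prime_ww

theorem gd_X : Gd true (Ideal.span {X}) := .inl ⟨pr_X, fun e => nomatch e⟩

theorem gd_w : Gd true (Ideal.span {ww}) := .inr ⟨rfl, rfl⟩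

namespace Dat

variable {Γ κ : Type} [Group Γ] [Fintype κ] {D : Dat Γ κ} {n : ℕ} {s : D.St n} {y b : Bool}
  {I : Ideal La} {c c' : Γ → La}

theorem Ok.val_cmt (h : D.Ok) (hc : c ∈ D.Z s y b I) (g : Γ) :
    c (cmt D.g0 (cmt D.g0 g)) - (D.ρ y b D.g0 - 1) * D.hat y b c g ∈ I := by
  have k := (h.pres s y b).coc I c hc
  have h1 := topA_cmt k D.g0 (cmt D.g0 g)
  rw [topA_one] at h1
  convert I.add_mem h1 (I.mul_mem_left (D.ρ y b D.g0 - 1) (topA_cmt k D.g0 g)) using 1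
  rw [hat]
  ring

theorem Ok.topA_pow (h : D.Ok) (hc : c ∈ D.Z s y b I) {x z : Γ} (hx : x ∈ D.N s) (hz : z ∈ D.N s)
    (t : ℕ) : c (x * z ^ t) - (c x + t * c z) ∈ I := by
  induction t with
  | zero => simp
  | succ t ih =>
    have k := (h.pres s y b).coc I c hc (x * z ^ t) z
    rw [h.N_ρ s y b _ (mul_mem hx (pow_mem hz t))] at k
    rw [pow_succ, ← mul_assoc]
    convert I.add_mem k ih using 1
    push_cast
    ring

theorem Ok.topA_sub (h : D.Ok) (hI : I.IsPrime) (hc : c ∈ D.Z s y b I) {x z : Γ} (hx : x ∈ D.N s)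
    (hz : z ∈ D.N s) (k : c x ∉ I ∨ c z ∉ I ∧ 3 ∉ I) :
    {t : ℕ | c (x * z ^ (3 * t)) ∈ I}.Subsingleton := by
  by_cases h3 : 3 ∈ I
  · refine fun t a => absurd ?_ (k.resolve_right fun e => e.2 h3)
    have b1 := (I.sub_mem_iff_right a).1 (h.topA_pow hc hx hz (3 * t))
    rw [Nat.cast_mul, mul_assoc] at b1
    exact (I.add_mem_iff_left (I.mul_mem_right _ h3)).1 b1
  have k1 : ∀ t t' : ℕ, c (x * z ^ t) ∈ I → c (x * z ^ t') ∈ I → ¬ t < t' := fun t t' a a' e => by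
    obtain ⟨d, rfl⟩ := Nat.exists_eq_add_of_lt e
    have b1 := (I.sub_mem_iff_right a).1 (h.topA_pow hc hx hz t)
    have b2 := (I.sub_mem_iff_right a').1 (h.topA_pow hc hx hz (t + d + 1))
    have b3 : ((d + 1 : ℕ) : La) * c z ∈ I := by
      convert I.sub_mem b2 b1 using 1
      push_cast
      ring
    have b4 := (hI.mem_or_mem b3).resolve_left (topA_nat ⟨hI, h3⟩ d.succ_ne_zero)
    exact k.elim (fun k => k ((I.add_mem_iff_left (I.mul_mem_left _ b4)).1 b1)) fun k => k.1 b4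
  intro t a t' a'
  have := k1 _ _ a a'
  have := k1 _ _ a' a
  omega

theorem Ok.common (h : D.Ok) (s : D.St n) {m : ℕ} (c : Fin m → Γ → La) (y b : Fin m → Bool)
    (J : Fin m → Ideal La) (hc : ∀ i, (J i).IsPrime ∧ c i ∈ D.Z s (y i) (b i) (J i))
    (h3 : ∀ i, 3 ∈ J i → i.val < 2) (h0 : ∀ i, ∃ g, D.hat (y i) (b i) (c i) g ∉ J i) :
    ∃ x ∈ D.N s, ∀ i, c i x ∉ J i := by
  have k1 : ∀ j, ∃ z ∈ D.N s, c j z ∉ J j := fun j => (h0 j).elim fun g hg =>
    ⟨_, h.comm s g, fun e => hg (((J j).unit_mul_mem_iff_mem (h.vp _ _)).1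
      (((J j).sub_mem_iff_right e).1 (h.val_cmt (hc j).2 g)))⟩
  have k2 : ∀ i j, ∃ z ∈ D.N s, c i z ∉ J i ∧ c j z ∉ J j := fun i j => by
    obtain ⟨x, hx, a⟩ := k1 i
    obtain ⟨z, hz, a'⟩ := k1 j
    by_cases e : c j x ∈ J j
    · by_cases e' : c i z ∈ J i
      · have b1 := h.topA_pow (hc i).2 hx hz 1
        have b2 := h.topA_pow (hc j).2 hx hz 1
        rw [Nat.cast_one, one_mul] at b1 b2
        exact ⟨_, mul_mem hx (pow_mem hz 1), fun k => a (((J i).add_mem_iff_left e').1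
          (((J i).sub_mem_iff_right k).1 b1)), fun k => a' (((J j).add_mem_iff_right e).1
          (((J j).sub_mem_iff_right k).1 b2))⟩
      · exact ⟨z, hz, e', a'⟩
    · exact ⟨x, hx, a, e⟩
  suffices k : ∀ T : Finset (Fin m), ∃ x ∈ D.N s, ∀ i, i ∈ T ∨ i.val < 2 → c i x ∉ J i from
    (k univ).imp fun x hx => ⟨hx.1, fun i => hx.2 i (.inl (mem_univ i))⟩
  intro T
  induction T using Finset.induction_on with
  | empty =>
    rcases m with _ | m
    · exact ⟨1, one_mem _, fun i => i.elim0⟩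
    obtain ⟨x, hx, a, a'⟩ := k2 0 (Fin.ofNat _ 1)
    refine ⟨x, hx, fun i hi => ?_⟩
    have hi := hi.resolve_left (notMem_empty i)
    by_cases e : i = 0
    · exact e ▸ a
    · have e1 : i.val ≠ 0 := fun k => e (Fin.ext k)
      have e2 := i.2
      rwa [show i = Fin.ofNat _ 1 from Fin.ext (by
        rw [Fin.val_ofNat, Nat.mod_eq_of_lt (by omega)]; omega)]
  | insert j T _ ih =>
    obtain ⟨x, hx, k⟩ := ih
    by_cases e : j.val < 2
    · exact ⟨x, hx, fun i hi => k i (hi.elim (fun a => (mem_insert.1 a).symm.imp id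
        fun a : i = j => a ▸ e) .inr)⟩
    obtain ⟨z, hz, a⟩ := k1 j
    obtain ⟨t, ht⟩ := ((Set.toFinite {i | i ∈ insert j T ∨ i.val < 2}).biUnion fun i hi =>
      (h.topA_sub (hc i).1 (hc i).2 hx hz (by
        by_cases e' : i = j
        · exact .inr (e' ▸ ⟨a, fun r => e (h3 j r)⟩)
        · exact .inl (k i (hi.imp_left fun r => (mem_insert.1 r).resolve_left e')))).finite
      ).exists_notMem
    exact ⟨_, mul_mem hx (pow_mem hz (3 * t)), fun i hi r => ht (Set.mem_biUnion hi r)⟩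

/-- A new prime at which the given cocycles do not vanish. -/
theorem Ok.new (h : D.Ok) (s : D.St n) {m : ℕ} (c : Fin m → Γ → La) (y b : Fin m → Bool)
    (J : Fin m → Ideal La) (hc : ∀ i, (J i).IsPrime ∧ c i ∈ D.Z s (y i) (b i) (J i))
    (h3 : ∀ i, 3 ∈ J i → i.val < 2) (h0 : ∀ i, ∃ g, D.hat (y i) (b i) (c i) g ∉ J i) :
    ∃ s' : D.St (n + 1), D.Ext s s' ∧ ∀ i, c i (D.φ s' none) ∉ J i := by
  obtain ⟨x, hx, k⟩ := h.common s c y b J hc h3 h0
  obtain ⟨s', t, h1, h2, h3⟩ := h.step s x hx m c y b J fun i => ⟨(hc i).1.ne_top, (hc i).2⟩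
  exact ⟨s', h1, fun i e =>
    k i (((J i).unit_mul_mem_iff_mem h2).1 (((J i).sub_mem_iff_right e).1 (h3 i)))⟩

theorem Ok.new1 (h : D.Ok) (hI : I.IsPrime) (hc : c ∈ D.Z s y b I) (h0 : ∃ g, D.hat y b c g ∉ I) :
    ∃ s' : D.St (n + 1), D.Ext s s' ∧ c (D.φ s' none) ∉ I :=
  (h.new s (fun _ : Fin 1 => c) (fun _ => y) (fun _ => b) (fun _ => I) (fun _ => ⟨hI, hc⟩)
    (fun i _ => by omega) fun _ => h0).imp fun _ k => ⟨k.1, k.2 0⟩

theorem Ok.two (h : D.Ok) (hI : I.IsPrime) (y b : Bool) (c : Fin 3 → Γ → La)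
    (hx : Indep I fun i j => c i (D.gen s j)) : ∃ i j, D.Two y b I (c i) (c j) := by
  have z : ∀ v : Fin 3 → La, (∀ g, ∑ i, v i * D.hat y b (c i) g ∈ I) →
      ∑ i, v i * c i D.g0 ∈ I → ∀ i, v i ∈ I := fun v h1 h2 => hx v fun j => by
    refine (I.unit_mul_mem_iff_mem (h.vp y b)).1 ?_
    convert I.add_mem (h1 (D.gen s j)) (I.mul_mem_left (D.ρ y b (D.gen s j) - 1) h2) using 1
    simp only [hat, Fin.sum_univ_three]
    ring
  have key : ∀ u u' : Fin 3 → La, (∀ g, ∑ i, u i * D.hat y b (c i) g ∈ I) →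
      (∀ g, ∑ i, u' i * D.hat y b (c i) g ∈ I) → (¬ ∀ i, u i ∈ I) → ∀ k, u k ∈ I → u' k ∈ I :=
    fun u u' h1 h2 h3 k h4 => by
      have h5 := z (fun k => (∑ i, u i * c i D.g0) * u' k - (∑ i, u' i * c i D.g0) * u k)
        (fun g => by
          convert I.sub_mem (I.mul_mem_left (∑ i, u i * c i D.g0) (h2 g))
            (I.mul_mem_left (∑ i, u' i * c i D.g0) (h1 g)) using 1
          simp only [Fin.sum_univ_three]
          ring)
        (by
          convert I.zero_mem using 1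
          simp only [Fin.sum_univ_three]
          ring) k
      exact (hI.mem_or_mem ((I.sub_mem_iff_left (I.mul_mem_left _ h4)).1 h5)).resolve_left
        fun e => h3 (z u h1 e)
  by_contra hn
  simp only [not_exists, Two, not_forall] at hn
  obtain ⟨t1, t2, a1, a2⟩ := hn 0 1
  obtain ⟨s1, s2, b1, b2⟩ := hn 0 2
  obtain ⟨r1, r2, c1, c2⟩ := hn 1 2
  have e : ∀ g, ∑ i, ![0, r1, r2] i * D.hat y b (c i) g ∈ I := fun g => by
    simpa [Fin.sum_univ_three] using c1 g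
  exact c2 ⟨key ![s1, 0, s2] _ (fun g => by simpa [Fin.sum_univ_three] using b1 g) e
      (fun k => b2 ⟨k 0, k 2⟩) 1 I.zero_mem,
    key ![t1, t2, 0] _ (fun g => by simpa [Fin.sum_univ_three] using a1 g) e
      (fun k => a2 ⟨k 0, k 1⟩) 2 I.zero_mem⟩

theorem Ok.ker (h : D.Ok) (hI : I ≠ ⊤) (hc : c ∈ D.Z s y true I) (ht : D.Tr s I c) (i : Jx κ n) :
    (D.B s y *ᵥ fun j => c (D.gen s j)) i ∈ I := by
  change D.B s y i ⬝ᵥ _ ∈ I
  rw [B]
  split_ifs with e
  · exact (I.sub_mem_iff_right (ht i e)).1 ((h.pres s y true).val I hI c hc (D.φ s i))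
  · exact (h.pres s y true).rel I hI c hc i

theorem Ok.val_x (h : D.Ok) (hI : I ≠ ⊤) (hc : c ∈ D.Z s y b I) {x : Jx κ n ⊕ Fin 2 → La}
    (k : ∀ j, c (D.gen s j) - x j ∈ I) (g : Γ) : c g - D.L s y b g ⬝ᵥ x ∈ I := by
  convert I.add_mem ((h.pres s y b).val I hI c hc g) (topA_dot (D.L s y b g) k) using 1
  simp only [dotProduct, mul_sub, sum_sub_distrib]
  ring

theorem Ok.of_ker (h : D.Ok) (hI : I ≠ ⊤) {x : Jx κ n ⊕ Fin 2 → La}
    (hx : ∀ i, (D.B s y *ᵥ x) i ∈ I) :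
    ∃ c ∈ D.Z s y true I, D.Tr s I c ∧ ∀ j, c (D.gen s j) - x j ∈ I := by
  have k : ∀ i, D.B s y i ⬝ᵥ x ∈ I := hx
  obtain ⟨c, hc, k1⟩ := (h.pres s y true).ex I hI x fun i => by
    by_cases e : i.deep
    · rw [(h.deep s y true i e).2.2, zero_dotProduct]
      exact I.zero_mem
    · simpa only [B, if_neg e] using k i
  refine ⟨c, hc, fun i e => ?_, k1⟩
  have k2 := k i
  simp only [B, if_pos e] at k2
  exact (I.sub_mem_iff_left k2).1 (h.val_x hI hc k1 _)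

theorem Ok.hat_wd (h : D.Ok) (k : ∀ g, D.hat y true c g ∈ I) (l l' : Jx κ n ⊕ Fin 2 → La) :
    wd (fun j => D.ρ y true (D.gen s j) - 1) (fun j => c (D.gen s j)) l l' ∈ I := by
  have e : ∀ l : Jx κ n ⊕ Fin 2 → La, (D.ρ y true D.g0 - 1) * (l ⬝ᵥ fun j => c (D.gen s j)) -
      (l ⬝ᵥ fun j => D.ρ y true (D.gen s j) - 1) * c D.g0 ∈ I := fun l => by
    convert topA_dot l fun j => k (D.gen s j) using 1
    simp only [dotProduct, mul_sum, sum_mul, ← sum_sub_distrib, hat]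
    exact sum_congr rfl fun j _ => by ring
  refine (I.unit_mul_mem_iff_mem (h.vp y true)).1 ?_
  convert I.sub_mem (I.mul_mem_left (l ⬝ᵥ fun j => D.ρ y true (D.gen s j) - 1) (e l'))
    (I.mul_mem_left (l' ⬝ᵥ fun j => D.ρ y true (D.gen s j) - 1) (e l)) using 1
  rw [wd]
  ring

/-- The rigidified cocycle as an exterior product. -/
theorem Ok.wd_hat (h : D.Ok) (hI : I ≠ ⊤) (hc : c ∈ D.Z s y true I) (g : Γ) :
    wd (fun j => D.ρ y true (D.gen s j) - 1) (fun j => c (D.gen s j)) (D.L s y true D.g0)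
      (D.L s y true g) - D.hat y true c g ∈ I := by
  have a := fun g => sub_eq_zero.1 ((h.pres s y true).val ⊥ bot_ne_top _
    ((h.pres s y true).cob ⊥) g)
  have k := (h.pres s y true).val I hI c hc
  rw [wd, ← a, ← a, hat]
  convert I.sub_mem (I.mul_mem_left (D.ρ y true g - 1) (k D.g0))
    (I.mul_mem_left (D.ρ y true D.g0 - 1) (k g)) using 1
  ring

theorem Ext.B {s' : D.St (n + 1)} (h : D.Ext s s') (i : Jx κ n) (j : Jx κ n ⊕ Fin 2) :
    D.B s' y (some i) (old j) = D.B s y i j := by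
  have e : Jx.deep (n := n + 1) (some i) ↔ i.deep := Iff.rfl
  by_cases k : i.deep
  · simp only [Dat.B, if_pos k, if_pos (e.2 k), h.φ, h.L]
  · simp only [Dat.B, if_neg k, if_neg (mt e.1 k), h.R]

theorem Ext.B_none {s' : D.St (n + 1)} (h : D.Ext s s') (j : Jx κ n ⊕ Fin 2) :
    D.B s' y none (old j) = D.L s y true (D.φ s' none) j := by
  have e : Jx.deep (κ := κ) (n := n + 1) none := trivial
  simp only [Dat.B, if_pos e, h.L]

theorem sum_deep_succ (f : Jx κ (n + 1) → La) :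
    ∑ i : Jx κ (n + 1) with i.deep, f i = f none + ∑ i : Jx κ n with i.deep, f (some i) := by
  rw [sum_filter, sum_filter]
  refine (Fintype.sum_option (α := Jx κ n) _).trans ?_
  exact congrArg₂ (· + ·) (if_pos trivial) (sum_congr rfl fun i _ => if_congr Iff.rfl rfl rfl)

end Dat

end Pool.Agent.Lib.MP_696deb_nt.EV.D
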