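import Pool.Agent.Lib.MP_696deb_nt.ED.TopA

/-! Existence of a dual class, and the drop of the rank. -/

set_option autoImplicit false

open scoped Classical NNReal
open Finset Matrix PowerSeries

namespace Pool.Agent.Lib.MP_696deb_nt.EV.D

namespace Dat

open EV.Dat (topb_indep topc_old)

variable {Γ κ : Type} [Group Γ] [Fintype κ] {D : Dat Γ κ} {n : ℕ} {s : D.St n} {y b : Bool}
  {I : Ideal La} {c c' : Γ → La}

theorem Ok.four (h : D.Ok) (hI : Gd y I) {x : Fin 4 → Fin 4 → La} (hx : ∀ i, x i ∈ D.W y I) :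
    ¬ Indep I x := fun k => by
  obtain ⟨d, d1, d2⟩ := k.span hI.prime
  refine h.lw y I hI d d1 fun z => ?_
  obtain ⟨t, ht⟩ := d2 z
  exact ⟨∑ i, t i • x i, Submodule.sum_mem _ fun i _ => Submodule.smul_mem _ _ (hx i), fun j => by
    simpa only [Finset.sum_apply, Pi.smul_apply, smul_eq_mul] using ht j⟩

/-- A nonzero dual cocycle that is trivial at three and at the Frobenius elements of the old primes. -/
theorem Ok.count (h : D.Ok) (hI : Gd y I) (s : D.St (n + 2)) :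
    ∃ c ∈ D.Z s y false I, (∃ j, c (D.gen s j) ∉ I) ∧ (∀ i, c (D.e i) ∈ I) ∧
      ∀ i : Jx κ n, i.deep → c (D.φ s (some (some i))) ∈ I := by
  have hp := hI.prime
  obtain ⟨x, x1, x2⟩ := exists_indep (m := 4) hp (Matrix.of fun i : Jx κ n =>
    if i.deep then D.L s y false (D.φ s (some (some i))) else D.R s y false (some (some i))) (by
      simp only [Fintype.card_sum, Jx.card, Fintype.card_fin]
      omega)
  choose c c1 c2 using fun a => (h.pres s y false).ex I hp.ne_top (x a) fun i => by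
    by_cases hi : i.deep
    · rw [(h.deep s y false i hi).2.2, zero_dotProduct]
      exact I.zero_mem
    rcases i with _ | _ | i
    · exact absurd trivial hi
    · exact absurd trivial hi
    · have := x2 a i
      rwa [mulVec, show (Matrix.of _ : Matrix _ _ La) i = _ from if_neg hi] at this
  obtain ⟨t, ht⟩ := not_forall.1 (h.four hI fun a => h.W_mem s y I _ (c1 a))
  obtain ⟨t1, t2⟩ := Classical.not_imp.1 ht
  have ev (g : Γ) : (∑ a, t a • c a) g = ∑ a, t a * c a g := by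
    simp only [Finset.sum_apply, Pi.smul_apply, smul_eq_mul]
  refine ⟨∑ a, t a • c a, Submodule.sum_mem _ fun a _ => Submodule.smul_mem _ _ (c1 a),
    not_forall.1 fun k => t2 (topb_indep x1 c2 t fun j => ev _ ▸ k j), fun i => ev _ ▸ t1 i,
    fun i hi => ev _ ▸ I.sum_mem fun a _ => I.mul_mem_left _ ?_⟩
  have k1 := x2 a i
  rw [mulVec, show (Matrix.of _ : Matrix _ _ La) i = _ from if_pos hi] at k1
  exact (I.sub_mem_iff_left k1).1 (h.val_x hp.ne_top (c1 a) (c2 a) _)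

theorem Ok.hat_ne (h : D.Ok) (hI : Gd y I) (h0 : ∃ j, c (D.gen s j) ∉ I)
    (he : ∀ i, c (D.e i) ∈ I) : ∃ g, D.hat y false c g ∉ I := by
  by_contra! k
  obtain ⟨j, hj⟩ := h0
  obtain ⟨i, hi⟩ := h.ne y I hI
  have k1 : c D.g0 ∈ I := (hI.prime.mem_or_mem (by
    simpa [hat] using
      I.sub_mem (I.mul_mem_left (D.ρ y false D.g0 - 1) (he i)) (k (D.e i)))).resolve_left hi
  exact hj ((I.unit_mul_mem_iff_mem (h.vp y false)).1 (by
    simpa [hat] using I.add_mem (k (D.gen s j))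
      (I.mul_mem_left (D.ρ y false (D.gen s j) - 1) k1)))

/-- The reciprocity law removes the ramification at the new prime. -/
theorem Ok.topb_unr (h : D.Ok) (hI : Gd y I) {s' : D.St (n + 1)} (E : D.Ext s s')
    (hc : c ∈ D.Z s y true I) (hc' : c' ∈ D.Z s' y false I) (he : ∀ i, c' (D.e i) ∈ I)
    (h0 : c (D.φ s' none) ∉ I) (ht : ∀ i : Jx κ n, i.deep → c (D.φ s i) ∈ I ∧
      (c' (D.φ s i) ∈ I ∨ c (D.gen s (.inl i)) ∈ I)) : c' ∈ D.Z s y false I := by
  have k := h.recip y I hI s' c (E.le _ _ _ hc) c' hc' he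
  rw [sum_deep_succ, I.add_mem_iff_left (I.sum_mem fun i hi => I.mul_mem_left _ ?_),
    I.unit_mul_mem_iff_mem (h.unit s' none trivial),
    I.sub_mem_iff_right (I.mul_mem_left _ (E.zero _ _ _ c hc))] at k
  · exact E.unr _ _ _ hI.prime.ne_top c' hc' ((hI.prime.mem_or_mem k).resolve_right h0)
  · obtain ⟨k1, k2⟩ := ht i (mem_filter.1 hi).2
    rw [E.φ, show D.gen s' (.inl (some i)) = _ from E.gen (.inl i)]
    exact I.sub_mem (k2.elim (I.mul_mem_right _) (I.mul_mem_left _)) (I.mul_mem_left _ k1)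

theorem Two.ne (hI : I ≠ ⊤) (T : D.Two y b I c c') : ∃ g, D.hat y b c g ∉ I :=
  not_forall.1 fun k => hI ((Ideal.eq_top_iff_one I).2 (T 1 0 fun g => by simpa using k g).1)

theorem Ok.dual (h : D.Ok) (hI : Gd y I) (hz : D.Zr s y I 3) :
    (∃ c ∈ D.Z s y true I, D.Tr s I c ∧ ∃ g, D.hat y true c g ∉ I) ∧
    ∃ c ∈ D.Z s y false I, D.Tr s I c ∧ (∀ i, c (D.e i) ∈ I) ∧ ∃ g, D.hat y false c g ∉ I := by
  have hp := hI.prime
  obtain ⟨x, x1, x2⟩ := hz
  choose z z1 z2 z3 using fun a => h.of_ker hp.ne_top (x2 a)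
  obtain ⟨a, a', T⟩ := h.two hp y true z (topb_indep x1 z3)
  have n1 := T.ne hp.ne_top
  refine ⟨⟨_, z1 a, z2 a, n1⟩, ?_⟩
  obtain ⟨s₁, E₁, e₁⟩ := h.new1 hp (z1 a) n1
  let c := z a (D.φ s₁ none) • z a' - z a' (D.φ s₁ none) • z a
  have c1 : c ∈ D.Z s y true I :=
    sub_mem (Submodule.smul_mem _ _ (z1 a')) (Submodule.smul_mem _ _ (z1 a))
  have n2 : ∃ g, D.hat y true c g ∉ I := not_forall.1 fun k =>
    e₁ (T (-z a' (D.φ s₁ none)) _ fun g => by
      convert k g using 1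
      simp only [hat, c, Pi.sub_apply, Pi.smul_apply, smul_eq_mul]
      ring).2
  obtain ⟨s₂, E₂, e₂⟩ := h.new1 hp (E₁.le _ _ _ c1) n2
  obtain ⟨d, d1, d2, d3, d4⟩ := h.count hI s₂
  have d5 : D.Tr s I d := fun i hi => ((E₂.φ (some i)).trans (E₁.φ i)) ▸ d4 i hi
  have d6 : d ∈ D.Z s₁ y false I := by
    refine h.topb_unr hI E₂ (E₁.le _ _ _ c1) d1 d3 e₂ ?_
    rintro (_ | i) hi
    · refine ⟨?_, .inr (E₁.zero _ _ _ c c1)⟩
      change _ * _ - _ * _ ∈ I
      rw [mul_comm, sub_self]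
      exact I.zero_mem
    · rw [E₁.φ]
      exact ⟨I.sub_mem (I.mul_mem_left _ (z2 a' i hi)) (I.mul_mem_left _ (z2 a i hi)),
        .inl (d5 i hi)⟩
  exact ⟨d, h.topb_unr hI E₁ (z1 a) d6 d3 e₁ fun i hi => ⟨z2 a i hi, .inl (d5 i hi)⟩, d5, d3,
    h.hat_ne hI d2 d3⟩

/-- A cocycle that vanishes at the generators vanishes. -/
theorem Ok.van (h : D.Ok) (hI : I ≠ ⊤) (hc : c ∈ D.Z s y b I) (k : ∀ j, c (D.gen s j) ∈ I)
    (g : Γ) : c g ∈ I :=
  (I.sub_mem_iff_left (I.sum_mem fun j _ => I.mul_mem_left _ (k j))).1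
    ((h.pres s y b).val I hI c hc g)

/-- The rank drops, and two more cocycles do not vanish at the new prime. -/
theorem Ok.drop (h : D.Ok) (hI : Gd y I) (hz : D.Zr s y I 3) {f f' : Γ → La} {y₁ y₂ : Bool}
    {J J' : Ideal La} (hJ : Pr J) (hJ' : Pr J') (hf : f ∈ D.Z s y₁ true J)
    (hf' : f' ∈ D.Z s y₂ true J') (h0 : ∃ g, D.hat y₁ true f g ∉ J)
    (h0' : ∃ g, D.hat y₂ true f' g ∉ J') :
    ∃ s' : D.St (n + 1), D.Ext s s' ∧ f (D.φ s' none) ∉ J ∧ f' (D.φ s' none) ∉ J' ∧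
      ∀ m, D.Zr s' y I m → D.Zr s y I (m + 1) := by
  have hp := hI.prime
  obtain ⟨⟨c, hc, tc, c0⟩, c', hc', tc', e', c0'⟩ := h.dual hI hz
  obtain ⟨s', he, hn⟩ := h.new s ![c, c', f, f'] ![y, y, y₁, y₂] ![true, false, true, true]
    ![I, I, J, J']
    (fun i => by
      fin_cases i
      exacts [⟨hp, hc⟩, ⟨hp, hc'⟩, ⟨hJ.1, hf⟩, ⟨hJ'.1, hf'⟩])
    (fun i => by
      fin_cases i
      exacts [fun _ => two_pos, fun _ => one_lt_two, fun e => absurd e hJ.2,
        fun e => absurd e hJ'.2])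
    (fun i => by
      fin_cases i
      exacts [c0, c0', h0, h0'])
  have n0 : c (D.φ s' none) ∉ I := hn 0
  have n1 : c' (D.φ s' none) ∉ I := hn 1
  refine ⟨s', he, hn 2, hn 3, fun m ⟨x, hx, kx⟩ => ?_⟩
  choose z hz tz ez using fun i => h.of_ker hp.ne_top (kx i)
  have h1 : ∀ i, z i (D.gen s' (.inl none)) ∈ I := fun i => by
    have r := h.recip y I hI s' _ (hz i) c' (he.le _ _ _ hc') e'
    rw [sum_deep_succ] at r
    have r := (I.add_mem_iff_left (I.sum_mem fun j hj => I.mul_mem_left _ (I.sub_mem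
      (I.mul_mem_right _ ((he.φ j).symm ▸ tc' j (mem_filter.1 hj).2))
      (I.mul_mem_left _ (tz i (some j) (mem_filter.1 hj).2))))).1 r
    have r := (I.sub_mem_iff_left (I.mul_mem_left _ (tz i none trivial))).1
      ((I.unit_mul_mem_iff_mem (h.unit s' none trivial)).1 r)
    exact (hp.mem_or_mem r).resolve_left n1
  have h2 : ∀ i, z i ∈ D.Z s y true I := fun i => he.unr _ _ _ hp.ne_top _ (hz i) (h1 i)
  have h3 : ∀ i, D.Tr s I (z i) := fun i j hj => by
    rw [← he.φ]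
    exact tz i (some j) hj
  have h4 : Indep I fun i j => z i (D.gen s j) := fun t ht => hx t fun j => by
    have k : ∑ i, t i * z i (D.gen s' j) ∈ I := by
      rcases topc_old j with rfl | ⟨j, rfl⟩
      · exact I.sum_mem fun i _ => I.mul_mem_left _ (h1 i)
      · simpa only [he.gen] using ht j
    have := I.sub_mem k (I.sum_mem fun i (_ : i ∈ univ) => I.mul_mem_left (t i) (ez i j))
    simpa only [mul_sub, sum_sub_distrib, sub_sub_cancel] using this
  refine ⟨Fin.cons (fun j => c (D.gen s j)) fun i j => z i (D.gen s j),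
    h4.cons hp fun d t k => ?_, fun i => ?_⟩
  · have := h.van hp.ne_top (c := d • c - ∑ i, t i • z i) (Submodule.sub_mem _
      (Submodule.smul_mem _ _ hc) (Submodule.sum_mem _ fun i _ => Submodule.smul_mem _ _ (h2 i)))
      (fun j => by simpa using k j) (D.φ s' none)
    simp only [Pi.sub_apply, Pi.smul_apply, Finset.sum_apply, smul_eq_mul] at this
    rw [I.sub_mem_iff_left (I.sum_mem fun i _ => I.mul_mem_left _ (tz i none trivial))] at this
    exact (hp.mem_or_mem this).resolve_right n0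
  · refine Fin.cases ?_ (fun i => ?_) i
    exacts [h.ker hp.ne_top hc tc, h.ker hp.ne_top (h2 i) (h3 i)]

end Dat

end Pool.Agent.Lib.MP_696deb_nt.EV.D
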