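import Pool.Agent.Lib.MP_696deb_nt.ED.TopB

/-! The ratio of determinants along a chain of primes. -/

set_option autoImplicit false

open scoped Classical NNReal
open Finset Matrix PowerSeries

namespace Pool.Agent.Lib.MP_696deb_nt.EV.D

section

variable {S S' : Type} [CommRing S] [CommRing S'] {ι : Type} [Fintype ι]
  {B : Matrix ι (ι ⊕ Fin 2) S} {a c l l' m m' : ι ⊕ Fin 2 → S}

theorem dt_map (f : S →+* S') (B : Matrix ι (ι ⊕ Fin 2) S) (l l' : ι ⊕ Fin 2 → S) :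
    f (Dt B l l') = Dt (B.map f) (f ∘ l) (f ∘ l') := by
  rw [Dt, Dt, RingHom.map_det]
  congr 1
  ext r j
  rcases r with i | k
  · rfl
  · fin_cases k <;> rfl

theorem wd_map (f : S →+* S') (a c l l' : ι → S) :
    f (wd a c l l') = wd (f ∘ a) (f ∘ c) (f ∘ l) (f ∘ l') := by
  simp only [wd, map_sub, map_mul, RingHom.map_dotProduct]

theorem dt_row (t : ι → S) (B : Matrix ι (ι ⊕ Fin 2) S) (l l' : ι ⊕ Fin 2 → S) :
    Dt (Matrix.of fun i j => t i * B i j) l l' = (∏ i, t i) * Dt B l l' := by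
  have := det_mul_column (Sum.elim t 1 : ι ⊕ Fin 2 → S)
    (Matrix.of (Sum.elim B ![l, l']) : Matrix (ι ⊕ Fin 2) (ι ⊕ Fin 2) S)
  rw [Fintype.prod_sum_type] at this
  simp only [Sum.elim_inl, Sum.elim_inr, Pi.one_apply, prod_const_one, mul_one] at this
  rw [Dt, Dt, ← this]
  congr 1
  ext r j
  rcases r with i | k
  · rfl
  · exact (one_mul _).symm

theorem dt_mod {I : Ideal S} (hI : I.IsPrime) (ha : ∀ i, (B *ᵥ a) i ∈ I) (hc : ∀ i, (B *ᵥ c) i ∈ I)
    (h0 : Dt B l l' ∉ I) (h1 : wd a c m m' ∉ I) : Dt B m m' ∉ I := fun h => by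
  have e : ∀ {x : S}, Ideal.Quotient.mk I x = 0 ↔ x ∈ I := Ideal.Quotient.eq_zero_iff_mem
  have k : ∀ {x}, (∀ i, (B *ᵥ x) i ∈ I) →
      B.map (Ideal.Quotient.mk I) *ᵥ (Ideal.Quotient.mk I ∘ x) = 0 := fun hx =>
    funext fun i => (RingHom.map_mulVec _ _ _ i).symm.trans (e.2 (hx i))
  have r := rat_of (k ha) (k hc) (fun z => h0 (e.1 ((dt_map _ B l l').trans z))) (mul_comm _ _)
    (Ideal.Quotient.mk I ∘ m) (Ideal.Quotient.mk I ∘ m')
  rw [← dt_map, ← dt_map, ← wd_map, e.2 h, mul_zero, ← map_mul, e] at r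
  exact (hI.mem_or_mem r).elim h0 h1

theorem rat_next [IsDomain S] {B' : Matrix (Option ι) (Option ι ⊕ Fin 2) S}
    {a' c' : Option ι ⊕ Fin 2 → S} {p q : S} (h : ∀ i j, B' (some i) (old j) = B i j)
    (ha : B' *ᵥ a' = 0) (hc : B' *ᵥ c' = 0) (a1 : ∀ j, a' (old j) = a j)
    (a2 : a' (.inl none) = 0) (a3 : (fun j => B' none (old j)) ⬝ᵥ a = 0)
    (c1 : c' (.inl none) = -((fun j => B' none (old j)) ⬝ᵥ c)) {I : Ideal S} {j : ι ⊕ Fin 2}
    (h0 : Dt B (fun j => B' none (old j)) (Pi.single j 1) ∉ I) (hr : Rat B a c p q) :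
    (∃ l l', Dt B' l l' ∉ I) ∧ ∃ ε : S, IsUnit ε ∧ Rat B' a' c' (ε * p) q := by
  obtain ⟨ε, hε, he⟩ := dt_step B B' h j
  have h3 : Dt B' (Pi.single (.inl none) 1) (Pi.single (old j) 1) ∉ I := by
    rw [he]
    exact mt (I.unit_mul_mem_iff_mem hε).1 h0
  obtain ⟨u, rfl⟩ := hε
  have h1 := hr (fun j => B' none (old j)) (Pi.single j 1)
  simp only [wd, a3, zero_mul, single_one_dotProduct, zero_sub] at h1
  refine ⟨⟨_, _, h3⟩, -((u⁻¹ : Sˣ) : S), (u⁻¹).isUnit.neg,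
    rat_of ha hc (fun e => h3 (by rw [e]; exact I.zero_mem)) ?_⟩
  simp only [wd, single_one_dotProduct, a1, a2, c1, he]
  linear_combination -h1 + p * Dt B (fun j => B' none (old j)) (Pi.single j 1) * u.inv_mul

end

namespace Dat

open EV.Dat (topb_indep)

variable {Γ κ : Type} [Group Γ] [Fintype κ] {D : Dat Γ κ} {n : ℕ} {s : D.St n} {y b : Bool}
  {I : Ideal La} {c c' : Γ → La} {p q : La}

/-- The ratio for the Kolyvagin class. -/
def Rt (s : D.St n) (y : Bool) (p q : La) : Prop :=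
  Rat (D.B s y) (fun j => D.ρ y true (D.gen s j) - 1) (fun j => D.kap s y (D.gen s j)) p q

theorem Ok.cob (h : D.Ok) (s : D.St n) (y : Bool) :
    (D.B s y *ᵥ fun j => D.ρ y true (D.gen s j) - 1) = 0 :=
  funext fun i => h.ker bot_ne_top ((h.pres s y true).cob ⊥)
    (fun j hj => sub_eq_zero.2 (h.deep s y true j hj).1) i

theorem Ok.kk (h : D.Ok) (s : D.St n) (y : Bool) :
    (D.B s y *ᵥ fun j => D.kap s y (D.gen s j)) = 0 :=
  funext fun i => h.ker bot_ne_top (h.kap_mem s y) (h.kap_φ s y) i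

/-- The ratio does not change at a prime at which a vector of the kernel does not vanish. -/
theorem Ok.adv (h : D.Ok) (hI : I.IsPrime) {s' : D.St (n + 1)} (he : D.Ext s s')
    (hc : c ∈ D.Z s y true I) (ht : D.Tr s I c) (c0 : c (D.φ s' none) ∉ I)
    (h0 : ∃ l l', Dt (D.B s y) l l' ∉ I) (hr : Rt s y p q) :
    (∃ l l', Dt (D.B s' y) l l' ∉ I) ∧ ∃ ε, IsUnit ε ∧ Rt s' y (ε * p) q := by
  obtain ⟨l, l', h0⟩ := h0
  have v := (h.pres s y true).val ⊥ bot_ne_top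
  have a := fun g => sub_eq_zero.1 (v _ ((h.pres s y true).cob ⊥) g)
  obtain ⟨j, hj⟩ : ∃ j, D.ρ y true (D.gen s j) - 1 ∉ I := not_forall.1 fun k =>
    hI.ne_top (I.eq_top_of_isUnit_mem (by rw [a]; exact topA_dot _ k) (h.vp y true))
  have e : (fun j => D.B s' y none (old j)) = D.L s y true (D.φ s' none) := funext he.B_none
  have a3 : D.L s y true (D.φ s' none) ⬝ᵥ (fun j => D.ρ y true (D.gen s j) - 1) = 0 :=
    (a _).symm.trans (sub_eq_zero.2 (h.deep s' y true none trivial).1)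
  have a4 : Dt (D.B s y) (D.L s y true (D.φ s' none)) (Pi.single j 1) ∉ I := by
    refine dt_mod hI (fun i => by rw [h.cob s y]; exact I.zero_mem) (h.ker hI.ne_top hc ht) h0
      fun k => ?_
    simp only [wd, a3, zero_mul, single_one_dotProduct, zero_sub, neg_mem_iff] at k
    exact c0 ((I.sub_mem_iff_left ((hI.mem_or_mem k).resolve_left hj)).1
      ((h.pres s y true).val I hI.ne_top c hc _))
  have a5 : D.kap s' y (D.gen s' (.inl none)) =
      -(D.L s y true (D.φ s' none) ⬝ᵥ fun j => D.kap s y (D.gen s j)) :=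
    (he.kap y).trans (congrArg Neg.neg (sub_eq_zero.1 (v _ (h.kap_mem s y) _)))
  rw [← e] at a3 a4 a5
  exact rat_next (B := D.B s y) (B' := D.B s' y) he.B (h.cob s' y) (h.kk s' y)
    (fun j => congrArg (D.ρ y true · - 1) (he.gen j))
    (sub_eq_zero.2 (h.deep s' y true none trivial).2.1) a3 a5 a4 hr

theorem Ok.kap_ne (h : D.Ok) (hp : p ≠ 0) (h0 : ∃ l l', Dt (D.B s y) l l' ∉ (⊥ : Ideal La))
    (hr : Rt s y p q) : ∃ g, D.hat y true (D.kap s y) g ∉ (⊥ : Ideal La) := by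
  obtain ⟨l, l', h0⟩ := h0
  by_contra! e
  exact mul_ne_zero hp h0 (by rw [← hr l l', h.hat_wd e l l', mul_zero])

/-- A chain along which the rank drops cannot go on for ever. -/
theorem Ok.stop (hI : I.IsPrime) {P : ∀ {n : ℕ}, D.St n → Prop} (h0 : P s)
    (h1 : ∀ {n : ℕ} (s : D.St n), P s → D.Zr s y I 3 ∧ ∃ s' : D.St (n + 1), P s' ∧
      ∀ m, D.Zr s' y I m → D.Zr s y I (m + 1)) : False := by
  have key : ∀ j, ∃ (n' : ℕ) (s' : D.St n'), P s' ∧ ∀ m, D.Zr s' y I m → D.Zr s y I (m + j) := by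
    intro j
    induction j with
    | zero => exact ⟨_, s, h0, fun _ k => k⟩
    | succ j ih =>
      obtain ⟨_, s', k1, k2⟩ := ih
      obtain ⟨-, s'', k3, k4⟩ := h1 s' k1
      exact ⟨_, s'', k3, fun m k => by
        rw [show m + (j + 1) = m + 1 + j by omega]
        exact k2 _ (k4 m k)⟩
  obtain ⟨_, s', k1, k2⟩ := key (Fintype.card (Jx κ n ⊕ Fin 2))
  obtain ⟨x, hx, -⟩ := k2 3 (h1 s' k1).1
  have := hx.le hI
  omega

theorem Ok.nopole (h : D.Ok) {P : La} (hP : Prime P) (hI : Gd y (Ideal.span {P})) (h1 : P ∣ q)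
    (h2 : ¬ P ∣ p) (h0 : ∃ l l', Dt (D.B s y) l l' ∉ (⊥ : Ideal La)) (hr : Rt s y p q) :
    False := by
  refine Ok.stop (y := y) (s := s) hI.prime
    (P := fun s => (∃ l l', Dt (D.B s y) l l' ∉ (⊥ : Ideal La)) ∧
    ∃ p, ¬ P ∣ p ∧ Rt s y p q) ⟨h0, p, h2, hr⟩ fun s ⟨k1, p, k2, k3⟩ => ?_
  have z : D.Zr s y (Ideal.span {P}) 3 := three_of_dt hI.prime fun l l' =>
    Ideal.mem_span_singleton.2 ((hP.dvd_or_dvd (by
      rw [← k3 l l']; exact h1.mul_right _)).resolve_left k2)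
  have n0 := h.kap_ne (fun e : p = 0 => k2 (by rw [e]; exact dvd_zero P)) k1 k3
  obtain ⟨s', he, n1, -, hz⟩ := h.drop hI z pr_bot pr_bot (h.kap_mem s y) (h.kap_mem s y) n0 n0
  obtain ⟨r1, ε, r2, r3⟩ := h.adv pr_bot.1 he (h.kap_mem s y) (h.kap_φ s y) n1 k1 k3
  exact ⟨z, s', ⟨r1, _, fun e => k2 ((hP.dvd_or_dvd e).resolve_left fun e' =>
    hP.not_isUnit (isUnit_of_dvd_unit e' r2)), r3⟩, hz⟩

/-- A vector of the kernel that is not a coboundary. -/
theorem Ok.vec (h : D.Ok) (hI : I.IsPrime) (s : D.St n) (y : Bool) :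
    ∃ c ∈ D.Z s y true I, D.Tr s I c ∧ ∃ g, D.hat y true c g ∉ I := by
  obtain ⟨x, x1, x2⟩ := exists_indep (m := 2) hI (D.B s y) (by
    rw [Fintype.card_sum, Fintype.card_fin])
  choose z z1 z2 z3 using fun a => h.of_ker hI.ne_top (x2 a)
  have i := topb_indep x1 z3
  by_contra! k
  have k := fun a => k _ (z1 a) (z2 a)
  have k1 : z 0 D.g0 ∈ I := I.neg_mem_iff.1 (i ![z 1 D.g0, -z 0 D.g0] (fun j =>
    (I.unit_mul_mem_iff_mem (h.vp y true)).1 (by
      convert I.sub_mem (I.mul_mem_left (z 1 D.g0) (k 0 (D.gen s j)))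
        (I.mul_mem_left (z 0 D.g0) (k 1 (D.gen s j))) using 1
      simp only [hat, Fin.sum_univ_two, cons_val_zero, cons_val_one]
      ring)) 1)
  refine hI.ne_top ((Ideal.eq_top_iff_one I).2 (i ![1, 0] (fun j => ?_) 0))
  simpa using (I.unit_mul_mem_iff_mem (h.vp y true)).1
    ((I.sub_mem_iff_left (I.mul_mem_left _ k1)).1 (k 0 (D.gen s j)))

/-- A stage at which the determinant is not zero modulo the prime above three. -/
theorem Ok.chain (h : D.Ok) {p' q' : La} (hp : p' ≠ 0)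
    (h0 : ∃ l l', Dt (D.B s true) l l' ∉ Ideal.span {(X : La)})
    (h0' : ∃ l l', Dt (D.B s false) l l' ∉ (⊥ : Ideal La)) (hr : Rt s true p q)
    (hr' : Rt s false p' q') : ∃ (n : ℕ) (s : D.St n) (ε ε' : La), IsUnit ε ∧ IsUnit ε' ∧
      Rt s true (ε * p) q ∧ Rt s false (ε' * p') q' ∧ ∃ l l', ¬ ww ∣ Dt (D.B s true) l l' := by
  by_contra! k
  refine Ok.stop (y := true) (s := s) gd_w.prime (P := fun s =>
    (∃ l l', Dt (D.B s true) l l' ∉ Ideal.span {(X : La)}) ∧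
    (∃ l l', Dt (D.B s false) l l' ∉ (⊥ : Ideal La)) ∧ ∃ ε ε' : La, IsUnit ε ∧ IsUnit ε' ∧
      Rt s true (ε * p) q ∧ Rt s false (ε' * p') q')
    ⟨h0, h0', 1, 1, isUnit_one, isUnit_one,
      by rw [one_mul]; exact hr, by rw [one_mul]; exact hr'⟩
    fun s ⟨k1, k2, ε, ε', u, u', k3, k4⟩ => ?_
  have z : D.Zr s true (Ideal.span {ww}) 3 := three_of_dt gd_w.prime fun l l' =>
    Ideal.mem_span_singleton.2 (k _ s ε ε' u u' k3 k4 l l')
  obtain ⟨c, c1, c2, c3⟩ := h.vec pr_X.1 s true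
  obtain ⟨s', he, n1, n2, hz⟩ := h.drop gd_w z pr_X pr_bot c1 (h.kap_mem s false) c3
    (h.kap_ne (mul_ne_zero u'.ne_zero hp) k2 k4)
  obtain ⟨r1, δ, r2, r3⟩ := h.adv pr_X.1 he c1 c2 n1 k1 k3
  obtain ⟨r1', δ', r2', r3'⟩ := h.adv pr_bot.1 he (h.kap_mem s false) (h.kap_φ s false) n2 k2 k4
  exact ⟨z, s', ⟨r1, r1', δ * ε, δ' * ε', r2.mul u, r2'.mul u',
    by rw [mul_assoc]; exact r3, by rw [mul_assoc]; exact r3'⟩, hz⟩

/-- The ratio in lowest terms. -/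
theorem Ok.exists_rt (h : D.Ok) (h0 : ∃ l l', Dt (D.B s y) l l' ∉ (⊥ : Ideal La)) :
    ∃ p q, q ≠ 0 ∧ IsRelPrime q p ∧ Rt s y p q := by
  obtain ⟨l, l', d0⟩ := h0
  have r := rat_of (h.cob s y) (h.kk s y) d0 (mul_comm _ _)
  obtain ⟨q, p, t, k1, k2, k3⟩ := UniqueFactorizationMonoid.exists_reduced_factors _ d0
    (wd (fun j => D.ρ y true (D.gen s j) - 1) (fun j => D.kap s y (D.gen s j)) l l')
  exact ⟨p, q, right_ne_zero_of_mul (k2.trans_ne d0), k1, fun m m' =>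
    mul_left_cancel₀ (left_ne_zero_of_mul (k2.trans_ne d0)) (by
      rw [← mul_assoc, ← mul_assoc, k2, k3]
      exact r m m')⟩

end Dat

end Pool.Agent.Lib.MP_696deb_nt.EV.D
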